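import Pool.Agent.Lib_helper10.CU.Defs

-- block ARC written by helper85
/-! Block ARC: the number of runs (helper85). -/

set_option autoImplicit false
open scoped BigOperators Topology
open Filter
noncomputable section

namespace Pool.Agent.Lib_helper10.CU

theorem arc_one_ne {N : ℕ} (hN : 3 ≤ N) : (1 : ZMod N) ≠ 0 := by
  have : Fact (1 < N) := ⟨by omega⟩
  exact one_ne_zero

theorem arc_two_ne {N : ℕ} (hN : 3 ≤ N) : (2 : ZMod N) ≠ 0 := by
  intro h
  have h1 : ((2 : ℕ) : ZMod N) = 0 := by exact_mod_cast h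
  rw [ZMod.natCast_eq_zero_iff] at h1
  exact absurd (Nat.le_of_dvd (by norm_num) h1) (by omega)

theorem arc_ne_succ {N : ℕ} (hN : 3 ≤ N) (v : ZMod N) : v ≠ v + 1 := by
  intro h
  exact arc_one_ne hN (by simpa using h.symm)

theorem arc_ne_pred {N : ℕ} (hN : 3 ≤ N) (v : ZMod N) : v ≠ v - 1 := by
  intro h
  exact arc_one_ne hN (sub_eq_self.1 h.symm)

theorem arc_succ_ne_pred {N : ℕ} (hN : 3 ≤ N) (v : ZMod N) : v + 1 ≠ v - 1 := by
  intro h
  apply arc_two_ne hN
  have : (v + 1) - (v - 1) = 0 := by rw [h, sub_self]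
  have h2 : (v + 1) - (v - 1) = (2 : ZMod N) := by ring
  rw [← h2, this]

theorem arc_fire_none {N K : ℕ} {c : Cfg N K} {v : ZMod N} (h : c v = none) : fire c v = c := by
  unfold fire; rw [h]

theorem arc_fire_some {N K : ℕ} {c : Cfg N K} {v : ZMod N} {j : Fin K} {k : ℕ}
    (h : c v = some (j, k)) (w : ZMod N) :
    fire c v w = if w = v + 1 ∨ w = v - 1 then recv j (c w) else c w := by
  unfold fire; rw [h]

theorem size_fire_pos_pr {N K : ℕ} [NeZero N] (hN : 3 ≤ N) (c : Cfg N K) (v : ZMod N)
    (hc : 0 < size c) : 0 < size (fire c v) := by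
  rcases hcv : c v with _ | ⟨j, k⟩
  · rw [arc_fire_none hcv]; exact hc
  · have h1 : fire c v v = some (j, k) := by
      rw [arc_fire_some hcv, if_neg, hcv]
      rintro (h | h)
      · exact arc_ne_succ hN v h
      · exact arc_ne_pred hN v h
    have h2 : cnt (fire c v) v = k + 1 := by unfold cnt; rw [h1]
    unfold size
    exact lt_of_lt_of_le (by omega : 0 < cnt (fire c v) v)
      (Finset.single_le_sum (f := fun x => cnt (fire c v) x) (fun _ _ => Nat.zero_le _)
        (Finset.mem_univ v))

theorem arc_chg_update {N K : ℕ} [NeZero N] (hN : 3 ≤ N) (t : ZMod N → Fin K) (u : ZMod N)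
    (x : Fin K) (hx : x = t (u - 1) ∨ x = t (u + 1)) : chg (Function.update t u x) ≤ chg t := by
  classical
  unfold chg
  set S := Finset.univ.filter (fun v => t v ≠ t (v + 1)) with hS
  set S' := Finset.univ.filter
    (fun v => Function.update t u x v ≠ Function.update t u x (v + 1)) with hS'
  have hu1 : u - 1 ≠ u := fun h => arc_ne_pred hN u h.symm
  have hu2 : u + 1 ≠ u := fun h => arc_ne_succ hN u h.symm
  have hm : ∀ w, w ∈ S ↔ t w ≠ t (w + 1) := by intro w; simp [hS]
  have hm' : ∀ w, w ∈ S' ↔ Function.update t u x w ≠ Function.update t u x (w + 1) := by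
    intro w; simp [hS']
  have hout : ∀ w, w ≠ u → w ≠ u - 1 → (w ∈ S' ↔ w ∈ S) := by
    intro w h1 h2
    have h3 : w + 1 ≠ u := fun h => h2 (by rw [← h]; ring)
    rw [hm, hm', Function.update_of_ne h1, Function.update_of_ne h3]
  have hmu : u ∈ S' ↔ x ≠ t (u + 1) := by
    rw [hm', Function.update_self, Function.update_of_ne hu2]
  have hmp : u - 1 ∈ S' ↔ t (u - 1) ≠ x := by
    rw [hm', sub_add_cancel, Function.update_self, Function.update_of_ne hu1]
  have hsm : u ∈ S ↔ t u ≠ t (u + 1) := hm u
  have hsp : u - 1 ∈ S ↔ t (u - 1) ≠ t u := by rw [hm, sub_add_cancel]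
  have key : ∀ a b : ZMod N, b ∈ S → S' ⊆ insert a (S.erase b) → S'.card ≤ S.card := by
    intro a b hb hsub
    refine (Finset.card_le_card hsub).trans ((Finset.card_insert_le _ _).trans ?_)
    rw [Finset.card_erase_of_mem hb]
    have := Finset.card_pos.2 ⟨b, hb⟩
    omega
  rcases hx with hx | hx
  · have hp : u - 1 ∉ S' := by rw [hmp]; simp [hx]
    by_cases h1 : u ∈ S' → u ∈ S
    · refine Finset.card_le_card fun w hw => ?_
      by_cases hwu : w = u
      · rw [hwu] at hw ⊢; exact h1 hw
      · by_cases hwp : w = u - 1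
        · rw [hwp] at hw; exact absurd hw hp
        · exact (hout w hwu hwp).1 hw
    · push Not at h1
      obtain ⟨h2, h3⟩ := h1
      have h4 : t u = t (u + 1) := by rw [hsm] at h3; push Not at h3; exact h3
      have h5 : t (u - 1) ≠ t (u + 1) := by rw [hmu, hx] at h2; exact h2
      have hb : u - 1 ∈ S := by rw [hsp, h4]; exact h5
      refine key u (u - 1) hb fun w hw => ?_
      rw [Finset.mem_insert, Finset.mem_erase]
      by_cases hwu : w = u
      · left; exact hwu
      · right
        have hwp : w ≠ u - 1 := fun h => hp (h ▸ hw)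
        exact ⟨hwp, (hout w hwu hwp).1 hw⟩
  · have hp : u ∉ S' := by rw [hmu]; simp [hx]
    by_cases h1 : u - 1 ∈ S' → u - 1 ∈ S
    · refine Finset.card_le_card fun w hw => ?_
      by_cases hwu : w = u
      · rw [hwu] at hw; exact absurd hw hp
      · by_cases hwp : w = u - 1
        · rw [hwp] at hw ⊢; exact h1 hw
        · exact (hout w hwu hwp).1 hw
    · push Not at h1
      obtain ⟨h2, h3⟩ := h1
      have h4 : t (u - 1) = t u := by rw [hsp] at h3; push Not at h3; exact h3
      have h5 : t (u - 1) ≠ t (u + 1) := by rw [hmp, hx] at h2; exact h2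
      have hb : u ∈ S := by rw [hsm, ← h4]; exact h5
      refine key (u - 1) u hb fun w hw => ?_
      rw [Finset.mem_insert, Finset.mem_erase]
      by_cases hwp : w = u - 1
      · left; exact hwp
      · right
        have hwu : w ≠ u := fun h => hp (h ▸ hw)
        exact ⟨hwu, (hout w hwu hwp).1 hw⟩

theorem arc_exists_fill {N K : ℕ} (c : Cfg N K) (j : Fin K) : ∃ t, Fill c t := by
  refine ⟨fun v => match c v with
    | none => j
    | some (i, _) => i, fun v i k h => ?_⟩
  simp only [h]

theorem arc_exists_opt {N K : ℕ} [NeZero N] (c : Cfg N K) (j : Fin K) :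
    ∃ t, Fill c t ∧ chg t = arcs c := by
  obtain ⟨t, ht⟩ := arc_exists_fill c j
  exact Nat.sInf_mem (s := {m | ∃ t, Fill c t ∧ chg t = m}) ⟨_, t, ht, rfl⟩

theorem arc_arcs_le {N K : ℕ} [NeZero N] {c : Cfg N K} {t : ZMod N → Fin K} (ht : Fill c t) :
    arcs c ≤ chg t := Nat.sInf_le ⟨t, ht, rfl⟩

theorem arc_recv {K : ℕ} {j i : Fin K} {l : ℕ} {x : Urn K} (h : recv j x = some (i, l)) :
    (x = none ∧ i = j) ∨ ∃ l', x = some (i, l') := by
  rcases x with _ | ⟨i', k'⟩
  · left
    simp only [recv, Option.some.injEq, Prod.mk.injEq] at h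
    exact ⟨rfl, h.1.symm⟩
  · right
    by_cases hij : i' = j
    · simp only [recv, if_pos hij, Option.some.injEq, Prod.mk.injEq] at h
      exact ⟨k', by rw [h.1]⟩
    · rcases k' with _ | k''
      · simp [recv, if_neg hij] at h
      · simp only [recv, if_neg hij, Option.some.injEq, Prod.mk.injEq] at h
        exact ⟨k'' + 1, by rw [h.1]⟩

theorem arcs_fire_le_pr {N K : ℕ} [NeZero N] (hN : 3 ≤ N) (c : Cfg N K) (v : ZMod N) :
    arcs (fire c v) ≤ arcs c := by
  classical
  rcases hcv : c v with _ | ⟨j, k⟩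
  · rw [arc_fire_none hcv]
  · obtain ⟨t, ht, htc⟩ := arc_exists_opt c j
    have htv : t v = j := ht v j k hcv
    set t1 : ZMod N → Fin K := if c (v + 1) = none then Function.update t (v + 1) (t v) else t
      with ht1
    have hc1 : chg t1 ≤ chg t := by
      rw [ht1]
      split_ifs
      · refine arc_chg_update hN t (v + 1) (t v) (Or.inl ?_)
        rw [add_sub_cancel_right]
      · exact le_rfl
    have ht1v : t1 v = j := by
      rw [ht1]
      split_ifs
      · rw [Function.update_of_ne (arc_ne_succ hN v), htv]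
      · exact htv
    set t2 : ZMod N → Fin K := if c (v - 1) = none then Function.update t1 (v - 1) (t1 v) else t1
      with ht2
    have hc2 : chg t2 ≤ chg t1 := by
      rw [ht2]
      split_ifs
      · refine arc_chg_update hN t1 (v - 1) (t1 v) (Or.inr ?_)
        rw [sub_add_cancel]
      · exact le_rfl
    rw [← htc]
    refine le_trans (arc_arcs_le ?_) (hc2.trans hc1)
    have h1out : ∀ w, w ≠ v + 1 → t1 w = t w := by
      intro w hw
      rw [ht1]
      split_ifs
      · rw [Function.update_of_ne hw]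
      · rfl
    have h2out : ∀ w, w ≠ v - 1 → t2 w = t1 w := by
      intro w hw
      rw [ht2]
      split_ifs
      · rw [Function.update_of_ne hw]
      · rfl
    intro w i l hw
    rw [arc_fire_some hcv] at hw
    by_cases hw1 : w = v + 1
    · subst hw1
      rw [if_pos (Or.inl rfl)] at hw
      rw [h2out _ (arc_succ_ne_pred hN v)]
      rcases arc_recv hw with ⟨hn, hij⟩ | ⟨l', hl'⟩
      · rw [ht1, if_pos hn, Function.update_self, htv, hij]
      · rw [ht1, if_neg (by rw [hl']; simp)]
        exact ht _ _ _ hl'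
    · by_cases hw2 : w = v - 1
      · subst hw2
        rw [if_pos (Or.inr rfl)] at hw
        rcases arc_recv hw with ⟨hn, hij⟩ | ⟨l', hl'⟩
        · rw [ht2, if_pos hn, Function.update_self, ht1v, hij]
        · rw [ht2, if_neg (by rw [hl']; simp), h1out _ hw1]
          exact ht _ _ _ hl'
      · rw [if_neg (by rintro (h | h); exacts [hw1 h, hw2 h])] at hw
        rw [h2out _ hw2, h1out _ hw1]
        exact ht _ _ _ hw

theorem arc_chg_ne_one {N K : ℕ} [NeZero N] (hN : 3 ≤ N) (t : ZMod N → Fin K) : chg t ≠ 1 := by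
  classical
  intro h
  unfold chg at h
  rw [Finset.card_eq_one] at h
  obtain ⟨v, hv⟩ := h
  have h1 : ∀ w, t w ≠ t (w + 1) ↔ w = v := by
    intro w
    have : w ∈ Finset.univ.filter (fun v => t v ≠ t (v + 1)) ↔ w ∈ ({v} : Finset (ZMod N)) := by
      rw [hv]
    simpa using this
  have h2 : ∀ k : ℕ, k + 1 ≤ N → t (v + 1 + k) = t (v + 1) := by
    intro k
    induction k with
    | zero => intro _; simp
    | succ k ih =>
      intro hk
      rw [← ih (by omega)]
      have h3 : v + 1 + (k : ZMod N) ≠ v := by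
        intro h4
        have h5 : ((k + 1 : ℕ) : ZMod N) = 0 := by
          have : v + 1 + (k : ZMod N) - v = 0 := by rw [h4, sub_self]
          rw [← this]; push_cast; ring
        rw [ZMod.natCast_eq_zero_iff] at h5
        exact absurd (Nat.le_of_dvd (by omega) h5) (by omega)
      have h4 : t (v + 1 + (k : ZMod N)) = t (v + 1 + (k : ZMod N) + 1) := by
        by_contra hcon
        exact h3 ((h1 _).1 hcon)
      rw [h4]
      congr 1
      push_cast
      ring
  have h3 := h2 (N - 1) (by omega)
  have h4 : v + 1 + ((N - 1 : ℕ) : ZMod N) = v := by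
    have : ((N - 1 : ℕ) : ZMod N) = -1 := by
      have h5 : ((N - 1 + 1 : ℕ) : ZMod N) = 0 := by
        rw [show N - 1 + 1 = N by omega]; simp
      push_cast at h5
      exact eq_neg_of_add_eq_zero_left h5
    rw [this]; ring
  rw [h4] at h3
  exact ((h1 v).2 rfl) h3

theorem arcs_ne_one_pr {N K : ℕ} [NeZero N] (hN : 3 ≤ N) (c : Cfg N K) : arcs c ≠ 1 := by
  intro h
  unfold arcs at h
  have h1 : (1 : ℕ) ∈ {m | ∃ t, Fill c t ∧ chg t = m} := by
    rw [← h]
    refine Nat.sInf_mem ?_
    by_contra hne
    rw [Set.not_nonempty_iff_eq_empty] at hne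
    rw [hne] at h
    simp at h
  obtain ⟨t, _, ht⟩ := h1
  exact arc_chg_ne_one hN t ht

set_option linter.unusedVariables false in
theorem mono_of_arcs_zero_pr {N K : ℕ} [NeZero N] (hN : 3 ≤ N) (c : Cfg N K) (h : arcs c = 0) :
    Mono c := by
  classical
  intro v w i j k l hv hw
  obtain ⟨t, ht, htc⟩ := arc_exists_opt c i
  rw [h] at htc
  unfold chg at htc
  rw [Finset.card_eq_zero, Finset.filter_eq_empty_iff] at htc
  have h1 : ∀ u, t (u + 1) = t u := by
    intro u
    have := htc (Finset.mem_univ u)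
    push Not at this
    exact this.symm
  have h2 : ∀ (n : ℕ) (u : ZMod N), t (u + n) = t u := by
    intro n
    induction n with
    | zero => intro u; simp
    | succ n ih =>
      intro u
      rw [← ih u, ← h1 (u + n)]
      congr 1
      push_cast
      ring
  have h3 : t w = t v := by
    have := h2 (w - v).val v
    rwa [ZMod.natCast_zmod_val, add_sub_cancel] at this
  rw [← ht v i k hv, ← ht w j l hw, h3]

alias size_fire_pos := size_fire_pos_pr
alias arcs_fire_le := arcs_fire_le_pr
alias arcs_ne_one := arcs_ne_one_pr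
alias mono_of_arcs_zero := mono_of_arcs_zero_pr

end Pool.Agent.Lib_helper10.CU
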