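import Pool.Agent.Lib_helper10.CU.Defs

-- block CHART written by helper20
set_option autoImplicit false
open scoped BigOperators Topology
open Filter
noncomputable section

namespace Pool.Agent.Lib_helper10.CU

/-! ## CHART : in a window the urn pair chain is the signed pair chain -/

/-- content of an urn with signed value `x` -/
def chart_C {K : ℕ} (T' : Bool → Fin K) (x : ℤ) : Urn K :=
  if x = 0 then none else some (T' (decide (0 < x)), x.natAbs - 1)

theorem chart_cfgT {N K : ℕ} (T : ZMod N → Bool → Fin K) (y : ZV N) (v : ZMod N) :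
    cfgT T y v = chart_C (T v) (y v) := rfl

theorem chart_recv {K : ℕ} (T' : Bool → Fin K) (j : Fin K) (x u : ℤ) (hu : u = 1 ∨ u = -1)
    (h1 : x ≠ 0 → (T' (decide (0 < x)) = j ↔ 0 < u * x))
    (h0 : x = 0 → T' (decide (0 < u)) = j) :
    recv j (chart_C T' x) = chart_C T' (x + u) := by
  rcases eq_or_ne x 0 with hx | hx
  · subst hx
    have h0' := h0 rfl
    have hu0 : u ≠ 0 := by rcases hu with h | h <;> omega
    have hua : u.natAbs - 1 = 0 := by rcases hu with h | h <;> subst h <;> rfl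
    unfold chart_C
    rw [if_pos rfl, zero_add, if_neg hu0, h0', hua]
    rfl
  · have h1' := h1 hx
    have hC : chart_C T' x = some (T' (decide (0 < x)), x.natAbs - 1) := if_neg hx
    rw [hC]
    by_cases hpos : 0 < u * x
    · have ht := h1'.mpr hpos
      have hne : x + u ≠ 0 := by
        rintro h
        have : x = -u := by omega
        rw [this] at hpos
        nlinarith [mul_self_nonneg u]
      have hsg : (0 < x + u) ↔ (0 < x) := by
        rcases hu with h | h <;> subst h <;> constructor <;> intro h' <;> omega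
      have hab : (x + u).natAbs - 1 = x.natAbs - 1 + 1 := by
        rcases hu with h | h <;> subst h <;> omega
      have hr : recv j (some (T' (decide (0 < x)), x.natAbs - 1)) =
          some (T' (decide (0 < x)), x.natAbs - 1 + 1) := by
        unfold recv
        exact if_pos ht
      rw [hr]
      unfold chart_C
      rw [if_neg hne, hab, decide_eq_decide.mpr hsg]
    · have ht : T' (decide (0 < x)) ≠ j := fun h => hpos (h1'.mp h)
      rcases Nat.eq_zero_or_pos (x.natAbs - 1) with hk | hk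
      · have hz : x + u = 0 := by
          rcases hu with h | h <;> subst h <;> omega
        rw [hk, hz]
        have hr : recv j (some (T' (decide (0 < x)), 0)) = none := by
          unfold recv
          exact if_neg ht
        rw [hr]
        rfl
      · obtain ⟨k, hk'⟩ : ∃ k, x.natAbs - 1 = k + 1 := ⟨x.natAbs - 2, by omega⟩
        have hne : x + u ≠ 0 := by
          rcases hu with h | h <;> subst h <;> omega
        have hsg : (0 < x + u) ↔ (0 < x) := by
          rcases hu with h | h <;> subst h <;> constructor <;> intro h' <;> omega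
        have hab : (x + u).natAbs - 1 = k := by
          rcases hu with h | h <;> subst h <;> omega
        rw [hk']
        have hr : recv j (some (T' (decide (0 < x)), k + 1)) = some (T' (decide (0 < x)), k) := by
          unfold recv
          exact if_neg ht
        rw [hr]
        unfold chart_C
        rw [if_neg hne, hab, decide_eq_decide.mpr hsg]

theorem chart_pos2 (a b : ℤ) : 0 < a * b ↔ a.sign * b.sign = 1 := by
  rw [← Int.sign_eq_one_iff_pos, Int.sign_mul]

theorem chart_pos3 (a b c : ℤ) : 0 < a * b * c ↔ a.sign * b.sign * c.sign = 1 := by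
  rw [← Int.sign_eq_one_iff_pos, Int.sign_mul, Int.sign_mul]

theorem chart_sign (a : ℤ) (h : a ≠ 0) : a.sign = 1 ∨ a.sign = -1 := by
  rcases lt_or_gt_of_ne h with h | h
  · right; exact Int.sign_eq_neg_one_of_neg h
  · left; exact Int.sign_eq_one_of_pos h

theorem chart_rate {N K : ℕ} (lam : Fin K → ℝ) (T : ZMod N → Bool → Fin K) (a : ZV N)
    (v : ZMod N) :
    rate lam (cfgT T a) v = rz (fun v => lam (T v true)) (fun v => lam (T v false)) a v := by
  unfold rate rz
  rw [chart_cfgT]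
  rcases lt_trichotomy (a v) 0 with h | h | h
  · have hC : chart_C (T v) (a v) = some (T v false, (a v).natAbs - 1) := by
      unfold chart_C
      rw [if_neg h.ne]
      have : decide (0 < a v) = false := decide_eq_false (by omega)
      rw [this]
    rw [hC, if_neg (by omega)]
    have h2 : (((a v).natAbs - 1 : ℕ) : ℝ) + 1 = -(a v : ℝ) := by
      have h3 : (((a v).natAbs - 1 : ℕ) : ℤ) + 1 = -(a v) := by omega
      exact_mod_cast h3
    show lam (T v false) * ((((a v).natAbs - 1 : ℕ) : ℝ) + 1) = _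
    rw [h2]
  · have hC : chart_C (T v) (a v) = none := if_pos h
    rw [hC, if_neg (by omega), h]
    simp
  · have hC : chart_C (T v) (a v) = some (T v true, (a v).natAbs - 1) := by
      unfold chart_C
      rw [if_neg h.ne']
      have : decide (0 < a v) = true := decide_eq_true h
      rw [this]
    rw [hC, if_pos h]
    have h2 : (((a v).natAbs - 1 : ℕ) : ℝ) + 1 = (a v : ℝ) := by
      have h3 : (((a v).natAbs - 1 : ℕ) : ℤ) + 1 = (a v) := by omega
      exact_mod_cast h3
    show lam (T v true) * ((((a v).natAbs - 1 : ℕ) : ℝ) + 1) = _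
    rw [h2]

theorem fv_cfgT_pr {N K : ℕ} (lam : Fin K → ℝ) (T : ZMod N → Bool → Fin K) (a : ZV N) :
    fv lam (cfgT T a) a = fz (fun v => lam (T v true)) (fun v => lam (T v false)) a := by
  funext v
  unfold fv fz
  rw [chart_rate]
  unfold rz
  rcases lt_trichotomy (a v) 0 with h | h | h
  · rw [if_neg (by omega), if_neg (by omega), Int.sign_eq_neg_one_of_neg h]
    push_cast
    ring
  · rw [if_neg (by omega), if_neg (by omega), h]
    simp
  · rw [if_pos h, if_pos h, Int.sign_eq_one_of_pos h]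
    push_cast
    ring

theorem chart_sign_eq {a b : ℤ} (h : 0 < a * b) : a.sign = b.sign := by
  have ha : a ≠ 0 := by rintro rfl; simp at h
  have hb : b ≠ 0 := by rintro rfl; simp at h
  rw [chart_pos2] at h
  rcases chart_sign a ha with h1 | h1 <;> rcases chart_sign b hb with h2 | h2 <;>
    rw [h1, h2] at h <;> rw [h1, h2] <;> revert h <;> decide

theorem chart_dec {a c : ℤ} (ha : a ≠ 0) (hc : c ≠ 0) :
    (decide (0 < a) = decide (0 < c)) ↔ a.sign = c.sign := by
  rw [decide_eq_decide]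
  rcases lt_or_gt_of_ne ha with h1 | h1 <;> rcases lt_or_gt_of_ne hc with h2 | h2
  · rw [Int.sign_eq_neg_one_of_neg h1, Int.sign_eq_neg_one_of_neg h2]
    constructor
    · intro; rfl
    · intro; constructor <;> intro h <;> omega
  · rw [Int.sign_eq_neg_one_of_neg h1, Int.sign_eq_one_of_pos h2]
    constructor
    · intro h; have := h.mpr h2; omega
    · intro h; exact absurd h (by decide)
  · rw [Int.sign_eq_one_of_pos h1, Int.sign_eq_neg_one_of_neg h2]
    constructor
    · intro h; have := h.mp h1; omega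
    · intro h; exact absurd h (by decide)
  · rw [Int.sign_eq_one_of_pos h1, Int.sign_eq_one_of_pos h2]
    constructor
    · intro; rfl
    · intro; exact ⟨fun _ => h2, fun _ => h1⟩

open Classical in
/-- the chart -/
def chart_T {N K : ℕ} (ε y0 : ZV N) (B : ZMod N → Prop) (tt : ZMod N → Fin K)
    (v : ZMod N) (s : Bool) : Fin K :=
  if B v then tt v else if s = decide (0 < ε (v - 1) * y0 (v - 1)) then tt (v - 1)
    else tt (v + 1)

theorem chart_T_B {N K : ℕ} (ε y0 : ZV N) (B : ZMod N → Prop) (tt : ZMod N → Fin K)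
    (v : ZMod N) (s : Bool) (h : B v) : chart_T ε y0 B tt v s = tt v := if_pos h

theorem chart_T_same {N K : ℕ} (ε y0 : ZV N) (B : ZMod N → Prop) (tt : ZMod N → Fin K)
    (v : ZMod N) (a : ℤ) (h : ¬ B v) (ha : a ≠ 0) (hc : ε (v - 1) * y0 (v - 1) ≠ 0)
    (hs : a.sign = (ε (v - 1) * y0 (v - 1)).sign) :
    chart_T ε y0 B tt v (decide (0 < a)) = tt (v - 1) := by
  unfold chart_T
  rw [if_neg h, if_pos ((chart_dec ha hc).mpr hs)]

theorem chart_T_diff {N K : ℕ} (ε y0 : ZV N) (B : ZMod N → Prop) (tt : ZMod N → Fin K)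
    (v : ZMod N) (a : ℤ) (h : ¬ B v) (ha : a ≠ 0) (hc : ε (v - 1) * y0 (v - 1) ≠ 0)
    (hs : a.sign ≠ (ε (v - 1) * y0 (v - 1)).sign) :
    chart_T ε y0 B tt v (decide (0 < a)) = tt (v + 1) := by
  unfold chart_T
  rw [if_neg h, if_neg (fun h' => hs ((chart_dec ha hc).mp h'))]

theorem chart_ne {N : ℕ} {ε : ZV N} (hε : IsSgnZ ε) (v : ZMod N) : ε v ≠ 0 := by
  rcases hε v with h | h <;> rw [h] <;> decide

/-- signs at a vertex outside `B` -/
theorem chart_outside {N : ℕ} {ε y0 : ZV N} (hε : IsSgnZ ε) {B : ZMod N → Prop}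
    (hy : ∀ v, B v → y0 v ≠ 0) {w : ZMod N}
    (hS : B (w - 1) ∧ B (w + 1) ∧ ε (w - 1) * ε w * y0 (w - 1) * y0 (w + 1) < 0) :
    ε (w - 1) * y0 (w - 1) ≠ 0 ∧
      (ε w * y0 (w + 1)).sign = -(ε (w - 1) * y0 (w - 1)).sign := by
  obtain ⟨h1, h2, h3⟩ := hS
  have e1 := chart_ne hε (w - 1)
  have e2 := chart_ne hε w
  have y1 := hy _ h1
  have y2 := hy _ h2
  refine ⟨mul_ne_zero e1 y1, ?_⟩
  have h4 := Int.sign_eq_neg_one_of_neg h3
  rw [Int.sign_mul, Int.sign_mul, Int.sign_mul] at h4
  rw [Int.sign_mul, Int.sign_mul]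
  rcases chart_sign _ e1 with a1 | a1 <;> rcases chart_sign _ e2 with a2 | a2 <;>
    rcases chart_sign _ y1 with a3 | a3 <;> rcases chart_sign _ y2 with a4 | a4 <;>
    rw [a1, a2, a3, a4] at h4 <;> rw [a1, a2, a3, a4] <;> revert h4 <;> decide

theorem chart_star {N K : ℕ} {ε y0 : ZV N} (hε : IsSgnZ ε) {B : ZMod N → Prop}
    {tt : ZMod N → Fin K} (hy : ∀ v, B v → y0 v ≠ 0)
    (hS : ∀ w, ¬ B w → B (w - 1) ∧ B (w + 1) ∧ ε (w - 1) * ε w * y0 (w - 1) * y0 (w + 1) < 0)
    (hBB : ∀ v, B v → B (v + 1) → (tt v = tt (v + 1) ↔ 0 < ε v * y0 v * y0 (v + 1)))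
    (hne : ∀ w, ¬ B w → tt (w - 1) ≠ tt (w + 1)) (v : ZMod N) (a b : ℤ) (ha : a ≠ 0)
    (hb : b ≠ 0) (hav : B v → 0 < a * y0 v) (hbv : B (v + 1) → 0 < b * y0 (v + 1)) :
    (chart_T ε y0 B tt v (decide (0 < a)) = chart_T ε y0 B tt (v + 1) (decide (0 < b)) ↔
      0 < ε v * a * b) := by
  have e := chart_ne hε v
  by_cases h1 : B v
  · have ea := chart_sign_eq (hav h1)
    rw [chart_T_B _ _ _ _ _ _ h1]
    by_cases h2 : B (v + 1)
    · have eb := chart_sign_eq (hbv h2)
      rw [chart_T_B _ _ _ _ _ _ h2, hBB v h1 h2, chart_pos3, chart_pos3, ea, eb]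
    · have ho := chart_outside hε hy (hS _ h2)
      have hn := hne _ h2
      have e1 : v + 1 - 1 = v := by ring
      have hT1 := chart_T_same ε y0 B tt (v + 1) b h2 hb ho.1
      have hT2 := chart_T_diff ε y0 B tt (v + 1) b h2 hb ho.1
      rw [e1] at hn hT1 hT2
      rw [chart_pos3, ea]
      by_cases hs : b.sign = (ε v * y0 v).sign
      · rw [hT1 hs, hs, Int.sign_mul]
        have y1 := hy v h1
        refine ⟨fun _ => ?_, fun _ => rfl⟩
        rcases chart_sign _ e with a1 | a1 <;> rcases chart_sign _ y1 with a2 | a2 <;>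
          rw [a1, a2] <;> decide
      · rw [hT2 hs]
        refine ⟨fun h => absurd h hn, fun h => absurd ?_ hs⟩
        rw [Int.sign_mul]
        have y1 := hy v h1
        rcases chart_sign _ e with a1 | a1 <;> rcases chart_sign _ y1 with a2 | a2 <;>
          rcases chart_sign _ hb with a3 | a3 <;>
          rw [a1, a2, a3] at h <;> rw [a1, a2, a3] <;> revert h <;> decide
  · have ho := chart_outside hε hy (hS _ h1)
    have hn := hne _ h1
    have h2 := (hS _ h1).2.1
    have eb := chart_sign_eq (hbv h2)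
    have hT1 := chart_T_same ε y0 B tt v a h1 ha ho.1
    have hT2 := chart_T_diff ε y0 B tt v a h1 ha ho.1
    rw [chart_T_B _ _ _ _ _ _ h2, chart_pos3, eb]
    have ho2 := ho.2
    rw [Int.sign_mul] at ho2
    have y1 := hy _ h2
    by_cases hs : a.sign = (ε (v - 1) * y0 (v - 1)).sign
    · rw [hT1 hs]
      refine ⟨fun h => absurd h hn, fun h => ?_⟩
      exfalso
      rw [← hs] at ho2
      rcases chart_sign _ e with a1 | a1 <;> rcases chart_sign _ y1 with a2 | a2 <;>
          rcases chart_sign _ ha with a3 | a3 <;>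
          rw [a1, a2, a3] at h ho2 <;> revert h ho2 <;> decide
    · rw [hT2 hs]
      refine ⟨fun _ => ?_, fun _ => rfl⟩
      rcases chart_sign _ e with a1 | a1 <;> rcases chart_sign _ y1 with a2 | a2 <;>
          rcases chart_sign _ ha with a3 | a3 <;>
          rcases chart_sign _ ho.1 with a4 | a4 <;>
          rw [a3, a4] at hs <;> rw [a1, a2, a4] at ho2 <;> rw [a1, a2, a3] <;>
          revert hs ho2 <;> decide

theorem chart_inj {N K : ℕ} {ε y0 : ZV N} (hε : IsSgnZ ε) {B : ZMod N → Prop}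
    {tt : ZMod N → Fin K} (hy : ∀ v, B v → y0 v ≠ 0)
    (hS : ∀ w, ¬ B w → B (w - 1) ∧ B (w + 1) ∧ ε (w - 1) * ε w * y0 (w - 1) * y0 (w + 1) < 0)
    (hne : ∀ w, ¬ B w → tt (w - 1) ≠ tt (w + 1)) (v : ZMod N) (a b : ℤ) (ha : a ≠ 0)
    (hb : b ≠ 0) (hav : B v → 0 < a * y0 v) (hbv : B v → 0 < b * y0 v) :
    (chart_T ε y0 B tt v (decide (0 < a)) = chart_T ε y0 B tt v (decide (0 < b)) ↔
      0 < a * b) := by
  by_cases h1 : B v
  · have ea := chart_sign_eq (hav h1)
    have eb := chart_sign_eq (hbv h1)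
    rw [chart_T_B _ _ _ _ _ _ h1, chart_T_B _ _ _ _ _ _ h1, chart_pos2, ea, eb]
    refine ⟨fun _ => ?_, fun _ => rfl⟩
    rcases chart_sign _ (hy v h1) with a1 | a1 <;> rw [a1] <;> decide
  · have ho := chart_outside hε hy (hS _ h1)
    have hn := hne _ h1
    have hT1 := chart_T_same ε y0 B tt v a h1 ha ho.1
    have hT2 := chart_T_diff ε y0 B tt v a h1 ha ho.1
    have hT3 := chart_T_same ε y0 B tt v b h1 hb ho.1
    have hT4 := chart_T_diff ε y0 B tt v b h1 hb ho.1
    rw [chart_pos2]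
    by_cases hs : a.sign = (ε (v - 1) * y0 (v - 1)).sign <;>
      by_cases ht : b.sign = (ε (v - 1) * y0 (v - 1)).sign
    · rw [hT1 hs, hT3 ht, hs, ht]
      refine ⟨fun _ => ?_, fun _ => rfl⟩
      rcases chart_sign _ ho.1 with a1 | a1 <;> rw [a1] <;> decide
    · rw [hT1 hs, hT4 ht, hs]
      refine ⟨fun h => absurd h hn, fun h => absurd ?_ ht⟩
      rcases chart_sign _ ho.1 with a1 | a1 <;> rcases chart_sign _ hb with a2 | a2 <;>
        rw [a1, a2] at h <;> rw [a1, a2] <;> revert h <;> decide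
    · rw [hT2 hs, hT3 ht, ht]
      refine ⟨fun h => absurd h.symm hn, fun h => absurd ?_ hs⟩
      rcases chart_sign _ ho.1 with a1 | a1 <;> rcases chart_sign _ ha with a2 | a2 <;>
        rw [a1, a2] at h <;> rw [a1, a2] <;> revert h <;> decide
    · rw [hT2 hs, hT4 ht]
      refine ⟨fun _ => ?_, fun _ => rfl⟩
      rcases chart_sign _ ho.1 with a1 | a1 <;> rcases chart_sign _ ha with a2 | a2 <;>
        rcases chart_sign _ hb with a3 | a3 <;>
        rw [a1, a2] at hs <;> rw [a1, a3] at ht <;> rw [a2, a3] <;> revert hs ht <;> decide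

theorem chart_step {N : ℕ} (hN : 3 ≤ N) (v : ZMod N) : v + 1 ≠ v - 1 := by
  intro h
  have h2 : (2 : ZMod N) = 0 := by
    have : v + 1 - (v - 1) = 0 := by rw [h]; ring
    calc (2 : ZMod N) = v + 1 - (v - 1) := by ring
      _ = 0 := this
  have h3 : ((2 : ℕ) : ZMod N) = 0 := by exact_mod_cast h2
  rw [ZMod.natCast_eq_zero_iff] at h3
  have := Nat.le_of_dvd (by norm_num) h3
  omega

theorem chart_some {N K : ℕ} (T : ZMod N → Bool → Fin K) (a : ZV N) (v : ZMod N) (h : a v ≠ 0) :
    cfgT T a v = some (T v (decide (0 < a v)), (a v).natAbs - 1) := if_neg h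

theorem chart_none {N K : ℕ} (T : ZMod N → Bool → Fin K) (a : ZV N) (v : ZMod N) (h : a v = 0) :
    cfgT T a v = none := if_pos h

theorem chart_fire {N K : ℕ} (hN : 3 ≤ N) {ε y0 : ZV N} (hε : IsSgnZ ε) {B : ZMod N → Prop}
    {T : ZMod N → Bool → Fin K}
    (hstar : ∀ (v : ZMod N) (a b : ℤ), a ≠ 0 → b ≠ 0 → (B v → 0 < a * y0 v) →
      (B (v + 1) → 0 < b * y0 (v + 1)) →
      (T v (decide (0 < a)) = T (v + 1) (decide (0 < b)) ↔ 0 < ε v * a * b))
    (a : ZV N) (v : ZMod N) (hsg : ∀ w, B w → 0 < a w * y0 w) (hav : a v ≠ 0) :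
    fire (cfgT T a) v = cfgT T (fireZ ε a v) := by
  have hfire : fire (cfgT T a) v = fun w => if w = v + 1 ∨ w = v - 1 then
      recv (T v (decide (0 < a v))) (cfgT T a w) else cfgT T a w := by
    unfold fire
    rw [chart_some T a v hav]
  rw [hfire]
  funext w
  rw [chart_cfgT T (fireZ ε a v) w, chart_cfgT T a w]
  have hsa := chart_sign _ hav
  by_cases h1 : w = v + 1
  · subst h1
    rw [if_pos (Or.inl rfl)]
    have hz : fireZ ε a v (v + 1) = a (v + 1) + ε v * Int.sign (a v) := by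
      unfold fireZ
      rw [if_pos rfl, if_neg (chart_step hN v), add_zero]
    rw [hz]
    refine chart_recv _ _ _ _ ?_ ?_ ?_
    · rcases hε v with e | e <;> rcases hsa with e' | e' <;> rw [e, e'] <;> decide
    · intro hx
      have h := hstar v (a v) (a (v + 1)) hav hx (hsg v) (hsg (v + 1))
      rw [chart_pos3] at h
      rw [eq_comm, h, chart_pos3, Int.sign_sign]
    · intro hx
      have hu : ε v * Int.sign (a v) ≠ 0 :=
        mul_ne_zero (chart_ne hε v) (by rcases hsa with e | e <;> rw [e] <;> decide)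
      have h := hstar v (a v) (ε v * Int.sign (a v)) hav hu (hsg v) (fun hB => by
        have := hsg _ hB
        rw [hx, zero_mul] at this
        exact absurd this (lt_irrefl _))
      rw [eq_comm, h, chart_pos3, Int.sign_mul, Int.sign_sign]
      rcases chart_sign _ (chart_ne hε v) with e | e <;> rcases hsa with e' | e' <;>
        rw [e, e'] <;> decide
  · by_cases h2 : w = v - 1
    · obtain ⟨w', rfl⟩ : ∃ w', v = w' + 1 := ⟨v - 1, by ring⟩
      have e1 : w' + 1 - 1 = w' := by ring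
      rw [e1] at h2
      subst h2
      rw [if_pos (Or.inr e1.symm)]
      have hz : fireZ ε a (w + 1) w = a w + ε w * Int.sign (a (w + 1)) := by
        unfold fireZ
        rw [if_neg h1, if_pos e1.symm, add_zero, e1]
      rw [hz]
      refine chart_recv _ _ _ _ ?_ ?_ ?_
      · rcases hε w with e | e <;> rcases hsa with e' | e' <;> rw [e, e'] <;> decide
      · intro hx
        have h := hstar w (a w) (a (w + 1)) hx hav (hsg w) (hsg (w + 1))
        rw [h, chart_pos3, chart_pos3, Int.sign_sign]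
        constructor <;> intro h' <;> rw [← h'] <;> ring
      · intro hx
        have hu : ε w * Int.sign (a (w + 1)) ≠ 0 :=
          mul_ne_zero (chart_ne hε w) (by rcases hsa with e | e <;> rw [e] <;> decide)
        have h := hstar w (ε w * Int.sign (a (w + 1))) (a (w + 1)) hu hav (fun hB => by
          have := hsg _ hB
          rw [hx, zero_mul] at this
          exact absurd this (lt_irrefl _)) (hsg (w + 1))
        rw [h, chart_pos3, Int.sign_mul, Int.sign_sign]
        rcases chart_sign _ (chart_ne hε w) with e | e <;> rcases hsa with e' | e' <;>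
          rw [e, e'] <;> decide
    · have hz : fireZ ε a v w = a w := by
        unfold fireZ
        rw [if_neg h1, if_neg h2, add_zero, add_zero]
      rw [hz, if_neg (by rintro (h | h) <;> contradiction)]

theorem chart_delta {N : ℕ} (hN : 3 ≤ N) {ε : ZV N} (hε : IsSgnZ ε) (a : ZV N) (v w : ZMod N) :
    ∃ d : ℤ, -1 ≤ d ∧ d ≤ 1 ∧ fireZ ε a v w = a w + d := by
  have hs : ∀ (x e : ℤ), (e = 1 ∨ e = -1) → -1 ≤ e * x.sign ∧ e * x.sign ≤ 1 := by
    intro x e he
    rcases lt_trichotomy x 0 with h | h | h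
    · rw [Int.sign_eq_neg_one_of_neg h]
      rcases he with e' | e' <;> rw [e'] <;> decide
    · rw [h]
      rcases he with e' | e' <;> rw [e'] <;> decide
    · rw [Int.sign_eq_one_of_pos h]
      rcases he with e' | e' <;> rw [e'] <;> decide
  unfold fireZ
  by_cases h1 : w = v + 1
  · have h2 : ¬ w = v - 1 := by rw [h1]; exact chart_step hN v
    rw [if_pos h1, if_neg h2, add_zero]
    exact ⟨_, (hs _ _ (hε _)).1, (hs _ _ (hε _)).2, rfl⟩
  · rw [if_neg h1, add_zero]
    by_cases h2 : w = v - 1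
    · rw [if_pos h2]
      exact ⟨_, (hs _ _ (hε _)).1, (hs _ _ (hε _)).2, rfl⟩
    · rw [if_neg h2]
      exact ⟨0, by norm_num, by norm_num, rfl⟩

theorem chart_keep {x y d : ℤ} {k : ℕ} (h : 0 < x * y) (hk : k + 1 < x.natAbs) (h1 : -1 ≤ d)
    (h2 : d ≤ 1) : 0 < (x + d) * y ∧ k < (x + d).natAbs := by
  refine ⟨?_, by omega⟩
  rcases mul_pos_iff.mp h with ⟨hx, hy⟩ | ⟨hx, hy⟩
  · exact mul_pos (by omega) hy
  · exact mul_pos_of_neg_of_neg (by omega) hy

theorem chart_same {N K : ℕ} {T : ZMod N → Bool → Fin K} (a b : ZV N) (v : ZMod N)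
    (ha : a v ≠ 0) (hb : b v ≠ 0) :
    SameAt (cfgT T a) (cfgT T b) v ↔ T v (decide (0 < a v)) = T v (decide (0 < b v)) := by
  unfold SameAt
  rw [chart_some T a v ha, chart_some T b v hb]
  constructor
  · rintro ⟨j, k, l, h1, h2⟩
    rw [Option.some_inj, Prod.mk_inj] at h1 h2
    rw [h1.1, h2.1]
  · intro h
    exact ⟨_, _, _, rfl, by rw [h]⟩

theorem chart_jr {N K : ℕ} (lam : Fin K → ℝ) {y0 : ZV N} {B : ZMod N → Prop}
    {T : ZMod N → Bool → Fin K}
    (hinj : ∀ (v : ZMod N) (a b : ℤ), a ≠ 0 → b ≠ 0 → (B v → 0 < a * y0 v) →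
      (B v → 0 < b * y0 v) → (T v (decide (0 < a)) = T v (decide (0 < b)) ↔ 0 < a * b))
    (a b : ZV N) (v : ZMod N) (ha : B v → 0 < a v * y0 v) (hb : B v → 0 < b v * y0 v) :
    jr lam (cfgT T a) (cfgT T b) v =
      jz (fun v => lam (T v true)) (fun v => lam (T v false)) a b v := by
  unfold jr jz
  rw [chart_rate, chart_rate]
  have : SameAt (cfgT T a) (cfgT T b) v ↔ 0 < a v * b v := by
    rcases eq_or_ne (a v) 0 with h1 | h1
    · rw [h1, zero_mul]
      constructor
      · rintro ⟨j, k, l, h, -⟩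
        rw [chart_none T a v h1] at h
        exact absurd h (by simp)
      · intro h
        exact absurd h (lt_irrefl _)
    · rcases eq_or_ne (b v) 0 with h2 | h2
      · rw [h2, mul_zero]
        constructor
        · rintro ⟨j, k, l, -, h⟩
          rw [chart_none T b v h2] at h
          exact absurd h (by simp)
        · intro h
          exact absurd h (lt_irrefl _)
      · rw [chart_same a b v h1 h2, hinj v _ _ h1 h2 ha hb]
  by_cases h : 0 < a v * b v
  · rw [if_pos (this.mpr h), if_pos h]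
  · rw [if_neg (fun h' => h (this.mp h')), if_neg h]

theorem chart_rz_zero {N : ℕ} (lp lm : Vec N) (a : ZV N) (v : ZMod N) (h : a v = 0) :
    rz lp lm a v = 0 := by
  unfold rz
  rw [if_neg (by omega), h]
  simp

theorem chart_jz_zero {N : ℕ} (lp lm : Vec N) (a b : ZV N) (v : ZMod N)
    (h : a v = 0 ∨ b v = 0) : jz lp lm a b v = 0 := by
  unfold jz
  rw [if_neg]
  rcases h with h | h <;> rw [h] <;> simp

theorem chart_iter {N K : ℕ} [NeZero N] (hN : 3 ≤ N) (lam : Fin K → ℝ) {ε y0 : ZV N}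
    (hε : IsSgnZ ε) {B : ZMod N → Prop} {T : ZMod N → Bool → Fin K}
    (hstar : ∀ (v : ZMod N) (a b : ℤ), a ≠ 0 → b ≠ 0 → (B v → 0 < a * y0 v) →
      (B (v + 1) → 0 < b * y0 (v + 1)) →
      (T v (decide (0 < a)) = T (v + 1) (decide (0 < b)) ↔ 0 < ε v * a * b))
    (hinj : ∀ (v : ZMod N) (a b : ℤ), a ≠ 0 → b ≠ 0 → (B v → 0 < a * y0 v) →
      (B v → 0 < b * y0 v) → (T v (decide (0 < a)) = T v (decide (0 < b)) ↔ 0 < a * b))
    (Φ : Cfg N K × Cfg N K → ℝ) (k : ℕ) :
    ∀ a b : ZV N, (∀ w, B w → (0 < a w * y0 w ∧ k < (a w).natAbs) ∧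
      (0 < b w * y0 w ∧ k < (b w).natAbs)) →
    ((PP lam)^[k] Φ) (cfgT T a, cfgT T b) =
      ((SP ε (fun v => lam (T v true)) (fun v => lam (T v false)))^[k]
        (fun s => Φ (cfgT T s.1, cfgT T s.2))) (a, b) := by
  induction k with
  | zero => intro a b _; rfl
  | succ k ih =>
    intro a b hab
    rw [Function.iterate_succ_apply', Function.iterate_succ_apply']
    have hja : ∀ v, jr lam (cfgT T a) (cfgT T b) v =
        jz (fun v => lam (T v true)) (fun v => lam (T v false)) a b v := fun v =>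
      chart_jr lam hinj a b v (fun h => (hab v h).1.1) (fun h => (hab v h).2.1)
    have hfa : ∀ v, a v ≠ 0 → fire (cfgT T a) v = cfgT T (fireZ ε a v) := fun v h =>
      chart_fire hN hε hstar a v (fun w hw => (hab w hw).1.1) h
    have hfb : ∀ v, b v ≠ 0 → fire (cfgT T b) v = cfgT T (fireZ ε b v) := fun v h =>
      chart_fire hN hε hstar b v (fun w hw => (hab w hw).2.1) h
    have hka : ∀ v w, B w → 0 < fireZ ε a v w * y0 w ∧ k < (fireZ ε a v w).natAbs := by
      intro v w hw
      obtain ⟨d, h1, h2, h3⟩ := chart_delta hN hε a v w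
      rw [h3]
      exact chart_keep (hab w hw).1.1 (hab w hw).1.2 h1 h2
    have hkb : ∀ v w, B w → 0 < fireZ ε b v w * y0 w ∧ k < (fireZ ε b v w).natAbs := by
      intro v w hw
      obtain ⟨d, h1, h2, h3⟩ := chart_delta hN hε b v w
      rw [h3]
      exact chart_keep (hab w hw).2.1 (hab w hw).2.2 h1 h2
    have hk0 : ∀ w, B w → (0 < a w * y0 w ∧ k < (a w).natAbs) ∧
        (0 < b w * y0 w ∧ k < (b w).natAbs) := fun w hw =>
      ⟨⟨(hab w hw).1.1, by have := (hab w hw).1.2; omega⟩,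
        ⟨(hab w hw).2.1, by have := (hab w hw).2.2; omega⟩⟩
    show PP lam ((PP lam)^[k] Φ) (cfgT T a, cfgT T b) = _
    unfold PP SP
    have hden : ptotal lam (cfgT T a, cfgT T b) =
        ztotal (fun v => lam (T v true)) (fun v => lam (T v false)) (a, b) := by
      unfold ptotal ztotal
      refine Finset.sum_congr rfl fun v _ => ?_
      show rate lam (cfgT T a) v + rate lam (cfgT T b) v - jr lam (cfgT T a) (cfgT T b) v = _
      rw [hja, chart_rate, chart_rate]
    have hnum : ∑ v, (jr lam (cfgT T a) (cfgT T b) v *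
          ((PP lam)^[k] Φ) (fire (cfgT T a) v, fire (cfgT T b) v) +
        (rate lam (cfgT T a) v - jr lam (cfgT T a) (cfgT T b) v) *
          ((PP lam)^[k] Φ) (fire (cfgT T a) v, cfgT T b) +
        (rate lam (cfgT T b) v - jr lam (cfgT T a) (cfgT T b) v) *
          ((PP lam)^[k] Φ) (cfgT T a, fire (cfgT T b) v)) =
      ∑ v, (jz (fun v => lam (T v true)) (fun v => lam (T v false)) a b v *
          ((SP ε (fun v => lam (T v true)) (fun v => lam (T v false)))^[k]
            (fun s => Φ (cfgT T s.1, cfgT T s.2))) (fireZ ε a v, fireZ ε b v) +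
        (rz (fun v => lam (T v true)) (fun v => lam (T v false)) a v -
            jz (fun v => lam (T v true)) (fun v => lam (T v false)) a b v) *
          ((SP ε (fun v => lam (T v true)) (fun v => lam (T v false)))^[k]
            (fun s => Φ (cfgT T s.1, cfgT T s.2))) (fireZ ε a v, b) +
        (rz (fun v => lam (T v true)) (fun v => lam (T v false)) b v -
            jz (fun v => lam (T v true)) (fun v => lam (T v false)) a b v) *
          ((SP ε (fun v => lam (T v true)) (fun v => lam (T v false)))^[k]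
            (fun s => Φ (cfgT T s.1, cfgT T s.2))) (a, fireZ ε b v)) := by
      refine Finset.sum_congr rfl fun v _ => ?_
      rw [hja, chart_rate, chart_rate]
      congr 1
      · congr 1
        · by_cases h1 : a v = 0
          · rw [chart_jz_zero _ _ _ _ _ (Or.inl h1), zero_mul, zero_mul]
          · by_cases h2 : b v = 0
            · rw [chart_jz_zero _ _ _ _ _ (Or.inr h2), zero_mul, zero_mul]
            · rw [hfa v h1, hfb v h2, ih _ _ (fun w hw => ⟨hka v w hw, hkb v w hw⟩)]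
        · by_cases h1 : a v = 0
          · rw [chart_jz_zero _ _ _ _ _ (Or.inl h1), chart_rz_zero _ _ _ _ h1, sub_zero,
              zero_mul, zero_mul]
          · rw [hfa v h1, ih _ _ (fun w hw => ⟨hka v w hw, (hk0 w hw).2⟩)]
      · by_cases h2 : b v = 0
        · rw [chart_jz_zero _ _ _ _ _ (Or.inr h2), chart_rz_zero _ _ _ _ h2, sub_zero,
            zero_mul, zero_mul]
        · rw [hfb v h2, ih _ _ (fun w hw => ⟨(hk0 w hw).1, hkb v w hw⟩)]
    show (∑ v, _) / ptotal lam (cfgT T a, cfgT T b) = _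
    rw [hden]
    exact congrArg (· / ztotal (fun v => lam (T v true)) (fun v => lam (T v false)) (a, b)) hnum

theorem chart_ex {N K : ℕ} {c : Cfg N K} {y : ZV N} (h : ∀ v, cnt c v = (y v).natAbs)
    (v : ZMod N) (hv : y v ≠ 0) : ∃ j : Fin K, c v = some (j, (y v).natAbs - 1) := by
  have h1 := h v
  unfold cnt at h1
  rcases hc : c v with _ | ⟨j, k⟩
  · rw [hc] at h1
    have : (y v).natAbs = 0 := h1.symm
    exact absurd (Int.natAbs_eq_zero.mp this) hv
  · rw [hc] at h1
    have h2 : k + 1 = (y v).natAbs := h1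
    refine ⟨j, ?_⟩
    rw [← h2, Nat.add_sub_cancel]

theorem chart_no {N K : ℕ} {c : Cfg N K} {y : ZV N} (h : ∀ v, cnt c v = (y v).natAbs)
    (v : ZMod N) (hv : y v = 0) : c v = none := by
  have h1 := h v
  unfold cnt at h1
  rcases hc : c v with _ | ⟨j, k⟩
  · rfl
  · rw [hc, hv] at h1
    have h2 : k + 1 = 0 := h1
    omega

theorem chart_sm {N K : ℕ} {c : Cfg N K} {v w : ZMod N} {i j : Fin K} {k l : ℕ}
    (hv : c v = some (i, k)) (hw : c w = some (j, l)) : sm c v w = 1 ↔ i = j := by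
  unfold sm
  rw [hv, hw]
  show (if i = j then (1 : ℝ) else -1) = 1 ↔ i = j
  by_cases h : i = j
  · rw [if_pos h]
    exact ⟨fun _ => h, fun _ => rfl⟩
  · rw [if_neg h]
    exact ⟨fun h' => absurd h' (by norm_num), fun h' => absurd h' h⟩

theorem chart_prev {N K : ℕ} {ε : ZV N} {c : Cfg N K} {y : ZV N} (h : Rep ε c y) (w : ZMod N)
    (h1 : y (w - 1) ≠ 0) (h2 : y w ≠ 0) :
    sm c (w - 1) w = 1 ↔ 0 < ε (w - 1) * y (w - 1) * y w := by
  have := h.2.1 (w - 1)
  rw [show w - 1 + 1 = w by ring] at this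
  exact this h1 h2

theorem chart_type {N K : ℕ} {ε y0 : ZV N} (hε : IsSgnZ ε) {B : ZMod N → Prop}
    {tt : ZMod N → Fin K} (hy : ∀ v, B v → y0 v ≠ 0)
    (hS : ∀ w, ¬ B w → B (w - 1) ∧ B (w + 1) ∧ ε (w - 1) * ε w * y0 (w - 1) * y0 (w + 1) < 0)
    {c : Cfg N K} {y : ZV N} (h : Rep ε c y)
    (hB : ∀ v, B v → 0 < y v * y0 v ∧ ∃ k, c v = some (tt v, k)) :
    cfgT (chart_T ε y0 B tt) y = c := by
  have hyB : ∀ v, B v → y v ≠ 0 := by
    intro v hv h0
    have := (hB v hv).1
    rw [h0, zero_mul] at this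
    exact absurd this (lt_irrefl _)
  funext w
  rcases eq_or_ne (y w) 0 with hw | hw
  · rw [chart_none _ _ _ hw, chart_no h.1 w hw]
  · obtain ⟨j, hj⟩ := chart_ex h.1 w hw
    rw [chart_some _ _ _ hw, hj]
    have key : chart_T ε y0 B tt w (decide (0 < y w)) = j := by
      by_cases hBw : B w
      · obtain ⟨k, hk⟩ := (hB w hBw).2
        rw [hj, Option.some_inj, Prod.mk_inj] at hk
        rw [chart_T_B _ _ _ _ _ _ hBw, hk.1]
      · have ho := chart_outside hε hy (hS _ hBw)
        obtain ⟨b1, b2, -⟩ := hS _ hBw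
        obtain ⟨k1, hk1⟩ := (hB _ b1).2
        obtain ⟨k2, hk2⟩ := (hB _ b2).2
        have s1 := chart_prev h w (hyB _ b1) hw
        have s2 := h.2.1 w hw (hyB _ b2)
        rw [chart_sm hk1 hj, chart_pos3, chart_sign_eq (hB _ b1).1] at s1
        rw [chart_sm hj hk2, chart_pos3, chart_sign_eq (hB _ b2).1] at s2
        have ho2 := ho.2
        rw [Int.sign_mul] at ho2
        have e2 := chart_ne hε w
        by_cases hs : (y w).sign = (ε (w - 1) * y0 (w - 1)).sign
        · rw [chart_T_same _ _ _ _ _ _ hBw hw ho.1 hs, s1, hs, Int.sign_mul]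
          have e1 := chart_ne hε (w - 1)
          have e3 := hy _ b1
          rcases chart_sign _ e1 with a1 | a1 <;> rcases chart_sign _ e3 with a2 | a2 <;>
            rw [a1, a2] <;> decide
        · rw [chart_T_diff _ _ _ _ _ _ hBw hw ho.1 hs, eq_comm, s2]
          have e3 := hy _ b2
          rcases chart_sign _ e2 with a1 | a1 <;> rcases chart_sign _ e3 with a2 | a2 <;>
            rcases chart_sign _ hw with a3 | a3 <;> rcases chart_sign _ ho.1 with a4 | a4 <;>
            rw [a3, a4] at hs <;> rw [a1, a2, a4] at ho2 <;> rw [a1, a2, a3] <;>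
            revert hs ho2 <;> decide
    rw [key]

theorem chart_rep {N K : ℕ} {ε y0 : ZV N} (hε : IsSgnZ ε) {B : ZMod N → Prop}
    {tt : ZMod N → Fin K} (hy : ∀ v, B v → y0 v ≠ 0)
    (hS : ∀ w, ¬ B w → B (w - 1) ∧ B (w + 1) ∧ ε (w - 1) * ε w * y0 (w - 1) * y0 (w + 1) < 0)
    (hBB : ∀ v, B v → B (v + 1) → (tt v = tt (v + 1) ↔ 0 < ε v * y0 v * y0 (v + 1)))
    (hne : ∀ w, ¬ B w → tt (w - 1) ≠ tt (w + 1)) (a : ZV N)
    (ha : ∀ v, B v → 0 < a v * y0 v) : Rep ε (cfgT (chart_T ε y0 B tt) a) a := by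
  refine ⟨fun v => ?_, fun v h1 h2 => ?_, fun v h1 h2 h3 => ?_⟩
  · rcases eq_or_ne (a v) 0 with hv | hv
    · unfold cnt
      rw [chart_none _ _ _ hv, hv]
      rfl
    · unfold cnt
      rw [chart_some _ _ _ hv]
      show (a v).natAbs - 1 + 1 = _
      omega
  · rw [chart_sm (chart_some _ _ _ h1) (chart_some _ _ _ h2)]
    exact chart_star hε hy hS hBB hne v _ _ h1 h2 (ha v) (ha (v + 1))
  · have hBv : ¬ B v := by
      intro h
      have := ha v h
      rw [h1, zero_mul] at this
      exact absurd this (lt_irrefl _)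
    obtain ⟨b1, b2, b3⟩ := hS v hBv
    rw [chart_sm (chart_some _ _ _ h2) (chart_some _ _ _ h3), chart_T_B _ _ _ _ _ _ b1,
      chart_T_B _ _ _ _ _ _ b2]
    refine ⟨fun h => absurd h (hne v hBv), fun h => ?_⟩
    exfalso
    rw [← Int.sign_eq_one_iff_pos, Int.sign_mul, Int.sign_mul, Int.sign_mul,
      chart_sign_eq (ha _ b1), chart_sign_eq (ha _ b2)] at h
    have h4 := Int.sign_eq_neg_one_of_neg b3
    rw [Int.sign_mul, Int.sign_mul, Int.sign_mul, h] at h4
    exact absurd h4 (by decide)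

theorem chart_pr {N K : ℕ} [NeZero N] (hN : 3 ≤ N) (lam : Fin K → ℝ) (hl : ∀ j, 0 < lam j)
    (ε : ZV N) (hε : IsSgnZ ε) (c0 c1 : Cfg N K) (y0 y1 : ZV N) (n : ℕ) (B : ZMod N → Prop)
    (h0 : Rep ε c0 y0) (h1 : Rep ε c1 y1) (hL : Link c0 c1 y0 y1)
    (hB : ∀ v, B v → n < (y0 v).natAbs ∧ n < (y1 v).natAbs ∧ 0 < y0 v * y1 v)
    (hS : ∀ w, ¬ B w → B (w - 1) ∧ B (w + 1) ∧ ε (w - 1) * ε w * y0 (w - 1) * y0 (w + 1) < 0) :
    ∃ T : ZMod N → Bool → Fin K, cfgT T y0 = c0 ∧ cfgT T y1 = c1 ∧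
      (∀ (k : ℕ), k ≤ n → ∀ Φ : Cfg N K × Cfg N K → ℝ,
        ((PP lam)^[k] Φ) (c0, c1) =
        ((SP ε (fun v => lam (T v true)) (fun v => lam (T v false)))^[k]
          (fun s => Φ (cfgT T s.1, cfgT T s.2))) (y0, y1)) ∧
      (∀ a b : ZV N, (∀ v, B v → 0 < a v * y0 v ∧ 0 < b v * y0 v) →
        Rep ε (cfgT T a) a ∧ Rep ε (cfgT T b) b ∧ Link (cfgT T a) (cfgT T b) a b) ∧
      (∀ (a : ZV N) (v : ZMod N), (∀ w, B w → 0 < a w * y0 w ∧ 1 < (a w).natAbs) → a v ≠ 0 →
        fire (cfgT T a) v = cfgT T (fireZ ε a v)) := by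
  have hy : ∀ v, B v → y0 v ≠ 0 := by
    intro v hv h
    have := (hB v hv).1
    rw [h] at this
    simp at this
  have hy1 : ∀ v, B v → 0 < y1 v * y0 v := fun v hv => by
    rw [mul_comm]
    exact (hB v hv).2.2
  have hK : Nonempty (Fin K) := by
    by_cases hb : B 0
    · obtain ⟨j, -⟩ := chart_ex h0.1 _ (hy _ hb)
      exact ⟨j⟩
    · obtain ⟨j, -⟩ := chart_ex h0.1 _ (hy _ (hS 0 hb).1)
      exact ⟨j⟩
  have hex : ∀ v, ∃ j : Fin K, B v → c0 v = some (j, (y0 v).natAbs - 1) := by
    intro v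
    by_cases hb : B v
    · obtain ⟨j, hj⟩ := chart_ex h0.1 _ (hy _ hb)
      exact ⟨j, fun _ => hj⟩
    · exact ⟨Classical.choice hK, fun h => absurd h hb⟩
  choose tt htt using hex
  have hBB : ∀ v, B v → B (v + 1) → (tt v = tt (v + 1) ↔ 0 < ε v * y0 v * y0 (v + 1)) := by
    intro v b1 b2
    rw [← chart_sm (htt v b1) (htt _ b2)]
    exact h0.2.1 v (hy v b1) (hy _ b2)
  have hne : ∀ w, ¬ B w → tt (w - 1) ≠ tt (w + 1) := by
    intro w hw heq
    obtain ⟨b1, b2, b3⟩ := hS w hw
    rcases eq_or_ne (y0 w) 0 with hz | hz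
    · have := (h0.2.2 w hz (hy _ b1) (hy _ b2)).mp ((chart_sm (htt _ b1) (htt _ b2)).mpr heq)
      omega
    · obtain ⟨j, hj⟩ := chart_ex h0.1 _ hz
      have s1 := chart_prev h0 w (hy _ b1) hz
      have s2 := h0.2.1 w hz (hy _ b2)
      rw [chart_sm (htt _ b1) hj, chart_pos3] at s1
      rw [chart_sm hj (htt _ b2), chart_pos3, ← heq, eq_comm, s1] at s2
      have ho := (chart_outside hε hy (hS _ hw)).2
      rw [Int.sign_mul, Int.sign_mul] at ho
      rcases chart_sign _ (chart_ne hε w) with a1 | a1 <;>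
        rcases chart_sign _ (chart_ne hε (w - 1)) with a2 | a2 <;>
        rcases chart_sign _ (hy _ b1) with a3 | a3 <;>
        rcases chart_sign _ (hy _ b2) with a4 | a4 <;>
        rcases chart_sign _ hz with a5 | a5 <;>
        rw [a1, a2, a3, a4, a5] at s2 <;> rw [a1, a2, a3, a4] at ho <;>
        revert s2 ho <;> decide
  have hT0 : cfgT (chart_T ε y0 B tt) y0 = c0 :=
    chart_type hε hy hS h0 fun v hv => ⟨mul_self_pos.mpr (hy v hv), _, htt v hv⟩
  have hT1 : cfgT (chart_T ε y0 B tt) y1 = c1 := by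
    refine chart_type hε hy hS h1 fun v hv => ⟨hy1 v hv, ?_⟩
    have hy1v : y1 v ≠ 0 := by
      intro h
      have := hy1 v hv
      rw [h, zero_mul] at this
      exact absurd this (lt_irrefl _)
    obtain ⟨j, k, l, e1, e2⟩ := (hL v (hy v hv) hy1v).mpr (hB v hv).2.2
    rw [htt v hv, Option.some_inj, Prod.mk_inj] at e1
    exact ⟨l, by rw [e2, e1.1]⟩
  have hstar := chart_star (K := K) hε hy hS hBB hne
  have hinj := chart_inj (K := K) hε hy hS hne
  refine ⟨chart_T ε y0 B tt, hT0, hT1, ?_, ?_, ?_⟩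
  · intro k hk Φ
    have := chart_iter hN lam hε hstar hinj Φ k y0 y1 (fun w hw =>
      ⟨⟨mul_self_pos.mpr (hy w hw), lt_of_le_of_lt hk (hB w hw).1⟩,
        ⟨hy1 w hw, lt_of_le_of_lt hk (hB w hw).2.1⟩⟩)
    rw [hT0, hT1] at this
    exact this
  · intro a b hab
    refine ⟨chart_rep hε hy hS hBB hne a (fun v hv => (hab v hv).1),
      chart_rep hε hy hS hBB hne b (fun v hv => (hab v hv).2), ?_⟩
    intro v ha hb
    rw [chart_same a b v ha hb]
    exact hinj v _ _ ha hb (fun h => (hab v h).1) (fun h => (hab v h).2)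
  · intro a v hsg hav
    exact chart_fire hN hε hstar a v (fun w hw => (hsg w hw).1) hav

alias chart := chart_pr
alias fv_cfgT := fv_cfgT_pr

end Pool.Agent.Lib_helper10.CU
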