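import Pool.Agent.Lib_helper10.CU.Defs

set_option autoImplicit false
open scoped BigOperators Topology
open Filter
noncomputable section

namespace Pool.Agent.Lib_helper10.CU

/-- good end of a window -/
def GZ {N : ℕ} [NeZero N] (ε : ZV N) (lmin lmax C0 θ : ℝ) (lp lm : Vec N) (n : ℕ)
    (y0 y1 : ZV N) (s' : ZV N × ZV N) : Prop :=
  WT (castV ε) lmin lmax C0 θ (castV y0) (castV (y1 - y0)) (castV s'.1) (castV (s'.2 - s'.1)) ∧
  LT (castV ε) lmin lmax C0 θ (castV y0) (fz lp lm y0) (castV s'.1) (fz lp lm s'.1) ∧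
  LT (castV ε) lmin lmax C0 θ (castV y1) (fz lp lm y1) (castV s'.2) (fz lp lm s'.2) ∧
  InC (castV ε) (castV (s'.2 - s'.1)) ∧ l1 (castV (y1 - y0)) ≤ l1 (castV (s'.2 - s'.1)) ∧
  (∀ v, (s'.1 v - y0 v).natAbs ≤ n ∧ (s'.2 v - y1 v).natAbs ≤ n)

/-- good end of a window (urns) -/
def GW {N K : ℕ} [NeZero N] (lam : Fin K → ℝ) (ε : ZV N) (lmin lmax C0 θ : ℝ)
    (c0 c1 : Cfg N K) (y0 y1 : ZV N) (s' : Cfg N K × Cfg N K) (y0' y1' : ZV N) : Prop :=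
  Rep ε s'.1 y0' ∧ Rep ε s'.2 y1' ∧ Link s'.1 s'.2 y0' y1' ∧
  WT (castV ε) lmin lmax C0 θ (castV y0) (castV (y1 - y0)) (castV y0') (castV (y1' - y0')) ∧
  LT (castV ε) lmin lmax C0 θ (castV y0) (fv lam c0 y0) (castV y0') (fv lam s'.1 y0') ∧
  LT (castV ε) lmin lmax C0 θ (castV y1) (fv lam c1 y1) (castV y1') (fv lam s'.2 y1') ∧
  InC (castV ε) (castV (y1' - y0')) ∧ l1 (castV (y1 - y0)) ≤ l1 (castV (y1' - y0'))

/-- total deficiency of a pair -/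
def UU {N K : ℕ} [NeZero N] (lam : Fin K → ℝ) (m : ℕ) (s : Cfg N K × Cfg N K) : ℝ :=
  (1 - qq lam m s.1) + (1 - qq lam m s.2)

end Pool.Agent.Lib_helper10.CU
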