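import Pool.Agent.Lib_helper10.CU.CONC4
import Pool.Agent.Lib_helper10.CU.Defs2

-- block CONC written by helper22
/-! Block CONC, part 5: the theorem. -/

set_option autoImplicit false
open scoped BigOperators
noncomputable section

namespace Pool.Agent.Lib_helper10.CU

set_option linter.unusedSectionVars false
set_option linter.unusedVariables false
set_option linter.unusedSimpArgs false

section
variable {N : ℕ} [NeZero N] {m L : ℝ} {ε : ZV N} {lp lm : Vec N} {y0 y1 : ZV N} {θ : ℝ} {n : ℕ}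

def concU1 (m L : ℝ) (ε : ZV N) (lp lm : Vec N) (y0 y1 : ZV N) (θ : ℝ) (w : ZMod N) (b : ℝ)
    (k : ℕ) (σ : ConcA N) : ℝ :=
  b * ((σ.1.1 w : ℝ) - y0 w -
      k / ztotal lp lm (y0, y1) * nb (castV ε) (fz lp lm y0) w) - concK4 N m L * θ * k

def concU2 (m L : ℝ) (ε : ZV N) (lp lm : Vec N) (y0 y1 : ZV N) (θ : ℝ) (w : ZMod N) (b : ℝ)
    (k : ℕ) (σ : ConcA N) : ℝ :=
  b * ((σ.1.2 w : ℝ) - y1 w -
      k / ztotal lp lm (y0, y1) * nb (castV ε) (fz lp lm y1) w) - concK4 N m L * θ * k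

def concU3 (m L : ℝ) (ε : ZV N) (lp lm : Vec N) (y0 y1 : ZV N) (θ : ℝ) (w : ZMod N) (b : ℝ)
    (k : ℕ) (σ : ConcA N) : ℝ :=
  b * (castV (σ.1.2 - σ.1.1) w -
      castV (y1 - y0) w - nb (castV ε) σ.2.1 w / ztotal lp lm (y0, y1)) -
      2 * L * (4 * N * L) * θ / ztotal lp lm (y0, y1) * σ.2.2.2

def concUX (m L : ℝ) (ε : ZV N) (lp lm : Vec N) (y0 y1 : ZV N)
    (k : ℕ) (σ : ConcA N) : ℝ :=
  σ.2.2.1 - l1 (castV (y1 - y0)) - 4 * L / ztotal lp lm (y0, y1) * σ.2.2.2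

/-- the potential -/
def concV (m L : ℝ) (ε : ZV N) (lp lm : Vec N) (y0 y1 : ZV N) (θ : ℝ) (n : ℕ) (ay ah ax : ℝ)
    (k : ℕ) (σ : ConcA N) : ℝ :=
  (ay * ((∑ w, (((max (concU1 m L ε lp lm y0 y1 θ w 1 k σ) 0) ^ 2 +
      (max (concU1 m L ε lp lm y0 y1 θ w (-1) k σ) 0) ^ 2) +
      ((max (concU2 m L ε lp lm y0 y1 θ w 1 k σ) 0) ^ 2 +
      (max (concU2 m L ε lp lm y0 y1 θ w (-1) k σ) 0) ^ 2))) +
      4 * N * concK5 N m L ^ 2 * ((n : ℝ) - k)) +
  ah * ∑ w, ((max (concU3 m L ε lp lm y0 y1 θ w 1 k σ) 0) ^ 2 +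
      (max (concU3 m L ε lp lm y0 y1 θ w (-1) k σ) 0) ^ 2)) +
  (ax * (max (concUX m L ε lp lm y0 y1 k σ) 0) ^ 2 +
  (2 * N * concK6 N m L * ah + concK7 N m L * ax) *
    (((n : ℝ) - k) / ztotal lp lm (y0, y1) *
      (1 + 4 * L / ztotal lp lm (y0, y1)) ^ (n - k) * σ.2.2.1))

theorem conc_V_step (c : ConcCtx m L ε lp lm y0 y1 θ n) (ay ah ax : ℝ) (hay : 0 ≤ ay)
    (hah : 0 ≤ ah) (hax : 0 ≤ ax) :
    ∀ k < n, ∀ σ, ConcInv m L ε lp lm y0 y1 k σ →
      concP ε lp lm (concV m L ε lp lm y0 y1 θ n ay ah ax (k + 1)) σ ≤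
        concV m L ε lp lm y0 y1 θ n ay ah ax k σ := by
  have hL := c.hL
  have hm := c.hm
  have hN0 : (0 : ℝ) ≤ N := Nat.cast_nonneg N
  have hK8 : 0 ≤ concK8 N m := by unfold concK8; positivity
  have hK6 : 0 ≤ concK6 N m L := by unfold concK6; positivity
  have hK7 : 0 ≤ concK7 N m L := by unfold concK7; positivity
  have h1 := ConcCS.sum (Finset.univ : Finset (ZMod N)) (fun w _ =>
    ((conc_fam1 c w 1 (Or.inl rfl)).add (conc_fam1 c w (-1) (Or.inr rfl))).add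
    ((conc_fam2 c w 1 (Or.inl rfl)).add (conc_fam2 c w (-1) (Or.inr rfl))))
  have h2 := (h1.add ((conc_famN c).smul (4 * N * concK5 N m L ^ 2) (by positivity))).smul ay hay
  have h3 := (ConcCS.sum (Finset.univ : Finset (ZMod N)) (fun w _ =>
    (conc_fam3 c w 1 (Or.inl rfl)).add (conc_fam3 c w (-1) (Or.inr rfl)))).smul ah hah
  have h4 := (conc_famX c).smul ax hax
  have h5 := (conc_famT c).smul (2 * N * concK6 N m L * ah + concK7 N m L * ax) (by positivity)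
  have h6 := (h2.add h3).add (h4.add h5)
  intro k hk σ hσ
  have h7 := h6 k hk σ hσ
  refine le_trans h7 (le_of_eq ?_)
  rw [show concV m L ε lp lm y0 y1 θ n ay ah ax k σ = _ + 0 from (add_zero _).symm]
  refine congrArg₂ (· + ·) rfl ?_
  simp only [Finset.sum_const, Finset.card_univ, ZMod.card, nsmul_eq_mul]
  ring

theorem conc_lt_of {a T u : ℝ} (hT : 0 < T) (h : (1 / T ^ 2) * (max u 0) ^ 2 < 1) : u ≤ T := by
  have hT2 : 0 < T ^ 2 := by positivity
  rw [one_div_mul_eq_div, div_lt_one hT2] at h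
  have h1 : max u 0 < T := lt_of_pow_lt_pow_left₀ 2 hT.le h
  exact le_trans (le_max_left _ _) h1.le

/-- extraction of the bounds -/
theorem conc_extract {Ty Th Tx : ℝ} (hTy : 0 < Ty) (hTh : 0 < Th)
    (hTx : 0 < Tx) (σ : ConcA N)
    (h : concV m L ε lp lm y0 y1 θ n (1 / Ty ^ 2) (1 / Th ^ 2) (1 / Tx ^ 2) n σ < 1) :
    (∀ w, |(σ.1.1 w : ℝ) - y0 w - n / ztotal lp lm (y0, y1) *
      nb (castV ε) (fz lp lm y0) w| ≤ concK4 N m L * θ * n + Ty) ∧
    (∀ w, |(σ.1.2 w : ℝ) - y1 w - n / ztotal lp lm (y0, y1) *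
      nb (castV ε) (fz lp lm y1) w| ≤ concK4 N m L * θ * n + Ty) ∧
    (∀ w, |castV (σ.1.2 - σ.1.1) w - castV (y1 - y0) w -
      nb (castV ε) σ.2.1 w / ztotal lp lm (y0, y1)| ≤
      2 * L * (4 * N * L) * θ / ztotal lp lm (y0, y1) * σ.2.2.2 + Th) ∧
    σ.2.2.1 - l1 (castV (y1 - y0)) ≤ 4 * L / ztotal lp lm (y0, y1) * σ.2.2.2 + Tx := by
  unfold concV at h
  rw [sub_self, mul_zero, add_zero, zero_div, zero_mul, zero_mul, mul_zero, add_zero] at h
  have hs1 : 0 ≤ 1 / Ty ^ 2 := by positivity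
  have hs2 : 0 ≤ 1 / Th ^ 2 := by positivity
  have hs3 : 0 ≤ 1 / Tx ^ 2 := by positivity
  have hA : ∀ w, 0 ≤ ((max (concU1 m L ε lp lm y0 y1 θ w 1 n σ) 0) ^ 2 +
      (max (concU1 m L ε lp lm y0 y1 θ w (-1) n σ) 0) ^ 2) +
      ((max (concU2 m L ε lp lm y0 y1 θ w 1 n σ) 0) ^ 2 +
      (max (concU2 m L ε lp lm y0 y1 θ w (-1) n σ) 0) ^ 2) := fun w => by positivity
  have hB : ∀ w, 0 ≤ (max (concU3 m L ε lp lm y0 y1 θ w 1 n σ) 0) ^ 2 +
      (max (concU3 m L ε lp lm y0 y1 θ w (-1) n σ) 0) ^ 2 := fun w => by positivity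
  have hC : 0 ≤ (max (concUX m L ε lp lm y0 y1 n σ) 0) ^ 2 := by positivity
  have hSA := Finset.sum_nonneg fun w (_ : w ∈ Finset.univ) => hA w
  have hSB := Finset.sum_nonneg fun w (_ : w ∈ Finset.univ) => hB w
  have h1 := mul_nonneg hs1 hSA
  have h2 := mul_nonneg hs2 hSB
  have h3 := mul_nonneg hs3 hC
  have hAw : ∀ w, 1 / Ty ^ 2 * (((max (concU1 m L ε lp lm y0 y1 θ w 1 n σ) 0) ^ 2 +
      (max (concU1 m L ε lp lm y0 y1 θ w (-1) n σ) 0) ^ 2) +
      ((max (concU2 m L ε lp lm y0 y1 θ w 1 n σ) 0) ^ 2 +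
      (max (concU2 m L ε lp lm y0 y1 θ w (-1) n σ) 0) ^ 2)) < 1 := by
    intro w
    have h4 := Finset.single_le_sum (fun w _ => hA w) (Finset.mem_univ w)
    have h5 := mul_le_mul_of_nonneg_left h4 hs1
    linarith
  have hBw : ∀ w, 1 / Th ^ 2 * ((max (concU3 m L ε lp lm y0 y1 θ w 1 n σ) 0) ^ 2 +
      (max (concU3 m L ε lp lm y0 y1 θ w (-1) n σ) 0) ^ 2) < 1 := by
    intro w
    have h4 := Finset.single_le_sum (fun w _ => hB w) (Finset.mem_univ w)
    have h5 := mul_le_mul_of_nonneg_left h4 hs2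
    linarith
  have key : ∀ (T : ℝ) (hT : 0 < T) (u R : ℝ), 0 ≤ R → 1 / T ^ 2 * ((max u 0) ^ 2 + R) < 1 →
      u ≤ T := by
    intro T hT u R hR h
    refine conc_lt_of (a := 0) hT ?_
    have : 0 ≤ 1 / T ^ 2 * R := by positivity
    linarith [mul_add (1 / T ^ 2) ((max u 0) ^ 2) R]
  refine ⟨fun w => ?_, fun w => ?_, fun w => ?_, ?_⟩
  · have h4 := key Ty hTy (concU1 m L ε lp lm y0 y1 θ w 1 n σ)
      ((max (concU1 m L ε lp lm y0 y1 θ w (-1) n σ) 0) ^ 2 +
      ((max (concU2 m L ε lp lm y0 y1 θ w 1 n σ) 0) ^ 2 +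
      (max (concU2 m L ε lp lm y0 y1 θ w (-1) n σ) 0) ^ 2)) (by positivity)
      (lt_of_le_of_lt (le_of_eq (by ring)) (hAw w))
    have h5 := key Ty hTy (concU1 m L ε lp lm y0 y1 θ w (-1) n σ)
      ((max (concU1 m L ε lp lm y0 y1 θ w 1 n σ) 0) ^ 2 +
      ((max (concU2 m L ε lp lm y0 y1 θ w 1 n σ) 0) ^ 2 +
      (max (concU2 m L ε lp lm y0 y1 θ w (-1) n σ) 0) ^ 2)) (by positivity)
      (lt_of_le_of_lt (le_of_eq (by ring)) (hAw w))
    unfold concU1 at h4 h5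
    rw [abs_le]
    constructor <;> linarith
  · have h4 := key Ty hTy (concU2 m L ε lp lm y0 y1 θ w 1 n σ)
      ((max (concU2 m L ε lp lm y0 y1 θ w (-1) n σ) 0) ^ 2 +
      ((max (concU1 m L ε lp lm y0 y1 θ w 1 n σ) 0) ^ 2 +
      (max (concU1 m L ε lp lm y0 y1 θ w (-1) n σ) 0) ^ 2)) (by positivity)
      (lt_of_le_of_lt (le_of_eq (by ring)) (hAw w))
    have h5 := key Ty hTy (concU2 m L ε lp lm y0 y1 θ w (-1) n σ)
      ((max (concU2 m L ε lp lm y0 y1 θ w 1 n σ) 0) ^ 2 +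
      ((max (concU1 m L ε lp lm y0 y1 θ w 1 n σ) 0) ^ 2 +
      (max (concU1 m L ε lp lm y0 y1 θ w (-1) n σ) 0) ^ 2)) (by positivity)
      (lt_of_le_of_lt (le_of_eq (by ring)) (hAw w))
    unfold concU2 at h4 h5
    rw [abs_le]
    constructor <;> linarith
  · have h4 := key Th hTh (concU3 m L ε lp lm y0 y1 θ w 1 n σ)
      ((max (concU3 m L ε lp lm y0 y1 θ w (-1) n σ) 0) ^ 2) (by positivity)
      (lt_of_le_of_lt (le_of_eq (by ring)) (hBw w))
    have h5 := key Th hTh (concU3 m L ε lp lm y0 y1 θ w (-1) n σ)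
      ((max (concU3 m L ε lp lm y0 y1 θ w 1 n σ) 0) ^ 2) (by positivity)
      (lt_of_le_of_lt (le_of_eq (by ring)) (hBw w))
    unfold concU3 at h4 h5
    rw [abs_le]
    constructor <;> linarith
  · have h4 := key Tx hTx (concUX m L ε lp lm y0 y1 n σ) 0 le_rfl
      (lt_of_le_of_lt (le_of_eq (by ring)) (show 1 / Tx ^ 2 *
        (max (concUX m L ε lp lm y0 y1 n σ) 0) ^ 2 < 1 by linarith))
    unfold concUX at h4
    linarith

/-! ### the final deterministic step -/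

def concK1 (N : ℕ) (L : ℝ) : ℝ := 5 / 2 * N * L
def concCa (N : ℕ) (m L : ℝ) : ℝ := concK4 N m L * concK1 N L + 1 + 4 * L
def concCb (N : ℕ) (L : ℝ) : ℝ := 16 * N ^ 2 * L ^ 2 + 1 + 2 * L * (1 + N)
def concCc (N : ℕ) (L : ℝ) : ℝ := 2 * L * concK1 N L + 2 * L * ((8 * L + 1) * N)
def concC0 (N : ℕ) (m L : ℝ) : ℝ :=
  2 * concCa N m L + concCb N L + concCc N L + 2 * L * concK1 N L

/-- hypotheses of the final step -/
structure ConcFin (m L : ℝ) (ε : ZV N) (lp lm : Vec N) (y0 y1 : ZV N)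
    (θ : ℝ) (n : ℕ) : Prop extends ConcCtx m L ε lp lm y0 y1 θ n where
  hn1 : 1 ≤ n
  hn2 : θ * ztotal lp lm (y0, y1) ≤ n + 1
  hZ2 : 1 ≤ θ ^ 2 * ztotal lp lm (y0, y1)
  hY2 : 1 ≤ m * (θ ^ 2 * ‖castV y0‖)
  hZ1 : ztotal lp lm (y0, y1) ≤ concK1 N L * ‖castV y0‖
  hH : 0 < ‖castV (y1 - y0)‖
  hl1a : l1 (castV (y1 - y0)) ≤ N * ‖castV (y1 - y0)‖
  hl1b : ‖castV (y1 - y0)‖ ≤ l1 (castV (y1 - y0))
  hy1n : ‖castV y0‖ ≤ 2 * ‖castV y1‖
  hθ4 : 16 * L * θ ≤ 1
  hθ5 : 2 * θ ≤ 1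

theorem conc_norm_le {x : Vec N} {r : ℝ} (hr : 0 ≤ r) (h : ∀ w, |x w| ≤ r) : ‖x‖ ≤ r := by
  rw [pi_norm_le_iff_of_nonneg hr]
  intro w
  rw [Real.norm_eq_abs]
  exact h w

theorem conc_le_norm (x : Vec N) (w : ZMod N) : |x w| ≤ ‖x‖ := by
  have := norm_le_pi_norm x w
  rwa [Real.norm_eq_abs] at this

theorem conc_slope (c : ConcFin m L ε lp lm y0 y1 θ n) (y y' : ZV N)
    (h : ∀ w, |(y' w : ℝ) - y w| ≤ n) (A : ℝ) (hA : L * concK1 N L * ‖castV y0‖ ≤ A * ‖castV y‖) :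
    Slope m L (A * θ) (castV y) (fz lp lm y) (castV y') (fz lp lm y') := by
  intro w
  have hL := c.hL
  obtain ⟨g, h1, h2, h3, h4⟩ := conc_F1 c.hm ⟨(c.hl w).1, (c.hl w).2.1⟩ (c.hl w).2.2 (y w) (y' w)
  refine ⟨g, h1, h2, h3, ?_⟩
  refine le_trans h4 ?_
  calc L * |(y' w : ℝ) - y w| ≤ L * n := mul_le_mul_of_nonneg_left (h w) hL.le
    _ ≤ L * (θ * ztotal lp lm (y0, y1)) := mul_le_mul_of_nonneg_left c.hn hL.le
    _ ≤ L * (θ * (concK1 N L * ‖castV y0‖)) := by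
        refine mul_le_mul_of_nonneg_left ?_ hL.le
        exact mul_le_mul_of_nonneg_left c.hZ1 c.hθ.le
    _ = θ * (L * concK1 N L * ‖castV y0‖) := by ring
    _ ≤ θ * (A * ‖castV y‖) := mul_le_mul_of_nonneg_left hA c.hθ.le
    _ = A * θ * ‖castV y‖ := by ring

theorem conc_path (c : ConcFin m L ε lp lm y0 y1 θ n) (y y' : ZV N)
    (hy : ∀ w, m * |(y w : ℝ)| ≤ 2 * ztotal lp lm (y0, y1))
    (h : ∀ w, |(y' w : ℝ) - y w - n / ztotal lp lm (y0, y1) *
      nb (castV ε) (fz lp lm y) w| ≤ concK4 N m L * θ * n + θ ^ 2 * ‖castV y0‖) :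
    ‖castV y' - castV y - θ • nb (castV ε) (fz lp lm y)‖ ≤
      concCa N m L * θ ^ 2 * ‖castV y0‖ := by
  have hL := c.hL
  have hm := c.hm
  have hθ := c.hθ
  have hZ := c.hZ
  have hN0 : (0 : ℝ) ≤ N := Nat.cast_nonneg N
  have hK4 : 0 ≤ concK4 N m L := by unfold concK4; positivity
  have hK1 : 0 ≤ concK1 N L := by unfold concK1; positivity
  have hCa : 0 ≤ concCa N m L := by unfold concCa; positivity
  refine conc_norm_le (by positivity) fun w => ?_
  have e1 : (castV y' - castV y - θ • nb (castV ε) (fz lp lm y)) w =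
      ((y' w : ℝ) - y w - n / ztotal lp lm (y0, y1) * nb (castV ε) (fz lp lm y) w) +
      (n / ztotal lp lm (y0, y1) - θ) * nb (castV ε) (fz lp lm y) w := by
    simp only [Pi.sub_apply, Pi.smul_apply, smul_eq_mul, castV]
    ring
  rw [e1]
  refine le_trans (abs_add_le _ _) ?_
  have hF := conc_nb_abs c.hε _ _ (conc_f_abs c.toConcCtx y hy) w
  have h1 : |(n : ℝ) / ztotal lp lm (y0, y1) - θ| ≤ 1 / ztotal lp lm (y0, y1) := by
    have : (n : ℝ) / ztotal lp lm (y0, y1) - θ =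
        (n - θ * ztotal lp lm (y0, y1)) / ztotal lp lm (y0, y1) := by
      field_simp
    rw [this, abs_div, abs_of_pos hZ]
    refine div_le_div_of_nonneg_right ?_ hZ.le
    rw [abs_le]
    constructor
    · linarith [c.hn2]
    · linarith [c.hn]
  have h2 : |((n : ℝ) / ztotal lp lm (y0, y1) - θ) * nb (castV ε) (fz lp lm y) w| ≤
      4 * L / m := by
    rw [abs_mul]
    calc _ ≤ 1 / ztotal lp lm (y0, y1) * (2 * (L * (2 / m) * ztotal lp lm (y0, y1))) :=
          mul_le_mul h1 hF (abs_nonneg _) (by positivity)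
      _ = 4 * L / m := by field_simp; ring
  have h3 : 4 * L / m ≤ 4 * L * (θ ^ 2 * ‖castV y0‖) := by
    rw [div_le_iff₀ hm]
    have := mul_le_mul_of_nonneg_left c.hY2 (show 0 ≤ 4 * L by positivity)
    linarith
  have h4 : concK4 N m L * θ * n ≤ concK4 N m L * concK1 N L * (θ ^ 2 * ‖castV y0‖) := by
    calc concK4 N m L * θ * n ≤ concK4 N m L * θ * (θ * ztotal lp lm (y0, y1)) :=
          mul_le_mul_of_nonneg_left c.hn (by positivity)
      _ ≤ concK4 N m L * θ * (θ * (concK1 N L * ‖castV y0‖)) := by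
          refine mul_le_mul_of_nonneg_left ?_ (by positivity)
          exact mul_le_mul_of_nonneg_left c.hZ1 hθ.le
      _ = _ := by ring
  have h5 := h w
  unfold concCa
  linarith

theorem conc_final (c : ConcFin m L ε lp lm y0 y1 θ n) (σ : ConcA N)
    (hσ : ConcInv m L ε lp lm y0 y1 n σ)
    (h : concV m L ε lp lm y0 y1 θ n (1 / (θ ^ 2 * ‖castV y0‖) ^ 2)
      (1 / (θ ^ 2 * ‖castV (y1 - y0)‖) ^ 2) (1 / (θ * l1 (castV (y1 - y0))) ^ 2) n σ < 1) :
    GZ ε m L (concC0 N m L) θ lp lm n y0 y1 σ.1 := by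
  have hL := c.hL
  have hm := c.hm
  have hθ := c.hθ
  have hθ1 := c.hθ1
  have hZ := c.hZ
  have hH := c.hH
  have hN0 : (0 : ℝ) ≤ N := Nat.cast_nonneg N
  have hY : 0 < ‖castV y0‖ := by
    by_contra hc
    have h0 : ‖castV y0‖ = 0 := le_antisymm (not_lt.1 hc) (norm_nonneg _)
    have := c.hY2
    rw [h0, mul_zero, mul_zero] at this
    linarith
  have hX0 : 0 < l1 (castV (y1 - y0)) := lt_of_lt_of_le hH c.hl1b
  have hK4 : 0 ≤ concK4 N m L := by unfold concK4; positivity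
  have hK1 : 0 ≤ concK1 N L := by unfold concK1; positivity
  have hCa : 0 ≤ concCa N m L := by unfold concCa; positivity
  have hCb : 0 ≤ concCb N L := by unfold concCb; positivity
  have hCc : 0 ≤ concCc N L := by unfold concCc; positivity
  obtain ⟨b1, b2, b3, b4⟩ := conc_extract (by positivity) (by positivity) (by positivity) σ h
  have hn0 : (0 : ℝ) < n := by exact_mod_cast c.hn1
  have hnZ : (n : ℝ) / ztotal lp lm (y0, y1) ≤ θ := by
    rw [div_le_iff₀ hZ]; exact c.hn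
  -- X
  have hXg := conc_X_ge hσ
  have hXp : 0 < σ.2.2.1 := by linarith
  have hS : 1 / ztotal lp lm (y0, y1) * σ.2.2.2 ≤ θ * σ.2.2.1 := by
    calc 1 / ztotal lp lm (y0, y1) * σ.2.2.2 ≤ 1 / ztotal lp lm (y0, y1) * (n * σ.2.2.1) :=
          mul_le_mul_of_nonneg_left hσ.S_le (by positivity)
      _ = n / ztotal lp lm (y0, y1) * σ.2.2.1 := by ring
      _ ≤ θ * σ.2.2.1 := mul_le_mul_of_nonneg_right hnZ hXp.le
  have e4 : 4 * L / ztotal lp lm (y0, y1) * σ.2.2.2 =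
      4 * L * (1 / ztotal lp lm (y0, y1) * σ.2.2.2) := by ring
  have hX1 : σ.2.2.1 - l1 (castV (y1 - y0)) ≤ 4 * L * (θ * σ.2.2.1) +
      θ * l1 (castV (y1 - y0)) := by
    have := mul_le_mul_of_nonneg_left hS (show 0 ≤ 4 * L by positivity)
    linarith
  have hX2 : σ.2.2.1 ≤ 2 * l1 (castV (y1 - y0)) := by
    have h1 : 16 * L * θ * σ.2.2.1 ≤ 1 * σ.2.2.1 := mul_le_mul_of_nonneg_right c.hθ4 hXp.le
    have h2 : 2 * θ * l1 (castV (y1 - y0)) ≤ 1 * l1 (castV (y1 - y0)) :=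
      mul_le_mul_of_nonneg_right c.hθ5 hX0.le
    linarith
  have hX3 : σ.2.2.1 - l1 (castV (y1 - y0)) ≤ (8 * L + 1) * N * θ * ‖castV (y1 - y0)‖ := by
    have h1 : 4 * L * (θ * σ.2.2.1) ≤ 4 * L * (θ * (2 * l1 (castV (y1 - y0)))) := by gcongr
    have h2 : (8 * L + 1) * θ * l1 (castV (y1 - y0)) ≤
        (8 * L + 1) * θ * (N * ‖castV (y1 - y0)‖) :=
      mul_le_mul_of_nonneg_left c.hl1a (by positivity)
    linarith
  have hX4 : σ.2.2.1 ≤ 2 * (N * ‖castV (y1 - y0)‖) := by linarith [c.hl1a]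
  have hX5 : σ.2.2.1 - l1 (castV (y1 - y0)) ≤ N * ‖castV (y1 - y0)‖ := by linarith [c.hl1a]
  -- the three paths
  have p1 := conc_path c y0 σ.1.1 c.hy0 b1
  have p2 := conc_path c y1 σ.1.2 c.hy1 b2
  have hnY : (n : ℝ) ≤ θ * (concK1 N L * ‖castV y0‖) :=
    le_trans c.hn (mul_le_mul_of_nonneg_left c.hZ1 hθ.le)
  have q1 : concCa N m L * θ ^ 2 * ‖castV y0‖ ≤ concC0 N m L * θ ^ 2 * ‖castV y0‖ := by
    refine mul_le_mul_of_nonneg_right (mul_le_mul_of_nonneg_right ?_ (by positivity)) hY.le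
    unfold concC0
    have : 0 ≤ 2 * L * concK1 N L := by positivity
    linarith
  refine ⟨⟨fz lp lm y0, fun w => (n : ℝ)⁻¹ * σ.2.1 w, le_trans p1 q1, ?_, ?_, ?_⟩,
    ⟨le_trans p1 q1, ?_⟩, ⟨?_, ?_⟩, hσ.inC, hσ.l1_ge, ?_⟩
  · -- difference
    refine conc_norm_le ?_ fun w => ?_
    · unfold concC0; positivity
    have e1 : (castV (σ.1.2 - σ.1.1) - castV (y1 - y0) -
        θ • nb (castV ε) (fun w => (n : ℝ)⁻¹ * σ.2.1 w)) w =
        (castV (σ.1.2 - σ.1.1) w - castV (y1 - y0) w -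
          nb (castV ε) σ.2.1 w / ztotal lp lm (y0, y1)) +
        ((1 / ztotal lp lm (y0, y1) - θ * (n : ℝ)⁻¹) * nb (castV ε) σ.2.1 w) := by
      simp only [Pi.sub_apply, Pi.smul_apply, smul_eq_mul]
      unfold nb
      ring
    rw [e1]
    refine le_trans (abs_add_le _ _) ?_
    have h1 := b3 w
    have h2 : 2 * L * (4 * N * L) * θ / ztotal lp lm (y0, y1) * σ.2.2.2 ≤
        16 * N ^ 2 * L ^ 2 * (θ ^ 2 * ‖castV (y1 - y0)‖) := by
      have h3 : 2 * L * (4 * N * L) * θ / ztotal lp lm (y0, y1) * σ.2.2.2 =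
          8 * N * L ^ 2 * θ * (1 / ztotal lp lm (y0, y1) * σ.2.2.2) := by ring
      rw [h3]
      calc 8 * N * L ^ 2 * θ * (1 / ztotal lp lm (y0, y1) * σ.2.2.2)
          ≤ 8 * N * L ^ 2 * θ * (θ * σ.2.2.1) :=
            mul_le_mul_of_nonneg_left hS (by positivity)
        _ ≤ 8 * N * L ^ 2 * θ * (θ * (2 * (N * ‖castV (y1 - y0)‖))) := by gcongr
        _ = _ := by ring
    have h4 : ∀ v, |σ.2.1 v| ≤ n * L * ((1 + N) * ‖castV (y1 - y0)‖) := by
      intro v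
      obtain ⟨g, g1, g2, g3⟩ := hσ.G2 v
      have h5 : |g * castV (y1 - y0) v| ≤ n * L * ‖castV (y1 - y0)‖ := by
        rw [abs_mul, abs_of_nonneg (le_trans (by positivity) g1)]
        exact mul_le_mul g2 (conc_le_norm _ v) (abs_nonneg _) (by positivity)
      have h6 : n * L * (σ.2.2.1 - l1 (castV (y1 - y0))) ≤
          n * L * (N * ‖castV (y1 - y0)‖) :=
        mul_le_mul_of_nonneg_left hX5 (by positivity)
      have h7 : σ.2.1 v = (σ.2.1 v - g * castV (y1 - y0) v) + g * castV (y1 - y0) v := by ring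
      rw [h7]
      refine le_trans (abs_add_le _ _) ?_
      linarith
    have h5 := conc_nb_abs c.hε _ _ h4 w
    have h6 : |1 / ztotal lp lm (y0, y1) - θ * (n : ℝ)⁻¹| ≤ θ ^ 2 * (n : ℝ)⁻¹ := by
      have h7 : 1 / ztotal lp lm (y0, y1) - θ * (n : ℝ)⁻¹ =
          (n - θ * ztotal lp lm (y0, y1)) * (1 / ztotal lp lm (y0, y1)) * (n : ℝ)⁻¹ := by
        field_simp
      rw [h7, abs_mul, abs_mul, abs_of_pos (inv_pos.2 hn0), abs_of_pos (one_div_pos.2 hZ)]
      refine mul_le_mul_of_nonneg_right ?_ (inv_pos.2 hn0).le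
      have h8 : |(n : ℝ) - θ * ztotal lp lm (y0, y1)| ≤ 1 := by
        rw [abs_le]
        constructor
        · linarith [c.hn2]
        · linarith [c.hn]
      have h9 : 1 / ztotal lp lm (y0, y1) ≤ θ ^ 2 := by
        rw [div_le_iff₀ hZ]; exact c.hZ2
      calc _ ≤ 1 * θ ^ 2 := mul_le_mul h8 h9 (by positivity) zero_le_one
        _ = _ := one_mul _
    have h7 : |(1 / ztotal lp lm (y0, y1) - θ * (n : ℝ)⁻¹) * nb (castV ε) σ.2.1 w| ≤
        2 * L * (1 + N) * (θ ^ 2 * ‖castV (y1 - y0)‖) := by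
      rw [abs_mul]
      calc _ ≤ (θ ^ 2 * (n : ℝ)⁻¹) * (2 * (n * L * ((1 + N) * ‖castV (y1 - y0)‖))) :=
            mul_le_mul h6 h5 (abs_nonneg _) (by positivity)
        _ = _ := by field_simp
    have h8 : concCb N L * (θ ^ 2 * ‖castV (y1 - y0)‖) ≤
        concC0 N m L * θ ^ 2 * ‖castV (y1 - y0)‖ := by
      rw [mul_assoc (concC0 N m L)]
      refine mul_le_mul_of_nonneg_right ?_ (by positivity)
      unfold concC0
      have : 0 ≤ 2 * L * concK1 N L := by positivity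
      linarith
    unfold concCb at h8
    linarith
  · -- third clause
    intro a ha w
    obtain ⟨g, g1, g2, g3⟩ := hσ.G1 a ha w
    refine ⟨(n : ℝ)⁻¹ * g, ?_, ?_, ?_⟩
    · rw [inv_mul_eq_div, le_div_iff₀ hn0]; linarith
    · rw [inv_mul_eq_div, div_le_iff₀ hn0]; linarith
    · have e1 : fz lp lm y0 w - a * ((n : ℝ)⁻¹ * σ.2.1 w) -
          (n : ℝ)⁻¹ * g * (castV y0 w - a * castV (y1 - y0) w) =
          (n : ℝ)⁻¹ * (n * fz lp lm y0 w - a * σ.2.1 w -
            g * ((y0 w : ℝ) - a * castV (y1 - y0) w)) := by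
        unfold castV
        field_simp
      rw [e1, abs_mul, abs_of_pos (inv_pos.2 hn0)]
      have h1 : (n : ℝ)⁻¹ * |n * fz lp lm y0 w - a * σ.2.1 w -
            g * ((y0 w : ℝ) - a * castV (y1 - y0) w)| ≤
          (n : ℝ)⁻¹ * (2 * n * L * (n + a * (σ.2.2.1 - l1 (castV (y1 - y0))))) :=
        mul_le_mul_of_nonneg_left g3 (inv_pos.2 hn0).le
      have e2 : (n : ℝ)⁻¹ * (2 * n * L * (n + a * (σ.2.2.1 - l1 (castV (y1 - y0))))) =
          2 * L * (n + a * (σ.2.2.1 - l1 (castV (y1 - y0)))) := by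
        field_simp
      rw [e2] at h1
      have h2 : a * (σ.2.2.1 - l1 (castV (y1 - y0))) ≤
          a * ((8 * L + 1) * N * θ * ‖castV (y1 - y0)‖) := mul_le_mul_of_nonneg_left hX3 ha
      have h3 : 2 * L * (n + a * (σ.2.2.1 - l1 (castV (y1 - y0)))) ≤
          2 * L * (θ * (concK1 N L * ‖castV y0‖) +
            a * ((8 * L + 1) * N * θ * ‖castV (y1 - y0)‖)) :=
        mul_le_mul_of_nonneg_left (add_le_add hnY h2) (by positivity)
      have h4 : 2 * L * (θ * (concK1 N L * ‖castV y0‖) +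
            a * ((8 * L + 1) * N * θ * ‖castV (y1 - y0)‖)) ≤
          concCc N L * (θ * (‖castV y0‖ + a * ‖castV (y1 - y0)‖)) := by
        unfold concCc
        have i1 : 0 ≤ 2 * L * ((8 * L + 1) * N) * (θ * ‖castV y0‖) := by positivity
        have i2 : 0 ≤ 2 * L * concK1 N L * (θ * (a * ‖castV (y1 - y0)‖)) := by positivity
        nlinarith
      have h5 : concCc N L * (θ * (‖castV y0‖ + a * ‖castV (y1 - y0)‖)) ≤
          concC0 N m L * θ * (‖castV y0‖ + a * ‖castV (y1 - y0)‖) := by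
        rw [mul_assoc (concC0 N m L)]
        refine mul_le_mul_of_nonneg_right ?_ (by positivity)
        unfold concC0
        have : 0 ≤ 2 * L * concK1 N L := by positivity
        linarith
      linarith
  · -- fourth clause
    intro w
    obtain ⟨g, g1, g2, g3⟩ := hσ.G2 w
    refine ⟨(n : ℝ)⁻¹ * g, ?_, ?_, ?_⟩
    · rw [inv_mul_eq_div, le_div_iff₀ hn0]; linarith
    · rw [inv_mul_eq_div, div_le_iff₀ hn0]; linarith
    · have e1 : (n : ℝ)⁻¹ * σ.2.1 w - (n : ℝ)⁻¹ * g * castV (y1 - y0) w =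
          (n : ℝ)⁻¹ * (σ.2.1 w - g * castV (y1 - y0) w) := by ring
      rw [e1, abs_mul, abs_of_pos (inv_pos.2 hn0)]
      have h1 : (n : ℝ)⁻¹ * |σ.2.1 w - g * castV (y1 - y0) w| ≤
          (n : ℝ)⁻¹ * (n * L * (σ.2.2.1 - l1 (castV (y1 - y0)))) :=
        mul_le_mul_of_nonneg_left g3 (inv_pos.2 hn0).le
      have e2 : (n : ℝ)⁻¹ * (n * L * (σ.2.2.1 - l1 (castV (y1 - y0)))) =
          L * (σ.2.2.1 - l1 (castV (y1 - y0))) := by
        field_simp
      rw [e2] at h1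
      have h3 : L * (σ.2.2.1 - l1 (castV (y1 - y0))) ≤
          L * ((8 * L + 1) * N * θ * ‖castV (y1 - y0)‖) := mul_le_mul_of_nonneg_left hX3 hL.le
      have h4 : L * ((8 * L + 1) * N * θ * ‖castV (y1 - y0)‖) ≤
          concCc N L * (θ * ‖castV (y1 - y0)‖) := by
        unfold concCc
        have i1 : 0 ≤ L * ((8 * L + 1) * N) * (θ * ‖castV (y1 - y0)‖) := by positivity
        have i2 : 0 ≤ 2 * L * concK1 N L * (θ * ‖castV (y1 - y0)‖) := by positivity
        nlinarith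
      have h5 : concCc N L * (θ * ‖castV (y1 - y0)‖) ≤
          concC0 N m L * θ * ‖castV (y1 - y0)‖ := by
        rw [mul_assoc (concC0 N m L)]
        refine mul_le_mul_of_nonneg_right ?_ (by positivity)
        unfold concC0
        have : 0 ≤ 2 * L * concK1 N L := by positivity
        linarith
      linarith
  · -- slope, first copy
    refine conc_slope c y0 σ.1.1 hσ.a1 (concC0 N m L) ?_
    refine mul_le_mul_of_nonneg_right ?_ hY.le
    unfold concC0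
    have : 0 ≤ L * concK1 N L := by positivity
    linarith
  · -- path, second copy
    refine le_trans p2 ?_
    have h1 : concCa N m L * θ ^ 2 * ‖castV y0‖ ≤ concCa N m L * θ ^ 2 * (2 * ‖castV y1‖) :=
      mul_le_mul_of_nonneg_left c.hy1n (by positivity)
    have h2 : 2 * concCa N m L * (θ ^ 2 * ‖castV y1‖) ≤ concC0 N m L * (θ ^ 2 * ‖castV y1‖) := by
      refine mul_le_mul_of_nonneg_right ?_ (by positivity)
      unfold concC0
      have : 0 ≤ 2 * L * concK1 N L := by positivity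
      linarith
    linarith
  · -- slope, second copy
    refine conc_slope c y1 σ.1.2 hσ.a2 (concC0 N m L) ?_
    have h1 : L * concK1 N L * ‖castV y0‖ ≤ L * concK1 N L * (2 * ‖castV y1‖) :=
      mul_le_mul_of_nonneg_left c.hy1n (by positivity)
    have h2 : 2 * L * concK1 N L * ‖castV y1‖ ≤ concC0 N m L * ‖castV y1‖ := by
      refine mul_le_mul_of_nonneg_right ?_ (norm_nonneg _)
      unfold concC0
      linarith
    linarith
  · intro v
    have h1 := hσ.a1 v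
    have h2 := hσ.a2 v
    constructor
    · have h3 : |(((σ.1.1 v - y0 v : ℤ)) : ℝ)| ≤ n := by push_cast; exact h1
      rw [← Int.cast_abs] at h3
      have h4 : |σ.1.1 v - y0 v| ≤ n := by exact_mod_cast h3
      rw [Int.abs_eq_natAbs] at h4
      exact_mod_cast h4
    · have h3 : |(((σ.1.2 v - y1 v : ℤ)) : ℝ)| ≤ n := by push_cast; exact h2
      rw [← Int.cast_abs] at h3
      have h4 : |σ.1.2 v - y1 v| ≤ n := by exact_mod_cast h3
      rw [Int.abs_eq_natAbs] at h4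
      exact_mod_cast h4

end

open Classical in
theorem conc_pr {N : ℕ} [NeZero N] (hN : 3 ≤ N) (lmin lmax : ℝ) (h0 : 0 < lmin)
    (h1 : lmin ≤ lmax) :
    ∃ C0 : ℝ, 0 < C0 ∧ ∃ θ0 : ℝ, 0 < θ0 ∧ ∀ θ : ℝ, 0 < θ → θ ≤ θ0 →
      ∃ Cθ : ℝ, 0 < Cθ ∧ ∃ Yθ : ℝ, 0 < Yθ ∧ ∀ ε : ZV N, IsSgnZ ε → ∀ lp lm : Vec N,
      (∀ v, lmin ≤ lp v ∧ lp v ≤ lmax ∧ lmin ≤ lm v ∧ lm v ≤ lmax) → ∀ y0 y1 : ZV N,
      y1 ≠ y0 → InC (castV ε) (castV (y1 - y0)) →
      ‖castV (y1 - y0)‖ ≤ ‖castV y0‖ / 2 → Yθ ≤ ‖castV y0‖ →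
      ((SP ε lp lm)^[⌊θ * ztotal lp lm (y0, y1)⌋₊]
        (fun s' => if GZ ε lmin lmax C0 θ lp lm ⌊θ * ztotal lp lm (y0, y1)⌋₊ y0 y1 s'
          then (0 : ℝ) else 1)) (y0, y1) ≤ Cθ / ‖castV (y1 - y0)‖ := by
  have hL : 0 < lmax := lt_of_lt_of_le h0 h1
  have hN1 : (1 : ℝ) ≤ N := by
    have : 1 ≤ N := by omega
    exact_mod_cast this
  have hN0 : (0 : ℝ) ≤ N := by linarith
  have hK4 : 0 ≤ concK4 N lmin lmax := by unfold concK4; positivity
  have hK1 : 0 < concK1 N lmax := by unfold concK1; positivity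
  have hK8 : 0 ≤ concK8 N lmin := by unfold concK8; positivity
  have hK6 : 0 ≤ concK6 N lmin lmax := by unfold concK6; positivity
  have hK7 : 0 < concK7 N lmin lmax := by unfold concK7; positivity
  have hC0 : 0 < concC0 N lmin lmax := by
    unfold concC0 concCa concCb concCc; positivity
  refine ⟨concC0 N lmin lmax, hC0, 1 / (16 * (N * lmax + 1)), by positivity, ?_⟩
  intro θ hθ hθ0
  have hθa : 16 * (N * lmax + 1) * θ ≤ 1 := by
    rw [le_div_iff₀ (by positivity)] at hθ0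
    linarith
  have hNLθ : 0 ≤ N * lmax * θ := by positivity
  have hθb : 16 * N * lmax * θ ≤ 1 := by nlinarith
  have hθc : 16 * θ ≤ 1 := by nlinarith
  have hθd : 16 * lmax * θ ≤ 1 := by
    have : lmax * θ ≤ N * (lmax * θ) := le_mul_of_one_le_left (by positivity) hN1
    nlinarith
  refine ⟨(4 * N * concK5 N lmin lmax ^ 2 * concK1 N lmax + 4 * N ^ 2 * concK6 N lmin lmax +
    2 * concK7 N lmin lmax) / θ ^ 3, by positivity, 1 / (lmin * θ ^ 2), by positivity, ?_⟩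
  intro ε hε lp lm hl y0 y1 hne hC hH2 hY
  -- norms
  have hY1 : 1 ≤ lmin * (θ ^ 2 * ‖castV y0‖) := by
    rw [div_le_iff₀ (by positivity)] at hY
    linarith
  have hYpos : 0 < ‖castV y0‖ := lt_of_lt_of_le (by positivity) hY
  have hH : 0 < ‖castV (y1 - y0)‖ := by
    rw [norm_pos_iff]
    intro h
    apply hne
    funext w
    have := congrFun h w
    unfold castV at this
    simp only [Pi.sub_apply, Pi.zero_apply] at this
    have h2 : y1 w - y0 w = 0 := by exact_mod_cast this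
    omega
  have hZge : lmin * ‖castV y0‖ ≤ ztotal lp lm (y0, y1) := by
    have h2 : ‖castV y0‖ ≤ ztotal lp lm (y0, y1) / lmin := by
      refine conc_norm_le ?_ fun w => ?_
      · have := conc_total_ge h0 hl (y0, y1) 0
        have h3 : 0 ≤ lmin * |((y0, y1) : ZV N × ZV N).1 0| := by positivity
        exact div_nonneg (le_trans (by positivity) this) h0.le
      · rw [le_div_iff₀ h0, mul_comm]
        exact conc_total_ge h0 hl (y0, y1) w
    rw [le_div_iff₀ h0] at h2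
    linarith
  have hy1a : ‖castV y1‖ ≤ 3 / 2 * ‖castV y0‖ := by
    have e : castV y1 = castV y0 + castV (y1 - y0) := by
      funext w; unfold castV; simp
    rw [e]
    refine le_trans (norm_add_le _ _) ?_
    linarith
  have hy1b : ‖castV y0‖ ≤ 2 * ‖castV y1‖ := by
    have e : castV y0 = castV y1 - castV (y1 - y0) := by
      funext w; unfold castV; simp
    have h2 : ‖castV y0‖ ≤ ‖castV y1‖ + ‖castV (y1 - y0)‖ := by
      conv_lhs => rw [e]
      exact norm_sub_le _ _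
    linarith
  have hZ : 0 < ztotal lp lm (y0, y1) := lt_of_lt_of_le (by positivity) hZge
  have hZle : ztotal lp lm (y0, y1) ≤ concK1 N lmax * ‖castV y0‖ := by
    have h2 := conc_total_le h0 hl (y0, y1) ‖castV y0‖ (fun v => conc_le_norm (castV y0) v)
      (3 / 2 * ‖castV y0‖) (fun v => le_trans (conc_le_norm (castV y1) v) hy1a)
    unfold concK1
    linarith
  have hZ2 : 1 ≤ θ ^ 2 * ztotal lp lm (y0, y1) := by
    have := mul_le_mul_of_nonneg_left hZge (sq_nonneg θ)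
    linarith
  have hl1a : l1 (castV (y1 - y0)) ≤ N * ‖castV (y1 - y0)‖ := by
    unfold l1
    refine le_trans (Finset.sum_le_sum fun w _ => conc_le_norm (castV (y1 - y0)) w) ?_
    rw [Finset.sum_const, Finset.card_univ, ZMod.card, nsmul_eq_mul]
  have hl1b : ‖castV (y1 - y0)‖ ≤ l1 (castV (y1 - y0)) := by
    refine conc_norm_le ?_ fun w => ?_
    · unfold l1; exact Finset.sum_nonneg fun _ _ => abs_nonneg _
    · unfold l1
      exact Finset.single_le_sum (f := fun v => |castV (y1 - y0) v|)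
        (fun _ _ => abs_nonneg _) (Finset.mem_univ w)
  obtain ⟨n, hn⟩ : ∃ n, n = ⌊θ * ztotal lp lm (y0, y1)⌋₊ := ⟨_, rfl⟩
  have hn1 : (n : ℝ) ≤ θ * ztotal lp lm (y0, y1) := by
    rw [hn]; exact Nat.floor_le (by positivity)
  have hn2 : θ * ztotal lp lm (y0, y1) ≤ n + 1 := by
    rw [hn]; exact (Nat.lt_floor_add_one _).le
  have hn3 : 1 ≤ n := by
    rw [hn]
    apply Nat.le_floor
    push_cast
    nlinarith
  rw [← hn]
  have c : ConcFin lmin lmax ε lp lm y0 y1 θ n := by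
    refine ⟨⟨hN, h0, hl, hε, hZ, hn1, hθ, by linarith, by linarith, ?_, ?_, ?_⟩, hn3, hn2, hZ2,
      hY1, hZle, hH, hl1a, hl1b, hy1b, hθd, by linarith⟩
    · intro w
      have := conc_total_ge h0 hl (y0, y1) w
      change lmin * |(y0 w : ℝ)| ≤ ztotal lp lm (y0, y1) at this
      linarith
    · intro w
      have h2 := conc_le_norm (castV y1) w
      have h3 : |(y1 w : ℝ)| ≤ 3 / 2 * ‖castV y0‖ := le_trans h2 hy1a
      have h4 := mul_le_mul_of_nonneg_left h3 h0.le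
      linarith
    · have h2 : l1 (castV (y1 - y0)) ≤ N * ‖castV y0‖ := by
        refine le_trans hl1a (mul_le_mul_of_nonneg_left ?_ hN0)
        linarith
      have h3 := mul_le_mul_of_nonneg_left h2 h0.le
      have h4 := mul_le_mul_of_nonneg_left hZge hN0
      linarith
  have hX0 : 0 < l1 (castV (y1 - y0)) := lt_of_lt_of_le hH hl1b
  -- the Lyapunov principle
  have hlyap := conc_lyap ε lp lm n (ConcInv lmin lmax ε lp lm y0 y1)
    (concV lmin lmax ε lp lm y0 y1 θ n (1 / (θ ^ 2 * ‖castV y0‖) ^ 2)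
      (1 / (θ ^ 2 * ‖castV (y1 - y0)‖) ^ 2) (1 / (θ * l1 (castV (y1 - y0))) ^ 2))
    (fun τ => if GZ ε lmin lmax (concC0 N lmin lmax) θ lp lm n y0 y1 τ.1 then (0 : ℝ) else 1)
    (fun k hk σ hσ i => conc_p_nonneg c.toConcCtx hk.le hσ i)
    (fun k hk σ hσ i hi => conc_inv_step hN h0 hl hε y0 y1 k σ hσ i hi)
    (conc_V_step c.toConcCtx _ _ _ (by positivity) (by positivity) (by positivity))
    ?_ n le_rfl ((y0, y1), (fun _ => 0), l1 (castV (y1 - y0)), 0)
    (by rw [Nat.sub_self]; exact conc_inv_zero lmin lmax ε lp lm y0 y1 hC)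
  · have e1 := conc_proj ε lp lm (fun s' => if GZ ε lmin lmax (concC0 N lmin lmax) θ lp lm n y0 y1 s'
      then (0 : ℝ) else 1) n ((y0, y1), (fun _ => 0), l1 (castV (y1 - y0)), 0)
    rw [← e1]
    refine le_trans hlyap ?_
    rw [Nat.sub_self]
    have hU1 : ∀ w b, concU1 lmin lmax ε lp lm y0 y1 θ w b 0
        ((y0, y1), (fun _ => 0), l1 (castV (y1 - y0)), 0) = 0 := by
      intro w b; unfold concU1; simp
    have hU2 : ∀ w b, concU2 lmin lmax ε lp lm y0 y1 θ w b 0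
        ((y0, y1), (fun _ => 0), l1 (castV (y1 - y0)), 0) = 0 := by
      intro w b; unfold concU2; simp
    have hU3 : ∀ w b, concU3 lmin lmax ε lp lm y0 y1 θ w b 0
        ((y0, y1), (fun _ => 0), l1 (castV (y1 - y0)), 0) = 0 := by
      intro w b; unfold concU3 nb; simp
    have hUX : concUX lmin lmax ε lp lm y0 y1 0
        ((y0, y1), (fun _ => 0), l1 (castV (y1 - y0)), 0) = 0 := by
      unfold concUX; simp
    unfold concV
    simp only [hU1, hU2, hU3, hUX, max_self, Nat.sub_zero, Nat.cast_zero, sub_zero]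
    have hr : (1 + 4 * lmax / ztotal lp lm (y0, y1)) ^ n ≤ 2 := by
      have h2 : 1 + 4 * lmax / ztotal lp lm (y0, y1) ≤
          Real.exp (4 * lmax / ztotal lp lm (y0, y1)) := by
        have := Real.add_one_le_exp (4 * lmax / ztotal lp lm (y0, y1))
        linarith
      have h3 : (1 + 4 * lmax / ztotal lp lm (y0, y1)) ^ n ≤
          Real.exp (4 * lmax / ztotal lp lm (y0, y1)) ^ n :=
        pow_le_pow_left₀ (by positivity) h2 n
      refine le_trans h3 ?_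
      rw [← Real.exp_nat_mul]
      have h4 : (n : ℝ) * (4 * lmax / ztotal lp lm (y0, y1)) ≤ 1 / 2 := by
        have h5 : (n : ℝ) * (4 * lmax / ztotal lp lm (y0, y1)) =
            4 * lmax * (n / ztotal lp lm (y0, y1)) := by ring
        rw [h5]
        have h6 : (n : ℝ) / ztotal lp lm (y0, y1) ≤ θ := by
          rw [div_le_iff₀ hZ]; exact hn1
        have h7 := mul_le_mul_of_nonneg_left h6 (show 0 ≤ 4 * lmax by positivity)
        linarith
      refine le_trans (Real.exp_le_exp.2 h4) ?_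
      have h5 : Real.exp (1 / 2) ^ 2 ≤ 2 ^ 2 := by
        rw [← Real.exp_nat_mul]
        have : Real.exp 1 < 2.7182818286 := Real.exp_one_lt_d9
        have h6 : ((2 : ℕ) : ℝ) * (1 / 2) = 1 := by norm_num
        rw [h6]
        linarith
      exact le_of_sq_le_sq h5 (by norm_num) |>.trans le_rfl
    have hnZ : (n : ℝ) / ztotal lp lm (y0, y1) ≤ θ := by
      rw [div_le_iff₀ hZ]; exact hn1
    have t1 : 1 / (θ ^ 2 * ‖castV y0‖) ^ 2 * (4 * N * concK5 N lmin lmax ^ 2 * n) ≤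
        4 * N * concK5 N lmin lmax ^ 2 * concK1 N lmax / θ ^ 3 / ‖castV (y1 - y0)‖ := by
      have h2 : (n : ℝ) ≤ θ * (concK1 N lmax * ‖castV y0‖) :=
        le_trans hn1 (mul_le_mul_of_nonneg_left hZle hθ.le)
      have h3 : 1 / (θ ^ 2 * ‖castV y0‖) ^ 2 * (4 * N * concK5 N lmin lmax ^ 2 * n) ≤
          1 / (θ ^ 2 * ‖castV y0‖) ^ 2 * (4 * N * concK5 N lmin lmax ^ 2 *
            (θ * (concK1 N lmax * ‖castV y0‖))) := by gcongr
      refine le_trans h3 ?_
      have h4 : 1 / (θ ^ 2 * ‖castV y0‖) ^ 2 * (4 * N * concK5 N lmin lmax ^ 2 *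
            (θ * (concK1 N lmax * ‖castV y0‖))) =
          4 * N * concK5 N lmin lmax ^ 2 * concK1 N lmax / θ ^ 3 / ‖castV y0‖ := by
        field_simp
      rw [h4]
      exact div_le_div_of_nonneg_left (by positivity) hH (by linarith)
    have t2 : 2 * N * concK6 N lmin lmax * (1 / (θ ^ 2 * ‖castV (y1 - y0)‖) ^ 2) *
        (θ * 2 * l1 (castV (y1 - y0))) ≤
        4 * N ^ 2 * concK6 N lmin lmax / θ ^ 3 / ‖castV (y1 - y0)‖ := by
      have h3 : 2 * N * concK6 N lmin lmax * (1 / (θ ^ 2 * ‖castV (y1 - y0)‖) ^ 2) *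
        (θ * 2 * l1 (castV (y1 - y0))) ≤
          2 * N * concK6 N lmin lmax * (1 / (θ ^ 2 * ‖castV (y1 - y0)‖) ^ 2) *
        (θ * 2 * (N * ‖castV (y1 - y0)‖)) := by gcongr
      refine le_trans h3 (le_of_eq ?_)
      field_simp
      ring
    have t3 : concK7 N lmin lmax * (1 / (θ * l1 (castV (y1 - y0))) ^ 2) *
        (θ * 2 * l1 (castV (y1 - y0))) ≤
        2 * concK7 N lmin lmax / θ ^ 3 / ‖castV (y1 - y0)‖ := by
      have h3 : concK7 N lmin lmax * (1 / (θ * l1 (castV (y1 - y0))) ^ 2) *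
        (θ * 2 * l1 (castV (y1 - y0))) = 2 * concK7 N lmin lmax / θ / l1 (castV (y1 - y0)) := by
        field_simp
      rw [h3]
      have h4 : 2 * concK7 N lmin lmax / θ ≤ 2 * concK7 N lmin lmax / θ ^ 3 := by
        refine div_le_div_of_nonneg_left (by positivity) (by positivity) ?_
        have : θ ^ 2 ≤ 1 := by nlinarith
        nlinarith
      calc 2 * concK7 N lmin lmax / θ / l1 (castV (y1 - y0))
          ≤ 2 * concK7 N lmin lmax / θ / ‖castV (y1 - y0)‖ :=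
            div_le_div_of_nonneg_left (by positivity) hH hl1b
        _ ≤ _ := div_le_div_of_nonneg_right h4 hH.le
    have t4 : (n : ℝ) / ztotal lp lm (y0, y1) *
        (1 + 4 * lmax / ztotal lp lm (y0, y1)) ^ n * l1 (castV (y1 - y0)) ≤
        θ * 2 * l1 (castV (y1 - y0)) := by
      refine mul_le_mul_of_nonneg_right ?_ hX0.le
      exact mul_le_mul hnZ hr (by positivity) hθ.le
    have t5 : (2 * N * concK6 N lmin lmax * (1 / (θ ^ 2 * ‖castV (y1 - y0)‖) ^ 2) +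
        concK7 N lmin lmax * (1 / (θ * l1 (castV (y1 - y0))) ^ 2)) *
        ((n : ℝ) / ztotal lp lm (y0, y1) *
        (1 + 4 * lmax / ztotal lp lm (y0, y1)) ^ n * l1 (castV (y1 - y0))) ≤
        (2 * N * concK6 N lmin lmax * (1 / (θ ^ 2 * ‖castV (y1 - y0)‖) ^ 2) +
        concK7 N lmin lmax * (1 / (θ * l1 (castV (y1 - y0))) ^ 2)) *
        (θ * 2 * l1 (castV (y1 - y0))) := mul_le_mul_of_nonneg_left t4 (by positivity)
    have e2 : (4 * N * concK5 N lmin lmax ^ 2 * concK1 N lmax + 4 * N ^ 2 * concK6 N lmin lmax +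
        2 * concK7 N lmin lmax) / θ ^ 3 / ‖castV (y1 - y0)‖ =
        4 * N * concK5 N lmin lmax ^ 2 * concK1 N lmax / θ ^ 3 / ‖castV (y1 - y0)‖ +
        4 * N ^ 2 * concK6 N lmin lmax / θ ^ 3 / ‖castV (y1 - y0)‖ +
        2 * concK7 N lmin lmax / θ ^ 3 / ‖castV (y1 - y0)‖ := by ring
    rw [e2]
    simp only [ne_eq, OfNat.ofNat_ne_zero, not_false_eq_true, zero_pow, add_zero,
      Finset.sum_const_zero, zero_add, mul_zero]
    linarith
  · intro σ hσ
    by_cases hlt : concV lmin lmax ε lp lm y0 y1 θ n (1 / (θ ^ 2 * ‖castV y0‖) ^ 2)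
      (1 / (θ ^ 2 * ‖castV (y1 - y0)‖) ^ 2) (1 / (θ * l1 (castV (y1 - y0))) ^ 2) n σ < 1
    · rw [if_pos (conc_final c σ hσ hlt)]
      unfold concV
      rw [sub_self, mul_zero, add_zero, zero_div, zero_mul, zero_mul, mul_zero, add_zero]
      positivity
    · split_ifs
      · linarith
      · linarith

alias conc := conc_pr

end Pool.Agent.Lib_helper10.CU
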