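import Pool.Agent.Lib_helper10.CU.Defs

-- block CONC1 written by helper22
/-! Block CONC, part 1: scalar lemmas. -/

set_option autoImplicit false
open scoped BigOperators
noncomputable section

namespace Pool.Agent.Lib_helper10.CU

set_option linter.unusedSectionVars false
set_option linter.unusedVariables false
set_option linter.unusedSimpArgs false

/-- scalar rate -/
def concR (p q : ℝ) (a : ℤ) : ℝ := if 0 < a then p * (a : ℝ) else q * (-(a : ℝ))
/-- scalar signed rate -/
def concF (p q : ℝ) (a : ℤ) : ℝ := if 0 < a then p * (a : ℝ) else q * (a : ℝ)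
/-- scalar joint rate -/
def concJ (p q : ℝ) (a b : ℤ) : ℝ := if 0 < a * b then min (concR p q a) (concR p q b) else 0

theorem conc_R_eq (p q : ℝ) (a : ℤ) :
    concR p q a = p * max (a : ℝ) 0 + q * max (-(a : ℝ)) 0 := by
  unfold concR
  split_ifs with h
  · have h' : (0 : ℝ) < a := by exact_mod_cast h
    rw [max_eq_left h'.le, max_eq_right (by linarith)]
    ring
  · have h' : (a : ℝ) ≤ 0 := by exact_mod_cast not_lt.1 h
    rw [max_eq_right h', max_eq_left (by linarith)]
    ring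

theorem conc_F_eq (p q : ℝ) (a : ℤ) :
    concF p q a = p * max (a : ℝ) 0 - q * max (-(a : ℝ)) 0 := by
  unfold concF
  split_ifs with h
  · have h' : (0 : ℝ) < a := by exact_mod_cast h
    rw [max_eq_left h'.le, max_eq_right (by linarith)]
    ring
  · have h' : (a : ℝ) ≤ 0 := by exact_mod_cast not_lt.1 h
    rw [max_eq_right h', max_eq_left (by linarith)]
    ring

theorem conc_J_eq {p q : ℝ} (hp : 0 < p) (hq : 0 < q) (a b : ℤ) :
    concJ p q a b = p * min (max (a : ℝ) 0) (max (b : ℝ) 0) +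
      q * min (max (-(a : ℝ)) 0) (max (-(b : ℝ)) 0) := by
  unfold concJ concR
  rcases lt_trichotomy 0 a with ha | ha | ha <;> rcases lt_trichotomy 0 b with hb | hb | hb
  · have ha' : (0 : ℝ) < a := by exact_mod_cast ha
    have hb' : (0 : ℝ) < b := by exact_mod_cast hb
    rw [if_pos (mul_pos ha hb), if_pos ha, if_pos hb, max_eq_left ha'.le, max_eq_left hb'.le,
      max_eq_right (by linarith), max_eq_right (by linarith), min_self, mul_zero, add_zero,
      mul_min_of_nonneg _ _ hp.le]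
  · subst hb
    simp
  · have ha' : (0 : ℝ) < a := by exact_mod_cast ha
    have hb' : (b : ℝ) < 0 := by exact_mod_cast hb
    rw [if_neg (not_lt.2 (mul_nonpos_of_nonneg_of_nonpos ha.le hb.le)), max_eq_left ha'.le,
      max_eq_right hb'.le, max_eq_right (by linarith), max_eq_left (by linarith),
      min_eq_right ha'.le, min_eq_left (by linarith)]
    ring
  · subst ha
    simp
  · subst ha
    simp
  · subst ha
    simp
  · have ha' : (a : ℝ) < 0 := by exact_mod_cast ha
    have hb' : (0 : ℝ) < b := by exact_mod_cast hb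
    rw [if_neg (not_lt.2 (mul_nonpos_of_nonpos_of_nonneg ha.le hb.le)), max_eq_right ha'.le,
      max_eq_left hb'.le, max_eq_left (by linarith), max_eq_right (by linarith),
      min_eq_left hb'.le, min_eq_right (by linarith)]
    ring
  · subst hb
    simp
  · have ha' : (a : ℝ) < 0 := by exact_mod_cast ha
    have hb' : (b : ℝ) < 0 := by exact_mod_cast hb
    rw [if_pos (mul_pos_of_neg_of_neg ha hb), if_neg (not_lt.2 ha.le), if_neg (not_lt.2 hb.le),
      max_eq_right ha'.le, max_eq_right hb'.le,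
      max_eq_left (by linarith), max_eq_left (by linarith), min_self, mul_zero, zero_add,
      mul_min_of_nonneg _ _ hq.le]

theorem conc_mpos {x : ℝ} (h : 0 ≤ x) : max x 0 = x ∧ max (-x) 0 = 0 :=
  ⟨max_eq_left h, max_eq_right (by linarith)⟩

theorem conc_mneg {x : ℝ} (h : x ≤ 0) : max x 0 = 0 ∧ max (-x) 0 = -x :=
  ⟨max_eq_right h, max_eq_left (by linarith)⟩

theorem conc_abs_eq (x : ℝ) : |x| = max x 0 + max (-x) 0 := by
  rcases le_total 0 x with h | h
  · rw [abs_of_nonneg h, max_eq_left h, max_eq_right (by linarith)]; ring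
  · rw [abs_of_nonpos h, max_eq_right h, max_eq_left (by linarith)]; ring

section
variable {m L p q : ℝ} (hm : 0 < m) (hp : m ≤ p ∧ p ≤ L) (hq : m ≤ q ∧ q ≤ L)
include hm hp hq

theorem conc_R_bd (a : ℤ) : m * |(a : ℝ)| ≤ concR p q a ∧ concR p q a ≤ L * |(a : ℝ)| := by
  rw [conc_R_eq, conc_abs_eq]
  have h1 : 0 ≤ max (a : ℝ) 0 := le_max_right _ _
  have h2 : 0 ≤ max (-(a : ℝ)) 0 := le_max_right _ _
  obtain ⟨hp1, hp2⟩ := hp
  obtain ⟨hq1, hq2⟩ := hq
  constructor <;> nlinarith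

theorem conc_R_nonneg (a : ℤ) : 0 ≤ concR p q a :=
  le_trans (mul_nonneg hm.le (abs_nonneg _)) (conc_R_bd hm hp hq a).1

theorem conc_J_nonneg (a b : ℤ) : 0 ≤ concJ p q a b := by
  unfold concJ
  split_ifs
  · exact le_min (conc_R_nonneg hm hp hq a) (conc_R_nonneg hm hp hq b)
  · exact le_rfl

theorem conc_J_le_left (a b : ℤ) : concJ p q a b ≤ concR p q a := by
  unfold concJ
  split_ifs
  · exact min_le_left _ _
  · exact conc_R_nonneg hm hp hq a

theorem conc_J_le_right (a b : ℤ) : concJ p q a b ≤ concR p q b := by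
  unfold concJ
  split_ifs
  · exact min_le_right _ _
  · exact conc_R_nonneg hm hp hq b

theorem conc_move (a b : ℤ) :
    concR p q a + concR p q b - 2 * concJ p q a b ≤ L * |(b : ℝ) - a| := by
  have hp0 : 0 < p := lt_of_lt_of_le hm hp.1
  have hq0 : 0 < q := lt_of_lt_of_le hm hq.1
  rw [conc_R_eq, conc_R_eq, conc_J_eq hp0 hq0]
  have e1 : ∀ x y : ℝ, x + y - 2 * min x y = |y - x| := by
    intro x y
    rcases le_total x y with h | h
    · rw [min_eq_left h, abs_of_nonneg (by linarith)]; ring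
    · rw [min_eq_right h, abs_of_nonpos (by linarith)]; ring
  have e2 : |(b : ℝ) - a| = |max (b : ℝ) 0 - max (a : ℝ) 0| +
      |max (-(b : ℝ)) 0 - max (-(a : ℝ)) 0| := by
    rcases le_total 0 (a : ℝ) with ha | ha <;> rcases le_total 0 (b : ℝ) with hb | hb
    · rw [max_eq_left ha, max_eq_left hb, max_eq_right (by linarith), max_eq_right (by linarith)]
      simp
    · rw [max_eq_left ha, max_eq_right hb, max_eq_left (by linarith), max_eq_right (by linarith),
        abs_of_nonpos (by linarith), abs_of_nonpos (by linarith), abs_of_nonneg (by linarith)]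
      ring
    · rw [max_eq_right ha, max_eq_left hb, max_eq_right (by linarith), max_eq_left (by linarith),
        abs_of_nonneg (by linarith), abs_of_nonneg (by linarith), abs_of_nonpos (by linarith)]
      ring
    · rw [max_eq_right ha, max_eq_right hb, max_eq_left (by linarith), max_eq_left (by linarith)]
      rw [sub_self, abs_zero, zero_add, ← abs_neg]
      congr 1
      ring
  have h1 := e1 (max (a : ℝ) 0) (max (b : ℝ) 0)
  have h2 := e1 (max (-(a : ℝ)) 0) (max (-(b : ℝ)) 0)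
  have h3 : p * max (a : ℝ) 0 + q * max (-(a : ℝ)) 0 + (p * max (b : ℝ) 0 + q * max (-(b : ℝ)) 0) -
      2 * (p * min (max (a : ℝ) 0) (max (b : ℝ) 0) +
      q * min (max (-(a : ℝ)) 0) (max (-(b : ℝ)) 0)) =
      p * |max (b : ℝ) 0 - max (a : ℝ) 0| + q * |max (-(b : ℝ)) 0 - max (-(a : ℝ)) 0| := by
    rw [← h1, ← h2]; ring
  rw [h3, e2]
  have h4 := abs_nonneg (max (b : ℝ) 0 - max (a : ℝ) 0)
  have h5 := abs_nonneg (max (-(b : ℝ)) 0 - max (-(a : ℝ)) 0)
  nlinarith [hp.2, hq.2]

theorem conc_T_eq (a b : ℤ) :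
    concR p q a + concR p q b - concJ p q a b =
      p * max (max (a : ℝ) 0) (max (b : ℝ) 0) + q * max (max (-(a : ℝ)) 0) (max (-(b : ℝ)) 0) := by
  have hp0 : 0 < p := lt_of_lt_of_le hm hp.1
  have hq0 : 0 < q := lt_of_lt_of_le hm hq.1
  rw [conc_R_eq, conc_R_eq, conc_J_eq hp0 hq0]
  have e1 : ∀ x y : ℝ, max x y = x + y - min x y := by
    intro x y
    have := max_add_min x y
    linarith
  rw [e1 (max (a : ℝ) 0) (max (b : ℝ) 0), e1 (max (-(a : ℝ)) 0) (max (-(b : ℝ)) 0)]
  ring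

theorem conc_T_lip (a b a' b' : ℤ) (k : ℝ) (h1 : |(a' : ℝ) - a| ≤ k) (h2 : |(b' : ℝ) - b| ≤ k) :
    |(concR p q a' + concR p q b' - concJ p q a' b') -
      (concR p q a + concR p q b - concJ p q a b)| ≤ 2 * L * k := by
  rw [conc_T_eq hm hp hq, conc_T_eq hm hp hq]
  have hk : 0 ≤ k := le_trans (abs_nonneg _) h1
  have hp0 : 0 < p := lt_of_lt_of_le hm hp.1
  have hq0 : 0 < q := lt_of_lt_of_le hm hq.1
  have e : ∀ x y x' y' : ℝ, |x' - x| ≤ k → |y' - y| ≤ k →
      |max (max x' 0) (max y' 0) - max (max x 0) (max y 0)| ≤ k := by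
    intro x y x' y' hx hy
    refine le_trans (abs_max_sub_max_le_max _ _ _ _) (max_le ?_ ?_)
    · refine le_trans (abs_max_sub_max_le_max _ _ _ _) (max_le hx ?_)
      simpa using hk
    · refine le_trans (abs_max_sub_max_le_max _ _ _ _) (max_le hy ?_)
      simpa using hk
  have h3 := e a b a' b' h1 h2
  have h4 := e (-a) (-b) (-a') (-b') (by rw [← abs_neg]; ring_nf; ring_nf at h1; exact h1)
    (by rw [← abs_neg]; ring_nf; ring_nf at h2; exact h2)
  rw [abs_le] at h3 h4 ⊢
  constructor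
  · nlinarith [hp.2, hq.2]
  · nlinarith [hp.2, hq.2]

/-- a weighted average of the two slopes -/
theorem conc_wa (P Q : ℝ) (h : (0 ≤ P ∧ 0 ≤ Q) ∨ (P ≤ 0 ∧ Q ≤ 0)) :
    ∃ g, m ≤ g ∧ g ≤ L ∧ p * P + q * Q = g * (P + Q) := by
  by_cases hz : P + Q = 0
  · refine ⟨m, le_rfl, le_trans hp.1 hp.2, ?_⟩
    have : P = 0 ∧ Q = 0 := by
      rcases h with ⟨h1, h2⟩ | ⟨h1, h2⟩ <;> constructor <;> linarith
    rw [this.1, this.2]; ring
  · refine ⟨(p * P + q * Q) / (P + Q), ?_, ?_, by field_simp⟩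
    · rcases h with ⟨h1, h2⟩ | ⟨h1, h2⟩
      · rw [le_div_iff₀ (lt_of_le_of_ne (by linarith) (Ne.symm hz))]
        nlinarith [hp.1, hq.1]
      · rw [le_div_iff_of_neg (lt_of_le_of_ne (by linarith) hz)]
        nlinarith [hp.1, hq.1]
    · rcases h with ⟨h1, h2⟩ | ⟨h1, h2⟩
      · rw [div_le_iff₀ (lt_of_le_of_ne (by linarith) (Ne.symm hz))]
        nlinarith [hp.2, hq.2]
      · rw [div_le_iff_of_neg (lt_of_le_of_ne (by linarith) hz)]
        nlinarith [hp.2, hq.2]

/-- slopes along a line through two points -/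
theorem conc_F2 (a b : ℤ) (t : ℝ) (ht : 0 ≤ t) :
    ∃ g, m ≤ g ∧ g ≤ L ∧
      concF p q a - t * (concF p q b - concF p q a) = g * ((a : ℝ) - t * (b - a)) := by
  rw [conc_F_eq, conc_F_eq]
  rcases le_total 0 (a : ℝ) with ha | ha <;> rcases le_total 0 (b : ℝ) with hb | hb
  · rw [(conc_mpos ha).1, (conc_mpos ha).2, (conc_mpos hb).1, (conc_mpos hb).2]
    exact ⟨p, hp.1, hp.2, by ring⟩
  · rw [(conc_mpos ha).1, (conc_mpos ha).2, (conc_mneg hb).1, (conc_mneg hb).2]
    obtain ⟨g, h1, h2, h3⟩ := conc_wa hm hp hq ((1 + t) * a) (t * (-b))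
      (Or.inl ⟨by positivity, mul_nonneg ht (by linarith)⟩)
    exact ⟨g, h1, h2, by linear_combination h3⟩
  · rw [(conc_mneg ha).1, (conc_mneg ha).2, (conc_mpos hb).1, (conc_mpos hb).2]
    obtain ⟨g, h1, h2, h3⟩ := conc_wa hm hp hq (-(t * b)) ((1 + t) * a)
      (Or.inr ⟨by have := mul_nonneg ht hb; linarith,
        mul_nonpos_of_nonneg_of_nonpos (by linarith) ha⟩)
    exact ⟨g, h1, h2, by linear_combination h3⟩
  · rw [(conc_mneg ha).1, (conc_mneg ha).2, (conc_mneg hb).1, (conc_mneg hb).2]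
    exact ⟨q, hq.1, hq.2, by ring⟩

/-- slope between two points, with the value at the first -/
theorem conc_F1 (a b : ℤ) :
    ∃ g, m ≤ g ∧ g ≤ L ∧ concF p q b - concF p q a = g * ((b : ℝ) - a) ∧
      |g * a - concF p q a| ≤ L * |(b : ℝ) - a| := by
  have hL : 0 ≤ L := le_trans hm.le (le_trans hp.1 hp.2)
  have hr : 0 ≤ L * |(b : ℝ) - a| := mul_nonneg hL (abs_nonneg _)
  rw [conc_F_eq, conc_F_eq]
  rcases le_total 0 (a : ℝ) with ha | ha <;> rcases le_total 0 (b : ℝ) with hb | hb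
  · rw [(conc_mpos ha).1, (conc_mpos ha).2, (conc_mpos hb).1, (conc_mpos hb).2]
    refine ⟨p, hp.1, hp.2, by ring, ?_⟩
    rw [show p * (a : ℝ) - (p * a - q * 0) = 0 by ring, abs_zero]
    exact hr
  · rw [(conc_mpos ha).1, (conc_mpos ha).2, (conc_mneg hb).1, (conc_mneg hb).2]
    obtain ⟨g, h1, h2, h3⟩ := conc_wa hm hp hq (-a) b (Or.inr ⟨by linarith, hb⟩)
    refine ⟨g, h1, h2, by linear_combination h3, ?_⟩
    rw [show g * (a : ℝ) - (p * a - q * 0) = (g - p) * a by ring, abs_mul,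
      abs_of_nonneg ha, abs_of_nonpos (show (b : ℝ) - a ≤ 0 by linarith)]
    have : |g - p| ≤ L := by rw [abs_le]; constructor <;> linarith [hp.1, hp.2]
    nlinarith
  · rw [(conc_mneg ha).1, (conc_mneg ha).2, (conc_mpos hb).1, (conc_mpos hb).2]
    obtain ⟨g, h1, h2, h3⟩ := conc_wa hm hp hq b (-a) (Or.inl ⟨hb, by linarith⟩)
    refine ⟨g, h1, h2, by linear_combination h3, ?_⟩
    rw [show g * (a : ℝ) - (p * 0 - q * -a) = (g - q) * a by ring, abs_mul,
      abs_of_nonpos ha, abs_of_nonneg (show (0 : ℝ) ≤ (b : ℝ) - a by linarith)]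
    have : |g - q| ≤ L := by rw [abs_le]; constructor <;> linarith [hq.1, hq.2]
    nlinarith
  · rw [(conc_mneg ha).1, (conc_mneg ha).2, (conc_mneg hb).1, (conc_mneg hb).2]
    refine ⟨q, hq.1, hq.2, by ring, ?_⟩
    rw [show q * (a : ℝ) - (p * 0 - q * -a) = 0 by ring, abs_zero]
    exact hr

theorem conc_F_abs (a : ℤ) : |concF p q a| ≤ L * |(a : ℝ)| := by
  obtain ⟨g, h1, h2, h3, _⟩ := conc_F1 hm hp hq 0 a
  have h4 : concF p q 0 = 0 := by simp [concF]
  rw [h4, sub_zero, Int.cast_zero, sub_zero] at h3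
  rw [h3, abs_mul, abs_of_nonneg (by linarith)]
  exact mul_le_mul_of_nonneg_right h2 (abs_nonneg _)

theorem conc_F_lip (a b : ℤ) : |concF p q b - concF p q a| ≤ L * |(b : ℝ) - a| := by
  obtain ⟨g, h1, h2, h3, _⟩ := conc_F1 hm hp hq a b
  rw [h3, abs_mul, abs_of_nonneg (by linarith)]
  exact mul_le_mul_of_nonneg_right h2 (abs_nonneg _)

end

theorem conc_F_sign (p q : ℝ) (a : ℤ) : (Int.sign a : ℝ) * concR p q a = concF p q a := by
  unfold concF concR
  rcases lt_trichotomy 0 a with ha | ha | ha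
  · rw [if_pos ha, if_pos ha, Int.sign_eq_one_of_pos ha]; simp
  · subst ha; simp
  · rw [if_neg (not_lt.2 ha.le), if_neg (not_lt.2 ha.le), Int.sign_eq_neg_one_of_neg ha]
    push_cast; ring

theorem conc_J_sign {p q : ℝ} {a b : ℤ} (h : concJ p q a b ≠ 0) : Int.sign a = Int.sign b := by
  unfold concJ at h
  split_ifs at h with h1
  · rcases (mul_pos_iff.1 h1) with ⟨ha, hb⟩ | ⟨ha, hb⟩
    · rw [Int.sign_eq_one_of_pos ha, Int.sign_eq_one_of_pos hb]
    · rw [Int.sign_eq_neg_one_of_neg ha, Int.sign_eq_neg_one_of_neg hb]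
  · exact absurd rfl h

theorem conc_single1 {p q : ℝ} (hp : 0 < p) (hq : 0 < q) {a b : ℤ}
    (h : concR p q a - concJ p q a b ≠ 0) : - Int.sign a = Int.sign (b - a) ∧ b - a ≠ 0 := by
  rw [conc_R_eq, conc_J_eq hp hq] at h
  rcases lt_trichotomy a b with hab | hab | hab
  · have hab' : (a : ℝ) < b := by exact_mod_cast hab
    have ha : a < 0 := by
      by_contra hc
      have hc' : (0 : ℝ) ≤ a := by exact_mod_cast not_lt.1 hc
      apply h
      rw [max_eq_left hc', max_eq_left (show (0 : ℝ) ≤ b by linarith),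
        max_eq_right (show -(a : ℝ) ≤ 0 by linarith),
        max_eq_right (show -(b : ℝ) ≤ 0 by linarith), min_eq_left hab'.le]
      simp
    rw [Int.sign_eq_neg_one_of_neg ha, Int.sign_eq_one_of_pos (by omega)]
    exact ⟨by norm_num, by omega⟩
  · exfalso
    apply h
    rw [hab]
    simp
  · have hab' : (b : ℝ) < a := by exact_mod_cast hab
    have ha : 0 < a := by
      by_contra hc
      have hc' : (a : ℝ) ≤ 0 := by exact_mod_cast not_lt.1 hc
      apply h
      rw [max_eq_right hc', max_eq_right (show (b : ℝ) ≤ 0 by linarith),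
        max_eq_left (show (0 : ℝ) ≤ -(a : ℝ) by linarith),
        max_eq_left (show (0 : ℝ) ≤ -(b : ℝ) by linarith),
        min_eq_left (show -(a : ℝ) ≤ -(b : ℝ) by linarith)]
      simp
    rw [Int.sign_eq_one_of_pos ha, Int.sign_eq_neg_one_of_neg (by omega)]
    exact ⟨by norm_num, by omega⟩

theorem conc_single2 {p q : ℝ} (hp : 0 < p) (hq : 0 < q) {a b : ℤ}
    (h : concR p q b - concJ p q a b ≠ 0) : Int.sign b = Int.sign (b - a) ∧ b - a ≠ 0 := by
  rw [conc_R_eq, conc_J_eq hp hq] at h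
  rcases lt_trichotomy a b with hab | hab | hab
  · have hab' : (a : ℝ) < b := by exact_mod_cast hab
    have ha : 0 < b := by
      by_contra hc
      have hc' : (b : ℝ) ≤ 0 := by exact_mod_cast not_lt.1 hc
      apply h
      rw [max_eq_right hc', max_eq_right (show (a : ℝ) ≤ 0 by linarith),
        max_eq_left (show (0 : ℝ) ≤ -(b : ℝ) by linarith),
        max_eq_left (show (0 : ℝ) ≤ -(a : ℝ) by linarith),
        min_eq_right (show -(b : ℝ) ≤ -a by linarith)]
      simp
    rw [Int.sign_eq_one_of_pos ha, Int.sign_eq_one_of_pos (by omega)]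
    exact ⟨rfl, by omega⟩
  · exfalso
    apply h
    rw [hab]
    simp
  · have hab' : (b : ℝ) < a := by exact_mod_cast hab
    have ha : b < 0 := by
      by_contra hc
      have hc' : (0 : ℝ) ≤ b := by exact_mod_cast not_lt.1 hc
      apply h
      rw [max_eq_left hc', max_eq_left (show (0 : ℝ) ≤ a by linarith),
        max_eq_right (show -(b : ℝ) ≤ 0 by linarith),
        max_eq_right (show -(a : ℝ) ≤ 0 by linarith), min_eq_right hab'.le]
      simp
    rw [Int.sign_eq_neg_one_of_neg ha, Int.sign_eq_neg_one_of_neg (by omega)]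
    exact ⟨rfl, by omega⟩

/-- the positive part trick -/
theorem conc_pos_part {ι : Type*} [Fintype ι] (w d : ι → ℝ) (u : ℝ) (hw : ∀ i, 0 ≤ w i)
    (h1 : ∑ i, w i = 1) (hd : ∑ i, w i * d i ≤ 0) :
    ∑ i, w i * (max (u + d i) 0) ^ 2 ≤ (max u 0) ^ 2 + ∑ i, w i * d i ^ 2 := by
  have h2 : ∀ i, w i * (max (u + d i) 0) ^ 2 ≤
      w i * (max u 0) ^ 2 + 2 * max u 0 * (w i * d i) + w i * d i ^ 2 := by
    intro i
    have h3 : (max (u + d i) 0) ^ 2 ≤ (max u 0 + d i) ^ 2 := by
      rcases le_total (u + d i) 0 with h | h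
      · rw [max_eq_right h]; nlinarith [sq_nonneg (max u 0 + d i)]
      · rw [max_eq_left h]
        have : u ≤ max u 0 := le_max_left _ _
        nlinarith
    calc w i * (max (u + d i) 0) ^ 2 ≤ w i * (max u 0 + d i) ^ 2 :=
          mul_le_mul_of_nonneg_left h3 (hw i)
      _ = _ := by ring
  calc ∑ i, w i * (max (u + d i) 0) ^ 2
      ≤ ∑ i, (w i * (max u 0) ^ 2 + 2 * max u 0 * (w i * d i) + w i * d i ^ 2) :=
        Finset.sum_le_sum fun i _ => h2 i
    _ = (max u 0) ^ 2 + 2 * max u 0 * ∑ i, w i * d i + ∑ i, w i * d i ^ 2 := by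
        rw [Finset.sum_add_distrib, Finset.sum_add_distrib, ← Finset.sum_mul, h1, one_mul,
          ← Finset.mul_sum]
    _ ≤ _ := by
        have : 0 ≤ max u 0 := le_max_right _ _
        nlinarith

end Pool.Agent.Lib_helper10.CU
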