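import Pool.Agent.Lib_helper10.CU.CONC1

-- block CONC2 written by helper22
/-! Block CONC, part 2: the augmented chain and the Lyapunov principle. -/

set_option autoImplicit false
open scoped BigOperators
noncomputable section

namespace Pool.Agent.Lib_helper10.CU

set_option linter.unusedSectionVars false
set_option linter.unusedVariables false
set_option linter.unusedSimpArgs false

/-! ### scalar versions -/

theorem conc_rz {N : ℕ} (lp lm : Vec N) (y : ZV N) (v : ZMod N) :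
    rz lp lm y v = concR (lp v) (lm v) (y v) := rfl

theorem conc_fz {N : ℕ} (lp lm : Vec N) (y : ZV N) (v : ZMod N) :
    fz lp lm y v = concF (lp v) (lm v) (y v) := rfl

theorem conc_jz {N : ℕ} (lp lm : Vec N) (y y' : ZV N) (v : ZMod N) :
    jz lp lm y y' v = concJ (lp v) (lm v) (y v) (y' v) := rfl

/-! ### indices -/

theorem conc_succ_ne_pred {N : ℕ} (hN : 3 ≤ N) (v : ZMod N) : v + 1 ≠ v - 1 := by
  intro h
  have h2 : ((2 : ℕ) : ZMod N) = 0 := by
    have : (v + 1) - (v - 1) = 0 := sub_eq_zero.2 h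
    have h3 : (v + 1) - (v - 1) = ((2 : ℕ) : ZMod N) := by push_cast; ring
    rw [h3] at this
    exact this
  rw [ZMod.natCast_eq_zero_iff] at h2
  have := Nat.le_of_dvd (by norm_num) h2
  omega

/-- elementary transitions: a vertex, and which copies fire -/
abbrev ConcI (N : ℕ) := ZMod N × Fin 3

/-- weights -/
def concW {N : ℕ} (lp lm : Vec N) (s : ZV N × ZV N) (i : ConcI N) : ℝ :=
  ![jz lp lm s.1 s.2 i.1, rz lp lm s.1 i.1 - jz lp lm s.1 s.2 i.1,
    rz lp lm s.2 i.1 - jz lp lm s.1 s.2 i.1] i.2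

/-- next state -/
def concN {N : ℕ} (ε : ZV N) (s : ZV N × ZV N) (i : ConcI N) : ZV N × ZV N :=
  ![(fireZ ε s.1 i.1, fireZ ε s.2 i.1), (fireZ ε s.1 i.1, s.2), (s.1, fireZ ε s.2 i.1)] i.2

/-- does the difference move -/
def concM {N : ℕ} (i : ConcI N) : ℝ := if i.2 = 0 then 0 else 1

theorem conc_sum {N : ℕ} [NeZero N] (f : ConcI N → ℝ) :
    ∑ i, f i = ∑ v, (f (v, 0) + f (v, 1) + f (v, 2)) := by
  rw [Fintype.sum_prod_type]
  refine Finset.sum_congr rfl fun v _ => ?_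
  rw [Fin.sum_univ_three]

theorem conc_SP {N : ℕ} [NeZero N] (ε : ZV N) (lp lm : Vec N) (g : ZV N × ZV N → ℝ)
    (s : ZV N × ZV N) :
    SP ε lp lm g s = ∑ i, concW lp lm s i / ztotal lp lm s * g (concN ε s i) := by
  rw [conc_sum]
  unfold SP
  rw [Finset.sum_div]
  refine Finset.sum_congr rfl fun v _ => ?_
  simp only [concW, concN, Matrix.cons_val_zero, Matrix.cons_val_one, Matrix.cons_val]
  ring

/-- augmented states: state, accumulated gamma, (l1 of h at time 0) + 2 (number of moves),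
accumulated X -/
abbrev ConcA (N : ℕ) := (ZV N × ZV N) × Vec N × ℝ × ℝ

/-- gamma of a state -/
def concG {N : ℕ} (lp lm : Vec N) (s : ZV N × ZV N) : Vec N :=
  fun w => fz lp lm s.2 w - fz lp lm s.1 w

/-- next augmented state -/
def concX {N : ℕ} (ε : ZV N) (lp lm : Vec N) (σ : ConcA N) (i : ConcI N) : ConcA N :=
  (concN ε σ.1 i, fun w => σ.2.1 w + concG lp lm σ.1 w, σ.2.2.1 + 2 * concM i,
    σ.2.2.2 + σ.2.2.1)

/-- operator of the augmented chain -/
def concP {N : ℕ} [NeZero N] (ε : ZV N) (lp lm : Vec N) (g : ConcA N → ℝ) (σ : ConcA N) : ℝ :=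
  ∑ i, concW lp lm σ.1 i / ztotal lp lm σ.1 * g (concX ε lp lm σ i)

theorem conc_proj {N : ℕ} [NeZero N] (ε : ZV N) (lp lm : Vec N) (g : ZV N × ZV N → ℝ) (n : ℕ) :
    ∀ σ : ConcA N, ((concP ε lp lm)^[n] (fun τ => g τ.1)) σ = ((SP ε lp lm)^[n] g) σ.1 := by
  induction n with
  | zero => intro σ; rfl
  | succ n ih =>
    intro σ
    rw [Function.iterate_succ_apply', Function.iterate_succ_apply', conc_SP]
    unfold concP
    refine Finset.sum_congr rfl fun i _ => ?_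
    have := ih (concX ε lp lm σ i)
    unfold concP at this
    rw [this]
    rfl

/-- the Lyapunov principle -/
theorem conc_lyap {N : ℕ} [NeZero N] (ε : ZV N) (lp lm : Vec N) (n : ℕ)
    (I : ℕ → ConcA N → Prop) (V : ℕ → ConcA N → ℝ) (F : ConcA N → ℝ)
    (hw : ∀ k < n, ∀ σ, I k σ → ∀ i, 0 ≤ concW lp lm σ.1 i / ztotal lp lm σ.1)
    (hI : ∀ k < n, ∀ σ, I k σ → ∀ i, concW lp lm σ.1 i ≠ 0 → I (k + 1) (concX ε lp lm σ i))
    (hV : ∀ k < n, ∀ σ, I k σ → concP ε lp lm (V (k + 1)) σ ≤ V k σ)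
    (hF : ∀ σ, I n σ → F σ ≤ V n σ) :
    ∀ j ≤ n, ∀ σ, I (n - j) σ → ((concP ε lp lm)^[j] F) σ ≤ V (n - j) σ := by
  intro j
  induction j with
  | zero => intro _ σ hσ; exact hF σ hσ
  | succ j ih =>
    intro hj σ hσ
    rw [Function.iterate_succ_apply']
    have hk : n - (j + 1) < n := by omega
    have hk1 : n - (j + 1) + 1 = n - j := by omega
    refine le_trans ?_ (hV (n - (j + 1)) hk σ hσ)
    unfold concP
    refine Finset.sum_le_sum fun i _ => ?_
    by_cases h0 : concW lp lm σ.1 i = 0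
    · rw [h0, zero_div, zero_mul, zero_mul]
    · refine mul_le_mul_of_nonneg_left ?_ (hw _ hk σ hσ i)
      have h1 := hI _ hk σ hσ i h0
      rw [hk1] at h1 ⊢
      have := ih (by omega) _ h1
      unfold concP at this
      exact this

/-! ### elementary facts on the weights -/

section
variable {N : ℕ} [NeZero N] {m L : ℝ} {lp lm : Vec N} (hm : 0 < m)
  (hl : ∀ v, m ≤ lp v ∧ lp v ≤ L ∧ m ≤ lm v ∧ lm v ≤ L)
include hm hl

theorem conc_W_nonneg (s : ZV N × ZV N) (i : ConcI N) : 0 ≤ concW lp lm s i := by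
  obtain ⟨v, t⟩ := i
  have hp : m ≤ lp v ∧ lp v ≤ L := ⟨(hl v).1, (hl v).2.1⟩
  have hq : m ≤ lm v ∧ lm v ≤ L := (hl v).2.2
  fin_cases t
  · exact conc_J_nonneg hm hp hq _ _
  · exact sub_nonneg.2 (conc_J_le_left hm hp hq _ _)
  · exact sub_nonneg.2 (conc_J_le_right hm hp hq _ _)

theorem conc_W_sum (s : ZV N × ZV N) : ∑ i, concW lp lm s i = ztotal lp lm s := by
  rw [conc_sum]
  unfold ztotal
  refine Finset.sum_congr rfl fun v _ => ?_
  simp only [concW, Matrix.cons_val_zero, Matrix.cons_val_one, Matrix.cons_val]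
  ring

theorem conc_total_ge (s : ZV N × ZV N) (v : ZMod N) :
    m * |(s.1 v : ℝ)| ≤ ztotal lp lm s := by
  unfold ztotal
  have h1 : ∀ v, 0 ≤ rz lp lm s.1 v + rz lp lm s.2 v - jz lp lm s.1 s.2 v := by
    intro v
    have hp : m ≤ lp v ∧ lp v ≤ L := ⟨(hl v).1, (hl v).2.1⟩
    have hq : m ≤ lm v ∧ lm v ≤ L := (hl v).2.2
    have h2 := conc_J_le_right hm hp hq (s.1 v) (s.2 v)
    have h3 := conc_R_nonneg hm hp hq (s.1 v)
    rw [conc_rz, conc_rz, conc_jz]
    linarith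
  refine le_trans ?_ (Finset.single_le_sum (fun v _ => h1 v) (Finset.mem_univ v))
  have hp : m ≤ lp v ∧ lp v ≤ L := ⟨(hl v).1, (hl v).2.1⟩
  have hq : m ≤ lm v ∧ lm v ≤ L := (hl v).2.2
  have h2 := conc_J_le_right hm hp hq (s.1 v) (s.2 v)
  have h3 := (conc_R_bd hm hp hq (s.1 v)).1
  rw [conc_rz, conc_rz, conc_jz]
  linarith

theorem conc_total_le (s : ZV N × ZV N) (A : ℝ) (h1 : ∀ v, |(s.1 v : ℝ)| ≤ A)
    (B : ℝ) (h2 : ∀ v, |(s.2 v : ℝ)| ≤ B) :
    ztotal lp lm s ≤ N * (L * (A + B)) := by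
  unfold ztotal
  have hL : 0 ≤ L := le_trans hm.le (le_trans (hl 0).1 (hl 0).2.1)
  calc ∑ v, (rz lp lm s.1 v + rz lp lm s.2 v - jz lp lm s.1 s.2 v)
      ≤ ∑ _v : ZMod N, L * (A + B) := by
        refine Finset.sum_le_sum fun v _ => ?_
        have hp : m ≤ lp v ∧ lp v ≤ L := ⟨(hl v).1, (hl v).2.1⟩
        have hq : m ≤ lm v ∧ lm v ≤ L := (hl v).2.2
        have h3 := (conc_R_bd hm hp hq (s.1 v)).2
        have h4 := (conc_R_bd hm hp hq (s.2 v)).2
        have h5 := conc_J_nonneg hm hp hq (s.1 v) (s.2 v)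
        rw [conc_rz, conc_rz, conc_jz]
        nlinarith [h1 v, h2 v]
    _ = N * (L * (A + B)) := by
        rw [Finset.sum_const, Finset.card_univ, ZMod.card, nsmul_eq_mul]

theorem conc_total_lip (s s' : ZV N × ZV N) (k : ℝ) (h1 : ∀ v, |(s'.1 v : ℝ) - s.1 v| ≤ k)
    (h2 : ∀ v, |(s'.2 v : ℝ) - s.2 v| ≤ k) :
    |ztotal lp lm s' - ztotal lp lm s| ≤ N * (2 * L * k) := by
  unfold ztotal
  rw [← Finset.sum_sub_distrib]
  refine le_trans (Finset.abs_sum_le_sum_abs _ _) ?_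
  calc ∑ v, |rz lp lm s'.1 v + rz lp lm s'.2 v - jz lp lm s'.1 s'.2 v -
        (rz lp lm s.1 v + rz lp lm s.2 v - jz lp lm s.1 s.2 v)|
      ≤ ∑ _v : ZMod N, 2 * L * k := by
        refine Finset.sum_le_sum fun v _ => ?_
        exact conc_T_lip hm ⟨(hl v).1, (hl v).2.1⟩ (hl v).2.2 _ _ _ _ k (h1 v) (h2 v)
    _ = N * (2 * L * k) := by
        rw [Finset.sum_const, Finset.card_univ, ZMod.card, nsmul_eq_mul]

/-- probability of a move -/
theorem conc_move_prob (s : ZV N × ZV N) :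
    ∑ i, concW lp lm s i * concM i ≤ L * l1 (castV (s.2 - s.1)) := by
  rw [conc_sum]
  unfold l1
  rw [Finset.mul_sum]
  refine Finset.sum_le_sum fun v _ => ?_
  have h := conc_move hm ⟨(hl v).1, (hl v).2.1⟩ (hl v).2.2 (s.1 v) (s.2 v)
  simp only [concW, concM, Matrix.cons_val_zero, Matrix.cons_val_one, Matrix.cons_val, if_true]
  have e1 : (if (1 : Fin 3) = 0 then (0 : ℝ) else 1) = 1 := by simp
  have e2 : (if (2 : Fin 3) = 0 then (0 : ℝ) else 1) = 1 := by simp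
  rw [e1, e2]
  have e3 : castV (s.2 - s.1) v = (s.2 v : ℝ) - s.1 v := by simp [castV]
  rw [e3, conc_rz, conc_rz, conc_jz]
  linarith

end

/-! ### moves of the coordinates -/

theorem conc_fire_sub {N : ℕ} (ε y : ZV N) (v w : ZMod N) :
    ((fireZ ε y v w : ℤ) : ℝ) - y w =
      (if w = v + 1 then (ε v : ℝ) * (Int.sign (y v) : ℤ) else 0) +
      (if w = v - 1 then (ε (v - 1) : ℝ) * (Int.sign (y v) : ℤ) else 0) := by
  unfold fireZ
  split_ifs <;> push_cast <;> ring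

theorem conc_sgn_abs {N : ℕ} {ε : ZV N} (hε : IsSgnZ ε) (v : ZMod N) : |(ε v : ℝ)| = 1 := by
  rcases hε v with h | h <;> simp [h]

theorem conc_sign_abs (a : ℤ) : |((Int.sign a : ℤ) : ℝ)| ≤ 1 := by
  rcases lt_trichotomy a 0 with h | h | h
  · rw [Int.sign_eq_neg_one_of_neg h]; simp
  · subst h; simp
  · rw [Int.sign_eq_one_of_pos h]; simp

theorem conc_fire_abs {N : ℕ} (hN : 3 ≤ N) {ε : ZV N} (hε : IsSgnZ ε) (y : ZV N) (v w : ZMod N) :
    |((fireZ ε y v w : ℤ) : ℝ) - y w| ≤ 1 := by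
  rw [conc_fire_sub]
  have h1 := conc_sign_abs (y v)
  by_cases ha : w = v + 1
  · rw [if_pos ha, if_neg (by rw [ha]; exact conc_succ_ne_pred hN v), add_zero, abs_mul,
      conc_sgn_abs hε, one_mul]
    exact h1
  · rw [if_neg ha, zero_add]
    by_cases hb : w = v - 1
    · rw [if_pos hb, abs_mul, conc_sgn_abs hε, one_mul]
      exact h1
    · rw [if_neg hb, abs_zero]
      exact zero_le_one

theorem conc_N_abs1 {N : ℕ} (hN : 3 ≤ N) {ε : ZV N} (hε : IsSgnZ ε) (s : ZV N × ZV N)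
    (i : ConcI N) (w : ZMod N) : |(((concN ε s i).1 w : ℤ) : ℝ) - s.1 w| ≤ 1 := by
  obtain ⟨v, t⟩ := i
  fin_cases t
  · exact conc_fire_abs hN hε s.1 v w
  · exact conc_fire_abs hN hε s.1 v w
  · simp [concN]

theorem conc_N_abs2 {N : ℕ} (hN : 3 ≤ N) {ε : ZV N} (hε : IsSgnZ ε) (s : ZV N × ZV N)
    (i : ConcI N) (w : ZMod N) : |(((concN ε s i).2 w : ℤ) : ℝ) - s.2 w| ≤ 1 := by
  obtain ⟨v, t⟩ := i
  fin_cases t
  · exact conc_fire_abs hN hε s.2 v w
  · simp [concN]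
  · exact conc_fire_abs hN hε s.2 v w

/-- total drift of one copy -/
theorem conc_drift {N : ℕ} [NeZero N] (ε : ZV N) (lp lm : Vec N) (y : ZV N) (w : ZMod N) :
    ∑ v, rz lp lm y v * (((fireZ ε y v w : ℤ) : ℝ) - y w) = nb (castV ε) (fz lp lm y) w := by
  have h1 : ∀ v, rz lp lm y v * (((fireZ ε y v w : ℤ) : ℝ) - y w) =
      (if v = w - 1 then (ε v : ℝ) * fz lp lm y v else 0) +
      (if v = w + 1 then (ε (v - 1) : ℝ) * fz lp lm y v else 0) := by
    intro v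
    rw [conc_fire_sub, conc_fz, ← conc_F_sign, conc_rz]
    have e1 : (w = v + 1) ↔ (v = w - 1) := ⟨fun h => by rw [h]; ring, fun h => by rw [h]; ring⟩
    have e2 : (w = v - 1) ↔ (v = w + 1) := ⟨fun h => by rw [h]; ring, fun h => by rw [h]; ring⟩
    simp only [e1, e2]
    split_ifs <;> ring
  rw [Finset.sum_congr rfl fun v _ => h1 v, Finset.sum_add_distrib, Finset.sum_ite_eq',
    Finset.sum_ite_eq', if_pos (Finset.mem_univ _), if_pos (Finset.mem_univ _)]
  unfold nb castV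
  rw [add_sub_cancel_right]

theorem conc_drift1 {N : ℕ} [NeZero N] (ε : ZV N) (lp lm : Vec N) (s : ZV N × ZV N)
    (w : ZMod N) :
    ∑ i, concW lp lm s i * ((((concN ε s i).1 w : ℤ) : ℝ) - s.1 w) =
      nb (castV ε) (fz lp lm s.1) w := by
  rw [conc_sum, ← conc_drift]
  refine Finset.sum_congr rfl fun v _ => ?_
  simp only [concW, concN, Matrix.cons_val_zero, Matrix.cons_val_one, Matrix.cons_val]
  ring

theorem conc_drift2 {N : ℕ} [NeZero N] (ε : ZV N) (lp lm : Vec N) (s : ZV N × ZV N)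
    (w : ZMod N) :
    ∑ i, concW lp lm s i * ((((concN ε s i).2 w : ℤ) : ℝ) - s.2 w) =
      nb (castV ε) (fz lp lm s.2) w := by
  rw [conc_sum, ← conc_drift]
  refine Finset.sum_congr rfl fun v _ => ?_
  simp only [concW, concN, Matrix.cons_val_zero, Matrix.cons_val_one, Matrix.cons_val]
  ring

/-- change of the difference in a transition -/
def concD {N : ℕ} (ε : ZV N) (s : ZV N × ZV N) (i : ConcI N) (w : ZMod N) : ℝ :=
  ((((concN ε s i).2 w : ℤ) : ℝ) - s.2 w) - ((((concN ε s i).1 w : ℤ) : ℝ) - s.1 w)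

theorem conc_driftD {N : ℕ} [NeZero N] (ε : ZV N) (lp lm : Vec N) (s : ZV N × ZV N)
    (w : ZMod N) :
    ∑ i, concW lp lm s i * concD ε s i w = nb (castV ε) (concG lp lm s) w := by
  have h1 : ∀ i, concW lp lm s i * concD ε s i w =
      concW lp lm s i * ((((concN ε s i).2 w : ℤ) : ℝ) - s.2 w) -
      concW lp lm s i * ((((concN ε s i).1 w : ℤ) : ℝ) - s.1 w) := by
    intro i; unfold concD; ring
  rw [Finset.sum_congr rfl fun i _ => h1 i, Finset.sum_sub_distrib, conc_drift1, conc_drift2]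
  unfold nb concG
  ring

/-- the difference moves by sign(h_v) ring_v or not at all -/
theorem conc_D_cases {N : ℕ} {m L : ℝ} {lp lm : Vec N} (hm : 0 < m)
    (hl : ∀ v, m ≤ lp v ∧ lp v ≤ L ∧ m ≤ lm v ∧ lm v ≤ L) (ε : ZV N) (s : ZV N × ZV N)
    (i : ConcI N) (h : concW lp lm s i ≠ 0) :
    (concM i = 0 ∧ ∀ w, concD ε s i w = 0) ∨
    (concM i = 1 ∧ (s.2 - s.1) i.1 ≠ 0 ∧ ∀ w, concD ε s i w =
      (Int.sign ((s.2 - s.1) i.1) : ℤ) * ring (castV ε) i.1 w) := by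
  obtain ⟨v, t⟩ := i
  have hp : 0 < lp v := lt_of_lt_of_le hm (hl v).1
  have hq : 0 < lm v := lt_of_lt_of_le hm (hl v).2.2.1
  have hr : ∀ (y : ZV N) (w : ZMod N), ((fireZ ε y v w : ℤ) : ℝ) - y w =
      (Int.sign (y v) : ℤ) * ring (castV ε) v w := by
    intro y w
    rw [conc_fire_sub]
    unfold ring castV
    split_ifs <;> ring
  fin_cases t
  · left
    refine ⟨by simp [concM], fun w => ?_⟩
    have h1 : concJ (lp v) (lm v) (s.1 v) (s.2 v) ≠ 0 := h
    have h2 := conc_J_sign h1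
    change (((fireZ ε s.2 v w : ℤ) : ℝ) - s.2 w) - (((fireZ ε s.1 v w : ℤ) : ℝ) - s.1 w) = 0
    rw [hr, hr, h2]
    ring
  · right
    have h1 : concR (lp v) (lm v) (s.1 v) - concJ (lp v) (lm v) (s.1 v) (s.2 v) ≠ 0 := h
    obtain ⟨h2, h3⟩ := conc_single1 hp hq h1
    refine ⟨by simp [concM], h3, fun w => ?_⟩
    change ((s.2 w : ℝ) - s.2 w) - (((fireZ ε s.1 v w : ℤ) : ℝ) - s.1 w) = _
    rw [hr]
    have h4 : (s.2 - s.1) v = s.2 v - s.1 v := rfl
    change _ = (Int.sign ((s.2 - s.1) v) : ℤ) * ring (castV ε) v w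
    rw [h4, ← h2]
    push_cast
    ring
  · right
    have h1 : concR (lp v) (lm v) (s.2 v) - concJ (lp v) (lm v) (s.1 v) (s.2 v) ≠ 0 := h
    obtain ⟨h2, h3⟩ := conc_single2 hp hq h1
    refine ⟨by simp [concM], h3, fun w => ?_⟩
    change (((fireZ ε s.2 v w : ℤ) : ℝ) - s.2 w) - ((s.1 w : ℝ) - s.1 w) = _
    rw [hr]
    have h4 : (s.2 - s.1) v = s.2 v - s.1 v := rfl
    change _ = (Int.sign ((s.2 - s.1) v) : ℤ) * ring (castV ε) v w
    rw [h4, ← h2]
    ring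

theorem conc_D_abs {N : ℕ} (hN : 3 ≤ N) {m L : ℝ} {lp lm : Vec N} (hm : 0 < m)
    (hl : ∀ v, m ≤ lp v ∧ lp v ≤ L ∧ m ≤ lm v ∧ lm v ≤ L) {ε : ZV N} (hε : IsSgnZ ε)
    (s : ZV N × ZV N) (i : ConcI N) (h : concW lp lm s i ≠ 0) (w : ZMod N) :
    |concD ε s i w| ≤ concM i := by
  rcases conc_D_cases hm hl ε s i h with ⟨h1, h2⟩ | ⟨h1, _, h2⟩
  · rw [h1, h2, abs_zero]
  · rw [h1, h2, abs_mul]
    have h3 := conc_sign_abs ((s.2 - s.1) i.1)
    have h4 : |ring (castV ε) i.1 w| ≤ 1 := by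
      unfold ring castV
      by_cases ha : w = i.1 + 1
      · rw [if_pos ha, if_neg (by rw [ha]; exact conc_succ_ne_pred hN _), add_zero,
          conc_sgn_abs hε]
      · rw [if_neg ha, zero_add]
        by_cases hb : w = i.1 - 1
        · rw [if_pos hb, conc_sgn_abs hε]
        · rw [if_neg hb, abs_zero]
          exact zero_le_one
    calc _ ≤ (1 : ℝ) * 1 := mul_le_mul h3 h4 (abs_nonneg _) zero_le_one
      _ = 1 := one_mul _

theorem conc_D_eq {N : ℕ} (ε : ZV N) (s : ZV N × ZV N) (i : ConcI N) (w : ZMod N) :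
    castV ((concN ε s i).2 - (concN ε s i).1) w = castV (s.2 - s.1) w + concD ε s i w := by
  unfold concD castV
  simp only [Pi.sub_apply]
  push_cast
  ring

end Pool.Agent.Lib_helper10.CU
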