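import Pool.Agent.Lib_helper10.CU.Defs

-- block INCB written by helper3
set_option autoImplicit false
open scoped BigOperators Topology
open Filter
noncomputable section

namespace Pool.Agent.Lib_helper10.CU

/-! ## INCB : the cone -/

theorem incb_sq {x : ℝ} (h : x = 1 ∨ x = -1) : x * x = 1 := by
  rcases h with h | h <;> rw [h] <;> norm_num

theorem inC_smul_pr {N : ℕ} (ε z : Vec N) (a : ℝ) (h : InC ε z) : InC ε (a • z) := by
  obtain ⟨s, h1, h2, h3⟩ := h
  rcases le_total 0 a with ha | ha
  · refine ⟨s, h1, fun v => ?_, h3⟩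
    have := mul_nonneg ha (h2 v)
    simp only [Pi.smul_apply, smul_eq_mul]
    linarith [this, mul_comm a (s v * z v), mul_left_comm (s v) a (z v)]
  · refine ⟨-s, fun v => ?_, fun v => ?_, fun v w hv hw => ?_⟩
    · rcases h1 v with h | h
      · right; simp [h]
      · left; simp [h]
    · have := mul_nonneg (neg_nonneg.2 ha) (h2 v)
      simp only [Pi.smul_apply, smul_eq_mul, Pi.neg_apply]
      nlinarith [this]
    · apply h3 v w
      · intro h; apply hv; simp only [Pi.neg_apply, h, mul_neg]
      · intro h; apply hw; simp only [Pi.neg_apply, h, mul_neg]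

theorem inC_closed_pr {N : ℕ} [NeZero N] (ε : Vec N) : IsClosed {z : Vec N | InC ε z} := by
  have hfin : {s : Vec N | IsSgn s}.Finite := by
    have : {s : Vec N | IsSgn s} = Set.pi Set.univ (fun _ : ZMod N => ({1, -1} : Set ℝ)) := by
      ext s
      simp [IsSgn, Set.mem_pi]
    rw [this]
    exact Set.Finite.pi fun _ => Set.toFinite _
  have heq : {z : Vec N | InC ε z} = ⋃ s ∈ {s : Vec N | IsSgn s ∧
      ∀ v w, s (v + 1) ≠ ε v * s v → s (w + 1) ≠ ε w * s w → v = w},
      {z : Vec N | ∀ v, 0 ≤ s v * z v} := by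
    ext z
    simp only [InC, Set.mem_ofPred_eq, Set.mem_iUnion, exists_prop]
    constructor
    · rintro ⟨s, h1, h2, h3⟩
      exact ⟨s, ⟨h1, h3⟩, h2⟩
    · rintro ⟨s, ⟨h1, h3⟩, h2⟩
      exact ⟨s, h1, h2, h3⟩
  rw [heq]
  refine Set.Finite.isClosed_biUnion (hfin.subset fun s hs => hs.1) fun s _ => ?_
  have : {z : Vec N | ∀ v, 0 ≤ s v * z v} = ⋂ v, {z : Vec N | 0 ≤ s v * z v} := by
    ext z; simp
  rw [this]
  refine isClosed_iInter fun v => isClosed_le continuous_const ?_
  fun_prop

theorem incb_ne {N : ℕ} (hN : 3 ≤ N) : (1 : ZMod N) ≠ 0 ∧ (1 : ZMod N) + 1 ≠ 0 := by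
  constructor
  · intro h
    have : ((1 : ℕ) : ZMod N) = 0 := by exact_mod_cast h
    rw [ZMod.natCast_eq_zero_iff] at this
    have := Nat.le_of_dvd one_pos this
    omega
  · intro h
    have : ((2 : ℕ) : ZMod N) = 0 := by push_cast; rw [← h]; norm_num
    rw [ZMod.natCast_eq_zero_iff] at this
    have := Nat.le_of_dvd two_pos this
    omega

theorem incb_flip {N : ℕ} (ε s z' : Vec N) (hs : IsSgn s) (u e : ZMod N)
    (hsz : ∀ w, w ≠ u → 0 ≤ s w * z' w) (hu : s u * z' u < 0)
    (huniq : ∀ a, s (a + 1) ≠ ε a * s a → a = e) (e' : ZMod N)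
    (hnew : ∀ a, Function.update s u (-s u) (a + 1) ≠ ε a * Function.update s u (-s u) a → a = e') :
    InC ε z' := by
  refine ⟨Function.update s u (-s u), fun w => ?_, fun w => ?_, fun a b ha hb => ?_⟩
  · by_cases h : w = u
    · subst h
      rw [Function.update_self]
      rcases hs w with h | h
      · right; rw [h]
      · left; rw [h]; norm_num
    · rw [Function.update_of_ne h]; exact hs w
  · by_cases h : w = u
    · subst h
      rw [Function.update_self]; linarith
    · rw [Function.update_of_ne h]; exact hsz w h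
  · rw [hnew a ha, hnew b hb]

theorem inC_fire_pr {N : ℕ} [NeZero N] (hN : 3 ≤ N) (ε : Vec N) (hε : IsSgn ε) (z : Vec N)
    (h : InC ε z) (v : ZMod N) (g : ℝ) (hg : 0 ≤ g) : InC ε (z + (g * z v) • ring ε v) := by
  classical
  obtain ⟨hn1, hn2⟩ := incb_ne hN
  have hv1 : v + 1 ≠ v := fun h => hn1 (by simpa using h)
  have hv2 : v - 1 ≠ v := fun h => hn1 (by simpa using h)
  have hv3 : v + 1 ≠ v - 1 := fun h => hn2 (by linear_combination h)
  obtain ⟨s, h1, h2, h3⟩ := h
  have hp : (z + (g * z v) • ring ε v) (v + 1) = z (v + 1) + g * z v * ε v := by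
    simp [ring, hv3]
  have hm : (z + (g * z v) • ring ε v) (v - 1) = z (v - 1) + g * z v * ε (v - 1) := by
    simp [ring, hv3.symm]
  have ho : ∀ w, w ≠ v + 1 → w ≠ v - 1 → (z + (g * z v) • ring ε v) w = z w := by
    intro w hw1 hw2
    simp [ring, hw1, hw2]
  have hA : s (v + 1) * (z + (g * z v) • ring ε v) (v + 1) < 0 → s (v + 1) ≠ ε v * s v := by
    intro hlt heq
    rw [hp] at hlt
    have e1 := h2 (v + 1)
    have e2 := mul_nonneg hg (h2 v)
    have e3 : s (v + 1) * (z (v + 1) + g * z v * ε v) =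
        s (v + 1) * z (v + 1) + (ε v * ε v) * (g * (s v * z v)) := by
      rw [heq]; ring
    rw [e3, incb_sq (hε v)] at hlt
    linarith
  have hB : s (v - 1) * (z + (g * z v) • ring ε v) (v - 1) < 0 → s v ≠ ε (v - 1) * s (v - 1) := by
    intro hlt heq
    rw [hm] at hlt
    have e1 := h2 (v - 1)
    have e2 := mul_nonneg hg (h2 v)
    have e3 : s (v - 1) * (z (v - 1) + g * z v * ε (v - 1)) =
        s (v - 1) * z (v - 1) + g * ((ε (v - 1) * s (v - 1)) * z v) := by ring
    rw [e3, ← heq] at hlt
    linarith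
  by_cases cA : s (v + 1) * (z + (g * z v) • ring ε v) (v + 1) < 0
  · have hcv := hA cA
    have huniq : ∀ a, s (a + 1) ≠ ε a * s a → a = v := fun a ha => h3 a v ha hcv
    refine incb_flip ε s _ h1 (v + 1) v ?_ cA huniq (v + 1) ?_
    · intro w hw
      by_cases hw2 : w = v - 1
      · subst hw2
        by_contra hlt
        have := hB (not_le.1 hlt)
        have h' : s ((v - 1) + 1) ≠ ε (v - 1) * s (v - 1) := by rwa [sub_add_cancel]
        exact hv2 (huniq _ h')
      · rw [ho w hw hw2]; exact h2 w
    · intro a ha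
      by_contra hne
      rw [Function.update_of_ne hne] at ha
      by_cases hav : a = v
      · subst hav
        rw [Function.update_self] at ha
        apply ha
        revert hcv
        rcases h1 (a + 1) with h | h <;> rcases h1 a with h' | h' <;> rcases hε a with h'' | h'' <;>
          rw [h, h', h''] <;> norm_num
      · have : a + 1 ≠ v + 1 := fun h => hav (by simpa using h)
        rw [Function.update_of_ne this] at ha
        exact hav (huniq a ha)
  · by_cases cB : s (v - 1) * (z + (g * z v) • ring ε v) (v - 1) < 0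
    · have hcv := hB cB
      have hcv' : s ((v - 1) + 1) ≠ ε (v - 1) * s (v - 1) := by rwa [sub_add_cancel]
      have huniq : ∀ a, s (a + 1) ≠ ε a * s a → a = v - 1 := fun a ha => h3 a (v - 1) ha hcv'
      refine incb_flip ε s _ h1 (v - 1) (v - 1) ?_ cB huniq (v - 1 - 1) ?_
      · intro w hw
        by_cases hw2 : w = v + 1
        · subst hw2; exact not_lt.1 cA
        · rw [ho w hw2 hw]; exact h2 w
      · intro a ha
        by_contra hne
        have hne' : a + 1 ≠ v - 1 := fun h => hne (by rw [← h]; simp)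
        rw [Function.update_of_ne hne'] at ha
        by_cases hav : a = v - 1
        · subst hav
          rw [Function.update_self] at ha
          apply ha
          revert hcv'
          rcases h1 (v - 1 + 1) with h | h <;> rcases h1 (v - 1) with h' | h' <;>
            rcases hε (v - 1) with h'' | h'' <;>
            rw [h, h', h''] <;> norm_num
        · rw [Function.update_of_ne hav] at ha
          exact hav (huniq a ha)
    · refine ⟨s, h1, fun w => ?_, h3⟩
      by_cases hw1 : w = v + 1
      · subst hw1; exact not_lt.1 cA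
      · by_cases hw2 : w = v - 1
        · subst hw2; exact not_lt.1 cB
        · rw [ho w hw1 hw2]; exact h2 w

theorem inC_change_unique_pr {N : ℕ} (ε : Vec N) (hε : IsSgn ε) (z : Vec N) (h : InC ε z)
    (v w : ZMod N) (hv : ε v * z v * z (v + 1) < 0) (hw : ε w * z w * z (w + 1) < 0) :
    v = w := by
  obtain ⟨s, h1, h2, h3⟩ := h
  have key : ∀ u : ZMod N, ε u * z u * z (u + 1) < 0 → s (u + 1) ≠ ε u * s u := by
    intro u hu heq
    have e1 := h2 u
    have e2 := h2 (u + 1)
    have e3 := mul_nonneg e1 e2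
    have e4 : s u * z u * (s (u + 1) * z (u + 1)) = (s u * s u) * (ε u * z u * z (u + 1)) := by
      rw [heq]; ring
    rw [e4, incb_sq (h1 u)] at e3
    linarith
  exact h3 v w (key v hv) (key w hw)

/-- existence of a sign vector with at most one change -/
theorem incb_exists {N : ℕ} [NeZero N] (ε : Vec N) (hε : IsSgn ε) :
    ∃ s : Vec N, IsSgn s ∧ ∀ a, s (a + 1) ≠ ε a * s a → a = -1 := by
  refine ⟨fun w => ∏ j ∈ Finset.range w.val, ε ((j : ℕ) : ZMod N), fun w => ?_, fun a ha => ?_⟩
  · dsimp only
    induction w.val with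
    | zero => left; simp
    | succ n ih =>
      rw [Finset.prod_range_succ]
      rcases ih with h | h <;> rcases hε ((n : ℕ) : ZMod N) with h' | h' <;> rw [h, h'] <;> norm_num
  · by_contra hne
    apply ha
    dsimp only
    have hlt : a.val + 1 < N := by
      have h1 := ZMod.val_lt a
      rcases Nat.lt_or_ge (a.val + 1) N with h | h
      · exact h
      · exfalso
        apply hne
        have h2 : a.val + 1 = N := by omega
        have h3 : ((a.val + 1 : ℕ) : ZMod N) = 0 := by rw [h2]; simp
        push_cast at h3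
        rw [ZMod.natCast_zmod_val] at h3
        exact eq_neg_of_add_eq_zero_left h3
    have hval : (a + 1).val = a.val + 1 := by
      have h1lt : 1 < N := by omega
      have : Fact (1 < N) := ⟨h1lt⟩
      rw [ZMod.val_add_of_lt]
      · rw [ZMod.val_one]
      · rw [ZMod.val_one]; exact hlt
    rw [hval, Finset.prod_range_succ, ZMod.natCast_zmod_val, mul_comm]

theorem inC_ring_pr {N : ℕ} [NeZero N] (hN : 3 ≤ N) (ε : Vec N) (hε : IsSgn ε) (v : ZMod N) :
    InC ε (ring ε v) := by
  classical
  obtain ⟨s, hs1, hs2⟩ := incb_exists ε hε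
  have hd : InC ε (Pi.single v (1 : ℝ) : Vec N) := by
    have h1 : InC ε (Pi.single v (s v) : Vec N) := by
      refine ⟨s, hs1, fun w => ?_, fun a b ha hb => by rw [hs2 a ha, hs2 b hb]⟩
      by_cases h : w = v
      · subst h; rw [Pi.single_eq_same]; exact mul_self_nonneg _
      · rw [Pi.single_eq_of_ne h, mul_zero]
    have h2 := inC_smul_pr ε _ (s v) h1
    have h3 : (s v) • (Pi.single v (s v) : Vec N) = (Pi.single v (1 : ℝ) : Vec N) := by
      rw [← Pi.single_smul, smul_eq_mul, incb_sq (hs1 v)]
    rwa [h3] at h2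
  have hseq : ∀ n : ℕ, InC ε ((1 / ((n : ℝ) + 1)) • (Pi.single v (1 : ℝ) : Vec N) + ring ε v) := by
    intro n
    have hpos : (0 : ℝ) < (n : ℝ) + 1 := by positivity
    have h1 := inC_fire_pr hN ε hε _ hd v ((n : ℝ) + 1) hpos.le
    have h2 := inC_smul_pr ε _ (1 / ((n : ℝ) + 1)) h1
    have h3 : (1 / ((n : ℝ) + 1)) • ((Pi.single v (1 : ℝ) : Vec N) +
        (((n : ℝ) + 1) * (Pi.single v (1 : ℝ) : Vec N) v) • ring ε v) =
        (1 / ((n : ℝ) + 1)) • (Pi.single v (1 : ℝ) : Vec N) + ring ε v := by
      rw [Pi.single_eq_same, smul_add, smul_smul, mul_one, one_div, inv_mul_cancel₀ hpos.ne',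
        one_smul]
    rwa [h3] at h2
  have hlim : Tendsto (fun n : ℕ => (1 / ((n : ℝ) + 1)) • (Pi.single v (1 : ℝ) : Vec N) + ring ε v)
      atTop (𝓝 ((0 : ℝ) • (Pi.single v (1 : ℝ) : Vec N) + ring ε v)) :=
    (tendsto_one_div_add_atTop_nhds_zero_nat.smul_const _).add_const _
  rw [zero_smul, zero_add] at hlim
  exact (inC_closed_pr ε).mem_of_tendsto hlim (Filter.Eventually.of_forall hseq)

alias inC_smul := inC_smul_pr
alias inC_closed := inC_closed_pr
alias inC_fire := inC_fire_pr
alias inC_ring := inC_ring_pr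
alias inC_change_unique := inC_change_unique_pr

end Pool.Agent.Lib_helper10.CU
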