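import Pool.Agent.Lib_helper10.CU.CONC2
import Pool.Agent.Lib_helper10.CU.INCB
import Pool.Agent.Lib_helper10.CU.Defs2

-- block CONC3 written by helper22
/-! Block CONC, part 3: deterministic invariants. -/

set_option autoImplicit false
open scoped BigOperators
noncomputable section

namespace Pool.Agent.Lib_helper10.CU

set_option linter.unusedSectionVars false
set_option linter.unusedVariables false
set_option linter.unusedSimpArgs false

theorem conc_ring_l1 {N : ℕ} [NeZero N] {ε : ZV N} (hε : IsSgnZ ε) (v : ZMod N) :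
    l1 (ring (castV ε) v) ≤ 2 := by
  unfold l1
  calc ∑ w, |ring (castV ε) v w| ≤ ∑ w, ((if w = v + 1 then (1 : ℝ) else 0) +
        (if w = v - 1 then (1 : ℝ) else 0)) := by
        refine Finset.sum_le_sum fun w _ => ?_
        unfold ring castV
        refine le_trans (abs_add_le _ _) (add_le_add ?_ ?_)
        · split_ifs
          · rw [conc_sgn_abs hε]
          · rw [abs_zero]
        · split_ifs
          · rw [conc_sgn_abs hε]
          · rw [abs_zero]
    _ = 2 := by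
        rw [Finset.sum_add_distrib, Finset.sum_ite_eq', Finset.sum_ite_eq',
          if_pos (Finset.mem_univ _), if_pos (Finset.mem_univ _)]
        norm_num

theorem conc_l1_mono {N : ℕ} [NeZero N] (hN : 3 ≤ N) {ε : ZV N} (hε : IsSgnZ ε) (z : Vec N)
    (h : InC (castV ε) z) (v : ZMod N) (σ : ℝ) (hσ : σ = 1 ∨ σ = -1) (hz : 0 < σ * z v) :
    l1 z ≤ l1 (fun w => z w + σ * ring (castV ε) v w) := by
  obtain ⟨s, hs, h1, h2⟩ := h
  have hsa : ∀ w, |s w| = 1 := by
    intro w
    rcases hs w with h | h <;> rw [h] <;> simp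
  have h3 : l1 z = ∑ w, s w * z w := by
    unfold l1
    refine Finset.sum_congr rfl fun w _ => ?_
    rw [← abs_of_nonneg (h1 w), abs_mul, hsa, one_mul]
  have h4 : ∑ w, s w * (z w + σ * ring (castV ε) v w) ≤
      l1 (fun w => z w + σ * ring (castV ε) v w) := by
    unfold l1
    refine Finset.sum_le_sum fun w _ => ?_
    refine le_trans (le_abs_self _) ?_
    rw [abs_mul, hsa, one_mul]
  have h5 : ∑ w, s w * (z w + σ * ring (castV ε) v w) =
      ∑ w, s w * z w + σ * (s (v + 1) * castV ε v + s (v - 1) * castV ε (v - 1)) := by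
    have : ∀ w, s w * (z w + σ * ring (castV ε) v w) = s w * z w +
        ((if w = v + 1 then σ * (s w * castV ε v) else 0) +
        (if w = v - 1 then σ * (s w * castV ε (v - 1)) else 0)) := by
      intro w
      unfold ring
      split_ifs <;> ring
    rw [Finset.sum_congr rfl fun w _ => this w, Finset.sum_add_distrib, Finset.sum_add_distrib,
      Finset.sum_ite_eq', Finset.sum_ite_eq', if_pos (Finset.mem_univ _),
      if_pos (Finset.mem_univ _)]
    ring
  have hsv : s v = σ := by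
    have h6 := h1 v
    rcases hs v with h | h <;> rcases hσ with h' | h' <;> rw [h, h'] <;> rw [h] at h6 <;>
      rw [h'] at hz <;> linarith
  have he : ∀ w, castV ε w = 1 ∨ castV ε w = -1 := by
    intro w
    unfold castV
    rcases hε w with h | h <;> rw [h] <;> simp
  have h6 : 0 ≤ σ * (s (v + 1) * castV ε v + s (v - 1) * castV ε (v - 1)) := by
    by_contra hc
    have hc1 : s (v + 1) ≠ castV ε v * s v := by
      intro heq
      apply hc
      rw [heq, hsv]
      rcases he v with h | h <;> rcases he (v - 1) with h' | h' <;> rcases hs (v - 1) with h'' | h'' <;>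
        rcases hσ with h3 | h3 <;> rw [h, h', h'', h3] <;> norm_num
    have hc2 : s ((v - 1) + 1) ≠ castV ε (v - 1) * s (v - 1) := by
      intro heq
      apply hc
      rw [sub_add_cancel, hsv] at heq
      rcases he v with h | h <;> rcases he (v - 1) with h' | h' <;> rcases hs (v - 1) with h'' | h'' <;>
        rcases hs (v + 1) with h4 | h4 <;> rw [h', h''] at heq <;> rw [h, h', h'', h4, heq] <;>
        norm_num
    have h7 := h2 v (v - 1) hc1 hc2
    have h9 : v + 1 = v - 1 := by linear_combination 2 * h7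
    exact conc_succ_ne_pred hN v h9
  rw [h3]
  linarith

/-- the invariants of the augmented chain at time `k` -/
structure ConcInv {N : ℕ} [NeZero N] (m L : ℝ) (ε : ZV N) (lp lm : Vec N) (y0 y1 : ZV N)
    (k : ℕ) (σ : ConcA N) : Prop where
  a1 : ∀ w, |(σ.1.1 w : ℝ) - y0 w| ≤ k
  a2 : ∀ w, |(σ.1.2 w : ℝ) - y1 w| ≤ k
  inC : InC (castV ε) (castV (σ.1.2 - σ.1.1))
  l1_ge : l1 (castV (y1 - y0)) ≤ l1 (castV (σ.1.2 - σ.1.1))
  l1_le : l1 (castV (σ.1.2 - σ.1.1)) ≤ σ.2.2.1
  hd : ∀ w, |castV (σ.1.2 - σ.1.1) w - castV (y1 - y0) w| ≤ σ.2.2.1 - l1 (castV (y1 - y0))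
  X_le : σ.2.2.1 ≤ l1 (castV (y1 - y0)) + 2 * k
  S_nonneg : 0 ≤ σ.2.2.2
  S_le : σ.2.2.2 ≤ k * σ.2.2.1
  G1 : ∀ t : ℝ, 0 ≤ t → ∀ w, ∃ g, k * m ≤ g ∧ g ≤ k * L ∧
    |k * fz lp lm y0 w - t * σ.2.1 w - g * ((y0 w : ℝ) - t * castV (y1 - y0) w)| ≤
      2 * k * L * (k + t * (σ.2.2.1 - l1 (castV (y1 - y0))))
  G2 : ∀ w, ∃ g, k * m ≤ g ∧ g ≤ k * L ∧
    |σ.2.1 w - g * castV (y1 - y0) w| ≤ k * L * (σ.2.2.1 - l1 (castV (y1 - y0)))

theorem conc_inv_zero {N : ℕ} [NeZero N] (m L : ℝ) (ε : ZV N) (lp lm : Vec N) (y0 y1 : ZV N)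
    (hC : InC (castV ε) (castV (y1 - y0))) :
    ConcInv m L ε lp lm y0 y1 0 ((y0, y1), (fun _ => 0), l1 (castV (y1 - y0)), 0) where
  a1 := fun w => by simp
  a2 := fun w => by simp
  inC := hC
  l1_ge := le_rfl
  l1_le := le_rfl
  hd := fun w => by simp
  X_le := by simp
  S_nonneg := le_rfl
  S_le := by simp
  G1 := fun t ht w => ⟨0, by simp, by simp, by simp⟩
  G2 := fun w => ⟨0, by simp, by simp, by simp⟩

theorem conc_X_ge {N : ℕ} [NeZero N] {m L : ℝ} {ε : ZV N} {lp lm : Vec N} {y0 y1 : ZV N}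
    {k : ℕ} {σ : ConcA N} (h : ConcInv m L ε lp lm y0 y1 k σ) :
    0 ≤ σ.2.2.1 - l1 (castV (y1 - y0)) := le_trans (abs_nonneg _) (h.hd 0)

theorem conc_inv_step {N : ℕ} [NeZero N] (hN : 3 ≤ N) {m L : ℝ} {lp lm : Vec N} (hm : 0 < m)
    (hl : ∀ v, m ≤ lp v ∧ lp v ≤ L ∧ m ≤ lm v ∧ lm v ≤ L) {ε : ZV N} (hε : IsSgnZ ε)
    (y0 y1 : ZV N) (k : ℕ) (σ : ConcA N) (h : ConcInv m L ε lp lm y0 y1 k σ) (i : ConcI N)
    (hi : concW lp lm σ.1 i ≠ 0) :
    ConcInv m L ε lp lm y0 y1 (k + 1) (concX ε lp lm σ i) := by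
  have hL : 0 < L := lt_of_lt_of_le hm (le_trans (hl 0).1 (hl 0).2.1)
  have hX := conc_X_ge h
  have hM : 0 ≤ concM i := by unfold concM; split_ifs <;> norm_num
  have hM1 : concM i ≤ 1 := by unfold concM; split_ifs <;> norm_num
  have hD := conc_D_abs hN hm hl hε σ.1 i hi
  have hk : (0 : ℝ) ≤ k := Nat.cast_nonneg k
  have eX : (concX ε lp lm σ i).2.2.1 = σ.2.2.1 + 2 * concM i := rfl
  have eS : (concX ε lp lm σ i).2.2.2 = σ.2.2.2 + σ.2.2.1 := rfl
  have eG : ∀ w, (concX ε lp lm σ i).2.1 w = σ.2.1 w + concG lp lm σ.1 w := fun w => rfl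
  have e1 : (concX ε lp lm σ i).1 = concN ε σ.1 i := rfl
  have hX0 : 0 ≤ l1 (castV (y1 - y0)) := by
    unfold l1; exact Finset.sum_nonneg fun _ _ => abs_nonneg _
  have hgam : ∀ w, ∃ g, m ≤ g ∧ g ≤ L ∧ concG lp lm σ.1 w = g * castV (σ.1.2 - σ.1.1) w := by
    intro w
    obtain ⟨g, h1, h2, h3, _⟩ := conc_F1 hm ⟨(hl w).1, (hl w).2.1⟩ (hl w).2.2 (σ.1.1 w) (σ.1.2 w)
    refine ⟨g, h1, h2, ?_⟩
    unfold concG castV
    rw [conc_fz, conc_fz, h3]
    simp
  refine ⟨?_, ?_, ?_, ?_, ?_, ?_, ?_, ?_, ?_, ?_, ?_⟩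
  · intro w
    rw [e1]
    have h1 := conc_N_abs1 hN hε σ.1 i w
    have h2 := h.a1 w
    push_cast
    rw [abs_le] at h1 h2 ⊢
    constructor <;> linarith [h1.1, h1.2, h2.1, h2.2]
  · intro w
    rw [e1]
    have h1 := conc_N_abs2 hN hε σ.1 i w
    have h2 := h.a2 w
    push_cast
    rw [abs_le] at h1 h2 ⊢
    constructor <;> linarith [h1.1, h1.2, h2.1, h2.2]
  · rw [e1]
    rcases conc_D_cases hm hl ε σ.1 i hi with ⟨h1, h2⟩ | ⟨h1, h3, h2⟩
    · have : castV ((concN ε σ.1 i).2 - (concN ε σ.1 i).1) = castV (σ.1.2 - σ.1.1) := by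
        funext w
        rw [conc_D_eq, h2, add_zero]
      rw [this]
      exact h.inC
    · have h4 : castV ((concN ε σ.1 i).2 - (concN ε σ.1 i).1) = castV (σ.1.2 - σ.1.1) +
          ((|castV (σ.1.2 - σ.1.1) i.1|)⁻¹ * castV (σ.1.2 - σ.1.1) i.1) •
            ring (castV ε) i.1 := by
        funext w
        rw [conc_D_eq, h2, Pi.add_apply, Pi.smul_apply, smul_eq_mul]
        congr 2
        unfold castV
        rcases lt_trichotomy ((σ.1.2 - σ.1.1) i.1) 0 with h5 | h5 | h5
        · rw [Int.sign_eq_neg_one_of_neg h5]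
          have h6 : (((σ.1.2 - σ.1.1) i.1 : ℤ) : ℝ) < 0 := by exact_mod_cast h5
          rw [abs_of_neg h6]
          push_cast
          have h7 : (((σ.1.2 - σ.1.1) i.1 : ℤ) : ℝ) ≠ 0 := h6.ne
          rw [inv_neg, neg_mul, inv_mul_cancel₀ h7]
        · exact absurd h5 h3
        · rw [Int.sign_eq_one_of_pos h5]
          have h6 : 0 < (((σ.1.2 - σ.1.1) i.1 : ℤ) : ℝ) := by exact_mod_cast h5
          rw [abs_of_pos h6, inv_mul_cancel₀ h6.ne']
          push_cast
          rfl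
      rw [h4]
      refine inC_fire hN (castV ε) ?_ _ h.inC i.1 _ (inv_nonneg.2 (abs_nonneg _))
      intro w
      unfold castV
      rcases hε w with h | h <;> rw [h] <;> simp
  · rw [e1]
    refine le_trans h.l1_ge ?_
    rcases conc_D_cases hm hl ε σ.1 i hi with ⟨h1, h2⟩ | ⟨h1, h3, h2⟩
    · have : castV ((concN ε σ.1 i).2 - (concN ε σ.1 i).1) = castV (σ.1.2 - σ.1.1) := by
        funext w
        rw [conc_D_eq, h2, add_zero]
      rw [this]
    · have h4 : castV ((concN ε σ.1 i).2 - (concN ε σ.1 i).1) = fun w =>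
          castV (σ.1.2 - σ.1.1) w + (Int.sign ((σ.1.2 - σ.1.1) i.1) : ℤ) *
            ring (castV ε) i.1 w := by
        funext w
        rw [conc_D_eq, h2]
      rw [h4]
      refine conc_l1_mono hN hε _ h.inC i.1 _ ?_ ?_
      · rcases lt_trichotomy ((σ.1.2 - σ.1.1) i.1) 0 with h5 | h5 | h5
        · right; rw [Int.sign_eq_neg_one_of_neg h5]; simp
        · exact absurd h5 h3
        · left; rw [Int.sign_eq_one_of_pos h5]; simp
      · unfold castV
        rcases lt_trichotomy ((σ.1.2 - σ.1.1) i.1) 0 with h5 | h5 | h5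
        · rw [Int.sign_eq_neg_one_of_neg h5]
          have h6 : (((σ.1.2 - σ.1.1) i.1 : ℤ) : ℝ) < 0 := by exact_mod_cast h5
          push_cast at h6 ⊢
          linarith
        · exact absurd h5 h3
        · rw [Int.sign_eq_one_of_pos h5]
          have h6 : 0 < (((σ.1.2 - σ.1.1) i.1 : ℤ) : ℝ) := by exact_mod_cast h5
          push_cast at h6 ⊢
          linarith
  · rw [e1, eX]
    rcases conc_D_cases hm hl ε σ.1 i hi with ⟨h1, h2⟩ | ⟨h1, h3, h2⟩
    · have : castV ((concN ε σ.1 i).2 - (concN ε σ.1 i).1) = castV (σ.1.2 - σ.1.1) := by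
        funext w
        rw [conc_D_eq, h2, add_zero]
      rw [this, h1]
      linarith [h.l1_le]
    · rw [h1]
      have h4 : l1 (castV ((concN ε σ.1 i).2 - (concN ε σ.1 i).1)) ≤
          l1 (castV (σ.1.2 - σ.1.1)) + l1 (ring (castV ε) i.1) := by
        unfold l1
        rw [← Finset.sum_add_distrib]
        refine Finset.sum_le_sum fun w _ => ?_
        rw [conc_D_eq, h2]
        refine le_trans (abs_add_le _ _) (add_le_add le_rfl ?_)
        rw [abs_mul]
        calc _ ≤ 1 * |ring (castV ε) i.1 w| :=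
              mul_le_mul_of_nonneg_right (conc_sign_abs _) (abs_nonneg _)
          _ = _ := one_mul _
      have h5 := conc_ring_l1 hε i.1
      linarith [h.l1_le]
  · intro w
    rw [e1, eX, conc_D_eq]
    have h1 := hD w
    have h2 := h.hd w
    rw [abs_le] at h1 h2 ⊢
    constructor <;> linarith [h1.1, h1.2, h2.1, h2.2]
  · rw [eX]
    push_cast
    linarith [h.X_le]
  · rw [eS]
    linarith [h.S_nonneg]
  · rw [eS, eX]
    push_cast
    have := h.S_le
    nlinarith
  · intro t ht w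
    obtain ⟨g, hg1, hg2, hg3⟩ := h.G1 t ht w
    obtain ⟨g', h1, h2, h3⟩ := conc_F2 hm ⟨(hl w).1, (hl w).2.1⟩ (hl w).2.2 (σ.1.1 w) (σ.1.2 w) t ht
    refine ⟨g + g', ?_, ?_, ?_⟩
    · push_cast; linarith
    · push_cast; linarith
    · rw [eX, eG]
      have h4 : |fz lp lm y0 w - fz lp lm σ.1.1 w| ≤ L * k := by
        rw [conc_fz, conc_fz]
        refine le_trans (conc_F_lip hm ⟨(hl w).1, (hl w).2.1⟩ (hl w).2.2 _ _) ?_
        refine mul_le_mul_of_nonneg_left ?_ hL.le
        rw [abs_sub_comm]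
        exact h.a1 w
      have h5 := h.a1 w
      have h6 := h.hd w
      have h7 : |g' * (((σ.1.1 w : ℝ) - y0 w) - t * (castV (σ.1.2 - σ.1.1) w -
          castV (y1 - y0) w))| ≤ L * (k + t * (σ.2.2.1 - l1 (castV (y1 - y0)))) := by
        rw [abs_mul, abs_of_nonneg (by linarith : 0 ≤ g')]
        refine mul_le_mul h2 ?_ (abs_nonneg _) hL.le
        refine le_trans (abs_sub _ _) (add_le_add h5 ?_)
        rw [abs_mul, abs_of_nonneg ht]
        exact mul_le_mul_of_nonneg_left h6 ht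
      have h8 : (((k + 1 : ℕ) : ℝ)) * fz lp lm y0 w - t * (σ.2.1 w + concG lp lm σ.1 w) -
          (g + g') * ((y0 w : ℝ) - t * castV (y1 - y0) w) =
          (k * fz lp lm y0 w - t * σ.2.1 w - g * ((y0 w : ℝ) - t * castV (y1 - y0) w)) +
          ((fz lp lm y0 w - fz lp lm σ.1.1 w) +
          g' * (((σ.1.1 w : ℝ) - y0 w) - t * (castV (σ.1.2 - σ.1.1) w -
          castV (y1 - y0) w))) := by
        have h9 : concG lp lm σ.1 w = concF (lp w) (lm w) (σ.1.2 w) -
          concF (lp w) (lm w) (σ.1.1 w) := rfl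
        have h10 : castV (σ.1.2 - σ.1.1) w = (σ.1.2 w : ℝ) - σ.1.1 w := by
          unfold castV; simp
        have h11 : fz lp lm σ.1.1 w = concF (lp w) (lm w) (σ.1.1 w) := rfl
        rw [h9, h10, h11]
        push_cast
        linear_combination h3
      rw [h8]
      refine le_trans (abs_add_le _ _) ?_
      refine le_trans (add_le_add hg3 (le_trans (abs_add_le _ _) (add_le_add h4 h7))) ?_
      push_cast
      have h12 : 0 ≤ t * (σ.2.2.1 - l1 (castV (y1 - y0))) := mul_nonneg ht hX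
      have h13 : 0 ≤ t * concM i := mul_nonneg ht hM
      have h14 : 0 ≤ L * k := by positivity
      have h15 : 0 ≤ L * (t * (σ.2.2.1 - l1 (castV (y1 - y0)))) := by positivity
      have h16 : 0 ≤ L * (t * concM i) := by positivity
      have h17 : 0 ≤ k * L * (t * concM i) := by positivity
      nlinarith
  · intro w
    obtain ⟨g, hg1, hg2, hg3⟩ := h.G2 w
    obtain ⟨g', h1, h2, h3⟩ := hgam w
    refine ⟨g + g', ?_, ?_, ?_⟩
    · push_cast; linarith
    · push_cast; linarith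
    · rw [eX, eG]
      have h6 := h.hd w
      have h7 : |g' * (castV (σ.1.2 - σ.1.1) w - castV (y1 - y0) w)| ≤
          L * (σ.2.2.1 - l1 (castV (y1 - y0))) := by
        rw [abs_mul, abs_of_nonneg (by linarith : 0 ≤ g')]
        exact mul_le_mul h2 h6 (abs_nonneg _) hL.le
      have h8 : σ.2.1 w + concG lp lm σ.1 w - (g + g') * castV (y1 - y0) w =
          (σ.2.1 w - g * castV (y1 - y0) w) +
          g' * (castV (σ.1.2 - σ.1.1) w - castV (y1 - y0) w) := by
        rw [h3]; ring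
      rw [h8]
      refine le_trans (abs_add_le _ _) (le_trans (add_le_add hg3 h7) ?_)
      push_cast
      have h16 : 0 ≤ L * concM i := by positivity
      have h17 : 0 ≤ k * L * concM i := by positivity
      nlinarith

end Pool.Agent.Lib_helper10.CU
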