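import Pool.Agent.Lib_helper10.CU.CONC3

-- block CONC4 written by helper22
/-! Block CONC, part 4: one step inequalities for the potential. -/

set_option autoImplicit false
open scoped BigOperators
noncomputable section

namespace Pool.Agent.Lib_helper10.CU

set_option linter.unusedSectionVars false
set_option linter.unusedVariables false
set_option linter.unusedSimpArgs false

/-- the data of a window -/
structure ConcCtx {N : ℕ} [NeZero N] (m L : ℝ) (ε : ZV N) (lp lm : Vec N) (y0 y1 : ZV N)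
    (θ : ℝ) (n : ℕ) : Prop where
  hN : 3 ≤ N
  hm : 0 < m
  hl : ∀ v, m ≤ lp v ∧ lp v ≤ L ∧ m ≤ lm v ∧ lm v ≤ L
  hε : IsSgnZ ε
  hZ : 0 < ztotal lp lm (y0, y1)
  hn : (n : ℝ) ≤ θ * ztotal lp lm (y0, y1)
  hθ : 0 < θ
  hθ1 : θ ≤ 1
  hθ2 : 4 * N * L * θ ≤ 1
  hy0 : ∀ w, m * |(y0 w : ℝ)| ≤ 2 * ztotal lp lm (y0, y1)
  hy1 : ∀ w, m * |(y1 w : ℝ)| ≤ 2 * ztotal lp lm (y0, y1)
  hX0 : m * l1 (castV (y1 - y0)) ≤ N * ztotal lp lm (y0, y1)

section
variable {N : ℕ} [NeZero N] {m L : ℝ} {ε : ZV N} {lp lm : Vec N} {y0 y1 : ZV N} {θ : ℝ} {n : ℕ}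

theorem ConcCtx.hL (c : ConcCtx m L ε lp lm y0 y1 θ n) : 0 < L :=
  lt_of_lt_of_le c.hm (le_trans (c.hl 0).1 (c.hl 0).2.1)

theorem conc_zt (c : ConcCtx m L ε lp lm y0 y1 θ n) {k : ℕ} (hk : k ≤ n) {σ : ConcA N}
    (h : ConcInv m L ε lp lm y0 y1 k σ) :
    |ztotal lp lm σ.1 - ztotal lp lm (y0, y1)| ≤ 2 * N * L * θ * ztotal lp lm (y0, y1) ∧
    ztotal lp lm (y0, y1) ≤ 2 * ztotal lp lm σ.1 ∧ 0 < ztotal lp lm σ.1 := by
  have h1 := conc_total_lip c.hm c.hl (y0, y1) σ.1 k h.a1 h.a2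
  have hk' : (k : ℝ) ≤ θ * ztotal lp lm (y0, y1) := le_trans (by exact_mod_cast hk) c.hn
  have hL := c.hL
  have hN0 : (0 : ℝ) ≤ N := Nat.cast_nonneg N
  have hZ := c.hZ
  have h2 : |ztotal lp lm σ.1 - ztotal lp lm (y0, y1)| ≤
      2 * N * L * θ * ztotal lp lm (y0, y1) := by
    refine le_trans h1 ?_
    have : (N : ℝ) * (2 * L * k) ≤ N * (2 * L * (θ * ztotal lp lm (y0, y1))) := by gcongr
    linarith
  have h3 : 2 * N * L * θ * ztotal lp lm (y0, y1) ≤ (1 / 2) * ztotal lp lm (y0, y1) := by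
    have := mul_le_mul_of_nonneg_right c.hθ2 hZ.le
    linarith
  have h4 := (abs_le.1 (le_trans h2 h3)).1
  refine ⟨h2, by linarith, by linarith⟩

theorem conc_inv_zt (c : ConcCtx m L ε lp lm y0 y1 θ n) {k : ℕ} (hk : k ≤ n) {σ : ConcA N}
    (h : ConcInv m L ε lp lm y0 y1 k σ) :
    |(ztotal lp lm σ.1)⁻¹ - (ztotal lp lm (y0, y1))⁻¹| ≤
      4 * N * L * θ / ztotal lp lm (y0, y1) ∧
    (ztotal lp lm σ.1)⁻¹ ≤ 2 / ztotal lp lm (y0, y1) ∧ 0 ≤ (ztotal lp lm σ.1)⁻¹ := by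
  obtain ⟨h1, h2, h3⟩ := conc_zt c hk h
  have hZ := c.hZ
  refine ⟨?_, ?_, inv_nonneg.2 h3.le⟩
  · rw [inv_sub_inv h3.ne' hZ.ne', abs_div, abs_mul, abs_of_pos h3, abs_of_pos hZ,
      div_le_div_iff₀ (mul_pos h3 hZ) hZ, abs_sub_comm]
    have hL := c.hL
    have hθ := c.hθ
    have hN0 : (0 : ℝ) ≤ N := Nat.cast_nonneg N
    have h4 : 0 ≤ 4 * N * L * θ := by positivity
    calc |ztotal lp lm σ.1 - ztotal lp lm (y0, y1)| * ztotal lp lm (y0, y1)
        ≤ (2 * N * L * θ * ztotal lp lm (y0, y1)) * ztotal lp lm (y0, y1) :=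
          mul_le_mul_of_nonneg_right h1 hZ.le
      _ = (4 * N * L * θ) * ((1 / 2) * ztotal lp lm (y0, y1) * ztotal lp lm (y0, y1)) := by ring
      _ ≤ (4 * N * L * θ) * (ztotal lp lm σ.1 * ztotal lp lm (y0, y1)) := by
          refine mul_le_mul_of_nonneg_left ?_ h4
          exact mul_le_mul_of_nonneg_right (by linarith) hZ.le
  · rw [inv_eq_one_div, div_le_div_iff₀ h3 hZ]
    linarith

theorem conc_p_nonneg (c : ConcCtx m L ε lp lm y0 y1 θ n) {k : ℕ} (hk : k ≤ n) {σ : ConcA N}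
    (h : ConcInv m L ε lp lm y0 y1 k σ) (i : ConcI N) :
    0 ≤ concW lp lm σ.1 i / ztotal lp lm σ.1 :=
  div_nonneg (conc_W_nonneg c.hm c.hl σ.1 i) (conc_zt c hk h).2.2.le

theorem conc_p_sum (c : ConcCtx m L ε lp lm y0 y1 θ n) {k : ℕ} (hk : k ≤ n) {σ : ConcA N}
    (h : ConcInv m L ε lp lm y0 y1 k σ) :
    ∑ i, concW lp lm σ.1 i / ztotal lp lm σ.1 = 1 := by
  rw [← Finset.sum_div, conc_W_sum c.hm c.hl, div_self (conc_zt c hk h).2.2.ne']

theorem conc_drift_cmp (c : ConcCtx m L ε lp lm y0 y1 θ n) {k : ℕ} (hk : k ≤ n) {σ : ConcA N}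
    (h : ConcInv m L ε lp lm y0 y1 k σ) (a b A B : ℝ) (h1 : |a - b| ≤ A) (h2 : |b| ≤ B) :
    |a / ztotal lp lm σ.1 - b / ztotal lp lm (y0, y1)| ≤
      (2 * A + 4 * N * L * θ * B) / ztotal lp lm (y0, y1) := by
  obtain ⟨h3, h4, h5⟩ := conc_inv_zt c hk h
  have hZ := c.hZ
  have e : a / ztotal lp lm σ.1 - b / ztotal lp lm (y0, y1) =
      (a - b) * (ztotal lp lm σ.1)⁻¹ + b * ((ztotal lp lm σ.1)⁻¹ -
        (ztotal lp lm (y0, y1))⁻¹) := by
    rw [div_eq_mul_inv, div_eq_mul_inv]; ring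
  rw [e]
  refine le_trans (abs_add_le _ _) ?_
  rw [abs_mul, abs_mul, abs_of_nonneg h5]
  have hA : 0 ≤ A := le_trans (abs_nonneg _) h1
  have hB : 0 ≤ B := le_trans (abs_nonneg _) h2
  calc _ ≤ A * (2 / ztotal lp lm (y0, y1)) + B * (4 * N * L * θ / ztotal lp lm (y0, y1)) :=
        add_le_add (mul_le_mul h1 h4 h5 hA) (mul_le_mul h2 h3 (abs_nonneg _) hB)
    _ = _ := by ring

/-- error of the one step inequality -/
def ConcCS (m L : ℝ) (ε : ZV N) (lp lm : Vec N) (y0 y1 : ZV N) (n : ℕ)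
    (V E : ℕ → ConcA N → ℝ) : Prop :=
  ∀ k < n, ∀ σ, ConcInv m L ε lp lm y0 y1 k σ → concP ε lp lm (V (k + 1)) σ ≤ V k σ + E k σ

theorem ConcCS.add {V W E F : ℕ → ConcA N → ℝ} (h1 : ConcCS m L ε lp lm y0 y1 n V E)
    (h2 : ConcCS m L ε lp lm y0 y1 n W F) :
    ConcCS m L ε lp lm y0 y1 n (fun k σ => V k σ + W k σ) (fun k σ => E k σ + F k σ) := by
  intro k hk σ hσ
  have h3 := h1 k hk σ hσ
  have h4 := h2 k hk σ hσ
  unfold concP at *
  simp only [mul_add, Finset.sum_add_distrib]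
  linarith

theorem ConcCS.smul {V E : ℕ → ConcA N → ℝ} (h1 : ConcCS m L ε lp lm y0 y1 n V E)
    (a : ℝ) (ha : 0 ≤ a) :
    ConcCS m L ε lp lm y0 y1 n (fun k σ => a * V k σ) (fun k σ => a * E k σ) := by
  intro k hk σ hσ
  have h3 := mul_le_mul_of_nonneg_left (h1 k hk σ hσ) ha
  unfold concP at *
  have h4 : ∑ i, concW lp lm σ.1 i / ztotal lp lm σ.1 * (a * V (k + 1) (concX ε lp lm σ i)) =
      a * ∑ i, concW lp lm σ.1 i / ztotal lp lm σ.1 * V (k + 1) (concX ε lp lm σ i) := by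
    rw [Finset.mul_sum]
    exact Finset.sum_congr rfl fun i _ => by ring
  rw [h4]
  linarith

theorem ConcCS.sum {ι : Type} (s : Finset ι) {V E : ι → ℕ → ConcA N → ℝ}
    (h1 : ∀ j ∈ s, ConcCS m L ε lp lm y0 y1 n (V j) (E j)) :
    ConcCS m L ε lp lm y0 y1 n (fun k σ => ∑ j ∈ s, V j k σ) (fun k σ => ∑ j ∈ s, E j k σ) := by
  intro k hk σ hσ
  unfold concP
  simp only [Finset.mul_sum]
  rw [Finset.sum_comm, ← Finset.sum_add_distrib]
  refine Finset.sum_le_sum fun j hj => ?_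
  have := h1 j hj k hk σ hσ
  unfold concP at this
  exact this

theorem ConcCS.mono {V E F : ℕ → ConcA N → ℝ} (h1 : ConcCS m L ε lp lm y0 y1 n V E)
    (h : ∀ k < n, ∀ σ, ConcInv m L ε lp lm y0 y1 k σ → E k σ ≤ F k σ) :
    ConcCS m L ε lp lm y0 y1 n V F := by
  intro k hk σ hσ
  linarith [h1 k hk σ hσ, h k hk σ hσ]

/-- generic term: squared positive part -/
theorem conc_term (c : ConcCtx m L ε lp lm y0 y1 θ n) (u : ℕ → ConcA N → ℝ)
    (d : ℕ → ConcA N → ConcI N → ℝ) (E : ℕ → ConcA N → ℝ)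
    (h0 : ∀ k < n, ∀ σ, ConcInv m L ε lp lm y0 y1 k σ → ∀ i,
      u (k + 1) (concX ε lp lm σ i) = u k σ + d k σ i)
    (h1 : ∀ k < n, ∀ σ, ConcInv m L ε lp lm y0 y1 k σ →
      ∑ i, concW lp lm σ.1 i / ztotal lp lm σ.1 * d k σ i ≤ 0)
    (h2 : ∀ k < n, ∀ σ, ConcInv m L ε lp lm y0 y1 k σ →
      ∑ i, concW lp lm σ.1 i / ztotal lp lm σ.1 * d k σ i ^ 2 ≤ E k σ) :
    ConcCS m L ε lp lm y0 y1 n (fun k σ => (max (u k σ) 0) ^ 2) E := by
  intro k hk σ hσ
  unfold concP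
  have h3 := conc_pos_part (fun i => concW lp lm σ.1 i / ztotal lp lm σ.1) (d k σ) (u k σ)
    (conc_p_nonneg c hk.le hσ) (conc_p_sum c hk.le hσ) (h1 k hk σ hσ)
  have h4 := h2 k hk σ hσ
  calc ∑ i, concW lp lm σ.1 i / ztotal lp lm σ.1 *
        (max (u (k + 1) (concX ε lp lm σ i)) 0) ^ 2
      = ∑ i, concW lp lm σ.1 i / ztotal lp lm σ.1 * (max (u k σ + d k σ i) 0) ^ 2 := by
        refine Finset.sum_congr rfl fun i _ => ?_
        rw [h0 k hk σ hσ i]
    _ ≤ _ := by linarith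

theorem conc_nb_abs {N : ℕ} {ε : ZV N} (hε : IsSgnZ ε) (x : Vec N) (A : ℝ)
    (h : ∀ w, |x w| ≤ A) (w : ZMod N) : |nb (castV ε) x w| ≤ 2 * A := by
  unfold nb castV
  refine le_trans (abs_add_le _ _) ?_
  rw [abs_mul, abs_mul, conc_sgn_abs hε, conc_sgn_abs hε, one_mul, one_mul]
  linarith [h (w - 1), h (w + 1)]

theorem conc_nb_sub {N : ℕ} (ε : Vec N) (x y : Vec N) (w : ZMod N) :
    nb ε (fun v => x v - y v) w = nb ε x w - nb ε y w := by
  unfold nb; ring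

/-- constants -/
def concK4 (N : ℕ) (m L : ℝ) : ℝ := 4 * L + 16 * N * L * (L * (2 / m))
def concK5 (N : ℕ) (m L : ℝ) : ℝ := 1 + 2 * (L * (2 / m)) + concK4 N m L
def concK8 (N : ℕ) (m : ℝ) : ℝ := N / m + 2
def concK6 (N : ℕ) (m L : ℝ) : ℝ :=
  6 * L + 12 * L ^ 2 * concK8 N m + 12 * L ^ 2 * (4 * N * L) ^ 2 * concK8 N m
def concK7 (N : ℕ) (m L : ℝ) : ℝ := 16 * L + 32 * L ^ 2 * concK8 N m

theorem conc_f_abs (c : ConcCtx m L ε lp lm y0 y1 θ n) (y : ZV N)
    (hy : ∀ w, m * |(y w : ℝ)| ≤ 2 * ztotal lp lm (y0, y1)) (w : ZMod N) :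
    |fz lp lm y w| ≤ L * (2 / m) * ztotal lp lm (y0, y1) := by
  have h1 := conc_F_abs c.hm ⟨(c.hl w).1, (c.hl w).2.1⟩ (c.hl w).2.2 (y w)
  rw [conc_fz]
  refine le_trans h1 ?_
  have h2 : |(y w : ℝ)| ≤ 2 / m * ztotal lp lm (y0, y1) := by
    rw [div_mul_eq_mul_div, le_div_iff₀ c.hm, mul_comm]
    exact hy w
  calc L * |(y w : ℝ)| ≤ L * (2 / m * ztotal lp lm (y0, y1)) :=
        mul_le_mul_of_nonneg_left h2 c.hL.le
    _ = _ := by ring

/-- the first family -/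
theorem conc_fam1 (c : ConcCtx m L ε lp lm y0 y1 θ n) (w : ZMod N) (b : ℝ)
    (hb : b = 1 ∨ b = -1) :
    ConcCS m L ε lp lm y0 y1 n (fun k σ => (max (b * ((σ.1.1 w : ℝ) - y0 w -
      k / ztotal lp lm (y0, y1) * nb (castV ε) (fz lp lm y0) w) - concK4 N m L * θ * k) 0) ^ 2)
      (fun _ _ => concK5 N m L ^ 2) := by
  have hL := c.hL
  have hm := c.hm
  have hθ := c.hθ
  have hθ1 := c.hθ1
  have hZ := c.hZ
  have hN0 : (0 : ℝ) ≤ N := Nat.cast_nonneg N
  have hK4 : 0 ≤ concK4 N m L := by unfold concK4; positivity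
  have hF := conc_nb_abs c.hε _ _ (conc_f_abs c y0 c.hy0) w
  have hba : |b| = 1 := by rcases hb with h | h <;> rw [h] <;> simp
  refine conc_term c _ (fun k σ i => b * (((((concN ε σ.1 i).1 w : ℤ) : ℝ) - σ.1.1 w) -
    nb (castV ε) (fz lp lm y0) w / ztotal lp lm (y0, y1)) - concK4 N m L * θ) _ ?_ ?_ ?_
  · intro k hk σ hσ i
    have e1 : (concX ε lp lm σ i).1.1 w = (concN ε σ.1 i).1 w := rfl
    rw [e1]
    push_cast
    ring
  · intro k hk σ hσ
    have hp1 := conc_p_sum c hk.le hσ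
    have e1 : ∑ i, concW lp lm σ.1 i / ztotal lp lm σ.1 *
        (b * (((((concN ε σ.1 i).1 w : ℤ) : ℝ) - σ.1.1 w) -
        nb (castV ε) (fz lp lm y0) w / ztotal lp lm (y0, y1)) - concK4 N m L * θ) =
        b * (nb (castV ε) (fz lp lm σ.1.1) w / ztotal lp lm σ.1 -
          nb (castV ε) (fz lp lm y0) w / ztotal lp lm (y0, y1)) - concK4 N m L * θ := by
      have e2 : ∀ i, concW lp lm σ.1 i / ztotal lp lm σ.1 *
        (b * (((((concN ε σ.1 i).1 w : ℤ) : ℝ) - σ.1.1 w) -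
        nb (castV ε) (fz lp lm y0) w / ztotal lp lm (y0, y1)) - concK4 N m L * θ) =
        b * ((concW lp lm σ.1 i * ((((concN ε σ.1 i).1 w : ℤ) : ℝ) - σ.1.1 w)) /
          ztotal lp lm σ.1) -
        (concW lp lm σ.1 i / ztotal lp lm σ.1) *
          (b * (nb (castV ε) (fz lp lm y0) w / ztotal lp lm (y0, y1)) + concK4 N m L * θ) := by
        intro i; ring
      rw [Finset.sum_congr rfl fun i _ => e2 i, Finset.sum_sub_distrib, ← Finset.mul_sum,
        ← Finset.sum_div, conc_drift1, ← Finset.sum_mul, hp1]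
      ring
    rw [e1]
    have h1 : |nb (castV ε) (fz lp lm σ.1.1) w - nb (castV ε) (fz lp lm y0) w| ≤
        2 * (L * (θ * ztotal lp lm (y0, y1))) := by
      rw [← conc_nb_sub]
      refine conc_nb_abs c.hε _ _ ?_ w
      intro v
      rw [conc_fz, conc_fz]
      refine le_trans (conc_F_lip hm ⟨(c.hl v).1, (c.hl v).2.1⟩ (c.hl v).2.2 _ _) ?_
      refine mul_le_mul_of_nonneg_left ?_ hL.le
      refine le_trans (hσ.a1 v) (le_trans ?_ c.hn)
      exact_mod_cast hk.le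
    have h2 := conc_drift_cmp c hk.le hσ _ _ _ _ h1 hF
    have h3 : (2 * (2 * (L * (θ * ztotal lp lm (y0, y1)))) + 4 * N * L * θ *
        (2 * (L * (2 / m) * ztotal lp lm (y0, y1)))) / ztotal lp lm (y0, y1) ≤
        concK4 N m L * θ := by
      rw [div_le_iff₀ hZ]
      unfold concK4
      have : 0 ≤ N * L * (L * (2 / m)) * θ * ztotal lp lm (y0, y1) := by positivity
      nlinarith
    have h4 : b * (nb (castV ε) (fz lp lm σ.1.1) w / ztotal lp lm σ.1 -
          nb (castV ε) (fz lp lm y0) w / ztotal lp lm (y0, y1)) ≤ concK4 N m L * θ := by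
      refine le_trans (le_abs_self _) ?_
      rw [abs_mul, hba, one_mul]
      exact le_trans h2 h3
    linarith
  · intro k hk σ hσ
    have hp1 := conc_p_sum c hk.le hσ
    have hp0 := conc_p_nonneg c hk.le hσ
    have h5 : ∀ i, (b * (((((concN ε σ.1 i).1 w : ℤ) : ℝ) - σ.1.1 w) -
        nb (castV ε) (fz lp lm y0) w / ztotal lp lm (y0, y1)) - concK4 N m L * θ) ^ 2 ≤
        concK5 N m L ^ 2 := by
      intro i
      have hK5 : 0 ≤ concK5 N m L := by unfold concK5; positivity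
      rw [sq_le_sq, abs_of_nonneg hK5]
      refine le_trans (abs_sub _ _) ?_
      rw [abs_mul, hba, one_mul, abs_of_nonneg (mul_nonneg hK4 hθ.le)]
      have h6 := conc_N_abs1 c.hN c.hε σ.1 i w
      have h7 : |nb (castV ε) (fz lp lm y0) w / ztotal lp lm (y0, y1)| ≤
          2 * (L * (2 / m)) := by
        rw [abs_div, abs_of_pos hZ, div_le_iff₀ hZ]
        linarith
      have h8 := abs_sub ((((concN ε σ.1 i).1 w : ℤ) : ℝ) - σ.1.1 w)
        (nb (castV ε) (fz lp lm y0) w / ztotal lp lm (y0, y1))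
      have h9 : concK4 N m L * θ ≤ concK4 N m L := by nlinarith
      unfold concK5
      linarith
    calc ∑ i, concW lp lm σ.1 i / ztotal lp lm σ.1 * (b * (((((concN ε σ.1 i).1 w : ℤ) : ℝ) -
        σ.1.1 w) - nb (castV ε) (fz lp lm y0) w / ztotal lp lm (y0, y1)) -
          concK4 N m L * θ) ^ 2
        ≤ ∑ i, concW lp lm σ.1 i / ztotal lp lm σ.1 * concK5 N m L ^ 2 :=
          Finset.sum_le_sum fun i _ => mul_le_mul_of_nonneg_left (h5 i) (hp0 i)
      _ = concK5 N m L ^ 2 := by rw [← Finset.sum_mul, hp1, one_mul]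

/-- the second family -/
theorem conc_fam2 (c : ConcCtx m L ε lp lm y0 y1 θ n) (w : ZMod N) (b : ℝ)
    (hb : b = 1 ∨ b = -1) :
    ConcCS m L ε lp lm y0 y1 n (fun k σ => (max (b * ((σ.1.2 w : ℝ) - y1 w -
      k / ztotal lp lm (y0, y1) * nb (castV ε) (fz lp lm y1) w) - concK4 N m L * θ * k) 0) ^ 2)
      (fun _ _ => concK5 N m L ^ 2) := by
  have hL := c.hL
  have hm := c.hm
  have hθ := c.hθ
  have hθ1 := c.hθ1
  have hZ := c.hZ
  have hN0 : (0 : ℝ) ≤ N := Nat.cast_nonneg N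
  have hK4 : 0 ≤ concK4 N m L := by unfold concK4; positivity
  have hF := conc_nb_abs c.hε _ _ (conc_f_abs c y1 c.hy1) w
  have hba : |b| = 1 := by rcases hb with h | h <;> rw [h] <;> simp
  refine conc_term c _ (fun k σ i => b * (((((concN ε σ.1 i).2 w : ℤ) : ℝ) - σ.1.2 w) -
    nb (castV ε) (fz lp lm y1) w / ztotal lp lm (y0, y1)) - concK4 N m L * θ) _ ?_ ?_ ?_
  · intro k hk σ hσ i
    have e1 : (concX ε lp lm σ i).1.2 w = (concN ε σ.1 i).2 w := rfl
    rw [e1]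
    push_cast
    ring
  · intro k hk σ hσ
    have hp1 := conc_p_sum c hk.le hσ
    have e1 : ∑ i, concW lp lm σ.1 i / ztotal lp lm σ.1 *
        (b * (((((concN ε σ.1 i).2 w : ℤ) : ℝ) - σ.1.2 w) -
        nb (castV ε) (fz lp lm y1) w / ztotal lp lm (y0, y1)) - concK4 N m L * θ) =
        b * (nb (castV ε) (fz lp lm σ.1.2) w / ztotal lp lm σ.1 -
          nb (castV ε) (fz lp lm y1) w / ztotal lp lm (y0, y1)) - concK4 N m L * θ := by
      have e2 : ∀ i, concW lp lm σ.1 i / ztotal lp lm σ.1 *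
        (b * (((((concN ε σ.1 i).2 w : ℤ) : ℝ) - σ.1.2 w) -
        nb (castV ε) (fz lp lm y1) w / ztotal lp lm (y0, y1)) - concK4 N m L * θ) =
        b * ((concW lp lm σ.1 i * ((((concN ε σ.1 i).2 w : ℤ) : ℝ) - σ.1.2 w)) /
          ztotal lp lm σ.1) -
        (concW lp lm σ.1 i / ztotal lp lm σ.1) *
          (b * (nb (castV ε) (fz lp lm y1) w / ztotal lp lm (y0, y1)) + concK4 N m L * θ) := by
        intro i; ring
      rw [Finset.sum_congr rfl fun i _ => e2 i, Finset.sum_sub_distrib, ← Finset.mul_sum,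
        ← Finset.sum_div, conc_drift2, ← Finset.sum_mul, hp1]
      ring
    rw [e1]
    have h1 : |nb (castV ε) (fz lp lm σ.1.2) w - nb (castV ε) (fz lp lm y1) w| ≤
        2 * (L * (θ * ztotal lp lm (y0, y1))) := by
      rw [← conc_nb_sub]
      refine conc_nb_abs c.hε _ _ ?_ w
      intro v
      rw [conc_fz, conc_fz]
      refine le_trans (conc_F_lip hm ⟨(c.hl v).1, (c.hl v).2.1⟩ (c.hl v).2.2 _ _) ?_
      refine mul_le_mul_of_nonneg_left ?_ hL.le
      refine le_trans (hσ.a2 v) (le_trans ?_ c.hn)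
      exact_mod_cast hk.le
    have h2 := conc_drift_cmp c hk.le hσ _ _ _ _ h1 hF
    have h3 : (2 * (2 * (L * (θ * ztotal lp lm (y0, y1)))) + 4 * N * L * θ *
        (2 * (L * (2 / m) * ztotal lp lm (y0, y1)))) / ztotal lp lm (y0, y1) ≤
        concK4 N m L * θ := by
      rw [div_le_iff₀ hZ]
      unfold concK4
      have : 0 ≤ N * L * (L * (2 / m)) * θ * ztotal lp lm (y0, y1) := by positivity
      nlinarith
    have h4 : b * (nb (castV ε) (fz lp lm σ.1.2) w / ztotal lp lm σ.1 -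
          nb (castV ε) (fz lp lm y1) w / ztotal lp lm (y0, y1)) ≤ concK4 N m L * θ := by
      refine le_trans (le_abs_self _) ?_
      rw [abs_mul, hba, one_mul]
      exact le_trans h2 h3
    linarith
  · intro k hk σ hσ
    have hp1 := conc_p_sum c hk.le hσ
    have hp0 := conc_p_nonneg c hk.le hσ
    have h5 : ∀ i, (b * (((((concN ε σ.1 i).2 w : ℤ) : ℝ) - σ.1.2 w) -
        nb (castV ε) (fz lp lm y1) w / ztotal lp lm (y0, y1)) - concK4 N m L * θ) ^ 2 ≤
        concK5 N m L ^ 2 := by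
      intro i
      have hK5 : 0 ≤ concK5 N m L := by unfold concK5; positivity
      rw [sq_le_sq, abs_of_nonneg hK5]
      refine le_trans (abs_sub _ _) ?_
      rw [abs_mul, hba, one_mul, abs_of_nonneg (mul_nonneg hK4 hθ.le)]
      have h6 := conc_N_abs2 c.hN c.hε σ.1 i w
      have h7 : |nb (castV ε) (fz lp lm y1) w / ztotal lp lm (y0, y1)| ≤
          2 * (L * (2 / m)) := by
        rw [abs_div, abs_of_pos hZ, div_le_iff₀ hZ]
        linarith
      have h8 := abs_sub ((((concN ε σ.1 i).2 w : ℤ) : ℝ) - σ.1.2 w)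
        (nb (castV ε) (fz lp lm y1) w / ztotal lp lm (y0, y1))
      have h9 : concK4 N m L * θ ≤ concK4 N m L := by nlinarith
      unfold concK5
      linarith
    calc ∑ i, concW lp lm σ.1 i / ztotal lp lm σ.1 * (b * (((((concN ε σ.1 i).2 w : ℤ) : ℝ) -
        σ.1.2 w) - nb (castV ε) (fz lp lm y1) w / ztotal lp lm (y0, y1)) -
          concK4 N m L * θ) ^ 2
        ≤ ∑ i, concW lp lm σ.1 i / ztotal lp lm σ.1 * concK5 N m L ^ 2 :=
          Finset.sum_le_sum fun i _ => mul_le_mul_of_nonneg_left (h5 i) (hp0 i)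
      _ = concK5 N m L ^ 2 := by rw [← Finset.sum_mul, hp1, one_mul]

theorem conc_X_bd (c : ConcCtx m L ε lp lm y0 y1 θ n) {k : ℕ} (hk : k ≤ n) {σ : ConcA N}
    (h : ConcInv m L ε lp lm y0 y1 k σ) :
    0 ≤ σ.2.2.1 ∧ σ.2.2.1 ≤ concK8 N m * ztotal lp lm (y0, y1) ∧
    ∀ w, |concG lp lm σ.1 w| ≤ L * σ.2.2.1 := by
  have hX := conc_X_ge h
  have hX0 : 0 ≤ l1 (castV (y1 - y0)) := by
    unfold l1; exact Finset.sum_nonneg fun _ _ => abs_nonneg _
  have hk' : (k : ℝ) ≤ θ * ztotal lp lm (y0, y1) := le_trans (by exact_mod_cast hk) c.hn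
  have hk'' : (k : ℝ) ≤ ztotal lp lm (y0, y1) := by nlinarith [c.hθ1, c.hZ]
  refine ⟨by linarith, ?_, ?_⟩
  · refine le_trans h.X_le ?_
    unfold concK8
    have h1 : l1 (castV (y1 - y0)) ≤ N / m * ztotal lp lm (y0, y1) := by
      rw [div_mul_eq_mul_div, le_div_iff₀ c.hm, mul_comm]
      exact c.hX0
    nlinarith
  · intro w
    have h1 := conc_F_lip c.hm ⟨(c.hl w).1, (c.hl w).2.1⟩ (c.hl w).2.2 (σ.1.1 w) (σ.1.2 w)
    have h2 : concG lp lm σ.1 w = concF (lp w) (lm w) (σ.1.2 w) - concF (lp w) (lm w) (σ.1.1 w) :=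
      rfl
    rw [h2]
    refine le_trans h1 (mul_le_mul_of_nonneg_left ?_ c.hL.le)
    refine le_trans ?_ h.l1_le
    have h3 : |(σ.1.2 w : ℝ) - σ.1.1 w| = |castV (σ.1.2 - σ.1.1) w| := by
      unfold castV; simp
    rw [h3]
    unfold l1
    exact Finset.single_le_sum (f := fun v => |castV (σ.1.2 - σ.1.1) v|)
      (fun _ _ => abs_nonneg _) (Finset.mem_univ w)

/-- the probability of a move -/
theorem conc_p_move (c : ConcCtx m L ε lp lm y0 y1 θ n) {k : ℕ} (hk : k ≤ n) {σ : ConcA N}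
    (h : ConcInv m L ε lp lm y0 y1 k σ) :
    ∑ i, concW lp lm σ.1 i / ztotal lp lm σ.1 * concM i ≤
      2 * L * σ.2.2.1 / ztotal lp lm (y0, y1) := by
  have h1 := conc_move_prob c.hm c.hl σ.1
  obtain ⟨h2, h3, h4⟩ := conc_inv_zt c hk h
  obtain ⟨h5, h6, h7⟩ := conc_X_bd c hk h
  have hL := c.hL
  calc ∑ i, concW lp lm σ.1 i / ztotal lp lm σ.1 * concM i
      = (∑ i, concW lp lm σ.1 i * concM i) * (ztotal lp lm σ.1)⁻¹ := by
        rw [Finset.sum_mul]
        exact Finset.sum_congr rfl fun i _ => by rw [div_eq_mul_inv]; ring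
    _ ≤ (L * σ.2.2.1) * (2 / ztotal lp lm (y0, y1)) := by
        refine mul_le_mul (le_trans h1 (mul_le_mul_of_nonneg_left h.l1_le hL.le)) h3 h4
          (by positivity)
    _ = _ := by ring

theorem conc_fam3 (c : ConcCtx m L ε lp lm y0 y1 θ n) (w : ZMod N) (b : ℝ)
    (hb : b = 1 ∨ b = -1) :
    ConcCS m L ε lp lm y0 y1 n (fun k σ => (max (b * (castV (σ.1.2 - σ.1.1) w -
      castV (y1 - y0) w - nb (castV ε) σ.2.1 w / ztotal lp lm (y0, y1)) -
      2 * L * (4 * N * L) * θ / ztotal lp lm (y0, y1) * σ.2.2.2) 0) ^ 2)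
      (fun _ σ => concK6 N m L * (σ.2.2.1 / ztotal lp lm (y0, y1))) := by
  have hL := c.hL
  have hm := c.hm
  have hθ := c.hθ
  have hθ1 := c.hθ1
  have hZ := c.hZ
  have hN0 : (0 : ℝ) ≤ N := Nat.cast_nonneg N
  have hba : |b| = 1 := by rcases hb with h | h <;> rw [h] <;> simp
  have hb2 : b ^ 2 = 1 := by rcases hb with h | h <;> rw [h] <;> norm_num
  refine conc_term c _ (fun k σ i => b * (concD ε σ.1 i w -
    nb (castV ε) (concG lp lm σ.1) w / ztotal lp lm (y0, y1)) -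
      2 * L * (4 * N * L) * θ / ztotal lp lm (y0, y1) * σ.2.2.1) _ ?_ ?_ ?_
  · intro k hk σ hσ i
    have e1 : castV ((concX ε lp lm σ i).1.2 - (concX ε lp lm σ i).1.1) w =
        castV (σ.1.2 - σ.1.1) w + concD ε σ.1 i w := conc_D_eq ε σ.1 i w
    have e2 : nb (castV ε) (concX ε lp lm σ i).2.1 w = nb (castV ε) σ.2.1 w +
        nb (castV ε) (concG lp lm σ.1) w := by
      unfold nb concX
      ring
    have e3 : (concX ε lp lm σ i).2.2.2 = σ.2.2.2 + σ.2.2.1 := rfl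
    rw [e1, e2, e3]
    ring
  · intro k hk σ hσ
    have hp1 := conc_p_sum c hk.le hσ
    obtain ⟨hX1, hX2, hX3⟩ := conc_X_bd c hk.le hσ
    have e1 : ∑ i, concW lp lm σ.1 i / ztotal lp lm σ.1 * (b * (concD ε σ.1 i w -
        nb (castV ε) (concG lp lm σ.1) w / ztotal lp lm (y0, y1)) -
        2 * L * (4 * N * L) * θ / ztotal lp lm (y0, y1) * σ.2.2.1) =
        b * (nb (castV ε) (concG lp lm σ.1) w / ztotal lp lm σ.1 -
          nb (castV ε) (concG lp lm σ.1) w / ztotal lp lm (y0, y1)) -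
        2 * L * (4 * N * L) * θ / ztotal lp lm (y0, y1) * σ.2.2.1 := by
      have e2 : ∀ i, concW lp lm σ.1 i / ztotal lp lm σ.1 * (b * (concD ε σ.1 i w -
        nb (castV ε) (concG lp lm σ.1) w / ztotal lp lm (y0, y1)) -
        2 * L * (4 * N * L) * θ / ztotal lp lm (y0, y1) * σ.2.2.1) =
        b * ((concW lp lm σ.1 i * concD ε σ.1 i w) / ztotal lp lm σ.1) -
        (concW lp lm σ.1 i / ztotal lp lm σ.1) *
          (b * (nb (castV ε) (concG lp lm σ.1) w / ztotal lp lm (y0, y1)) +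
          2 * L * (4 * N * L) * θ / ztotal lp lm (y0, y1) * σ.2.2.1) := by
        intro i; ring
      rw [Finset.sum_congr rfl fun i _ => e2 i, Finset.sum_sub_distrib, ← Finset.mul_sum,
        ← Finset.sum_div, conc_driftD, ← Finset.sum_mul, hp1]
      ring
    rw [e1]
    have h1 := conc_nb_abs c.hε _ _ hX3 w
    have h2 := conc_drift_cmp c hk.le hσ (nb (castV ε) (concG lp lm σ.1) w)
      (nb (castV ε) (concG lp lm σ.1) w) 0 _ (by rw [sub_self, abs_zero]) h1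
    have h3 : (2 * 0 + 4 * N * L * θ * (2 * (L * σ.2.2.1))) / ztotal lp lm (y0, y1) =
        2 * L * (4 * N * L) * θ / ztotal lp lm (y0, y1) * σ.2.2.1 := by ring
    rw [h3] at h2
    have h4 : b * (nb (castV ε) (concG lp lm σ.1) w / ztotal lp lm σ.1 -
          nb (castV ε) (concG lp lm σ.1) w / ztotal lp lm (y0, y1)) ≤
        2 * L * (4 * N * L) * θ / ztotal lp lm (y0, y1) * σ.2.2.1 := by
      refine le_trans (le_abs_self _) ?_
      rw [abs_mul, hba, one_mul]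
      exact h2
    linarith
  · intro k hk σ hσ
    have hp1 := conc_p_sum c hk.le hσ
    have hp0 := conc_p_nonneg c hk.le hσ
    obtain ⟨hX1, hX2, hX3⟩ := conc_X_bd c hk.le hσ
    have hmv := conc_p_move c hk.le hσ
    have h1 := conc_nb_abs c.hε _ _ hX3 w
    -- notation
    obtain ⟨q, hq⟩ : ∃ q, q = σ.2.2.1 / ztotal lp lm (y0, y1) := ⟨_, rfl⟩
    have hq0 : 0 ≤ q := by rw [hq]; positivity
    have hq1 : q ≤ concK8 N m := by
      rw [hq, div_le_iff₀ hZ]; exact hX2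
    have h2 : |nb (castV ε) (concG lp lm σ.1) w / ztotal lp lm (y0, y1)| ≤ 2 * L * q := by
      rw [abs_div, abs_of_pos hZ, hq]
      calc _ ≤ (2 * (L * σ.2.2.1)) / ztotal lp lm (y0, y1) :=
            div_le_div_of_nonneg_right h1 hZ.le
        _ = _ := by ring
    have e3 : 2 * L * (4 * N * L) * θ / ztotal lp lm (y0, y1) * σ.2.2.1 =
        2 * L * (4 * N * L) * θ * q := by rw [hq]; ring
    have h5 : ∀ i, concW lp lm σ.1 i / ztotal lp lm σ.1 * (b * (concD ε σ.1 i w -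
        nb (castV ε) (concG lp lm σ.1) w / ztotal lp lm (y0, y1)) -
        2 * L * (4 * N * L) * θ / ztotal lp lm (y0, y1) * σ.2.2.1) ^ 2 ≤
        concW lp lm σ.1 i / ztotal lp lm σ.1 * (3 * concM i +
          (12 * L ^ 2 * concK8 N m + 12 * L ^ 2 * (4 * N * L) ^ 2 * concK8 N m) * q) := by
      intro i
      by_cases h0 : concW lp lm σ.1 i = 0
      · rw [h0, zero_div, zero_mul, zero_mul]
      refine mul_le_mul_of_nonneg_left ?_ (hp0 i)
      rw [e3]
      have h6 := conc_D_abs c.hN hm c.hl c.hε σ.1 i h0 w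
      have h7 : concD ε σ.1 i w ^ 2 ≤ concM i := by
        have h8 : concM i ^ 2 = concM i := by
          unfold concM; split_ifs <;> norm_num
        have h9 : 0 ≤ concM i := le_trans (abs_nonneg _) h6
        rw [← h8, sq_le_sq, abs_of_nonneg h9]
        exact h6
      have h8 : (nb (castV ε) (concG lp lm σ.1) w / ztotal lp lm (y0, y1)) ^ 2 ≤
          4 * L ^ 2 * concK8 N m * q := by
        have h9 : (nb (castV ε) (concG lp lm σ.1) w / ztotal lp lm (y0, y1)) ^ 2 ≤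
            (2 * L * q) ^ 2 := by
          rw [sq_le_sq, abs_of_nonneg (show 0 ≤ 2 * L * q by positivity)]
          exact h2
        have h10 : q ^ 2 ≤ concK8 N m * q := by nlinarith
        nlinarith [sq_nonneg L]
      have h11 : (2 * L * (4 * N * L) * θ * q) ^ 2 ≤
          4 * L ^ 2 * (4 * N * L) ^ 2 * concK8 N m * q := by
        have h10 : q ^ 2 ≤ concK8 N m * q := by nlinarith
        have h12 : θ ^ 2 ≤ 1 := by nlinarith
        have h13 : θ ^ 2 * q ^ 2 ≤ 1 * (concK8 N m * q) :=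
          mul_le_mul h12 h10 (by positivity) zero_le_one
        calc (2 * L * (4 * N * L) * θ * q) ^ 2 = 4 * L ^ 2 * (4 * N * L) ^ 2 *
              (θ ^ 2 * q ^ 2) := by ring
          _ ≤ 4 * L ^ 2 * (4 * N * L) ^ 2 * (1 * (concK8 N m * q)) :=
              mul_le_mul_of_nonneg_left h13 (by positivity)
          _ = _ := by ring
      have h14 : ∀ x y z : ℝ, (b * (x - y) - z) ^ 2 ≤ 3 * x ^ 2 + 3 * y ^ 2 + 3 * z ^ 2 := by
        intro x y z
        have : (b * (x - y) - z) ^ 2 = b ^ 2 * (x - y) ^ 2 - 2 * b * (x - y) * z + z ^ 2 := by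
          ring
        rcases hb with h | h <;> rw [h] <;> nlinarith [sq_nonneg (x + y), sq_nonneg (x - z),
          sq_nonneg (y + z), sq_nonneg (x + z), sq_nonneg (y - z)]
      have h15 := h14 (concD ε σ.1 i w)
        (nb (castV ε) (concG lp lm σ.1) w / ztotal lp lm (y0, y1))
        (2 * L * (4 * N * L) * θ * q)
      nlinarith
    refine le_trans (Finset.sum_le_sum fun i _ => h5 i) ?_
    have e4 : ∑ i, concW lp lm σ.1 i / ztotal lp lm σ.1 * (3 * concM i +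
          (12 * L ^ 2 * concK8 N m + 12 * L ^ 2 * (4 * N * L) ^ 2 * concK8 N m) * q) =
        3 * ∑ i, concW lp lm σ.1 i / ztotal lp lm σ.1 * concM i +
          (12 * L ^ 2 * concK8 N m + 12 * L ^ 2 * (4 * N * L) ^ 2 * concK8 N m) * q := by
      rw [Finset.mul_sum]
      have e5 : ∀ i, concW lp lm σ.1 i / ztotal lp lm σ.1 * (3 * concM i +
          (12 * L ^ 2 * concK8 N m + 12 * L ^ 2 * (4 * N * L) ^ 2 * concK8 N m) * q) =
          3 * (concW lp lm σ.1 i / ztotal lp lm σ.1 * concM i) +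
          concW lp lm σ.1 i / ztotal lp lm σ.1 *
          ((12 * L ^ 2 * concK8 N m + 12 * L ^ 2 * (4 * N * L) ^ 2 * concK8 N m) * q) := by
        intro i; ring
      rw [Finset.sum_congr rfl fun i _ => e5 i, Finset.sum_add_distrib, ← Finset.sum_mul, hp1,
        one_mul]
    rw [e4, ← hq]
    have e6 : 2 * L * σ.2.2.1 / ztotal lp lm (y0, y1) = 2 * L * q := by rw [hq]; ring
    rw [e6] at hmv
    unfold concK6
    nlinarith

theorem conc_famX (c : ConcCtx m L ε lp lm y0 y1 θ n) :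
    ConcCS m L ε lp lm y0 y1 n (fun k σ => (max (σ.2.2.1 - l1 (castV (y1 - y0)) -
      4 * L / ztotal lp lm (y0, y1) * σ.2.2.2) 0) ^ 2)
      (fun _ σ => concK7 N m L * (σ.2.2.1 / ztotal lp lm (y0, y1))) := by
  have hL := c.hL
  have hm := c.hm
  have hθ := c.hθ
  have hθ1 := c.hθ1
  have hZ := c.hZ
  have hN0 : (0 : ℝ) ≤ N := Nat.cast_nonneg N
  refine conc_term c _ (fun k σ i => 2 * concM i -
      4 * L / ztotal lp lm (y0, y1) * σ.2.2.1) _ ?_ ?_ ?_
  · intro k hk σ hσ i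
    have e3 : (concX ε lp lm σ i).2.2.2 = σ.2.2.2 + σ.2.2.1 := rfl
    have e4 : (concX ε lp lm σ i).2.2.1 = σ.2.2.1 + 2 * concM i := rfl
    rw [e3, e4]
    ring
  · intro k hk σ hσ
    have hp1 := conc_p_sum c hk.le hσ
    have hmv := conc_p_move c hk.le hσ
    have e2 : ∀ i, concW lp lm σ.1 i / ztotal lp lm σ.1 * (2 * concM i -
      4 * L / ztotal lp lm (y0, y1) * σ.2.2.1) =
      2 * (concW lp lm σ.1 i / ztotal lp lm σ.1 * concM i) -
      concW lp lm σ.1 i / ztotal lp lm σ.1 * (4 * L / ztotal lp lm (y0, y1) * σ.2.2.1) := by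
      intro i; ring
    rw [Finset.sum_congr rfl fun i _ => e2 i, Finset.sum_sub_distrib, ← Finset.mul_sum,
      ← Finset.sum_mul, hp1]
    have e3 : 2 * L * σ.2.2.1 / ztotal lp lm (y0, y1) =
      (1 / 2) * (4 * L / ztotal lp lm (y0, y1) * σ.2.2.1) := by ring
    rw [e3] at hmv
    linarith
  · intro k hk σ hσ
    have hp1 := conc_p_sum c hk.le hσ
    have hp0 := conc_p_nonneg c hk.le hσ
    obtain ⟨hX1, hX2, hX3⟩ := conc_X_bd c hk.le hσ
    have hmv := conc_p_move c hk.le hσ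
    obtain ⟨q, hq⟩ : ∃ q, q = σ.2.2.1 / ztotal lp lm (y0, y1) := ⟨_, rfl⟩
    have hq0 : 0 ≤ q := by rw [hq]; positivity
    have hq1 : q ≤ concK8 N m := by
      rw [hq, div_le_iff₀ hZ]; exact hX2
    have e3 : 4 * L / ztotal lp lm (y0, y1) * σ.2.2.1 = 4 * L * q := by rw [hq]; ring
    have h5 : ∀ i, concW lp lm σ.1 i / ztotal lp lm σ.1 * (2 * concM i -
        4 * L / ztotal lp lm (y0, y1) * σ.2.2.1) ^ 2 ≤
        concW lp lm σ.1 i / ztotal lp lm σ.1 * (8 * concM i + 32 * L ^ 2 * concK8 N m * q) := by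
      intro i
      refine mul_le_mul_of_nonneg_left ?_ (hp0 i)
      rw [e3]
      have h8 : concM i ^ 2 = concM i := by
        unfold concM; split_ifs <;> norm_num
      have h10 : q ^ 2 ≤ concK8 N m * q := by nlinarith
      have h11 : L ^ 2 * q ^ 2 ≤ L ^ 2 * (concK8 N m * q) :=
        mul_le_mul_of_nonneg_left h10 (sq_nonneg L)
      nlinarith [sq_nonneg (2 * concM i + 4 * L * q)]
    refine le_trans (Finset.sum_le_sum fun i _ => h5 i) ?_
    have e4 : ∑ i, concW lp lm σ.1 i / ztotal lp lm σ.1 * (8 * concM i +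
          32 * L ^ 2 * concK8 N m * q) =
        8 * ∑ i, concW lp lm σ.1 i / ztotal lp lm σ.1 * concM i +
          32 * L ^ 2 * concK8 N m * q := by
      rw [Finset.mul_sum]
      have e5 : ∀ i, concW lp lm σ.1 i / ztotal lp lm σ.1 * (8 * concM i +
          32 * L ^ 2 * concK8 N m * q) =
          8 * (concW lp lm σ.1 i / ztotal lp lm σ.1 * concM i) +
          concW lp lm σ.1 i / ztotal lp lm σ.1 * (32 * L ^ 2 * concK8 N m * q) := by
        intro i; ring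
      rw [Finset.sum_congr rfl fun i _ => e5 i, Finset.sum_add_distrib, ← Finset.sum_mul, hp1,
        one_mul]
    rw [e4, ← hq]
    have e6 : 2 * L * σ.2.2.1 / ztotal lp lm (y0, y1) = 2 * L * q := by rw [hq]; ring
    rw [e6] at hmv
    unfold concK7
    nlinarith

/-- compensator for the constant errors -/
theorem conc_famN (c : ConcCtx m L ε lp lm y0 y1 θ n) :
    ConcCS m L ε lp lm y0 y1 n (fun k _ => (n : ℝ) - k) (fun _ _ => -1) := by
  intro k hk σ hσ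
  unfold concP
  rw [← Finset.sum_mul, conc_p_sum c hk.le hσ]
  push_cast
  linarith

/-- compensator for the errors proportional to X -/
theorem conc_famT (c : ConcCtx m L ε lp lm y0 y1 θ n) :
    ConcCS m L ε lp lm y0 y1 n (fun k σ => ((n : ℝ) - k) / ztotal lp lm (y0, y1) *
      (1 + 4 * L / ztotal lp lm (y0, y1)) ^ (n - k) * σ.2.2.1)
      (fun _ σ => -(σ.2.2.1 / ztotal lp lm (y0, y1))) := by
  have hL := c.hL
  have hZ := c.hZ
  intro k hk σ hσ
  have hp1 := conc_p_sum c hk.le hσ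
  have hmv := conc_p_move c hk.le hσ
  obtain ⟨hX1, hX2, hX3⟩ := conc_X_bd c hk.le hσ
  unfold concP
  have e4 : ∀ i, (concX ε lp lm σ i).2.2.1 = σ.2.2.1 + 2 * concM i := fun i => rfl
  obtain ⟨r, hr⟩ : ∃ r, r = 1 + 4 * L / ztotal lp lm (y0, y1) := ⟨_, rfl⟩
  have hr1 : 1 ≤ r := by
    rw [hr]
    have : 0 ≤ 4 * L / ztotal lp lm (y0, y1) := by positivity
    linarith
  have hkn : ((k + 1 : ℕ) : ℝ) ≤ n := by exact_mod_cast hk
  push_cast at hkn
  rw [← hr]
  have e5 : ∑ i, concW lp lm σ.1 i / ztotal lp lm σ.1 *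
      (((n : ℝ) - ((k + 1 : ℕ) : ℝ)) / ztotal lp lm (y0, y1) * r ^ (n - (k + 1)) *
        (concX ε lp lm σ i).2.2.1) =
      ((n : ℝ) - ((k + 1 : ℕ) : ℝ)) / ztotal lp lm (y0, y1) * r ^ (n - (k + 1)) *
      (σ.2.2.1 + 2 * ∑ i, concW lp lm σ.1 i / ztotal lp lm σ.1 * concM i) := by
    have e6 : ∀ i, concW lp lm σ.1 i / ztotal lp lm σ.1 *
      (((n : ℝ) - ((k + 1 : ℕ) : ℝ)) / ztotal lp lm (y0, y1) * r ^ (n - (k + 1)) *
        (concX ε lp lm σ i).2.2.1) =
        ((n : ℝ) - ((k + 1 : ℕ) : ℝ)) / ztotal lp lm (y0, y1) * r ^ (n - (k + 1)) *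
        (concW lp lm σ.1 i / ztotal lp lm σ.1 * σ.2.2.1 +
        2 * (concW lp lm σ.1 i / ztotal lp lm σ.1 * concM i)) := by
      intro i; rw [e4]; ring
    rw [Finset.sum_congr rfl fun i _ => e6 i, ← Finset.mul_sum, Finset.sum_add_distrib,
      ← Finset.sum_mul, hp1, one_mul, ← Finset.mul_sum]
  rw [e5]
  have h1 : σ.2.2.1 + 2 * ∑ i, concW lp lm σ.1 i / ztotal lp lm σ.1 * concM i ≤
      r * σ.2.2.1 := by
    have e7 : r * σ.2.2.1 = σ.2.2.1 + 2 * (2 * L * σ.2.2.1 / ztotal lp lm (y0, y1)) := by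
      rw [hr]; ring
    rw [e7]
    linarith
  have h2 : 0 ≤ ((n : ℝ) - ((k + 1 : ℕ) : ℝ)) / ztotal lp lm (y0, y1) * r ^ (n - (k + 1)) := by
    have : 0 ≤ (n : ℝ) - ((k + 1 : ℕ) : ℝ) := by push_cast; linarith
    positivity
  refine le_trans (mul_le_mul_of_nonneg_left h1 h2) ?_
  have e8 : r ^ (n - k) = r ^ (n - (k + 1)) * r := by
    rw [← pow_succ]
    congr 1
    omega
  have h3 : 1 ≤ r ^ (n - k) := one_le_pow₀ hr1
  have e9 : ((n : ℝ) - ((k + 1 : ℕ) : ℝ)) / ztotal lp lm (y0, y1) * r ^ (n - (k + 1)) *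
      (r * σ.2.2.1) = ((n : ℝ) - k) / ztotal lp lm (y0, y1) * r ^ (n - k) * σ.2.2.1 -
      r ^ (n - k) * (σ.2.2.1 / ztotal lp lm (y0, y1)) := by
    rw [e8]; push_cast; ring
  rw [e9]
  have h4 : 0 ≤ σ.2.2.1 / ztotal lp lm (y0, y1) := by positivity
  nlinarith

end

end Pool.Agent.Lib_helper10.CU
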