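import Pool.Agent.Lib_helper10.CU.ZO
import Pool.Agent.Lib_helper10.CU.ARC

-- block MR written by helper85
/-! Block MR: reduction of the theorem to a bound for each number of runs (helper85). -/

set_option autoImplicit false
open scoped BigOperators Topology
open Filter
noncomputable section

namespace Pool.Agent.Lib_helper10.CU

theorem mr_qA_zero {N K : ℕ} [NeZero N] (hN : 3 ≤ N) (lam : Fin K → ℝ) (hl : ∀ j, 0 < lam j)
    (key : ∀ m, 2 ≤ m → ∃ θ : ℝ, θ < 1 ∧ ∀ c : Cfg N K, qq lam m c ≤ θ) (m : ℕ) :
    ∀ c : Cfg N K, arcs c = m → qA lam (fun c => ¬ Mono c) c = 0 := by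
  induction m using Nat.strong_induction_on with
  | _ m ih =>
    intro c hc
    by_cases hm0 : m = 0
    · refine qA_zero_pr lam hl _ c ?_
      rw [not_not]
      exact mono_of_arcs_zero_pr hN c (hc.trans hm0)
    by_cases hm1 : m = 1
    · exact absurd (hc.trans hm1) (arcs_ne_one_pr hN c)
    have hm2 : 2 ≤ m := by omega
    have h1 : ∀ (k : ℕ) (c : Cfg N K), arcs c ≤ m →
        qA lam (fun c => ¬ Mono c) c ≤ sv lam (fun c => arcs c = m) k c := by
      intro k
      induction k with
      | zero =>
        intro c hc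
        rcases hc.lt_or_eq with hlt | heq
        · rw [ih _ hlt c rfl]
          exact sv_nonneg_pr lam hl _ _ _
        · have : sv lam (fun c => arcs c = m) 0 c = 1 := by simp [sv, heq]
          rw [this]
          exact qA_le_one_pr lam hl _ c
      | succ k ihk =>
        intro c hc
        rcases hc.lt_or_eq with hlt | heq
        · rw [ih _ hlt c rfl]
          exact sv_nonneg_pr lam hl _ _ _
        · by_cases hA : Mono c
          · rw [qA_zero_pr lam hl _ c (by rw [not_not]; exact hA)]
            exact sv_nonneg_pr lam hl _ _ _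
          · rw [qA_harm_pr lam hl _ c hA]
            have h2 : sv lam (fun c => arcs c = m) (k + 1) c =
                Pop lam (sv lam (fun c => arcs c = m) k) c := by
              conv_lhs => unfold sv
              rw [if_pos heq]
            rw [h2]
            unfold Pop
            refine Finset.sum_le_sum fun v _ => ?_
            refine mul_le_mul_of_nonneg_left (ihk _ ?_)
              (div_nonneg (zo_rate_nonneg hl c v) (zo_total_nonneg hl c))
            exact (arcs_fire_le_pr hN c v).trans hc
    obtain ⟨θ, hθ, hq⟩ := key m hm2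
    have h3 : Tendsto (fun n => sv lam (fun c => arcs c = m) n c) atTop (𝓝 0) :=
      zero_one_pr lam hl _ θ hθ hq c
    exact le_antisymm (ge_of_tendsto' h3 fun k => h1 k c hc.le) (qA_nonneg_pr lam hl _ c)

set_option linter.unusedVariables false in
theorem main_of_key_pr {N K : ℕ} [NeZero N] (hN : 3 ≤ N) (lam : Fin K → ℝ) (hl : ∀ j, 0 < lam j)
    (key : ∀ m, 2 ≤ m → ∃ θ : ℝ, θ < 1 ∧ ∀ c : Cfg N K, qq lam m c ≤ θ) (c : Cfg N K)
    (hc : 0 < size c) :
    Tendsto (fun n => sv lam (fun c => ¬ Mono c) n c) atTop (𝓝 0) := by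
  have h1 := zo_tendsto lam hl (fun c => ¬ Mono c) c
  rwa [mr_qA_zero hN lam hl key _ c rfl] at h1

alias main_of_key := main_of_key_pr

end Pool.Agent.Lib_helper10.CU
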