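import Pool.Agent.Lib_helper10.CU.KeyD
import Pool.Agent.Lib_helper10.CU.MR

set_option autoImplicit false
open scoped BigOperators Topology
open Filter
noncomputable section

namespace Pool.Agent.Lib_helper10.CU

/-- The jump chain: almost surely some configuration is of one type. -/
theorem single_survivor_chain {N K : ℕ} [NeZero N] (hN : 3 ≤ N) (lam : Fin K → ℝ)
    (hl : ∀ j, 0 < lam j) (c : Cfg N K) (hc : 0 < size c) :
    Tendsto (fun n => sv lam (fun c => ¬ Mono c) n c) atTop (𝓝 0) :=
  main_of_key hN lam hl (fun m hm => key_pr hN lam hl m hm) c hc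

end Pool.Agent.Lib_helper10.CU
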