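import Pool.Agent.Lib_helper10.CU.INCB

-- block GD written by helper3
set_option autoImplicit false
open scoped BigOperators Topology
open Filter
noncomputable section

namespace Pool.Agent.Lib_helper10.CU

/-! common lemmas for GROW and DET -/

theorem gd_abs_le {N : ℕ} [NeZero N] (x : Vec N) (w : ZMod N) : |x w| ≤ ‖x‖ := by
  have := norm_le_pi_norm x w
  rwa [Real.norm_eq_abs] at this

theorem gd_sgn_abs {x : ℝ} (h : x = 1 ∨ x = -1) : |x| = 1 := by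
  rcases h with h | h <;> rw [h] <;> simp

theorem gd_nb_norm {N : ℕ} [NeZero N] (ε : Vec N) (hε : IsSgn ε) (x : Vec N) :
    ‖nb ε x‖ ≤ 2 * ‖x‖ := by
  rw [pi_norm_le_iff_of_nonneg (by positivity)]
  intro w
  rw [Real.norm_eq_abs]
  unfold nb
  calc |ε (w - 1) * x (w - 1) + ε w * x (w + 1)|
      ≤ |ε (w - 1) * x (w - 1)| + |ε w * x (w + 1)| := abs_add_le _ _
    _ = |x (w - 1)| + |x (w + 1)| := by
        rw [abs_mul, abs_mul, gd_sgn_abs (hε _), gd_sgn_abs (hε _), one_mul, one_mul]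
    _ ≤ ‖x‖ + ‖x‖ := add_le_add (gd_abs_le x _) (gd_abs_le x _)
    _ = 2 * ‖x‖ := by ring

theorem gd_nb_sub {N : ℕ} (ε x y : Vec N) : nb ε (x - y) = nb ε x - nb ε y := by
  funext w
  simp only [nb, Pi.sub_apply]
  ring

theorem gd_nb_smul {N : ℕ} (ε x : Vec N) (a : ℝ) : nb ε (a • x) = a • nb ε x := by
  funext w
  simp only [nb, Pi.smul_apply, smul_eq_mul]
  ring

theorem gd_seq (a : ℕ → ℝ) (L θ : ℝ) (n : ℕ) (hL : 0 ≤ L) (hθ : 0 ≤ θ) (ha : 0 ≤ a 0)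
    (h : ∀ k < n, a (k + 1) ≤ (1 + L * θ) * a k) (hn : n * θ ≤ 2) :
    ∀ k ≤ n, a k ≤ Real.exp (2 * L) * a 0 := by
  have h1 : ∀ k ≤ n, a k ≤ (1 + L * θ) ^ k * a 0 := by
    intro k
    induction k with
    | zero => intro _; simp
    | succ k ih =>
      intro hk
      have := h k (by omega)
      have h2 := ih (by omega)
      calc a (k + 1) ≤ (1 + L * θ) * a k := this
        _ ≤ (1 + L * θ) * ((1 + L * θ) ^ k * a 0) :=
            mul_le_mul_of_nonneg_left h2 (by positivity)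
        _ = (1 + L * θ) ^ (k + 1) * a 0 := by ring
  intro k hk
  refine (h1 k hk).trans (mul_le_mul_of_nonneg_right ?_ ha)
  calc (1 + L * θ) ^ k ≤ (Real.exp (L * θ)) ^ k := by
        apply pow_le_pow_left₀ (by positivity)
        have := Real.add_one_le_exp (L * θ)
        linarith
    _ = Real.exp (k * (L * θ)) := by rw [← Real.exp_nat_mul]
    _ ≤ Real.exp (2 * L) := by
        apply Real.exp_le_exp.2
        have h3 : (k : ℝ) * θ ≤ 2 := by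
          refine le_trans ?_ hn
          exact mul_le_mul_of_nonneg_right (by exact_mod_cast hk) hθ
        nlinarith [mul_le_mul_of_nonneg_left h3 hL]

/-- one step with exact multipliers -/
theorem gd_step {N : ℕ} [NeZero N] (ε : Vec N) (hε : IsSgn ε) (lmin lmax C0 θ W : ℝ)
    (hθ : 0 ≤ θ) (hC : 0 ≤ C0) (hW : 0 ≤ W)
    (z z' γ : Vec N) (hγ : ∀ w, ∃ g, lmin ≤ g ∧ g ≤ lmax ∧ |γ w - g * z w| ≤ C0 * θ * W)
    (hz : ‖z' - z - θ • nb ε γ‖ ≤ C0 * θ ^ 2 * W) :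
    ∃ g : Vec N, (∀ w, lmin ≤ g w ∧ g w ≤ lmax) ∧
      ‖z' - z - θ • nb ε (g * z)‖ ≤ 3 * C0 * θ ^ 2 * W := by
  choose g hg1 hg2 hg3 using hγ
  refine ⟨g, fun w => ⟨hg1 w, hg2 w⟩, ?_⟩
  have h1 : ‖γ - g * z‖ ≤ C0 * θ * W := by
    rw [pi_norm_le_iff_of_nonneg (by positivity)]
    intro w
    rw [Real.norm_eq_abs]
    exact hg3 w
  have h2 : z' - z - θ • nb ε (g * z) = (z' - z - θ • nb ε γ) + θ • nb ε (γ - g * z) := by
    rw [gd_nb_sub, smul_sub]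
    abel
  rw [h2]
  calc ‖(z' - z - θ • nb ε γ) + θ • nb ε (γ - g * z)‖
      ≤ ‖z' - z - θ • nb ε γ‖ + ‖θ • nb ε (γ - g * z)‖ := norm_add_le _ _
    _ ≤ C0 * θ ^ 2 * W + θ * (2 * (C0 * θ * W)) := by
        refine add_le_add hz ?_
        rw [norm_smul, Real.norm_eq_abs, abs_of_nonneg hθ]
        exact mul_le_mul_of_nonneg_left ((gd_nb_norm ε hε _).trans (by linarith)) hθ
    _ = 3 * C0 * θ ^ 2 * W := by ring

/-- growth of the norm in one step -/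
theorem gd_growth {N : ℕ} [NeZero N] (ε : Vec N) (hε : IsSgn ε) (lmin lmax C0 θ : ℝ)
    (h0 : 0 < lmin) (hθ : 0 ≤ θ) (hθ1 : θ ≤ 1) (hC : 0 ≤ C0)
    (z z' γ : Vec N) (hγ : ∀ w, ∃ g, lmin ≤ g ∧ g ≤ lmax ∧ |γ w - g * z w| ≤ C0 * θ * ‖z‖)
    (hz : ‖z' - z - θ • nb ε γ‖ ≤ C0 * θ ^ 2 * ‖z‖) :
    ‖z'‖ ≤ (1 + (2 * lmax + 3 * C0) * θ) * ‖z‖ := by
  have hz0 := norm_nonneg z
  have hγn : ‖γ‖ ≤ (lmax + C0 * θ) * ‖z‖ := by
    have hlm : 0 ≤ lmax := by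
      obtain ⟨g, h1, h2, _⟩ := hγ 0
      linarith
    rw [pi_norm_le_iff_of_nonneg (by positivity)]
    intro w
    obtain ⟨g, h1, h2, h3⟩ := hγ w
    rw [Real.norm_eq_abs]
    have h4 : |g * z w| ≤ lmax * ‖z‖ := by
      rw [abs_mul, abs_of_nonneg (h0.le.trans h1)]
      exact mul_le_mul h2 (gd_abs_le z w) (abs_nonneg _) (by linarith)
    calc |γ w| = |(γ w - g * z w) + g * z w| := by ring_nf
      _ ≤ |γ w - g * z w| + |g * z w| := abs_add_le _ _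
      _ ≤ C0 * θ * ‖z‖ + lmax * ‖z‖ := add_le_add h3 h4
      _ = (lmax + C0 * θ) * ‖z‖ := by ring
  have h2 : z' = (z' - z - θ • nb ε γ) + z + θ • nb ε γ := by abel
  calc ‖z'‖ = ‖(z' - z - θ • nb ε γ) + z + θ • nb ε γ‖ := by rw [← h2]
    _ ≤ ‖(z' - z - θ • nb ε γ) + z‖ + ‖θ • nb ε γ‖ := norm_add_le _ _
    _ ≤ ‖z' - z - θ • nb ε γ‖ + ‖z‖ + ‖θ • nb ε γ‖ := by
        linarith [norm_add_le (z' - z - θ • nb ε γ) z]
    _ ≤ C0 * θ ^ 2 * ‖z‖ + ‖z‖ + θ * (2 * ((lmax + C0 * θ) * ‖z‖)) := by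
        refine add_le_add (add_le_add hz le_rfl) ?_
        rw [norm_smul, Real.norm_eq_abs, abs_of_nonneg hθ]
        exact mul_le_mul_of_nonneg_left ((gd_nb_norm ε hε _).trans (by linarith)) hθ
    _ = (1 + 2 * lmax * θ + 3 * C0 * (θ * θ)) * ‖z‖ := by ring
    _ ≤ (1 + (2 * lmax + 3 * C0) * θ) * ‖z‖ := by
        apply mul_le_mul_of_nonneg_right _ hz0
        have : θ * θ ≤ θ := by nlinarith
        nlinarith [mul_le_mul_of_nonneg_left this hC]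

theorem gd_l1_le {N : ℕ} [NeZero N] (x : Vec N) : l1 x ≤ N * ‖x‖ := by
  unfold l1
  calc ∑ v, |x v| ≤ ∑ _v : ZMod N, ‖x‖ := Finset.sum_le_sum fun v _ => gd_abs_le x v
    _ = N * ‖x‖ := by rw [Finset.sum_const, Finset.card_univ, ZMod.card, nsmul_eq_mul]

end Pool.Agent.Lib_helper10.CU
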