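import Pool.Agent.Lib_helper10.CU.MARGIN
import Pool.Agent.Lib_helper10.CU.GD

-- block DET written by helper3
set_option autoImplicit false
open scoped BigOperators Topology
open Filter
noncomputable section

namespace Pool.Agent.Lib_helper10.CU

/-! ## DET -/

/-- one window for `z = y - a h` -/
theorem det_window {N : ℕ} [NeZero N] (lmin lmax C0 ea : ℝ) (h0 : 0 < lmin)
    (h1 : lmin ≤ lmax) (hC : 0 < C0) (he : 0 < ea) (θ : ℝ) (hθ : 0 < θ) (hθ1 : θ ≤ 1)
    (ε : Vec N) (hε : IsSgn ε) (n : ℕ) (hn2 : n * θ ≤ 2)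
    (e1 : ℝ) (he1 : 0 < e1)
    (hmargin : ∀ (z g : ℕ → Vec N) (Z : ℝ), 0 < Z → InC ε (z 0) →
      ea / (ea + 2) * Real.exp (-(2 * (2 * lmax + 3 * C0))) * Z ≤ ‖z 0‖ → ‖z 0‖ ≤ Z →
      (∀ k < n, (∀ w, lmin ≤ g k w ∧ g k w ≤ lmax) ∧
        ‖z (k + 1) - z k - θ • nb ε (g k * z k)‖ ≤ (3 * C0) * θ ^ 2 * Z) →
      ∀ x : Vec N, ‖x - z n‖ ≤ e1 * Z → InC ε x)
    (y h : ℕ → Vec N)
    (hy0 : ∀ x, InC ε x → ea * ‖y 0‖ ≤ ‖x - y 0‖) (hh0 : InC ε (h 0)) (hh1 : h 0 ≠ 0)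
    (hw : ∀ k < n, WT ε lmin lmax C0 θ (y k) (h k) (y (k + 1)) (h (k + 1)))
    (a a' : ℝ) (ha : 0 ≤ a) (haa : |a - a'| ≤ e1 * a) (hin : InC ε (y 0 - a • h 0))
    (hpos : 0 < ‖y 0‖) :
    InC ε (y n - a' • h n) := by
  have hlmax : 0 < lmax := h0.trans_le h1
  set L : ℝ := 2 * lmax + 3 * C0 with hL
  have hLpos : 0 < L := by positivity
  have hyg : ∀ k < n, ‖y (k + 1)‖ ≤ (1 + L * θ) * ‖y k‖ := by
    intro k hk
    obtain ⟨φ, γ, w1, w2, w3, w4⟩ := hw k hk
    refine gd_growth ε hε lmin lmax C0 θ h0 hθ.le hθ1 hC.le (y k) (y (k + 1)) φ ?_ w1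
    intro w
    obtain ⟨g, g1, g2, g3⟩ := w3 0 le_rfl w
    refine ⟨g, g1, g2, ?_⟩
    simpa using g3
  have hhg : ∀ k < n, ‖h (k + 1)‖ ≤ (1 + L * θ) * ‖h k‖ := by
    intro k hk
    obtain ⟨φ, γ, w1, w2, w3, w4⟩ := hw k hk
    exact gd_growth ε hε lmin lmax C0 θ h0 hθ.le hθ1 hC.le (h k) (h (k + 1)) γ w4 w2
  have hys := gd_seq (fun k => ‖y k‖) L θ n hLpos.le hθ.le (norm_nonneg _) hyg hn2
  have hhs := gd_seq (fun k => ‖h k‖) L θ n hLpos.le hθ.le (norm_nonneg _) hhg hn2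
  set E : ℝ := Real.exp (2 * L) with hE
  have hE1 : 1 ≤ E := Real.one_le_exp (by positivity)
  set W : ℕ → ℝ := fun k => ‖y k‖ + a * ‖h k‖ with hW
  have hW0 : 0 < W 0 := by
    have : 0 ≤ a * ‖h 0‖ := mul_nonneg ha (norm_nonneg _)
    simp only [hW]; linarith
  have hWs : ∀ k ≤ n, W k ≤ E * W 0 := by
    intro k hk
    have e1 := hys k hk
    have e2 := mul_le_mul_of_nonneg_left (hhs k hk) ha
    simp only [hW]
    linarith
  have hexp : ∀ k, ∃ g : Vec N, k < n → (∀ w, lmin ≤ g w ∧ g w ≤ lmax) ∧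
      ‖(y (k + 1) - a • h (k + 1)) - (y k - a • h k) - θ • nb ε (g * (y k - a • h k))‖ ≤
        3 * C0 * θ ^ 2 * W k := by
    intro k
    by_cases hk : k < n
    · obtain ⟨φ, γ, w1, w2, w3, w4⟩ := hw k hk
      have hWk : 0 ≤ W k := by
        simp only [hW]
        exact add_nonneg (norm_nonneg _) (mul_nonneg ha (norm_nonneg _))
      obtain ⟨g, hg⟩ := gd_step ε hε lmin lmax C0 θ (W k) hθ.le hC.le hWk (y k - a • h k)
        (y (k + 1) - a • h (k + 1)) (φ - a • γ) (by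
          intro w
          obtain ⟨g, g1, g2, g3⟩ := w3 a ha w
          exact ⟨g, g1, g2, by simpa using g3⟩) (by
          have e3 : (y (k + 1) - a • h (k + 1)) - (y k - a • h k) - θ • nb ε (φ - a • γ) =
              (y (k + 1) - y k - θ • nb ε φ) - a • (h (k + 1) - h k - θ • nb ε γ) := by
            rw [gd_nb_sub, gd_nb_smul]
            simp only [smul_sub, smul_comm a θ]
            abel
          rw [e3]
          calc ‖(y (k + 1) - y k - θ • nb ε φ) - a • (h (k + 1) - h k - θ • nb ε γ)‖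
              ≤ ‖y (k + 1) - y k - θ • nb ε φ‖ + ‖a • (h (k + 1) - h k - θ • nb ε γ)‖ :=
                norm_sub_le _ _
            _ ≤ C0 * θ ^ 2 * ‖y k‖ + a * (C0 * θ ^ 2 * ‖h k‖) := by
                rw [norm_smul, Real.norm_eq_abs, abs_of_nonneg ha]
                exact add_le_add w1 (mul_le_mul_of_nonneg_left w2 ha)
            _ = C0 * θ ^ 2 * W k := by simp only [hW]; ring)
      exact ⟨g, fun _ => hg⟩
    · exact ⟨0, fun h => absurd h hk⟩
  choose g hg using hexp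
  refine hmargin (fun k => y k - a • h k) g (E * W 0) (by positivity) hin ?_ ?_ ?_ _ ?_
  · have e4 : ea / (ea + 2) * Real.exp (-(2 * L)) * (E * W 0) = ea / (ea + 2) * W 0 := by
      have : Real.exp (-(2 * L)) * E = 1 := by rw [hE, ← Real.exp_add]; simp
      calc ea / (ea + 2) * Real.exp (-(2 * L)) * (E * W 0)
          = ea / (ea + 2) * (Real.exp (-(2 * L)) * E) * W 0 := by ring
        _ = _ := by rw [this, mul_one]
    rw [e4, div_mul_eq_mul_div, div_le_iff₀ (by positivity)]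
    have e5 := hy0 (a • h 0) (inC_smul_pr ε _ a hh0)
    have e6 : ‖a • h 0 - y 0‖ = ‖y 0 - a • h 0‖ := norm_sub_rev _ _
    rw [e6] at e5
    have e7 : a * ‖h 0‖ ≤ ‖y 0‖ + ‖y 0 - a • h 0‖ := by
      calc a * ‖h 0‖ = ‖a • h 0‖ := by rw [norm_smul, Real.norm_eq_abs, abs_of_nonneg ha]
        _ = ‖y 0 - (y 0 - a • h 0)‖ := by rw [sub_sub_cancel]
        _ ≤ ‖y 0‖ + ‖y 0 - a • h 0‖ := norm_sub_le _ _
    have e8 : ea * W 0 = ea * ‖y 0‖ + ea * (a * ‖h 0‖) := by simp only [hW]; ring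
    have e9 := mul_le_mul_of_nonneg_left e7 he.le
    rw [e8]
    nlinarith
  · calc ‖y 0 - a • h 0‖ ≤ ‖y 0‖ + ‖a • h 0‖ := norm_sub_le _ _
      _ = W 0 := by rw [norm_smul, Real.norm_eq_abs, abs_of_nonneg ha]
      _ ≤ E * W 0 := by nlinarith
  · intro k hk
    obtain ⟨hg1, hg2⟩ := hg k hk
    refine ⟨hg1, hg2.trans ?_⟩
    exact mul_le_mul_of_nonneg_left (hWs k hk.le) (by positivity)
  · have e10 : y n - a' • h n - (y n - a • h n) = (a - a') • h n := by
      rw [sub_smul]; abel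
    rw [e10, norm_smul, Real.norm_eq_abs]
    calc |a - a'| * ‖h n‖ ≤ (e1 * a) * (E * ‖h 0‖) :=
          mul_le_mul haa (hhs n le_rfl) (norm_nonneg _) (by positivity)
      _ = e1 * (E * (a * ‖h 0‖)) := by ring
      _ ≤ e1 * (E * W 0) := by
          apply mul_le_mul_of_nonneg_left _ he1.le
          apply mul_le_mul_of_nonneg_left _ (by positivity)
          simp only [hW]; linarith

theorem det_pr {N : ℕ} [NeZero N] (hN : 3 ≤ N) (lmin lmax : ℝ) (h0 : 0 < lmin)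
    (h1 : lmin ≤ lmax) (C0 ea : ℝ) (hC : 0 < C0) (he : 0 < ea) :
    ∃ θ0 : ℝ, 0 < θ0 ∧ ∀ θ : ℝ, 0 < θ → θ ≤ θ0 → ∀ A : ℝ, 0 < A → ∃ J : ℕ,
      ∀ ε : Vec N, IsSgn ε → ∀ y h : ℕ → Vec N,
      (∀ k ≤ J, (∀ x, InC ε x → ea * ‖y k‖ ≤ ‖x - y k‖) ∧ InC ε (h k) ∧ h k ≠ 0 ∧
        ‖h k‖ ≤ ‖y k‖) →
      (∀ k < J, WT ε lmin lmax C0 θ (y k) (h k) (y (k + 1)) (h (k + 1))) →
      ‖y 0‖ ≤ A * ‖h 0‖ → False := by
  have hlmax : 0 < lmax := h0.trans_le h1
  set L : ℝ := 2 * lmax + 3 * C0 with hL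
  have hLpos : 0 < L := by positivity
  obtain ⟨θ1, hθ1, e1, he1, hm1⟩ := margin hN lmin lmax h0 h1 (3 * C0)
    (ea / (ea + 2) * Real.exp (-(2 * L))) (by positivity) (by positivity)
  obtain ⟨θ2, hθ2, e2, he2, hm2⟩ := margin hN lmin lmax h0 h1 (3 * C0) (Real.exp (-(2 * L)))
    (by positivity) (Real.exp_pos _)
  refine ⟨min (min θ1 θ2) 1, lt_min (lt_min hθ1 hθ2) one_pos, ?_⟩
  intro θ hθ hθ0 A hA
  have hθ1' : θ ≤ θ1 := hθ0.trans ((min_le_left _ _).trans (min_le_left _ _))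
  have hθ2' : θ ≤ θ2 := hθ0.trans ((min_le_left _ _).trans (min_le_right _ _))
  have hθ3' : θ ≤ 1 := hθ0.trans (min_le_right _ _)
  set n : ℕ := ⌈1 / θ⌉₊ with hn
  have hn1 : 1 ≤ n * θ := by
    have := Nat.le_ceil (1 / θ)
    rw [div_le_iff₀ hθ] at this
    exact this
  have hn2 : n * θ ≤ 2 := by
    have := (Nat.ceil_lt_add_one (a := 1 / θ) (by positivity)).le
    have h3 : (n : ℝ) * θ ≤ (1 / θ + 1) * θ := mul_le_mul_of_nonneg_right this hθ.le
    have h4 : (1 / θ + 1) * θ = 1 + θ := by field_simp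
    linarith
  set e' : ℝ := min e1 (1 / 2) with he'
  have he'pos : 0 < e' := lt_min he1 (by norm_num)
  have he'1 : e' ≤ 1 / 2 := min_le_right _ _
  obtain ⟨m, hm⟩ : ∃ m : ℕ, (1 - e') ^ m * (A / e2) < ea := by
    have ht : Tendsto (fun m : ℕ => (1 - e') ^ m * (A / e2)) atTop (𝓝 (0 * (A / e2))) :=
      (tendsto_pow_atTop_nhds_zero_of_lt_one (by linarith) (by linarith)).mul_const _
    rw [zero_mul] at ht
    exact (ht.eventually (gt_mem_nhds he)).exists
  refine ⟨(m + 1) * n, ?_⟩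
  intro ε hε y h hyh hw hA0
  -- base
  have hbase : ∀ a, A / e2 ≤ a → InC ε (y n - a • h n) := by
    intro a ha
    have hapos : 0 < a := lt_of_lt_of_le (by positivity) ha
    have hnJ : n ≤ (m + 1) * n := by nlinarith
    have hw' : ∀ k < n, WT ε lmin lmax C0 θ (y k) (h k) (y (k + 1)) (h (k + 1)) :=
      fun k hk => hw k (by omega)
    have hyg : ∀ k < n, ‖y (k + 1)‖ ≤ (1 + L * θ) * ‖y k‖ := by
      intro k hk
      obtain ⟨φ, γ, w1, w2, w3, w4⟩ := hw' k hk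
      refine gd_growth ε hε lmin lmax C0 θ h0 hθ.le hθ3' hC.le (y k) (y (k + 1)) φ ?_ w1
      intro w
      obtain ⟨g, g1, g2, g3⟩ := w3 0 le_rfl w
      refine ⟨g, g1, g2, ?_⟩
      simpa using g3
    have hhg : ∀ k < n, ‖h (k + 1)‖ ≤ (1 + L * θ) * ‖h k‖ := by
      intro k hk
      obtain ⟨φ, γ, w1, w2, w3, w4⟩ := hw' k hk
      exact gd_growth ε hε lmin lmax C0 θ h0 hθ.le hθ3' hC.le (h k) (h (k + 1)) γ w4 w2
    have hys := gd_seq (fun k => ‖y k‖) L θ n hLpos.le hθ.le (norm_nonneg _) hyg hn2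
    have hhs := gd_seq (fun k => ‖h k‖) L θ n hLpos.le hθ.le (norm_nonneg _) hhg hn2
    have hexp : ∀ k, ∃ g : Vec N, k < n → (∀ w, lmin ≤ g w ∧ g w ≤ lmax) ∧
        ‖h (k + 1) - h k - θ • nb ε (g * h k)‖ ≤ 3 * C0 * θ ^ 2 * ‖h k‖ := by
      intro k
      by_cases hk : k < n
      · obtain ⟨φ, γ, w1, w2, w3, w4⟩ := hw' k hk
        obtain ⟨g, hg⟩ := gd_step ε hε lmin lmax C0 θ ‖h k‖ hθ.le hC.le (norm_nonneg _) _ _ _ w4 w2
        exact ⟨g, fun _ => hg⟩
      · exact ⟨0, fun h => absurd h hk⟩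
    choose g hg using hexp
    have hh0pos : 0 < ‖h 0‖ := norm_pos_iff.2 (hyh 0 (by omega)).2.2.1
    have hcone : InC ε (h n - (1 / a) • y n) := by
      refine hm2 ε hε θ hθ hθ2' n hn1 hn2 h g (Real.exp (2 * L) * ‖h 0‖) (by positivity)
        (hyh 0 (by omega)).2.1 ?_ ?_ ?_ _ ?_
      · have : Real.exp (-(2 * L)) * (Real.exp (2 * L) * ‖h 0‖) = ‖h 0‖ := by
          rw [← mul_assoc, ← Real.exp_add]; simp
        rw [this]
      · have : 1 ≤ Real.exp (2 * L) := Real.one_le_exp (by positivity)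
        nlinarith
      · intro k hk
        obtain ⟨hg1, hg2⟩ := hg k hk
        refine ⟨hg1, hg2.trans ?_⟩
        exact mul_le_mul_of_nonneg_left (hhs k hk.le) (by positivity)
      · have e3 : h n - (1 / a) • y n - h n = -((1 / a) • y n) := by abel
        rw [e3, norm_neg, norm_smul, Real.norm_eq_abs, abs_of_pos (by positivity)]
        have e4 : ‖y n‖ ≤ Real.exp (2 * L) * (A * ‖h 0‖) :=
          (hys n le_rfl).trans (mul_le_mul_of_nonneg_left hA0 (Real.exp_pos _).le)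
        have e5 : A ≤ a * e2 := (div_le_iff₀ he2).1 ha
        rw [one_div, inv_mul_le_iff₀ hapos]
        calc ‖y n‖ ≤ Real.exp (2 * L) * (A * ‖h 0‖) := e4
          _ ≤ Real.exp (2 * L) * ((a * e2) * ‖h 0‖) := by gcongr
          _ = a * (e2 * (Real.exp (2 * L) * ‖h 0‖)) := by ring
    have := inC_smul_pr ε _ (-a) hcone
    have e6 : (-a) • (h n - (1 / a) • y n) = y n - a • h n := by
      rw [smul_sub, smul_smul]
      have : -a * (1 / a) = -1 := by field_simp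
      rw [this, neg_smul, neg_smul, one_smul]
      abel
    rwa [e6] at this
  -- induction
  have hind : ∀ j, j ≤ m → ∀ a, (1 - e') ^ j * (A / e2) ≤ a →
      InC ε (y ((j + 1) * n) - a • h ((j + 1) * n)) := by
    intro j
    induction j with
    | zero =>
      intro _ a ha
      rw [zero_add, one_mul]
      exact hbase a (by simpa using ha)
    | succ j ih =>
      intro hj a'' ha''
      have hih := ih (by omega)
      set k0 := (j + 1) * n with hk0
      have hk1 : (j + 1 + 1) * n = k0 + n := by rw [hk0]; ring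
      have hk2 : k0 + n ≤ (m + 1) * n := by
        rw [← hk1]; exact Nat.mul_le_mul_right n (by omega)
      set aj : ℝ := (1 - e') ^ j * (A / e2) with haj
      have hajpos : 0 < aj := by
        have : 0 < 1 - e' := by linarith
        positivity
      have hstep' : (1 - e') * aj ≤ a'' := by
        calc (1 - e') * aj = (1 - e') ^ (j + 1) * (A / e2) := by rw [haj]; ring
          _ ≤ a'' := ha''
      obtain ⟨hy1, hy2, hy3, hy4⟩ := hyh k0 (by omega)
      have hk0h : 0 < ‖h k0‖ := norm_pos_iff.2 hy3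
      rw [hk1]
      refine det_window lmin lmax C0 ea h0 h1 hC he θ hθ hθ3' ε hε n hn2 e1 he1
        (fun z g Z => hm1 ε hε θ hθ hθ1' n hn1 hn2 z g Z) (fun k => y (k0 + k))
        (fun k => h (k0 + k)) hy1 hy2 hy3 (fun k hk => hw (k0 + k) (by omega))
        (max a'' aj) a'' (hajpos.le.trans (le_max_right _ _)) ?_ (hih _ (le_max_right _ _))
        (by simpa using hk0h.trans_le hy4)
      rcases le_total a'' aj with hle | hle
      · rw [max_eq_right hle, abs_of_nonneg (by linarith)]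
        have : e' * aj ≤ e1 * aj := mul_le_mul_of_nonneg_right (min_le_left _ _) hajpos.le
        linarith
      · rw [max_eq_left hle, sub_self, abs_zero]
        have : 0 < a'' := hajpos.trans_le hle
        positivity
  have hfin := hind m le_rfl _ le_rfl
  obtain ⟨hy1, hy2, hy3, hy4⟩ := hyh ((m + 1) * n) le_rfl
  have hhp : 0 < ‖h ((m + 1) * n)‖ := norm_pos_iff.2 hy3
  have h5 := hy1 _ hfin
  have hampos : 0 < (1 - e') ^ m * (A / e2) := by
    have : 0 < 1 - e' := by linarith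
    positivity
  have h6 : y ((m + 1) * n) - ((1 - e') ^ m * (A / e2)) • h ((m + 1) * n) - y ((m + 1) * n) =
      -(((1 - e') ^ m * (A / e2)) • h ((m + 1) * n)) := by abel
  rw [h6, norm_neg, norm_smul, Real.norm_eq_abs, abs_of_pos hampos] at h5
  have h7 : ea * ‖h ((m + 1) * n)‖ ≤ ea * ‖y ((m + 1) * n)‖ :=
    mul_le_mul_of_nonneg_left hy4 he.le
  have h8 := mul_lt_mul_of_pos_right hm hhp
  linarith

alias det := det_pr

end Pool.Agent.Lib_helper10.CU
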