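import Pool.Agent.Lib_helper10.CU.Urn

/-!
Competing urns on the cycle `C_N` (vertices `ZMod N`, `N ≥ 3`), `K` types, rates `lam j > 0`.
Definitions shared by all blocks of the proof of MP_c1a6e4_pr.
-/

set_option autoImplicit false
open scoped BigOperators
noncomputable section

namespace Pool.Agent.Lib_helper10.CU

/-- Total number of balls. -/
def size {N K : ℕ} [NeZero N] (c : Cfg N K) : ℕ := ∑ v, cnt c v

/-- All balls present are of one type. -/
def Mono {N K : ℕ} (c : Cfg N K) : Prop :=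
  ∀ (v w : ZMod N) (i j : Fin K) (k l : ℕ), c v = some (i, k) → c w = some (j, l) → i = j

/-- One step of the jump chain (expectation operator). -/
def Pop {N K : ℕ} [NeZero N] (lam : Fin K → ℝ) (g : Cfg N K → ℝ) (c : Cfg N K) : ℝ :=
  ∑ v, rate lam c v / total lam c * g (fire c v)

open Classical in
/-- Probability that the jump chain started at `c` stays in `A` at times `0..n`. -/
def sv {N K : ℕ} [NeZero N] (lam : Fin K → ℝ) (A : Cfg N K → Prop) : ℕ → Cfg N K → ℝ
  | 0, c => if A c then 1 else 0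
  | n + 1, c => if A c then Pop lam (sv lam A n) c else 0

/-- Probability that the jump chain stays in `A` forever. -/
def qA {N K : ℕ} [NeZero N] (lam : Fin K → ℝ) (A : Cfg N K → Prop) (c : Cfg N K) : ℝ :=
  ⨅ n, sv lam A n c

/-! ### Number of runs -/

open Classical in
/-- number of type changes of a filling -/
def chg {N K : ℕ} [NeZero N] (t : ZMod N → Fin K) : ℕ :=
  (Finset.univ.filter (fun v => t v ≠ t (v + 1))).card

/-- `t` is a filling of `c`: it gives every nonempty urn its type. -/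
def Fill {N K : ℕ} (c : Cfg N K) (t : ZMod N → Fin K) : Prop :=
  ∀ v j k, c v = some (j, k) → t v = j

/-- number of runs: least number of type changes of a filling -/
def arcs {N K : ℕ} [NeZero N] (c : Cfg N K) : ℕ :=
  sInf {m | ∃ t, Fill c t ∧ chg t = m}

/-- Probability that the number of runs equals `m` forever. -/
def qq {N K : ℕ} [NeZero N] (lam : Fin K → ℝ) (m : ℕ) (c : Cfg N K) : ℝ :=
  qA lam (fun c => arcs c = m) c

/-! ### Rayleigh quotient of a configuration -/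

/-- sign relation of two urns: `1` same type, `-1` different types, `0` if one is empty -/
def sm {N K : ℕ} (c : Cfg N K) (v w : ZMod N) : ℝ :=
  match c v, c w with
  | some (i, _), some (j, _) => if i = j then 1 else -1
  | _, _ => 0

def E1 {N K : ℕ} [NeZero N] (lam : Fin K → ℝ) (c : Cfg N K) : ℝ :=
  2 * ∑ v, sm c v (v + 1) * rate lam c v * rate lam c (v + 1)

def E0 {N K : ℕ} [NeZero N] (lam : Fin K → ℝ) (c : Cfg N K) : ℝ :=
  ∑ v, rate lam c v * cnt c v

/-- Rayleigh quotient -/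
def Rc {N K : ℕ} [NeZero N] (lam : Fin K → ℝ) (c : Cfg N K) : ℝ := E1 lam c / E0 lam c

/-- net inflow at `w` -/
def bb {N K : ℕ} (lam : Fin K → ℝ) (c : Cfg N K) (w : ZMod N) : ℝ :=
  match c w with
  | some _ => sm c (w - 1) w * rate lam c (w - 1) + sm c w (w + 1) * rate lam c (w + 1)
  | none => if sm c (w - 1) (w + 1) = -1 then |rate lam c (w - 1) - rate lam c (w + 1)|
      else rate lam c (w - 1) + rate lam c (w + 1)

/-- defect (squared, not normalised) -/
def dd {N K : ℕ} [NeZero N] (lam : Fin K → ℝ) (c : Cfg N K) : ℝ :=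
  ∑ w, (bb lam c w - Rc lam c * cnt c w) ^ 2

/-! ### Vectors on the twisted cycle -/

abbrev Vec (N : ℕ) := ZMod N → ℝ

def IsSgn {N : ℕ} (s : Vec N) : Prop := ∀ v, s v = 1 ∨ s v = -1

/-- twisted adjacency operator -/
def nb {N : ℕ} (ε : Vec N) (x : Vec N) : Vec N :=
  fun w => ε (w - 1) * x (w - 1) + ε w * x (w + 1)

/-- twisted ring: what one firing (of sign +) at `v` adds -/
def ring {N : ℕ} (ε : Vec N) (v : ZMod N) : Vec N :=
  fun w => (if w = v + 1 then ε v else 0) + (if w = v - 1 then ε (v - 1) else 0)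

/-- The cone of vectors with at most one (twisted) sign change. -/
def InC {N : ℕ} (ε z : Vec N) : Prop :=
  ∃ s : Vec N, IsSgn s ∧ (∀ v, 0 ≤ s v * z v) ∧
    ∀ v w, s (v + 1) ≠ ε v * s v → s (w + 1) ≠ ε w * s w → v = w

def ip {N : ℕ} [NeZero N] (x y : Vec N) : ℝ := ∑ v, x v * y v

def l1 {N : ℕ} [NeZero N] (x : Vec N) : ℝ := ∑ v, |x v|

/-- `f = g • y` coordinatewise with `g` in `[lmin, lmax]` -/
def Rg {N : ℕ} (lmin lmax : ℝ) (y f : Vec N) : Prop :=
  ∀ w, ∃ g, lmin ≤ g ∧ g ≤ lmax ∧ f w = g * y w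

/-- Rayleigh quotient of a vector `y` with rate vector `f` -/
def RR {N : ℕ} [NeZero N] (ε y f : Vec N) : ℝ := ip f (nb ε f) / ip y f

/-- normalised defect -/
def df {N : ℕ} [NeZero N] (ε y f : Vec N) : ℝ := ‖nb ε f - RR ε y f • y‖ / ‖y‖

/-- slopes of `f' - f` with respect to `y' - y` lie in `[lmin,lmax]` and are the current ones up to
`τ‖y‖` -/
def Slope {N : ℕ} [NeZero N] (lmin lmax τ : ℝ) (y f y' f' : Vec N) : Prop :=
  ∀ w, ∃ g, lmin ≤ g ∧ g ≤ lmax ∧ f' w - f w = g * (y' w - y w) ∧ |g * y w - f w| ≤ τ * ‖y‖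

/-- one window of one copy -/
def LT {N : ℕ} [NeZero N] (ε : Vec N) (lmin lmax C0 θ : ℝ) (y f y' f' : Vec N) : Prop :=
  ‖y' - y - θ • nb ε f‖ ≤ C0 * θ ^ 2 * ‖y‖ ∧ Slope lmin lmax (C0 * θ) y f y' f'

/-- one window of a pair: `y` the first copy, `h` the difference -/
def WT {N : ℕ} [NeZero N] (ε : Vec N) (lmin lmax C0 θ : ℝ) (y h y' h' : Vec N) : Prop :=
  ∃ φ γ : Vec N, ‖y' - y - θ • nb ε φ‖ ≤ C0 * θ ^ 2 * ‖y‖ ∧
    ‖h' - h - θ • nb ε γ‖ ≤ C0 * θ ^ 2 * ‖h‖ ∧
    (∀ a : ℝ, 0 ≤ a → ∀ w, ∃ g, lmin ≤ g ∧ g ≤ lmax ∧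
      |φ w - a * γ w - g * (y w - a * h w)| ≤ C0 * θ * (‖y‖ + a * ‖h‖)) ∧
    (∀ w, ∃ g, lmin ≤ g ∧ g ≤ lmax ∧ |γ w - g * h w| ≤ C0 * θ * ‖h‖)

/-- structure of a near-critical vector: a small coordinate has two big neighbours of opposite
(transported) signs -/
def Str {N : ℕ} [NeZero N] (ε : Vec N) (ea : ℝ) (y : Vec N) : Prop :=
  ∀ w, |y w| ≤ ea * ‖y‖ → ea * ‖y‖ < |y (w - 1)| ∧ ea * ‖y‖ < |y (w + 1)| ∧
    (ε (w - 1) * y (w - 1)) * (ε w * y (w + 1)) < 0

/-! ### Signed representation of configurations -/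

/-- integer vectors; the twist is `ε : ZMod N → ℤ` with values `±1` -/
abbrev ZV (N : ℕ) := ZMod N → ℤ

def IsSgnZ {N : ℕ} (ε : ZV N) : Prop := ∀ v, ε v = 1 ∨ ε v = -1

def castV {N : ℕ} (y : ZV N) : Vec N := fun v => (y v : ℝ)

/-- the standard twist: trivial for even `m`, one sign flip for odd `m` -/
def epsm {N : ℕ} (m : ℕ) : ZV N := fun v => if v = -1 then (-1) ^ m else 1

/-- `y` is a signed representation of `c` -/
def Rep {N K : ℕ} (ε : ZV N) (c : Cfg N K) (y : ZV N) : Prop :=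
  (∀ v, cnt c v = (y v).natAbs) ∧
  (∀ v, y v ≠ 0 → y (v + 1) ≠ 0 → (sm c v (v + 1) = 1 ↔ 0 < ε v * y v * y (v + 1))) ∧
  (∀ v, y v = 0 → y (v - 1) ≠ 0 → y (v + 1) ≠ 0 →
    (sm c (v - 1) (v + 1) = 1 ↔ 0 < ε (v - 1) * ε v * y (v - 1) * y (v + 1)))

/-- types of urns: same type at `v` in two configurations -/
def SameAt {N K : ℕ} (c c' : Cfg N K) (v : ZMod N) : Prop :=
  ∃ j k l, c v = some (j, k) ∧ c' v = some (j, l)

/-- two represented configurations are linked: same sign iff same type -/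
def Link {N K : ℕ} (c c' : Cfg N K) (y y' : ZV N) : Prop :=
  ∀ v, y v ≠ 0 → y' v ≠ 0 → (SameAt c c' v ↔ 0 < y v * y' v)

/-- signed rate vector of a represented configuration -/
def fv {N K : ℕ} (lam : Fin K → ℝ) (c : Cfg N K) (y : ZV N) : Vec N :=
  fun v => (Int.sign (y v) : ℝ) * rate lam c v

/-! ### The coupled pair chain -/

open Classical in
/-- joint rate at `v` -/
def jr {N K : ℕ} (lam : Fin K → ℝ) (c c' : Cfg N K) (v : ZMod N) : ℝ :=
  if SameAt c c' v then min (rate lam c v) (rate lam c' v) else 0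

/-- total rate of the coupled chain -/
def ptotal {N K : ℕ} [NeZero N] (lam : Fin K → ℝ) (s : Cfg N K × Cfg N K) : ℝ :=
  ∑ v, (rate lam s.1 v + rate lam s.2 v - jr lam s.1 s.2 v)

/-- One step of the coupled chain (expectation operator). -/
def PP {N K : ℕ} [NeZero N] (lam : Fin K → ℝ) (g : Cfg N K × Cfg N K → ℝ)
    (s : Cfg N K × Cfg N K) : ℝ :=
  (∑ v, (jr lam s.1 s.2 v * g (fire s.1 v, fire s.2 v) +
      (rate lam s.1 v - jr lam s.1 s.2 v) * g (fire s.1 v, s.2) +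
      (rate lam s.2 v - jr lam s.1 s.2 v) * g (s.1, fire s.2 v))) / ptotal lam s

/-! ### The signed pair chain (fixed rates for each sign at each vertex) -/

/-- rate at `v` -/
def rz {N : ℕ} (lp lm : Vec N) (y : ZV N) (v : ZMod N) : ℝ :=
  if 0 < y v then lp v * (y v : ℝ) else lm v * (-(y v : ℝ))

/-- signed rate vector -/
def fz {N : ℕ} (lp lm : Vec N) (y : ZV N) : Vec N :=
  fun v => if 0 < y v then lp v * (y v : ℝ) else lm v * (y v : ℝ)

/-- firing -/
def fireZ {N : ℕ} (ε : ZV N) (y : ZV N) (v : ZMod N) : ZV N :=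
  fun w => y w + (if w = v + 1 then ε v * Int.sign (y v) else 0) +
    (if w = v - 1 then ε (v - 1) * Int.sign (y v) else 0)

def jz {N : ℕ} (lp lm : Vec N) (y y' : ZV N) (v : ZMod N) : ℝ :=
  if 0 < y v * y' v then min (rz lp lm y v) (rz lp lm y' v) else 0

def ztotal {N : ℕ} [NeZero N] (lp lm : Vec N) (s : ZV N × ZV N) : ℝ :=
  ∑ v, (rz lp lm s.1 v + rz lp lm s.2 v - jz lp lm s.1 s.2 v)

def SP {N : ℕ} [NeZero N] (ε : ZV N) (lp lm : Vec N) (g : ZV N × ZV N → ℝ)
    (s : ZV N × ZV N) : ℝ :=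
  (∑ v, (jz lp lm s.1 s.2 v * g (fireZ ε s.1 v, fireZ ε s.2 v) +
      (rz lp lm s.1 v - jz lp lm s.1 s.2 v) * g (fireZ ε s.1 v, s.2) +
      (rz lp lm s.2 v - jz lp lm s.1 s.2 v) * g (s.1, fireZ ε s.2 v))) / ztotal lp lm s

/-- configuration with chart `T` (type at `v` of each sign: `T v true` for `+`) -/
def cfgT {N K : ℕ} (T : ZMod N → Bool → Fin K) (y : ZV N) : Cfg N K :=
  fun v => if y v = 0 then none else some (T v (decide (0 < y v)), (y v).natAbs - 1)

end Pool.Agent.Lib_helper10.CU
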