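import Pool.Agent.Lib_helper10.CU.Proc
import Pool.Agent.Lib_helper10.CU.Defs

-- block FIN1 written by helper54
/-! Block FIN1: path measure and survival probabilities (helper54). -/

set_option autoImplicit false
open scoped BigOperators Topology ENNReal
open Filter MeasureTheory ProbabilityTheory
noncomputable section

namespace Pool.Agent.Lib_helper10.CU

theorem fin1_one_ne {N : ℕ} (hN : 3 ≤ N) : (1 : ZMod N) ≠ 0 := by
  have : Fact (1 < N) := ⟨by omega⟩
  exact one_ne_zero

theorem fin1_size_fire_pos {N K : ℕ} [NeZero N] (hN : 3 ≤ N) (c : Cfg N K) (v : ZMod N)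
    (hc : 0 < size c) : 0 < size (fire c v) := by
  rcases hcv : c v with _ | ⟨j, k⟩
  · have : fire c v = c := by unfold fire; rw [hcv]
    rw [this]; exact hc
  · have h1 : fire c v v = some (j, k) := by
      unfold fire
      rw [hcv]
      simp only
      rw [if_neg, hcv]
      rintro (h | h)
      · exact fin1_one_ne hN (by simpa using h.symm)
      · exact fin1_one_ne hN (sub_eq_self.1 h.symm)
    have h2 : cnt (fire c v) v = k + 1 := by unfold cnt; rw [h1]
    unfold size
    exact lt_of_lt_of_le (by omega : 0 < cnt (fire c v) v)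
      (Finset.single_le_sum (f := fun x => cnt (fire c v) x) (fun _ _ => Nat.zero_le _)
        (Finset.mem_univ v))

theorem fin1_total_pos {N K : ℕ} [NeZero N] (lam : Fin K → ℝ) (hl : ∀ j, 0 < lam j)
    (c : Cfg N K) (hc : 0 < size c) : 0 < total lam c := by
  unfold size at hc
  obtain ⟨v, hv, hv0⟩ : ∃ v ∈ (Finset.univ : Finset (ZMod N)), 0 < cnt c v := by
    by_contra hcon
    push Not at hcon
    have : ∑ v, cnt c v = 0 := Finset.sum_eq_zero (fun v hv => Nat.le_zero.1 (hcon v hv))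
    omega
  have h1 : 0 < rate lam c v := by
    unfold cnt at hv0
    unfold rate
    split
    · rename_i h; rw [h] at hv0; simp at hv0
    · rename_i j k h
      have := hl j
      positivity
  unfold total
  exact lt_of_lt_of_le h1 (Finset.single_le_sum (f := fun x => rate lam c x)
    (fun x _ => rate_nonneg lam hl c x) (Finset.mem_univ v))

instance fin1_instProb {N K : ℕ} [NeZero N] (lam : Fin K → ℝ) (hl : ∀ j, 0 < lam j)
    (c : Cfg N K) : IsProbabilityMeasure (law lam hl c) := by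
  unfold law
  have : ∀ n, IsMarkovKernel (histK (N := N) lam n) := fun n => histK_markov lam hl n
  infer_instance

/-- Markov step. -/
theorem fin1_step {N K : ℕ} [NeZero N] (lam : Fin K → ℝ) (hl : ∀ j, 0 < lam j)
    (c : Cfg N K) (b : ℕ)
    (F : ((i : Finset.Iic b) → (fun _ : ℕ => Cfg N K × ℝ) i) × (Cfg N K × ℝ) → ℝ≥0∞)
    (hF : Measurable F) :
    ∫⁻ ω, F (Preorder.frestrictLe b ω, ω (b + 1)) ∂(law lam hl c) =
      ∫⁻ ω, ∫⁻ p, F (Preorder.frestrictLe b ω, p) ∂(stepK lam (ω b).1) ∂(law lam hl c) := by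
  have : ∀ n, IsMarkovKernel (histK (N := N) lam n) := fun n => histK_markov lam hl n
  have hm := Kernel.partialTraj_compProd_eq_map_traj (X := fun _ => Cfg N K × ℝ)
    (κ := histK (N := N) lam) (a := 0) (b := b) (Nat.zero_le b) (x₀ := fun _ => (c, 0))
  have h1 : ∫⁻ ω, F (Preorder.frestrictLe b ω, ω (b + 1)) ∂(law lam hl c) =
      ∫⁻ z, F z ∂((law lam hl c).map
        (fun ω : ℕ → Cfg N K × ℝ => (Preorder.frestrictLe (π := fun _ => Cfg N K × ℝ) b ω,
          ω (b + 1)))) := by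
    rw [lintegral_map hF (by fun_prop)]
  rw [h1]
  have h2 : (law lam hl c).map
        (fun ω : ℕ → Cfg N K × ℝ => (Preorder.frestrictLe (π := fun _ => Cfg N K × ℝ) b ω,
          ω (b + 1))) = (Kernel.partialTraj (X := fun _ => Cfg N K × ℝ) (histK lam) 0 b
            (fun _ => (c, 0))) ⊗ₘ (histK lam b) := hm.symm
  rw [h2, Measure.lintegral_compProd hF]
  have h3 : Kernel.partialTraj (X := fun _ => Cfg N K × ℝ) (histK lam) 0 b (fun _ => (c, 0)) =
      (law lam hl c).map (Preorder.frestrictLe (π := fun _ => Cfg N K × ℝ) b) := by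
    rw [← Kernel.traj_map_frestrictLe_apply]
    rfl
  rw [h3, lintegral_map _ (Preorder.measurable_frestrictLe b)]
  · rfl
  · exact hF.lintegral_kernel_prod_right'

/-- start -/
theorem fin1_start {N K : ℕ} [NeZero N] (lam : Fin K → ℝ) (hl : ∀ j, 0 < lam j)
    (c : Cfg N K) : ∀ᵐ ω ∂(law lam hl c), ω 0 = (c, 0) := by
  have : ∀ n, IsMarkovKernel (histK (N := N) lam n) := fun n => histK_markov lam hl n
  have h := Kernel.traj_map_updateFinset (X := fun _ => Cfg N K × ℝ)
    (κ := histK (N := N) lam) (n := 0) (fun _ => (c, 0))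
  have hms : MeasurableSet {ω : ℕ → Cfg N K × ℝ | ω 0 = (c, 0)} := by
    apply measurableSet_eq_fun (measurable_pi_apply 0) measurable_const
  have h1 : law lam hl c {ω : ℕ → Cfg N K × ℝ | ω 0 = (c, 0)}ᶜ = 0 := by
    unfold law
    rw [← h, Measure.map_apply (by exact measurable_updateFinset_left) hms.compl]
    have : (fun x : ℕ → Cfg N K × ℝ => Function.updateFinset x (Finset.Iic 0)
        (fun _ => (c, 0))) ⁻¹' {ω : ℕ → Cfg N K × ℝ | ω 0 = (c, 0)}ᶜ = ∅ := by
      ext ω
      simp [Function.updateFinset]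
    exact (congrArg _ this).trans measure_empty
  exact h1

theorem fin1_jump_ae {N K : ℕ} [NeZero N] (lam : Fin K → ℝ) (c : Cfg N K)
    (h0 : total lam c ≠ 0) :
    ∀ᵐ d ∂(jumpLaw lam c), ∃ v, d = fire c v := by
  unfold jumpLaw
  rw [if_neg h0]
  rw [ae_iff]
  simp only [Measure.coe_finsetSum, Measure.coe_smul, Finset.sum_apply, Pi.smul_apply,
    smul_eq_mul]
  apply Finset.sum_eq_zero
  intro v _
  rw [Measure.dirac_apply' _ MeasurableSet.of_discrete]
  rw [Set.indicator_of_notMem, mul_zero]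
  simp only [Set.mem_ofPred_eq, not_not]
  exact ⟨v, rfl⟩

theorem fin1_succ_ae {N K : ℕ} [NeZero N] (lam : Fin K → ℝ) (hl : ∀ j, 0 < lam j)
    (c : Cfg N K) (b : ℕ) (P : Cfg N K → Cfg N K × ℝ → Prop)
    (hP : MeasurableSet {z : Cfg N K × (Cfg N K × ℝ) | ¬ P z.1 z.2})
    (h : ∀ᵐ ω ∂(law lam hl c), ∀ᵐ p ∂(stepK lam (ω b).1), P (ω b).1 p) :
    ∀ᵐ ω ∂(law lam hl c), P (ω b).1 (ω (b + 1)) := by
  classical
  have hs := fin1_step lam hl c b (fun z => Set.indicator
    {z : Cfg N K × (Cfg N K × ℝ) | ¬ P z.1 z.2} (fun _ => (1 : ℝ≥0∞))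
    ((z.1 ⟨b, Finset.mem_Iic.2 le_rfl⟩).1, z.2)) ?_
  swap
  · have h1 : Measurable (Set.indicator
      {z : Cfg N K × (Cfg N K × ℝ) | ¬ P z.1 z.2} (fun _ => (1 : ℝ≥0∞))) :=
      measurable_const.indicator hP
    exact h1.comp (by fun_prop)
  have hms : MeasurableSet {ω : ℕ → Cfg N K × ℝ | ¬ P (ω b).1 (ω (b + 1))} := by
    have : {ω : ℕ → Cfg N K × ℝ | ¬ P (ω b).1 (ω (b + 1))} =
      (fun ω : ℕ → Cfg N K × ℝ => ((ω b).1, ω (b + 1))) ⁻¹'
        {z : Cfg N K × (Cfg N K × ℝ) | ¬ P z.1 z.2} := rfl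
    rw [this]
    exact hP.preimage (by fun_prop)
  rw [ae_iff]
  have h2 : (law lam hl c) {ω | ¬ P (ω b).1 (ω (b + 1))} =
      ∫⁻ ω, Set.indicator {z : Cfg N K × (Cfg N K × ℝ) | ¬ P z.1 z.2} (fun _ => (1 : ℝ≥0∞))
        ((ω b).1, ω (b + 1)) ∂(law lam hl c) := by
    rw [← lintegral_indicator_one hms]
    rfl
  rw [h2]
  have h3 : ∫⁻ ω, Set.indicator {z : Cfg N K × (Cfg N K × ℝ) | ¬ P z.1 z.2}
      (fun _ => (1 : ℝ≥0∞)) ((ω b).1, ω (b + 1)) ∂(law lam hl c) =
      ∫⁻ ω, ∫⁻ p, Set.indicator {z : Cfg N K × (Cfg N K × ℝ) | ¬ P z.1 z.2}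
      (fun _ => (1 : ℝ≥0∞)) ((ω b).1, p) ∂(stepK lam (ω b).1) ∂(law lam hl c) := hs
  rw [h3]
  rw [lintegral_congr_ae (g := fun _ => 0), lintegral_zero]
  filter_upwards [h] with ω hω
  rw [lintegral_congr_ae (g := fun _ => 0), lintegral_zero]
  filter_upwards [hω] with p hp
  rw [Set.indicator_of_notMem]
  simpa using hp

theorem fin1_ae {N K : ℕ} [NeZero N] (hN : 3 ≤ N) (lam : Fin K → ℝ) (hl : ∀ j, 0 < lam j)
    (c : Cfg N K) (hc : 0 < size c) (n : ℕ) :
    ∀ᵐ ω ∂(law lam hl c), 0 < size (ω n).1 := by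
  induction n with
  | zero =>
    filter_upwards [fin1_start lam hl c] with ω hω
    rw [hω]; exact hc
  | succ b ih =>
    have h := fin1_succ_ae lam hl c b (fun _ p => 0 < size p.1) ?_ ?_
    · exact h
    · have : {z : Cfg N K × (Cfg N K × ℝ) | ¬ 0 < size z.2.1} =
        (fun z : Cfg N K × (Cfg N K × ℝ) => z.2.1) ⁻¹' {d | ¬ 0 < size d} := rfl
      rw [this]
      exact MeasurableSet.of_discrete.preimage (by fun_prop)
    · filter_upwards [ih] with ω hω
      have ht := fin1_total_pos lam hl _ hω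
      have hj := fin1_jump_ae lam (ω b).1 ht.ne'
      have := jumpLaw_prob lam hl (ω b).1
      have := waitLaw_prob lam hl (ω b).1
      change ∀ᵐ p ∂((jumpLaw lam (ω b).1).prod (waitLaw lam (ω b).1)), 0 < size p.1
      have h2 : ∀ᵐ d ∂(jumpLaw lam (ω b).1), 0 < size d := by
        filter_upwards [hj] with d hd
        obtain ⟨v, rfl⟩ := hd
        exact fin1_size_fire_pos hN _ v hω
      exact Measure.quasiMeasurePreserving_fst.ae h2

theorem law_fire_pr {N K : ℕ} [NeZero N] (hN : 3 ≤ N) (lam : Fin K → ℝ) (hl : ∀ j, 0 < lam j)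
    (c : Cfg N K) (hc : 0 < size c) :
    ∀ᵐ ω ∂(law lam hl c), (ω 0).1 = c ∧ ∀ n, ∃ v, (ω (n + 1)).1 = fire (ω n).1 v := by
  have h1 : ∀ᵐ ω ∂(law lam hl c), ∀ n, ∃ v, (ω (n + 1)).1 = fire (ω n).1 v := by
    rw [ae_all_iff]
    intro b
    have h := fin1_succ_ae lam hl c b (fun d p => ∃ v, p.1 = fire d v) ?_ ?_
    · exact h
    · have : {z : Cfg N K × (Cfg N K × ℝ) | ¬ ∃ v, z.2.1 = fire z.1 v} =
        (fun z : Cfg N K × (Cfg N K × ℝ) => (z.1, z.2.1)) ⁻¹' {z | ¬ ∃ v, z.2 = fire z.1 v} := rfl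
      rw [this]
      exact (Set.to_countable _).measurableSet.preimage (by fun_prop)
    · filter_upwards [fin1_ae hN lam hl c hc b] with ω hω
      have ht := fin1_total_pos lam hl _ hω
      have hj := fin1_jump_ae lam (ω b).1 ht.ne'
      have := jumpLaw_prob lam hl (ω b).1
      have := waitLaw_prob lam hl (ω b).1
      change ∀ᵐ p ∂((jumpLaw lam (ω b).1).prod (waitLaw lam (ω b).1)), ∃ v, p.1 = fire (ω b).1 v
      exact Measure.quasiMeasurePreserving_fst.ae hj
  filter_upwards [fin1_start lam hl c, h1] with ω h2 h3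
  exact ⟨by rw [h2], h3⟩

/-- integral of a function of the next configuration -/
theorem fin1_pop {N K : ℕ} [NeZero N] (lam : Fin K → ℝ) (hl : ∀ j, 0 < lam j)
    (d : Cfg N K) (hd : 0 < total lam d) (g : Cfg N K → ℝ) (hg : ∀ x, 0 ≤ g x) :
    ∫⁻ p, ENNReal.ofReal (g p.1) ∂(stepK lam d) = ENNReal.ofReal (Pop lam g d) := by
  have := jumpLaw_prob lam hl d
  have := waitLaw_prob lam hl d
  change ∫⁻ p, ENNReal.ofReal (g p.1) ∂((jumpLaw lam d).prod (waitLaw lam d)) = _
  have h1 : ∫⁻ p, ENNReal.ofReal (g p.1) ∂((jumpLaw lam d).prod (waitLaw lam d)) =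
      ∫⁻ x, ENNReal.ofReal (g x) ∂(jumpLaw lam d) := by
    rw [lintegral_prod _ (by
      apply Measurable.aemeasurable
      exact (Measurable.of_discrete (f := fun x : Cfg N K => ENNReal.ofReal (g x))).comp
        measurable_fst)]
    simp
  rw [h1]
  unfold jumpLaw
  rw [if_neg hd.ne']
  rw [lintegral_finsetSum_measure]
  unfold Pop
  rw [ENNReal.ofReal_sum_of_nonneg]
  · apply Finset.sum_congr rfl
    intro v _
    rw [lintegral_smul_measure, lintegral_dirac' _ Measurable.of_discrete, smul_eq_mul,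
      ENNReal.ofReal_mul (div_nonneg (rate_nonneg lam hl d v) hd.le)]
  · intro v _
    exact mul_nonneg (div_nonneg (rate_nonneg lam hl d v) hd.le) (hg _)

theorem fin1_sv_nonneg {N K : ℕ} [NeZero N] (lam : Fin K → ℝ) (hl : ∀ j, 0 < lam j)
    (A : Cfg N K → Prop) (n : ℕ) (c : Cfg N K) : 0 ≤ sv lam A n c := by
  induction n generalizing c with
  | zero => unfold sv; split <;> norm_num
  | succ n ih =>
    unfold sv
    split
    · unfold Pop
      apply Finset.sum_nonneg
      intro v _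
      exact mul_nonneg (div_nonneg (rate_nonneg lam hl c v) (total_nonneg lam hl c)) (ih _)
    · exact le_rfl

/-- probability of staying in `A` before time `n`, weighted -/
def fin1W {N K : ℕ} [NeZero N] (lam : Fin K → ℝ) (hl : ∀ j, 0 < lam j)
    (A : Cfg N K → Prop) (c : Cfg N K) (n j : ℕ) : ℝ≥0∞ :=
  ∫⁻ ω, Set.indicator {ω : ℕ → Cfg N K × ℝ | ∀ k < n, A (ω k).1}
    (fun ω => ENNReal.ofReal (sv lam A j (ω n).1)) ω ∂(law lam hl c)

theorem fin1_W {N K : ℕ} [NeZero N] (hN : 3 ≤ N) (lam : Fin K → ℝ) (hl : ∀ j, 0 < lam j)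
    (A : Cfg N K → Prop) (c : Cfg N K) (hc : 0 < size c) (n j : ℕ) :
    fin1W lam hl A c (n + 1) j = fin1W lam hl A c n (j + 1) := by
  classical
  unfold fin1W
  have hs := fin1_step lam hl c n (fun z => Set.indicator
    {z : (((i : Finset.Iic n) → (fun _ : ℕ => Cfg N K × ℝ) i) × (Cfg N K × ℝ)) |
      ∀ (k : ℕ) (hk : k ≤ n), A (z.1 ⟨k, Finset.mem_Iic.2 hk⟩).1}
    (fun z => ENNReal.ofReal (sv lam A j z.2.1)) z) ?_
  swap
  · apply Measurable.indicator
    · exact (Measurable.of_discrete (f := fun x : Cfg N K => ENNReal.ofReal (sv lam A j x))).comp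
        (by fun_prop)
    · have : {z : (((i : Finset.Iic n) → (fun _ : ℕ => Cfg N K × ℝ) i) × (Cfg N K × ℝ)) |
        ∀ (k : ℕ) (hk : k ≤ n), A (z.1 ⟨k, Finset.mem_Iic.2 hk⟩).1} =
        ⋂ (k : ℕ), ⋂ (hk : k ≤ n), (fun z : (((i : Finset.Iic n) →
          (fun _ : ℕ => Cfg N K × ℝ) i) × (Cfg N K × ℝ)) =>
            (z.1 ⟨k, Finset.mem_Iic.2 hk⟩).1) ⁻¹' {d | A d} := by
        ext z; simp
      rw [this]
      apply MeasurableSet.iInter
      intro k
      apply MeasurableSet.iInter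
      intro hk
      exact MeasurableSet.of_discrete.preimage (by fun_prop)
  have e1 : ∀ ω : ℕ → Cfg N K × ℝ, Set.indicator {ω : ℕ → Cfg N K × ℝ | ∀ k < n + 1, A (ω k).1}
      (fun ω => ENNReal.ofReal (sv lam A j (ω (n + 1)).1)) ω =
      Set.indicator
    {z : (((i : Finset.Iic n) → (fun _ : ℕ => Cfg N K × ℝ) i) × (Cfg N K × ℝ)) |
      ∀ (k : ℕ) (hk : k ≤ n), A (z.1 ⟨k, Finset.mem_Iic.2 hk⟩).1}
    (fun z => ENNReal.ofReal (sv lam A j z.2.1)) (Preorder.frestrictLe n ω, ω (n + 1)) := by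
    intro ω
    by_cases h : ∀ k < n + 1, A (ω k).1
    · rw [Set.indicator_of_mem (by exact h), Set.indicator_of_mem]
      intro k hk
      exact h k (Nat.lt_succ_of_le hk)
    · rw [Set.indicator_of_notMem (by exact h), Set.indicator_of_notMem]
      intro h'
      exact h (fun k hk => h' k (Nat.le_of_lt_succ hk))
  rw [lintegral_congr e1]
  refine Eq.trans hs ?_
  apply lintegral_congr_ae
  filter_upwards [fin1_ae hN lam hl c hc n] with ω hω
  have ht := fin1_total_pos lam hl _ hω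
  by_cases h : ∀ k < n, A (ω k).1
  · rw [Set.indicator_of_mem (by exact h)]
    by_cases h' : A (ω n).1
    · have e2 : sv lam A (j + 1) (ω n).1 = Pop lam (sv lam A j) (ω n).1 := by
        conv_lhs => unfold sv
        rw [if_pos h']
      rw [e2, ← fin1_pop lam hl _ ht _ (fin1_sv_nonneg lam hl A j)]
      apply lintegral_congr
      intro p
      rw [Set.indicator_of_mem]
      intro k hk
      rcases Nat.lt_or_ge k n with hk' | hk'
      · exact h k hk'
      · have : k = n := le_antisymm hk hk'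
        subst this
        exact h'
    · have e2 : sv lam A (j + 1) (ω n).1 = 0 := by
        conv_lhs => unfold sv
        rw [if_neg h']
      rw [e2, ENNReal.ofReal_zero]
      rw [lintegral_congr (g := fun _ => 0), lintegral_zero]
      intro p
      rw [Set.indicator_of_notMem]
      intro h3
      exact h' (h3 n le_rfl)
  · rw [Set.indicator_of_notMem (by exact h)]
    rw [lintegral_congr (g := fun _ => 0), lintegral_zero]
    intro p
    rw [Set.indicator_of_notMem]
    intro h3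
    exact h (fun k hk => h3 k hk.le)

theorem fin1_W2 {N K : ℕ} [NeZero N] (hN : 3 ≤ N) (lam : Fin K → ℝ) (hl : ∀ j, 0 < lam j)
    (A : Cfg N K → Prop) (c : Cfg N K) (hc : 0 < size c) (n j : ℕ) :
    fin1W lam hl A c n j = fin1W lam hl A c 0 (j + n) := by
  induction n generalizing j with
  | zero => rfl
  | succ n ih => rw [fin1_W hN lam hl A c hc, ih, Nat.add_right_comm, Nat.add_assoc]

theorem law_sv_pr {N K : ℕ} [NeZero N] (hN : 3 ≤ N) (lam : Fin K → ℝ) (hl : ∀ j, 0 < lam j)
    (A : Cfg N K → Prop) (c : Cfg N K) (hc : 0 < size c) (n : ℕ) :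
    (law lam hl c) {ω | ∀ k ≤ n, A (ω k).1} = ENNReal.ofReal (sv lam A n c) := by
  classical
  have hms : MeasurableSet {ω : ℕ → Cfg N K × ℝ | ∀ k ≤ n, A (ω k).1} := by
    have : {ω : ℕ → Cfg N K × ℝ | ∀ k ≤ n, A (ω k).1} =
        ⋂ (k : ℕ), ⋂ (_ : k ≤ n), (fun ω : ℕ → Cfg N K × ℝ => (ω k).1) ⁻¹' {d | A d} := by
      ext ω; simp
    rw [this]
    apply MeasurableSet.iInter
    intro k
    apply MeasurableSet.iInter
    intro hk
    exact MeasurableSet.of_discrete.preimage (by fun_prop)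
  have h1 : (law lam hl c) {ω | ∀ k ≤ n, A (ω k).1} = fin1W lam hl A c n 0 := by
    rw [← lintegral_indicator_one hms]
    unfold fin1W
    apply lintegral_congr
    intro ω
    by_cases h : ∀ k < n, A (ω k).1
    · by_cases h' : A (ω n).1
      · rw [Set.indicator_of_mem, Set.indicator_of_mem (by exact h)]
        · unfold sv; rw [if_pos h']; simp
        · intro k hk
          rcases Nat.lt_or_ge k n with hk' | hk'
          · exact h k hk'
          · have : k = n := le_antisymm hk hk'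
            subst this
            exact h'
      · rw [Set.indicator_of_notMem, Set.indicator_of_mem (by exact h)]
        · unfold sv; rw [if_neg h']; simp
        · intro h3
          exact h' (h3 n le_rfl)
    · rw [Set.indicator_of_notMem, Set.indicator_of_notMem (by exact h)]
      intro h3
      exact h (fun k hk => h3 k hk.le)
  rw [h1, fin1_W2 hN lam hl A c hc, Nat.zero_add]
  unfold fin1W
  rw [lintegral_congr_ae (g := fun _ => ENNReal.ofReal (sv lam A n c))]
  · simp
  · filter_upwards [fin1_start lam hl c] with ω hω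
    rw [Set.indicator_of_mem]
    · rw [hω]
    · intro k hk
      exact absurd hk (Nat.not_lt_zero k)

alias law_sv := law_sv_pr
alias law_fire := law_fire_pr

end Pool.Agent.Lib_helper10.CU
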