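import Pool.Agent.Lib_helper10.CU.Defs

-- block REACH written by helper80
/-! Block REACH (MP_c1a6e4_pr): from every configuration one type can win. -/

set_option autoImplicit false
open scoped BigOperators
noncomputable section

namespace Pool.Agent.Lib_helper10.CU

lemma reach_rate_nonneg {N K : ℕ} (lam : Fin K → ℝ) (hl : ∀ j, 0 < lam j) (c : Cfg N K)
    (v : ZMod N) : 0 ≤ rate lam c v := by
  unfold rate
  split
  · exact le_rfl
  · rename_i j k _
    have := hl j
    positivity

lemma reach_rate_pos {N K : ℕ} (lam : Fin K → ℝ) (hl : ∀ j, 0 < lam j) (c : Cfg N K)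
    (v : ZMod N) (hv : c v ≠ none) : 0 < rate lam c v := by
  unfold rate
  split
  · rename_i h
    exact absurd h hv
  · rename_i j k _
    have := hl j
    positivity

lemma reach_total_nonneg {N K : ℕ} [NeZero N] (lam : Fin K → ℝ) (hl : ∀ j, 0 < lam j)
    (c : Cfg N K) : 0 ≤ total lam c :=
  Finset.sum_nonneg (fun v _ => reach_rate_nonneg lam hl c v)

lemma reach_Pop_nonneg {N K : ℕ} [NeZero N] (lam : Fin K → ℝ) (hl : ∀ j, 0 < lam j)
    (g : Cfg N K → ℝ) (hg : ∀ c, 0 ≤ g c) (c : Cfg N K) : 0 ≤ Pop lam g c :=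
  Finset.sum_nonneg fun v _ => mul_nonneg
    (div_nonneg (reach_rate_nonneg lam hl c v) (reach_total_nonneg lam hl c)) (hg _)

lemma reach_Pop_le {N K : ℕ} [NeZero N] (lam : Fin K → ℝ) (hl : ∀ j, 0 < lam j)
    (g : Cfg N K → ℝ) (hg : ∀ c, g c ≤ 1) (c : Cfg N K) : Pop lam g c ≤ 1 := by
  have h1 : Pop lam g c ≤ ∑ v, rate lam c v / total lam c := by
    refine Finset.sum_le_sum fun v _ => ?_
    exact mul_le_of_le_one_right
      (div_nonneg (reach_rate_nonneg lam hl c v) (reach_total_nonneg lam hl c)) (hg _)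
  refine h1.trans ?_
  rw [← Finset.sum_div]
  exact div_self_le_one _

lemma reach_Pop_lt {N K : ℕ} [NeZero N] (lam : Fin K → ℝ) (hl : ∀ j, 0 < lam j)
    (g : Cfg N K → ℝ) (hg : ∀ c, g c ≤ 1) (c : Cfg N K) (v : ZMod N) (hv : c v ≠ none)
    (hlt : g (fire c v) < 1) : Pop lam g c < 1 := by
  have hpos : 0 < total lam c := by
    refine lt_of_lt_of_le (reach_rate_pos lam hl c v hv) ?_
    exact Finset.single_le_sum (f := fun v => rate lam c v)
      (fun w _ => reach_rate_nonneg lam hl c w) (Finset.mem_univ v)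
  have h1 : Pop lam g c < ∑ v, rate lam c v / total lam c := by
    refine Finset.sum_lt_sum (fun w _ => ?_) ⟨v, Finset.mem_univ v, ?_⟩
    · exact mul_le_of_le_one_right
        (div_nonneg (reach_rate_nonneg lam hl c w) (reach_total_nonneg lam hl c)) (hg _)
    · exact mul_lt_of_lt_one_right (div_pos (reach_rate_pos lam hl c v hv) hpos) hlt
  refine h1.trans_le ?_
  rw [← Finset.sum_div]
  exact div_self_le_one _

lemma reach_sv_nonneg {N K : ℕ} [NeZero N] (lam : Fin K → ℝ) (hl : ∀ j, 0 < lam j)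
    (A : Cfg N K → Prop) (n : ℕ) : ∀ c : Cfg N K, 0 ≤ sv lam A n c := by
  induction n with
  | zero =>
    intro c
    unfold sv
    split_ifs <;> norm_num
  | succ n ih =>
    intro c
    unfold sv
    split_ifs
    · exact reach_Pop_nonneg lam hl _ ih c
    · exact le_rfl

lemma reach_sv_le {N K : ℕ} [NeZero N] (lam : Fin K → ℝ) (hl : ∀ j, 0 < lam j)
    (A : Cfg N K → Prop) (n : ℕ) : ∀ c : Cfg N K, sv lam A n c ≤ 1 := by
  induction n with
  | zero =>
    intro c
    unfold sv
    split_ifs <;> norm_num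
  | succ n ih =>
    intro c
    unfold sv
    split_ifs
    · exact reach_Pop_le lam hl _ ih c
    · exact zero_le_one

/-- one allowed step -/
def reachStep {N K : ℕ} (a b : Cfg N K) : Prop := ∃ v, a v ≠ none ∧ b = fire a v

lemma reach_sv_lt {N K : ℕ} [NeZero N] (lam : Fin K → ℝ) (hl : ∀ j, 0 < lam j)
    (A : Cfg N K → Prop) (c c' : Cfg N K) (h : Relation.ReflTransGen reachStep c c')
    (hc' : ∃ n, sv lam A n c' < 1) : ∃ n, sv lam A n c < 1 := by
  induction h using Relation.ReflTransGen.head_induction_on with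
  | refl => exact hc'
  | head hab _ ih =>
    obtain ⟨n, hn⟩ := ih
    obtain ⟨v, hv, rfl⟩ := hab
    refine ⟨n + 1, ?_⟩
    unfold sv
    split_ifs
    · exact reach_Pop_lt lam hl _ (reach_sv_le lam hl A n) _ v hv hn
    · exact zero_lt_one

/-- `u` has type `j` -/
def reachTy {K : ℕ} (j : Fin K) (u : Urn K) : Prop := ∃ l, u = some (j, l)

lemma reach_recv_ty {K : ℕ} (j : Fin K) (u : Urn K) (h : reachTy j u) :
    reachTy j (recv j u) := by
  obtain ⟨l, rfl⟩ := h
  exact ⟨l + 1, by simp [recv]⟩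

/-- number of balls of type `j` needed to make the urn of type `j` -/
def reachNeed {K : ℕ} (j : Fin K) : Urn K → ℕ
  | none => 1
  | some (i, k) => if i = j then 0 else k + 2

lemma reach_need_zero {K : ℕ} (j : Fin K) (u : Urn K) (h : reachNeed j u = 0) :
    reachTy j u := by
  rcases u with _ | ⟨i, k⟩
  · simp [reachNeed] at h
  · by_cases hij : i = j
    · exact ⟨k, by rw [hij]⟩
    · simp [reachNeed, hij] at h

lemma reach_need_recv {K : ℕ} (j : Fin K) (u : Urn K) (m : ℕ) (h : reachNeed j u = m + 1) :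
    reachNeed j (recv j u) = m := by
  rcases u with _ | ⟨i, k⟩
  · simp [reachNeed] at h
    simp [recv, reachNeed, h]
  · by_cases hij : i = j
    · simp [reachNeed, hij] at h
    · simp only [reachNeed, hij, if_false] at h
      rcases k with _ | k
      · simp [recv, hij, reachNeed]
        omega
      · simp [recv, hij, reachNeed]
        omega

lemma reach_fire_apply {N K : ℕ} (c : Cfg N K) (v : ZMod N) (j : Fin K) (l : ℕ)
    (hv : c v = some (j, l)) (w : ZMod N) :
    fire c v w = if w = v + 1 ∨ w = v - 1 then recv j (c w) else c w := by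
  unfold fire
  rw [hv]

lemma reach_one {N K : ℕ} (j : Fin K) (v : ZMod N) (m : ℕ) :
    ∀ c : Cfg N K, reachTy j (c v) → reachNeed j (c (v + 1)) = m →
      ∃ c', Relation.ReflTransGen reachStep c c' ∧ reachTy j (c' (v + 1)) ∧
        ∀ w, reachTy j (c w) → reachTy j (c' w) := by
  induction m with
  | zero =>
    intro c hc hm
    exact ⟨c, Relation.ReflTransGen.refl, reach_need_zero j _ hm, fun w hw => hw⟩
  | succ m ih =>
    intro c hc hm
    obtain ⟨l, hl⟩ := hc
    have hpres : ∀ w, reachTy j (c w) → reachTy j (fire c v w) := by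
      intro w hw
      rw [reach_fire_apply c v j l hl]
      split_ifs
      · exact reach_recv_ty j _ hw
      · exact hw
    have hm' : reachNeed j (fire c v (v + 1)) = m := by
      rw [reach_fire_apply c v j l hl, if_pos (Or.inl rfl)]
      exact reach_need_recv j _ m hm
    obtain ⟨c', h1, h2, h3⟩ := ih (fire c v) (hpres v ⟨l, hl⟩) hm'
    refine ⟨c', Relation.ReflTransGen.head ⟨v, by rw [hl]; simp, rfl⟩ h1, h2, ?_⟩
    intro w hw
    exact h3 w (hpres w hw)

lemma reach_all {N K : ℕ} (j : Fin K) (v : ZMod N) (c : Cfg N K)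
    (hc : reachTy j (c v)) (i : ℕ) :
    ∃ c', Relation.ReflTransGen reachStep c c' ∧ ∀ r : ℕ, r ≤ i → reachTy j (c' (v + r)) := by
  induction i with
  | zero =>
    refine ⟨c, Relation.ReflTransGen.refl, ?_⟩
    intro r hr
    have : r = 0 := by omega
    subst this
    simpa using hc
  | succ i ih =>
    obtain ⟨c1, h1, h2⟩ := ih
    obtain ⟨c2, h3, h4, h5⟩ := reach_one j (v + (i : ZMod N)) _ c1 (h2 i le_rfl) rfl
    refine ⟨c2, h1.trans h3, ?_⟩
    intro r hr
    rcases Nat.lt_or_ge r (i + 1) with hlt | hge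
    · exact h5 _ (h2 r (by omega))
    · have : r = i + 1 := by omega
      subst this
      push_cast
      rw [← add_assoc]
      exact h4

lemma reach_mono {N K : ℕ} [NeZero N] (c : Cfg N K) (v : ZMod N)
    (hv : c v ≠ none) : ∃ c', Relation.ReflTransGen reachStep c c' ∧ arcs c' = 0 := by
  obtain ⟨⟨j, l⟩, hjl⟩ := Option.ne_none_iff_exists'.mp hv
  obtain ⟨c', h1, h2⟩ := reach_all j v c ⟨l, hjl⟩ N
  refine ⟨c', h1, ?_⟩
  have hall : ∀ w, reachTy j (c' w) := by
    intro w
    have h3 := h2 (w - v).val (ZMod.val_lt _).le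
    rw [ZMod.natCast_val, ZMod.cast_id] at h3
    simpa using h3
  unfold arcs
  rw [Nat.sInf_eq_zero]
  left
  refine ⟨fun _ => j, ?_, ?_⟩
  · intro w i k hw
    obtain ⟨l', hl'⟩ := hall w
    rw [hl'] at hw
    have := Option.some.inj hw
    exact (Prod.mk.inj this).1
  · simp [chg]

lemma reach_lt_one {N K : ℕ} [NeZero N] (lam : Fin K → ℝ) (hl : ∀ j, 0 < lam j)
    (m : ℕ) (hm : 2 ≤ m) (c : Cfg N K) : qq lam m c < 1 := by
  have hbdd : BddBelow (Set.range fun n => sv lam (fun c => arcs c = m) n c) :=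
    ⟨0, by rintro _ ⟨n, rfl⟩; exact reach_sv_nonneg lam hl _ n c⟩
  suffices h : ∃ n, sv lam (fun c : Cfg N K => arcs c = m) n c < 1 by
    obtain ⟨n, hn⟩ := h
    exact (ciInf_le hbdd n).trans_lt hn
  by_cases hc : arcs c = m
  · -- `c` is not empty
    by_cases hex : ∃ v, c v ≠ none
    · obtain ⟨v, hv⟩ := hex
      obtain ⟨c', h1, h2⟩ := reach_mono c v hv
      refine reach_sv_lt lam hl _ c c' h1 ⟨0, ?_⟩
      unfold sv
      rw [if_neg (by rw [h2]; omega)]
      exact zero_lt_one
    · exfalso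
      push Not at hex
      by_cases hK : Nonempty (Fin K)
      · obtain ⟨j⟩ := hK
        have : arcs c = 0 := by
          unfold arcs
          rw [Nat.sInf_eq_zero]
          left
          refine ⟨fun _ => j, ?_, ?_⟩
          · intro w i k hw
            rw [hex w] at hw
            simp at hw
          · simp [chg]
        omega
      · have : arcs c = 0 := by
          unfold arcs
          rw [Nat.sInf_eq_zero]
          right
          ext x
          simp only [Set.mem_ofPred_eq, Set.mem_empty_iff_false, iff_false]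
          rintro ⟨t, _⟩
          exact hK ⟨t 0⟩
        omega
  · refine ⟨0, ?_⟩
    unfold sv
    rw [if_neg hc]
    exact zero_lt_one

lemma reach_finite (N K : ℕ) [NeZero N] (M : ℕ) : {c : Cfg N K | size c ≤ M}.Finite := by
  let S : Set (Urn K) :=
    {none} ∪ (fun p : Fin K × Fin (M + 1) => some (p.1, (p.2 : ℕ))) '' Set.univ
  have hS : S.Finite := (Set.finite_singleton _).union (Set.finite_univ.image _)
  have hfin : {f : ZMod N → Urn K | ∀ i, f i ∈ S}.Finite :=
    Set.Finite.pi' (fun _ : ZMod N => hS)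
  refine hfin.subset ?_
  intro c hc v
  have h1 : cnt c v ≤ size c :=
    Finset.single_le_sum (f := fun v => cnt c v) (fun w _ => Nat.zero_le _) (Finset.mem_univ v)
  have h2 : cnt c v ≤ M := h1.trans hc
  rcases hcv : c v with _ | ⟨j, k⟩
  · left
    rfl
  · right
    have h3 : cnt c v = k + 1 := by simp [cnt, hcv]
    exact ⟨(j, ⟨k, by omega⟩), trivial, rfl⟩

theorem size_large_pr {N K : ℕ} [NeZero N] (hN : 3 ≤ N) (lam : Fin K → ℝ) (hl : ∀ j, 0 < lam j)
    (m : ℕ) (hm : 2 ≤ m) (M : ℕ) :
    ∃ c0 : ℝ, 0 < c0 ∧ ∀ c : Cfg N K, 1 - c0 ≤ qq lam m c → M < size c := by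
  classical
  have hfin := reach_finite N K M
  by_cases hne : hfin.toFinset.Nonempty
  · obtain ⟨b, hb, hmin⟩ := Finset.exists_min_image hfin.toFinset
      (fun c => 1 - qq lam m c) hne
    have hb1 := reach_lt_one lam hl m hm b
    refine ⟨(1 - qq lam m b) / 2, by linarith, ?_⟩
    intro c hc
    by_contra hcon
    push Not at hcon
    have h1 := hmin c (hfin.mem_toFinset.mpr hcon)
    linarith
  · refine ⟨1, one_pos, ?_⟩
    intro c _
    by_contra hcon
    push Not at hcon
    exact hne ⟨c, hfin.mem_toFinset.mpr hcon⟩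

alias size_large := size_large_pr

end Pool.Agent.Lib_helper10.CU
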