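import Pool.Agent.Lib_helper10.CU.Defs

-- block ZO written by helper85
/-! Block ZO: elementary facts on the survival probabilities and the zero-one lemma (helper85). -/

set_option autoImplicit false
open scoped BigOperators Topology
open Filter
noncomputable section

namespace Pool.Agent.Lib_helper10.CU

theorem zo_rate_nonneg {N K : ℕ} {lam : Fin K → ℝ} (hl : ∀ j, 0 < lam j) (c : Cfg N K)
    (v : ZMod N) : 0 ≤ rate lam c v := by
  unfold rate
  split
  · exact le_rfl
  · rename_i j k _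
    have := hl j
    positivity

theorem zo_total_nonneg {N K : ℕ} [NeZero N] {lam : Fin K → ℝ} (hl : ∀ j, 0 < lam j)
    (c : Cfg N K) : 0 ≤ total lam c :=
  Finset.sum_nonneg fun v _ => zo_rate_nonneg hl c v

theorem zo_Pop_mono {N K : ℕ} [NeZero N] {lam : Fin K → ℝ} (hl : ∀ j, 0 < lam j)
    {g h : Cfg N K → ℝ} (hgh : ∀ c, g c ≤ h c) (c : Cfg N K) : Pop lam g c ≤ Pop lam h c := by
  unfold Pop
  refine Finset.sum_le_sum fun v _ => ?_
  exact mul_le_mul_of_nonneg_left (hgh _) (div_nonneg (zo_rate_nonneg hl c v) (zo_total_nonneg hl c))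

theorem zo_Pop_nonneg {N K : ℕ} [NeZero N] {lam : Fin K → ℝ} (hl : ∀ j, 0 < lam j)
    {g : Cfg N K → ℝ} (hg : ∀ c, 0 ≤ g c) (c : Cfg N K) : 0 ≤ Pop lam g c := by
  unfold Pop
  exact Finset.sum_nonneg fun v _ =>
    mul_nonneg (div_nonneg (zo_rate_nonneg hl c v) (zo_total_nonneg hl c)) (hg _)

theorem zo_Pop_const {N K : ℕ} [NeZero N] (lam : Fin K → ℝ) (a : ℝ) (c : Cfg N K) :
    Pop lam (fun _ => a) c = total lam c / total lam c * a := by
  unfold Pop
  rw [← Finset.sum_mul, ← Finset.sum_div]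
  rfl

theorem zo_Pop_const_mul {N K : ℕ} [NeZero N] (lam : Fin K → ℝ) (a : ℝ) (g : Cfg N K → ℝ)
    (c : Cfg N K) : Pop lam (fun c => a * g c) c = a * Pop lam g c := by
  unfold Pop
  rw [Finset.mul_sum]
  refine Finset.sum_congr rfl fun v _ => ?_
  ring

theorem zo_Pop_one_le {N K : ℕ} [NeZero N] (lam : Fin K → ℝ) (c : Cfg N K) :
    Pop lam (fun _ => (1 : ℝ)) c ≤ 1 := by
  rw [zo_Pop_const, mul_one]
  exact div_self_le_one _

theorem sv_nonneg_pr {N K : ℕ} [NeZero N] (lam : Fin K → ℝ) (hl : ∀ j, 0 < lam j)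
    (A : Cfg N K → Prop) (n : ℕ) (c : Cfg N K) : 0 ≤ sv lam A n c := by
  induction n generalizing c with
  | zero => unfold sv; split_ifs <;> norm_num
  | succ n ih =>
    unfold sv
    split_ifs
    · exact zo_Pop_nonneg hl ih c
    · exact le_rfl

theorem sv_le_one_pr {N K : ℕ} [NeZero N] (lam : Fin K → ℝ) (hl : ∀ j, 0 < lam j)
    (A : Cfg N K → Prop) (n : ℕ) (c : Cfg N K) : sv lam A n c ≤ 1 := by
  induction n generalizing c with
  | zero => unfold sv; split_ifs <;> norm_num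
  | succ n ih =>
    unfold sv
    split_ifs
    · exact (zo_Pop_mono hl ih c).trans (zo_Pop_one_le lam c)
    · exact zero_le_one

theorem sv_antitone_pr {N K : ℕ} [NeZero N] (lam : Fin K → ℝ) (hl : ∀ j, 0 < lam j)
    (A : Cfg N K → Prop) (n : ℕ) (c : Cfg N K) : sv lam A (n + 1) c ≤ sv lam A n c := by
  induction n generalizing c with
  | zero =>
    by_cases hA : A c
    · have h1 : sv lam A 0 c = 1 := by simp [sv, hA]
      rw [h1]
      exact sv_le_one_pr lam hl A 1 c
    · simp [sv, hA]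
  | succ n ih =>
    by_cases hA : A c
    · have h1 : sv lam A (n + 1 + 1) c = Pop lam (sv lam A (n + 1)) c := by
        conv_lhs => unfold sv
        rw [if_pos hA]
      have h2 : sv lam A (n + 1) c = Pop lam (sv lam A n) c := by
        conv_lhs => unfold sv
        rw [if_pos hA]
      rw [h1, h2]
      exact zo_Pop_mono hl ih c
    · have h1 : sv lam A (n + 1 + 1) c = 0 := by simp [sv, hA]
      have h2 : sv lam A (n + 1) c = 0 := by simp [sv, hA]
      rw [h1, h2]

theorem zo_bdd {N K : ℕ} [NeZero N] (lam : Fin K → ℝ) (hl : ∀ j, 0 < lam j)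
    (A : Cfg N K → Prop) (c : Cfg N K) : BddBelow (Set.range fun n => sv lam A n c) :=
  ⟨0, by rintro _ ⟨n, rfl⟩; exact sv_nonneg_pr lam hl A n c⟩

theorem zo_tendsto {N K : ℕ} [NeZero N] (lam : Fin K → ℝ) (hl : ∀ j, 0 < lam j)
    (A : Cfg N K → Prop) (c : Cfg N K) :
    Tendsto (fun n => sv lam A n c) atTop (𝓝 (qA lam A c)) :=
  tendsto_atTop_ciInf (antitone_nat_of_succ_le fun n => sv_antitone_pr lam hl A n c)
    (zo_bdd lam hl A c)

theorem qA_nonneg_pr {N K : ℕ} [NeZero N] (lam : Fin K → ℝ) (hl : ∀ j, 0 < lam j)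
    (A : Cfg N K → Prop) (c : Cfg N K) : 0 ≤ qA lam A c :=
  le_ciInf fun n => sv_nonneg_pr lam hl A n c

theorem qA_le_one_pr {N K : ℕ} [NeZero N] (lam : Fin K → ℝ) (hl : ∀ j, 0 < lam j)
    (A : Cfg N K → Prop) (c : Cfg N K) : qA lam A c ≤ 1 :=
  (ciInf_le (zo_bdd lam hl A c) 0).trans (sv_le_one_pr lam hl A 0 c)

theorem qA_harm_pr {N K : ℕ} [NeZero N] (lam : Fin K → ℝ) (hl : ∀ j, 0 < lam j)
    (A : Cfg N K → Prop) (c : Cfg N K) (hc : A c) : qA lam A c = Pop lam (qA lam A) c := by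
  have h1 : Tendsto (fun n => sv lam A (n + 1) c) atTop (𝓝 (qA lam A c)) :=
    (zo_tendsto lam hl A c).comp (tendsto_add_atTop_nat 1)
  have h2 : Tendsto (fun n => Pop lam (sv lam A n) c) atTop (𝓝 (Pop lam (qA lam A) c)) := by
    unfold Pop
    exact tendsto_finset_sum _ fun v _ => (zo_tendsto lam hl A (fire c v)).const_mul _
  have h3 : (fun n => sv lam A (n + 1) c) = fun n => Pop lam (sv lam A n) c := by
    funext n
    conv_lhs => unfold sv
    rw [if_pos hc]
  rw [h3] at h1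
  exact tendsto_nhds_unique h1 h2

theorem qA_zero_pr {N K : ℕ} [NeZero N] (lam : Fin K → ℝ) (hl : ∀ j, 0 < lam j)
    (A : Cfg N K → Prop) (c : Cfg N K) (hc : ¬ A c) : qA lam A c = 0 := by
  refine le_antisymm ?_ (qA_nonneg_pr lam hl A c)
  refine (ciInf_le (zo_bdd lam hl A c) 0).trans (le_of_eq ?_)
  simp [sv, hc]

theorem zero_one_pr {N K : ℕ} [NeZero N] (lam : Fin K → ℝ) (hl : ∀ j, 0 < lam j)
    (A : Cfg N K → Prop) (θ : ℝ) (hθ : θ < 1) (h : ∀ c, qA lam A c ≤ θ) (c : Cfg N K) :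
    Tendsto (fun n => sv lam A n c) atTop (𝓝 0) := by
  have h1 : ∀ (n : ℕ) (c : Cfg N K), qA lam A c ≤ θ * sv lam A n c := by
    intro n
    induction n with
    | zero =>
      intro c
      by_cases hA : A c
      · have : sv lam A 0 c = 1 := by simp [sv, hA]
        rw [this, mul_one]; exact h c
      · have : sv lam A 0 c = 0 := by simp [sv, hA]
        rw [this, mul_zero, qA_zero_pr lam hl A c hA]
    | succ n ih =>
      intro c
      by_cases hA : A c
      · have h2 : sv lam A (n + 1) c = Pop lam (sv lam A n) c := by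
          conv_lhs => unfold sv
          rw [if_pos hA]
        rw [h2, qA_harm_pr lam hl A c hA, ← zo_Pop_const_mul]
        exact zo_Pop_mono hl ih c
      · have h2 : sv lam A (n + 1) c = 0 := by simp [sv, hA]
        rw [h2, mul_zero, qA_zero_pr lam hl A c hA]
  have h3 : qA lam A c ≤ θ * qA lam A c :=
    ge_of_tendsto' ((zo_tendsto lam hl A c).const_mul θ) fun n => h1 n c
  have h4 := qA_nonneg_pr lam hl A c
  have h5 : qA lam A c = 0 := by nlinarith
  have h6 := zo_tendsto lam hl A c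
  rwa [h5] at h6

alias sv_nonneg := sv_nonneg_pr
alias sv_le_one := sv_le_one_pr
alias sv_antitone := sv_antitone_pr
alias qA_nonneg := qA_nonneg_pr
alias qA_le_one := qA_le_one_pr
alias qA_harm := qA_harm_pr
alias qA_zero := qA_zero_pr
alias zero_one := zero_one_pr

end Pool.Agent.Lib_helper10.CU
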