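import Pool.Agent.Lib_helper10.CU.GL
import Pool.Agent.Lib_helper10.CU.REACH
import Pool.Agent.Lib_helper10.CU.ZO

-- block START written by helper54
/-! Block START (cites gen_ineq, size_large, qA_harm, qA_zero, qA_nonneg, qA_le_one). -/

set_option autoImplicit false
open scoped BigOperators Topology
open Filter
noncomputable section

namespace Pool.Agent.Lib_helper10.CU

/-- number of balls of an urn -/
def startU {K : ℕ} : Urn K → ℕ
  | none => 0
  | some (_, k) => k + 1

theorem start_cnt {N K : ℕ} (c : Cfg N K) (v : ZMod N) : cnt c v = startU (c v) := by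
  unfold cnt startU
  rfl

theorem start_recv {K : ℕ} (j : Fin K) (u : Urn K) :
    startU (recv j u) ≤ startU u + 1 ∧ startU u ≤ startU (recv j u) + 1 := by
  rcases u with _ | ⟨i, k⟩
  · simp [recv, startU]
  · by_cases h : i = j
    · simp [recv, startU, h]
    · rcases k with _ | k
      · simp [recv, startU, h]
      · simp [recv, startU, h]

theorem start_fire {N K : ℕ} (c : Cfg N K) (v w : ZMod N) :
    cnt (fire c v) w ≤ cnt c w + ((if w = v + 1 then 1 else 0) + (if w = v - 1 then 1 else 0)) ∧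
    cnt c w ≤ cnt (fire c v) w + ((if w = v + 1 then 1 else 0) + (if w = v - 1 then 1 else 0)) := by
  rw [start_cnt, start_cnt]
  unfold fire
  rcases h : c v with _ | ⟨j, k⟩
  · simp
  · simp only
    by_cases h1 : w = v + 1 ∨ w = v - 1
    · rw [if_pos h1]
      have h2 := start_recv j (c w)
      rcases h1 with h1 | h1
      · rw [if_pos h1]
        constructor <;> [have := h2.1; have := h2.2] <;> omega
      · rw [if_pos h1]
        constructor <;> [have := h2.1; have := h2.2] <;> omega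
    · rw [if_neg h1]
      constructor <;> omega

theorem start_size {N K : ℕ} [NeZero N] (c : Cfg N K) (v : ZMod N) :
    size (fire c v) ≤ size c + 2 ∧ size c ≤ size (fire c v) + 2 := by
  have hs : ∑ w : ZMod N, ((if w = v + 1 then 1 else 0) + (if w = v - 1 then 1 else 0)) = 2 := by
    rw [Finset.sum_add_distrib, Finset.sum_ite_eq', Finset.sum_ite_eq']
    simp
  constructor
  · calc size (fire c v) ≤ ∑ w : ZMod N, (cnt c w +
          ((if w = v + 1 then 1 else 0) + (if w = v - 1 then 1 else 0))) :=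
          Finset.sum_le_sum (fun w _ => (start_fire c v w).1)
      _ = size c + 2 := by rw [Finset.sum_add_distrib, hs]; rfl
  · calc size c ≤ ∑ w : ZMod N, (cnt (fire c v) w +
          ((if w = v + 1 then 1 else 0) + (if w = v - 1 then 1 else 0))) :=
          Finset.sum_le_sum (fun w _ => (start_fire c v w).2)
      _ = size (fire c v) + 2 := by rw [Finset.sum_add_distrib, hs]; rfl

theorem start_rate {N K : ℕ} (lam : Fin K → ℝ) (lmin lmax : ℝ)
    (hl : ∀ j, lmin ≤ lam j ∧ lam j ≤ lmax) (c : Cfg N K) (v : ZMod N) :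
    lmin * cnt c v ≤ rate lam c v ∧ rate lam c v ≤ lmax * cnt c v := by
  unfold rate cnt
  rcases h : c v with _ | ⟨j, k⟩
  · simp
  · simp only
    have h1 := hl j
    have h2 : (0 : ℝ) ≤ (k : ℝ) + 1 := by positivity
    push_cast
    exact ⟨mul_le_mul_of_nonneg_right h1.1 h2, mul_le_mul_of_nonneg_right h1.2 h2⟩

theorem start_total {N K : ℕ} [NeZero N] (lam : Fin K → ℝ) (lmin lmax : ℝ)
    (hl : ∀ j, lmin ≤ lam j ∧ lam j ≤ lmax) (c : Cfg N K) :
    lmin * size c ≤ total lam c ∧ total lam c ≤ lmax * size c := by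
  unfold total size
  push_cast
  rw [Finset.mul_sum, Finset.mul_sum]
  exact ⟨Finset.sum_le_sum (fun v _ => (start_rate lam lmin lmax hl c v).1),
    Finset.sum_le_sum (fun v _ => (start_rate lam lmin lmax hl c v).2)⟩

/-- a successor at least as good as the average -/
theorem start_succ {N K : ℕ} [NeZero N] (lam : Fin K → ℝ) (lmin lmax : ℝ) (h0 : 0 < lmin)
    (hl : ∀ j, lmin ≤ lam j ∧ lam j ≤ lmax) (c : Cfg N K) (hc : 0 < size c)
    (H : Cfg N K → ℝ) (X : ℝ) (hX : X ≤ Pop lam H c) : ∃ v, X ≤ H (fire c v) := by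
  by_contra hcon
  push Not at hcon
  have ht : 0 < total lam c := by
    have h1 := (start_total lam lmin lmax hl c).1
    have h2 : (0 : ℝ) < size c := by exact_mod_cast hc
    have h3 : 0 < lmin * (size c : ℝ) := by positivity
    linarith
  have hr : ∀ v, 0 ≤ rate lam c v := fun v =>
    le_trans (by positivity) (start_rate lam lmin lmax hl c v).1
  have hex : ∃ v ∈ (Finset.univ : Finset (ZMod N)), 0 < rate lam c v := by
    by_contra h1
    push Not at h1
    have : total lam c ≤ 0 := Finset.sum_nonpos (fun v hv => h1 v hv)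
    linarith
  obtain ⟨v0, hv0, hv0'⟩ := hex
  have h2 : Pop lam H c < ∑ v, rate lam c v / total lam c * X := by
    unfold Pop
    apply Finset.sum_lt_sum
    · intro v _
      exact mul_le_mul_of_nonneg_left (hcon v).le (div_nonneg (hr v) ht.le)
    · exact ⟨v0, hv0, mul_lt_mul_of_pos_left (hcon v0) (div_pos hv0' ht)⟩
  have h3 : ∑ v, rate lam c v / total lam c * X = X := by
    rw [← Finset.sum_mul, ← Finset.sum_div]
    have : ∑ v, rate lam c v = total lam c := rfl
    rw [this, div_self ht.ne', one_mul]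
  linarith

theorem start_sub {N K : ℕ} [NeZero N] (lam : Fin K → ℝ) (lmin lmax : ℝ) (h0 : 0 < lmin)
    (hl : ∀ j, lmin ≤ lam j ∧ lam j ≤ lmax) (m : ℕ) (c : Cfg N K) (hc : 0 < size c) :
    qq lam m c ≤ Pop lam (qq lam m) c := by
  have hl' : ∀ j, 0 < lam j := fun j => h0.trans_le (hl j).1
  by_cases h : arcs c = m
  · exact le_of_eq (qA_harm lam hl' (fun c => arcs c = m) c h)
  · have h1 : qq lam m c = 0 := qA_zero lam hl' (fun c => arcs c = m) c h
    rw [h1]
    have ht : 0 ≤ total lam c := le_trans (by positivity) (start_total lam lmin lmax hl c).1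
    apply Finset.sum_nonneg
    intro v _
    exact mul_nonneg (div_nonneg (le_trans (by positivity) (start_rate lam lmin lmax hl c v).1) ht)
      (qA_nonneg lam hl' _ _)

theorem start_lin {N K : ℕ} [NeZero N] (lam : Fin K → ℝ) (F G : Cfg N K → ℝ) (b : ℝ)
    (c : Cfg N K) : Pop lam (fun c => F c + b * G c) c = Pop lam F c + b * Pop lam G c := by
  unfold Pop
  rw [Finset.mul_sum, ← Finset.sum_add_distrib]
  apply Finset.sum_congr rfl
  intro v _
  ring

theorem start_gain (c1 η lmin lmax μ s t z d : ℝ) (hc1 : 0 < c1) (h0 : 0 < lmin)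
    (hL : 0 < lmax) (hμ : 0 < μ) (hs : 0 < s) (hz : 0 < z) (hd : η ^ 2 * z ^ 2 ≤ d)
    (ht1 : lmin * z ≤ t) (ht2 : t ≤ lmax * z) (hz1 : z ≤ 2 * s) (hz2 : s / 2 ≤ z) :
    c1 * η ^ 2 / (2 * lmax * s) - 2 * μ / (lmin * s) ≤ (c1 * d / z ^ 2 - μ) / t := by
  have htpos : 0 < t := lt_of_lt_of_le (by positivity) ht1
  rw [sub_div]
  apply sub_le_sub
  · have h2 : c1 * η ^ 2 ≤ c1 * d / z ^ 2 := by
      rw [le_div_iff₀ (by positivity), mul_assoc]
      exact mul_le_mul_of_nonneg_left hd hc1.le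
    have h3 : t ≤ 2 * lmax * s := by
      have := mul_le_mul_of_nonneg_left hz1 hL.le
      linarith
    exact div_le_div₀ (le_trans (by positivity) h2) h2 htpos h3
  · rw [div_le_div_iff₀ htpos (by positivity)]
    have h3 : lmin * (s / 2) ≤ t := le_trans (mul_le_mul_of_nonneg_left hz2 h0.le) ht1
    have h4 := mul_le_mul_of_nonneg_left h3 hμ.le
    linarith

set_option maxHeartbeats 1000000 in
theorem start_pr {N K : ℕ} [NeZero N] (hN : 3 ≤ N) (lam : Fin K → ℝ) (lmin lmax : ℝ)
    (h0 : 0 < lmin) (hlm : lmin ≤ lmax) (hl : ∀ j, lmin ≤ lam j ∧ lam j ≤ lmax) (m : ℕ)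
    (hm : 2 ≤ m) (ρ : ℝ)
    (S1 : ∀ δ > 0, ∃ c0 > 0, ∀ c : Cfg N K, 1 - c0 ≤ qq lam m c → Rc lam c ≤ ρ + δ)
    (S2 : ∀ δ > 0, ∀ ε > 0, ∃ c : Cfg N K, 1 - ε ≤ qq lam m c ∧ ρ - δ ≤ Rc lam c)
    (δ η ε : ℝ) (hδ : 0 < δ) (hη : 0 < η) (hε : 0 < ε) (M : ℕ) :
    ∃ c : Cfg N K, arcs c = m ∧ 1 - ε ≤ qq lam m c ∧ ρ - δ ≤ Rc lam c ∧
      dd lam c ≤ η ^ 2 * (size c : ℝ) ^ 2 ∧ M ≤ size c := by
  have hl' : ∀ j, 0 < lam j := fun j => h0.trans_le (hl j).1
  have hL : 0 < lmax := h0.trans_le hlm
  obtain ⟨c1, hc1, B, hgen⟩ := gen_ineq (N := N) hN lam lmin lmax h0 hlm hl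
  set κ : ℝ := min (min δ ε) (min 1 (c1 * η ^ 2 / (16 * lmax))) / 2 with hκ
  have hκ0 : 0 < κ := by
    rw [hκ]
    have : 0 < c1 * η ^ 2 / (16 * lmax) := by positivity
    positivity
  have hκδ : 2 * κ ≤ δ := by
    have := (min_le_left (min δ ε) (min 1 (c1 * η ^ 2 / (16 * lmax)))).trans (min_le_left δ ε)
    rw [hκ]; linarith
  have hκε : 2 * κ ≤ ε := by
    have := (min_le_left (min δ ε) (min 1 (c1 * η ^ 2 / (16 * lmax)))).trans (min_le_right δ ε)
    rw [hκ]; linarith
  have hκ1 : 2 * κ ≤ 1 := by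
    have := (min_le_right (min δ ε) (min 1 (c1 * η ^ 2 / (16 * lmax)))).trans (min_le_left _ _)
    rw [hκ]; linarith
  have hκη : 2 * κ ≤ c1 * η ^ 2 / (16 * lmax) := by
    have := (min_le_right (min δ ε) (min 1 (c1 * η ^ 2 / (16 * lmax)))).trans (min_le_right _ _)
    rw [hκ]; linarith
  obtain ⟨c0, hc0, hS1⟩ := S1 (κ / 8) (by positivity)
  set b : ℝ := max 1 ((B - ρ + 1) / c0) with hb
  have hb1 : 1 ≤ b := le_max_left _ _
  have hb2 : B - ρ + 1 ≤ b * c0 := by
    have := le_max_right 1 ((B - ρ + 1) / c0)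
    rw [← hb, div_le_iff₀ hc0] at this
    exact this
  set μ : ℝ := min (κ / 16) (κ * lmin / 8) with hμ
  have hμ0 : 0 < μ := lt_min (by positivity) (by positivity)
  have hμ1 : μ ≤ κ / 16 := min_le_left _ _
  have hμ2 : μ / (2 * lmin) ≤ κ / 16 := by
    rw [div_le_iff₀ (by positivity)]
    have := min_le_right (κ / 16) (κ * lmin / 8)
    rw [← hμ] at this
    linarith
  obtain ⟨Rt, M1, hRtB, hRt⟩ := hgen μ hμ0
  obtain ⟨c0', hc0', hsz⟩ := size_large (N := N) hN lam hl' m hm (2 * (max M M1) + 8)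
  obtain ⟨cs, hcs1, hcs2⟩ := S2 (κ / 8) (by positivity) (min c0' (κ / (8 * b)))
    (lt_min hc0' (by positivity))
  have hεs1 : 1 - c0' ≤ qq lam m cs := by
    have := min_le_left c0' (κ / (8 * b))
    linarith
  have hεs2 : 1 - κ / (8 * b) ≤ qq lam m cs := by
    have := min_le_right c0' (κ / (8 * b))
    linarith
  have hs := hsz cs hεs1
  set s : ℕ := size cs with hsdef
  set n : ℕ := s / 4 with hn
  set H : Cfg N K → ℝ := fun c => Rt c + b * qq lam m c with hH
  have hq1 : ∀ c : Cfg N K, qq lam m c ≤ 1 := fun c => qA_le_one lam hl' _ c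
  have hs0 : (0 : ℝ) < s := by
    have : 0 < s := by omega
    exact_mod_cast this
  have hHs : ρ - κ / 8 - μ + b - κ / 8 ≤ H cs := by
    have h2 := (abs_le.1 (hRt cs (by rw [← hsdef]; omega)).1).1
    have h3 : b * (1 - κ / (8 * b)) ≤ b * qq lam m cs :=
      mul_le_mul_of_nonneg_left hεs2 (by linarith)
    have h4 : b * (1 - κ / (8 * b)) = b - κ / 8 := by field_simp
    simp only [hH]
    linarith
  by_contra hcon
  push Not at hcon
  -- what a large value of `H` gives
  have hgood : ∀ c : Cfg N K, M1 ≤ size c → M ≤ size c → ρ + b - κ / 2 ≤ H c →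
      η ^ 2 * (size c : ℝ) ^ 2 < dd lam c ∧ H c ≤ ρ + κ / 8 + μ + b := by
    intro c hcM1 hcM hHc
    have h2 := abs_le.1 (hRt c hcM1).1
    have h3 := (abs_le.1 (hRtB c)).2
    simp only [hH] at hHc ⊢
    have hqc : 1 - c0 ≤ qq lam m c := by
      by_contra h4
      push Not at h4
      have h5 : b * qq lam m c ≤ b * (1 - c0) := mul_le_mul_of_nonneg_left h4.le (by linarith)
      have h6 : b * (1 - c0) = b - b * c0 := by ring
      linarith
    have h5 := hS1 c hqc
    have h6 : Rt c ≤ ρ + κ / 8 + μ := by linarith [h2.2]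
    have h7 : b * qq lam m c ≤ b := by
      have := mul_le_mul_of_nonneg_left (hq1 c) (by linarith : (0 : ℝ) ≤ b)
      linarith
    have h8 : b - κ ≤ b * qq lam m c := by linarith
    have h9 : 1 - κ ≤ qq lam m c := by
      by_contra h10
      push Not at h10
      have h11 : b * qq lam m c < b * (1 - κ) := mul_lt_mul_of_pos_left h10 (by linarith)
      nlinarith
    have harcs : arcs c = m := by
      by_contra h10
      have h11 : qq lam m c = 0 := qA_zero lam hl' (fun c => arcs c = m) c h10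
      rw [h11] at h9
      linarith
    refine ⟨?_, by linarith⟩
    by_contra h12
    push Not at h12
    have h13 := hcon c harcs (by linarith) (by linarith [h2.1]) h12
    omega
  -- the path
  have hpath : ∀ i ≤ n, ∃ c : Cfg N K, size c ≤ s + 2 * i ∧ s ≤ size c + 2 * i ∧
      H cs + i * (c1 * η ^ 2 / (2 * lmax * s) - 2 * μ / (lmin * s)) ≤ H c := by
    intro i
    induction i with
    | zero =>
      intro _
      exact ⟨cs, by omega, by omega, by simp⟩
    | succ i ih =>
      intro hi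
      obtain ⟨c, hca, hcb, hcH⟩ := ih (by omega)
      have hcM1 : M1 ≤ size c := by omega
      have hcM : M ≤ size c := by omega
      have hcpos : 0 < size c := by omega
      have hin : (i : ℝ) ≤ s / 4 := by
        have : 4 * i ≤ s := by omega
        have h2 : (4 : ℝ) * i ≤ s := by exact_mod_cast this
        linarith
      have hHc : ρ + b - κ / 2 ≤ H c := by
        have h2 : 0 ≤ (i : ℝ) * (c1 * η ^ 2 / (2 * lmax * s)) := by positivity
        have h3 : (i : ℝ) * (2 * μ / (lmin * s)) ≤ μ / (2 * lmin) := by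
          calc (i : ℝ) * (2 * μ / (lmin * s)) ≤ (s / 4) * (2 * μ / (lmin * s)) := by gcongr
            _ = μ / (2 * lmin) := by field_simp; ring
        have h4 : (i : ℝ) * (c1 * η ^ 2 / (2 * lmax * s) - 2 * μ / (lmin * s)) =
          (i : ℝ) * (c1 * η ^ 2 / (2 * lmax * s)) - (i : ℝ) * (2 * μ / (lmin * s)) := by ring
        linarith
      obtain ⟨hdd, _⟩ := hgood c hcM1 hcM hHc
      have hsc : (0 : ℝ) < size c := by exact_mod_cast hcpos
      have hsc1 : (size c : ℝ) ≤ 2 * s := by
        have : size c ≤ 2 * s := by omega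
        exact_mod_cast this
      have hsc2 : (s : ℝ) / 2 ≤ size c := by
        have : s ≤ 2 * size c := by omega
        have h2 : (s : ℝ) ≤ 2 * size c := by exact_mod_cast this
        linarith
      have htot := start_total lam lmin lmax hl c
      have hgain : c1 * η ^ 2 / (2 * lmax * s) - 2 * μ / (lmin * s) ≤
          (c1 * dd lam c / (size c : ℝ) ^ 2 - μ) / total lam c :=
        start_gain c1 η lmin lmax μ s (total lam c) (size c) (dd lam c) hc1 h0 hL hμ0 hs0 hsc
          hdd.le htot.1 htot.2 hsc1 hsc2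
      have hPop : H c + (c1 * dd lam c / (size c : ℝ) ^ 2 - μ) / total lam c ≤ Pop lam H c := by
        have h2 := (hRt c hcM1).2
        have h3 := start_sub lam lmin lmax h0 hl m c hcpos
        have h4 : b * qq lam m c ≤ b * Pop lam (qq lam m) c :=
          mul_le_mul_of_nonneg_left h3 (by linarith)
        rw [hH, start_lin]
        dsimp only
        linarith
      obtain ⟨v, hv⟩ := start_succ lam lmin lmax h0 hl c hcpos H _ hPop
      have hsf := start_size c v
      refine ⟨fire c v, by omega, by omega, ?_⟩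
      push_cast
      have e : H cs + ((i : ℝ) + 1) * (c1 * η ^ 2 / (2 * lmax * s) - 2 * μ / (lmin * s)) =
        H cs + (i : ℝ) * (c1 * η ^ 2 / (2 * lmax * s) - 2 * μ / (lmin * s)) +
        (c1 * η ^ 2 / (2 * lmax * s) - 2 * μ / (lmin * s)) := by ring
      rw [e]
      linarith
  obtain ⟨c, hca, hcb, hcH⟩ := hpath n le_rfl
  have hn1 : (n : ℝ) ≤ s / 4 := by
    have : 4 * n ≤ s := by omega
    have h2 : (4 : ℝ) * n ≤ s := by exact_mod_cast this
    linarith
  have hn2 : (s : ℝ) / 8 ≤ n := by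
    have : s ≤ 8 * n := by omega
    have h2 : (s : ℝ) ≤ 8 * n := by exact_mod_cast this
    linarith
  have h2 : c1 * η ^ 2 / (16 * lmax) ≤ (n : ℝ) * (c1 * η ^ 2 / (2 * lmax * s)) := by
    calc c1 * η ^ 2 / (16 * lmax) = (s / 8) * (c1 * η ^ 2 / (2 * lmax * s)) := by
          field_simp
          ring
      _ ≤ _ := by gcongr
  have h3 : (n : ℝ) * (2 * μ / (lmin * s)) ≤ μ / (2 * lmin) := by
    calc (n : ℝ) * (2 * μ / (lmin * s)) ≤ (s / 4) * (2 * μ / (lmin * s)) := by gcongr
      _ = μ / (2 * lmin) := by field_simp; ring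
  have h4 : (n : ℝ) * (c1 * η ^ 2 / (2 * lmax * s) - 2 * μ / (lmin * s)) =
    (n : ℝ) * (c1 * η ^ 2 / (2 * lmax * s)) - (n : ℝ) * (2 * μ / (lmin * s)) := by ring
  have hHc : ρ + b - κ / 2 ≤ H c := by linarith
  have h5 := (hgood c (by omega) (by omega) hHc).2
  linarith

alias start := start_pr

end Pool.Agent.Lib_helper10.CU
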