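import Pool.Agent.Lib_helper10.CU.FIN1
import Pool.Agent.Lib_helper10.CU.START

-- block FIN2 written by helper54
/-! Block FIN2: no explosion (helper54). -/

set_option autoImplicit false
open scoped BigOperators Topology ENNReal
open Filter MeasureTheory ProbabilityTheory
noncomputable section

namespace Pool.Agent.Lib_helper10.CU

theorem fin2_exp (r : ℝ) (hr : 0 < r) :
    ∫⁻ t, ENNReal.ofReal (Real.exp (-t)) ∂(expMeasure r) = ENNReal.ofReal (r / (r + 1)) := by
  unfold expMeasure gammaMeasure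
  have hm : ∀ s : ℝ, Measurable (gammaPDF 1 s) := fun s =>
    (measurable_gammaPDFReal 1 s).ennreal_ofReal
  rw [lintegral_withDensity_eq_lintegral_mul _ (hm r) (by fun_prop)]
  have h1 : ∀ t, (gammaPDF 1 r * fun t => ENNReal.ofReal (Real.exp (-t))) t =
      ENNReal.ofReal (r / (r + 1)) * gammaPDF 1 (r + 1) t := by
    intro t
    simp only [Pi.mul_apply]
    change exponentialPDF r t * _ = _ * exponentialPDF (r + 1) t
    rcases lt_or_ge t 0 with ht | ht
    · rw [exponentialPDF_of_neg ht, exponentialPDF_of_neg ht]; simp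
    · rw [exponentialPDF_of_nonneg ht, exponentialPDF_of_nonneg ht,
        ← ENNReal.ofReal_mul (by positivity), ← ENNReal.ofReal_mul (by positivity)]
      congr 1
      have : Real.exp (-((r + 1) * t)) = Real.exp (-(r * t)) * Real.exp (-t) := by
        rw [← Real.exp_add]; congr 1; ring
      rw [this]
      field_simp
  rw [lintegral_congr h1, lintegral_const_mul _ (hm _)]
  rw [lintegral_gammaPDF_eq_one zero_lt_one (by linarith), mul_one]

theorem fin2_exp_nonneg (r : ℝ) : ∀ᵐ t ∂(expMeasure r), 0 ≤ t := by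
  rw [ae_iff]
  have h : {a : ℝ | ¬ 0 ≤ a} = Set.Iio 0 := by ext; simp
  rw [h]
  unfold expMeasure gammaMeasure
  rw [withDensity_apply _ measurableSet_Iio]
  exact lintegral_exponentialPDF_of_nonpos (r := r) le_rfl

theorem fin2_wait {N K : ℕ} [NeZero N] (lam : Fin K → ℝ) (hl : ∀ j, 0 < lam j)
    (d : Cfg N K) (hd : 0 < total lam d) :
    ∫⁻ p, ENNReal.ofReal (Real.exp (-p.2)) ∂(stepK lam d) =
      ENNReal.ofReal (total lam d / (total lam d + 1)) := by
  have := jumpLaw_prob lam hl d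
  have := waitLaw_prob lam hl d
  change ∫⁻ p, ENNReal.ofReal (Real.exp (-p.2)) ∂((jumpLaw lam d).prod (waitLaw lam d)) = _
  rw [lintegral_prod _ (by fun_prop)]
  simp only [lintegral_const, measure_univ, mul_one]
  unfold waitLaw
  rw [if_neg hd.ne']
  exact fin2_exp _ hd

theorem fin2_nonneg {N K : ℕ} [NeZero N] (hN : 3 ≤ N) (lam : Fin K → ℝ) (hl : ∀ j, 0 < lam j)
    (c : Cfg N K) (hc : 0 < size c) :
    ∀ᵐ ω ∂(law lam hl c), ∀ n, 0 ≤ (ω (n + 1)).2 := by
  rw [ae_all_iff]
  intro b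
  have h := fin1_succ_ae lam hl c b (fun _ p => 0 ≤ p.2) ?_ ?_
  · exact h
  · have h : MeasurableSet {z : Cfg N K × (Cfg N K × ℝ) | 0 ≤ z.2.2} :=
      measurableSet_le measurable_const (measurable_snd.comp measurable_snd)
    exact h.compl
  · filter_upwards [fin1_ae hN lam hl c hc b] with ω hω
    have ht := fin1_total_pos lam hl _ hω
    have := jumpLaw_prob lam hl (ω b).1
    have := waitLaw_prob lam hl (ω b).1
    change ∀ᵐ p ∂((jumpLaw lam (ω b).1).prod (waitLaw lam (ω b).1)), 0 ≤ p.2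
    apply Measure.quasiMeasurePreserving_snd.ae
    unfold waitLaw
    rw [if_neg ht.ne']
    exact fin2_exp_nonneg _

theorem fin2_size {N K : ℕ} [NeZero N] (hN : 3 ≤ N) (lam : Fin K → ℝ) (hl : ∀ j, 0 < lam j)
    (c : Cfg N K) (hc : 0 < size c) :
    ∀ᵐ ω ∂(law lam hl c), ∀ n, size (ω n).1 ≤ size c + 2 * n := by
  filter_upwards [law_fire_pr hN lam hl c hc] with ω hω n
  induction n with
  | zero => rw [hω.1]; omega
  | succ n ih =>
    obtain ⟨v, hv⟩ := hω.2 n
    rw [hv]
    have := (start_size (ω n).1 v).1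
    omega

theorem fin2_total_le {N K : ℕ} [NeZero N] (lam : Fin K → ℝ) (hl : ∀ j, 0 < lam j)
    (d : Cfg N K) : total lam d ≤ (∑ j, lam j) * size d := by
  refine (start_total lam 0 (∑ j, lam j) (fun j => ⟨(hl j).le, ?_⟩) d).2
  exact Finset.single_le_sum (f := lam) (fun i _ => (hl i).le) (Finset.mem_univ j)

theorem fin2_V {N K : ℕ} [NeZero N] (hN : 3 ≤ N) (lam : Fin K → ℝ) (hl : ∀ j, 0 < lam j)
    (c : Cfg N K) (hc : 0 < size c) (n : ℕ) :
    ∫⁻ ω, ENNReal.ofReal (Real.exp (-(jumpTime ω n))) ∂(law lam hl c) ≤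
      ∏ i ∈ Finset.range n, ENNReal.ofReal (1 - 1 /
        ((∑ j, lam j) * (size c + 2 * i : ℕ) + 1)) := by
  induction n with
  | zero =>
    simp [jumpTime]
  | succ n ih =>
    rw [Finset.prod_range_succ]
    have hs := fin1_step lam hl c n (fun z => ENNReal.ofReal (Real.exp
      (-(∑ i : Fin n, (z.1 ⟨i.1 + 1, Finset.mem_Iic.2 i.2⟩).2))) *
      ENNReal.ofReal (Real.exp (-z.2.2))) (by fun_prop)
    have e1 : ∀ ω : ℕ → Cfg N K × ℝ, ENNReal.ofReal (Real.exp (-(jumpTime ω (n + 1)))) =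
      ENNReal.ofReal (Real.exp (-(∑ i : Fin n, ((Preorder.frestrictLe
        (π := fun _ => Cfg N K × ℝ) n ω) ⟨i.1 + 1, Finset.mem_Iic.2 i.2⟩).2))) *
      ENNReal.ofReal (Real.exp (-(ω (n + 1)).2)) := by
      intro ω
      rw [← ENNReal.ofReal_mul (Real.exp_pos _).le, ← Real.exp_add]
      congr 2
      unfold jumpTime
      rw [Finset.sum_range_succ, neg_add]
      congr 2
      rw [← Fin.sum_univ_eq_sum_range (fun i => (ω (i + 1)).2)]
      rfl
    rw [lintegral_congr e1]
    refine (le_of_eq hs).trans ?_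
    have e2 : ∫⁻ ω, ∫⁻ p, ENNReal.ofReal (Real.exp (-(∑ i : Fin n, ((Preorder.frestrictLe
        (π := fun _ => Cfg N K × ℝ) n ω) ⟨i.1 + 1, Finset.mem_Iic.2 i.2⟩).2))) *
      ENNReal.ofReal (Real.exp (-p.2)) ∂(stepK lam (ω n).1) ∂(law lam hl c) ≤
      ∫⁻ ω, ENNReal.ofReal (Real.exp (-(jumpTime ω n))) * ENNReal.ofReal (1 - 1 /
        ((∑ j, lam j) * (size c + 2 * n : ℕ) + 1)) ∂(law lam hl c) := by
      apply lintegral_mono_ae
      filter_upwards [fin1_ae hN lam hl c hc n, fin2_size hN lam hl c hc] with ω hω hsz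
      have ht := fin1_total_pos lam hl _ hω
      rw [lintegral_const_mul _ (by fun_prop), fin2_wait lam hl _ ht]
      have e3 : (∑ i : Fin n, ((Preorder.frestrictLe
        (π := fun _ => Cfg N K × ℝ) n ω) ⟨i.1 + 1, Finset.mem_Iic.2 i.2⟩).2) = jumpTime ω n := by
        unfold jumpTime
        rw [← Fin.sum_univ_eq_sum_range (fun i => (ω (i + 1)).2)]
        rfl
      rw [e3]
      apply mul_le_mul_right
      apply ENNReal.ofReal_le_ofReal
      have h1 := fin2_total_le lam hl (ω n).1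
      have hL : 0 ≤ ∑ j, lam j := Finset.sum_nonneg (fun j _ => (hl j).le)
      have h2 : (∑ j, lam j) * (size (ω n).1 : ℝ) ≤ (∑ j, lam j) * (size c + 2 * n : ℕ) := by
        apply mul_le_mul_of_nonneg_left _ hL
        exact_mod_cast hsz n
      have h3 : total lam (ω n).1 / (total lam (ω n).1 + 1) = 1 - 1 / (total lam (ω n).1 + 1) := by
        field_simp
        ring
      rw [h3]
      have h4 : 1 / ((∑ j, lam j) * (size c + 2 * n : ℕ) + 1) ≤ 1 / (total lam (ω n).1 + 1) := by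
        apply one_div_le_one_div_of_le (by linarith)
        linarith
      linarith
    refine e2.trans ?_
    rw [lintegral_mul_const _ (by unfold jumpTime; fun_prop)]
    exact mul_le_mul_left ih _

theorem fin2_prod (L : ℝ) (hL : 0 ≤ L) (s : ℕ) :
    Tendsto (fun n => ∏ i ∈ Finset.range n, ENNReal.ofReal (1 - 1 /
        (L * (s + 2 * i : ℕ) + 1))) atTop (𝓝 0) := by
  have hB : 0 < L * s + 2 * L + 1 := by positivity
  have h1 : ∀ n, ∏ i ∈ Finset.range n, ENNReal.ofReal (1 - 1 / (L * (s + 2 * i : ℕ) + 1)) ≤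
      ENNReal.ofReal (Real.exp (-((1 / (L * s + 2 * L + 1)) *
        ∑ i ∈ Finset.range n, (1 / ((i : ℝ) + 1))))) := by
    intro n
    induction n with
    | zero => simp
    | succ n ih =>
      rw [Finset.prod_range_succ, Finset.sum_range_succ, mul_add, neg_add, Real.exp_add,
        ENNReal.ofReal_mul (Real.exp_pos _).le]
      apply mul_le_mul' ih
      apply ENNReal.ofReal_le_ofReal
      refine le_trans ?_ (Real.one_sub_le_exp_neg _)
      have h2 : 1 / (L * s + 2 * L + 1) * (1 / ((n : ℝ) + 1)) ≤ 1 / (L * (s + 2 * n : ℕ) + 1) := by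
        rw [one_div_mul_one_div]
        apply one_div_le_one_div_of_le (by positivity)
        push_cast
        have : 0 ≤ (n : ℝ) := by positivity
        have hs : 0 ≤ (s : ℝ) := by positivity
        nlinarith [mul_nonneg hL this, mul_nonneg hL hs, mul_nonneg (mul_nonneg hL hs) this]
      linarith
  have h2 : Tendsto (fun n : ℕ => ENNReal.ofReal (Real.exp (-((1 / (L * s + 2 * L + 1)) *
        ∑ i ∈ Finset.range n, (1 / ((i : ℝ) + 1)))))) atTop (𝓝 0) := by
    rw [← ENNReal.ofReal_zero]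
    apply ENNReal.tendsto_ofReal
    apply Real.tendsto_exp_atBot.comp
    apply Filter.tendsto_neg_atTop_atBot.comp
    exact Real.tendsto_sum_range_one_div_nat_succ_atTop.const_mul_atTop (by positivity)
  exact tendsto_of_tendsto_of_tendsto_of_le_of_le tendsto_const_nhds h2
    (fun n => zero_le) h1

theorem fin2_bounded {N K : ℕ} [NeZero N] (hN : 3 ≤ N) (lam : Fin K → ℝ) (hl : ∀ j, 0 < lam j)
    (c : Cfg N K) (hc : 0 < size c) (M : ℝ) :
    (law lam hl c) {ω | ∀ n, jumpTime ω n ≤ M} = 0 := by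
  have hm : ∀ n, Measurable (fun ω : ℕ → Cfg N K × ℝ => jumpTime ω n) := by
    intro n; unfold jumpTime; fun_prop
  have h1 : ∀ n, ENNReal.ofReal (Real.exp (-M)) * (law lam hl c) {ω | ∀ n, jumpTime ω n ≤ M} ≤
      ∏ i ∈ Finset.range n, ENNReal.ofReal (1 - 1 /
        ((∑ j, lam j) * (size c + 2 * i : ℕ) + 1)) := by
    intro n
    refine le_trans ?_ (fin2_V hN lam hl c hc n)
    refine le_trans ?_ (mul_meas_ge_le_lintegral ((hm n).neg.exp.ennreal_ofReal)
      (ENNReal.ofReal (Real.exp (-M))))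
    apply mul_le_mul_right
    apply measure_mono
    intro ω hω
    have := hω n
    apply ENNReal.ofReal_le_ofReal
    apply Real.exp_le_exp.2
    simp only [Pi.neg_apply]
    linarith
  have h2 := ge_of_tendsto' (fin2_prod (∑ j, lam j)
    (Finset.sum_nonneg (fun j _ => (hl j).le)) (size c)) h1
  rw [nonpos_iff_eq_zero, mul_eq_zero] at h2
  rcases h2 with h2 | h2
  · rw [ENNReal.ofReal_eq_zero] at h2
    exact absurd (Real.exp_pos (-M)) (not_lt.2 h2)
  · exact h2

theorem law_time_pr {N K : ℕ} [NeZero N] (hN : 3 ≤ N) (lam : Fin K → ℝ) (hl : ∀ j, 0 < lam j)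
    (c : Cfg N K) (hc : 0 < size c) :
    ∀ᵐ ω ∂(law lam hl c), (∀ n, 0 ≤ (ω (n + 1)).2) ∧ Tendsto (jumpTime ω) atTop atTop := by
  have h1 : ∀ᵐ ω ∂(law lam hl c), ∀ M : ℕ, ¬ ∀ n, jumpTime ω n ≤ M := by
    rw [ae_all_iff]
    intro M
    rw [ae_iff]
    simp only [not_not]
    exact fin2_bounded hN lam hl c hc M
  filter_upwards [fin2_nonneg hN lam hl c hc, h1] with ω hω hM
  refine ⟨hω, ?_⟩
  have hmono : Monotone (jumpTime ω) := by
    apply monotone_nat_of_le_succ
    intro n
    unfold jumpTime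
    rw [Finset.sum_range_succ]
    linarith [hω n]
  apply tendsto_atTop_atTop_of_monotone hmono
  intro b
  obtain ⟨M, hMb⟩ := exists_nat_ge b
  have := hM M
  push Not at this
  obtain ⟨n, hn⟩ := this
  exact ⟨n, by linarith⟩

alias law_time := law_time_pr

end Pool.Agent.Lib_helper10.CU
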