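import Pool.Agent.Lib_helper10.CU.Chain
import Pool.Agent.Lib_helper10.CU.FIN1
import Pool.Agent.Lib_helper10.CU.FIN2

set_option autoImplicit false
open scoped BigOperators Topology
open Filter MeasureTheory ProbabilityTheory
noncomputable section

namespace Pool.Agent.Lib_helper10.CU

/-! ## the final theorem -/

/-- all balls are of type `j` -/
def AllOf {N K : ℕ} (j : Fin K) (c : Cfg N K) : Prop :=
  ∀ v i k, c v = some (i, k) → i = j

theorem fin_allOf_fire {N K : ℕ} (j : Fin K) (c : Cfg N K) (h : AllOf j c) (v : ZMod N) :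
    AllOf j (fire c v) := by
  intro w i k hw
  unfold fire at hw
  cases hcv : c v with
  | none => rw [hcv] at hw; exact h w i k hw
  | some p =>
    obtain ⟨a, l⟩ := p
    have ha : a = j := h v a l hcv
    rw [hcv] at hw
    simp only at hw
    split_ifs at hw with hwv
    · cases hcw : c w with
      | none =>
        rw [hcw] at hw
        simp only [recv, Option.some.injEq, Prod.mk.injEq] at hw
        rw [← hw.1, ha]
      | some q =>
        obtain ⟨b, l'⟩ := q
        have hb : b = j := h w b l' hcw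
        rw [hcw] at hw
        simp only [recv] at hw
        rw [if_pos (hb.trans ha.symm)] at hw
        simp only [Option.some.injEq, Prod.mk.injEq] at hw
        rw [← hw.1, hb]
    · exact h w i k hw

theorem fin_mono_allOf {N K : ℕ} [NeZero N] (c : Cfg N K) (hc : 0 < size c) (h : Mono c) :
    ∃ j, AllOf j c := by
  have : ∃ v, 0 < cnt c v := by
    by_contra hcon
    push Not at hcon
    have : size c = 0 := Finset.sum_eq_zero (fun v _ => Nat.le_zero.1 (hcon v))
    omega
  obtain ⟨v, hv⟩ := this
  cases hcv : c v with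
  | none => simp [cnt, hcv] at hv
  | some p =>
    obtain ⟨a, l⟩ := p
    exact ⟨a, fun w i k hw => h w v i a k l hw hcv⟩

theorem fin_ne {N K : ℕ} [NeZero N] (c : Cfg N K) (hc : 0 < size c) : c ≠ fun _ => none := by
  rintro rfl
  simp [size, cnt] at hc

theorem single_survivor_pr {N K : ℕ} [NeZero N] (hN : 3 ≤ N) (lam : Fin K → ℝ)
    (hl : ∀ j, 0 < lam j) (c : Cfg N K) (hc : 0 < size c) :
    ∀ᵐ ω ∂(law lam hl c), Tendsto (jumpTime ω) atTop atTop ∧
      ∃ (j : Fin K) (t₀ : ℝ), ∀ t, t₀ ≤ t → stateAt ω t ≠ (fun _ => none) ∧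
        ∀ v i k, stateAt ω t v = some (i, k) → i = j := by
  -- some configuration of the path is `Mono`, almost surely
  have hmono : ∀ᵐ ω ∂(law lam hl c), ∃ n, Mono (ω n).1 := by
    rw [ae_iff]
    have hsub : ∀ n : ℕ, (law lam hl c) {ω | ¬ ∃ n, Mono (ω n).1} ≤
        ENNReal.ofReal (sv lam (fun c => ¬ Mono c) n c) := by
      intro n
      rw [← law_sv hN lam hl (fun c => ¬ Mono c) c hc n]
      apply measure_mono
      intro ω hω k _ hk
      exact hω ⟨k, hk⟩
    have hlim := single_survivor_chain hN lam hl c hc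
    have hlim2 : Tendsto (fun n => ENNReal.ofReal (sv lam (fun c => ¬ Mono c) n c)) atTop
        (𝓝 0) := by
      have := ENNReal.tendsto_ofReal hlim
      simpa using this
    exact le_antisymm (ge_of_tendsto' hlim2 hsub) bot_le
  filter_upwards [hmono, law_fire hN lam hl c hc, law_time hN lam hl c hc] with ω h1 h2 h3
  obtain ⟨n0, hn0⟩ := h1
  obtain ⟨h20, h2⟩ := h2
  obtain ⟨h3, h4⟩ := h3
  refine ⟨h4, ?_⟩
  have hpos : ∀ n, 0 < size (ω n).1 := by
    intro n
    induction n with
    | zero => rw [h20]; exact hc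
    | succ n ih =>
      obtain ⟨v, hv⟩ := h2 n
      rw [hv]; exact size_fire_pos hN _ v ih
  obtain ⟨j, hj⟩ := fin_mono_allOf _ (hpos n0) hn0
  have hall : ∀ n, n0 ≤ n → AllOf j (ω n).1 := by
    intro n hn
    induction n, hn using Nat.le_induction with
    | base => exact hj
    | succ n _ ih =>
      obtain ⟨v, hv⟩ := h2 n
      rw [hv]; exact fin_allOf_fire j _ ih v
  have hmon : Monotone (jumpTime ω) := by
    apply monotone_nat_of_le_succ
    intro n
    unfold jumpTime
    rw [Finset.sum_range_succ]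
    linarith [h3 n]
  refine ⟨j, jumpTime ω n0, fun t ht => ⟨?_, ?_⟩⟩
  · exact fin_ne _ (hpos _)
  · have hne : {n | t < jumpTime ω (n + 1)}.Nonempty := by
      obtain ⟨n, hn⟩ := (h4.eventually (eventually_gt_atTop t)).exists
      exact ⟨n, lt_of_lt_of_le hn (hmon (Nat.le_succ n))⟩
    have hmem : t < jumpTime ω (sInf {n | t < jumpTime ω (n + 1)} + 1) := Nat.sInf_mem hne
    have hge : n0 ≤ sInf {n | t < jumpTime ω (n + 1)} := by
      by_contra hcon
      push Not at hcon
      have := hmon (show sInf {n | t < jumpTime ω (n + 1)} + 1 ≤ n0 by omega)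
      linarith
    exact hall _ hge

end Pool.Agent.Lib_helper10.CU
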