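import Pool.Agent.Lib_helper10.CU.Defs

-- block GAP written by helper3
set_option autoImplicit false
open scoped BigOperators Topology
open Filter
noncomputable section

namespace Pool.Agent.Lib_helper10.CU

/-! ## GAP -/

/-- the twisted operator `y ↦ nb ε (lam (D v) y v)` -/
def gapT {N K : ℕ} (lam : Fin K → ℝ) (ε : Vec N) (D : ZMod N → Fin K) : Vec N →ₗ[ℝ] Vec N where
  toFun y := nb ε (fun v => lam (D v) * y v)
  map_add' x y := by
    funext w
    simp only [nb, Pi.add_apply]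
    ring
  map_smul' a x := by
    funext w
    simp only [nb, Pi.smul_apply, smul_eq_mul, RingHom.id_apply]
    ring

theorem gap_one {N : ℕ} [NeZero N] (T : Vec N →ₗ[ℝ] Vec N) (a b : ℝ)
    (h : ∀ R ∈ Set.Icc a b, ∀ y, T y = R • y → y = 0) :
    ∃ η : ℝ, 0 < η ∧ ∀ (y : Vec N) (R : ℝ), a ≤ R → R ≤ b → η * ‖y‖ ≤ ‖T y - R • y‖ := by
  have hcomp : IsCompact (Set.Icc a b ×ˢ Metric.sphere (0 : Vec N) 1) :=
    isCompact_Icc.prod (isCompact_sphere _ _)
  have hT : Continuous T := T.continuous_of_finiteDimensional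
  have hcont : Continuous (fun p : ℝ × Vec N => ‖T p.2 - p.1 • p.2‖) := by fun_prop
  have hunit : ∀ (y : Vec N), y ≠ 0 → ∀ R, a ≤ R → R ≤ b →
      (R, ‖y‖⁻¹ • y) ∈ Set.Icc a b ×ˢ Metric.sphere (0 : Vec N) 1 := by
    intro y hy R h1 h2
    refine ⟨⟨h1, h2⟩, ?_⟩
    rw [mem_sphere_zero_iff_norm, norm_smul, norm_inv, norm_norm, inv_mul_cancel₀]
    exact norm_ne_zero_iff.2 hy
  by_cases hne : (Set.Icc a b ×ˢ Metric.sphere (0 : Vec N) 1).Nonempty
  · obtain ⟨⟨R0, y0⟩, hmem, hmin⟩ := hcomp.exists_isMinOn hne hcont.continuousOn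
    refine ⟨‖T y0 - R0 • y0‖, ?_, fun y R h1 h2 => ?_⟩
    · rw [norm_pos_iff]
      intro h0
      have := h R0 hmem.1 y0 (sub_eq_zero.1 h0)
      have h' := hmem.2
      rw [mem_sphere_zero_iff_norm] at h'
      simp only at h'
      rw [this, norm_zero] at h'
      exact zero_ne_one h'
    · by_cases hy : y = 0
      · subst hy; simp
      · have h3 := hmin (hunit y hy R h1 h2)
        simp only [Set.mem_ofPred_eq] at h3
        have hpos : 0 < ‖y‖ := norm_pos_iff.2 hy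
        have h4 : ‖T (‖y‖⁻¹ • y) - R • (‖y‖⁻¹ • y)‖ = ‖y‖⁻¹ * ‖T y - R • y‖ := by
          rw [map_smul, smul_comm R, ← smul_sub, norm_smul, norm_inv, norm_norm]
        rw [h4] at h3
        calc ‖T y0 - R0 • y0‖ * ‖y‖ ≤ ‖y‖⁻¹ * ‖T y - R • y‖ * ‖y‖ :=
              mul_le_mul_of_nonneg_right h3 hpos.le
          _ = ‖T y - R • y‖ := by field_simp
  · refine ⟨1, one_pos, fun y R h1 h2 => ?_⟩
    by_cases hy : y = 0
    · subst hy; simp
    · exact absurd ⟨_, hunit y hy R h1 h2⟩ hne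

theorem gap_sgn_finite {N : ℕ} [NeZero N] : {s : Vec N | IsSgn s}.Finite := by
  have : {s : Vec N | IsSgn s} = Set.pi Set.univ (fun _ : ZMod N => ({1, -1} : Set ℝ)) := by
    ext s
    simp [IsSgn, Set.mem_pi]
  rw [this]
  exact Set.Finite.pi fun _ => Set.toFinite _

theorem gap_pr {N K : ℕ} [NeZero N] (hN : 3 ≤ N) (lam : Fin K → ℝ) (hl : ∀ j, 0 < lam j) (ρ : ℝ) :
    ∃ δ0 : ℝ, 0 < δ0 ∧ ∀ δ : ℝ, 0 < δ → δ ≤ δ0 → ∃ ηδ : ℝ, 0 < ηδ ∧ ∀ ε : Vec N, IsSgn ε →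
      ∀ (D : ZMod N → Fin K) (y : Vec N) (R : ℝ), ρ - 2 * δ ≤ R → R ≤ ρ - δ →
      ηδ * ‖y‖ ≤ ‖nb ε (fun v => lam (D v) * y v) - R • y‖ := by
  have hfin : ({s : Vec N | IsSgn s} ×ˢ (Set.univ : Set (ZMod N → Fin K))).Finite :=
    gap_sgn_finite.prod Set.finite_univ
  have h1 : ∀ᶠ δ in 𝓝[>] (0 : ℝ), ∀ p ∈ ({s : Vec N | IsSgn s} ×ˢ
      (Set.univ : Set (ZMod N → Fin K))), ∀ R ∈ Set.Ico (ρ - 2 * δ) ρ, ∀ y,
      gapT lam p.1 p.2 y = R • y → y = 0 := by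
    rw [Filter.eventually_all_finite hfin]
    intro p _
    have hE : {R : ℝ | Module.End.HasEigenvalue (gapT lam p.1 p.2) R}.Finite :=
      Module.End.finite_hasEigenvalue _
    have h2 : ∀ᶠ δ in 𝓝[>] (0 : ℝ), ∀ R ∈ {R : ℝ | Module.End.HasEigenvalue (gapT lam p.1 p.2) R},
        R ∉ Set.Ico (ρ - 2 * δ) ρ := by
      rw [Filter.eventually_all_finite hE]
      intro R _
      by_cases hR : R < ρ
      · have : ∀ᶠ δ in 𝓝[>] (0 : ℝ), δ < (ρ - R) / 2 := by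
          apply Filter.Eventually.filter_mono nhdsWithin_le_nhds
          exact gt_mem_nhds (by linarith)
        filter_upwards [this] with δ hδ hmem
        have := hmem.1
        linarith
      · exact Filter.Eventually.of_forall fun δ hmem => hR hmem.2
    filter_upwards [h2] with δ hδ R hR y hy
    by_contra hne
    exact hδ R (Module.End.hasEigenvalue_of_hasEigenvector
      ⟨Module.End.mem_eigenspace_iff.2 hy, hne⟩) hR
  obtain ⟨δ0, hδ0, hδpos⟩ := (h1.and self_mem_nhdsWithin).exists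
  refine ⟨δ0, hδpos, fun δ hδ hle => ?_⟩
  have h3 : ∀ᶠ η in 𝓝[>] (0 : ℝ), ∀ p ∈ ({s : Vec N | IsSgn s} ×ˢ
      (Set.univ : Set (ZMod N → Fin K))), ∀ (y : Vec N) (R : ℝ), ρ - 2 * δ ≤ R → R ≤ ρ - δ →
      η * ‖y‖ ≤ ‖gapT lam p.1 p.2 y - R • y‖ := by
    rw [Filter.eventually_all_finite hfin]
    intro p hp
    obtain ⟨η, hη, hη2⟩ := gap_one (gapT lam p.1 p.2) (ρ - 2 * δ) (ρ - δ) (by
      intro R hR y hy
      exact hδ0 p hp R ⟨by linarith [hR.1], by linarith [hR.2]⟩ y hy)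
    have : ∀ᶠ η' in 𝓝[>] (0 : ℝ), η' < η := by
      apply Filter.Eventually.filter_mono nhdsWithin_le_nhds
      exact gt_mem_nhds hη
    filter_upwards [this] with η' hη' y R hR1 hR2
    exact (mul_le_mul_of_nonneg_right hη'.le (norm_nonneg y)).trans (hη2 y R hR1 hR2)
  obtain ⟨η, hη, hηpos⟩ := (h3.and self_mem_nhdsWithin).exists
  refine ⟨η, hηpos, fun ε hε D y R hR1 hR2 => ?_⟩
  exact hη (ε, D) ⟨hε, Set.mem_univ _⟩ y R hR1 hR2

alias gap := gap_pr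

end Pool.Agent.Lib_helper10.CU
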