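import Pool.Agent.Lib_helper10.CU.Defs

-- block GL written by helper38
/-! Block GL of MP_c1a6e4_pr: generator inequality for the (smoothed) Rayleigh quotient. -/

set_option autoImplicit false
open scoped BigOperators
noncomputable section

namespace Pool.Agent.Lib_helper10.CU

/-! ### smoothing of the rates -/

/-- smoothed slope -/
def gl_s (lmin : ℝ) (M : ℕ) (l : ℝ) (k : ℕ) : ℝ := lmin + (l - lmin) * min ((k : ℝ) / M) 1

/-- smoothed rate -/
def gl_ph (lmin : ℝ) (M : ℕ) (l : ℝ) (n : ℕ) : ℝ := ∑ k ∈ Finset.range n, gl_s lmin M l k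

theorem gl_s_zero (lmin : ℝ) (M : ℕ) (l : ℝ) : gl_s lmin M l 0 = lmin := by
  simp [gl_s]

theorem gl_s_ge {lmin l : ℝ} (M : ℕ) (h1 : lmin ≤ l) (k : ℕ) : lmin ≤ gl_s lmin M l k := by
  unfold gl_s
  have h2 : 0 ≤ min ((k : ℝ) / M) 1 := le_min (by positivity) zero_le_one
  nlinarith [mul_nonneg (sub_nonneg.mpr h1) h2]

theorem gl_s_le {lmin l : ℝ} (M : ℕ) (h1 : lmin ≤ l) (k : ℕ) : gl_s lmin M l k ≤ l := by
  unfold gl_s
  have h2 : min ((k : ℝ) / M) 1 ≤ 1 := min_le_right _ _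
  nlinarith [mul_nonneg (sub_nonneg.mpr h1) (sub_nonneg.mpr h2)]

theorem gl_s_diff {lmin l : ℝ} (M : ℕ) (hM : 0 < M) (h0 : 0 ≤ lmin) (h1 : lmin ≤ l) (k : ℕ) :
    |gl_s lmin M l (k + 1) - gl_s lmin M l k| ≤ l / M := by
  unfold gl_s
  have hM' : (0 : ℝ) < M := by exact_mod_cast hM
  have h3 : |min (((k + 1 : ℕ) : ℝ) / M) 1 - min ((k : ℝ) / M) 1| ≤ 1 / M := by
    refine (abs_min_sub_min_le_max _ _ _ _).trans ?_
    rw [sub_self, abs_zero]
    refine max_le ?_ (by positivity)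
    rw [← sub_div]
    push_cast
    rw [add_sub_cancel_left, abs_of_nonneg (by positivity)]
  have h4 : lmin + (l - lmin) * min (((k + 1 : ℕ) : ℝ) / M) 1 -
      (lmin + (l - lmin) * min ((k : ℝ) / M) 1) =
      (l - lmin) * (min (((k + 1 : ℕ) : ℝ) / M) 1 - min ((k : ℝ) / M) 1) := by ring
  rw [h4, abs_mul, abs_of_nonneg (sub_nonneg.mpr h1)]
  calc (l - lmin) * |min (((k + 1 : ℕ) : ℝ) / M) 1 - min ((k : ℝ) / M) 1|
      ≤ l * (1 / M) := mul_le_mul (by linarith) h3 (abs_nonneg _) (by linarith)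
    _ = l / M := by ring

theorem gl_s_err {lmin l : ℝ} (M : ℕ) (hM : 0 < M) (h0 : 0 ≤ lmin) (h1 : lmin ≤ l) (k : ℕ) :
    0 ≤ (l - gl_s lmin M l k) * k ∧ (l - gl_s lmin M l k) * k ≤ l * M := by
  have h2 := gl_s_le M h1 k
  have hM' : (0 : ℝ) < M := by exact_mod_cast hM
  refine ⟨mul_nonneg (by linarith) (by positivity), ?_⟩
  rcases le_total M k with h | h
  · have h3 : gl_s lmin M l k = l := by
      unfold gl_s
      rw [min_eq_right]
      · ring
      · rw [le_div_iff₀ hM', one_mul]; exact_mod_cast h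
    rw [h3]
    simp only [sub_self, zero_mul]
    have : 0 ≤ l := h0.trans h1
    positivity
  · have h3 := gl_s_ge M h1 k
    have h4 : (k : ℝ) ≤ M := by exact_mod_cast h
    have h5 : (0 : ℝ) ≤ k := by positivity
    nlinarith

theorem gl_ph_zero (lmin : ℝ) (M : ℕ) (l : ℝ) : gl_ph lmin M l 0 = 0 := by simp [gl_ph]

theorem gl_ph_succ (lmin : ℝ) (M : ℕ) (l : ℝ) (n : ℕ) :
    gl_ph lmin M l (n + 1) = gl_ph lmin M l n + gl_s lmin M l n := by
  simp [gl_ph, Finset.sum_range_succ]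

theorem gl_ph_nonneg {lmin l : ℝ} (M : ℕ) (h0 : 0 ≤ lmin) (h1 : lmin ≤ l) (n : ℕ) :
    0 ≤ gl_ph lmin M l n :=
  Finset.sum_nonneg fun k _ => h0.trans (gl_s_ge M h1 k)

theorem gl_ph_le {lmin l : ℝ} (M : ℕ) (h1 : lmin ≤ l) (n : ℕ) :
    gl_ph lmin M l n ≤ l * n := by
  induction n with
  | zero => simp [gl_ph]
  | succ n ih =>
    rw [gl_ph_succ]
    have := gl_s_le M h1 n
    push_cast
    linarith

theorem gl_ph_err {lmin l : ℝ} (M : ℕ) (hM : 0 < M) (h0 : 0 ≤ lmin) (h1 : lmin ≤ l) (n : ℕ) :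
    |gl_ph lmin M l n - l * n| ≤ l * M := by
  have h2 := gl_ph_le M h1 n
  rw [abs_sub_comm, abs_of_nonneg (by linarith)]
  have hl : 0 ≤ l := h0.trans h1
  -- both for n ≤ M and beyond
  have key : ∀ n : ℕ, l * n - gl_ph lmin M l n ≤ l * min (n : ℝ) M := by
    intro n
    induction n with
    | zero => simp [gl_ph]
    | succ n ih =>
      rw [gl_ph_succ]
      rcases lt_or_ge n M with h | h
      · have h3 : ((n : ℝ)) ≤ M := by exact_mod_cast h.le
        have h4 : (((n + 1 : ℕ)) : ℝ) ≤ M := by exact_mod_cast h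
        rw [min_eq_left h3] at ih
        rw [min_eq_left h4]
        have h5 := gl_s_ge M h1 n
        push_cast
        linarith
      · have h3 : (M : ℝ) ≤ n := by exact_mod_cast h
        have h4 : (M : ℝ) ≤ ((n + 1 : ℕ) : ℝ) := by push_cast; linarith
        rw [min_eq_right h3] at ih
        rw [min_eq_right h4]
        have hM' : (0 : ℝ) < M := by exact_mod_cast hM
        have h5 : gl_s lmin M l n = l := by
          unfold gl_s
          rw [min_eq_right]
          · ring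
          · rw [le_div_iff₀ hM', one_mul]; exact h3
        push_cast
        linarith
  exact (key n).trans (mul_le_mul_of_nonneg_left (min_le_right _ _) hl)

/-! ### functions of urns -/

section
variable {K : ℕ}

def gl_x (lam : Fin K → ℝ) : Urn K → ℝ
  | none => 0
  | some (j, k) => lam j * ((k : ℝ) + 1)

def gl_xt (lam : Fin K → ℝ) (lmin : ℝ) (M : ℕ) : Urn K → ℝ
  | none => 0
  | some (j, k) => gl_ph lmin M (lam j) (k + 1)

def gl_n : Urn K → ℝ
  | none => 0
  | some (_, k) => (k : ℝ) + 1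

def gl_tv (a : Urn K) (j : Fin K) : ℝ :=
  match a with
  | none => 0
  | some (i, _) => if i = j then 1 else -1

def gl_sm (a b : Urn K) : ℝ :=
  match a, b with
  | some (i, _), some (j, _) => if i = j then 1 else -1
  | _, _ => 0

/-- smoothed slope of an urn -/
def gl_sig (lam : Fin K → ℝ) (lmin : ℝ) (M : ℕ) : Urn K → ℝ
  | none => lmin
  | some (j, k) => gl_s lmin M (lam j) (k + 1)

def gl_e (lam : Fin K → ℝ) (lmin : ℝ) (M : ℕ) (a b : Urn K) : ℝ :=
  gl_sm a b * (gl_xt lam lmin M a * gl_xt lam lmin M b)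

def gl_de (lam : Fin K → ℝ) (lmin : ℝ) (M : ℕ) (u a : Urn K) (j : Fin K) : ℝ :=
  gl_e lam lmin M u (recv j a) - gl_e lam lmin M u a

def gl_R (lam : Fin K → ℝ) (p : Urn K) (f : Fin K → ℝ) : ℝ :=
  match p with
  | none => 0
  | some (j, k) => lam j * ((k : ℝ) + 1) * f j

def gl_bb (lam : Fin K → ℝ) (u a z : Urn K) : ℝ :=
  match a with
  | some _ => gl_sm u a * gl_x lam u + gl_sm a z * gl_x lam z
  | none => if gl_sm u z = -1 then |gl_x lam u - gl_x lam z| else gl_x lam u + gl_x lam z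

theorem gl_sm_comm (a b : Urn K) : gl_sm a b = gl_sm b a := by
  rcases a with _ | ⟨i, k⟩ <;> rcases b with _ | ⟨j, l⟩ <;> simp [gl_sm, eq_comm]

theorem gl_e_comm (lam : Fin K → ℝ) (lmin : ℝ) (M : ℕ) (a b : Urn K) :
    gl_e lam lmin M a b = gl_e lam lmin M b a := by
  unfold gl_e
  rw [gl_sm_comm, mul_comm (gl_xt lam lmin M a)]

theorem gl_tv_abs (a : Urn K) (j : Fin K) : |gl_tv a j| ≤ 1 := by
  rcases a with _ | ⟨i, k⟩
  · simp [gl_tv]
  · by_cases h : i = j <;> simp [gl_tv, h]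

theorem gl_sm_abs (a b : Urn K) : |gl_sm a b| ≤ 1 := by
  rcases a with _ | ⟨i, k⟩ <;> rcases b with _ | ⟨j, l⟩ <;> simp [gl_sm]
  by_cases h : i = j <;> simp [h]

end

/-! ### three urns -/

section
variable {K : ℕ} (lam : Fin K → ℝ) (lmin L : ℝ) (M : ℕ)

theorem gl_de_none (u : Urn K) (j : Fin K) :
    gl_de lam lmin M u none j = lmin * (gl_tv u j * gl_xt lam lmin M u) := by
  rcases u with _ | ⟨i, k⟩
  · simp [gl_de, gl_e, gl_sm, gl_tv, recv]
  · simp only [gl_de, gl_e, gl_sm, gl_tv, recv, gl_xt, gl_ph_succ, gl_ph_zero, gl_s_zero]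
    ring

theorem gl_de_same (u : Urn K) (i : Fin K) (k : ℕ) :
    gl_de lam lmin M u (some (i, k)) i =
      gl_s lmin M (lam i) (k + 1) * (gl_tv u i * gl_xt lam lmin M u) := by
  rcases u with _ | ⟨i', k'⟩
  · simp [gl_de, gl_e, gl_sm, gl_tv, recv]
  · simp only [gl_de, gl_e, gl_sm, gl_tv, recv, gl_xt, if_true]
    rw [gl_ph_succ lmin M (lam i) (k + 1)]
    ring

theorem gl_de_diff (u : Urn K) (i j : Fin K) (hij : i ≠ j) (k : ℕ) :
    gl_de lam lmin M u (some (i, k)) j =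
      -gl_s lmin M (lam i) k * (gl_tv u i * gl_xt lam lmin M u) := by
  rcases u with _ | ⟨i', k'⟩
  · rcases k with _ | k <;> simp [gl_de, gl_e, gl_sm, gl_tv, recv, hij]
  · rcases k with _ | k
    · simp only [gl_de, gl_e, gl_sm, gl_tv, recv, gl_xt, if_neg hij]
      rw [gl_ph_succ lmin M (lam i) 0, gl_ph_zero]
      ring
    · simp only [gl_de, gl_e, gl_sm, gl_tv, recv, gl_xt, if_neg hij]
      rw [gl_ph_succ lmin M (lam i) (k + 1)]
      ring

end


section
variable {K : ℕ} {lam : Fin K → ℝ} {lmin L : ℝ} {M : ℕ}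

theorem gl_n_nonneg (a : Urn K) : 0 ≤ gl_n a := by
  rcases a with _ | ⟨i, k⟩
  · simp [gl_n]
  · simp only [gl_n]; positivity

theorem gl_x_nonneg (h0 : 0 < lmin) (hl : ∀ j, lmin ≤ lam j ∧ lam j ≤ L) (a : Urn K) :
    0 ≤ gl_x lam a := by
  rcases a with _ | ⟨i, k⟩
  · simp [gl_x]
  · have := (hl i).1
    have : 0 < lam i := by linarith
    simp only [gl_x]; positivity

theorem gl_x_le (h0 : 0 < lmin) (hl : ∀ j, lmin ≤ lam j ∧ lam j ≤ L) (a : Urn K) :
    gl_x lam a ≤ L * gl_n a := by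
  rcases a with _ | ⟨i, k⟩
  · simp [gl_x, gl_n]
  · simp only [gl_x, gl_n]
    exact mul_le_mul_of_nonneg_right (hl i).2 (by positivity)

theorem gl_x_ge (h0 : 0 < lmin) (hl : ∀ j, lmin ≤ lam j ∧ lam j ≤ L) (a : Urn K) :
    lmin * gl_n a ≤ gl_x lam a := by
  rcases a with _ | ⟨i, k⟩
  · simp [gl_x, gl_n]
  · simp only [gl_x, gl_n]
    exact mul_le_mul_of_nonneg_right (hl i).1 (by positivity)

theorem gl_xt_nonneg (h0 : 0 < lmin) (hl : ∀ j, lmin ≤ lam j ∧ lam j ≤ L) (a : Urn K) :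
    0 ≤ gl_xt lam lmin M a := by
  rcases a with _ | ⟨i, k⟩
  · simp [gl_xt]
  · exact gl_ph_nonneg M h0.le (hl i).1 _

theorem gl_xt_le_x (h0 : 0 < lmin) (hl : ∀ j, lmin ≤ lam j ∧ lam j ≤ L) (a : Urn K) :
    gl_xt lam lmin M a ≤ gl_x lam a := by
  rcases a with _ | ⟨i, k⟩
  · simp [gl_xt, gl_x]
  · have := gl_ph_le (lmin := lmin) M (hl i).1 (k + 1)
    simp only [gl_xt, gl_x]
    push_cast at this
    exact this

theorem gl_xt_err (hM : 0 < M) (h0 : 0 < lmin) (hlm : lmin ≤ L)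
    (hl : ∀ j, lmin ≤ lam j ∧ lam j ≤ L)
    (a : Urn K) : |gl_xt lam lmin M a - gl_x lam a| ≤ L * M := by
  rcases a with _ | ⟨i, k⟩
  · simp only [gl_xt, gl_x, sub_self, abs_zero]
    have : 0 < L := by linarith
    positivity
  · have := gl_ph_err M hM h0.le (hl i).1 (k + 1)
    simp only [gl_xt, gl_x]
    push_cast at this
    refine this.trans ?_
    exact mul_le_mul_of_nonneg_right (hl i).2 (by positivity)

/-- one neighbour of a nonempty urn -/
theorem gl_R_some (hM : 0 < M) (h0 : 0 < lmin) (hlm : lmin ≤ L)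
    (hl : ∀ j, lmin ≤ lam j ∧ lam j ≤ L) (p : Urn K) (i : Fin K) (k : ℕ) (bt S : ℝ)
    (hp : gl_n p ≤ S) :
    ∃ ε : ℝ, |ε| ≤ L / M * (L * S) ∧
      gl_R lam p (fun j => if i = j then 2 * gl_s lmin M (lam i) (k + 1) * bt
        else -2 * gl_s lmin M (lam i) k * bt) =
        2 * bt * (gl_s lmin M (lam i) (k + 1) * (gl_tv p i * gl_x lam p) + ε) := by
  have hL : 0 < L := by linarith
  have hM' : (0 : ℝ) < M := by exact_mod_cast hM
  have hS : 0 ≤ S := (gl_n_nonneg p).trans hp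
  rcases p with _ | ⟨j, l⟩
  · refine ⟨0, ?_, ?_⟩
    · rw [abs_zero]; positivity
    · simp [gl_R, gl_x]
  · by_cases hij : i = j
    · refine ⟨0, ?_, ?_⟩
      · rw [abs_zero]; positivity
      · subst hij
        simp only [gl_R, gl_x, gl_tv, if_true]
        ring
    · refine ⟨(gl_s lmin M (lam i) (k + 1) - gl_s lmin M (lam i) k) * (lam j * ((l : ℝ) + 1)),
        ?_, ?_⟩
      · rw [abs_mul]
        have h1 := gl_s_diff M hM h0.le (hl i).1 k
        have h2 : 0 ≤ lam j * ((l : ℝ) + 1) := gl_x_nonneg h0 hl (some (j, l))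
        rw [abs_of_nonneg h2]
        refine mul_le_mul (h1.trans ?_) ?_ h2 (by positivity)
        · exact div_le_div_of_nonneg_right (hl i).2 hM'.le
        · have h3 := gl_x_le h0 hl (some (j, l))
          simp only [gl_x] at h3
          exact h3.trans (mul_le_mul_of_nonneg_left hp hL.le)
      · simp only [gl_R, gl_x, gl_tv, if_neg hij, if_neg (Ne.symm hij)]
        ring

theorem gl_abs_tv_mul (u : Urn K) (i : Fin K) (y c : ℝ) (h : |y| ≤ c) : |gl_tv u i * y| ≤ c := by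
  rw [abs_mul]
  have h1 := gl_tv_abs u i
  have h2 := abs_nonneg y
  nlinarith [abs_nonneg (gl_tv u i)]

theorem gl_sm_some_left (i : Fin K) (k : ℕ) (z : Urn K) : gl_sm (some (i, k)) z = gl_tv z i := by
  rcases z with _ | ⟨j, l⟩ <;> simp [gl_sm, gl_tv, eq_comm]

theorem gl_sm_some_right (i : Fin K) (k : ℕ) (z : Urn K) : gl_sm z (some (i, k)) = gl_tv z i := by
  rcases z with _ | ⟨j, l⟩ <;> simp [gl_sm, gl_tv]

theorem gl_de_some (u : Urn K) (i j : Fin K) (k : ℕ) :
    gl_de lam lmin M u (some (i, k)) j = if i = j then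
      gl_s lmin M (lam i) (k + 1) * (gl_tv u i * gl_xt lam lmin M u) else
      -gl_s lmin M (lam i) k * (gl_tv u i * gl_xt lam lmin M u) := by
  by_cases hij : i = j
  · subst hij
    rw [if_pos rfl, gl_de_same]
  · rw [if_neg hij, gl_de_diff _ _ _ _ _ _ hij]

theorem gl_three (hM : 0 < M) (h0 : 0 < lmin) (hlm : lmin ≤ L)
    (hl : ∀ j, lmin ≤ lam j ∧ lam j ≤ L) (u a z : Urn K) (S : ℝ) (hu : gl_n u ≤ S)
    (hz : gl_n z ≤ S) :
    |gl_R lam u (fun j => 2 * (gl_de lam lmin M u a j + gl_de lam lmin M z a j)) +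
      gl_R lam z (fun j => 2 * (gl_de lam lmin M u a j + gl_de lam lmin M z a j)) -
      2 * (gl_sig lam lmin M a * (gl_bb lam u a z) ^ 2)| ≤
      8 * L ^ 3 * M * S + 8 * L ^ 3 * S ^ 2 / M := by
  have hL : 0 < L := by linarith
  have hM' : (0 : ℝ) < M := by exact_mod_cast hM
  have hS : 0 ≤ S := (gl_n_nonneg u).trans hu
  have hxu0 := gl_x_nonneg h0 hl u
  have hxz0 := gl_x_nonneg h0 hl z
  have hxu : gl_x lam u ≤ L * S := (gl_x_le h0 hl u).trans (mul_le_mul_of_nonneg_left hu hL.le)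
  have hxz : gl_x lam z ≤ L * S := (gl_x_le h0 hl z).trans (mul_le_mul_of_nonneg_left hz hL.le)
  have htu0 := gl_xt_nonneg (M := M) h0 hl u
  have htz0 := gl_xt_nonneg (M := M) h0 hl z
  have htu : gl_xt lam lmin M u ≤ L * S := (gl_xt_le_x h0 hl u).trans hxu
  have htz : gl_xt lam lmin M z ≤ L * S := (gl_xt_le_x h0 hl z).trans hxz
  have heu := gl_xt_err hM h0 hlm hl u
  have hez := gl_xt_err hM h0 hlm hl z
  rcases a with _ | ⟨i, k⟩
  · have hR : 0 ≤ 8 * L ^ 3 * S ^ 2 / M := by positivity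
    refine le_trans ?_ (le_add_of_nonneg_right hR)
    have hD : (fun j => 2 * (gl_de lam lmin M u none j + gl_de lam lmin M z none j)) = fun j =>
        2 * lmin * (gl_tv u j * gl_xt lam lmin M u + gl_tv z j * gl_xt lam lmin M z) := by
      funext j
      rw [gl_de_none, gl_de_none]; ring
    rw [hD]
    have hsig : gl_sig lam lmin M none = lmin := rfl
    rw [hsig]
    -- general estimate
    have key : ∀ s : ℝ, |s| ≤ 1 →
        |2 * lmin * ((gl_x lam u + s * gl_x lam z) * ((gl_xt lam lmin M u - gl_x lam u) +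
          s * (gl_xt lam lmin M z - gl_x lam z)))| ≤ 8 * L ^ 3 * M * S := by
      intro s hs
      rw [abs_mul, abs_mul (gl_x lam u + s * gl_x lam z), abs_of_nonneg (by positivity : (0:ℝ) ≤ 2 * lmin)]
      have h1 : |gl_x lam u + s * gl_x lam z| ≤ 2 * (L * S) := by
        refine (abs_add_le _ _).trans ?_
        rw [abs_mul, abs_of_nonneg hxu0, abs_of_nonneg hxz0]
        nlinarith [abs_nonneg s]
      have h2 : |(gl_xt lam lmin M u - gl_x lam u) + s * (gl_xt lam lmin M z - gl_x lam z)| ≤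
          2 * (L * M) := by
        refine (abs_add_le _ _).trans ?_
        rw [abs_mul]
        nlinarith [abs_nonneg s, abs_nonneg (gl_xt lam lmin M z - gl_x lam z)]
      calc 2 * lmin * (|gl_x lam u + s * gl_x lam z| *
            |(gl_xt lam lmin M u - gl_x lam u) + s * (gl_xt lam lmin M z - gl_x lam z)|)
          ≤ 2 * L * ((2 * (L * S)) * (2 * (L * M))) := by gcongr
        _ = 8 * L ^ 3 * M * S := by ring
    rcases u with _ | ⟨i, k⟩ <;> rcases z with _ | ⟨j, l⟩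
    · simp only [gl_R, gl_bb, gl_sm, gl_x]
      norm_num
      positivity
    · have := key 1 (by simp)
      simp only [gl_R, gl_bb, gl_sm, gl_x, gl_xt, gl_tv] at this ⊢
      refine le_trans (le_of_eq ?_) this
      congr 1
      norm_num
      ring
    · have := key 1 (by simp)
      simp only [gl_R, gl_bb, gl_sm, gl_x, gl_xt, gl_tv] at this ⊢
      refine le_trans (le_of_eq ?_) this
      congr 1
      norm_num
      ring
    · by_cases hij : i = j
      · subst hij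
        have := key 1 (by simp)
        simp only [gl_R, gl_bb, gl_sm, gl_x, gl_xt, gl_tv, if_true] at this ⊢
        refine le_trans (le_of_eq ?_) this
        congr 1
        norm_num
        ring
      · have := key (-1) (by simp)
        simp only [gl_R, gl_bb, gl_sm, gl_x, gl_xt, gl_tv, if_true, if_neg hij,
          if_neg (Ne.symm hij), sq_abs] at this ⊢
        refine le_trans (le_of_eq ?_) this
        congr 1
        ring
  · set bt := gl_tv u i * gl_xt lam lmin M u + gl_tv z i * gl_xt lam lmin M z with hbt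
    set b := gl_tv u i * gl_x lam u + gl_tv z i * gl_x lam z with hb
    have hD : (fun j => 2 * (gl_de lam lmin M u (some (i, k)) j +
        gl_de lam lmin M z (some (i, k)) j)) = fun j =>
        if i = j then 2 * gl_s lmin M (lam i) (k + 1) * bt
        else -2 * gl_s lmin M (lam i) k * bt := by
      funext j
      rw [gl_de_some, gl_de_some]
      split_ifs <;> rw [hbt] <;> ring
    rw [hD]
    obtain ⟨ε₁, h1, e1⟩ := gl_R_some hM h0 hlm hl u i k bt S hu
    obtain ⟨ε₂, h2, e2⟩ := gl_R_some hM h0 hlm hl z i k bt S hz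
    rw [e1, e2]
    have hbb : gl_bb lam u (some (i, k)) z = b := by
      simp only [gl_bb]
      rw [gl_sm_some_left, gl_sm_some_right]
    have hsig : gl_sig lam lmin M (some (i, k)) = gl_s lmin M (lam i) (k + 1) := rfl
    rw [hbb, hsig]
    have hs0 : 0 ≤ gl_s lmin M (lam i) (k + 1) := h0.le.trans (gl_s_ge M (hl i).1 _)
    have hs1 : gl_s lmin M (lam i) (k + 1) ≤ L := (gl_s_le M (hl i).1 _).trans (hl i).2
    set s := gl_s lmin M (lam i) (k + 1) with hs
    have hbtb : |bt - b| ≤ 2 * (L * M) := by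
      have : bt - b = gl_tv u i * (gl_xt lam lmin M u - gl_x lam u) +
          gl_tv z i * (gl_xt lam lmin M z - gl_x lam z) := by rw [hbt, hb]; ring
      rw [this]
      refine (abs_add_le _ _).trans ?_
      have := gl_abs_tv_mul u i _ _ heu
      have := gl_abs_tv_mul z i _ _ hez
      linarith
    have hbabs : |b| ≤ 2 * (L * S) := by
      refine (abs_add_le _ _).trans ?_
      have := gl_abs_tv_mul u i (gl_x lam u) (L * S) (by rwa [abs_of_nonneg hxu0])
      have := gl_abs_tv_mul z i (gl_x lam z) (L * S) (by rwa [abs_of_nonneg hxz0])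
      linarith
    have hbtabs : |bt| ≤ 2 * (L * S) := by
      refine (abs_add_le _ _).trans ?_
      have := gl_abs_tv_mul u i (gl_xt lam lmin M u) (L * S) (by rwa [abs_of_nonneg htu0])
      have := gl_abs_tv_mul z i (gl_xt lam lmin M z) (L * S) (by rwa [abs_of_nonneg htz0])
      linarith
    have e : 2 * bt * (s * (gl_tv u i * gl_x lam u) + ε₁) +
        2 * bt * (s * (gl_tv z i * gl_x lam z) + ε₂) - 2 * (s * b ^ 2) =
        2 * s * (bt - b) * b + 2 * bt * (ε₁ + ε₂) := by rw [hb]; ring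
    rw [e]
    refine (abs_add_le _ _).trans ?_
    have t1 : |2 * s * (bt - b) * b| ≤ 8 * L ^ 3 * M * S := by
      rw [abs_mul, abs_mul, abs_of_nonneg (by positivity : (0 : ℝ) ≤ 2 * s)]
      calc 2 * s * |bt - b| * |b| ≤ 2 * L * (2 * (L * M)) * (2 * (L * S)) := by
            gcongr
        _ = 8 * L ^ 3 * M * S := by ring
    have t2 : |2 * bt * (ε₁ + ε₂)| ≤ 8 * L ^ 3 * S ^ 2 / M := by
      rw [abs_mul, abs_mul, abs_two]
      have h3 : |ε₁ + ε₂| ≤ 2 * (L / M * (L * S)) := (abs_add_le _ _).trans (by linarith)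
      calc 2 * |bt| * |ε₁ + ε₂| ≤ 2 * (2 * (L * S)) * (2 * (L / M * (L * S))) := by
            gcongr
        _ = 8 * L ^ 3 * S ^ 2 / M := by ring
    linarith

end


/-! ### configurations -/

section
variable {N K : ℕ} [NeZero N]

omit [NeZero N] in
theorem gl_ne (hN : 3 ≤ N) (w : ZMod N) : w + 1 ≠ w ∧ w - 1 ≠ w ∧ w + 1 ≠ w - 1 := by
  have h1 : (1 : ZMod N) ≠ 0 := by
    have : Fact (1 < N) := ⟨by omega⟩
    exact one_ne_zero
  have h2 : (2 : ZMod N) ≠ 0 := by
    intro h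
    have h3 : ((2 : ℕ) : ZMod N) = 0 := by exact_mod_cast h
    rw [ZMod.natCast_eq_zero_iff] at h3
    have := Nat.le_of_dvd (by norm_num) h3
    omega
  refine ⟨?_, ?_, ?_⟩
  · intro h; exact h1 (by simpa using h)
  · intro h; exact h1 (by simpa using h)
  · intro h
    apply h2
    have h3 : (w + 1) - (w - 1) = 0 := by rw [h]; ring
    have h4 : (w + 1) - (w - 1) = (2 : ZMod N) := by ring
    rw [← h4, h3]

omit [NeZero N] in
theorem gl_rate (lam : Fin K → ℝ) (c : Cfg N K) (v : ZMod N) : rate lam c v = gl_x lam (c v) := by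
  unfold rate gl_x
  rcases c v with _ | ⟨j, k⟩ <;> rfl

omit [NeZero N] in
theorem gl_cnt (c : Cfg N K) (v : ZMod N) : (cnt c v : ℝ) = gl_n (c v) := by
  unfold cnt gl_n
  rcases c v with _ | ⟨j, k⟩ <;> simp

omit [NeZero N] in
theorem gl_sm_eq (c : Cfg N K) (v w : ZMod N) : sm c v w = gl_sm (c v) (c w) := by
  unfold sm gl_sm
  rcases c v with _ | ⟨j, k⟩ <;> rcases c w with _ | ⟨i, l⟩ <;> rfl

omit [NeZero N] in
theorem gl_bb_eq (lam : Fin K → ℝ) (c : Cfg N K) (w : ZMod N) :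
    bb lam c w = gl_bb lam (c (w - 1)) (c w) (c (w + 1)) := by
  have h : bb lam c w = (match c w with
    | some _ => gl_sm (c (w - 1)) (c w) * gl_x lam (c (w - 1)) +
        gl_sm (c w) (c (w + 1)) * gl_x lam (c (w + 1))
    | none => if gl_sm (c (w - 1)) (c (w + 1)) = -1 then
        |gl_x lam (c (w - 1)) - gl_x lam (c (w + 1))|
        else gl_x lam (c (w - 1)) + gl_x lam (c (w + 1))) := by
    unfold bb
    simp only [gl_rate, gl_sm_eq]
    rcases c w with _ | ⟨j, k⟩ <;> rfl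
  rw [h]
  unfold gl_bb
  rcases c w with _ | ⟨j, k⟩ <;> rfl

/-- smoothed numerator -/
def gl_E1t (lam : Fin K → ℝ) (lmin : ℝ) (M : ℕ) (c : Cfg N K) : ℝ :=
  2 * ∑ v, gl_e lam lmin M (c v) (c (v + 1))

def gl_D (lam : Fin K → ℝ) (lmin : ℝ) (M : ℕ) (c : Cfg N K) (w : ZMod N) (j : Fin K) : ℝ :=
  2 * (gl_de lam lmin M (c (w - 1)) (c w) j + gl_de lam lmin M (c (w + 1)) (c w) j)

theorem gl_E1t_update (hN : 3 ≤ N) (lam : Fin K → ℝ) (lmin : ℝ) (M : ℕ) (c : Cfg N K)
    (w : ZMod N) (a : Urn K) :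
    gl_E1t lam lmin M (Function.update c w a) - gl_E1t lam lmin M c =
      2 * ((gl_e lam lmin M (c (w - 1)) a - gl_e lam lmin M (c (w - 1)) (c w)) +
        (gl_e lam lmin M (c (w + 1)) a - gl_e lam lmin M (c (w + 1)) (c w))) := by
  obtain ⟨h1, h2, h3⟩ := gl_ne hN w
  unfold gl_E1t
  rw [← mul_sub, ← Finset.sum_sub_distrib]
  congr 1
  rw [Finset.sum_eq_add (w - 1) w h2]
  · rw [sub_add_cancel, Function.update_self, Function.update_of_ne h2, Function.update_of_ne h1]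
    rw [gl_e_comm lam lmin M a, gl_e_comm lam lmin M (c w)]
  · intro v _ hv
    have h4 : v + 1 ≠ w := by
      intro h; apply hv.1; rw [← h]; ring
    rw [Function.update_of_ne hv.2, Function.update_of_ne h4, sub_self]
  · simp
  · simp

omit [NeZero N] in
theorem gl_fire_eq (hN : 3 ≤ N) (c : Cfg N K) (v : ZMod N) (j : Fin K) (k : ℕ)
    (h : c v = some (j, k)) :
    fire c v = Function.update (Function.update c (v + 1) (recv j (c (v + 1)))) (v - 1)
      (recv j (c (v - 1))) := by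
  obtain ⟨h1, h2, h3⟩ := gl_ne hN v
  have h0 : fire c v = fun w => if w = v + 1 ∨ w = v - 1 then recv j (c w) else c w := by
    unfold fire
    rw [h]
  rw [h0]
  funext w
  by_cases hw : w = v - 1
  · subst hw
    rw [Function.update_self, if_pos (Or.inr rfl)]
  · rw [Function.update_of_ne hw]
    by_cases hw' : w = v + 1
    · subst hw'
      rw [Function.update_self, if_pos (Or.inl rfl)]
    · rw [Function.update_of_ne hw', if_neg (by tauto)]

end

section
variable {K : ℕ} {lam : Fin K → ℝ} {lmin L : ℝ} {M : ℕ}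

theorem gl_recv_diff (h0 : 0 < lmin) (hlm : lmin ≤ L) (hl : ∀ j, lmin ≤ lam j ∧ lam j ≤ L)
    (u : Urn K) (i j : Fin K) :
    |gl_tv (recv j u) i * gl_xt lam lmin M (recv j u) - gl_tv u i * gl_xt lam lmin M u| ≤ L := by
  have hL : 0 < L := by linarith
  rcases u with _ | ⟨i', k⟩
  · have : gl_tv (recv j none) i * gl_xt lam lmin M (recv j none) -
        gl_tv (none : Urn K) i * gl_xt lam lmin M none = gl_tv (some (j, 0)) i * lmin := by
      simp [recv, gl_tv, gl_xt, gl_ph, gl_s_zero]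
    rw [this]
    exact gl_abs_tv_mul _ _ _ _ (by rw [abs_of_pos h0]; exact hlm)
  · by_cases hij : i' = j
    · subst hij
      have : gl_tv (recv i' (some (i', k))) i * gl_xt lam lmin M (recv i' (some (i', k))) -
          gl_tv (some (i', k)) i * gl_xt lam lmin M (some (i', k)) =
          gl_tv (some (i', k)) i * gl_s lmin M (lam i') (k + 1) := by
        simp only [recv, gl_tv, gl_xt, if_true]
        rw [gl_ph_succ lmin M (lam i') (k + 1)]
        ring
      rw [this]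
      refine gl_abs_tv_mul _ _ _ _ ?_
      rw [abs_of_nonneg (h0.le.trans (gl_s_ge M (hl i').1 _))]
      exact (gl_s_le M (hl i').1 _).trans (hl i').2
    · have : gl_tv (recv j (some (i', k))) i * gl_xt lam lmin M (recv j (some (i', k))) -
          gl_tv (some (i', k)) i * gl_xt lam lmin M (some (i', k)) =
          gl_tv (some (i', k)) i * (-gl_s lmin M (lam i') k) := by
        rcases k with _ | k
        · simp only [recv, gl_tv, gl_xt, if_neg hij]
          rw [gl_ph_succ lmin M (lam i') 0, gl_ph_zero]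
          ring
        · simp only [recv, gl_tv, gl_xt, if_neg hij]
          rw [gl_ph_succ lmin M (lam i') (k + 1)]
          ring
      rw [this]
      refine gl_abs_tv_mul _ _ _ _ ?_
      rw [abs_neg, abs_of_nonneg (h0.le.trans (gl_s_ge M (hl i').1 _))]
      exact (gl_s_le M (hl i').1 _).trans (hl i').2

/-- general form of `gl_de` -/
theorem gl_de_form (h0 : 0 < lmin) (hlm : lmin ≤ L) (hl : ∀ j, lmin ≤ lam j ∧ lam j ≤ L)
    (a : Urn K) (j : Fin K) :
    ∃ (i : Fin K) (s : ℝ), |s| ≤ L ∧ ∀ u : Urn K,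
      gl_de lam lmin M u a j = s * (gl_tv u i * gl_xt lam lmin M u) := by
  rcases a with _ | ⟨i, k⟩
  · exact ⟨j, lmin, by rw [abs_of_pos h0]; exact hlm, fun u => gl_de_none _ _ _ _ _⟩
  · by_cases hij : i = j
    · refine ⟨i, gl_s lmin M (lam i) (k + 1), ?_, fun u => ?_⟩
      · rw [abs_of_nonneg (h0.le.trans (gl_s_ge M (hl i).1 _))]
        exact (gl_s_le M (hl i).1 _).trans (hl i).2
      · rw [gl_de_some, if_pos hij]
    · refine ⟨i, -gl_s lmin M (lam i) k, ?_, fun u => ?_⟩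
      · rw [abs_neg, abs_of_nonneg (h0.le.trans (gl_s_ge M (hl i).1 _))]
        exact (gl_s_le M (hl i).1 _).trans (hl i).2
      · rw [gl_de_some, if_neg hij]

theorem gl_de_abs (h0 : 0 < lmin) (hlm : lmin ≤ L) (hl : ∀ j, lmin ≤ lam j ∧ lam j ≤ L)
    (u a : Urn K) (j : Fin K) (S : ℝ) (hu : gl_n u ≤ S) :
    |gl_de lam lmin M u a j| ≤ L ^ 2 * S := by
  have hL : 0 < L := by linarith
  obtain ⟨i, s, hs, h⟩ := gl_de_form (M := M) h0 hlm hl a j
  rw [h u, abs_mul]
  have h1 := gl_abs_tv_mul u i (gl_xt lam lmin M u) (L * S) (by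
    rw [abs_of_nonneg (gl_xt_nonneg h0 hl u)]
    exact (gl_xt_le_x h0 hl u).trans ((gl_x_le h0 hl u).trans
      (mul_le_mul_of_nonneg_left hu hL.le)))
  calc |s| * |gl_tv u i * gl_xt lam lmin M u| ≤ L * (L * S) :=
        mul_le_mul hs h1 (abs_nonneg _) hL.le
    _ = L ^ 2 * S := by ring

theorem gl_de_recv (h0 : 0 < lmin) (hlm : lmin ≤ L) (hl : ∀ j, lmin ≤ lam j ∧ lam j ≤ L)
    (u a : Urn K) (j j' : Fin K) :
    |gl_de lam lmin M (recv j u) a j' - gl_de lam lmin M u a j'| ≤ L ^ 2 := by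
  have hL : 0 < L := by linarith
  obtain ⟨i, s, hs, h⟩ := gl_de_form (M := M) h0 hlm hl a j'
  rw [h u, h (recv j u), ← mul_sub, abs_mul]
  calc |s| * |gl_tv (recv j u) i * gl_xt lam lmin M (recv j u) -
        gl_tv u i * gl_xt lam lmin M u| ≤ L * L :=
        mul_le_mul hs (gl_recv_diff h0 hlm hl u i j) (abs_nonneg _) hL.le
    _ = L ^ 2 := by ring

def gl_e0 (lam : Fin K → ℝ) (a : Urn K) : ℝ := gl_x lam a * gl_n a

theorem gl_e0_recv (h0 : 0 < lmin) (hlm : lmin ≤ L) (hl : ∀ j, lmin ≤ lam j ∧ lam j ≤ L)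
    (a : Urn K) (j : Fin K) :
    |gl_e0 lam (recv j a) - gl_e0 lam a - 2 * (gl_tv a j * gl_x lam a)| ≤ L := by
  have hL : 0 < L := by linarith
  have habs : ∀ i, |lam i| ≤ L := fun i => by
    rw [abs_of_pos (h0.trans_le (hl i).1)]; exact (hl i).2
  rcases a with _ | ⟨i, k⟩
  · have : gl_e0 lam (recv j none) - gl_e0 lam none - 2 * (gl_tv none j * gl_x lam none) =
        lam j := by
      simp [gl_e0, recv, gl_x, gl_n, gl_tv]
    rw [this]; exact habs j
  · by_cases hij : i = j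
    · have : gl_e0 lam (recv j (some (i, k))) - gl_e0 lam (some (i, k)) -
          2 * (gl_tv (some (i, k)) j * gl_x lam (some (i, k))) = lam i := by
        simp only [gl_e0, recv, gl_x, gl_n, gl_tv, if_pos hij]
        push_cast
        ring
      rw [this]; exact habs i
    · have : gl_e0 lam (recv j (some (i, k))) - gl_e0 lam (some (i, k)) -
          2 * (gl_tv (some (i, k)) j * gl_x lam (some (i, k))) = lam i := by
        rcases k with _ | k
        · simp only [gl_e0, recv, gl_x, gl_n, gl_tv, if_neg hij]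
          push_cast
          ring
        · simp only [gl_e0, recv, gl_x, gl_n, gl_tv, if_neg hij]
          push_cast
          ring
      rw [this]; exact habs i

end


section
variable {N K : ℕ} [NeZero N] {lam : Fin K → ℝ} {lmin L : ℝ} {M : ℕ}

/-- change of the smoothed numerator under one firing -/
theorem gl_fire_E1t (hN : 3 ≤ N) (h0 : 0 < lmin) (hlm : lmin ≤ L)
    (hl : ∀ j, lmin ≤ lam j ∧ lam j ≤ L) (c : Cfg N K) (v : ZMod N) (j : Fin K) (k : ℕ)
    (h : c v = some (j, k)) :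
    |gl_E1t lam lmin M (fire c v) - gl_E1t lam lmin M c -
      (gl_D lam lmin M c (v + 1) j + gl_D lam lmin M c (v - 1) j)| ≤ 2 * L ^ 2 := by
  obtain ⟨h1, h2, h3⟩ := gl_ne hN v
  rw [gl_fire_eq hN c v j k h]
  set c' := Function.update c (v + 1) (recv j (c (v + 1))) with hc'
  have e1 := gl_E1t_update hN lam lmin M c (v + 1) (recv j (c (v + 1)))
  have e2 := gl_E1t_update hN lam lmin M c' (v - 1) (recv j (c (v - 1)))
  have hv1 : c' (v - 1) = c (v - 1) := by rw [hc', Function.update_of_ne h3.symm]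
  have hv0 : c' (v - 1 + 1) = c v := by rw [sub_add_cancel, hc', Function.update_of_ne h1.symm]
  rw [hv1, hv0] at e2
  have hD1 : gl_D lam lmin M c (v + 1) j = gl_E1t lam lmin M c' - gl_E1t lam lmin M c := by
    rw [hc', e1]; rfl
  have hD2 : gl_D lam lmin M c (v - 1) j = 2 * (gl_de lam lmin M (c (v - 1 - 1)) (c (v - 1)) j +
      gl_de lam lmin M (c v) (c (v - 1)) j) := by
    unfold gl_D; rw [sub_add_cancel]
  have e3 : gl_E1t lam lmin M (Function.update c' (v - 1) (recv j (c (v - 1)))) -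
      gl_E1t lam lmin M c - (gl_D lam lmin M c (v + 1) j + gl_D lam lmin M c (v - 1) j) =
      2 * (gl_de lam lmin M (c' (v - 1 - 1)) (c (v - 1)) j -
        gl_de lam lmin M (c (v - 1 - 1)) (c (v - 1)) j) := by
    rw [hD1, hD2]
    unfold gl_de
    linarith
  rw [e3, abs_mul, abs_two]
  refine mul_le_mul_of_nonneg_left ?_ zero_le_two
  by_cases h4 : v - 1 - 1 = v + 1
  · rw [h4, hc', Function.update_self]
    exact gl_de_recv h0 hlm hl _ _ _ _
  · rw [hc', Function.update_of_ne h4, sub_self, abs_zero]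
    positivity

omit [NeZero N] in
theorem gl_D_abs (h0 : 0 < lmin) (hlm : lmin ≤ L) (hl : ∀ j, lmin ≤ lam j ∧ lam j ≤ L)
    (c : Cfg N K) (w : ZMod N) (j : Fin K) (S : ℝ) (hS : ∀ v, gl_n (c v) ≤ S) :
    |gl_D lam lmin M c w j| ≤ 4 * (L ^ 2 * S) := by
  unfold gl_D
  rw [abs_mul, abs_two]
  have h1 := gl_de_abs (M := M) h0 hlm hl (c (w - 1)) (c w) j S (hS _)
  have h2 := gl_de_abs (M := M) h0 hlm hl (c (w + 1)) (c w) j S (hS _)
  have h3 := abs_add_le (gl_de lam lmin M (c (w - 1)) (c w) j)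
    (gl_de lam lmin M (c (w + 1)) (c w) j)
  linarith

theorem gl_E0_eq (c : Cfg N K) : E0 lam c = ∑ v, gl_e0 lam (c v) := by
  unfold E0 gl_e0
  refine Finset.sum_congr rfl fun v _ => ?_
  rw [gl_rate, gl_cnt]

theorem gl_E0_update (c : Cfg N K) (w : ZMod N) (a : Urn K) :
    E0 lam (Function.update c w a) - E0 lam c = gl_e0 lam a - gl_e0 lam (c w) := by
  rw [gl_E0_eq, gl_E0_eq, ← Finset.sum_sub_distrib, Finset.sum_eq_single w]
  · rw [Function.update_self]
  · intro v _ hv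
    rw [Function.update_of_ne hv, sub_self]
  · simp

/-- change of the denominator under one firing -/
theorem gl_fire_E0 (hN : 3 ≤ N) (h0 : 0 < lmin) (hlm : lmin ≤ L)
    (hl : ∀ j, lmin ≤ lam j ∧ lam j ≤ L) (c : Cfg N K) (v : ZMod N) (j : Fin K) (k : ℕ)
    (h : c v = some (j, k)) :
    |E0 lam (fire c v) - E0 lam c - 2 * (gl_tv (c (v + 1)) j * gl_x lam (c (v + 1)) +
      gl_tv (c (v - 1)) j * gl_x lam (c (v - 1)))| ≤ 2 * L := by
  obtain ⟨h1, h2, h3⟩ := gl_ne hN v
  rw [gl_fire_eq hN c v j k h]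
  set c' := Function.update c (v + 1) (recv j (c (v + 1))) with hc'
  have e1 := gl_E0_update (lam := lam) c (v + 1) (recv j (c (v + 1)))
  have e2 := gl_E0_update (lam := lam) c' (v - 1) (recv j (c (v - 1)))
  have hv1 : c' (v - 1) = c (v - 1) := by rw [hc', Function.update_of_ne h3.symm]
  rw [hv1] at e2
  rw [← hc'] at e1
  have a1 := gl_e0_recv h0 hlm hl (c (v + 1)) j
  have a2 := gl_e0_recv h0 hlm hl (c (v - 1)) j
  rw [abs_le] at a1 a2 ⊢
  constructor <;> linarith [a1.1, a1.2, a2.1, a2.2]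

/-- regrouping of the drift of the numerator -/
theorem gl_regroup (c : Cfg N K) (D : ZMod N → Fin K → ℝ) :
    ∑ v, gl_R lam (c v) (fun j => D (v + 1) j + D (v - 1) j) =
      ∑ w, (gl_R lam (c (w - 1)) (D w) + gl_R lam (c (w + 1)) (D w)) := by
  have h1 : ∀ p : Urn K, ∀ f g : Fin K → ℝ, gl_R lam p (fun j => f j + g j) =
      gl_R lam p f + gl_R lam p g := by
    intro p f g
    rcases p with _ | ⟨j, k⟩
    · simp [gl_R]
    · simp only [gl_R]; ring
  simp only [h1]
  rw [Finset.sum_add_distrib, Finset.sum_add_distrib]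
  congr 1
  · rw [← Equiv.sum_comp (Equiv.addRight (1 : ZMod N)) (fun w => gl_R lam (c (w - 1)) (D w))]
    refine Finset.sum_congr rfl fun v _ => ?_
    simp
  · rw [← Equiv.sum_comp (Equiv.subRight (1 : ZMod N)) (fun w => gl_R lam (c (w + 1)) (D w))]
    refine Finset.sum_congr rfl fun v _ => ?_
    simp

/-- the drift of the numerator -/
theorem gl_drift1 (hM : 0 < M) (h0 : 0 < lmin) (hlm : lmin ≤ L)
    (hl : ∀ j, lmin ≤ lam j ∧ lam j ≤ L) (c : Cfg N K) (S : ℝ) (hS : ∀ v, gl_n (c v) ≤ S) :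
    |∑ v, gl_R lam (c v) (fun j => gl_D lam lmin M c (v + 1) j + gl_D lam lmin M c (v - 1) j) -
      2 * ∑ w, gl_sig lam lmin M (c w) * (bb lam c w) ^ 2| ≤
      N * (8 * L ^ 3 * M * S + 8 * L ^ 3 * S ^ 2 / M) := by
  rw [gl_regroup, Finset.mul_sum, ← Finset.sum_sub_distrib]
  refine (Finset.abs_sum_le_sum_abs _ _).trans ?_
  have h1 : ∀ w ∈ (Finset.univ : Finset (ZMod N)),
      |gl_R lam (c (w - 1)) (gl_D lam lmin M c w) + gl_R lam (c (w + 1)) (gl_D lam lmin M c w) -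
        2 * (gl_sig lam lmin M (c w) * bb lam c w ^ 2)| ≤
      8 * L ^ 3 * M * S + 8 * L ^ 3 * S ^ 2 / M := by
    intro w _
    rw [gl_bb_eq]
    exact gl_three hM h0 hlm hl _ _ _ S (hS _) (hS _)
  refine (Finset.sum_le_card_nsmul _ _ _ h1).trans (le_of_eq ?_)
  rw [Finset.card_univ, ZMod.card, nsmul_eq_mul]

/-- the drift of the denominator -/
theorem gl_drift0 (c : Cfg N K) :
    ∑ v, gl_R lam (c v) (fun j => 2 * (gl_tv (c (v + 1)) j * gl_x lam (c (v + 1)) +
      gl_tv (c (v - 1)) j * gl_x lam (c (v - 1)))) = 2 * E1 lam c := by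
  have h1 : ∀ v : ZMod N, gl_R lam (c v) (fun j => 2 * (gl_tv (c (v + 1)) j *
      gl_x lam (c (v + 1)) + gl_tv (c (v - 1)) j * gl_x lam (c (v - 1)))) =
      2 * (sm c v (v + 1) * rate lam c v * rate lam c (v + 1)) +
        2 * (sm c (v - 1) v * rate lam c (v - 1) * rate lam c v) := by
    intro v
    rw [gl_rate, gl_rate, gl_rate, gl_sm_eq, gl_sm_eq]
    rcases h : c v with _ | ⟨j, k⟩
    · simp [gl_R, gl_x]
    · rw [gl_sm_some_left, gl_sm_some_right]
      simp only [gl_R, gl_x]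
      ring
  simp only [h1]
  rw [Finset.sum_add_distrib, ← Finset.mul_sum, ← Finset.mul_sum]
  have h2 : ∑ v : ZMod N, sm c (v - 1) v * rate lam c (v - 1) * rate lam c v =
      ∑ v : ZMod N, sm c v (v + 1) * rate lam c v * rate lam c (v + 1) := by
    rw [← Equiv.sum_comp (Equiv.addRight (1 : ZMod N))
      (fun v => sm c (v - 1) v * rate lam c (v - 1) * rate lam c v)]
    refine Finset.sum_congr rfl fun v _ => ?_
    simp
  rw [h2]
  unfold E1
  ring

end


section
variable {N K : ℕ} [NeZero N] {lam : Fin K → ℝ} {lmin L : ℝ} {M : ℕ}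

theorem gl_size (c : Cfg N K) : (size c : ℝ) = ∑ v, gl_n (c v) := by
  unfold size
  push_cast
  exact Finset.sum_congr rfl fun v _ => gl_cnt c v

theorem gl_n_le_size (c : Cfg N K) (v : ZMod N) : gl_n (c v) ≤ size c := by
  rw [gl_size]
  exact Finset.single_le_sum (f := fun v => gl_n (c v)) (fun w _ => gl_n_nonneg _)
    (Finset.mem_univ v)

theorem gl_total (c : Cfg N K) : total lam c = ∑ v, gl_x lam (c v) := by
  unfold total
  exact Finset.sum_congr rfl fun v _ => gl_rate lam c v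

theorem gl_total_le (h0 : 0 < lmin) (hl : ∀ j, lmin ≤ lam j ∧ lam j ≤ L) (c : Cfg N K) :
    total lam c ≤ L * size c := by
  rw [gl_total, gl_size, Finset.mul_sum]
  exact Finset.sum_le_sum fun v _ => gl_x_le h0 hl _

theorem gl_total_ge (h0 : 0 < lmin) (hl : ∀ j, lmin ≤ lam j ∧ lam j ≤ L) (c : Cfg N K) :
    lmin * size c ≤ total lam c := by
  rw [gl_total, gl_size, Finset.mul_sum]
  exact Finset.sum_le_sum fun v _ => gl_x_ge h0 hl _

theorem gl_E0_ge_sq (h0 : 0 < lmin) (hl : ∀ j, lmin ≤ lam j ∧ lam j ≤ L) (c : Cfg N K) :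
    lmin * ∑ v, gl_n (c v) ^ 2 ≤ E0 lam c := by
  rw [gl_E0_eq, Finset.mul_sum]
  refine Finset.sum_le_sum fun v _ => ?_
  unfold gl_e0
  have := gl_x_ge h0 hl (c v)
  have := gl_n_nonneg (c v)
  nlinarith

theorem gl_E0_ge (h0 : 0 < lmin) (hl : ∀ j, lmin ≤ lam j ∧ lam j ≤ L) (c : Cfg N K) :
    lmin * (size c : ℝ) ^ 2 / N ≤ E0 lam c := by
  refine le_trans ?_ (gl_E0_ge_sq h0 hl c)
  have hN : (0 : ℝ) < N := by exact_mod_cast Nat.pos_of_ne_zero (NeZero.ne N)
  have h1 := sq_sum_le_card_mul_sum_sq (s := (Finset.univ : Finset (ZMod N)))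
    (f := fun v => gl_n (c v))
  rw [Finset.card_univ, ZMod.card, ← gl_size] at h1
  rw [div_le_iff₀ hN]
  nlinarith

theorem gl_E0_le (h0 : 0 < lmin) (hl : ∀ j, lmin ≤ lam j ∧ lam j ≤ L) (hlm : lmin ≤ L)
    (c : Cfg N K) : E0 lam c ≤ L * (size c : ℝ) ^ 2 := by
  have hS : (0 : ℝ) ≤ size c := by positivity
  rw [gl_E0_eq]
  calc ∑ v, gl_e0 lam (c v) ≤ ∑ v, gl_x lam (c v) * size c := by
        refine Finset.sum_le_sum fun v _ => ?_
        exact mul_le_mul_of_nonneg_left (gl_n_le_size c v) (gl_x_nonneg h0 hl _)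
    _ = total lam c * size c := by rw [← Finset.sum_mul, gl_total]
    _ ≤ (L * size c) * size c := mul_le_mul_of_nonneg_right (gl_total_le h0 hl c) hS
    _ = L * (size c : ℝ) ^ 2 := by ring

theorem gl_E1_abs (h0 : 0 < lmin) (hl : ∀ j, lmin ≤ lam j ∧ lam j ≤ L) (hlm : lmin ≤ L)
    (c : Cfg N K) : |E1 lam c| ≤ 2 * L ^ 2 * (size c : ℝ) ^ 2 := by
  have hS : (0 : ℝ) ≤ size c := by positivity
  have hL : 0 < L := by linarith
  unfold E1
  rw [abs_mul, abs_two]
  have h1 : |∑ v, sm c v (v + 1) * rate lam c v * rate lam c (v + 1)| ≤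
      ∑ v, gl_x lam (c v) * (L * size c) := by
    refine (Finset.abs_sum_le_sum_abs _ _).trans (Finset.sum_le_sum fun v _ => ?_)
    rw [gl_rate, gl_rate, gl_sm_eq, abs_mul, abs_mul, abs_of_nonneg (gl_x_nonneg h0 hl (c v)),
      abs_of_nonneg (gl_x_nonneg h0 hl (c (v + 1)))]
    have h2 : gl_x lam (c (v + 1)) ≤ L * size c :=
      (gl_x_le h0 hl _).trans (mul_le_mul_of_nonneg_left (gl_n_le_size c _) hL.le)
    have h3 := gl_sm_abs (c v) (c (v + 1))
    have h4 := gl_x_nonneg h0 hl (c v)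
    have h5 := gl_x_nonneg h0 hl (c (v + 1))
    calc |gl_sm (c v) (c (v + 1))| * gl_x lam (c v) * gl_x lam (c (v + 1))
        ≤ 1 * gl_x lam (c v) * (L * size c) := by gcongr
      _ = _ := by ring
  rw [← Finset.sum_mul, ← gl_total] at h1
  have h2 := gl_total_le h0 hl c
  calc 2 * |∑ v, sm c v (v + 1) * rate lam c v * rate lam c (v + 1)|
      ≤ 2 * (total lam c * (L * size c)) := by gcongr
    _ ≤ 2 * ((L * size c) * (L * size c)) := by gcongr
    _ = _ := by ring

theorem gl_E1t_err (hM : 0 < M) (h0 : 0 < lmin) (hl : ∀ j, lmin ≤ lam j ∧ lam j ≤ L)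
    (hlm : lmin ≤ L) (c : Cfg N K) :
    |gl_E1t lam lmin M c - E1 lam c| ≤ 4 * L ^ 2 * M * size c := by
  have hL : 0 < L := by linarith
  unfold gl_E1t E1
  rw [← mul_sub, abs_mul, abs_two, ← Finset.sum_sub_distrib]
  have h1 : |∑ v, (gl_e lam lmin M (c v) (c (v + 1)) -
      sm c v (v + 1) * rate lam c v * rate lam c (v + 1))| ≤
      ∑ v, (L * M * gl_x lam (c (v + 1)) + L * M * gl_x lam (c v)) := by
    refine (Finset.abs_sum_le_sum_abs _ _).trans (Finset.sum_le_sum fun v _ => ?_)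
    rw [gl_rate, gl_rate, gl_sm_eq]
    unfold gl_e
    have e : gl_sm (c v) (c (v + 1)) * (gl_xt lam lmin M (c v) * gl_xt lam lmin M (c (v + 1))) -
        gl_sm (c v) (c (v + 1)) * gl_x lam (c v) * gl_x lam (c (v + 1)) =
        gl_sm (c v) (c (v + 1)) * ((gl_xt lam lmin M (c v) - gl_x lam (c v)) *
          gl_xt lam lmin M (c (v + 1)) + gl_x lam (c v) *
          (gl_xt lam lmin M (c (v + 1)) - gl_x lam (c (v + 1)))) := by ring
    rw [e, abs_mul]
    have h2 := gl_sm_abs (c v) (c (v + 1))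
    have h3 := gl_xt_err hM h0 hlm hl (c v)
    have h4 := gl_xt_err hM h0 hlm hl (c (v + 1))
    have h5 := gl_xt_nonneg (M := M) h0 hl (c (v + 1))
    have h6 := gl_xt_le_x (M := M) h0 hl (c (v + 1))
    have h7 := gl_x_nonneg h0 hl (c v)
    have h8 : |(gl_xt lam lmin M (c v) - gl_x lam (c v)) *
          gl_xt lam lmin M (c (v + 1)) + gl_x lam (c v) *
          (gl_xt lam lmin M (c (v + 1)) - gl_x lam (c (v + 1)))| ≤
        L * M * gl_x lam (c (v + 1)) + L * M * gl_x lam (c v) := by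
      refine (abs_add_le _ _).trans (add_le_add ?_ ?_)
      · rw [abs_mul, abs_of_nonneg h5]
        exact mul_le_mul h3 h6 h5 (by positivity)
      · rw [abs_mul, abs_of_nonneg h7, mul_comm]
        exact mul_le_mul_of_nonneg_right h4 h7
    calc _ ≤ 1 * (L * M * gl_x lam (c (v + 1)) + L * M * gl_x lam (c v)) :=
          mul_le_mul h2 h8 (abs_nonneg _) zero_le_one
      _ = _ := one_mul _
  have h2 : ∑ v, (L * M * gl_x lam (c (v + 1)) + L * M * gl_x lam (c v)) =
      2 * (L * M * total lam c) := by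
    have : ∑ v, gl_x lam (c (v + 1)) = ∑ v, gl_x lam (c v) := by
      rw [← Equiv.sum_comp (Equiv.addRight (1 : ZMod N)) (fun v => gl_x lam (c v))]
      rfl
    rw [Finset.sum_add_distrib, ← Finset.mul_sum, ← Finset.mul_sum, this, gl_total]; ring
  rw [h2] at h1
  have h3 := gl_total_le h0 hl c
  calc 2 * |∑ v, (gl_e lam lmin M (c v) (c (v + 1)) -
        sm c v (v + 1) * rate lam c v * rate lam c (v + 1))|
      ≤ 2 * (2 * (L * M * total lam c)) := by gcongr
    _ ≤ 2 * (2 * (L * M * (L * size c))) := by gcongr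
    _ = _ := by ring

theorem gl_E1t_abs (h0 : 0 < lmin) (hl : ∀ j, lmin ≤ lam j ∧ lam j ≤ L)
    (hlm : lmin ≤ L) (c : Cfg N K) :
    |gl_E1t lam lmin M c| ≤ 2 * L ^ 2 / lmin * E0 lam c := by
  have hL : 0 < L := by linarith
  unfold gl_E1t
  rw [abs_mul, abs_two]
  have h1 : |∑ v, gl_e lam lmin M (c v) (c (v + 1))| ≤
      ∑ v, (L ^ 2 / 2 * gl_n (c v) ^ 2 + L ^ 2 / 2 * gl_n (c (v + 1)) ^ 2) := by
    refine (Finset.abs_sum_le_sum_abs _ _).trans (Finset.sum_le_sum fun v _ => ?_)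
    unfold gl_e
    rw [abs_mul]
    have h2 := gl_sm_abs (c v) (c (v + 1))
    have h3 := gl_xt_nonneg (M := M) h0 hl (c v)
    have h4 := gl_xt_nonneg (M := M) h0 hl (c (v + 1))
    have h5 := (gl_xt_le_x (M := M) h0 hl (c v)).trans (gl_x_le h0 hl (c v))
    have h6 := (gl_xt_le_x (M := M) h0 hl (c (v + 1))).trans (gl_x_le h0 hl (c (v + 1)))
    have h7 : |gl_xt lam lmin M (c v) * gl_xt lam lmin M (c (v + 1))| ≤
        (L * gl_n (c v)) * (L * gl_n (c (v + 1))) := by
      rw [abs_of_nonneg (mul_nonneg h3 h4)]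
      exact mul_le_mul h5 h6 h4 (h3.trans h5)
    have h8 := mul_le_mul h2 h7 (abs_nonneg _) zero_le_one
    refine h8.trans ?_
    nlinarith [sq_nonneg (gl_n (c v) - gl_n (c (v + 1))), sq_nonneg L,
      mul_nonneg (sq_nonneg L) (sq_nonneg (gl_n (c v) - gl_n (c (v + 1))))]
  have h2 : ∑ v, (L ^ 2 / 2 * gl_n (c v) ^ 2 + L ^ 2 / 2 * gl_n (c (v + 1)) ^ 2) =
      L ^ 2 * ∑ v, gl_n (c v) ^ 2 := by
    rw [Finset.sum_add_distrib, ← Finset.mul_sum, ← Finset.mul_sum]
    have : ∑ v, gl_n (c (v + 1)) ^ 2 = ∑ v, gl_n (c v) ^ 2 := by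
      rw [← Equiv.sum_comp (Equiv.addRight (1 : ZMod N)) (fun v => gl_n (c v) ^ 2)]
      rfl
    rw [this]; ring
  rw [h2] at h1
  have h3 := gl_E0_ge_sq h0 hl c
  calc 2 * |∑ v, gl_e lam lmin M (c v) (c (v + 1))| ≤ 2 * (L ^ 2 * ∑ v, gl_n (c v) ^ 2) := by
        gcongr
    _ = 2 * L ^ 2 / lmin * (lmin * ∑ v, gl_n (c v) ^ 2) := by field_simp
    _ ≤ 2 * L ^ 2 / lmin * E0 lam c := by gcongr

omit [NeZero N] in
theorem gl_bb_abs (h0 : 0 < lmin) (hl : ∀ j, lmin ≤ lam j ∧ lam j ≤ L) (u a z : Urn K) :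
    |gl_bb lam u a z| ≤ gl_x lam u + gl_x lam z := by
  have h1 := gl_x_nonneg h0 hl u
  have h2 := gl_x_nonneg h0 hl z
  rcases a with _ | ⟨i, k⟩
  · simp only [gl_bb]
    split_ifs
    · rw [abs_abs]
      rw [abs_le]; constructor <;> linarith
    · rw [abs_of_nonneg (by linarith)]
  · simp only [gl_bb]
    rw [gl_sm_some_left, gl_sm_some_right]
    refine (abs_add_le _ _).trans (add_le_add ?_ ?_)
    · exact gl_abs_tv_mul _ _ _ _ (by rw [abs_of_nonneg h1])
    · exact gl_abs_tv_mul _ _ _ _ (by rw [abs_of_nonneg h2])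

theorem gl_sum_x_bb (c : Cfg N K) : ∑ w, gl_x lam (c w) * bb lam c w = E1 lam c := by
  have h1 : ∀ w : ZMod N, gl_x lam (c w) * bb lam c w =
      sm c (w - 1) w * rate lam c (w - 1) * rate lam c w +
        sm c w (w + 1) * rate lam c w * rate lam c (w + 1) := by
    intro w
    rw [gl_bb_eq, gl_rate, gl_rate, gl_rate, gl_sm_eq, gl_sm_eq]
    rcases h : c w with _ | ⟨j, k⟩
    · simp [gl_x]
    · simp only [gl_bb]
      ring
  simp only [h1]
  rw [Finset.sum_add_distrib]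
  have h2 : ∑ v : ZMod N, sm c (v - 1) v * rate lam c (v - 1) * rate lam c v =
      ∑ v : ZMod N, sm c v (v + 1) * rate lam c v * rate lam c (v + 1) := by
    rw [← Equiv.sum_comp (Equiv.addRight (1 : ZMod N))
      (fun v => sm c (v - 1) v * rate lam c (v - 1) * rate lam c v)]
    refine Finset.sum_congr rfl fun v _ => ?_
    simp
  rw [h2]
  unfold E1
  ring

omit [NeZero N] in
theorem gl_sig_bounds (h0 : 0 < lmin) (hlm : lmin ≤ L) (hl : ∀ j, lmin ≤ lam j ∧ lam j ≤ L)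
    (a : Urn K) : lmin ≤ gl_sig lam lmin M a ∧ gl_sig lam lmin M a ≤ L := by
  rcases a with _ | ⟨i, k⟩
  · exact ⟨le_rfl, hlm⟩
  · exact ⟨gl_s_ge M (hl i).1 _, (gl_s_le M (hl i).1 _).trans (hl i).2⟩

omit [NeZero N] in
theorem gl_sig_n (hM : 0 < M) (h0 : 0 < lmin) (hlm : lmin ≤ L)
    (hl : ∀ j, lmin ≤ lam j ∧ lam j ≤ L) (a : Urn K) :
    0 ≤ gl_x lam a - gl_sig lam lmin M a * gl_n a ∧
      gl_x lam a - gl_sig lam lmin M a * gl_n a ≤ L * M := by
  have hL : 0 < L := by linarith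
  rcases a with _ | ⟨i, k⟩
  · simp only [gl_x, gl_n, gl_sig]
    constructor
    · simp
    · simp; positivity
  · have h1 := gl_s_err M hM h0.le (hl i).1 (k + 1)
    have h2 : gl_x lam (some (i, k)) - gl_sig lam lmin M (some (i, k)) * gl_n (some (i, k)) =
        (lam i - gl_s lmin M (lam i) (k + 1)) * ((k + 1 : ℕ) : ℝ) := by
      simp only [gl_x, gl_n, gl_sig]; push_cast; ring
    rw [h2]
    refine ⟨h1.1, h1.2.trans ?_⟩
    exact mul_le_mul_of_nonneg_right (hl i).2 (by positivity)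

/-- the quadratic form -/
theorem gl_quad (hM : 0 < M) (h0 : 0 < lmin) (hlm : lmin ≤ L)
    (hl : ∀ j, lmin ≤ lam j ∧ lam j ≤ L) (c : Cfg N K) (hE : 0 < E0 lam c) :
    lmin * dd lam c + Rc lam c * E1 lam c - 4 * |Rc lam c| * (N * (L ^ 2 * M * size c)) ≤
      ∑ w, gl_sig lam lmin M (c w) * (bb lam c w) ^ 2 := by
  have hL : 0 < L := by linarith
  have hM' : (0 : ℝ) < M := by exact_mod_cast hM
  set r := Rc lam c with hr
  have hrE : r * E0 lam c = E1 lam c := by
    rw [hr]; unfold Rc; field_simp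
  have hbb : ∀ w, |bb lam c w| ≤ 2 * (L * size c) := by
    intro w
    rw [gl_bb_eq]
    refine (gl_bb_abs h0 hl _ _ _).trans ?_
    have h1 := (gl_x_le h0 hl (c (w - 1))).trans
      (mul_le_mul_of_nonneg_left (gl_n_le_size c (w - 1)) hL.le)
    have h2 := (gl_x_le h0 hl (c (w + 1))).trans
      (mul_le_mul_of_nonneg_left (gl_n_le_size c (w + 1)) hL.le)
    linarith
  have h1 : lmin * dd lam c ≤ ∑ w, gl_sig lam lmin M (c w) * (bb lam c w - r * gl_n (c w)) ^ 2 := by
    unfold dd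
    rw [Finset.mul_sum]
    refine Finset.sum_le_sum fun w _ => ?_
    rw [gl_cnt]
    exact mul_le_mul_of_nonneg_right (gl_sig_bounds h0 hlm hl _).1 (sq_nonneg _)
  have h2 : ∑ w, gl_sig lam lmin M (c w) * (bb lam c w - r * gl_n (c w)) ^ 2 =
      ∑ w, gl_sig lam lmin M (c w) * (bb lam c w) ^ 2 -
        2 * r * ∑ w, gl_sig lam lmin M (c w) * gl_n (c w) * bb lam c w +
        r ^ 2 * ∑ w, gl_sig lam lmin M (c w) * gl_n (c w) * gl_n (c w) := by
    rw [Finset.mul_sum, Finset.mul_sum, ← Finset.sum_sub_distrib, ← Finset.sum_add_distrib]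
    refine Finset.sum_congr rfl fun w _ => ?_
    ring
  have h3 : ∑ w, gl_sig lam lmin M (c w) * gl_n (c w) * gl_n (c w) ≤ E0 lam c := by
    rw [gl_E0_eq]
    refine Finset.sum_le_sum fun w _ => ?_
    unfold gl_e0
    have := (gl_sig_n hM h0 hlm hl (c w)).1
    exact mul_le_mul_of_nonneg_right (by linarith) (gl_n_nonneg _)
  have h4 : |∑ w, gl_sig lam lmin M (c w) * gl_n (c w) * bb lam c w - E1 lam c| ≤
      N * (2 * (L ^ 2 * M * size c)) := by
    rw [← gl_sum_x_bb, ← Finset.sum_sub_distrib]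
    have h5 : ∀ w ∈ (Finset.univ : Finset (ZMod N)),
        |gl_sig lam lmin M (c w) * gl_n (c w) * bb lam c w - gl_x lam (c w) * bb lam c w| ≤
        2 * (L ^ 2 * M * size c) := by
      intro w _
      have e : gl_sig lam lmin M (c w) * gl_n (c w) * bb lam c w - gl_x lam (c w) * bb lam c w =
          -((gl_x lam (c w) - gl_sig lam lmin M (c w) * gl_n (c w)) * bb lam c w) := by ring
      rw [e, abs_neg, abs_mul, abs_of_nonneg (gl_sig_n hM h0 hlm hl (c w)).1]
      calc _ ≤ (L * M) * (2 * (L * size c)) :=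
            mul_le_mul (gl_sig_n hM h0 hlm hl (c w)).2 (hbb w) (abs_nonneg _) (by positivity)
        _ = _ := by ring
    refine (Finset.abs_sum_le_sum_abs _ _).trans ?_
    refine (Finset.sum_le_card_nsmul _ _ _ h5).trans (le_of_eq ?_)
    rw [Finset.card_univ, ZMod.card, nsmul_eq_mul]
  have h5 : r ^ 2 * ∑ w, gl_sig lam lmin M (c w) * gl_n (c w) * gl_n (c w) ≤ r * E1 lam c := by
    calc _ ≤ r ^ 2 * E0 lam c := mul_le_mul_of_nonneg_left h3 (sq_nonneg _)
      _ = r * (r * E0 lam c) := by ring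
      _ = _ := by rw [hrE]
  have h6 : 2 * r * (E1 lam c - ∑ w, gl_sig lam lmin M (c w) * gl_n (c w) * bb lam c w) ≤
      2 * |r| * (N * (2 * (L ^ 2 * M * size c))) := by
    refine (le_abs_self _).trans ?_
    rw [abs_mul, abs_mul, abs_two, abs_sub_comm]
    exact mul_le_mul_of_nonneg_left h4 (by positivity)
  nlinarith [h1, h2, h5, h6]

end


section
variable {N K : ℕ} [NeZero N] {lam : Fin K → ℝ} {lmin L : ℝ} {M : ℕ}

/-- smoothed Rayleigh quotient -/
def gl_Rt (lam : Fin K → ℝ) (lmin : ℝ) (M : ℕ) (c : Cfg N K) : ℝ :=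
  gl_E1t lam lmin M c / E0 lam c

theorem gl_Rt_abs (h0 : 0 < lmin) (hl : ∀ j, lmin ≤ lam j ∧ lam j ≤ L)
    (hlm : lmin ≤ L) (c : Cfg N K) : |gl_Rt lam lmin M c| ≤ 2 * L ^ 2 / lmin := by
  have hL : 0 < L := by linarith
  have hE := gl_E0_ge_sq h0 hl c
  have hE0 : 0 ≤ E0 lam c := le_trans (by positivity) hE
  unfold gl_Rt
  rw [abs_div, abs_of_nonneg hE0]
  exact div_le_of_le_mul₀ hE0 (by positivity) (gl_E1t_abs h0 hl hlm c)

/-- one firing -/
theorem gl_fire_main (hN : 3 ≤ N) (h0 : 0 < lmin) (hlm : lmin ≤ L)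
    (hl : ∀ j, lmin ≤ lam j ∧ lam j ≤ L) (c : Cfg N K)
    (hS : 12 * L * N / lmin ≤ size c) (hS1 : 1 ≤ size c) (v : ZMod N) (j : Fin K) (k : ℕ)
    (h : c v = some (j, k)) :
    (gl_D lam lmin M c (v + 1) j + gl_D lam lmin M c (v - 1) j -
      gl_Rt lam lmin M c * (2 * (gl_tv (c (v + 1)) j * gl_x lam (c (v + 1)) +
      gl_tv (c (v - 1)) j * gl_x lam (c (v - 1)))) -
      (2 * L ^ 2 + 2 * L ^ 2 / lmin * (2 * L))) / E0 lam c -
      (10 * L ^ 2 + 2 * L ^ 2 / lmin * (6 * L)) * (12 * L) * N ^ 2 / lmin ^ 2 /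
        (size c : ℝ) ^ 2 ≤
      gl_Rt lam lmin M (fire c v) - gl_Rt lam lmin M c := by
  have hL : 0 < L := by linarith
  have hN' : (0 : ℝ) < N := by
    have : 0 < N := by omega
    exact_mod_cast this
  set S : ℝ := (size c : ℝ) with hSdef
  have hS1' : (1 : ℝ) ≤ S := by rw [hSdef]; exact_mod_cast hS1
  have hSpos : 0 < S := by linarith
  have hE := gl_E0_ge h0 hl c
  rw [← hSdef] at hE
  have hE0 : 0 < E0 lam c := lt_of_lt_of_le (by positivity) hE
  set B : ℝ := 2 * L ^ 2 / lmin with hB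
  have hB0 : 0 ≤ B := by positivity
  have hRt : |gl_Rt lam lmin M c| ≤ B := gl_Rt_abs h0 hl hlm c
  set r := gl_Rt lam lmin M c with hr
  have hrE : r * E0 lam c = gl_E1t lam lmin M c := by
    rw [hr]; unfold gl_Rt; field_simp
  have hn : ∀ v, gl_n (c v) ≤ S := fun v => gl_n_le_size c v
  -- increments
  have i1 := gl_fire_E1t (M := M) hN h0 hlm hl c v j k h
  have i0 := gl_fire_E0 hN h0 hlm hl c v j k h
  set A := gl_D lam lmin M c (v + 1) j + gl_D lam lmin M c (v - 1) j with hA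
  set Bv := 2 * (gl_tv (c (v + 1)) j * gl_x lam (c (v + 1)) +
      gl_tv (c (v - 1)) j * gl_x lam (c (v - 1))) with hBv
  set d1 := gl_E1t lam lmin M (fire c v) - gl_E1t lam lmin M c with hd1
  set d0 := E0 lam (fire c v) - E0 lam c with hd0
  have hAabs : |A| ≤ 8 * (L ^ 2 * S) := by
    refine (abs_add_le _ _).trans ?_
    have h1 := gl_D_abs (M := M) h0 hlm hl c (v + 1) j S hn
    have h2 := gl_D_abs (M := M) h0 hlm hl c (v - 1) j S hn
    linarith
  have hBabs : |Bv| ≤ 4 * (L * S) := by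
    rw [hBv, abs_mul, abs_two]
    have h1 : ∀ w, |gl_tv (c w) j * gl_x lam (c w)| ≤ L * S := by
      intro w
      refine gl_abs_tv_mul _ _ _ _ ?_
      rw [abs_of_nonneg (gl_x_nonneg h0 hl _)]
      exact (gl_x_le h0 hl _).trans (mul_le_mul_of_nonneg_left (hn w) hL.le)
    have h2 := abs_add_le (gl_tv (c (v + 1)) j * gl_x lam (c (v + 1)))
      (gl_tv (c (v - 1)) j * gl_x lam (c (v - 1)))
    have h3 := h1 (v + 1)
    have h4 := h1 (v - 1)
    linarith
  have hd1abs : |d1| ≤ 10 * L ^ 2 * S := by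
    have e : d1 = (d1 - A) + A := by ring
    rw [e]
    refine (abs_add_le _ _).trans ?_
    have : 2 * L ^ 2 ≤ 2 * L ^ 2 * S := by nlinarith [sq_nonneg L]
    linarith
  have hd0abs : |d0| ≤ 6 * L * S := by
    have e : d0 = (d0 - Bv) + Bv := by ring
    rw [e]
    refine (abs_add_le _ _).trans ?_
    have : 2 * L ≤ 2 * L * S := by nlinarith
    linarith
  set P := d1 - r * d0 with hP
  have hPabs : |P| ≤ (10 * L ^ 2 + B * (6 * L)) * S := by
    rw [hP]
    refine (abs_sub _ _).trans ?_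
    rw [abs_mul]
    have : |r| * |d0| ≤ B * (6 * L * S) := mul_le_mul hRt hd0abs (abs_nonneg _) hB0
    linarith
  have h12 : 12 * L * S ≤ E0 lam c := by
    refine le_trans ?_ hE
    rw [le_div_iff₀ hN']
    rw [div_le_iff₀ h0] at hS
    nlinarith
  have hE0' : E0 lam c / 2 ≤ E0 lam c + d0 := by
    have := (abs_le.mp hd0abs).1
    linarith
  have hE0'pos : 0 < E0 lam c + d0 := by linarith
  have hfire : gl_Rt lam lmin M (fire c v) - r = P / (E0 lam c + d0) := by
    have e0 : E0 lam (fire c v) = E0 lam c + d0 := by rw [hd0]; ring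
    have e1 : gl_E1t lam lmin M (fire c v) = r * E0 lam c + d1 := by rw [hrE, hd1]; ring
    unfold gl_Rt
    rw [e0, e1, hP]
    field_simp
    ring
  rw [hfire]
  -- compare with division by `E0 c`
  have hdiff : |P / (E0 lam c + d0) - P / E0 lam c| ≤
      (10 * L ^ 2 + B * (6 * L)) * (12 * L) * N ^ 2 / lmin ^ 2 / S ^ 2 := by
    have e : P / (E0 lam c + d0) - P / E0 lam c = -(P * d0) / ((E0 lam c + d0) * E0 lam c) := by
      field_simp
      ring
    rw [e, abs_div, abs_neg, abs_mul, abs_of_pos (mul_pos hE0'pos hE0)]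
    rw [div_le_iff₀ (mul_pos hE0'pos hE0)]
    have h1 : |P| * |d0| ≤ ((10 * L ^ 2 + B * (6 * L)) * S) * (6 * L * S) :=
      mul_le_mul hPabs hd0abs (abs_nonneg _) (by positivity)
    have h2 : (lmin * S ^ 2 / N) ^ 2 / 2 ≤ (E0 lam c + d0) * E0 lam c := by
      have h3 : (lmin * S ^ 2 / N) / 2 ≤ E0 lam c + d0 := by linarith
      calc (lmin * S ^ 2 / N) ^ 2 / 2 = ((lmin * S ^ 2 / N) / 2) * (lmin * S ^ 2 / N) := by ring
        _ ≤ _ := mul_le_mul h3 hE (by positivity) hE0'pos.le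
    have h4 : (10 * L ^ 2 + B * (6 * L)) * (12 * L) * N ^ 2 / lmin ^ 2 / S ^ 2 *
        ((lmin * S ^ 2 / N) ^ 2 / 2) = ((10 * L ^ 2 + B * (6 * L)) * S) * (6 * L * S) := by
      field_simp
      ring
    calc |P| * |d0| ≤ ((10 * L ^ 2 + B * (6 * L)) * S) * (6 * L * S) := h1
      _ = (10 * L ^ 2 + B * (6 * L)) * (12 * L) * N ^ 2 / lmin ^ 2 / S ^ 2 *
        ((lmin * S ^ 2 / N) ^ 2 / 2) := h4.symm
      _ ≤ _ := mul_le_mul_of_nonneg_left h2 (by positivity)
  have hlow : (A - r * Bv - (2 * L ^ 2 + B * (2 * L))) / E0 lam c ≤ P / E0 lam c := by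
    refine div_le_div_of_nonneg_right ?_ hE0.le
    have h1 := (abs_le.mp i1).1
    have h2 : r * (d0 - Bv) ≤ B * (2 * L) := by
      refine (le_abs_self _).trans ?_
      rw [abs_mul]
      exact mul_le_mul hRt i0 (abs_nonneg _) hB0
    rw [hP]
    nlinarith
  have := (abs_le.mp hdiff).1
  linarith

/-- the drift of the smoothed Rayleigh quotient -/
theorem gl_drift (hN : 3 ≤ N) (h0 : 0 < lmin) (hlm : lmin ≤ L)
    (hl : ∀ j, lmin ≤ lam j ∧ lam j ≤ L) (c : Cfg N K)
    (hS : 12 * L * N / lmin ≤ size c) (hS1 : 1 ≤ size c) :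
    (∑ v, gl_R lam (c v) (fun j => gl_D lam lmin M c (v + 1) j + gl_D lam lmin M c (v - 1) j) -
      gl_Rt lam lmin M c * (2 * E1 lam c) -
      total lam c * (2 * L ^ 2 + 2 * L ^ 2 / lmin * (2 * L))) / E0 lam c -
      total lam c * ((10 * L ^ 2 + 2 * L ^ 2 / lmin * (6 * L)) * (12 * L) * N ^ 2 / lmin ^ 2 /
        (size c : ℝ) ^ 2) ≤
      total lam c * (Pop lam (gl_Rt lam lmin M) c - gl_Rt lam lmin M c) := by
  have hSpos : (0 : ℝ) < size c := by exact_mod_cast hS1
  have hT : 0 < total lam c := lt_of_lt_of_le (by positivity) (gl_total_ge h0 hl c)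
  have e1 : total lam c * (Pop lam (gl_Rt lam lmin M) c - gl_Rt lam lmin M c) =
      ∑ v, gl_x lam (c v) * (gl_Rt lam lmin M (fire c v) - gl_Rt lam lmin M c) := by
    unfold Pop
    rw [mul_sub, Finset.mul_sum]
    have h1 : total lam c * gl_Rt lam lmin M c = ∑ v, gl_x lam (c v) * gl_Rt lam lmin M c := by
      rw [← Finset.sum_mul, gl_total]
    rw [h1, ← Finset.sum_sub_distrib]
    refine Finset.sum_congr rfl fun v _ => ?_
    rw [gl_rate]
    field_simp
  rw [e1]
  set K1 := 2 * L ^ 2 + 2 * L ^ 2 / lmin * (2 * L) with hK1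
  set K2 := (10 * L ^ 2 + 2 * L ^ 2 / lmin * (6 * L)) * (12 * L) * N ^ 2 / lmin ^ 2 /
        (size c : ℝ) ^ 2 with hK2
  set r := gl_Rt lam lmin M c with hr
  have h2 : ∀ v ∈ (Finset.univ : Finset (ZMod N)),
      (gl_R lam (c v) (fun j => gl_D lam lmin M c (v + 1) j + gl_D lam lmin M c (v - 1) j) -
        r * gl_R lam (c v) (fun j => 2 * (gl_tv (c (v + 1)) j * gl_x lam (c (v + 1)) +
          gl_tv (c (v - 1)) j * gl_x lam (c (v - 1)))) - gl_x lam (c v) * K1) / E0 lam c -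
        gl_x lam (c v) * K2 ≤ gl_x lam (c v) * (gl_Rt lam lmin M (fire c v) - r) := by
    intro v _
    rcases h : c v with _ | ⟨j, k⟩
    · simp [gl_R, gl_x]
    · have h3 := gl_fire_main (M := M) hN h0 hlm hl c hS hS1 v j k h
      rw [← hK1, ← hK2, ← hr] at h3
      have hx : 0 ≤ gl_x lam (some (j, k)) := gl_x_nonneg h0 hl _
      have h4 := mul_le_mul_of_nonneg_left h3 hx
      refine le_trans (le_of_eq ?_) h4
      simp only [gl_R, gl_x]
      ring
  have h3 := Finset.sum_le_sum h2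
  refine le_trans (le_of_eq ?_) h3
  rw [Finset.sum_sub_distrib, ← Finset.sum_div, Finset.sum_sub_distrib, Finset.sum_sub_distrib,
    ← Finset.mul_sum, gl_drift0, ← Finset.sum_mul, ← Finset.sum_mul, gl_total]

end


/-! ### the theorem -/

theorem gen_ineq_pr {N K : ℕ} [NeZero N] (hN : 3 ≤ N) (lam : Fin K → ℝ) (lmin lmax : ℝ)
    (h0 : 0 < lmin) (hlm : lmin ≤ lmax) (hl : ∀ j, lmin ≤ lam j ∧ lam j ≤ lmax) :
    ∃ c1 : ℝ, 0 < c1 ∧ ∃ B : ℝ, ∀ μ > 0, ∃ (Rt : Cfg N K → ℝ) (M1 : ℕ), (∀ c, |Rt c| ≤ B) ∧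
      ∀ c : Cfg N K, M1 ≤ size c → |Rt c - Rc lam c| ≤ μ ∧
        Rt c + (c1 * dd lam c / (size c : ℝ) ^ 2 - μ) / total lam c ≤ Pop lam Rt c := by
  set L := lmax with hLdef
  have hL : 0 < L := by linarith
  have hN' : (0 : ℝ) < N := by
    have : 0 < N := by omega
    exact_mod_cast this
  refine ⟨lmin / L, by positivity, 2 * L ^ 2 / lmin, fun μ hμ => ?_⟩
  set M : ℕ := ⌈16 * N ^ 2 * L ^ 3 / (lmin * μ)⌉₊ + 1 with hMdef
  have hM : 0 < M := by omega
  have hM' : (0 : ℝ) < M := by exact_mod_cast hM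
  have hMge : 16 * N ^ 2 * L ^ 3 / (lmin * μ) ≤ M := by
    refine (Nat.le_ceil _).trans ?_
    rw [hMdef]; push_cast; linarith
  set K1 := 2 * L ^ 2 + 2 * L ^ 2 / lmin * (2 * L) with hK1
  set K2 := (10 * L ^ 2 + 2 * L ^ 2 / lmin * (6 * L)) * (12 * L) * N ^ 2 / lmin ^ 2 with hK2
  set R0 := 2 * L ^ 2 * N / lmin with hR0
  set Q := 16 * L ^ 4 * M * N / lmin + 8 * R0 * (N * (L ^ 2 * M)) + N * (8 * L ^ 3 * M) + L * K1
    with hQ
  have hK1p : 0 ≤ K1 := by positivity
  have hK2p : 0 ≤ K2 := by positivity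
  have hR0p : 0 ≤ R0 := by positivity
  have hQp : 0 ≤ Q := by positivity
  refine ⟨gl_Rt lam lmin M, ⌈12 * L * N / lmin⌉₊ + ⌈4 * L ^ 2 * M * N / (lmin * μ)⌉₊ +
    ⌈2 * (Q * N / lmin + L * K2) / μ⌉₊ + 1, fun c => gl_Rt_abs h0 hl hlm c, fun c hc => ?_⟩
  set S : ℝ := (size c : ℝ) with hSdef
  have hc' : ((⌈12 * L * N / lmin⌉₊ : ℝ) + (⌈4 * L ^ 2 * M * N / (lmin * μ)⌉₊ : ℝ) +
    (⌈2 * (Q * N / lmin + L * K2) / μ⌉₊ : ℝ) + 1) ≤ S := by
    rw [hSdef]; exact_mod_cast hc
  have c1 := Nat.le_ceil (12 * L * N / lmin)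
  have c2 := Nat.le_ceil (4 * L ^ 2 * M * N / (lmin * μ))
  have c3 := Nat.le_ceil (2 * (Q * N / lmin + L * K2) / μ)
  have p1 : (0 : ℝ) ≤ (⌈12 * L * N / lmin⌉₊ : ℝ) := by positivity
  have p2 : (0 : ℝ) ≤ (⌈4 * L ^ 2 * M * N / (lmin * μ)⌉₊ : ℝ) := by positivity
  have p3 : (0 : ℝ) ≤ (⌈2 * (Q * N / lmin + L * K2) / μ⌉₊ : ℝ) := by positivity
  have s1 : 12 * L * N / lmin ≤ S := by linarith
  have s2 : 4 * L ^ 2 * M * N / (lmin * μ) ≤ S := by linarith
  have s3 : 2 * (Q * N / lmin + L * K2) / μ ≤ S := by linarith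
  have s4 : 1 ≤ S := by linarith
  have hSpos : 0 < S := by linarith
  have s5 : 1 ≤ size c := by rw [hSdef] at s4; exact_mod_cast s4
  have hE := gl_E0_ge h0 hl c
  rw [← hSdef] at hE
  have hE0 : 0 < E0 lam c := lt_of_lt_of_le (by positivity) hE
  have hEle := gl_E0_le h0 hl hlm c
  rw [← hSdef] at hEle
  have hT := gl_total_ge h0 hl c
  have hTle := gl_total_le h0 hl c
  rw [← hSdef] at hT hTle
  have hTpos : 0 < total lam c := lt_of_lt_of_le (by positivity) hT
  have hE1 := gl_E1_abs h0 hl hlm c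
  rw [← hSdef] at hE1
  have herr := gl_E1t_err (M := M) hM h0 hl hlm c
  rw [← hSdef] at herr
  -- `1 / E0 ≤ N / (lmin S²)`
  have hdivE : ∀ x : ℝ, 0 ≤ x → x / E0 lam c ≤ x * N / (lmin * S ^ 2) := by
    intro x hx
    rw [div_le_div_iff₀ hE0 (by positivity)]
    rw [div_le_iff₀ hN'] at hE
    nlinarith
  have hRt : |gl_Rt lam lmin M c - Rc lam c| ≤ 4 * L ^ 2 * M * N / (lmin * S) := by
    have e : gl_Rt lam lmin M c - Rc lam c =
        (gl_E1t lam lmin M c - E1 lam c) / E0 lam c := by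
      unfold gl_Rt Rc; ring
    rw [e, abs_div, abs_of_pos hE0]
    refine (div_le_div_of_nonneg_right herr hE0.le).trans ?_
    refine (hdivE _ (by positivity)).trans (le_of_eq ?_)
    field_simp
  have hRc : |Rc lam c| ≤ R0 := by
    unfold Rc
    rw [abs_div, abs_of_pos hE0]
    refine (div_le_div_of_nonneg_right hE1 hE0.le).trans ?_
    refine (hdivE _ (by positivity)).trans (le_of_eq ?_)
    rw [hR0]; field_simp
  constructor
  · refine hRt.trans ?_
    rw [div_le_iff₀ (by positivity)] at s2 ⊢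
    nlinarith
  · -- main inequality
    have hd := gl_drift (M := M) hN h0 hlm hl c (by rw [← hSdef]; exact s1) s5
    rw [← hSdef, ← hK1, ← hK2] at hd
    have hd1 := gl_drift1 (M := M) hM h0 hlm hl c S (fun v => gl_n_le_size c v)
    have hq := gl_quad (M := M) hM h0 hlm hl c hE0
    rw [← hSdef] at hq
    set G := ∑ v, gl_R lam (c v) (fun j => gl_D lam lmin M c (v + 1) j +
      gl_D lam lmin M c (v - 1) j) with hG
    set W := ∑ w, gl_sig lam lmin M (c w) * (bb lam c w) ^ 2 with hW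
    set r := gl_Rt lam lmin M c with hr
    set T := total lam c with hTdef
    have hx1 : 2 * W - N * (8 * L ^ 3 * M * S + 8 * L ^ 3 * S ^ 2 / M) ≤ G := by
      have := (abs_le.mp hd1).1
      linarith
    have hx2 : 4 * |Rc lam c| * (N * (L ^ 2 * M * S)) ≤ 4 * R0 * (N * (L ^ 2 * M * S)) := by
      have : 0 ≤ (N * (L ^ 2 * M * S)) := by positivity
      nlinarith
    have hx3 : |2 * (Rc lam c - r) * E1 lam c| ≤ 16 * L ^ 4 * M * N / lmin * S := by
      rw [abs_mul, abs_mul, abs_two, abs_sub_comm]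
      calc 2 * |r - Rc lam c| * |E1 lam c|
          ≤ 2 * (4 * L ^ 2 * M * N / (lmin * S)) * (2 * L ^ 2 * S ^ 2) := by gcongr
        _ = 16 * L ^ 4 * M * N / lmin * S := by field_simp; ring
    have hx3' := (abs_le.mp hx3).1
    have hx4 : T * K1 ≤ L * K1 * S := by
      have := mul_le_mul_of_nonneg_right hTle hK1p
      linarith
    have hx5 : 2 * lmin * dd lam c - Q * S - 8 * N * L ^ 3 * S ^ 2 / M ≤
        G - r * (2 * E1 lam c) - T * K1 := by
      have e1 : N * (8 * L ^ 3 * M * S + 8 * L ^ 3 * S ^ 2 / M) =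
          N * (8 * L ^ 3 * M) * S + 8 * N * L ^ 3 * S ^ 2 / M := by ring
      have e2 : Q * S = 16 * L ^ 4 * M * N / lmin * S + 8 * R0 * (N * (L ^ 2 * M * S)) +
          N * (8 * L ^ 3 * M) * S + L * K1 * S := by rw [hQ]; ring
      rw [e1] at hx1
      rw [e2]
      linarith [hx1, hx2, hx3', hx4, hq]
    have hx6 : T * (K2 / S ^ 2) ≤ L * K2 / S := by
      have : T * (K2 / S ^ 2) ≤ (L * S) * (K2 / S ^ 2) :=
        mul_le_mul_of_nonneg_right hTle (by positivity)
      refine this.trans (le_of_eq ?_)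
      field_simp
    have hx7 : (2 * lmin * dd lam c - Q * S - 8 * N * L ^ 3 * S ^ 2 / M) / E0 lam c -
        L * K2 / S ≤ T * (Pop lam (gl_Rt lam lmin M) c - r) := by
      have := div_le_div_of_nonneg_right hx5 hE0.le
      linarith
    have hdd : 0 ≤ dd lam c := Finset.sum_nonneg fun w _ => sq_nonneg _
    have hx8 : lmin / L * dd lam c / S ^ 2 ≤ 2 * lmin * dd lam c / E0 lam c := by
      rw [div_le_div_iff₀ (by positivity) hE0]
      have h1 : lmin / L * dd lam c * E0 lam c ≤ lmin / L * dd lam c * (L * S ^ 2) :=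
        mul_le_mul_of_nonneg_left hEle (by positivity)
      have h2 : lmin / L * dd lam c * (L * S ^ 2) = lmin * dd lam c * S ^ 2 := by
        field_simp
      have h3 : 0 ≤ lmin * dd lam c * S ^ 2 := by positivity
      linarith
    have hx9 : (Q * S + 8 * N * L ^ 3 * S ^ 2 / M) / E0 lam c ≤
        Q * N / lmin / S + μ / 2 := by
      refine (hdivE _ (by positivity)).trans ?_
      have e : (Q * S + 8 * N * L ^ 3 * S ^ 2 / M) * N / (lmin * S ^ 2) =
          Q * N / lmin / S + 8 * N ^ 2 * L ^ 3 / (lmin * M) := by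
        field_simp
      rw [e]
      have : 8 * N ^ 2 * L ^ 3 / (lmin * M) ≤ μ / 2 := by
        rw [div_le_iff₀ (by positivity)] at hMge ⊢
        nlinarith
      linarith
    have hx10 : Q * N / lmin / S + L * K2 / S ≤ μ / 2 := by
      rw [← add_div, div_le_iff₀ hSpos]
      rw [div_le_iff₀ hμ] at s3
      linarith
    have hx11 : lmin / L * dd lam c / S ^ 2 - μ ≤ T * (Pop lam (gl_Rt lam lmin M) c - r) := by
      have e : (2 * lmin * dd lam c - Q * S - 8 * N * L ^ 3 * S ^ 2 / M) / E0 lam c =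
          2 * lmin * dd lam c / E0 lam c -
            (Q * S + 8 * N * L ^ 3 * S ^ 2 / M) / E0 lam c := by ring
      rw [e] at hx7
      linarith
    have hx12 : (lmin / L * dd lam c / S ^ 2 - μ) / T ≤ Pop lam (gl_Rt lam lmin M) c - r := by
      rw [div_le_iff₀ hTpos]
      linarith
    linarith

alias gen_ineq := gen_ineq_pr

end Pool.Agent.Lib_helper10.CU
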