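import Pool.Agent.Lib_helper10.CU.MARGIN
import Pool.Agent.Lib_helper10.CU.GD

-- block GROW written by helper3
set_option autoImplicit false
open scoped BigOperators Topology
open Filter
noncomputable section

namespace Pool.Agent.Lib_helper10.CU

/-! ## GROW -/

/-- next to the change of a vector with margin there is a big coordinate -/
theorem grow_big {N : ℕ} [NeZero N] (hN : 3 ≤ N) (ε : Vec N) (hε : IsSgn ε) (h s : Vec N) (t : ℝ)
    (ht : 0 < t) (hm : ∀ x : Vec N, ‖x - h‖ ≤ t → InC ε x) (hs : IsSgn s)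
    (hsz : ∀ v, 0 ≤ s v * h v) (u : ZMod N) (hu : s (u + 1) ≠ ε u * s u)
    (huniq : ∀ a, s (a + 1) ≠ ε a * s a → a = u) : t ≤ |h (u + 1 + 1)| := by
  classical
  obtain ⟨hn1, hn2⟩ := incb_ne hN
  have e1 : u + 1 ≠ u := fun h => hn1 (by simpa using h)
  have e2 : u + 1 + 1 ≠ u + 1 := fun h => hn1 (by simpa using h)
  have e3 : u + 1 + 1 ≠ u := fun h => hn2 (by linear_combination h)
  by_contra hlt
  rw [not_le] at hlt
  have hnc : s (u + 1 + 1) = ε (u + 1) * s (u + 1) := by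
    by_contra hne
    exact e1 (huniq _ hne)
  have hc : s (u + 1) = -(ε u * s u) := by
    revert hu
    rcases hs (u + 1) with h1 | h1 <;> rcases hs u with h2 | h2 <;> rcases hε u with h3 | h3 <;>
      rw [h1, h2, h3] <;> norm_num
  let x : Vec N := fun w => if w = u then h u + t * s u else
    if w = u + 1 then h (u + 1) + t * s (u + 1) else
    if w = u + 1 + 1 then h (u + 1 + 1) - t * s (u + 1 + 1) else h w
  have hx : ‖x - h‖ ≤ t := by
    rw [pi_norm_le_iff_of_nonneg ht.le]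
    intro w
    rw [Real.norm_eq_abs]
    simp only [x, Pi.sub_apply]
    by_cases h1 : w = u
    · subst h1
      rw [if_pos rfl, add_sub_cancel_left, abs_mul, gd_sgn_abs (hs _), mul_one, abs_of_pos ht]
    · rw [if_neg h1]
      by_cases h2 : w = u + 1
      · subst h2
        rw [if_pos rfl, add_sub_cancel_left, abs_mul, gd_sgn_abs (hs _), mul_one, abs_of_pos ht]
      · rw [if_neg h2]
        by_cases h3 : w = u + 1 + 1
        · subst h3
          rw [if_pos rfl, sub_sub_cancel_left, abs_neg, abs_mul, gd_sgn_abs (hs _), mul_one,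
            abs_of_pos ht]
        · rw [if_neg h3, sub_self, abs_zero]; exact ht.le
  have xu : x u = h u + t * s u := by simp [x]
  have xu1 : x (u + 1) = h (u + 1) + t * s (u + 1) := by simp [x, e1]
  have xu2 : x (u + 1 + 1) = h (u + 1 + 1) - t * s (u + 1 + 1) := by simp [x, e2, e3]
  have p1 : 0 < s u * x u := by
    rw [xu]
    have := hsz u
    have h4 := incb_sq (hs u)
    nlinarith
  have p2 : 0 < s (u + 1) * x (u + 1) := by
    rw [xu1]
    have := hsz (u + 1)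
    have h4 := incb_sq (hs (u + 1))
    nlinarith
  have p3 : s (u + 1 + 1) * x (u + 1 + 1) < 0 := by
    rw [xu2]
    have h4 := incb_sq (hs (u + 1 + 1))
    have h5 : s (u + 1 + 1) * h (u + 1 + 1) ≤ |h (u + 1 + 1)| := by
      calc s (u + 1 + 1) * h (u + 1 + 1) ≤ |s (u + 1 + 1) * h (u + 1 + 1)| := le_abs_self _
        _ = |h (u + 1 + 1)| := by rw [abs_mul, gd_sgn_abs (hs _), one_mul]
    nlinarith
  have c1 : ε u * x u * x (u + 1) < 0 := by
    have : ε u * x u * x (u + 1) * (s u * s u) * (s (u + 1) * s (u + 1)) =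
        (s u * x u) * (s (u + 1) * x (u + 1)) * (ε u * s u * s (u + 1)) := by ring
    rw [incb_sq (hs u), incb_sq (hs (u + 1)), mul_one, mul_one] at this
    rw [this, hc]
    have h6 : ε u * s u * -(ε u * s u) = -1 := by
      have : ε u * s u * -(ε u * s u) = -((ε u * ε u) * (s u * s u)) := by ring
      rw [this, incb_sq (hε u), incb_sq (hs u)]; norm_num
    rw [h6]
    rw [hc] at p2
    nlinarith [mul_pos p1 p2]
  have c2 : ε (u + 1) * x (u + 1) * x (u + 1 + 1) < 0 := by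
    have : ε (u + 1) * x (u + 1) * x (u + 1 + 1) * (s (u + 1) * s (u + 1)) *
        (s (u + 1 + 1) * s (u + 1 + 1)) =
        (s (u + 1) * x (u + 1)) * (s (u + 1 + 1) * x (u + 1 + 1)) *
          (ε (u + 1) * s (u + 1) * s (u + 1 + 1)) := by ring
    rw [incb_sq (hs (u + 1)), incb_sq (hs (u + 1 + 1)), mul_one, mul_one] at this
    rw [this]
    have h6 : ε (u + 1) * s (u + 1) * s (u + 1 + 1) = 1 := by
      rw [hnc]
      have : ε (u + 1) * s (u + 1) * (ε (u + 1) * s (u + 1)) =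
        (ε (u + 1) * ε (u + 1)) * (s (u + 1) * s (u + 1)) := by ring
      rw [this, incb_sq (hε _), incb_sq (hs _)]; norm_num
    rw [h6, mul_one]
    exact mul_neg_of_pos_of_neg p2 p3
  exact e1 (inC_change_unique_pr ε hε x (hm x hx) (u + 1) u c2 c1)

/-- the transposed sum -/
theorem grow_sum {N : ℕ} [NeZero N] (ε s γ : Vec N) :
    ∑ w, s w * nb ε γ w = ∑ v, γ v * (s (v + 1) * ε v + s (v - 1) * ε (v - 1)) := by
  have h1 : ∑ w, s w * (ε (w - 1) * γ (w - 1)) = ∑ v, γ v * (s (v + 1) * ε v) := by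
    rw [← Equiv.sum_comp (Equiv.addRight (1 : ZMod N))]
    refine Finset.sum_congr rfl fun v _ => ?_
    simp only [Equiv.coe_addRight, add_sub_cancel_right]
    ring
  have h2 : ∑ w, s w * (ε w * γ (w + 1)) = ∑ v, γ v * (s (v - 1) * ε (v - 1)) := by
    rw [← Equiv.sum_comp (Equiv.subRight (1 : ZMod N))]
    refine Finset.sum_congr rfl fun v _ => ?_
    simp only [Equiv.subRight_apply, sub_add_cancel]
    ring
  calc ∑ w, s w * nb ε γ w = ∑ w, (s w * (ε (w - 1) * γ (w - 1)) + s w * (ε w * γ (w + 1))) := by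
        refine Finset.sum_congr rfl fun w _ => ?_
        simp only [nb]; ring
    _ = _ := by
        rw [Finset.sum_add_distrib, h1, h2, ← Finset.sum_add_distrib]
        refine Finset.sum_congr rfl fun w _ => ?_
        ring

theorem grow_one_pr {N : ℕ} [NeZero N] (hN : 3 ≤ N) (lmin lmax : ℝ) (h0 : 0 < lmin)
    (h1 : lmin ≤ lmax) (C0 e0 : ℝ) (hC : 0 < C0) (he : 0 < e0) :
    ∃ cg : ℝ, 0 < cg ∧ ∃ θ0 : ℝ, 0 < θ0 ∧ ∀ ε : Vec N, IsSgn ε → ∀ θ : ℝ, 0 < θ → θ ≤ θ0 →
      ∀ h h' γ : Vec N, (∀ x : Vec N, ‖x - h‖ ≤ e0 * ‖h‖ → InC ε x) → h ≠ 0 →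
      (∀ w, ∃ g, lmin ≤ g ∧ g ≤ lmax ∧ |γ w - g * h w| ≤ C0 * θ * ‖h‖) →
      ‖h' - h - θ • nb ε γ‖ ≤ C0 * θ ^ 2 * ‖h‖ → (1 + cg * θ) * l1 h ≤ l1 h' := by
  classical
  have hNpos : (0 : ℝ) < N := by
    have : 0 < N := by omega
    exact_mod_cast this
  set e1 : ℝ := min e0 1 with he1
  have he1pos : 0 < e1 := lt_min he one_pos
  refine ⟨lmin * e1 / N, by positivity, lmin * e1 / (3 * N * C0), by positivity, ?_⟩
  intro ε hε θ hθ hθ0 h h' γ hm hne hγ hh
  have hhpos : 0 < ‖h‖ := norm_pos_iff.2 hne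
  obtain ⟨s, hs, hsz, huniq⟩ := hm h (by rw [sub_self, norm_zero]; positivity)
  have hC0θ : 3 * N * C0 * θ ≤ lmin * e1 := by
    have := (le_div_iff₀ (by positivity : (0 : ℝ) < 3 * N * C0)).1 hθ0
    linarith
  -- coefficient
  have hκ : ∀ v, (s (v + 1) = ε v * s v ∧ s v = ε (v - 1) * s (v - 1)) →
      s (v + 1) * ε v + s (v - 1) * ε (v - 1) = 2 * s v := by
    rintro v ⟨ha, hb⟩
    have h2 : s (v - 1) * ε (v - 1) = s v := by rw [hb]; ring
    rw [h2, ha]
    have : ε v * s v * ε v = (ε v * ε v) * s v := by ring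
    rw [this, incb_sq (hε v)]; ring
  have hκ0 : ∀ v, ¬ (s (v + 1) = ε v * s v ∧ s v = ε (v - 1) * s (v - 1)) →
      s (v + 1) * ε v + s (v - 1) * ε (v - 1) = 0 := by
    intro v hv
    have hvne : v ≠ v - 1 := fun h => (incb_ne hN).1 (by
      have : (1 : ZMod N) = v - (v - 1) := by ring
      rw [this, ← h, sub_self])
    have hnot : ¬ (s (v + 1) ≠ ε v * s v ∧ s ((v - 1) + 1) ≠ ε (v - 1) * s (v - 1)) :=
      fun h => hvne (huniq v (v - 1) h.1 h.2)
    rw [sub_add_cancel] at hnot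
    revert hv hnot
    rcases hs (v + 1) with a | a <;> rcases hs v with b | b <;> rcases hs (v - 1) with c | c <;>
      rcases hε v with d | d <;> rcases hε (v - 1) with e | e <;> rw [a, b, c, d, e] <;> norm_num
  -- lower bound for each term
  have hterm : ∀ v, (if s (v + 1) = ε v * s v ∧ s v = ε (v - 1) * s (v - 1) then
      2 * lmin * |h v| else 0) - 2 * (C0 * θ * ‖h‖) ≤
      γ v * (s (v + 1) * ε v + s (v - 1) * ε (v - 1)) := by
    intro v
    obtain ⟨g, hg1, hg2, hg3⟩ := hγ v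
    split_ifs with hc
    · rw [hκ v hc]
      have h3 : s v * h v = |h v| := by
        rw [← abs_of_nonneg (hsz v), abs_mul, gd_sgn_abs (hs v), one_mul]
      have h4 : lmin * |h v| ≤ g * |h v| := mul_le_mul_of_nonneg_right hg1 (abs_nonneg _)
      have h5 : γ v * (2 * s v) = 2 * (g * (s v * h v)) + 2 * (s v * (γ v - g * h v)) := by ring
      have h6 : -(C0 * θ * ‖h‖) ≤ s v * (γ v - g * h v) := by
        have : |s v * (γ v - g * h v)| ≤ C0 * θ * ‖h‖ := by
          rw [abs_mul, gd_sgn_abs (hs v), one_mul]; exact hg3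
        exact (abs_le.1 this).1
      rw [h5, h3]
      linarith
    · rw [hκ0 v hc, mul_zero]
      have : 0 ≤ C0 * θ * ‖h‖ := by positivity
      linarith
  -- the big coordinate
  have hbig : ∃ v, (s (v + 1) = ε v * s v ∧ s v = ε (v - 1) * s (v - 1)) ∧
      e1 * ‖h‖ ≤ |h v| := by
    by_cases hch : ∃ u, s (u + 1) ≠ ε u * s u
    · obtain ⟨u, hu⟩ := hch
      have huq : ∀ a, s (a + 1) ≠ ε a * s a → a = u := fun a ha => huniq a u ha hu
      obtain ⟨hn1, hn2⟩ := incb_ne hN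
      have q1 : u + 1 ≠ u := fun h => hn1 (by simpa using h)
      have q3 : u + 1 + 1 ≠ u := fun h => hn2 (by linear_combination h)
      refine ⟨u + 1 + 1, ⟨?_, ?_⟩, ?_⟩
      · by_contra hne
        exact q3 (huq _ hne)
      · rw [add_sub_cancel_right]
        by_contra hne
        exact q1 (huq _ hne)
      · have := grow_big hN ε hε h s (e1 * ‖h‖) (by positivity) (fun x hx => hm x (hx.trans
          (mul_le_mul_of_nonneg_right (min_le_left _ _) hhpos.le))) hs hsz u hu huq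
        exact this
    · push Not at hch
      obtain ⟨v, hv⟩ : ∃ v, ‖h‖ ≤ |h v| := by
        by_contra hcon
        push Not at hcon
        have : ‖h‖ < ‖h‖ := by
          rw [pi_norm_lt_iff hhpos]
          intro i
          rw [Real.norm_eq_abs]
          exact hcon i
        exact lt_irrefl _ this
      refine ⟨v, ⟨hch v, ?_⟩, ?_⟩
      · have := hch (v - 1)
        rwa [sub_add_cancel] at this
      · refine le_trans ?_ hv
        calc e1 * ‖h‖ ≤ 1 * ‖h‖ := mul_le_mul_of_nonneg_right (min_le_right _ _) hhpos.le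
          _ = ‖h‖ := one_mul _
  obtain ⟨v0, hv0, hv0b⟩ := hbig
  have hsum1 : 2 * lmin * (e1 * ‖h‖) - N * (2 * (C0 * θ * ‖h‖)) ≤ ∑ w, s w * nb ε γ w := by
    rw [grow_sum]
    calc 2 * lmin * (e1 * ‖h‖) - N * (2 * (C0 * θ * ‖h‖))
        ≤ (∑ v, (if s (v + 1) = ε v * s v ∧ s v = ε (v - 1) * s (v - 1) then
            2 * lmin * |h v| else 0)) - ∑ _v : ZMod N, 2 * (C0 * θ * ‖h‖) := by
          rw [Finset.sum_const, Finset.card_univ, ZMod.card, nsmul_eq_mul]
          have := Finset.single_le_sum (f := fun v => (if s (v + 1) = ε v * s v ∧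
            s v = ε (v - 1) * s (v - 1) then 2 * lmin * |h v| else 0)) (fun i _ => by
              split_ifs
              · positivity
              · exact le_rfl) (Finset.mem_univ v0)
          rw [if_pos hv0] at this
          have h7 : 2 * lmin * (e1 * ‖h‖) ≤ 2 * lmin * |h v0| :=
            mul_le_mul_of_nonneg_left hv0b (by positivity)
          linarith
      _ = ∑ v, ((if s (v + 1) = ε v * s v ∧ s v = ε (v - 1) * s (v - 1) then
            2 * lmin * |h v| else 0) - 2 * (C0 * θ * ‖h‖)) := by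
          rw [Finset.sum_sub_distrib]
      _ ≤ _ := Finset.sum_le_sum fun v _ => hterm v
  have hl1 : l1 h = ∑ w, s w * h w := by
    unfold l1
    refine Finset.sum_congr rfl fun w _ => ?_
    rw [← abs_of_nonneg (hsz w), abs_mul, gd_sgn_abs (hs w), one_mul]
  have hl2 : ∑ w, s w * h' w ≤ l1 h' := by
    unfold l1
    refine Finset.sum_le_sum fun w _ => ?_
    calc s w * h' w ≤ |s w * h' w| := le_abs_self _
      _ = |h' w| := by rw [abs_mul, gd_sgn_abs (hs w), one_mul]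
  have herr : -(N * (C0 * θ ^ 2 * ‖h‖)) ≤ ∑ w, s w * (h' - h - θ • nb ε γ) w := by
    have : ∀ w, -(C0 * θ ^ 2 * ‖h‖) ≤ s w * (h' - h - θ • nb ε γ) w := by
      intro w
      have h8 : |s w * (h' - h - θ • nb ε γ) w| ≤ C0 * θ ^ 2 * ‖h‖ := by
        rw [abs_mul, gd_sgn_abs (hs w), one_mul]
        exact (gd_abs_le _ w).trans hh
      exact (abs_le.1 h8).1
    calc -(N * (C0 * θ ^ 2 * ‖h‖)) = ∑ _w : ZMod N, -(C0 * θ ^ 2 * ‖h‖) := by
          rw [Finset.sum_const, Finset.card_univ, ZMod.card, nsmul_eq_mul]; ring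
      _ ≤ _ := Finset.sum_le_sum fun w _ => this w
  have hdec : ∑ w, s w * h' w = ∑ w, s w * h w + θ * ∑ w, s w * nb ε γ w +
      ∑ w, s w * (h' - h - θ • nb ε γ) w := by
    rw [Finset.mul_sum, ← Finset.sum_add_distrib, ← Finset.sum_add_distrib]
    refine Finset.sum_congr rfl fun w _ => ?_
    simp only [Pi.sub_apply, Pi.smul_apply, smul_eq_mul]
    ring
  have hl1h : l1 h ≤ N * ‖h‖ := gd_l1_le h
  have hsum2 := mul_le_mul_of_nonneg_left hsum1 hθ.le
  have hfin : lmin * e1 / N * θ * l1 h ≤ θ * (lmin * e1 * ‖h‖) := by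
    have h9 : lmin * e1 / N * θ * l1 h ≤ lmin * e1 / N * θ * (N * ‖h‖) :=
      mul_le_mul_of_nonneg_left hl1h (by positivity)
    have h10 : lmin * e1 / N * θ * (N * ‖h‖) = θ * (lmin * e1 * ‖h‖) := by
      field_simp
    linarith
  have hmain : θ * (lmin * e1 * ‖h‖) ≤ θ * (2 * lmin * (e1 * ‖h‖) - N * (2 * (C0 * θ * ‖h‖))) -
      N * (C0 * θ ^ 2 * ‖h‖) := by
    have h11 : θ * (2 * lmin * (e1 * ‖h‖) - N * (2 * (C0 * θ * ‖h‖))) - N * (C0 * θ ^ 2 * ‖h‖) -
        θ * (lmin * e1 * ‖h‖) = θ * ‖h‖ * (lmin * e1 - 3 * N * C0 * θ) := by ring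
    have h12 : 0 ≤ θ * ‖h‖ * (lmin * e1 - 3 * N * C0 * θ) := by
      apply mul_nonneg (by positivity)
      linarith
    linarith
  calc (1 + lmin * e1 / N * θ) * l1 h = l1 h + lmin * e1 / N * θ * l1 h := by ring
    _ ≤ ∑ w, s w * h' w := by
        rw [hdec, ← hl1]
        linarith
    _ ≤ l1 h' := hl2

theorem grow_pr {N : ℕ} [NeZero N] (hN : 3 ≤ N) (lmin lmax : ℝ) (h0 : 0 < lmin)
    (h1 : lmin ≤ lmax) (C0 : ℝ) (hC : 0 < C0) :
    ∃ cg : ℝ, 0 < cg ∧ ∃ θ0 : ℝ, 0 < θ0 ∧ ∀ ε : Vec N, IsSgn ε → ∀ θ : ℝ, 0 < θ → θ ≤ θ0 →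
      ∀ n : ℕ, 1 ≤ n * θ → n * θ ≤ 2 → ∀ (J : ℕ) (h γ : ℕ → Vec N),
      (∀ k ≤ J, InC ε (h k) ∧ h k ≠ 0) →
      (∀ k < J, l1 (h k) ≤ l1 (h (k + 1)) ∧
        ‖h (k + 1) - h k - θ • nb ε (γ k)‖ ≤ C0 * θ ^ 2 * ‖h k‖ ∧
        ∀ w, ∃ g, lmin ≤ g ∧ g ≤ lmax ∧ |γ k w - g * h k w| ≤ C0 * θ * ‖h k‖) →
      ∀ k ≤ J, l1 (h 0) * (1 + cg * θ) ^ (k / n - 1) ≤ l1 (h k) := by
  have hlmax : 0 < lmax := h0.trans_le h1
  set L : ℝ := 2 * lmax + 3 * C0 with hL
  have hLpos : 0 < L := by positivity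
  obtain ⟨θ1, hθ1, e0, he0, hmargin⟩ := margin hN lmin lmax h0 h1 (3 * C0) (Real.exp (-(2 * L)))
    (by positivity) (Real.exp_pos _)
  obtain ⟨cg, hcg, θ2, hθ2, hone⟩ := grow_one_pr hN lmin lmax h0 h1 C0 e0 hC he0
  refine ⟨cg, hcg, min (min θ1 θ2) 1, lt_min (lt_min hθ1 hθ2) one_pos, ?_⟩
  intro ε hε θ hθ hθ0 n hn1 hn2 J h γ hh hstep
  have hθ1' : θ ≤ θ1 := hθ0.trans ((min_le_left _ _).trans (min_le_left _ _))
  have hθ2' : θ ≤ θ2 := hθ0.trans ((min_le_left _ _).trans (min_le_right _ _))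
  have hθ3' : θ ≤ 1 := hθ0.trans (min_le_right _ _)
  have hnpos : 0 < n := by
    rcases Nat.eq_zero_or_pos n with h' | h'
    · subst h'; simp at hn1; linarith
    · exact h'
  have hmono : ∀ i j, i ≤ j → j ≤ J → l1 (h i) ≤ l1 (h j) := by
    intro i j hij
    induction j, hij using Nat.le_induction with
    | base => intro _; exact le_rfl
    | succ j hij ih => intro hj; exact (ih (by omega)).trans (hstep j (by omega)).1
  -- margin at the end of each window
  have hwin : ∀ k0, k0 + n ≤ J → ∀ x : Vec N, ‖x - h (k0 + n)‖ ≤ e0 * ‖h (k0 + n)‖ → InC ε x := by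
    intro k0 hk0 x hx
    have hgrow := gd_seq (fun k => ‖h (k0 + k)‖) L θ n hLpos.le hθ.le (norm_nonneg _) (by
      intro k hk
      obtain ⟨_, hs2, hs3⟩ := hstep (k0 + k) (by omega)
      exact gd_growth ε hε lmin lmax C0 θ h0 hθ.le hθ3' hC.le _ _ _ hs3 hs2) hn2
    set Z : ℝ := Real.exp (2 * L) * ‖h k0‖ with hZ
    have hk0ne : 0 < ‖h k0‖ := norm_pos_iff.2 (hh k0 (by omega)).2
    have hZpos : 0 < Z := by positivity
    have hexp : ∀ k < n, ∃ g : Vec N, (∀ w, lmin ≤ g w ∧ g w ≤ lmax) ∧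
        ‖h (k0 + (k + 1)) - h (k0 + k) - θ • nb ε (g * h (k0 + k))‖ ≤ 3 * C0 * θ ^ 2 * ‖h (k0 + k)‖ := by
      intro k hk
      obtain ⟨_, hs2, hs3⟩ := hstep (k0 + k) (by omega)
      exact gd_step ε hε lmin lmax C0 θ ‖h (k0 + k)‖ hθ.le hC.le (norm_nonneg _) _ _ _ hs3 hs2
    have hexp' : ∀ k, ∃ g : Vec N, k < n → (∀ w, lmin ≤ g w ∧ g w ≤ lmax) ∧
        ‖h (k0 + (k + 1)) - h (k0 + k) - θ • nb ε (g * h (k0 + k))‖ ≤ 3 * C0 * θ ^ 2 * ‖h (k0 + k)‖ := by
      intro k
      by_cases hk : k < n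
      · obtain ⟨g, hg⟩ := hexp k hk
        exact ⟨g, fun _ => hg⟩
      · exact ⟨0, fun h => absurd h hk⟩
    choose g hg using hexp'
    refine hmargin ε hε θ hθ hθ1' n hn1 hn2 (fun k => h (k0 + k)) g Z hZpos
      (hh k0 (by omega)).1 ?_ ?_ ?_ x ?_
    · have : Real.exp (-(2 * L)) * Z = ‖h k0‖ := by
        rw [hZ, ← mul_assoc, ← Real.exp_add]; simp
      rw [this]
      simp
    · have : 1 ≤ Real.exp (2 * L) := Real.one_le_exp (by positivity)
      simp only [add_zero]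
      rw [hZ]
      nlinarith
    · intro k hk
      obtain ⟨hg1, hg2⟩ := hg k hk
      refine ⟨hg1, hg2.trans ?_⟩
      exact mul_le_mul_of_nonneg_left (hgrow k hk.le) (by positivity)
    · refine hx.trans (mul_le_mul_of_nonneg_left ?_ he0.le)
      exact hgrow n le_rfl
  have hP : ∀ j, j * n + 1 ≤ J → l1 (h 0) * (1 + cg * θ) ^ j ≤ l1 (h (j * n + 1)) := by
    intro j
    induction j with
    | zero =>
      intro hj
      rw [pow_zero, mul_one, zero_mul, zero_add]
      exact hmono 0 1 (by omega) (by omega)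
    | succ j ih =>
      intro hj
      have hjn : (j + 1) * n = j * n + n := by ring
      have hj' : j * n + n + 1 ≤ J := by omega
      obtain ⟨_, hs2, hs3⟩ := hstep (j * n + n) (by omega)
      have h2 := hone ε hε θ hθ hθ2' (h (j * n + n)) (h (j * n + n + 1)) (γ (j * n + n))
        (hwin (j * n) (by omega)) (hh _ (by omega)).2 hs3 hs2
      have h3 := ih (by omega)
      have h4 := hmono (j * n + 1) (j * n + n) (by omega) (by omega)
      rw [hjn]
      calc l1 (h 0) * (1 + cg * θ) ^ (j + 1) = (1 + cg * θ) * (l1 (h 0) * (1 + cg * θ) ^ j) := by ring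
        _ ≤ (1 + cg * θ) * l1 (h (j * n + n)) :=
            mul_le_mul_of_nonneg_left (h3.trans h4) (by positivity)
        _ ≤ l1 (h (j * n + n + 1)) := h2
  intro k hk
  rcases Nat.lt_or_ge (k / n) 2 with hq | hq
  · have : k / n - 1 = 0 := by omega
    rw [this, pow_zero, mul_one]
    exact hmono 0 k (by omega) hk
  · obtain ⟨q, hq'⟩ : ∃ q, k / n = q + 1 := ⟨k / n - 1, by omega⟩
    rw [hq', Nat.add_sub_cancel]
    have h5 : (q + 1) * n ≤ k := by
      rw [← hq']; exact Nat.div_mul_le_self k n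
    have h6 : q * n + 1 ≤ k := by
      have : (q + 1) * n = q * n + n := by ring
      omega
    exact (hP q (by omega)).trans (hmono _ _ h6 hk)

alias grow_one := grow_one_pr
alias grow := grow_pr

end Pool.Agent.Lib_helper10.CU
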