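import Pool.Agent.Lib_helper10.CU.WIN
import Pool.Agent.Lib_helper10.CU.ZO
import Pool.Agent.Lib_helper10.CU.INCB

-- block INIT2 written by helper20
set_option autoImplicit false
open scoped BigOperators Topology
open Filter
noncomputable section

namespace Pool.Agent.Lib_helper10.CU

/-! ## INIT2 : the second copy -/

/-- one step of the deficiency -/
theorem init_step {N K : ℕ} [NeZero N] (lam : Fin K → ℝ) (hl : ∀ j, 0 < lam j) (m : ℕ)
    (c : Cfg N K) (v : ZMod N) (q : ℝ) (hq : q * total lam c ≤ rate lam c v)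
    (ht : 0 < total lam c) : q * (1 - qq lam m (fire c v)) ≤ 1 - qq lam m c := by
  have hr : ∀ w, 0 ≤ rate lam c w := by
    intro w
    unfold rate
    split
    · exact le_rfl
    · exact mul_nonneg (hl _).le (by positivity)
  have hle : rate lam c v ≤ total lam c :=
    Finset.single_le_sum (f := fun w => rate lam c w) (fun w _ => hr w) (Finset.mem_univ v)
  have h1 : ∀ c' : Cfg N K, 0 ≤ 1 - qq lam m c' := fun c' =>
    sub_nonneg.mpr (qA_le_one lam hl _ c')
  have hqr : q * (1 - qq lam m (fire c v)) ≤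
      rate lam c v / total lam c * (1 - qq lam m (fire c v)) :=
    mul_le_mul_of_nonneg_right ((le_div_iff₀ ht).mpr hq) (h1 _)
  refine hqr.trans ?_
  by_cases hc : arcs c = m
  · have hh : qq lam m c = Pop lam (qq lam m) c :=
      qA_harm lam hl (fun c => arcs c = m) c hc
    have hs : ∑ w, rate lam c w / total lam c = 1 := by
      rw [← Finset.sum_div]
      exact div_self ht.ne'
    have e : 1 - qq lam m c = ∑ w, rate lam c w / total lam c * (1 - qq lam m (fire c w)) := by
      rw [hh]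
      unfold Pop
      nth_rewrite 1 [← hs]
      rw [← Finset.sum_sub_distrib]
      exact Finset.sum_congr rfl fun w _ => by ring
    rw [e]
    exact Finset.single_le_sum
      (f := fun w => rate lam c w / total lam c * (1 - qq lam m (fire c w)))
      (fun w _ => mul_nonneg (div_nonneg (hr w) ht.le) (h1 _)) (Finset.mem_univ v)
  · have hz : qq lam m c = 0 := qA_zero lam hl (fun c => arcs c = m) c hc
    rw [hz, sub_zero]
    have h2 : rate lam c v / total lam c ≤ 1 := (div_le_one ht).mpr hle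
    have h3 : 1 - qq lam m (fire c v) ≤ 1 := by
      have : 0 ≤ qq lam m (fire c v) := qA_nonneg lam hl _ _
      linarith
    calc rate lam c v / total lam c * (1 - qq lam m (fire c v)) ≤ 1 * 1 :=
          mul_le_mul h2 h3 (h1 _) zero_le_one
      _ = 1 := one_mul 1

/-- the value after `k` firings at `v` -/
def init_a {N : ℕ} (ε y : ZV N) (v : ZMod N) (k : ℕ) : ZV N :=
  fun w => y w + k * ((if w = v + 1 then ε v * Int.sign (y v) else 0) +
    (if w = v - 1 then ε (v - 1) * Int.sign (y v) else 0))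

theorem init_ne1 {N : ℕ} (hN : 3 ≤ N) (v : ZMod N) : v ≠ v + 1 := by
  intro h
  have h2 : (1 : ZMod N) = 0 := by
    have := h
    calc (1 : ZMod N) = v + 1 - v := by ring
      _ = 0 := by rw [← h, sub_self]
  have h3 : ((1 : ℕ) : ZMod N) = 0 := by exact_mod_cast h2
  rw [ZMod.natCast_eq_zero_iff] at h3
  have := Nat.le_of_dvd (by norm_num) h3
  omega

theorem init_ne2 {N : ℕ} (hN : 3 ≤ N) (v : ZMod N) : v ≠ v - 1 := by
  intro h
  have := init_ne1 hN (v - 1)
  rw [sub_add_cancel] at this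
  exact this h.symm

theorem init_a_self {N : ℕ} (hN : 3 ≤ N) (ε y : ZV N) (v : ZMod N) (k : ℕ) :
    init_a ε y v k v = y v := by
  unfold init_a
  rw [if_neg (init_ne1 hN v), if_neg (init_ne2 hN v)]
  ring

theorem init_a_succ {N : ℕ} (hN : 3 ≤ N) (ε y : ZV N) (v : ZMod N) (k : ℕ) :
    fireZ ε (init_a ε y v k) v = init_a ε y v (k + 1) := by
  funext w
  unfold fireZ
  rw [init_a_self hN]
  unfold init_a
  push_cast
  ring

theorem init_a_zero {N : ℕ} (ε y : ZV N) (v : ZMod N) : init_a ε y v 0 = y := by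
  funext w
  unfold init_a
  push_cast
  ring

theorem init_unit {N : ℕ} (hN : 3 ≤ N) {ε : ZV N} (hε : IsSgnZ ε) (y : ZV N) (v w : ZMod N) :
    ((if w = v + 1 then ε v * Int.sign (y v) else 0) +
      (if w = v - 1 then ε (v - 1) * Int.sign (y v) else 0)).natAbs ≤ 1 := by
  have hs : ∀ (x e : ℤ), (e = 1 ∨ e = -1) → (e * x.sign).natAbs ≤ 1 := by
    intro x e he
    rcases lt_trichotomy x 0 with h | h | h
    · rw [Int.sign_eq_neg_one_of_neg h]
      rcases he with e' | e' <;> rw [e'] <;> decide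
    · rw [h]
      rcases he with e' | e' <;> rw [e'] <;> decide
    · rw [Int.sign_eq_one_of_pos h]
      rcases he with e' | e' <;> rw [e'] <;> decide
  by_cases h1 : w = v + 1
  · have h2 : ¬ w = v - 1 := by rw [h1]; exact chart_step hN v
    rw [if_pos h1, if_neg h2, add_zero]
    exact hs _ _ (hε _)
  · rw [if_neg h1, zero_add]
    by_cases h2 : w = v - 1
    · rw [if_pos h2]
      exact hs _ _ (hε _)
    · rw [if_neg h2]
      decide

theorem init_a_diff {N : ℕ} (hN : 3 ≤ N) {ε : ZV N} (hε : IsSgnZ ε) (y : ZV N) (v : ZMod N)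
    (k : ℕ) (w : ZMod N) : (init_a ε y v k w - y w).natAbs ≤ k := by
  unfold init_a
  rw [add_sub_cancel_left, Int.natAbs_mul, Int.natAbs_natCast]
  calc k * _ ≤ k * 1 := Nat.mul_le_mul_left k (init_unit hN hε y v w)
    _ = k := mul_one k

theorem init_rz_ge {N : ℕ} {l : ℝ} {lp lm : Vec N} (hp : ∀ v, l ≤ lp v) (hm : ∀ v, l ≤ lm v)
    (y : ZV N) (v : ZMod N) : l * |(y v : ℝ)| ≤ rz lp lm y v := by
  unfold rz
  split_ifs with h
  · have h' : (0 : ℝ) ≤ (y v : ℝ) := by exact_mod_cast h.le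
    rw [abs_of_nonneg h']
    exact mul_le_mul_of_nonneg_right (hp v) h'
  · have h' : ((y v : ℤ) : ℝ) ≤ 0 := by exact_mod_cast not_lt.mp h
    rw [abs_of_nonpos h']
    exact mul_le_mul_of_nonneg_right (hm v) (by linarith)

theorem init_max {N : ℕ} [NeZero N] (x : Vec N) : ∃ v, |x v| = ‖x‖ := by
  obtain ⟨v, -, hv⟩ := Finset.exists_max_image Finset.univ (fun v => |x v|)
    Finset.univ_nonempty
  refine ⟨v, le_antisymm (norm_le_pi_norm x v) ?_⟩
  exact (pi_norm_le_iff_of_nonneg (abs_nonneg _)).mpr fun w => hv w (Finset.mem_univ w)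

theorem init_two_pr {N K : ℕ} [NeZero N] (hN : 3 ≤ N) (lam : Fin K → ℝ) (lmin lmax : ℝ)
    (h0 : 0 < lmin) (hlm : lmin ≤ lmax) (hl : ∀ j, lmin ≤ lam j ∧ lam j ≤ lmax) (ea : ℝ)
    (hea : 0 < ea) (hea1 : ea ≤ 1 / 8) (L0 : ℕ) (hL0 : 1 ≤ L0) :
    ∃ Y1 : ℝ, 0 < Y1 ∧ ∃ p : ℝ, 0 < p ∧ ∀ (ε : ZV N), IsSgnZ ε → ∀ (m : ℕ) (c : Cfg N K)
      (y : ZV N), arcs c = m → Rep ε c y → Str (castV ε) ea (castV y) → Y1 ≤ ‖castV y‖ →
      ∃ (c1 : Cfg N K) (y1 : ZV N), Rep ε c1 y1 ∧ Link c c1 y y1 ∧ y1 ≠ y ∧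
        InC (castV ε) (castV (y1 - y)) ∧ ‖castV (y1 - y)‖ = L0 ∧
        1 - qq lam m c1 ≤ p * (1 - qq lam m c) ∧ 0 < size c1 := by
  have hlmax : 0 < lmax := lt_of_lt_of_le h0 hlm
  have hn : (0 : ℝ) < N := by exact_mod_cast (by omega : 0 < N)
  have hlpos : ∀ j, 0 < lam j := fun j => lt_of_lt_of_le h0 (hl j).1
  have hL0p : (0 : ℝ) < L0 := by exact_mod_cast (by omega : 0 < L0)
  set q : ℝ := lmin / (2 * N * lmax) with hq
  have hqp : 0 < q := by positivity
  refine ⟨(2 * L0 + 2) / ea, by positivity, (q⁻¹) ^ L0, by positivity, ?_⟩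
  intro ε hε m c y _ hrep hStr hY
  set Y := ‖castV y‖ with hYdef
  have hYp : 0 < Y := lt_of_lt_of_le (by positivity) hY
  have heaY : 2 * (L0 : ℝ) + 2 ≤ ea * Y := by
    rw [div_le_iff₀ hea] at hY
    linarith
  have hYL : (L0 : ℝ) ≤ Y := by nlinarith
  obtain ⟨v, hv⟩ := init_max (castV y)
  have hvY : |(y v : ℝ)| = Y := hv
  -- big vertices
  have hbig : ∀ w, ea * Y < |(y w : ℝ)| → 2 * L0 + 2 < (y w).natAbs := by
    intro w hw
    have e0 : (((y w).natAbs : ℕ) : ℝ) = |(y w : ℝ)| := by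
      rw [Nat.cast_natAbs, Int.cast_abs]
    have : ((2 * L0 + 2 : ℕ) : ℝ) < (((y w).natAbs : ℕ) : ℝ) := by
      rw [e0]
      push_cast
      linarith
    exact_mod_cast this
  have hyne : ∀ w, ea * Y < |(y w : ℝ)| → y w ≠ 0 := by
    intro w hw h
    have := hbig w hw
    rw [h] at this
    simp at this
  have hLc : Link c c y y := by
    intro w hw _
    obtain ⟨j, hj⟩ := chart_ex hrep.1 w hw
    exact ⟨fun _ => mul_self_pos.mpr hw, fun _ => ⟨j, _, _, hj, hj⟩⟩
  obtain ⟨T, hT0, -, -, hrep', hfire⟩ := chart_pr hN lam hlpos ε hε c c y y L0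
    (fun w => ea * Y < |(y w : ℝ)|) hrep hrep hLc
    (fun w hw => by
      have := hbig w hw
      exact ⟨by omega, by omega, mul_self_pos.mpr (hyne w hw)⟩)
    (fun w hw => win_small hStr hw)
  have hvB : ea * Y < |(y v : ℝ)| := by
    rw [hvY]
    nlinarith
  have hvne : y v ≠ 0 := hyne v hvB
  have hsg : ∀ k ≤ L0, ∀ w, ea * Y < |(y w : ℝ)| →
      0 < init_a ε y v k w * y w ∧ 1 < (init_a ε y v k w).natAbs := by
    intro k hk w hw
    have h1 := hbig w hw
    have h2 := init_a_diff hN hε y v k w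
    exact ⟨win_sgn (by omega), by omega⟩
  have hfk : ∀ k ≤ L0, fire (cfgT T (init_a ε y v k)) v = cfgT T (init_a ε y v (k + 1)) := by
    intro k hk
    rw [hfire _ v (hsg k hk) (by rw [init_a_self hN]; exact hvne), init_a_succ hN]
  have hrate : ∀ k ≤ L0, 0 < total lam (cfgT T (init_a ε y v k)) ∧
      q * total lam (cfgT T (init_a ε y v k)) ≤ rate lam (cfgT T (init_a ε y v k)) v := by
    intro k hk
    have hr1 : lmin * Y ≤ rate lam (cfgT T (init_a ε y v k)) v := by
      rw [chart_rate]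
      have := init_rz_ge (l := lmin) (lp := fun v => lam (T v true))
        (lm := fun v => lam (T v false)) (fun _ => (hl _).1) (fun _ => (hl _).1)
        (init_a ε y v k) v
      rw [init_a_self hN, hvY] at this
      exact this
    have hr0 : ∀ w, 0 ≤ rate lam (cfgT T (init_a ε y v k)) w := by
      intro w
      rw [chart_rate]
      exact win_rz_nonneg (fun _ => (hlpos _).le) (fun _ => (hlpos _).le) _ w
    have ht1 : rate lam (cfgT T (init_a ε y v k)) v ≤ total lam (cfgT T (init_a ε y v k)) :=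
      Finset.single_le_sum (f := fun w => rate lam (cfgT T (init_a ε y v k)) w)
        (fun w _ => hr0 w) (Finset.mem_univ v)
    have ht2 : total lam (cfgT T (init_a ε y v k)) ≤ N * (lmax * (2 * Y)) := by
      unfold total
      calc ∑ w, rate lam (cfgT T (init_a ε y v k)) w ≤ ∑ _w : ZMod N, lmax * (2 * Y) := by
            refine Finset.sum_le_sum fun w _ => ?_
            rw [chart_rate]
            refine (win_rz_le hlmax.le (fun _ => (hl _).2) (fun _ => (hl _).2)
              (init_a ε y v k) w).trans (mul_le_mul_of_nonneg_left ?_ hlmax.le)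
            have h2 : (init_a ε y v k w).natAbs ≤ (y w).natAbs + L0 := by
              have := init_a_diff hN hε y v k w
              omega
            have h3 : (((init_a ε y v k w).natAbs : ℕ) : ℝ) ≤ (((y w).natAbs + L0 : ℕ) : ℝ) := by
              exact_mod_cast h2
            rw [Nat.cast_natAbs, Int.cast_abs, Nat.cast_add, Nat.cast_natAbs, Int.cast_abs] at h3
            have h4 : |(y w : ℝ)| ≤ Y := norm_le_pi_norm (castV y) w
            linarith
        _ = N * (lmax * (2 * Y)) := by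
            rw [Finset.sum_const, Finset.card_univ, ZMod.card, nsmul_eq_mul]
    refine ⟨lt_of_lt_of_le (by positivity) (hr1.trans ht1), ?_⟩
    refine le_trans ?_ hr1
    calc q * total lam (cfgT T (init_a ε y v k)) ≤ q * (N * (lmax * (2 * Y))) :=
          mul_le_mul_of_nonneg_left ht2 hqp.le
      _ = lmin * Y := by
          rw [hq]
          field_simp
  have hdef : ∀ k ≤ L0, 1 - qq lam m (cfgT T (init_a ε y v k)) ≤
      (q⁻¹) ^ k * (1 - qq lam m c) := by
    intro k
    induction k with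
    | zero =>
      intro _
      rw [init_a_zero, hT0, pow_zero, one_mul]
    | succ k ih =>
      intro hk
      have h1 := ih (by omega)
      obtain ⟨r1, r2⟩ := hrate k (by omega)
      have h2 := init_step lam hlpos m _ v q r2 r1
      rw [hfk k (by omega)] at h2
      have h3 : 1 - qq lam m (cfgT T (init_a ε y v (k + 1))) ≤
          q⁻¹ * (1 - qq lam m (cfgT T (init_a ε y v k))) := by
        rw [inv_mul_eq_div, le_div_iff₀ hqp, mul_comm]
        exact h2
      calc 1 - qq lam m (cfgT T (init_a ε y v (k + 1)))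
          ≤ q⁻¹ * (1 - qq lam m (cfgT T (init_a ε y v k))) := h3
        _ ≤ q⁻¹ * ((q⁻¹) ^ k * (1 - qq lam m c)) :=
            mul_le_mul_of_nonneg_left h1 (by positivity)
        _ = (q⁻¹) ^ (k + 1) * (1 - qq lam m c) := by ring
  obtain ⟨-, r2, r3⟩ := hrep' y (init_a ε y v L0) (fun w hw =>
    ⟨mul_self_pos.mpr (hyne w hw), (hsg L0 le_rfl w hw).1⟩)
  rw [hT0] at r3
  have hs1 : |((Int.sign (y v) : ℤ) : ℝ)| = 1 := by
    rcases chart_sign _ hvne with h | h <;> rw [h] <;> simp
  have hcast : castV (init_a ε y v L0 - y) =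
      ((L0 : ℝ) * ((Int.sign (y v) : ℤ) : ℝ)) • ring (castV ε) v := by
    funext w
    unfold castV init_a ring
    rw [Pi.sub_apply, Pi.smul_apply, smul_eq_mul]
    push_cast
    split_ifs <;> ring
  have hεv : ∀ u, |((ε u : ℤ) : ℝ)| = 1 := by
    intro u
    rcases hε u with h | h <;> rw [h] <;> simp
  have hsgn : IsSgn (castV ε) := by
    intro u
    unfold castV
    rcases hε u with h | h <;> rw [h]
    · left; norm_num
    · right; norm_num
  have hat : castV (init_a ε y v L0 - y) (v + 1) =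
      (L0 : ℝ) * ((Int.sign (y v) : ℤ) : ℝ) * ((ε v : ℤ) : ℝ) := by
    rw [hcast]
    unfold ring castV
    rw [Pi.smul_apply, smul_eq_mul, if_pos rfl, if_neg (chart_step hN v), add_zero]
  have hatn : ‖castV (init_a ε y v L0 - y) (v + 1)‖ = L0 := by
    rw [hat, Real.norm_eq_abs, abs_mul, abs_mul, hs1, hεv, abs_of_pos hL0p]
    ring
  refine ⟨cfgT T (init_a ε y v L0), init_a ε y v L0, r2, r3, ?_, ?_, ?_, hdef L0 le_rfl, ?_⟩
  · intro h
    rw [h, sub_self] at hatn
    have : castV (0 : ZV N) (v + 1) = 0 := by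
      unfold castV
      simp
    rw [this, norm_zero] at hatn
    linarith
  · rw [hcast]
    exact inC_smul _ _ _ (inC_ring hN _ hsgn v)
  · refine le_antisymm ?_ ?_
    · refine (pi_norm_le_iff_of_nonneg hL0p.le).mpr fun w => ?_
      have h2 := init_a_diff hN hε y v L0 w
      have h3 : (((init_a ε y v L0 w - y w).natAbs : ℕ) : ℝ) ≤ (L0 : ℝ) := by
        exact_mod_cast h2
      rw [Nat.cast_natAbs, Int.cast_abs] at h3
      exact h3
    · calc (L0 : ℝ) = ‖castV (init_a ε y v L0 - y) (v + 1)‖ := hatn.symm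
        _ ≤ _ := norm_le_pi_norm _ _
  · have h1 : cnt (cfgT T (init_a ε y v L0)) v ≤ size (cfgT T (init_a ε y v L0)) :=
      Finset.single_le_sum (f := fun w => cnt (cfgT T (init_a ε y v L0)) w)
        (fun w _ => Nat.zero_le _) (Finset.mem_univ v)
    have h2 := r2.1 v
    rw [init_a_self hN] at h2
    have := hbig v hvB
    omega

alias init_two := init_two_pr

end Pool.Agent.Lib_helper10.CU
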