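import Pool.Agent.Lib_helper10.CU.Defs

-- block LYAP written by helper20
set_option autoImplicit false
open scoped BigOperators Topology
open Filter
noncomputable section

namespace Pool.Agent.Lib_helper10.CU

/-! ## LYAP : the Rayleigh quotient over one window -/

section
variable {N : ℕ} [NeZero N]

theorem lyap_ip_le (x z : Vec N) : |ip x z| ≤ N * (‖x‖ * ‖z‖) := by
  unfold ip
  calc |∑ v, x v * z v| ≤ ∑ v, |x v * z v| := Finset.abs_sum_le_sum_abs _ _
    _ ≤ ∑ _v : ZMod N, ‖x‖ * ‖z‖ := by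
        refine Finset.sum_le_sum fun v _ => ?_
        rw [abs_mul]
        exact mul_le_mul (norm_le_pi_norm x v) (norm_le_pi_norm z v) (abs_nonneg _)
          (norm_nonneg _)
    _ = N * (‖x‖ * ‖z‖) := by
        rw [Finset.sum_const, Finset.card_univ, ZMod.card, nsmul_eq_mul]

theorem lyap_ip_comm (x z : Vec N) : ip x z = ip z x := by
  unfold ip
  exact Finset.sum_congr rfl fun v _ => mul_comm _ _

theorem lyap_ip_add_left (x x' z : Vec N) : ip (x + x') z = ip x z + ip x' z := by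
  unfold ip
  rw [← Finset.sum_add_distrib]
  exact Finset.sum_congr rfl fun v _ => by rw [Pi.add_apply]; ring

theorem lyap_ip_add_right (x z z' : Vec N) : ip x (z + z') = ip x z + ip x z' := by
  rw [lyap_ip_comm, lyap_ip_add_left, lyap_ip_comm z, lyap_ip_comm z']

theorem lyap_ip_smul_left (a : ℝ) (x z : Vec N) : ip (a • x) z = a * ip x z := by
  unfold ip
  rw [Finset.mul_sum]
  exact Finset.sum_congr rfl fun v _ => by rw [Pi.smul_apply, smul_eq_mul]; ring

theorem lyap_ip_smul_right (a : ℝ) (x z : Vec N) : ip x (a • z) = a * ip x z := by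
  rw [lyap_ip_comm, lyap_ip_smul_left, lyap_ip_comm]

theorem lyap_ip_sub_left (x x' z : Vec N) : ip (x - x') z = ip x z - ip x' z := by
  unfold ip
  rw [← Finset.sum_sub_distrib]
  exact Finset.sum_congr rfl fun v _ => by rw [Pi.sub_apply]; ring

theorem lyap_ip_sub_right (x z z' : Vec N) : ip x (z - z') = ip x z - ip x z' := by
  rw [lyap_ip_comm, lyap_ip_sub_left, lyap_ip_comm z, lyap_ip_comm z']

/-- move a diagonal multiplier -/
theorem lyap_ip_mul (g x z : Vec N) : ip (g * x) z = ip x (g * z) := by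
  unfold ip
  exact Finset.sum_congr rfl fun v _ => by rw [Pi.mul_apply, Pi.mul_apply]; ring

theorem lyap_nb_add (ε x z : Vec N) : nb ε (x + z) = nb ε x + nb ε z := by
  funext w
  simp only [nb, Pi.add_apply]
  ring

theorem lyap_nb_sub (ε x z : Vec N) : nb ε (x - z) = nb ε x - nb ε z := by
  funext w
  simp only [nb, Pi.sub_apply]
  ring

theorem lyap_nb_le {ε : Vec N} (hε : IsSgn ε) (x : Vec N) : ‖nb ε x‖ ≤ 2 * ‖x‖ := by
  refine (pi_norm_le_iff_of_nonneg (by positivity)).mpr fun w => ?_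
  unfold nb
  have h : ∀ v u : ZMod N, |ε v * x u| ≤ ‖x‖ := by
    intro v u
    rw [abs_mul]
    have : |ε v| = 1 := by rcases hε v with h | h <;> rw [h] <;> simp
    rw [this, one_mul]
    exact norm_le_pi_norm x u
  rw [Real.norm_eq_abs]
  calc |ε (w - 1) * x (w - 1) + ε w * x (w + 1)|
      ≤ |ε (w - 1) * x (w - 1)| + |ε w * x (w + 1)| := abs_add_le _ _
    _ ≤ ‖x‖ + ‖x‖ := add_le_add (h _ _) (h _ _)
    _ = 2 * ‖x‖ := by ring

theorem lyap_shift (F : ZMod N → ℝ) : ∑ w, F (w + 1) = ∑ w, F w :=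
  Equiv.sum_comp (Equiv.addRight (1 : ZMod N)) F

theorem lyap_shift' (F : ZMod N → ℝ) : ∑ w, F (w - 1) = ∑ w, F w := by
  have := Equiv.sum_comp (Equiv.subRight (1 : ZMod N)) F
  exact this

theorem lyap_symm (ε x z : Vec N) : ip x (nb ε z) = ip (nb ε x) z := by
  unfold ip nb
  have e1 : ∑ w, x w * (ε (w - 1) * z (w - 1)) = ∑ w, x (w + 1) * (ε w * z w) := by
    rw [← lyap_shift (fun w => x w * (ε (w - 1) * z (w - 1)))]
    refine Finset.sum_congr rfl fun w _ => ?_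
    rw [show w + 1 - 1 = w by ring]
  have e2 : ∑ w, x w * (ε w * z (w + 1)) = ∑ w, x (w - 1) * (ε (w - 1) * z w) := by
    rw [← lyap_shift' (fun w => x w * (ε w * z (w + 1)))]
    refine Finset.sum_congr rfl fun w _ => ?_
    rw [show w - 1 + 1 = w by ring]
  calc ∑ w, x w * (ε (w - 1) * z (w - 1) + ε w * z (w + 1))
      = ∑ w, x w * (ε (w - 1) * z (w - 1)) + ∑ w, x w * (ε w * z (w + 1)) := by
        rw [← Finset.sum_add_distrib]
        exact Finset.sum_congr rfl fun w _ => by ring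
    _ = ∑ w, x (w + 1) * (ε w * z w) + ∑ w, x (w - 1) * (ε (w - 1) * z w) := by rw [e1, e2]
    _ = ∑ w, (ε (w - 1) * x (w - 1) + ε w * x (w + 1)) * z w := by
        rw [← Finset.sum_add_distrib]
        exact Finset.sum_congr rfl fun w _ => by ring

theorem lyap_sq (x : Vec N) : ‖x‖ ^ 2 ≤ ip x x := by
  have h0 : 0 ≤ ip x x := Finset.sum_nonneg fun v _ => mul_self_nonneg _
  have h : ‖x‖ ≤ Real.sqrt (ip x x) := by
    refine (pi_norm_le_iff_of_nonneg (Real.sqrt_nonneg _)).mpr fun w => ?_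
    rw [Real.norm_eq_abs]
    refine Real.abs_le_sqrt ?_
    rw [pow_two]
    exact Finset.single_le_sum (f := fun v => x v * x v) (fun v _ => mul_self_nonneg _)
      (Finset.mem_univ w)
  calc ‖x‖ ^ 2 ≤ (Real.sqrt (ip x x)) ^ 2 := pow_le_pow_left₀ (norm_nonneg _) h 2
    _ = ip x x := Real.sq_sqrt h0

/-- the basic bounds for a vector with its rate vector -/
theorem lyap_Rg {lmin lmax : ℝ} (h0 : 0 < lmin) (h1 : lmin ≤ lmax) {y f : Vec N}
    (hf : Rg lmin lmax y f) :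
    ‖f‖ ≤ lmax * ‖y‖ ∧ lmin * ‖y‖ ^ 2 ≤ ip y f ∧ ip f f ≤ lmax * ip y f := by
  have hl : 0 < lmax := lt_of_lt_of_le h0 h1
  choose g hg1 hg2 hg3 using hf
  refine ⟨?_, ?_, ?_⟩
  · refine (pi_norm_le_iff_of_nonneg (by positivity)).mpr fun w => ?_
    rw [hg3, norm_mul, Real.norm_eq_abs (g w), abs_of_nonneg (h0.le.trans (hg1 w))]
    exact mul_le_mul (hg2 w) (norm_le_pi_norm y w) (norm_nonneg _) hl.le
  · calc lmin * ‖y‖ ^ 2 ≤ lmin * ip y y := mul_le_mul_of_nonneg_left (lyap_sq y) h0.le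
      _ ≤ ip y f := by
          unfold ip
          rw [Finset.mul_sum]
          refine Finset.sum_le_sum fun v _ => ?_
          rw [hg3]
          nlinarith [mul_nonneg (sub_nonneg.mpr (hg1 v)) (mul_self_nonneg (y v))]
  · unfold ip
    rw [Finset.mul_sum]
    refine Finset.sum_le_sum fun v _ => ?_
    rw [hg3]
    have h2 : 0 ≤ g v * (y v * y v) := mul_nonneg (h0.le.trans (hg1 v)) (mul_self_nonneg _)
    nlinarith [mul_nonneg (sub_nonneg.mpr (hg2 v)) h2]

theorem lyap_Q_le {ε : Vec N} (hε : IsSgn ε) (f : Vec N) : |ip f (nb ε f)| ≤ 2 * ip f f := by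
  have habs : ∀ v, |ε v| = 1 := fun v => by rcases hε v with h | h <;> rw [h] <;> simp
  unfold ip nb
  calc |∑ w, f w * (ε (w - 1) * f (w - 1) + ε w * f (w + 1))|
      ≤ ∑ w, |f w * (ε (w - 1) * f (w - 1) + ε w * f (w + 1))| :=
        Finset.abs_sum_le_sum_abs _ _
    _ ≤ ∑ w, (f w * f w + (f (w - 1) * f (w - 1) + f (w + 1) * f (w + 1)) / 2) := by
        refine Finset.sum_le_sum fun w _ => ?_
        rw [abs_mul]
        have h1 : |ε (w - 1) * f (w - 1) + ε w * f (w + 1)| ≤ |f (w - 1)| + |f (w + 1)| := by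
          refine (abs_add_le _ _).trans ?_
          rw [abs_mul, abs_mul, habs, habs, one_mul, one_mul]
        have h2 := mul_le_mul_of_nonneg_left h1 (abs_nonneg (f w))
        have h3 := abs_mul_abs_self (f w)
        have h4 := abs_mul_abs_self (f (w - 1))
        have h5 := abs_mul_abs_self (f (w + 1))
        nlinarith [mul_self_nonneg (|f w| - |f (w - 1)|), mul_self_nonneg (|f w| - |f (w + 1)|)]
    _ = 2 * ∑ v, f v * f v := by
        rw [Finset.sum_add_distrib, ← Finset.sum_div, Finset.sum_add_distrib,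
          lyap_shift (fun w => f w * f w), lyap_shift' (fun w => f w * f w)]
        ring

theorem RR_bound_pr (hN : 3 ≤ N) (lmin lmax : ℝ) (h0 : 0 < lmin)
    (h1 : lmin ≤ lmax) (ε : Vec N) (hε : IsSgn ε) (y f : Vec N) (hf : Rg lmin lmax y f) :
    |RR ε y f| ≤ 2 * lmax := by
  obtain ⟨-, h2, h3⟩ := lyap_Rg h0 h1 hf
  have hP : 0 ≤ ip y f := le_trans (by positivity) h2
  unfold RR
  rw [abs_div, abs_of_nonneg hP]
  refine div_le_of_le_mul₀ hP (by linarith) ?_
  have := lyap_Q_le hε f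
  linarith

theorem lyap_phi {lmin lmax τ : ℝ} (h0 : 0 < lmin) (h1 : lmin ≤ lmax) {y f y' f' : Vec N}
    (h : Slope lmin lmax τ y f y' f') : ‖f' - f‖ ≤ lmax * ‖y' - y‖ := by
  have hl : 0 < lmax := lt_of_lt_of_le h0 h1
  refine (pi_norm_le_iff_of_nonneg (by positivity)).mpr fun w => ?_
  obtain ⟨g, hg1, hg2, hg3, -⟩ := h w
  rw [Pi.sub_apply, hg3, norm_mul, Real.norm_eq_abs g, abs_of_nonneg (h0.le.trans hg1)]
  exact mul_le_mul hg2 (norm_le_pi_norm (y' - y) w) (norm_nonneg _) hl.le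

theorem lip_pr (hN : 3 ≤ N) (lmin lmax : ℝ) (h0 : 0 < lmin)
    (h1 : lmin ≤ lmax) :
    ∃ L : ℝ, 0 < L ∧ ∃ τ0 : ℝ, 0 < τ0 ∧ ∀ τ : ℝ, 0 ≤ τ → τ ≤ τ0 → ∀ ε : Vec N, IsSgn ε →
      ∀ y f y' f' : Vec N, y ≠ 0 → Rg lmin lmax y f → Rg lmin lmax y' f' →
      ‖y' - y‖ ≤ τ * ‖y‖ → Slope lmin lmax τ y f y' f' →
      |RR ε y' f' - RR ε y f| ≤ L * τ ∧ |df ε y' f' - df ε y f| ≤ L * τ ∧ y' ≠ 0 := by
  have hl : 0 < lmax := lt_of_lt_of_le h0 h1
  have hn : (0 : ℝ) < N := by exact_mod_cast (by omega : 0 < N)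
  set L1 : ℝ := 40 * N * lmax ^ 2 / lmin with hL1
  have hL1p : 0 < L1 := by positivity
  refine ⟨4 * L1 + 16 * lmax, by positivity, 1 / 2, by norm_num, ?_⟩
  intro τ hτ0 hτ ε hε y f y' f' hy hf hf' hη hS
  set Y := ‖y‖ with hYdef
  have hY : 0 < Y := norm_pos_iff.mpr hy
  obtain ⟨f1, f2, f3⟩ := lyap_Rg h0 h1 hf
  obtain ⟨f1', f2', f3'⟩ := lyap_Rg h0 h1 hf'
  have hφ : ‖f' - f‖ ≤ lmax * (τ * Y) :=
    (lyap_phi h0 h1 hS).trans (mul_le_mul_of_nonneg_left hη hl.le)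
  have hY1 : ‖y'‖ ≤ 3 / 2 * Y := by
    have h2 : ‖y'‖ ≤ ‖y' - y‖ + ‖y‖ := by
      have := norm_add_le (y' - y) y
      rwa [sub_add_cancel] at this
    have h3 : τ * Y ≤ 1 / 2 * Y := mul_le_mul_of_nonneg_right hτ hY.le
    linarith
  have hY2 : Y / 2 ≤ ‖y'‖ := by
    have h2 : ‖y‖ ≤ ‖y' - y‖ + ‖y'‖ := by
      have := norm_sub_le y' (y' - y)
      rw [sub_sub_cancel] at this
      linarith
    have h3 : τ * Y ≤ 1 / 2 * Y := mul_le_mul_of_nonneg_right hτ hY.le
    linarith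
  have hY'p : 0 < ‖y'‖ := lt_of_lt_of_le (by positivity) hY2
  have hy' : y' ≠ 0 := norm_pos_iff.mp hY'p
  have hP : 0 < ip y f := lt_of_lt_of_le (by positivity) f2
  have hP'l : lmin * (Y ^ 2 / 4) ≤ ip y' f' := by
    refine le_trans (mul_le_mul_of_nonneg_left ?_ h0.le) f2'
    nlinarith
  have hP' : 0 < ip y' f' := lt_of_lt_of_le (by positivity) hP'l
  have hR : |RR ε y f| ≤ 2 * lmax := RR_bound_pr hN lmin lmax h0 h1 ε hε y f hf
  have hRP : RR ε y f * ip y f = ip f (nb ε f) := by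
    unfold RR; field_simp
  have hRP' : RR ε y' f' * ip y' f' = ip f' (nb ε f') := by
    unfold RR; field_simp
  have hff' : ‖f'‖ ≤ lmax * (3 / 2 * Y) := f1'.trans (mul_le_mul_of_nonneg_left hY1 hl.le)
  -- the difference of the quadratic forms
  have eQ : ip f' (nb ε f') - ip f (nb ε f) =
      ip (f' - f) (nb ε f') + ip f (nb ε (f' - f)) := by
    rw [lyap_nb_sub, lyap_ip_sub_left, lyap_ip_sub_right]
    ring
  have bQ : |ip f' (nb ε f') - ip f (nb ε f)| ≤ 5 * N * lmax ^ 2 * τ * Y ^ 2 := by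
    rw [eQ]
    have b1 : |ip (f' - f) (nb ε f')| ≤ N * (lmax * (τ * Y) * (2 * (lmax * (3 / 2 * Y)))) := by
      refine (lyap_ip_le _ _).trans (mul_le_mul_of_nonneg_left ?_ hn.le)
      refine mul_le_mul hφ ?_ (norm_nonneg _) (by positivity)
      exact (lyap_nb_le hε f').trans (mul_le_mul_of_nonneg_left hff' (by norm_num))
    have b2 : |ip f (nb ε (f' - f))| ≤ N * (lmax * Y * (2 * (lmax * (τ * Y)))) := by
      refine (lyap_ip_le _ _).trans (mul_le_mul_of_nonneg_left ?_ hn.le)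
      refine mul_le_mul f1 ?_ (norm_nonneg _) (by positivity)
      exact (lyap_nb_le hε _).trans (mul_le_mul_of_nonneg_left hφ (by norm_num))
    refine (abs_add_le _ _).trans ((add_le_add b1 b2).trans (le_of_eq ?_))
    ring
  have eP : ip y' f' - ip y f = ip (y' - y) f' + ip y (f' - f) := by
    rw [lyap_ip_sub_left, lyap_ip_sub_right]
    ring
  have bP : |ip y' f' - ip y f| ≤ 5 / 2 * N * lmax * τ * Y ^ 2 := by
    rw [eP]
    have b1 : |ip (y' - y) f'| ≤ N * (τ * Y * (lmax * (3 / 2 * Y))) := by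
      refine (lyap_ip_le _ _).trans (mul_le_mul_of_nonneg_left ?_ hn.le)
      exact mul_le_mul hη hff' (norm_nonneg _) (by positivity)
    have b2 : |ip y (f' - f)| ≤ N * (Y * (lmax * (τ * Y))) := by
      refine (lyap_ip_le _ _).trans (mul_le_mul_of_nonneg_left ?_ hn.le)
      exact mul_le_mul le_rfl hφ (norm_nonneg _) hY.le
    refine (abs_add_le _ _).trans ((add_le_add b1 b2).trans (le_of_eq ?_))
    ring
  have key : |RR ε y' f' - RR ε y f| ≤ L1 * τ := by
    have e : (RR ε y' f' - RR ε y f) * ip y' f' =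
        (ip f' (nb ε f') - ip f (nb ε f)) - RR ε y f * (ip y' f' - ip y f) := by
      rw [← hRP, ← hRP']
      ring
    have b : |RR ε y' f' - RR ε y f| * ip y' f' ≤ 10 * N * lmax ^ 2 * τ * Y ^ 2 := by
      rw [← abs_of_pos hP', ← abs_mul, e]
      have b3 : |RR ε y f * (ip y' f' - ip y f)| ≤ 2 * lmax * (5 / 2 * N * lmax * τ * Y ^ 2) := by
        rw [abs_mul]
        exact mul_le_mul hR bP (abs_nonneg _) (by positivity)
      have := abs_sub (ip f' (nb ε f') - ip f (nb ε f)) (RR ε y f * (ip y' f' - ip y f))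
      nlinarith
    have b4 : |RR ε y' f' - RR ε y f| * (lmin * (Y ^ 2 / 4)) ≤ 10 * N * lmax ^ 2 * τ * Y ^ 2 :=
      (mul_le_mul_of_nonneg_left hP'l (abs_nonneg _)).trans b
    have b5 : |RR ε y' f' - RR ε y f| * (lmin * (Y ^ 2 / 4)) ≤
        L1 * τ * (lmin * (Y ^ 2 / 4)) := by
      refine b4.trans (le_of_eq ?_)
      rw [hL1]
      field_simp
      ring
    exact le_of_mul_le_mul_right b5 (by positivity)
  -- the defects
  have hD : ‖nb ε f - RR ε y f • y‖ ≤ 4 * lmax * Y := by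
    refine (norm_sub_le _ _).trans ?_
    rw [norm_smul, Real.norm_eq_abs]
    have b1 := (lyap_nb_le hε f).trans (mul_le_mul_of_nonneg_left f1 (by norm_num))
    have b2 := mul_le_mul_of_nonneg_right hR hY.le
    linarith
  have hDD : ‖(nb ε f' - RR ε y' f' • y') - (nb ε f - RR ε y f • y)‖ ≤
      (4 * lmax + 3 / 2 * L1) * τ * Y := by
    have e : (nb ε f' - RR ε y' f' • y') - (nb ε f - RR ε y f • y) =
        nb ε (f' - f) - ((RR ε y' f' - RR ε y f) • y' + RR ε y f • (y' - y)) := by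
      rw [lyap_nb_sub]
      funext w
      simp only [Pi.sub_apply, Pi.add_apply, Pi.smul_apply, smul_eq_mul]
      ring
    rw [e]
    refine (norm_sub_le _ _).trans ?_
    have b1 := (lyap_nb_le hε (f' - f)).trans (mul_le_mul_of_nonneg_left hφ (by norm_num))
    have b2 : ‖(RR ε y' f' - RR ε y f) • y' + RR ε y f • (y' - y)‖ ≤
        L1 * τ * (3 / 2 * Y) + 2 * lmax * (τ * Y) := by
      refine (norm_add_le _ _).trans (add_le_add ?_ ?_)
      · rw [norm_smul, Real.norm_eq_abs]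
        exact mul_le_mul key hY1 (norm_nonneg _) (by positivity)
      · rw [norm_smul, Real.norm_eq_abs]
        exact mul_le_mul hR hη (norm_nonneg _) (by positivity)
    nlinarith
  have hdf : |df ε y' f' - df ε y f| ≤ (16 * lmax + 3 * L1) * τ := by
    unfold df
    set A := ‖nb ε f - RR ε y f • y‖ with hA
    set A' := ‖nb ε f' - RR ε y' f' • y'‖ with hA'
    have hA0 : 0 ≤ A := norm_nonneg _
    have c1 : |A' - A| ≤ (4 * lmax + 3 / 2 * L1) * τ * Y := (abs_norm_sub_norm_le _ _).trans hDD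
    have c2 : |Y - ‖y'‖| ≤ τ * Y := by
      rw [abs_sub_comm]
      exact (abs_norm_sub_norm_le _ _).trans hη
    have e : A' / ‖y'‖ - A / ‖y‖ = ((A' - A) * Y + A * (Y - ‖y'‖)) / (‖y'‖ * Y) := by
      rw [← hYdef]
      field_simp
      ring
    rw [e, abs_div, abs_of_pos (mul_pos hY'p hY), div_le_iff₀ (mul_pos hY'p hY)]
    have c3 : |(A' - A) * Y + A * (Y - ‖y'‖)| ≤
        (4 * lmax + 3 / 2 * L1) * τ * Y * Y + 4 * lmax * Y * (τ * Y) := by
      refine (abs_add_le _ _).trans (add_le_add ?_ ?_)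
      · rw [abs_mul, abs_of_pos hY]
        exact mul_le_mul_of_nonneg_right c1 hY.le
      · rw [abs_mul, abs_of_nonneg hA0]
        exact mul_le_mul hD c2 (abs_nonneg _) (by positivity)
    refine c3.trans ?_
    have c4 : (16 * lmax + 3 * L1) * τ * (Y / 2 * Y) ≤ (16 * lmax + 3 * L1) * τ * (‖y'‖ * Y) :=
      mul_le_mul_of_nonneg_left (mul_le_mul_of_nonneg_right hY2 hY.le) (by positivity)
    refine le_trans (le_of_eq ?_) c4
    ring
  refine ⟨key.trans ?_, hdf.trans ?_, hy'⟩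
  · exact mul_le_mul_of_nonneg_right (by linarith) hτ0
  · exact mul_le_mul_of_nonneg_right (by linarith) hτ0

theorem lyap_slope_mono {lmin lmax τ τ' : ℝ} (h : τ ≤ τ') {y f y' f' : Vec N}
    (hS : Slope lmin lmax τ y f y' f') : Slope lmin lmax τ' y f y' f' := by
  intro w
  obtain ⟨g, h1, h2, h3, h4⟩ := hS w
  exact ⟨g, h1, h2, h3, h4.trans (mul_le_mul_of_nonneg_right h (norm_nonneg _))⟩

theorem lyap_mulnorm {l : ℝ} (hl : 0 ≤ l) {g x : Vec N} (hg : ∀ w, |g w| ≤ l) :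
    ‖g * x‖ ≤ l * ‖x‖ := by
  refine (pi_norm_le_iff_of_nonneg (by positivity)).mpr fun w => ?_
  rw [Pi.mul_apply, norm_mul]
  exact mul_le_mul (hg w) (norm_le_pi_norm x w) (norm_nonneg _) hl

/-- the main inequality -/
theorem lyap_core {lmin lmax : ℝ} (h0 : 0 < lmin) (h1 : lmin ≤ lmax) {C0 : ℝ} (hC : 0 < C0)
    {θ : ℝ} (hθ : 0 < θ) {C1 : ℝ} (hC1 : 0 < C1) {ε : Vec N} (hε : IsSgn ε)
    {y f y' f' : Vec N} (hy : y ≠ 0)
    (hf : Rg lmin lmax y f) (hη : ‖y' - y‖ ≤ C1 * θ * ‖y‖)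
    (hr : ‖y' - y - θ • nb ε f‖ ≤ C0 * θ ^ 2 * ‖y‖)
    (hS : Slope lmin lmax (C0 * θ) y f y' f') (hR : |RR ε y f| ≤ 2 * lmax) :
    2 * θ * (lmin * ‖nb ε f - RR ε y f • y‖ ^ 2) -
      N * (48 * lmax ^ 2 * C0 + 4 * lmax ^ 2 * C1 ^ 2 + 2 * lmax * C0 * C1) * θ ^ 2 * ‖y‖ ^ 2 ≤
      ip f' (nb ε f') - RR ε y f * ip y' f' := by
  have hl : 0 < lmax := lt_of_lt_of_le h0 h1
  have hn : (0 : ℝ) < N := by exact_mod_cast Nat.pos_of_ne_zero (NeZero.ne N)
  obtain ⟨f1, f2, f3⟩ := lyap_Rg h0 h1 hf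
  choose g hg1 hg2 hg3 hg4 using hS
  have hYp : 0 < ‖y‖ := norm_pos_iff.mpr hy
  have hP : 0 < ip y f := lt_of_lt_of_le (by positivity) f2
  have hgabs : ∀ w, |g w| ≤ lmax := fun w => by
    rw [abs_of_nonneg (h0.le.trans (hg1 w))]
    exact hg2 w
  set Y := ‖y‖ with hYdef
  set R := RR ε y f with hRdef
  set η : Vec N := y' - y with hηdef
  set B : Vec N := nb ε f with hBdef
  set r : Vec N := η - θ • B with hrdef
  set e : Vec N := g * y - f with hedef
  set D : Vec N := B - R • y with hDdef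
  have hee : ‖e‖ ≤ C0 * θ * Y := by
    refine (pi_norm_le_iff_of_nonneg (by positivity)).mpr fun w => ?_
    exact hg4 w
  have hf'e : f' = f + g * η := by
    funext w
    have := hg3 w
    simp only [Pi.add_apply, Pi.mul_apply, hηdef, Pi.sub_apply]
    linarith
  have hy'e : y' = y + η := by rw [hηdef]; abel
  have hηe : η = θ • B + r := by rw [hrdef]; abel
  have hBe : B = R • y + D := by rw [hDdef]; abel
  have hRP : R * ip y f = ip f B := by
    show RR ε y f * ip y f = ip f (nb ε f)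
    unfold RR
    field_simp
  have hφn : ‖g * η‖ ≤ lmax * (C1 * θ * Y) :=
    (lyap_mulnorm hl.le hgabs).trans (mul_le_mul_of_nonneg_left hη hl.le)
  have hBn : ‖B‖ ≤ 2 * (lmax * Y) :=
    (lyap_nb_le hε f).trans (mul_le_mul_of_nonneg_left f1 (by norm_num))
  have hDn : ‖D‖ ≤ 4 * lmax * Y := by
    refine (norm_sub_le _ _).trans ?_
    rw [norm_smul, Real.norm_eq_abs]
    have b2 := mul_le_mul_of_nonneg_right hR hYp.le
    linarith
  have hgr : ‖g * r‖ ≤ lmax * (C0 * θ ^ 2 * Y) :=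
    (lyap_mulnorm hl.le hgabs).trans (mul_le_mul_of_nonneg_left hr hl.le)
  -- identities
  have eQ : ip f' (nb ε f') = ip f B + 2 * ip (g * η) B + ip (g * η) (nb ε (g * η)) := by
    have s1 : ip f (nb ε (g * η)) = ip (g * η) B := by
      rw [lyap_symm, lyap_ip_comm]
    rw [hf'e, lyap_nb_add, lyap_ip_add_left, lyap_ip_add_right, lyap_ip_add_right, s1]
    ring
  have eφB : ip (g * η) B = θ * ip (g * B) B + ip (g * r) B := by
    have : g * η = θ • (g * B) + g * r := by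
      rw [hηe]
      funext w
      simp only [Pi.add_apply, Pi.mul_apply, Pi.smul_apply, smul_eq_mul]
      ring
    rw [this, lyap_ip_add_left, lyap_ip_smul_left]
  have eP : ip y' f' = ip y f + 2 * (θ * ip f B) + 2 * ip r f + ip e η + ip η (g * η) := by
    have s1 : ip y (g * η) = ip f η + ip e η := by
      rw [← lyap_ip_mul, ← lyap_ip_add_left]
      congr 1
      rw [hedef]
      abel
    have s2 : ip η f = θ * ip f B + ip r f := by
      rw [hηe, lyap_ip_add_left, lyap_ip_smul_left, lyap_ip_comm B f]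
    rw [hy'e, hf'e, lyap_ip_add_left, lyap_ip_add_right, lyap_ip_add_right, s1,
      lyap_ip_comm f η, s2]
    ring
  have eS : ip (g * B) B = R * ip f B + R ^ 2 * ip e y + 2 * R * ip e D + ip (g * D) D := by
    have hfD : ip f D = 0 := by
      rw [hDdef, lyap_ip_sub_right, lyap_ip_smul_right, lyap_ip_comm f y, hRP, sub_self]
    have hgy : g * y = f + e := by rw [hedef]; abel
    have s1 : ip (g * y) D = ip e D := by
      rw [hgy, lyap_ip_add_left, hfD, zero_add]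
    have s2 : ip (g * y) y = ip y f + ip e y := by
      rw [hgy, lyap_ip_add_left, lyap_ip_comm f y]
    have s3 : g * B = R • (g * y) + g * D := by
      rw [hBe]
      funext w
      simp only [Pi.add_apply, Pi.mul_apply, Pi.smul_apply, smul_eq_mul]
      ring
    have s4 : ip (g * D) y = ip e D := by
      rw [lyap_ip_mul, lyap_ip_comm, s1]
    calc ip (g * B) B = ip (R • (g * y) + g * D) (R • y + D) := by rw [← s3, ← hBe]
      _ = R ^ 2 * (ip y f + ip e y) + 2 * R * ip e D + ip (g * D) D := by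
          rw [lyap_ip_add_left, lyap_ip_add_right, lyap_ip_add_right, lyap_ip_smul_left,
            lyap_ip_smul_left, lyap_ip_smul_right, lyap_ip_smul_right, s1, s2, s4]
          ring
      _ = _ := by rw [← hRP]; ring
  -- bounds of the errors
  have b1 : |ip e y| ≤ N * (C0 * θ * Y * Y) :=
    (lyap_ip_le _ _).trans (mul_le_mul_of_nonneg_left
      (mul_le_mul hee le_rfl (norm_nonneg _) (by positivity)) hn.le)
  have b2 : |ip e D| ≤ N * (C0 * θ * Y * (4 * lmax * Y)) :=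
    (lyap_ip_le _ _).trans (mul_le_mul_of_nonneg_left
      (mul_le_mul hee hDn (norm_nonneg _) (by positivity)) hn.le)
  have b3 : |ip (g * r) B| ≤ N * (lmax * (C0 * θ ^ 2 * Y) * (2 * (lmax * Y))) :=
    (lyap_ip_le _ _).trans (mul_le_mul_of_nonneg_left
      (mul_le_mul hgr hBn (norm_nonneg _) (by positivity)) hn.le)
  have b4 : |ip (g * η) (nb ε (g * η))| ≤
      N * (lmax * (C1 * θ * Y) * (2 * (lmax * (C1 * θ * Y)))) := by
    refine (lyap_ip_le _ _).trans (mul_le_mul_of_nonneg_left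
      (mul_le_mul hφn ?_ (norm_nonneg _) (by positivity)) hn.le)
    exact (lyap_nb_le hε _).trans (mul_le_mul_of_nonneg_left hφn (by norm_num))
  have b5 : |ip r f| ≤ N * (C0 * θ ^ 2 * Y * (lmax * Y)) :=
    (lyap_ip_le _ _).trans (mul_le_mul_of_nonneg_left
      (mul_le_mul hr f1 (norm_nonneg _) (by positivity)) hn.le)
  have b6 : |ip e η| ≤ N * (C0 * θ * Y * (C1 * θ * Y)) :=
    (lyap_ip_le _ _).trans (mul_le_mul_of_nonneg_left
      (mul_le_mul hee hη (norm_nonneg _) (by positivity)) hn.le)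
  have b7 : |ip η (g * η)| ≤ N * (C1 * θ * Y * (lmax * (C1 * θ * Y))) :=
    (lyap_ip_le _ _).trans (mul_le_mul_of_nonneg_left
      (mul_le_mul hη hφn (norm_nonneg _) (by positivity)) hn.le)
  have hgD : lmin * ‖D‖ ^ 2 ≤ ip (g * D) D := by
    refine (mul_le_mul_of_nonneg_left (lyap_sq D) h0.le).trans ?_
    unfold ip
    rw [Finset.mul_sum]
    refine Finset.sum_le_sum fun w _ => ?_
    rw [Pi.mul_apply]
    nlinarith [mul_nonneg (sub_nonneg.mpr (hg1 w)) (mul_self_nonneg (D w))]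
  have hR2 : R ^ 2 ≤ (2 * lmax) ^ 2 := by
    rw [← sq_abs]
    exact pow_le_pow_left₀ (abs_nonneg _) hR 2
  -- absolute values of the seven error terms
  have c1 : |2 * θ * (R ^ 2 * ip e y)| ≤ 2 * θ * ((2 * lmax) ^ 2 * (N * (C0 * θ * Y * Y))) := by
    rw [abs_mul, abs_mul (R ^ 2), abs_of_pos (by positivity : 0 < 2 * θ),
      abs_of_nonneg (sq_nonneg R)]
    exact mul_le_mul_of_nonneg_left
      (mul_le_mul hR2 b1 (abs_nonneg _) (by positivity)) (by positivity)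
  have c2 : |2 * θ * (2 * R * ip e D)| ≤
      2 * θ * (2 * (2 * lmax) * (N * (C0 * θ * Y * (4 * lmax * Y)))) := by
    rw [abs_mul, abs_mul (2 * R), abs_of_pos (by positivity : 0 < 2 * θ), abs_mul 2 R,
      abs_of_pos (by norm_num : (0 : ℝ) < 2)]
    exact mul_le_mul_of_nonneg_left
      (mul_le_mul (mul_le_mul_of_nonneg_left hR (by norm_num)) b2 (abs_nonneg _)
        (by positivity)) (by positivity)
  have c5 : |R * (2 * ip r f)| ≤ 2 * lmax * (2 * (N * (C0 * θ ^ 2 * Y * (lmax * Y)))) := by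
    rw [abs_mul, abs_mul 2, abs_of_pos (by norm_num : (0 : ℝ) < 2)]
    exact mul_le_mul hR (mul_le_mul_of_nonneg_left b5 (by norm_num)) (by positivity)
      (by positivity)
  have c6 : |R * ip e η| ≤ 2 * lmax * (N * (C0 * θ * Y * (C1 * θ * Y))) := by
    rw [abs_mul]
    exact mul_le_mul hR b6 (abs_nonneg _) (by positivity)
  have c7 : |R * ip η (g * η)| ≤ 2 * lmax * (N * (C1 * θ * Y * (lmax * (C1 * θ * Y)))) := by
    rw [abs_mul]
    exact mul_le_mul hR b7 (abs_nonneg _) (by positivity)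
  have main : ip f' (nb ε f') - R * ip y' f' =
      2 * θ * ip (g * D) D + 2 * θ * (R ^ 2 * ip e y) + 2 * θ * (2 * R * ip e D) +
        2 * ip (g * r) B + ip (g * η) (nb ε (g * η)) - R * (2 * ip r f) - R * ip e η -
        R * ip η (g * η) := by
    rw [eQ, eφB, eP, eS]
    linear_combination (-1 : ℝ) * hRP
  rw [main]
  have d1 := neg_abs_le (2 * θ * (R ^ 2 * ip e y))
  have d2 := neg_abs_le (2 * θ * (2 * R * ip e D))
  have d3 := neg_abs_le (ip (g * r) B)
  have d4 := neg_abs_le (ip (g * η) (nb ε (g * η)))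
  have d5 := le_abs_self (R * (2 * ip r f))
  have d6 := le_abs_self (R * ip e η)
  have d7 := le_abs_self (R * ip η (g * η))
  have d8 : 2 * θ * (lmin * ‖D‖ ^ 2) ≤ 2 * θ * ip (g * D) D :=
    mul_le_mul_of_nonneg_left hgD (by positivity)
  have tot : N * (48 * lmax ^ 2 * C0 + 4 * lmax ^ 2 * C1 ^ 2 + 2 * lmax * C0 * C1) * θ ^ 2 *
      Y ^ 2 = 2 * θ * ((2 * lmax) ^ 2 * (N * (C0 * θ * Y * Y))) +
      2 * θ * (2 * (2 * lmax) * (N * (C0 * θ * Y * (4 * lmax * Y)))) +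
      2 * (N * (lmax * (C0 * θ ^ 2 * Y) * (2 * (lmax * Y)))) +
      N * (lmax * (C1 * θ * Y) * (2 * (lmax * (C1 * θ * Y)))) +
      2 * lmax * (2 * (N * (C0 * θ ^ 2 * Y * (lmax * Y)))) +
      2 * lmax * (N * (C0 * θ * Y * (C1 * θ * Y))) +
      2 * lmax * (N * (C1 * θ * Y * (lmax * (C1 * θ * Y)))) := by
    ring
  rw [tot]
  linarith

theorem lyap_pr (hN : 3 ≤ N) (lmin lmax : ℝ) (h0 : 0 < lmin)
    (h1 : lmin ≤ lmax) (C0 : ℝ) (hC : 0 < C0) :
    ∃ c1 : ℝ, 0 < c1 ∧ ∃ L : ℝ, 0 < L ∧ ∃ θ0 : ℝ, 0 < θ0 ∧ ∀ θ : ℝ, 0 < θ → θ ≤ θ0 →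
      ∀ ε : Vec N, IsSgn ε → ∀ y f y' f' : Vec N, y ≠ 0 → Rg lmin lmax y f →
      Rg lmin lmax y' f' → LT ε lmin lmax C0 θ y f y' f' →
      RR ε y f + c1 * θ * (df ε y f) ^ 2 - L * θ ^ 2 ≤ RR ε y' f' ∧
      |df ε y' f' - df ε y f| ≤ L * θ ∧ |RR ε y' f' - RR ε y f| ≤ L * θ ∧
      ‖y' - y‖ ≤ L * θ * ‖y‖ ∧ y' ≠ 0 := by
  have hl : 0 < lmax := lt_of_lt_of_le h0 h1
  have hn : (0 : ℝ) < N := by exact_mod_cast (by omega : 0 < N)
  obtain ⟨L0, hL0, τ0, hτ0, hlip⟩ := lip_pr hN lmin lmax h0 h1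
  set C1 : ℝ := 2 * lmax + C0 with hC1
  have hC1p : 0 < C1 := by positivity
  set Kc : ℝ := N * (48 * lmax ^ 2 * C0 + 4 * lmax ^ 2 * C1 ^ 2 + 2 * lmax * C0 * C1) with hKc
  have hKp : 0 < Kc := by positivity
  refine ⟨8 * lmin / (9 * N * lmax), by positivity, L0 * C1 + C1 + 4 * Kc / lmin, by positivity,
    min 1 (min (τ0 / C1) (1 / (2 * C1))), by positivity, ?_⟩
  intro θ hθ hθ0 ε hε y f y' f' hy hf hf' hLT
  obtain ⟨hr, hS⟩ := hLT
  have t1 : θ ≤ 1 := hθ0.trans (min_le_left _ _)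
  have t2 : C1 * θ ≤ τ0 := by
    have : θ ≤ τ0 / C1 := hθ0.trans ((min_le_right _ _).trans (min_le_left _ _))
    rw [le_div_iff₀ hC1p] at this
    linarith
  have t3 : C1 * θ ≤ 1 / 2 := by
    have : θ ≤ 1 / (2 * C1) := hθ0.trans ((min_le_right _ _).trans (min_le_right _ _))
    rw [le_div_iff₀ (by positivity)] at this
    linarith
  have hYp : 0 < ‖y‖ := norm_pos_iff.mpr hy
  obtain ⟨f1, f2, f3⟩ := lyap_Rg h0 h1 hf
  obtain ⟨f1', f2', f3'⟩ := lyap_Rg h0 h1 hf'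
  have hη : ‖y' - y‖ ≤ C1 * θ * ‖y‖ := by
    have e : y' - y = (y' - y - θ • nb ε f) + θ • nb ε f := by abel
    have b1 : ‖y' - y‖ ≤ ‖y' - y - θ • nb ε f‖ + ‖θ • nb ε f‖ := by
      conv_lhs => rw [e]
      exact norm_add_le _ _
    have b2 : ‖θ • nb ε f‖ ≤ θ * (2 * (lmax * ‖y‖)) := by
      rw [norm_smul, Real.norm_eq_abs, abs_of_pos hθ]
      exact mul_le_mul_of_nonneg_left ((lyap_nb_le hε f).trans
        (mul_le_mul_of_nonneg_left f1 (by norm_num))) hθ.le
    have b3 : C0 * θ ^ 2 * ‖y‖ ≤ C0 * θ * ‖y‖ := by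
      have : C0 * θ * ‖y‖ * θ ≤ C0 * θ * ‖y‖ * 1 :=
        mul_le_mul_of_nonneg_left t1 (by positivity)
      nlinarith
    rw [hC1]
    nlinarith
  have hS' : Slope lmin lmax (C1 * θ) y f y' f' :=
    lyap_slope_mono (mul_le_mul_of_nonneg_right (by rw [hC1]; linarith) hθ.le) hS
  obtain ⟨k1, k2, k3⟩ := hlip (C1 * θ) (by positivity) t2 ε hε y f y' f' hy hf hf' hη hS'
  have hR : |RR ε y f| ≤ 2 * lmax := RR_bound_pr hN lmin lmax h0 h1 ε hε y f hf
  have core := lyap_core h0 h1 hC hθ hC1p hε hy hf hη hr hS hR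
  rw [← hKc] at core
  have hY1 : ‖y'‖ ≤ 3 / 2 * ‖y‖ := by
    have h2 : ‖y'‖ ≤ ‖y' - y‖ + ‖y‖ := by
      have := norm_add_le (y' - y) y
      rwa [sub_add_cancel] at this
    have h3 : C1 * θ * ‖y‖ ≤ 1 / 2 * ‖y‖ := mul_le_mul_of_nonneg_right t3 hYp.le
    linarith
  have hY2 : ‖y‖ / 2 ≤ ‖y'‖ := by
    have h2 : ‖y‖ ≤ ‖y' - y‖ + ‖y'‖ := by
      have := norm_sub_le y' (y' - y)
      rw [sub_sub_cancel] at this
      linarith
    have h3 : C1 * θ * ‖y‖ ≤ 1 / 2 * ‖y‖ := mul_le_mul_of_nonneg_right t3 hYp.le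
    linarith
  have hP'l : lmin * (‖y‖ ^ 2 / 4) ≤ ip y' f' := by
    refine le_trans (mul_le_mul_of_nonneg_left ?_ h0.le) f2'
    nlinarith
  have hP' : 0 < ip y' f' := lt_of_lt_of_le (by positivity) hP'l
  have hP'u : ip y' f' ≤ N * (3 / 2 * ‖y‖ * (lmax * (3 / 2 * ‖y‖))) := by
    refine (le_abs_self _).trans ((lyap_ip_le _ _).trans
      (mul_le_mul_of_nonneg_left ?_ hn.le))
    exact mul_le_mul hY1 (f1'.trans (mul_le_mul_of_nonneg_left hY1 hl.le)) (norm_nonneg _)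
      (by positivity)
  have hRP' : RR ε y' f' * ip y' f' = ip f' (nb ε f') := by
    unfold RR; field_simp
  refine ⟨?_, ?_, ?_, ?_, k3⟩
  · set Dn := ‖nb ε f - RR ε y f • y‖ with hDn
    have hdf : df ε y f = Dn / ‖y‖ := rfl
    have hDn2 : Dn ^ 2 = (df ε y f) ^ 2 * ‖y‖ ^ 2 := by
      rw [hdf]
      field_simp
    have hd0 : 0 ≤ (df ε y f) ^ 2 := sq_nonneg _
    -- multiply by ip y' f'
    have m1 : 8 * lmin / (9 * N * lmax) * θ * (df ε y f) ^ 2 * ip y' f' ≤
        2 * θ * (lmin * Dn ^ 2) := by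
      refine (mul_le_mul_of_nonneg_left hP'u (by positivity)).trans (le_of_eq ?_)
      rw [hDn2]
      field_simp
      ring
    have m2 : Kc * θ ^ 2 * ‖y‖ ^ 2 ≤ 4 * Kc / lmin * θ ^ 2 * ip y' f' := by
      refine le_trans (le_of_eq ?_) (mul_le_mul_of_nonneg_left hP'l (by positivity))
      field_simp
    have m3 : (RR ε y f + 8 * lmin / (9 * N * lmax) * θ * (df ε y f) ^ 2 -
        4 * Kc / lmin * θ ^ 2) * ip y' f' ≤ RR ε y' f' * ip y' f' := by
      rw [hRP']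
      nlinarith
    have m4 := le_of_mul_le_mul_right m3 hP'
    have m5 : 0 ≤ (L0 * C1 + C1) * θ ^ 2 := by positivity
    nlinarith
  · refine k2.trans ?_
    have : 0 ≤ (C1 + 4 * Kc / lmin) * θ := by positivity
    nlinarith
  · refine k1.trans ?_
    have : 0 ≤ (C1 + 4 * Kc / lmin) * θ := by positivity
    nlinarith
  · refine hη.trans (mul_le_mul_of_nonneg_right (mul_le_mul_of_nonneg_right ?_ hθ.le) hYp.le)
    have : 0 ≤ L0 * C1 + 4 * Kc / lmin := by positivity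
    linarith

end

alias RR_bound := RR_bound_pr
alias lip := lip_pr
alias lyap := lyap_pr

end Pool.Agent.Lib_helper10.CU
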