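import Pool.Agent.Lib_helper10.CU.Defs

-- block RCRR written by helper10
set_option autoImplicit false
open scoped BigOperators Topology
open Filter
noncomputable section

namespace Pool.Agent.Lib_helper10.CU

theorem epsm_sgn_pr {N : ℕ} (m : ℕ) : IsSgnZ (epsm m : ZV N) := by
  intro v
  unfold epsm
  split_ifs
  · rcases Nat.even_or_odd m with h | h
    · left; exact h.neg_one_pow
    · right; exact h.neg_one_pow
  · left; rfl

theorem castV_sgn_pr {N : ℕ} (ε : ZV N) (h : IsSgnZ ε) : IsSgn (castV ε) := by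
  intro v
  rcases h v with h | h
  · left; simp [castV, h]
  · right; simp [castV, h]

theorem rcrr_rate {N K : ℕ} (lam : Fin K → ℝ) (c : Cfg N K) (v : ZMod N) (j : Fin K) (k : ℕ)
    (h : c v = some (j, k)) : rate lam c v = lam j * cnt c v ∧ cnt c v = k + 1 := by
  constructor
  · simp [rate, cnt, h]
  · simp [cnt, h]

theorem rcrr_none {N K : ℕ} (lam : Fin K → ℝ) (c : Cfg N K) (v : ZMod N) (h : c v = none) :
    rate lam c v = 0 ∧ cnt c v = 0 := by
  constructor <;> simp [rate, cnt, h]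

theorem rcrr_cnt {N K : ℕ} {ε : ZV N} {c : Cfg N K} {y : ZV N} (h : Rep ε c y) (v : ZMod N) :
    (cnt c v : ℝ) = |castV y v| := by
  rw [h.1 v]
  simp [castV, Nat.cast_natAbs]

theorem rcrr_sign {N K : ℕ} {ε : ZV N} {c : Cfg N K} {y : ZV N} (h : Rep ε c y) (v : ZMod N) :
    (Int.sign (y v) : ℝ) * cnt c v = castV y v := by
  rw [h.1 v]
  have := Int.sign_mul_abs (y v)
  unfold castV
  rw [Nat.cast_natAbs]
  exact_mod_cast this

theorem rcrr_zero {N K : ℕ} {ε : ZV N} {c : Cfg N K} {y : ZV N} (h : Rep ε c y) (v : ZMod N) :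
    c v = none ↔ y v = 0 := by
  have h1 := h.1 v
  constructor
  · intro hv
    rw [(rcrr_none (fun _ => 0) c v hv).2] at h1
    exact Int.natAbs_eq_zero.1 h1.symm
  · intro hv
    rw [hv] at h1
    cases hc : c v with
    | none => rfl
    | some p =>
      obtain ⟨j, k⟩ := p
      rw [(rcrr_rate (fun _ => 0) c v j k hc).2] at h1
      simp at h1

theorem rep_D_pr {N K : ℕ} [NeZero N] (lam : Fin K → ℝ) (ε : ZV N) (c : Cfg N K) (y : ZV N)
    (h : Rep ε c y) (hc : 0 < size c) :
    ∃ D : ZMod N → Fin K, fv lam c y = fun v => lam (D v) * castV y v := by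
  have hne : Nonempty (Fin K) := by
    by_contra hemp
    rw [not_nonempty_iff] at hemp
    have : size c = 0 := by
      apply Finset.sum_eq_zero
      intro v _
      cases hv : c v with
      | none => exact (rcrr_none (fun _ => 0) c v hv).2
      | some p => exact (hemp.false p.1).elim
    omega
  obtain ⟨j0⟩ := hne
  refine ⟨fun v => match c v with
    | none => j0
    | some (j, _) => j, ?_⟩
  funext v
  unfold fv
  cases hv : c v with
  | none =>
    have h0 := (rcrr_zero h v).1 hv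
    simp [castV, h0]
  | some p =>
    obtain ⟨j, k⟩ := p
    rw [(rcrr_rate lam c v j k hv).1, ← rcrr_sign h v]
    simp only [hv]
    ring

theorem rep_size_pr {N K : ℕ} [NeZero N] (ε : ZV N) (c : Cfg N K) (y : ZV N) (h : Rep ε c y) :
    (size c : ℝ) ≤ N * ‖castV y‖ ∧ ‖castV y‖ ≤ size c := by
  unfold size
  push_cast
  constructor
  · calc (∑ v, (cnt c v : ℝ)) ≤ ∑ _v : ZMod N, ‖castV y‖ := by
          apply Finset.sum_le_sum
          intro v _
          rw [rcrr_cnt h]
          exact norm_le_pi_norm (castV y) v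
      _ = N * ‖castV y‖ := by
          rw [Finset.sum_const, Finset.card_univ, ZMod.card, nsmul_eq_mul]
  · rw [pi_norm_le_iff_of_nonneg (Finset.sum_nonneg (fun _ _ => by positivity))]
    intro v
    rw [Real.norm_eq_abs, ← rcrr_cnt h]
    exact Finset.single_le_sum (f := fun v => (cnt c v : ℝ)) (fun _ _ => by positivity)
      (Finset.mem_univ v)

/-- products of signed rates of neighbours -/
theorem rcrr_prod {N K : ℕ} (lam : Fin K → ℝ) {ε : ZV N} (hε : IsSgnZ ε) {c : Cfg N K}
    {y : ZV N} (h : Rep ε c y) (v : ZMod N) :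
    (ε v : ℝ) * fv lam c y v * fv lam c y (v + 1) =
      sm c v (v + 1) * rate lam c v * rate lam c (v + 1) := by
  unfold fv
  by_cases h1 : y v = 0
  · have := (rcrr_zero h v).2 h1
    rw [(rcrr_none lam c v this).1]; simp
  by_cases h2 : y (v + 1) = 0
  · have := (rcrr_zero h (v + 1)).2 h2
    rw [(rcrr_none lam c (v + 1) this).1]; simp
  have key : (ε v : ℝ) * (Int.sign (y v) : ℝ) * (Int.sign (y (v + 1)) : ℝ) =
      sm c v (v + 1) := by
    have h3 := h.2.1 v h1 h2
    have hsm : sm c v (v + 1) = 1 ∨ sm c v (v + 1) = -1 := by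
      unfold sm
      cases hv : c v with
      | none => exact absurd ((rcrr_zero h v).1 hv) h1
      | some p =>
        cases hw : c (v + 1) with
        | none => exact absurd ((rcrr_zero h (v + 1)).1 hw) h2
        | some q =>
          obtain ⟨i, k⟩ := p
          obtain ⟨j, l⟩ := q
          simp only
          split_ifs <;> simp
    have hsg : (ε v * Int.sign (y v) * Int.sign (y (v + 1)) : ℤ) = 1 ∧
        0 < ε v * y v * y (v + 1) ∨
        (ε v * Int.sign (y v) * Int.sign (y (v + 1)) : ℤ) = -1 ∧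
        ε v * y v * y (v + 1) < 0 := by
      have hs : Int.sign (ε v * y v * y (v + 1)) =
          ε v * Int.sign (y v) * Int.sign (y (v + 1)) := by
        rw [Int.sign_mul, Int.sign_mul]
        rcases hε v with h | h <;> rw [h] <;> simp
      rcases lt_trichotomy (ε v * y v * y (v + 1)) 0 with hlt | heq | hgt
      · right
        rw [← hs]
        exact ⟨Int.sign_eq_neg_one_of_neg hlt, hlt⟩
      · exfalso
        have : ε v ≠ 0 := by rcases hε v with h | h <;> rw [h] <;> norm_num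
        exact (mul_ne_zero (mul_ne_zero this h1) h2) heq
      · left
        rw [← hs]
        exact ⟨Int.sign_eq_one_of_pos hgt, hgt⟩
    rcases hsg with ⟨e1, e2⟩ | ⟨e1, e2⟩
    · rw [h3.2 e2]
      exact_mod_cast e1
    · have : sm c v (v + 1) ≠ 1 := fun h4 => by
        have := h3.1 h4
        omega
      rw [hsm.resolve_left this]
      exact_mod_cast e1
  rw [← key]
  ring

theorem rep_RR_pr {N K : ℕ} [NeZero N] (hN : 3 ≤ N) (lam : Fin K → ℝ) (ε : ZV N)
    (hε : IsSgnZ ε) (c : Cfg N K) (y : ZV N) (h : Rep ε c y) :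
    RR (castV ε) (castV y) (fv lam c y) = Rc lam c := by
  unfold RR Rc
  congr 1
  · -- numerator
    unfold ip nb E1
    have h1 : ∀ w, fv lam c y w * (castV ε (w - 1) * fv lam c y (w - 1) +
        castV ε w * fv lam c y (w + 1)) =
        castV ε (w - 1) * fv lam c y (w - 1) * fv lam c y (w - 1 + 1) +
        castV ε w * fv lam c y w * fv lam c y (w + 1) := by
      intro w; rw [sub_add_cancel]; ring
    rw [Finset.sum_congr rfl (fun w _ => h1 w), Finset.sum_add_distrib]
    have h2 : (∑ w, castV ε (w - 1) * fv lam c y (w - 1) * fv lam c y (w - 1 + 1)) =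
        ∑ w, castV ε w * fv lam c y w * fv lam c y (w + 1) :=
      Equiv.sum_comp (Equiv.subRight (1 : ZMod N))
        (fun w => castV ε w * fv lam c y w * fv lam c y (w + 1))
    rw [h2, ← two_mul]
    congr 1
    exact Finset.sum_congr rfl (fun v _ => rcrr_prod lam hε h v)
  · unfold ip E0
    refine Finset.sum_congr rfl (fun v _ => ?_)
    rw [rcrr_cnt h v]
    unfold fv castV
    have h3 : ((y v : ℤ) : ℝ) * ((Int.sign (y v) : ℤ) : ℝ) = |((y v : ℤ) : ℝ)| := by
      have := Int.mul_sign_self (y v)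
      rw [← Int.cast_abs, Int.abs_eq_natAbs]
      exact_mod_cast this
    rw [← mul_assoc, h3]
    ring

theorem rcrr_avg (lmin lmax l0 l1 p q : ℝ) (hl0 : lmin ≤ l0 ∧ l0 ≤ lmax)
    (hl1 : lmin ≤ l1 ∧ l1 ≤ lmax) (hlm : lmin ≤ lmax) (hp : 0 ≤ p) (hq : 0 ≤ q) :
    ∃ g, lmin ≤ g ∧ g ≤ lmax ∧ l0 * p + l1 * q = g * (p + q) := by
  rcases (add_nonneg hp hq).eq_or_lt with h | h
  · have hp0 : p = 0 := by linarith
    have hq0 : q = 0 := by linarith
    exact ⟨lmin, le_rfl, hlm, by rw [hp0, hq0]; ring⟩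
  · refine ⟨(l0 * p + l1 * q) / (p + q), ?_, ?_, by field_simp⟩
    · rw [le_div_iff₀ h]
      nlinarith [mul_le_mul_of_nonneg_right hl0.1 hp, mul_le_mul_of_nonneg_right hl1.1 hq]
    · rw [div_le_iff₀ h]
      nlinarith [mul_le_mul_of_nonneg_right hl0.2 hp, mul_le_mul_of_nonneg_right hl1.2 hq]

/-- rate of the urn at `w` as a multiple of the signed content -/
theorem rcrr_lam {N K : ℕ} (lam : Fin K → ℝ) (lmin lmax : ℝ)
    (hl : ∀ j, lmin ≤ lam j ∧ lam j ≤ lmax) (hlm : lmin ≤ lmax) {ε : ZV N} {c : Cfg N K}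
    {y : ZV N} (h : Rep ε c y) (w : ZMod N) :
    ∃ l, lmin ≤ l ∧ l ≤ lmax ∧ fv lam c y w = l * castV y w ∧
      ∀ j k, c w = some (j, k) → l = lam j := by
  cases hv : c w with
  | none =>
    have h0 := (rcrr_zero h w).1 hv
    exact ⟨lmin, le_rfl, hlm, by simp [fv, castV, h0], fun j k hj => by simp at hj⟩
  | some p =>
    obtain ⟨j, k⟩ := p
    refine ⟨lam j, (hl j).1, (hl j).2, ?_, ?_⟩
    · unfold fv
      rw [(rcrr_rate lam c w j k hv).1, ← rcrr_sign h w]; ring
    · intro j' k' hj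
      simp only [Option.some.injEq, Prod.mk.injEq] at hj
      rw [hj.1]

theorem link_slope_pr {N K : ℕ} [NeZero N] (lam : Fin K → ℝ) (lmin lmax : ℝ)
    (h0 : 0 < lmin) (hl : ∀ j, lmin ≤ lam j ∧ lam j ≤ lmax) (hlm : lmin ≤ lmax) (ε : ZV N)
    (c0 c1 : Cfg N K)
    (y0 y1 : ZV N) (h0' : Rep ε c0 y0) (h1' : Rep ε c1 y1) (hL : Link c0 c1 y0 y1) (w : ZMod N) :
    (∃ g, lmin ≤ g ∧ g ≤ lmax ∧
      fv lam c1 y1 w - fv lam c0 y0 w = g * (castV y1 w - castV y0 w) ∧
      |g * castV y0 w - fv lam c0 y0 w| ≤ lmax * |castV y1 w - castV y0 w|) ∧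
    (∀ a : ℝ, 0 ≤ a → ∃ g, lmin ≤ g ∧ g ≤ lmax ∧
      fv lam c0 y0 w - a * (fv lam c1 y1 w - fv lam c0 y0 w) =
        g * (castV y0 w - a * (castV y1 w - castV y0 w))) := by
  obtain ⟨l0, a1, a2, a3, a4⟩ := rcrr_lam lam lmin lmax hl hlm h0' w
  obtain ⟨l1, b1, b2, b3, b4⟩ := rcrr_lam lam lmin lmax hl hlm h1' w
  have hlmax : 0 < lmax := lt_of_lt_of_le h0 hlm
  -- the equal rate case
  have heq : l0 = l1 → (∃ g, lmin ≤ g ∧ g ≤ lmax ∧
      fv lam c1 y1 w - fv lam c0 y0 w = g * (castV y1 w - castV y0 w) ∧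
      |g * castV y0 w - fv lam c0 y0 w| ≤ lmax * |castV y1 w - castV y0 w|) ∧
    (∀ a : ℝ, 0 ≤ a → ∃ g, lmin ≤ g ∧ g ≤ lmax ∧
      fv lam c0 y0 w - a * (fv lam c1 y1 w - fv lam c0 y0 w) =
        g * (castV y0 w - a * (castV y1 w - castV y0 w))) := by
    intro he
    refine ⟨⟨l0, a1, a2, by rw [a3, b3, he]; ring, ?_⟩, fun a _ => ⟨l0, a1, a2, by
      rw [a3, b3, he]; ring⟩⟩
    rw [a3, sub_self, abs_zero]
    positivity
  by_cases z0 : y0 w = 0
  · have hz : castV y0 w = 0 := by simp [castV, z0]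
    have hf : fv lam c0 y0 w = 0 := by rw [a3, hz, mul_zero]
    refine ⟨⟨l1, b1, b2, by rw [hf, b3, hz]; ring, ?_⟩, fun a _ => ⟨l1, b1, b2, by
      rw [hf, b3, hz]; ring⟩⟩
    rw [hz, hf]
    simp only [mul_zero, sub_self, abs_zero]
    positivity
  by_cases z1 : y1 w = 0
  · have hz : castV y1 w = 0 := by simp [castV, z1]
    have hf : fv lam c1 y1 w = 0 := by rw [b3, hz, mul_zero]
    refine ⟨⟨l0, a1, a2, by rw [hf, a3, hz]; ring, ?_⟩, fun a _ => ⟨l0, a1, a2, by
      rw [hf, a3, hz]; ring⟩⟩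
    rw [a3, sub_self, abs_zero]
    positivity
  -- both nonzero
  have hcase := hL w z0 z1
  by_cases hs : 0 < y0 w * y1 w
  · obtain ⟨j, k, l, e1, e2⟩ := hcase.2 hs
    exact heq (by rw [a4 j k e1, b4 j l e2])
  · have hs' : y0 w * y1 w < 0 := lt_of_le_of_ne (not_lt.1 hs) (mul_ne_zero z0 z1)
    have hsr : castV y0 w * castV y1 w < 0 := by
      unfold castV
      exact_mod_cast hs'
    set p := castV y0 w with hp
    set q := castV y1 w with hq
    rw [a3, b3]
    rcases lt_or_gt_of_ne (show p ≠ 0 by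
      intro hh; rw [hh, zero_mul] at hsr; exact lt_irrefl _ hsr) with hpn | hpp
    · -- p < 0 < q
      have hqp : 0 < q := by
        by_contra hcon
        push Not at hcon
        have : 0 ≤ p * q := mul_nonneg_of_nonpos_of_nonpos hpn.le hcon
        linarith
      refine ⟨?_, ?_⟩
      · obtain ⟨g, g1, g2, g3⟩ := rcrr_avg lmin lmax l0 l1 (-p) q ⟨a1, a2⟩ ⟨b1, b2⟩ hlm
          (by linarith) hqp.le
        refine ⟨g, g1, g2, by linarith, ?_⟩
        rw [show g * p - l0 * p = (g - l0) * p by ring, abs_mul,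
          abs_of_pos (show 0 < q - p by linarith)]
        apply mul_le_mul _ _ (abs_nonneg _) hlmax.le
        · rw [abs_le]; constructor <;> linarith
        · rw [abs_of_neg hpn]; linarith
      · intro a ha
        obtain ⟨g, g1, g2, g3⟩ := rcrr_avg lmin lmax l0 l1 (-((1 + a) * p)) (a * q) ⟨a1, a2⟩
          ⟨b1, b2⟩ hlm (by nlinarith) (by positivity)
        exact ⟨g, g1, g2, by linarith⟩
    · have hqn : q < 0 := by
        by_contra hcon
        push Not at hcon
        have : 0 ≤ p * q := mul_nonneg hpp.le hcon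
        linarith
      refine ⟨?_, ?_⟩
      · obtain ⟨g, g1, g2, g3⟩ := rcrr_avg lmin lmax l0 l1 p (-q) ⟨a1, a2⟩ ⟨b1, b2⟩ hlm
          hpp.le (by linarith)
        refine ⟨g, g1, g2, by linarith, ?_⟩
        rw [show g * p - l0 * p = (g - l0) * p by ring, abs_mul,
          abs_of_neg (show q - p < 0 by linarith)]
        apply mul_le_mul _ _ (abs_nonneg _) hlmax.le
        · rw [abs_le]; constructor <;> linarith
        · rw [abs_of_pos hpp]; linarith
      · intro a ha
        obtain ⟨g, g1, g2, g3⟩ := rcrr_avg lmin lmax l0 l1 ((1 + a) * p) (-(a * q)) ⟨a1, a2⟩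
          ⟨b1, b2⟩ hlm (by positivity) (by nlinarith)
        exact ⟨g, g1, g2, by linarith⟩

alias epsm_sgn := epsm_sgn_pr
alias castV_sgn := castV_sgn_pr
alias rep_RR := rep_RR_pr
alias rep_D := rep_D_pr
alias rep_size := rep_size_pr
alias link_slope := link_slope_pr

end Pool.Agent.Lib_helper10.CU
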