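import Pool.Agent.Lib_helper10.CU.RHO
import Pool.Agent.Lib_helper10.CU.RCRR

-- block REPB written by helper10
set_option autoImplicit false
open scoped BigOperators Topology
open Filter
noncomputable section

namespace Pool.Agent.Lib_helper10.CU

/-! ## REPB : structure of a configuration with small defect -/

theorem repb_rate_nonneg {N K : ℕ} (lam : Fin K → ℝ) (lmin lmax : ℝ) (h0 : 0 < lmin)
    (hl : ∀ j, lmin ≤ lam j ∧ lam j ≤ lmax) (c : Cfg N K) (v : ZMod N) :
    lmin * cnt c v ≤ rate lam c v ∧ 0 ≤ rate lam c v := by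
  cases hc : c v with
  | none => rw [(rcrr_none lam c v hc).1, (rcrr_none lam c v hc).2]; simp
  | some p =>
    obtain ⟨j, k⟩ := p
    rw [(rcrr_rate lam c v j k hc).1]
    have h1 : (0 : ℝ) ≤ cnt c v := by positivity
    have h2 := mul_le_mul_of_nonneg_right (hl j).1 h1
    exact ⟨h2, le_trans (by positivity) h2⟩

theorem repb_sm_abs {N K : ℕ} (lam : Fin K → ℝ) (c : Cfg N K) (v w : ZMod N)
    (hv : c v ≠ none) : |sm c v w * rate lam c w| = |rate lam c w| := by
  unfold sm
  cases hc : c v with
  | none => exact absurd hc hv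
  | some p =>
    cases hw : c w with
    | none => rw [(rcrr_none lam c w hw).1]; simp
    | some q =>
      obtain ⟨i, k⟩ := p
      obtain ⟨j, l⟩ := q
      simp only
      split_ifs <;> simp

theorem repb_sm_le {N K : ℕ} (c : Cfg N K) (v w : ZMod N) : |sm c v w| ≤ 1 := by
  unfold sm
  split
  · split_ifs <;> simp
  · simp

theorem repb_sm_symm {N K : ℕ} (c : Cfg N K) (v w : ZMod N) : sm c v w = sm c w v := by
  unfold sm
  cases c v with
  | none =>
    cases c w with
    | none => rfl
    | some q => rfl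
  | some p =>
    cases c w with
    | none => rfl
    | some q =>
      obtain ⟨i, k⟩ := p
      obtain ⟨j, l⟩ := q
      simp only [eq_comm]

/-- one step of the propagation of smallness -/
theorem repb_step {N K : ℕ} (lam : Fin K → ℝ) (lmin lmax : ℝ) (h0 : 0 < lmin)
    (hl : ∀ j, lmin ≤ lam j ∧ lam j ≤ lmax) (c : Cfg N K) (w : ZMod N) (R : ℝ) :
    rate lam c (w + 1 + 1) ≤ |bb lam c (w + 1) - R * cnt c (w + 1)| + |R| * cnt c (w + 1) +
      rate lam c w := by
  have r1 := (repb_rate_nonneg lam lmin lmax h0 hl c w).2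
  have r2 := (repb_rate_nonneg lam lmin lmax h0 hl c (w + 1 + 1)).2
  have h3 : |bb lam c (w + 1)| ≤ |bb lam c (w + 1) - R * cnt c (w + 1)| +
      |R| * cnt c (w + 1) := by
    calc |bb lam c (w + 1)| = |(bb lam c (w + 1) - R * cnt c (w + 1)) + R * cnt c (w + 1)| := by
          ring_nf
      _ ≤ |bb lam c (w + 1) - R * cnt c (w + 1)| + |R * cnt c (w + 1)| := abs_add_le _ _
      _ = _ := by rw [abs_mul, abs_of_nonneg (by positivity : (0 : ℝ) ≤ cnt c (w + 1))]
  suffices h : rate lam c (w + 1 + 1) ≤ |bb lam c (w + 1)| + rate lam c w by linarith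
  cases hc : c (w + 1) with
  | none =>
    unfold bb
    rw [hc]
    simp only [add_sub_cancel_right]
    split_ifs
    · rw [abs_abs]
      have := neg_abs_le (rate lam c w - rate lam c (w + 1 + 1))
      linarith
    · rw [abs_of_nonneg (by linarith)]
      linarith
  | some p =>
    have hne : c (w + 1) ≠ none := by rw [hc]; simp
    have hb : bb lam c (w + 1) = sm c w (w + 1) * rate lam c w +
        sm c (w + 1) (w + 1 + 1) * rate lam c (w + 1 + 1) := by
      unfold bb
      rw [hc]
      simp only [add_sub_cancel_right]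
    have h4 := repb_sm_abs lam c (w + 1) (w + 1 + 1) hne
    rw [abs_of_nonneg r2] at h4
    have h5 : |sm c w (w + 1) * rate lam c w| ≤ rate lam c w := by
      rw [abs_mul, abs_of_nonneg r1]
      calc |sm c w (w + 1)| * rate lam c w ≤ 1 * rate lam c w :=
            mul_le_mul_of_nonneg_right (repb_sm_le _ _ _) r1
        _ = _ := one_mul _
    rw [← h4]
    have : sm c (w + 1) (w + 1 + 1) * rate lam c (w + 1 + 1) =
        bb lam c (w + 1) - sm c w (w + 1) * rate lam c w := by rw [hb]; ring
    rw [this]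
    calc |bb lam c (w + 1) - sm c w (w + 1) * rate lam c w| ≤
          |bb lam c (w + 1)| + |sm c w (w + 1) * rate lam c w| := abs_sub _ _
      _ ≤ _ := by linarith

theorem repb_prop {N K : ℕ} [NeZero N] (lam : Fin K → ℝ) (lmin lmax : ℝ) (h0 : 0 < lmin)
    (hlm : lmin ≤ lmax) (hl : ∀ j, lmin ≤ lam j ∧ lam j ≤ lmax) (c : Cfg N K) (S t : ℝ)
    (hS : 0 ≤ S) (ht : 0 ≤ t) (hR : |Rc lam c| ≤ 2 * lmax)
    (hb : ∀ w, |bb lam c w - Rc lam c * cnt c w| ≤ t * S) (w : ZMod N)
    (h1 : rate lam c w ≤ t * S) (h2 : rate lam c (w + 1) ≤ t * S) (k : ℕ) :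
    rate lam c (w + k) ≤ (2 * lmax / lmin + 2) ^ k * (t * S) ∧
      rate lam c (w + k + 1) ≤ (2 * lmax / lmin + 2) ^ (k + 1) * (t * S) := by
  have hlmax : 0 < lmax := lt_of_lt_of_le h0 hlm
  set C := 2 * lmax / lmin with hC
  have hC0 : 0 < C := by positivity
  have htS : 0 ≤ t * S := mul_nonneg ht hS
  induction k with
  | zero =>
    simp only [Nat.cast_zero, add_zero, pow_zero, one_mul, zero_add, pow_one]
    exact ⟨h1, h2.trans (by nlinarith)⟩
  | succ k ih =>
    obtain ⟨i1, i2⟩ := ih
    have e1 : w + ((k + 1 : ℕ) : ZMod N) = w + k + 1 := by push_cast; ring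
    rw [e1]
    refine ⟨i2, ?_⟩
    have hs := repb_step lam lmin lmax h0 hl c (w + k) (Rc lam c)
    have h3 : |Rc lam c| * cnt c (w + k + 1) ≤ C * rate lam c (w + k + 1) := by
      have h4 := (repb_rate_nonneg lam lmin lmax h0 hl c (w + k + 1)).1
      have h5 : (0 : ℝ) ≤ cnt c (w + k + 1) := by positivity
      calc |Rc lam c| * cnt c (w + k + 1) ≤ (2 * lmax) * cnt c (w + k + 1) :=
            mul_le_mul_of_nonneg_right hR h5
        _ = C * (lmin * cnt c (w + k + 1)) := by rw [hC]; field_simp
        _ ≤ C * rate lam c (w + k + 1) := mul_le_mul_of_nonneg_left h4 hC0.le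
    have h6 : C * rate lam c (w + k + 1) ≤ C * ((C + 2) ^ (k + 1) * (t * S)) :=
      mul_le_mul_of_nonneg_left i2 hC0.le
    have hp1 : (1 : ℝ) ≤ (C + 2) ^ (k + 1) := one_le_pow₀ (by linarith)
    have hp2 : (C + 2) ^ k ≤ (C + 2) ^ (k + 1) := pow_le_pow_right₀ (by linarith) (by omega)
    have h7 : t * S ≤ (C + 2) ^ (k + 1) * (t * S) := by nlinarith
    have h8 : (C + 2) ^ k * (t * S) ≤ (C + 2) ^ (k + 1) * (t * S) :=
      mul_le_mul_of_nonneg_right hp2 htS
    have h9 := hb (w + k + 1)
    calc rate lam c (w + k + 1 + 1) ≤ t * S + C * ((C + 2) ^ (k + 1) * (t * S)) +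
          (C + 2) ^ k * (t * S) := by linarith
      _ ≤ (C + 2) ^ (k + 1) * (t * S) + C * ((C + 2) ^ (k + 1) * (t * S)) +
          (C + 2) ^ (k + 1) * (t * S) := by linarith
      _ = (C + 2) ^ (k + 1 + 1) * (t * S) := by ring

/-- empty urns are isolated, between different types -/
def repbHS {N K : ℕ} (c : Cfg N K) : Prop :=
  ∀ w, c w = none → c (w - 1) ≠ none ∧ c (w + 1) ≠ none ∧ sm c (w - 1) (w + 1) = -1

theorem repb_struct {N K : ℕ} [NeZero N] (lam : Fin K → ℝ) (lmin lmax : ℝ) (h0 : 0 < lmin)
    (hlm : lmin ≤ lmax) (hl : ∀ j, lmin ≤ lam j ∧ lam j ≤ lmax) (c : Cfg N K) (t : ℝ)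
    (hc : 0 < size c) (ht : 0 ≤ t) (htt : 2 * N * (2 * lmax / lmin + 2) ^ N * t ≤ lmin)
    (hR : |Rc lam c| ≤ 2 * lmax)
    (hb : ∀ w, |bb lam c w - Rc lam c * cnt c w| ≤ t * (size c : ℝ)) : repbHS c := by
  have hlmax : 0 < lmax := lt_of_lt_of_le h0 hlm
  have hN0 : (0 : ℝ) < N := by
    have := NeZero.pos N
    exact_mod_cast this
  have hS : (0 : ℝ) < size c := by exact_mod_cast hc
  -- no two adjacent small urns
  have key : ∀ w, rate lam c w ≤ t * size c → rate lam c (w + 1) ≤ t * size c → False := by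
    intro w h1 h2
    have hall : ∀ v, lmin * (cnt c v : ℝ) ≤ (2 * lmax / lmin + 2) ^ N * (t * size c) := by
      intro v
      have hk := (repb_prop lam lmin lmax h0 hlm hl c (size c) t hS.le ht hR hb w h1 h2
        (v - w).val).1
      have e : w + ((v - w).val : ZMod N) = v := by
        rw [ZMod.natCast_zmod_val]; ring
      rw [e] at hk
      refine (repb_rate_nonneg lam lmin lmax h0 hl c v).1.trans (hk.trans ?_)
      apply mul_le_mul_of_nonneg_right _ (by positivity)
      exact pow_le_pow_right₀ (by have : 0 < 2 * lmax / lmin := by positivity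
                                  linarith) (ZMod.val_lt _).le
    have hsum : lmin * (size c : ℝ) ≤ N * ((2 * lmax / lmin + 2) ^ N * (t * size c)) := by
      have : (size c : ℝ) = ∑ v, (cnt c v : ℝ) := by unfold size; push_cast; rfl
      rw [this, Finset.mul_sum, ← this]
      calc (∑ v, lmin * (cnt c v : ℝ)) ≤ ∑ _v : ZMod N,
            (2 * lmax / lmin + 2) ^ N * (t * size c) := Finset.sum_le_sum (fun v _ => hall v)
        _ = _ := by rw [Finset.sum_const, Finset.card_univ, ZMod.card, nsmul_eq_mul]
    have h4 : N * ((2 * lmax / lmin + 2) ^ N * (t * size c)) ≤ lmin / 2 * size c := by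
      have : N * ((2 * lmax / lmin + 2) ^ N * (t * size c)) =
          (2 * N * (2 * lmax / lmin + 2) ^ N * t) / 2 * size c := by ring
      rw [this]
      apply mul_le_mul_of_nonneg_right _ hS.le
      linarith
    have : 0 < lmin * (size c : ℝ) := by positivity
    nlinarith
  intro w hw
  have hr0 : rate lam c w = 0 := (rcrr_none lam c w hw).1
  have htS : 0 ≤ t * (size c : ℝ) := by positivity
  have hn1 : c (w - 1) ≠ none := by
    intro h
    refine key (w - 1) ?_ ?_
    · rw [(rcrr_none lam c _ h).1]; exact htS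
    · rw [sub_add_cancel, hr0]; exact htS
  have hn2 : c (w + 1) ≠ none := by
    intro h
    refine key w ?_ ?_
    · rw [hr0]; exact htS
    · rw [(rcrr_none lam c _ h).1]; exact htS
  refine ⟨hn1, hn2, ?_⟩
  by_contra hsm
  have hbw := hb w
  unfold bb at hbw
  rw [hw] at hbw
  simp only [if_neg hsm] at hbw
  rw [(rcrr_none lam c w hw).2] at hbw
  simp only [Nat.cast_zero, mul_zero, sub_zero] at hbw
  have r1 := (repb_rate_nonneg lam lmin lmax h0 hl c (w - 1)).2
  have r2 := (repb_rate_nonneg lam lmin lmax h0 hl c (w + 1)).2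
  rw [abs_of_nonneg (by linarith)] at hbw
  exact key w (by rw [hr0]; exact htS) (by linarith)

/-! ### fillings -/

theorem repb_fill {N K : ℕ} (c : Cfg N K) (HS : repbHS c) (j0 : Fin K) :
    ∃ t : ZMod N → Fin K, Fill c t ∧ ∀ v, c v = none → t v = t (v - 1) := by
  classical
  refine ⟨fun v => if h : ∃ j k, c v = some (j, k) then h.choose else
    if h : ∃ j k, c (v - 1) = some (j, k) then h.choose else j0, ?_, ?_⟩
  · intro v j k hv
    have h : ∃ j k, c v = some (j, k) := ⟨j, k, hv⟩
    simp only
    rw [dif_pos h]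
    obtain ⟨k', hk'⟩ := h.choose_spec
    exact congrArg Prod.fst (Option.some.inj (hk'.symm.trans hv))
  · intro v hv
    have h : ¬ ∃ j k, c v = some (j, k) := by rintro ⟨j, k, h⟩; rw [hv] at h; simp at h
    have h' : ∃ j k, c (v - 1) = some (j, k) := by
      have := (HS v hv).1
      cases hc : c (v - 1) with
      | none => exact absurd hc this
      | some p => exact ⟨p.1, p.2, rfl⟩
    simp only
    rw [dif_neg h, dif_pos h', dif_pos h']

theorem repb_inj {N K : ℕ} [NeZero N] (c : Cfg N K) (t : ZMod N → Fin K)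
    (ht : ∀ v, c v = none → t v = t (v - 1)) (Q : ZMod N → Prop) [DecidablePred Q]
    (h1 : ∀ v, t v ≠ t (v + 1) → c v ≠ none → Q v)
    (h2 : ∀ v, t v ≠ t (v + 1) → c v = none → Q (v - 1) ∨ Q v) :
    chg t ≤ (Finset.univ.filter Q).card := by
  unfold chg
  apply Finset.card_le_card_of_injOn (fun v => if Q v then v else v - 1)
  · intro v hv
    simp only [Finset.coe_filter, Finset.mem_univ, true_and, Set.mem_ofPred_eq] at hv ⊢
    by_cases hQ : Q v
    · rw [if_pos hQ]; exact hQ
    · rw [if_neg hQ]
      by_cases hc : c v = none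
      · exact (h2 v hv hc).resolve_right hQ
      · exact absurd (h1 v hv hc) hQ
  · intro v hv w hw hvw
    simp only [Finset.coe_filter, Finset.mem_univ, true_and, Set.mem_ofPred_eq] at hv hw
    simp only at hvw
    by_cases hQv : Q v
    · by_cases hQw : Q w
      · rwa [if_pos hQv, if_pos hQw] at hvw
      · rw [if_pos hQv, if_neg hQw] at hvw
        exfalso
        have hcw : c w = none := by
          by_contra hc; exact hQw (h1 w hw hc)
        apply hv
        rw [hvw, sub_add_cancel, ht w hcw]
    · by_cases hQw : Q w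
      · rw [if_neg hQv, if_pos hQw] at hvw
        exfalso
        have hcv : c v = none := by
          by_contra hc; exact hQv (h1 v hv hc)
        apply hw
        rw [← hvw, sub_add_cancel, ht v hcv]
      · rw [if_neg hQv, if_neg hQw] at hvw
        exact sub_left_injective hvw

theorem repb_types {N K : ℕ} (c : Cfg N K) (t : ZMod N → Fin K) (hF : Fill c t)
    (v w : ZMod N) (hv : c v ≠ none) (hw : c w ≠ none) : sm c v w = if t v = t w then 1 else -1 := by
  unfold sm
  cases hcv : c v with
  | none => exact absurd hcv hv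
  | some p =>
    cases hcw : c w with
    | none => exact absurd hcw hw
    | some q =>
      obtain ⟨i, k⟩ := p
      obtain ⟨j, l⟩ := q
      simp only
      rw [hF v i k hcv, hF w j l hcw]

theorem repb_arcs {N K : ℕ} [NeZero N] (c : Cfg N K) (HS : repbHS c) (t : ZMod N → Fin K)
    (hF : Fill c t) (ht : ∀ v, c v = none → t v = t (v - 1)) : arcs c = chg t := by
  classical
  apply le_antisymm
  · exact Nat.sInf_le ⟨t, hF, rfl⟩
  · have hne : {m | ∃ t, Fill c t ∧ chg t = m}.Nonempty := ⟨_, t, hF, rfl⟩
    obtain ⟨t', hF', he⟩ := Nat.sInf_mem hne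
    unfold arcs
    rw [← he]
    have hgoal := repb_inj c t ht (fun v => t' v ≠ t' (v + 1)) ?_ ?_
    · refine hgoal.trans (le_of_eq ?_)
      unfold chg
      congr
    · intro v hv hcv
      by_cases hc1 : c (v + 1) = none
      · exfalso; apply hv
        have := ht (v + 1) hc1
        rw [add_sub_cancel_right] at this
        exact this.symm
      · intro h
        have e1 := repb_types c t hF v (v + 1) hcv hc1
        have e2 := repb_types c t' hF' v (v + 1) hcv hc1
        rw [if_neg hv] at e1
        rw [if_pos h, e1] at e2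
        norm_num at e2
    · intro v hv hcv
      obtain ⟨a1, a2, a3⟩ := HS v hcv
      by_contra hcon
      push Not at hcon
      have e2 := repb_types c t' hF' (v - 1) (v + 1) a1 a2
      rw [sub_add_cancel] at hcon
      rw [hcon.1, hcon.2, if_pos rfl, a3] at e2
      norm_num at e2

/-! ### signs -/

open Classical in
def repbChi {N K : ℕ} (t : ZMod N → Fin K) (v : ZMod N) : ℕ := if t v ≠ t (v + 1) then 1 else 0

def repbSig {N K : ℕ} (t : ZMod N → Fin K) (v : ZMod N) : ℤ :=
  (-1) ^ (∑ i ∈ Finset.range v.val, repbChi t (i : ZMod N))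

theorem repb_sig_pm {N K : ℕ} (t : ZMod N → Fin K) (v : ZMod N) :
    repbSig t v = 1 ∨ repbSig t v = -1 := by
  unfold repbSig
  rcases Nat.even_or_odd (∑ i ∈ Finset.range v.val, repbChi t (i : ZMod N)) with h | h
  · left; exact h.neg_one_pow
  · right; exact h.neg_one_pow

theorem repb_chg_sum {N K : ℕ} [NeZero N] (t : ZMod N → Fin K) :
    chg t = ∑ i ∈ Finset.range N, repbChi t (i : ZMod N) := by
  classical
  have h1 : chg t = ∑ v : ZMod N, repbChi t v := by
    unfold chg repbChi
    rw [Finset.card_filter]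
  rw [h1]
  symm
  apply Finset.sum_bij (fun (i : ℕ) _ => (i : ZMod N))
  · intro i _; exact Finset.mem_univ _
  · intro i hi j hj hij
    rw [Finset.mem_range] at hi hj
    have := congrArg ZMod.val hij
    rwa [ZMod.val_natCast_of_lt hi, ZMod.val_natCast_of_lt hj] at this
  · intro v _
    exact ⟨v.val, Finset.mem_range.2 (ZMod.val_lt v), ZMod.natCast_zmod_val v⟩
  · intro i _; rfl

theorem repb_sig_succ {N K : ℕ} [NeZero N] (hN : 3 ≤ N) (t : ZMod N → Fin K) (v : ZMod N) :
    repbSig t (v + 1) = epsm (chg t) v * repbSig t v * (-1) ^ repbChi t v := by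
  have h1N : (1 : ZMod N).val = 1 := ZMod.val_one'' (by omega)
  by_cases hv : v = -1
  · subst hv
    have hval : (-1 : ZMod N).val = N - 1 := by
      obtain ⟨n, rfl⟩ : ∃ n, N = n + 1 := ⟨N - 1, by omega⟩
      exact ZMod.val_neg_one n
    have e1 : repbSig t (-1 + 1 : ZMod N) = 1 := by
      rw [neg_add_cancel]
      simp [repbSig]
    rw [e1]
    unfold epsm repbSig
    rw [if_pos rfl, hval, mul_assoc, ← pow_add, ← pow_add]
    have h2 : (∑ i ∈ Finset.range (N - 1), repbChi t (i : ZMod N)) + repbChi t (-1 : ZMod N) =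
        chg t := by
      have h3 := Finset.sum_range_succ (fun i : ℕ => repbChi t (i : ZMod N)) (N - 1)
      rw [Nat.sub_add_cancel (by omega : 1 ≤ N)] at h3
      rw [repb_chg_sum, h3]
      congr 2
      rw [Nat.cast_sub (by omega)]; simp
    rw [h2, ← two_mul, pow_mul]
    simp
  · have hlt : v.val + 1 < N := by
      have h2 := ZMod.val_lt v
      rcases Nat.lt_or_ge (v.val + 1) N with h | h
      · exact h
      · exfalso
        have h3 : v.val = N - 1 := by omega
        apply hv
        rw [← ZMod.natCast_zmod_val v, h3, Nat.cast_sub (by omega)]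
        simp
    have hval : (v + 1).val = v.val + 1 := by
      rw [ZMod.val_add_of_lt (by rw [h1N]; exact hlt), h1N]
    unfold epsm
    rw [if_neg hv]
    unfold repbSig
    rw [hval, Finset.sum_range_succ, pow_add, ZMod.natCast_zmod_val]
    ring

/-- the signed vector of a filled configuration -/
def repbY {N K : ℕ} (c : Cfg N K) (t : ZMod N → Fin K) : ZV N :=
  fun v => repbSig t v * (cnt c v : ℤ)

theorem repb_sq (x : ℤ) (h : x = 1 ∨ x = -1) : x * x = 1 := by
  rcases h with h | h <;> rw [h] <;> norm_num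

theorem repb_cnt {N K : ℕ} (c : Cfg N K) (v : ZMod N) : c v = none ↔ cnt c v = 0 := by
  cases hc : c v with
  | none => simp [cnt, hc]
  | some p => obtain ⟨j, k⟩ := p; simp [cnt, hc]

theorem repb_Y_zero {N K : ℕ} (c : Cfg N K) (t : ZMod N → Fin K) (v : ZMod N) :
    repbY c t v = 0 ↔ c v = none := by
  rw [repb_cnt]
  unfold repbY
  rcases repb_sig_pm t v with h | h <;> rw [h] <;> simp

theorem repb_sig_next {N K : ℕ} [NeZero N] (hN : 3 ≤ N) (c : Cfg N K) (HS : repbHS c)
    (t : ZMod N → Fin K) (hF : Fill c t) (ht : ∀ v, c v = none → t v = t (v - 1))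
    (v : ZMod N) (hv : c v = none) :
    repbSig t (v + 1) = -(epsm (chg t) v * epsm (chg t) (v - 1) * repbSig t (v - 1)) := by
  obtain ⟨a1, a2, a3⟩ := HS v hv
  have e2 := repb_types c t hF (v - 1) (v + 1) a1 a2
  have hne : t (v - 1) ≠ t (v + 1) := by
    intro h; rw [if_pos h, a3] at e2; norm_num at e2
  have s1 := repb_sig_succ hN t v
  have s2 := repb_sig_succ hN t (v - 1)
  rw [sub_add_cancel] at s2
  have c1 : repbChi t v = 1 := by
    unfold repbChi
    rw [if_pos]
    rw [ht v hv]; exact hne
  have c2 : repbChi t (v - 1) = 0 := by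
    unfold repbChi
    rw [if_neg]
    rw [sub_add_cancel, ht v hv]
    simp
  rw [s1, s2, c1, c2]
  ring

theorem repb_rep {N K : ℕ} [NeZero N] (hN : 3 ≤ N) (c : Cfg N K) (HS : repbHS c)
    (t : ZMod N → Fin K) (hF : Fill c t) (ht : ∀ v, c v = none → t v = t (v - 1)) :
    Rep (epsm (chg t)) c (repbY c t) := by
  have hε := fun v => repb_sq _ (epsm_sgn_pr (N := N) (chg t) v)
  have hσ := fun v => repb_sq _ (repb_sig_pm t v)
  refine ⟨?_, ?_, ?_⟩
  · intro v
    unfold repbY
    rcases repb_sig_pm t v with h | h <;> rw [h] <;> simp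
  · intro v h1 h2
    have n1 : c v ≠ none := fun h => h1 ((repb_Y_zero c t v).2 h)
    have n2 : c (v + 1) ≠ none := fun h => h2 ((repb_Y_zero c t (v + 1)).2 h)
    have p1 : 0 < (cnt c v : ℤ) := by
      have := (not_congr (repb_cnt c v)).1 n1
      omega
    have p2 : 0 < (cnt c (v + 1) : ℤ) := by
      have := (not_congr (repb_cnt c (v + 1))).1 n2
      omega
    have e : epsm (chg t) v * repbY c t v * repbY c t (v + 1) =
        (-1) ^ repbChi t v * ((cnt c v : ℤ) * (cnt c (v + 1) : ℤ)) := by
      unfold repbY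
      rw [repb_sig_succ hN t v]
      calc _ = (epsm (chg t) v * epsm (chg t) v) * (repbSig t v * repbSig t v) *
            ((-1) ^ repbChi t v * ((cnt c v : ℤ) * (cnt c (v + 1) : ℤ))) := by ring
        _ = _ := by rw [hε, hσ]; ring
    rw [e, repb_types c t hF v (v + 1) n1 n2]
    have hp := mul_pos p1 p2
    unfold repbChi
    by_cases h : t v = t (v + 1)
    · rw [if_pos h, if_neg (not_not.2 h)]
      simp only [pow_zero, one_mul, true_iff]
      exact hp
    · rw [if_neg h, if_pos h]
      constructor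
      · intro h3; norm_num at h3
      · intro h3
        rw [pow_one] at h3
        nlinarith
  · intro v h0 h1 h2
    have n0 : c v = none := (repb_Y_zero c t v).1 h0
    have n1 : c (v - 1) ≠ none := fun h => h1 ((repb_Y_zero c t (v - 1)).2 h)
    have n2 : c (v + 1) ≠ none := fun h => h2 ((repb_Y_zero c t (v + 1)).2 h)
    have p1 : 0 < (cnt c (v - 1) : ℤ) := by
      have := (not_congr (repb_cnt c (v - 1))).1 n1
      omega
    have p2 : 0 < (cnt c (v + 1) : ℤ) := by
      have := (not_congr (repb_cnt c (v + 1))).1 n2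
      omega
    have hp := mul_pos p1 p2
    have e : epsm (chg t) (v - 1) * epsm (chg t) v * repbY c t (v - 1) * repbY c t (v + 1) =
        -((cnt c (v - 1) : ℤ) * (cnt c (v + 1) : ℤ)) := by
      unfold repbY
      rw [repb_sig_next hN c HS t hF ht v n0]
      calc _ = -((epsm (chg t) v * epsm (chg t) v) * (epsm (chg t) (v - 1) *
            epsm (chg t) (v - 1)) * (repbSig t (v - 1) * repbSig t (v - 1)) *
            ((cnt c (v - 1) : ℤ) * (cnt c (v + 1) : ℤ))) := by ring
        _ = _ := by rw [hε, hε, hσ]; ring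
    rw [e, (HS v n0).2.2]
    constructor
    · intro h3; norm_num at h3
    · intro h3; linarith

theorem repb_notC {N K : ℕ} [NeZero N] (hN : 3 ≤ N) (c : Cfg N K) (HS : repbHS c)
    (t : ZMod N → Fin K) (hF : Fill c t) (ht : ∀ v, c v = none → t v = t (v - 1))
    (hm : 2 ≤ chg t) : ¬ InC (castV (epsm (chg t))) (castV (repbY c t)) := by
  classical
  rintro ⟨s, hs1, hs2, hs3⟩
  have hcard := repb_inj c t ht (fun v => s (v + 1) ≠ castV (epsm (chg t)) v * s v) ?_ ?_
  · have h2 := lt_of_lt_of_le (by omega : 1 < chg t) hcard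
    obtain ⟨a, ha, b, hb, hab⟩ := Finset.one_lt_card.1 h2
    rw [Finset.mem_filter] at ha hb
    exact hab (hs3 a b ha.2 hb.2)
  all_goals
    have hsσ : ∀ v, c v ≠ none → s v = (repbSig t v : ℝ) := by
      intro v hv
      have hp : (0 : ℝ) < cnt c v := by
        have := (not_congr (repb_cnt c v)).1 hv
        exact_mod_cast Nat.pos_of_ne_zero this
      have h1 := hs2 v
      unfold castV repbY at h1
      push_cast at h1
      rcases hs1 v with h | h <;> rcases repb_sig_pm t v with h' | h'
      · rw [h, h']; norm_num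
      · exfalso; rw [h, h'] at h1; push_cast at h1; linarith
      · exfalso; rw [h, h'] at h1; push_cast at h1; linarith
      · rw [h, h']; norm_num
  · intro v hv hcv heq
    have hc1 : c (v + 1) ≠ none := by
      intro h
      apply hv
      have := ht (v + 1) h
      rw [add_sub_cancel_right] at this
      exact this.symm
    rw [hsσ v hcv, hsσ (v + 1) hc1] at heq
    have h1 := repb_sig_succ hN t v
    have h2 : repbChi t v = 1 := by unfold repbChi; rw [if_pos hv]
    rw [h2, pow_one] at h1
    have h3 : (repbSig t (v + 1) : ℝ) = castV (epsm (chg t)) v * repbSig t v * (-1) := by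
      rw [h1]; unfold castV; push_cast; ring
    rw [h3] at heq
    have h4 : castV (epsm (chg t) : ZV N) v * (repbSig t v : ℝ) = 0 := by linarith
    have h5 : ((epsm (chg t) : ZV N) v * repbSig t v : ℤ) = 0 := by
      unfold castV at h4
      exact_mod_cast h4
    rcases epsm_sgn_pr (N := N) (chg t) v with h | h <;>
      rcases repb_sig_pm t v with h' | h' <;> rw [h, h'] at h5 <;> norm_num at h5
  · intro v hv hcv
    obtain ⟨a1, a2, a3⟩ := HS v hcv
    by_contra hcon
    push Not at hcon
    obtain ⟨e1, e2⟩ := hcon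
    rw [sub_add_cancel] at e1
    rw [e1, hsσ _ a1, hsσ _ a2] at e2
    have h1 := repb_sig_next hN c HS t hF ht v hcv
    have h3 : (repbSig t (v + 1) : ℝ) = -(castV (epsm (chg t)) v * (castV (epsm (chg t)) (v - 1) *
        repbSig t (v - 1))) := by
      rw [h1]; unfold castV; push_cast; ring
    rw [h3] at e2
    have h4 : castV (epsm (chg t) : ZV N) v * (castV (epsm (chg t)) (v - 1) *
        repbSig t (v - 1)) = 0 := by linarith
    have h5 : ((epsm (chg t) : ZV N) v * ((epsm (chg t) : ZV N) (v - 1) * repbSig t (v - 1)) :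
        ℤ) = 0 := by
      unfold castV at h4
      exact_mod_cast h4
    rcases epsm_sgn_pr (N := N) (chg t) v with h | h <;>
      rcases epsm_sgn_pr (N := N) (chg t) (v - 1) with h'' | h'' <;>
      rcases repb_sig_pm t (v - 1) with h' | h' <;> rw [h, h', h''] at h5 <;> norm_num at h5

/-! ### the defect -/

theorem repb_fv {N K : ℕ} (lam : Fin K → ℝ) (c : Cfg N K) (t : ZMod N → Fin K) (v : ZMod N) :
    fv lam c (repbY c t) v = repbSig t v * rate lam c v := by
  unfold fv
  cases hc : c v with
  | none => rw [(rcrr_none lam c v hc).1]; simp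
  | some p =>
    have hn : c v ≠ none := by rw [hc]; simp
    have hp : 0 < (cnt c v : ℤ) := by
      have := (not_congr (repb_cnt c v)).1 hn
      omega
    have : Int.sign (repbY c t v) = repbSig t v := by
      unfold repbY
      rw [Int.sign_mul, Int.sign_eq_one_of_pos hp, mul_one]
      rcases repb_sig_pm t v with h | h <;> rw [h] <;> rfl
    rw [this]

theorem repb_defect {N K : ℕ} [NeZero N] (hN : 3 ≤ N) (lam : Fin K → ℝ) (c : Cfg N K)
    (HS : repbHS c) (t : ZMod N → Fin K) (hF : Fill c t)
    (ht : ∀ v, c v = none → t v = t (v - 1)) (R : ℝ) (w : ZMod N) :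
    |nb (castV (epsm (chg t))) (fv lam c (repbY c t)) w - R * castV (repbY c t) w| =
      |bb lam c w - R * cnt c w| := by
  have hσabs : ∀ v, |(repbSig t v : ℝ)| = 1 := by
    intro v
    rcases repb_sig_pm t v with h | h <;> rw [h] <;> norm_num
  have hσσ : ∀ v, (repbSig t v : ℝ) * (repbSig t v : ℝ) = 1 := by
    intro v
    exact_mod_cast repb_sq _ (repb_sig_pm t v)
  have hεε : ∀ v, castV (epsm (chg t) : ZV N) v * castV (epsm (chg t)) v = 1 := by
    intro v
    unfold castV
    exact_mod_cast repb_sq _ (epsm_sgn_pr (N := N) (chg t) v)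
  have hsucc : ∀ v, (repbSig t (v + 1) : ℝ) =
      castV (epsm (chg t)) v * repbSig t v * (-1) ^ repbChi t v := by
    intro v
    rw [repb_sig_succ hN t v]
    unfold castV
    push_cast
    ring
  have hsm : ∀ v, c v ≠ none → c (v + 1) ≠ none → sm c v (v + 1) = (-1) ^ repbChi t v := by
    intro v h1 h2
    rw [repb_types c t hF v (v + 1) h1 h2]
    unfold repbChi
    by_cases h : t v = t (v + 1)
    · rw [if_pos h, if_neg (not_not.2 h)]; simp
    · rw [if_neg h, if_pos h]; simp
  have hcast : castV (repbY c t) w = repbSig t w * cnt c w := by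
    unfold castV repbY; push_cast; ring
  by_cases hw : c w = none
  · obtain ⟨a1, a2, a3⟩ := HS w hw
    have hcnt : cnt c w = 0 := (repb_cnt c w).1 hw
    rw [hcast, hcnt]
    simp only [Nat.cast_zero, mul_zero, sub_zero]
    have hb : bb lam c w = |rate lam c (w - 1) - rate lam c (w + 1)| := by
      unfold bb
      rw [hw]
      simp only [if_pos a3]
    rw [hb, abs_abs]
    have h1 := repb_sig_next hN c HS t hF ht w hw
    have h3 : (repbSig t (w + 1) : ℝ) = -(castV (epsm (chg t)) w * (castV (epsm (chg t)) (w - 1) *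
        repbSig t (w - 1))) := by
      rw [h1]; unfold castV; push_cast; ring
    have e : nb (castV (epsm (chg t))) (fv lam c (repbY c t)) w =
        (castV (epsm (chg t)) (w - 1) * repbSig t (w - 1)) *
          (rate lam c (w - 1) - rate lam c (w + 1)) := by
      unfold nb
      rw [repb_fv, repb_fv, h3]
      calc _ = castV (epsm (chg t)) (w - 1) * repbSig t (w - 1) * rate lam c (w - 1) -
            (castV (epsm (chg t) : ZV N) w * castV (epsm (chg t)) w) *
            (castV (epsm (chg t)) (w - 1) * repbSig t (w - 1)) * rate lam c (w + 1) := by ring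
        _ = _ := by rw [hεε]; ring
    rw [e, abs_mul, abs_mul, hσabs]
    have : |castV (epsm (chg t) : ZV N) (w - 1)| = 1 := by
      rcases castV_sgn_pr _ (epsm_sgn_pr (N := N) (chg t)) (w - 1) with h | h <;> rw [h] <;>
        norm_num
    rw [this]; ring
  · have hb : bb lam c w = sm c (w - 1) w * rate lam c (w - 1) +
        sm c w (w + 1) * rate lam c (w + 1) := by
      unfold bb
      cases hc : c w with
      | none => exact absurd hc hw
      | some p => rfl
    have e1 : sm c w (w + 1) * rate lam c (w + 1) =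
        repbSig t w * (castV (epsm (chg t)) w * (repbSig t (w + 1) * rate lam c (w + 1))) := by
      by_cases h1 : c (w + 1) = none
      · rw [(rcrr_none lam c _ h1).1]; ring
      · rw [hsm w hw h1, hsucc w]
        calc _ = (castV (epsm (chg t) : ZV N) w * castV (epsm (chg t)) w) *
              (repbSig t w * repbSig t w) * ((-1) ^ repbChi t w * rate lam c (w + 1)) := by
              rw [hεε, hσσ]; ring
          _ = _ := by ring
    have e2 : sm c (w - 1) w * rate lam c (w - 1) =
        repbSig t w * (castV (epsm (chg t)) (w - 1) * (repbSig t (w - 1) *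
          rate lam c (w - 1))) := by
      by_cases h1 : c (w - 1) = none
      · rw [(rcrr_none lam c _ h1).1]; ring
      · have h2 := hsm (w - 1) h1 (by rw [sub_add_cancel]; exact hw)
        have h3 := hsucc (w - 1)
        rw [sub_add_cancel] at h2 h3
        rw [h2, h3]
        calc _ = (castV (epsm (chg t) : ZV N) (w - 1) * castV (epsm (chg t)) (w - 1)) *
              (repbSig t (w - 1) * repbSig t (w - 1)) *
              ((-1) ^ repbChi t (w - 1) * rate lam c (w - 1)) := by
              rw [hεε, hσσ]; ring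
          _ = _ := by ring
    have e3 : bb lam c w - R * cnt c w = repbSig t w *
        (nb (castV (epsm (chg t))) (fv lam c (repbY c t)) w - R * castV (repbY c t) w) := by
      rw [hb, e1, e2, hcast]
      unfold nb
      rw [repb_fv, repb_fv]
      calc _ = repbSig t w * (castV (epsm (chg t)) (w - 1) *
            (repbSig t (w - 1) * rate lam c (w - 1)) +
            castV (epsm (chg t)) w * (repbSig t (w + 1) * rate lam c (w + 1))) -
            (repbSig t w * repbSig t w) * (R * cnt c w) := by rw [hσσ]; ring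
        _ = _ := by ring
    rw [e3, abs_mul, hσabs, one_mul]

theorem rep_exists_pr {N K : ℕ} [NeZero N] (hN : 3 ≤ N) (lam : Fin K → ℝ) (lmin lmax : ℝ)
    (h0 : 0 < lmin) (hlm : lmin ≤ lmax) (hl : ∀ j, lmin ≤ lam j ∧ lam j ≤ lmax) :
    ∃ ηr : ℝ, 0 < ηr ∧ ∀ (m : ℕ) (_ : 2 ≤ m) (η : ℝ), 0 < η → η ≤ ηr → ∀ c : Cfg N K,
      arcs c = m → 0 < size c → dd lam c ≤ η ^ 2 * (size c : ℝ) ^ 2 →
      ∃ y : ZV N, Rep (epsm m) c y ∧ ¬ InC (castV (epsm m)) (castV y) ∧
        df (castV (epsm m)) (castV y) (fv lam c y) ≤ N * η := by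
  have hlmax : 0 < lmax := lt_of_lt_of_le h0 hlm
  have hN0 : (0 : ℝ) < N := by exact_mod_cast (by omega : 0 < N)
  refine ⟨lmin / (2 * N * (2 * lmax / lmin + 2) ^ N), by positivity, ?_⟩
  intro m hm η hη hηr c hcm hcs hdd
  have hS : (0 : ℝ) < size c := by exact_mod_cast hcs
  have hb : ∀ w, |bb lam c w - Rc lam c * cnt c w| ≤ η * (size c : ℝ) := by
    intro w
    have h1 : (bb lam c w - Rc lam c * cnt c w) ^ 2 ≤ dd lam c :=
      Finset.single_le_sum (f := fun w => (bb lam c w - Rc lam c * cnt c w) ^ 2)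
        (fun _ _ => sq_nonneg _) (Finset.mem_univ w)
    have h2 : (bb lam c w - Rc lam c * cnt c w) ^ 2 ≤ (η * (size c : ℝ)) ^ 2 := by
      rw [mul_pow]; exact h1.trans hdd
    exact abs_le_of_sq_le_sq h2 (by positivity)
  have htt : 2 * N * (2 * lmax / lmin + 2) ^ N * η ≤ lmin := by
    rw [le_div_iff₀ (by positivity)] at hηr
    linarith
  have HS : repbHS c := repb_struct lam lmin lmax h0 hlm hl c η hcs hη.le htt
    (Rc_bound hN lam lmin lmax h0 hlm hl c) hb
  have hj : ∃ j0 : Fin K, True := by
    by_contra hcon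
    push Not at hcon
    have : size c = 0 := by
      apply Finset.sum_eq_zero
      intro v _
      cases hv : c v with
      | none => exact (rcrr_none (fun _ => 0) c v hv).2
      | some p => exact (hcon p.1).elim
    omega
  obtain ⟨j0, _⟩ := hj
  obtain ⟨t, hF, ht⟩ := repb_fill c HS j0
  have harcs := repb_arcs c HS t hF ht
  have hmt : m = chg t := by rw [← hcm, harcs]
  subst hmt
  have hrep := repb_rep hN c HS t hF ht
  refine ⟨repbY c t, hrep, repb_notC hN c HS t hF ht hm, ?_⟩
  have hsz := (rep_size_pr (epsm (chg t)) c _ hrep).1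
  have hy0 : 0 < ‖castV (repbY c t)‖ := by
    have : 0 < (N : ℝ) * ‖castV (repbY c t)‖ := lt_of_lt_of_le hS hsz
    exact (mul_pos_iff_of_pos_left hN0).1 this
  unfold df
  rw [div_le_iff₀ hy0, rep_RR_pr hN lam (epsm (chg t)) (epsm_sgn_pr _) c _ hrep]
  have h1 : ‖nb (castV (epsm (chg t))) (fv lam c (repbY c t)) - Rc lam c • castV (repbY c t)‖ ≤
      η * (size c : ℝ) := by
    rw [pi_norm_le_iff_of_nonneg (by positivity)]
    intro w
    rw [Real.norm_eq_abs]
    have := repb_defect hN lam c HS t hF ht (Rc lam c) w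
    simp only [Pi.sub_apply, Pi.smul_apply, smul_eq_mul]
    rw [this]
    exact hb w
  calc _ ≤ η * (size c : ℝ) := h1
    _ ≤ η * (N * ‖castV (repbY c t)‖) := mul_le_mul_of_nonneg_left hsz hη.le
    _ = _ := by ring

alias rep_exists := rep_exists_pr

end Pool.Agent.Lib_helper10.CU
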