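import Pool.Agent.Lib_helper10.CU.STRUCT

-- block S3 written by helper63
set_option autoImplicit false
open scoped BigOperators
noncomputable section

namespace Pool.Agent.Lib_helper10.CU

theorem s3_smul {N : ℕ} (ε z : Vec N) (a : ℝ) (h : InC ε z) : InC ε (a • z) := by
  obtain ⟨s, hs, hsz, hch⟩ := h
  rcases le_or_gt 0 a with ha | ha
  · refine ⟨s, hs, fun v => ?_, hch⟩
    have := mul_nonneg ha (hsz v)
    simp only [Pi.smul_apply, smul_eq_mul]
    linarith [mul_left_comm (s v) a (z v)]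
  · refine ⟨fun v => - s v, fun v => ?_, fun v => ?_, fun v w hv hw => ?_⟩
    · rcases hs v with h | h
      · right; simp only [h]
      · left; simp only [h]; norm_num
    · have := mul_nonneg (neg_nonneg.mpr ha.le) (hsz v)
      simp only [Pi.smul_apply, smul_eq_mul]
      nlinarith
    · apply hch v w
      · intro h
        apply hv
        simp only [h]
        ring
      · intro h
        apply hw
        simp only [h]
        ring

theorem s3_nb_lin {N : ℕ} (ε x y : Vec N) (a b : ℝ) :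
    nb ε (a • x + b • y) = a • nb ε x + b • nb ε y := by
  funext w
  simp only [nb, Pi.add_apply, Pi.smul_apply, smul_eq_mul]
  ring

theorem no_two_pr {N : ℕ} [NeZero N] (hN : 3 ≤ N) (lmin lmax : ℝ) (h0 : 0 < lmin)
    (h1 : lmin ≤ lmax) (r : ℝ) (hr : 0 < r) :
    ∃ η1 : ℝ, 0 < η1 ∧ ∀ ε : Vec N, IsSgn ε → ∀ (y0 y1 f0 f1 : Vec N) (ρ : ℝ), y0 ≠ 0 →
      Rg lmin lmax y0 f0 →
      (∀ a : ℝ, 0 ≤ a → ∀ w, ∃ g, lmin ≤ g ∧ g ≤ lmax ∧
        f0 w - a * (f1 w - f0 w) = g * (y0 w - a * (y1 w - y0 w))) →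
      Rg lmin lmax (y1 - y0) (f1 - f0) → |ρ| ≤ 4 * lmax →
      ‖nb ε f0 - ρ • y0‖ ≤ η1 * ‖y0‖ → ‖nb ε f1 - ρ • y1‖ ≤ η1 * ‖y0‖ →
      ¬ InC ε y0 → InC ε (y1 - y0) → r * ‖y0‖ ≤ ‖y1 - y0‖ → ‖y1 - y0‖ ≤ ‖y0‖ → False := by
  obtain ⟨η0, hη0, ea, hea, hea8, hS⟩ := struct_pr (N := N) hN lmin lmax h0 h1
  set q : ℝ := min (1 / 2) (r / 4) with hq
  have hq0 : 0 < q := lt_min (by norm_num) (by positivity)
  set κ : ℝ := ea * q with hκ
  have hκ0 : 0 < κ := mul_pos hea hq0
  set η1 : ℝ := min η0 (η0 * κ / 3) with hη1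
  have hη10 : 0 < η1 := lt_min hη0 (by positivity)
  have hη1a : η1 ≤ η0 := min_le_left _ _
  have hη1b : 3 * η1 ≤ η0 * κ := by
    have := min_le_right η0 (η0 * κ / 3)
    rw [← hη1] at this
    linarith
  refine ⟨η1, hη10, ?_⟩
  intro ε hε y0 y1 f0 f1 ρ hy0 hR0 hRa hRh hρ he0 he1 hnC hC hr1 hr2
  set m : ℝ := ‖y0‖ with hm
  have hm0 : 0 < m := norm_pos_iff.mpr hy0
  set z : ℝ → Vec N := fun t => (1 - t) • y0 + (-t) • (y1 - y0) with hz
  set f : ℝ → Vec N := fun t => (1 - t) • f0 + (-t) • (f1 - f0) with hf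
  have hRg : ∀ t, 0 ≤ t → t ≤ 1 → Rg lmin lmax (z t) (f t) := by
    intro t ht0 ht1
    rcases ht1.eq_or_lt with h | h
    · rw [h]
      intro w
      obtain ⟨g, hg1, hg2, hg3⟩ := hRh w
      refine ⟨g, hg1, hg2, ?_⟩
      simp only [Pi.sub_apply] at hg3
      simp only [hz, hf, Pi.add_apply, Pi.smul_apply, Pi.sub_apply, smul_eq_mul]
      rw [hg3]
      ring
    · intro w
      have h1t : 0 < 1 - t := by linarith
      obtain ⟨g, hg1, hg2, hg3⟩ := hRa (t / (1 - t)) (div_nonneg ht0 h1t.le) w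
      refine ⟨g, hg1, hg2, ?_⟩
      simp only [hz, hf, Pi.add_apply, Pi.smul_apply, Pi.sub_apply, smul_eq_mul]
      have e1 : (1 - t) * f0 w + -t * (f1 w - f0 w) =
          (1 - t) * (f0 w - t / (1 - t) * (f1 w - f0 w)) := by
        field_simp
        ring
      have e2 : (1 - t) * y0 w + -t * (y1 w - y0 w) =
          (1 - t) * (y0 w - t / (1 - t) * (y1 w - y0 w)) := by
        field_simp
        ring
      rw [e1, e2, hg3]
      ring
  have hnear : ∀ t, 0 ≤ t → t ≤ 1 → ‖nb ε (f t) - ρ • z t‖ ≤ 3 * η1 * m := by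
    intro t ht0 ht1
    have e : nb ε (f t) - ρ • z t = (1 - t) • (nb ε f0 - ρ • y0) +
        (-t) • ((nb ε f1 - ρ • y1) - (nb ε f0 - ρ • y0)) := by
      have e1 : f1 - f0 = (1 : ℝ) • f1 + (-1 : ℝ) • f0 := by
        funext w
        simp [sub_eq_add_neg]
      simp only [hz, hf]
      rw [s3_nb_lin, e1, s3_nb_lin]
      funext w
      simp only [Pi.add_apply, Pi.sub_apply, Pi.smul_apply, smul_eq_mul]
      ring
    rw [e]
    calc ‖(1 - t) • (nb ε f0 - ρ • y0) + (-t) • ((nb ε f1 - ρ • y1) - (nb ε f0 - ρ • y0))‖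
        ≤ ‖(1 - t) • (nb ε f0 - ρ • y0)‖ +
          ‖(-t) • ((nb ε f1 - ρ • y1) - (nb ε f0 - ρ • y0))‖ := norm_add_le _ _
      _ = (1 - t) * ‖nb ε f0 - ρ • y0‖ +
          t * ‖(nb ε f1 - ρ • y1) - (nb ε f0 - ρ • y0)‖ := by
          rw [norm_smul, norm_smul, Real.norm_eq_abs, Real.norm_eq_abs, abs_neg,
            abs_of_nonneg (by linarith : (0 : ℝ) ≤ 1 - t), abs_of_nonneg ht0]
      _ ≤ (1 - t) * (η1 * m) + t * (η1 * m + η1 * m) := by
          refine add_le_add (mul_le_mul_of_nonneg_left he0 (by linarith))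
            (mul_le_mul_of_nonneg_left ?_ ht0)
          exact (norm_sub_le _ _).trans (add_le_add he1 he0)
      _ ≤ 3 * η1 * m := by
          have : 0 < η1 * m := by positivity
          nlinarith
  have hz0 : z 0 = y0 := by
    simp [hz]
  have hz1 : z 1 = (-1 : ℝ) • (y1 - y0) := by
    simp [hz]
  by_cases hcase : ∀ t, 0 ≤ t → t ≤ 1 → κ * m ≤ ‖z t‖
  · -- discrete continuity
    have hloc : ∀ t t', 0 ≤ t → t ≤ 1 → |t' - t| * 2 ≤ ea * κ → (InC ε (z t') ↔ InC ε (z t)) := by
      intro t t' ht0 ht1 htt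
      have hzt := hcase t ht0 ht1
      have hztpos : 0 < ‖z t‖ := lt_of_lt_of_le (by positivity) hzt
      refine (hS ε hε (z t) (f t) ρ (hRg t ht0 ht1) hρ (norm_pos_iff.mp hztpos) ?_).2 (z t') ?_
      · refine (hnear t ht0 ht1).trans ?_
        calc 3 * η1 * m ≤ η0 * κ * m := mul_le_mul_of_nonneg_right hη1b hm0.le
          _ = η0 * (κ * m) := by ring
          _ ≤ η0 * ‖z t‖ := mul_le_mul_of_nonneg_left hzt hη0.le
      · have e : z t' - z t = (t - t') • y0 + (t - t') • (y1 - y0) := by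
          funext w
          simp only [hz, Pi.add_apply, Pi.sub_apply, Pi.smul_apply, smul_eq_mul]
          ring
        rw [e]
        calc ‖(t - t') • y0 + (t - t') • (y1 - y0)‖
            ≤ ‖(t - t') • y0‖ + ‖(t - t') • (y1 - y0)‖ := norm_add_le _ _
          _ = |t' - t| * m + |t' - t| * ‖y1 - y0‖ := by
              rw [norm_smul, norm_smul, Real.norm_eq_abs, abs_sub_comm]
          _ ≤ |t' - t| * m + |t' - t| * m := by
              have := mul_le_mul_of_nonneg_left hr2 (abs_nonneg (t' - t))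
              linarith
          _ = (|t' - t| * 2) * m := by ring
          _ ≤ (ea * κ) * m := mul_le_mul_of_nonneg_right htt hm0.le
          _ = ea * (κ * m) := by ring
          _ ≤ ea * ‖z t‖ := mul_le_mul_of_nonneg_left hzt hea.le
    obtain ⟨M, hM⟩ := exists_nat_gt (2 / (ea * κ))
    have hM0 : 0 < (M : ℝ) := lt_trans (by positivity) hM
    have hstep : 1 / (M : ℝ) * 2 ≤ ea * κ := by
      rw [div_lt_iff₀ (by positivity)] at hM
      rw [div_mul_eq_mul_div, one_mul, div_le_iff₀ hM0]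
      linarith
    have hind : ∀ k : ℕ, k ≤ M → (InC ε (z ((k : ℝ) / M)) ↔ InC ε (z 0)) := by
      intro k
      induction k with
      | zero => intro _; simp
      | succ k ih =>
        intro hk
        have ih' := ih (Nat.le_of_succ_le hk)
        rw [← ih']
        have hk' : (k : ℝ) ≤ M := by exact_mod_cast Nat.le_of_succ_le hk
        refine hloc ((k : ℝ) / M) (((k + 1 : ℕ) : ℝ) / M) (by positivity)
          ((div_le_one hM0).mpr hk') ?_
        have e : ((k + 1 : ℕ) : ℝ) / M - (k : ℝ) / M = 1 / M := by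
          push_cast
          ring
        rw [e, abs_of_pos (by positivity)]
        exact hstep
    have hfin := hind M le_rfl
    rw [div_self hM0.ne', hz0, hz1] at hfin
    exact hnC (hfin.mp (s3_smul ε _ _ hC))
  · push Not at hcase
    obtain ⟨t, ht0, ht1, hzt⟩ := hcase
    -- lower bound for 1 - t
    have h1t : q ≤ 1 - t := by
      rcases le_or_gt t (1 / 2) with h | h
      · have := min_le_left (1 / 2 : ℝ) (r / 4)
        rw [← hq] at this
        linarith
      · have e : (-t) • (y1 - y0) = z t - (1 - t) • y0 := by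
          simp only [hz]
          abel
        have h3 : t * ‖y1 - y0‖ ≤ ‖z t‖ + (1 - t) * m := by
          have h4 : ‖(-t) • (y1 - y0)‖ = t * ‖y1 - y0‖ := by
            rw [norm_smul, Real.norm_eq_abs, abs_neg, abs_of_nonneg ht0]
          rw [← h4, e]
          refine (norm_sub_le _ _).trans ?_
          rw [norm_smul, Real.norm_eq_abs, abs_of_nonneg (by linarith : (0 : ℝ) ≤ 1 - t)]
        have h5 : t * (r * m) ≤ κ * m + (1 - t) * m := by
          have := mul_le_mul_of_nonneg_left hr1 ht0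
          linarith
        have h6 : t * r ≤ κ + (1 - t) := by
          have : (t * r) * m ≤ (κ + (1 - t)) * m := by linarith
          exact le_of_mul_le_mul_right this hm0
        have h7 : κ ≤ r / 4 := by
          have a1 := min_le_right (1 / 2 : ℝ) (r / 4)
          rw [← hq] at a1
          have a2 : κ ≤ 1 * q := mul_le_mul_of_nonneg_right (by linarith) hq0.le
          linarith
        have h8 : r / 2 ≤ t * r := by nlinarith
        have := min_le_right (1 / 2 : ℝ) (r / 4)
        rw [← hq] at this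
        linarith
    have h1t0 : 0 < 1 - t := lt_of_lt_of_le hq0 h1t
    have hx := (hS ε hε y0 f0 ρ hR0 hρ hy0
      (he0.trans (mul_le_mul_of_nonneg_right hη1a hm0.le))).2 ((t / (1 - t)) • (y1 - y0)) (by
        have e : (t / (1 - t)) • (y1 - y0) - y0 = (-(1 / (1 - t))) • z t := by
          funext w
          simp only [hz, Pi.add_apply, Pi.sub_apply, Pi.smul_apply, smul_eq_mul]
          field_simp
          ring
        rw [e, norm_smul, Real.norm_eq_abs, abs_neg, abs_of_pos (by positivity)]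
        rw [div_mul_eq_mul_div, one_mul, div_le_iff₀ h1t0]
        calc ‖z t‖ ≤ κ * m := hzt.le
          _ = ea * m * q := by rw [hκ]; ring
          _ ≤ ea * ‖y0‖ * (1 - t) := mul_le_mul_of_nonneg_left h1t (by positivity))
    exact hnC (hx.mp (s3_smul ε _ _ hC))

alias no_two := no_two_pr

end Pool.Agent.Lib_helper10.CU
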