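import Pool.Agent.Lib_helper10.CU.Defs2
import Pool.Agent.Lib_helper10.CU.ZO
import Pool.Agent.Lib_helper10.CU.ARC

-- block SEL written by helper85
/-! Block SEL: selection of a good continuation (helper85). -/

set_option autoImplicit false
open scoped BigOperators Topology
open Filter
noncomputable section

namespace Pool.Agent.Lib_helper10.CU

theorem sel_jr_nonneg {N K : ℕ} {lam : Fin K → ℝ} (hl : ∀ j, 0 < lam j) (c c' : Cfg N K)
    (v : ZMod N) : 0 ≤ jr lam c c' v := by
  unfold jr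
  split_ifs
  · exact le_min (zo_rate_nonneg hl c v) (zo_rate_nonneg hl c' v)
  · exact le_rfl

theorem sel_jr_le_left {N K : ℕ} {lam : Fin K → ℝ} (hl : ∀ j, 0 < lam j) (c c' : Cfg N K)
    (v : ZMod N) : jr lam c c' v ≤ rate lam c v := by
  unfold jr
  split_ifs
  · exact min_le_left _ _
  · exact zo_rate_nonneg hl c v

theorem sel_jr_le_right {N K : ℕ} {lam : Fin K → ℝ} (hl : ∀ j, 0 < lam j) (c c' : Cfg N K)
    (v : ZMod N) : jr lam c c' v ≤ rate lam c' v := by
  unfold jr
  split_ifs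
  · exact min_le_right _ _
  · exact zo_rate_nonneg hl c' v

theorem sel_total_pos {N K : ℕ} [NeZero N] {lam : Fin K → ℝ} (hl : ∀ j, 0 < lam j)
    {c : Cfg N K} (hc : 0 < size c) : 0 < total lam c := by
  unfold size at hc
  obtain ⟨v, -, hv⟩ := Finset.exists_ne_zero_of_sum_ne_zero hc.ne'
  unfold total
  refine Finset.sum_pos' (fun v _ => zo_rate_nonneg hl c v) ⟨v, Finset.mem_univ v, ?_⟩
  unfold cnt at hv
  unfold rate
  rcases hcv : c v with _ | ⟨j, k⟩
  · rw [hcv] at hv; exact absurd rfl hv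
  · have := hl j
    simp only []
    positivity

theorem sel_total_le {N K : ℕ} [NeZero N] {lam : Fin K → ℝ} (hl : ∀ j, 0 < lam j)
    (s : Cfg N K × Cfg N K) : total lam s.1 ≤ ptotal lam s := by
  unfold total ptotal
  refine Finset.sum_le_sum fun v _ => ?_
  have := sel_jr_le_right hl s.1 s.2 v
  linarith

theorem sel_ptotal_pos {N K : ℕ} [NeZero N] {lam : Fin K → ℝ} (hl : ∀ j, 0 < lam j)
    {s : Cfg N K × Cfg N K} (hs : 0 < size s.1) : 0 < ptotal lam s :=
  (sel_total_pos hl hs).trans_le (sel_total_le hl s)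

/-- both components are nonempty -/
def SelPos {N K : ℕ} [NeZero N] (s : Cfg N K × Cfg N K) : Prop := 0 < size s.1 ∧ 0 < size s.2

theorem sel_PP_mono {N K : ℕ} [NeZero N] (hN : 3 ≤ N) {lam : Fin K → ℝ} (hl : ∀ j, 0 < lam j)
    {f g : Cfg N K × Cfg N K → ℝ} (hfg : ∀ s, SelPos s → f s ≤ g s) (s : Cfg N K × Cfg N K)
    (hs : SelPos s) : PP lam f s ≤ PP lam g s := by
  unfold PP
  refine div_le_div_of_nonneg_right ?_ (sel_ptotal_pos hl hs.1).le
  refine Finset.sum_le_sum fun v _ => ?_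
  have h1 : SelPos (fire s.1 v, fire s.2 v) :=
    ⟨size_fire_pos_pr hN _ _ hs.1, size_fire_pos_pr hN _ _ hs.2⟩
  have h2 : SelPos (fire s.1 v, s.2) := ⟨size_fire_pos_pr hN _ _ hs.1, hs.2⟩
  have h3 : SelPos (s.1, fire s.2 v) := ⟨hs.1, size_fire_pos_pr hN _ _ hs.2⟩
  have e1 := mul_le_mul_of_nonneg_left (hfg _ h1) (sel_jr_nonneg hl s.1 s.2 v)
  have e2 := mul_le_mul_of_nonneg_left (hfg _ h2) (sub_nonneg.2 (sel_jr_le_left hl s.1 s.2 v))
  have e3 := mul_le_mul_of_nonneg_left (hfg _ h3) (sub_nonneg.2 (sel_jr_le_right hl s.1 s.2 v))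
  linarith

theorem sel_iter_mono {N K : ℕ} [NeZero N] (hN : 3 ≤ N) {lam : Fin K → ℝ} (hl : ∀ j, 0 < lam j)
    (n : ℕ) : ∀ {f g : Cfg N K × Cfg N K → ℝ}, (∀ s, SelPos s → f s ≤ g s) →
    ∀ s : Cfg N K × Cfg N K, SelPos s → ((PP lam)^[n] f) s ≤ ((PP lam)^[n] g) s := by
  induction n with
  | zero => intro f g h s hs; exact h s hs
  | succ n ih =>
    intro f g h s hs
    rw [Function.iterate_succ_apply, Function.iterate_succ_apply]
    exact ih (sel_PP_mono hN hl h) s hs

theorem sel_PP_add {N K : ℕ} [NeZero N] (lam : Fin K → ℝ) (f g : Cfg N K × Cfg N K → ℝ) :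
    PP lam (fun s => f s + g s) = fun s => PP lam f s + PP lam g s := by
  funext s
  unfold PP
  rw [← add_div]
  refine congrArg (fun x : ℝ => x / ptotal lam s) ?_
  rw [← Finset.sum_add_distrib]
  refine Finset.sum_congr rfl fun v _ => ?_
  ring

theorem sel_iter_add {N K : ℕ} [NeZero N] (lam : Fin K → ℝ) (n : ℕ) :
    ∀ f g : Cfg N K × Cfg N K → ℝ, ((PP lam)^[n] (fun s => f s + g s)) =
      fun s => ((PP lam)^[n] f) s + ((PP lam)^[n] g) s := by
  induction n with
  | zero => intro f g; rfl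
  | succ n ih =>
    intro f g
    rw [Function.iterate_succ_apply, Function.iterate_succ_apply, Function.iterate_succ_apply,
      sel_PP_add, ih]

theorem sel_PP_div {N K : ℕ} [NeZero N] (lam : Fin K → ℝ) (a : ℝ) (f : Cfg N K × Cfg N K → ℝ) :
    PP lam (fun s => f s / a) = fun s => PP lam f s / a := by
  funext s
  unfold PP
  rw [div_right_comm]
  refine congrArg (fun x : ℝ => x / ptotal lam s) ?_
  rw [Finset.sum_div]
  refine Finset.sum_congr rfl fun v _ => ?_
  ring

theorem sel_iter_div {N K : ℕ} [NeZero N] (lam : Fin K → ℝ) (a : ℝ) (n : ℕ) :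
    ∀ f : Cfg N K × Cfg N K → ℝ, ((PP lam)^[n] (fun s => f s / a)) =
      fun s => ((PP lam)^[n] f) s / a := by
  induction n with
  | zero => intro f; rfl
  | succ n ih =>
    intro f
    rw [Function.iterate_succ_apply, Function.iterate_succ_apply, sel_PP_div, ih]

theorem sel_PP_const {N K : ℕ} [NeZero N] {lam : Fin K → ℝ} (hl : ∀ j, 0 < lam j) (a : ℝ)
    (s : Cfg N K × Cfg N K) (hs : SelPos s) : PP lam (fun _ => a) s = a := by
  have h0 := sel_ptotal_pos hl hs.1
  unfold PP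
  rw [div_eq_iff h0.ne']
  unfold ptotal
  rw [Finset.mul_sum]
  refine Finset.sum_congr rfl fun v _ => ?_
  ring

theorem sel_iter_const {N K : ℕ} [NeZero N] (hN : 3 ≤ N) {lam : Fin K → ℝ} (hl : ∀ j, 0 < lam j)
    (a : ℝ) (n : ℕ) (s : Cfg N K × Cfg N K) (hs : SelPos s) :
    ((PP lam)^[n] (fun _ => a)) s = a := by
  induction n with
  | zero => rfl
  | succ n ih =>
    rw [Function.iterate_succ_apply]
    refine le_antisymm ?_ ?_
    · exact (sel_iter_mono hN hl n (f := PP lam (fun _ => a)) (g := fun _ => a)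
        (fun s hs => (sel_PP_const hl a s hs).le) s hs).trans ih.le
    · exact ih.ge.trans (sel_iter_mono hN hl n (f := fun _ => a) (g := PP lam (fun _ => a))
        (fun s hs => (sel_PP_const hl a s hs).ge) s hs)

theorem sel_super {N K : ℕ} [NeZero N] {lam : Fin K → ℝ} (hl : ∀ j, 0 < lam j) (m : ℕ)
    {c : Cfg N K} (hc : 0 < size c) :
    ∑ v, rate lam c v * (1 - qq lam m (fire c v)) ≤ total lam c * (1 - qq lam m c) := by
  have ht := sel_total_pos hl hc
  have h1 : qq lam m c ≤ Pop lam (qq lam m) c := by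
    by_cases h : arcs c = m
    · exact (qA_harm_pr lam hl (fun c => arcs c = m) c h).le
    · have h2 : qq lam m c = 0 := qA_zero_pr lam hl (fun c => arcs c = m) c h
      rw [h2]
      exact zo_Pop_nonneg hl (fun c => qA_nonneg_pr lam hl _ c) c
  have h2 : Pop lam (qq lam m) c * total lam c = ∑ v, rate lam c v * qq lam m (fire c v) := by
    unfold Pop
    rw [Finset.sum_mul]
    refine Finset.sum_congr rfl fun v _ => ?_
    field_simp
  have h3 : ∑ v, rate lam c v * (1 - qq lam m (fire c v)) =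
      total lam c - ∑ v, rate lam c v * qq lam m (fire c v) := by
    unfold total
    rw [← Finset.sum_sub_distrib]
    refine Finset.sum_congr rfl fun v _ => ?_
    ring
  rw [h3, ← h2]
  nlinarith [mul_le_mul_of_nonneg_right h1 ht.le]

theorem sel_PP_UU {N K : ℕ} [NeZero N] {lam : Fin K → ℝ} (hl : ∀ j, 0 < lam j) (m : ℕ)
    (s : Cfg N K × Cfg N K) (hs : SelPos s) : PP lam (UU lam m) s ≤ UU lam m s := by
  have h0 := sel_ptotal_pos hl hs.1
  have h1 := sel_super hl m hs.1
  have h2 := sel_super hl m hs.2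
  unfold PP
  rw [div_le_iff₀ h0]
  have h3 : ∑ v, (jr lam s.1 s.2 v * UU lam m (fire s.1 v, fire s.2 v) +
      (rate lam s.1 v - jr lam s.1 s.2 v) * UU lam m (fire s.1 v, s.2) +
      (rate lam s.2 v - jr lam s.1 s.2 v) * UU lam m (s.1, fire s.2 v)) =
      (∑ v, rate lam s.1 v * (1 - qq lam m (fire s.1 v))) +
      (∑ v, rate lam s.2 v * (1 - qq lam m (fire s.2 v))) +
      (∑ v, (rate lam s.2 v - jr lam s.1 s.2 v)) * (1 - qq lam m s.1) +
      (∑ v, (rate lam s.1 v - jr lam s.1 s.2 v)) * (1 - qq lam m s.2) := by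
    rw [Finset.sum_mul, Finset.sum_mul, ← Finset.sum_add_distrib, ← Finset.sum_add_distrib,
      ← Finset.sum_add_distrib]
    refine Finset.sum_congr rfl fun v _ => ?_
    simp only [UU]
    ring
  have h4 : ptotal lam s = total lam s.1 + ∑ v, (rate lam s.2 v - jr lam s.1 s.2 v) := by
    unfold ptotal total
    rw [← Finset.sum_add_distrib]
    refine Finset.sum_congr rfl fun v _ => ?_
    ring
  have h5 : ptotal lam s = total lam s.2 + ∑ v, (rate lam s.1 v - jr lam s.1 s.2 v) := by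
    unfold ptotal total
    rw [← Finset.sum_add_distrib]
    refine Finset.sum_congr rfl fun v _ => ?_
    ring
  rw [h3]
  have h6 : UU lam m s * ptotal lam s =
      (1 - qq lam m s.1) * (total lam s.1 + ∑ v, (rate lam s.2 v - jr lam s.1 s.2 v)) +
      (1 - qq lam m s.2) * (total lam s.2 + ∑ v, (rate lam s.1 v - jr lam s.1 s.2 v)) := by
    rw [← h4, ← h5]
    simp only [UU]
    ring
  rw [h6]
  nlinarith

theorem sel_iter_UU {N K : ℕ} [NeZero N] (hN : 3 ≤ N) {lam : Fin K → ℝ} (hl : ∀ j, 0 < lam j)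
    (m n : ℕ) (s : Cfg N K × Cfg N K) (hs : SelPos s) :
    ((PP lam)^[n] (UU lam m)) s ≤ UU lam m s := by
  induction n with
  | zero => exact le_rfl
  | succ n ih =>
    rw [Function.iterate_succ_apply]
    exact (sel_iter_mono hN hl n (fun s hs => sel_PP_UU hl m s hs) s hs).trans ih

theorem sel_UU_nonneg {N K : ℕ} [NeZero N] {lam : Fin K → ℝ} (hl : ∀ j, 0 < lam j)
    (m : ℕ) (s : Cfg N K × Cfg N K) : 0 ≤ UU lam m s := by
  have h1 : qq lam m s.1 ≤ 1 := qA_le_one_pr lam hl _ _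
  have h2 : qq lam m s.2 ≤ 1 := qA_le_one_pr lam hl _ _
  unfold UU
  linarith

open Classical in
theorem select_pr {N K : ℕ} [NeZero N] (hN : 3 ≤ N) (lam : Fin K → ℝ) (hl : ∀ j, 0 < lam j)
    (m : ℕ) (s : Cfg N K × Cfg N K) (hs : 0 < size s.1 ∧ 0 < size s.2) (n : ℕ)
    (Good : Cfg N K × Cfg N K → Prop) (f rest c0 : ℝ) (hc0 : 0 < c0) (hr : 0 ≤ rest)
    (h : ((PP lam)^[n] (fun s' => if Good s' then (0 : ℝ) else 1)) s ≤ f)
    (hU : UU lam m s / c0 + f + rest < 1) :
    ∃ s' : Cfg N K × Cfg N K, Good s' ∧ 0 < size s'.1 ∧ 0 < size s'.2 ∧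
      UU lam m s' / c0 + rest < 1 := by
  by_contra hcon
  push Not at hcon
  have h1 : ∀ s' : Cfg N K × Cfg N K, SelPos s' →
      (1 : ℝ) ≤ (if Good s' then (0 : ℝ) else 1) + (UU lam m s' / c0 + rest) := by
    intro s' hs'
    by_cases hg : Good s'
    · rw [if_pos hg, zero_add]
      exact hcon s' hg hs'.1 hs'.2
    · rw [if_neg hg]
      have := div_nonneg (sel_UU_nonneg hl m s') hc0.le
      linarith
  have h2 := sel_iter_mono hN hl n (f := fun _ => (1 : ℝ)) h1 s hs
  rw [sel_iter_const hN hl 1 n s hs, sel_iter_add, sel_iter_add, sel_iter_div] at h2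
  simp only [sel_iter_const hN hl rest n s hs] at h2
  have h3 := div_le_div_of_nonneg_right (sel_iter_UU hN hl m n s hs) hc0.le
  linarith

alias select := select_pr

end Pool.Agent.Lib_helper10.CU
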