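import Pool.Agent.Lib_helper10.CU.Defs

-- block STRUCT written by helper63
set_option autoImplicit false
open scoped BigOperators
noncomputable section

namespace Pool.Agent.Lib_helper10.CU

theorem struct_one_ne {N : ℕ} (hN : 3 ≤ N) : (1 : ZMod N) ≠ 0 := by
  intro h
  have h1 : ((1 : ℕ) : ZMod N) = 0 := by exact_mod_cast h
  rw [ZMod.natCast_eq_zero_iff] at h1
  have := Nat.le_of_dvd one_pos h1
  omega

/-- exactly one change at a vertex between opposite transported signs -/
theorem struct_one_change {N : ℕ} (ε t : Vec N) (hε : IsSgn ε) (ht : IsSgn t) (w : ZMod N)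
    (h : (ε (w - 1) * t (w - 1)) * (ε w * t (w + 1)) < 0) :
    (t w ≠ ε (w - 1) * t (w - 1)) ↔ ¬ (t (w + 1) ≠ ε w * t w) := by
  rcases hε (w - 1) with h1 | h1 <;> rcases hε w with h2 | h2 <;> rcases ht (w - 1) with h3 | h3 <;>
    rcases ht w with h4 | h4 <;> rcases ht (w + 1) with h5 | h5 <;>
    rw [h1, h2, h3, h5] at h <;> rw [h1, h2, h3, h4, h5] <;>
    first | (exfalso; norm_num at h; done) | norm_num

/-- transfer of the cone condition -/
theorem struct_transfer {N : ℕ} (hN : 3 ≤ N) (ε z x : Vec N) (hε : IsSgn ε)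
    (Sm : Set (ZMod N)) (hbig : ∀ w, w ∉ Sm → 0 < z w * x w)
    (hsm : ∀ w ∈ Sm, w - 1 ∉ Sm ∧ w + 1 ∉ Sm ∧
      (ε (w - 1) * z (w - 1)) * (ε w * z (w + 1)) < 0) (hz : InC ε z) : InC ε x := by
  classical
  obtain ⟨s, hs, hsz, hch⟩ := hz
  set t : Vec N := fun w => if 0 ≤ s w * x w then s w else - s w with ht
  have htS : IsSgn t := by
    intro w
    simp only [ht]
    split_ifs
    · exact hs w
    · rcases hs w with h | h
      · right; rw [h]
      · left; rw [h]; norm_num
  have hsbig : ∀ w, w ∉ Sm → 0 < s w * z w ∧ t w = s w := by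
    intro w hw
    have h1 := hbig w hw
    have h2 := hsz w
    have hz0 : z w ≠ 0 := by
      intro h
      rw [h] at h1
      simp at h1
    have h3 : 0 < s w * z w := by
      rcases hs w with h | h
      · rw [h] at h2 ⊢
        rw [one_mul] at h2 ⊢
        exact lt_of_le_of_ne h2 (Ne.symm hz0)
      · rw [h] at h2 ⊢
        have : -1 * z w ≠ 0 := by
          intro h'
          apply hz0
          linarith
        exact lt_of_le_of_ne h2 (Ne.symm this)
    refine ⟨h3, ?_⟩
    have h4 : 0 ≤ s w * x w := by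
      have h5 : 0 < (s w * z w) * (s w * x w) := by
        have hss : s w * s w = 1 := by
          rcases hs w with h | h <;> rw [h] <;> norm_num
        calc (0 : ℝ) < z w * x w := h1
          _ = (s w * s w) * (z w * x w) := by rw [hss, one_mul]
          _ = _ := by ring
      exact ((pos_iff_pos_of_mul_pos h5).mp h3).le
    simp only [ht, if_pos h4]
  have htx : ∀ v, 0 ≤ t v * x v := by
    intro v
    simp only [ht]
    split_ifs with h
    · exact h
    · push Not at h
      linarith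
  have h10 := struct_one_ne hN
  -- opposite transported signs for `s` and `t` at small vertices
  have hopp : ∀ w ∈ Sm, (ε (w - 1) * s (w - 1)) * (ε w * s (w + 1)) < 0 := by
    intro w hw
    obtain ⟨h1, h2, h3⟩ := hsm w hw
    have h4 := (hsbig _ h1).1
    have h5 := (hsbig _ h2).1
    rcases hs (w - 1) with a | a <;> rcases hs (w + 1) with b | b <;>
      rcases hε (w - 1) with c | c <;> rcases hε w with d | d <;>
      rw [a] at h4 ⊢ <;> rw [b] at h5 ⊢ <;> rw [c, d] at h3 ⊢ <;> norm_num <;> nlinarith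
  have hoppt : ∀ w ∈ Sm, (ε (w - 1) * t (w - 1)) * (ε w * t (w + 1)) < 0 := by
    intro w hw
    obtain ⟨h1, h2, -⟩ := hsm w hw
    rw [(hsbig _ h1).2, (hsbig _ h2).2]
    exact hopp w hw
  have hs1 : ∀ w ∈ Sm, (s w ≠ ε (w - 1) * s (w - 1)) ↔ ¬ (s (w + 1) ≠ ε w * s w) :=
    fun w hw => struct_one_change ε s hε hs w (hopp w hw)
  have ht1 : ∀ w ∈ Sm, (t w ≠ ε (w - 1) * t (w - 1)) ↔ ¬ (t (w + 1) ≠ ε w * t w) :=
    fun w hw => struct_one_change ε t hε htS w (hoppt w hw)
  -- the change of `s` associated with a vertex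
  have hP : ∀ w ∈ Sm, ∃ u, (u = w - 1 ∨ u = w) ∧ s (u + 1) ≠ ε u * s u := by
    intro w hw
    by_cases h : s (w + 1) ≠ ε w * s w
    · exact ⟨w, Or.inr rfl, h⟩
    · refine ⟨w - 1, Or.inl rfl, ?_⟩
      rw [sub_add_cancel]
      exact (hs1 w hw).mpr h
  -- every change of `t` is near a change of `s`
  have hQ : ∀ v, t (v + 1) ≠ ε v * t v →
      (v ∉ Sm ∧ v + 1 ∉ Sm ∧ s (v + 1) ≠ ε v * s v) ∨ (∃ w ∈ Sm, v = w - 1 ∨ v = w) := by
    intro v hv
    by_cases h1 : v ∈ Sm
    · exact Or.inr ⟨v, h1, Or.inr rfl⟩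
    · by_cases h2 : v + 1 ∈ Sm
      · exact Or.inr ⟨v + 1, h2, Or.inl (by ring)⟩
      · refine Or.inl ⟨h1, h2, ?_⟩
        rw [(hsbig _ h1).2, (hsbig _ h2).2] at hv
        exact hv
  have hadj : ∀ w ∈ Sm, ∀ w' ∈ Sm, ∀ u, (u = w - 1 ∨ u = w) → (u = w' - 1 ∨ u = w') → w = w' := by
    intro w hw w' hw' u h1 h2
    obtain ⟨a1, a2, -⟩ := hsm w hw
    rcases h1 with h1 | h1 <;> rcases h2 with h2 | h2
    · have := h1.symm.trans h2
      exact sub_left_injective this
    · exact absurd (by rw [← h1, h2]; exact hw') a1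
    · exfalso
      apply a2
      have : w' = w + 1 := by rw [← h1, h2]; ring
      rw [← this]
      exact hw'
    · exact h1.symm.trans h2
  refine ⟨t, htS, htx, ?_⟩
  intro v v' hv hv'
  rcases hQ v hv with ⟨b1, b2, b3⟩ | ⟨w, hw, hvw⟩
  · rcases hQ v' hv' with ⟨c1, c2, c3⟩ | ⟨w', hw', hvw'⟩
    · exact hch v v' b3 c3
    · exfalso
      obtain ⟨u, hu, hsu⟩ := hP w' hw'
      have := hch v u b3 hsu
      rw [← this] at hu
      rcases hu with hu | hu
      · apply b2
        rw [hu, sub_add_cancel]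
        exact hw'
      · apply b1
        rw [hu]
        exact hw'
  · rcases hQ v' hv' with ⟨c1, c2, c3⟩ | ⟨w', hw', hvw'⟩
    · exfalso
      obtain ⟨u, hu, hsu⟩ := hP w hw
      have := hch v' u c3 hsu
      rw [← this] at hu
      rcases hu with hu | hu
      · apply c2
        rw [hu, sub_add_cancel]
        exact hw
      · apply c1
        rw [hu]
        exact hw
    · obtain ⟨u, hu, hsu⟩ := hP w hw
      obtain ⟨u', hu', hsu'⟩ := hP w' hw'
      have huu := hch u u' hsu hsu'
      rw [← huu] at hu'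
      have hww := hadj w hw w' hw' u hu hu'
      rw [← hww] at hvw'
      rcases hvw with h1 | h1 <;> rcases hvw' with h2 | h2
      · rw [h1, h2]
      · exfalso
        rw [h1, sub_add_cancel] at hv
        rw [h2] at hv'
        exact (ht1 w hw).mp hv hv'
      · exfalso
        rw [h2, sub_add_cancel] at hv'
        rw [h1] at hv
        exact (ht1 w hw).mp hv' hv
      · rw [h1, h2]

theorem struct_norm_le {N : ℕ} [NeZero N] (x : Vec N) (v : ZMod N) : |x v| ≤ ‖x‖ := by
  have := norm_le_pi_norm x v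
  rwa [Real.norm_eq_abs] at this

theorem struct_pr {N : ℕ} [NeZero N] (hN : 3 ≤ N) (lmin lmax : ℝ) (h0 : 0 < lmin)
    (h1 : lmin ≤ lmax) :
    ∃ η0 : ℝ, 0 < η0 ∧ ∃ ea : ℝ, 0 < ea ∧ ea ≤ 1 / 8 ∧ ∀ ε : Vec N, IsSgn ε →
      ∀ (z f : Vec N) (ρ : ℝ), Rg lmin lmax z f → |ρ| ≤ 4 * lmax → z ≠ 0 →
      ‖nb ε f - ρ • z‖ ≤ η0 * ‖z‖ →
      Str ε ea z ∧ ∀ x : Vec N, ‖x - z‖ ≤ ea * ‖z‖ → (InC ε x ↔ InC ε z) := by
  have hlm : 0 < lmax := lt_of_lt_of_le h0 h1
  set C : ℝ := (5 * lmax + 1) / lmin + 1 with hC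
  have hC1 : 1 ≤ C := by
    have : 0 ≤ (5 * lmax + 1) / lmin := by positivity
    linarith
  have hC0 : 0 < C := by linarith
  set e' : ℝ := (C ^ (N + 1))⁻¹ / 8 with he'
  have he'0 : 0 < e' := by positivity
  have hCN : 1 ≤ C ^ (N + 1) := one_le_pow₀ hC1
  have he'8 : e' ≤ 1 / 8 := by
    have : (C ^ (N + 1))⁻¹ ≤ 1 := inv_le_one_of_one_le₀ hCN
    rw [he']
    linarith
  set ea : ℝ := min e' (lmin * e' / (2 * (4 * lmax + 1))) with hea
  have hea0 : 0 < ea := lt_min he'0 (by positivity)
  have heae : ea ≤ e' := min_le_left _ _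
  have hea2 : (4 * lmax + 1) * ea < lmin * e' := by
    have h2 : ea ≤ lmin * e' / (2 * (4 * lmax + 1)) := min_le_right _ _
    have h3 : (4 * lmax + 1) * ea ≤ (4 * lmax + 1) * (lmin * e' / (2 * (4 * lmax + 1))) :=
      mul_le_mul_of_nonneg_left h2 (by positivity)
    have h4 : (4 * lmax + 1) * (lmin * e' / (2 * (4 * lmax + 1))) = lmin * e' / 2 := by
      field_simp
    rw [h4] at h3
    have : 0 < lmin * e' := by positivity
    linarith
  refine ⟨ea, hea0, ea, hea0, heae.trans he'8, ?_⟩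
  intro ε hε z f ρ hR hρ hz heq
  set m : ℝ := ‖z‖ with hm
  have hm0 : 0 < m := norm_pos_iff.mpr hz
  -- the equations
  have heqw : ∀ w, |ε (w - 1) * f (w - 1) + ε w * f (w + 1) - ρ * z w| ≤ ea * m := by
    intro w
    have h2 := struct_norm_le (nb ε f - ρ • z) w
    have h3 : (nb ε f - ρ • z) w = ε (w - 1) * f (w - 1) + ε w * f (w + 1) - ρ * z w := by
      simp [nb]
    rw [h3] at h2
    exact h2.trans heq
  have habsε : ∀ w, |ε w| = 1 := by
    intro w
    rcases hε w with h | h <;> rw [h] <;> norm_num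
  -- |f| and |z|
  have hfz : ∀ w, lmin * |z w| ≤ |f w| ∧ |f w| ≤ lmax * |z w| := by
    intro w
    obtain ⟨g, hg1, hg2, hg3⟩ := hR w
    rw [hg3, abs_mul, abs_of_pos (lt_of_lt_of_le h0 hg1)]
    exact ⟨mul_le_mul_of_nonneg_right hg1 (abs_nonneg _),
      mul_le_mul_of_nonneg_right hg2 (abs_nonneg _)⟩
  -- propagation of smallness
  have hprop : ∀ (δ : ℝ), ea ≤ δ → ∀ w, |z w| ≤ δ * m → |z (w + 1)| ≤ δ * m →
      |z (w + 1 + 1)| ≤ C * δ * m := by
    intro δ hδ w hw1 hw2
    have h2 := heqw (w + 1)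
    rw [add_sub_cancel_right] at h2
    have hδ0 : 0 < δ := lt_of_lt_of_le hea0 hδ
    have h3 : |f (w + 1 + 1)| ≤ (5 * lmax + 1) * (δ * m) := by
      have h4 : |ε (w + 1) * f (w + 1 + 1)| ≤ |ε w * f w| + |ρ * z (w + 1)| + ea * m := by
        have h5 : ε (w + 1) * f (w + 1 + 1) = (ε w * f w + ε (w + 1) * f (w + 1 + 1) -
            ρ * z (w + 1)) - ε w * f w + ρ * z (w + 1) := by ring
        rw [h5]
        calc |(ε w * f w + ε (w + 1) * f (w + 1 + 1) - ρ * z (w + 1)) - ε w * f w
              + ρ * z (w + 1)|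
            ≤ |(ε w * f w + ε (w + 1) * f (w + 1 + 1) - ρ * z (w + 1)) - ε w * f w|
              + |ρ * z (w + 1)| := abs_add_le _ _
          _ ≤ |ε w * f w + ε (w + 1) * f (w + 1 + 1) - ρ * z (w + 1)| + |ε w * f w|
              + |ρ * z (w + 1)| := by
              have := abs_sub (ε w * f w + ε (w + 1) * f (w + 1 + 1) - ρ * z (w + 1)) (ε w * f w)
              linarith
          _ ≤ _ := by linarith
      rw [abs_mul, abs_mul, abs_mul, habsε, habsε, one_mul, one_mul] at h4
      have h6 : |f w| ≤ lmax * (δ * m) :=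
        (hfz w).2.trans (mul_le_mul_of_nonneg_left hw1 hlm.le)
      have h7 : |ρ| * |z (w + 1)| ≤ 4 * lmax * (δ * m) :=
        mul_le_mul hρ hw2 (abs_nonneg _) (by positivity)
      have h8 : ea * m ≤ δ * m := mul_le_mul_of_nonneg_right hδ hm0.le
      calc |f (w + 1 + 1)| ≤ |f w| + |ρ| * |z (w + 1)| + ea * m := h4
        _ ≤ lmax * (δ * m) + 4 * lmax * (δ * m) + δ * m := by linarith
        _ = (5 * lmax + 1) * (δ * m) := by ring
    have h9 := (hfz (w + 1 + 1)).1
    have h10 : |z (w + 1 + 1)| ≤ (5 * lmax + 1) / lmin * (δ * m) := by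
      rw [div_mul_eq_mul_div, le_div_iff₀ h0]
      linarith
    have h11 : 0 ≤ δ * m := by positivity
    calc |z (w + 1 + 1)| ≤ (5 * lmax + 1) / lmin * (δ * m) := h10
      _ ≤ C * (δ * m) := by
          refine mul_le_mul_of_nonneg_right ?_ h11
          rw [hC]
          linarith
      _ = _ := by ring
  -- no two adjacent small coordinates
  have hnoadj : ∀ w, |z w| ≤ e' * m → |z (w + 1)| ≤ e' * m → False := by
    intro w hw1 hw2
    have hind : ∀ k : ℕ, |z (w + k)| ≤ C ^ k * e' * m ∧ |z (w + k + 1)| ≤ C ^ k * e' * m := by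
      intro k
      induction k with
      | zero => simpa using ⟨hw1, hw2⟩
      | succ k ih =>
        obtain ⟨i1, i2⟩ := ih
        have hCk : 1 ≤ C ^ k := one_le_pow₀ hC1
        have hδ : ea ≤ C ^ k * e' := heae.trans (le_mul_of_one_le_left he'0.le hCk)
        have h3 := hprop (C ^ k * e') hδ (w + k) i1 i2
        have h4 : C ^ k * e' * m ≤ C ^ (k + 1) * e' * m := by
          have : C ^ k ≤ C ^ (k + 1) := pow_le_pow_right₀ hC1 (Nat.le_succ k)
          gcongr
        push_cast
        rw [← add_assoc]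
        refine ⟨i2.trans h4, ?_⟩
        calc |z (w + k + 1 + 1)| ≤ C * (C ^ k * e') * m := h3
          _ = C ^ (k + 1) * e' * m := by ring
    have hall : ∀ v, |z v| ≤ m / 2 := by
      intro v
      have h3 := (hind (v - w).val).1
      rw [ZMod.natCast_val, ZMod.cast_id, add_sub_cancel] at h3
      refine h3.trans ?_
      have h4 : C ^ (v - w).val ≤ C ^ (N + 1) :=
        pow_le_pow_right₀ hC1 ((ZMod.val_lt (v - w)).le.trans (Nat.le_succ N))
      have h5 : C ^ (v - w).val * e' ≤ 1 / 8 := by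
        calc C ^ (v - w).val * e' ≤ C ^ (N + 1) * e' := mul_le_mul_of_nonneg_right h4 he'0.le
          _ = 1 / 8 := by
            rw [he']
            have : C ^ (N + 1) ≠ 0 := by positivity
            field_simp
      calc C ^ (v - w).val * e' * m ≤ 1 / 8 * m := mul_le_mul_of_nonneg_right h5 hm0.le
        _ ≤ m / 2 := by linarith
    have hle : ‖z‖ ≤ m / 2 := by
      rw [pi_norm_le_iff_of_nonneg (by positivity)]
      intro v
      rw [Real.norm_eq_abs]
      exact hall v
    rw [← hm] at hle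
    linarith
  have hStr' : ∀ w, |z w| ≤ ea * m → e' * m < |z (w - 1)| ∧ e' * m < |z (w + 1)| ∧
      (ε (w - 1) * z (w - 1)) * (ε w * z (w + 1)) < 0 := by
    intro w hw
    have hw' : |z w| ≤ e' * m := hw.trans (mul_le_mul_of_nonneg_right heae hm0.le)
    have ha : e' * m < |z (w - 1)| := by
      by_contra hcon
      push Not at hcon
      apply hnoadj (w - 1) hcon
      rw [sub_add_cancel]
      exact hw'
    have hb : e' * m < |z (w + 1)| := by
      by_contra hcon
      push Not at hcon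
      exact hnoadj w hw' hcon
    refine ⟨ha, hb, ?_⟩
    by_contra hcon
    push Not at hcon
    obtain ⟨g1, hg11, hg12, hg13⟩ := hR (w - 1)
    obtain ⟨g2, hg21, hg22, hg23⟩ := hR (w + 1)
    have h2 := heqw w
    rw [hg13, hg23] at h2
    set a := ε (w - 1) * z (w - 1) with hadef
    set b := ε w * z (w + 1) with hbdef
    have h3 : |g1 * a + g2 * b| ≤ (4 * lmax + 1) * ea * m := by
      have h4 : g1 * a + g2 * b = (ε (w - 1) * (g1 * z (w - 1)) + ε w * (g2 * z (w + 1)) -
          ρ * z w) + ρ * z w := by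
        rw [hadef, hbdef]
        ring
      rw [h4]
      calc _ ≤ |ε (w - 1) * (g1 * z (w - 1)) + ε w * (g2 * z (w + 1)) - ρ * z w| + |ρ * z w| :=
            abs_add_le _ _
        _ ≤ ea * m + 4 * lmax * (ea * m) := by
            refine add_le_add h2 ?_
            rw [abs_mul]
            exact mul_le_mul hρ hw (abs_nonneg _) (by positivity)
        _ = _ := by ring
    have h5 : |a| = |z (w - 1)| := by rw [hadef, abs_mul, habsε, one_mul]
    have h6 : lmin * e' * m ≤ |g1 * a + g2 * b| := by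
      have h7 : |g1 * a| ≤ |g1 * a + g2 * b| := by
        have h8 : 0 ≤ (g1 * a) * (g2 * b) := by
          have : (g1 * a) * (g2 * b) = (g1 * g2) * (a * b) := by ring
          rw [this]
          exact mul_nonneg (mul_nonneg (h0.le.trans hg11) (h0.le.trans hg21)) hcon
        have h9 : (g1 * a) ^ 2 ≤ (g1 * a + g2 * b) ^ 2 := by nlinarith [sq_nonneg (g2 * b)]
        exact sq_le_sq.mp h9
      have h10 : lmin * (e' * m) ≤ |g1 * a| := by
        rw [abs_mul, abs_of_pos (lt_of_lt_of_le h0 hg11), h5]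
        exact mul_le_mul hg11 ha.le (by positivity) (h0.le.trans hg11)
      calc lmin * e' * m = lmin * (e' * m) := by ring
        _ ≤ _ := h10
        _ ≤ _ := h7
    have h11 : (4 * lmax + 1) * ea * m < lmin * e' * m := mul_lt_mul_of_pos_right hea2 hm0
    linarith
  have heam : ea * m ≤ e' * m := mul_le_mul_of_nonneg_right heae hm0.le
  refine ⟨fun w hw => ?_, ?_⟩
  · obtain ⟨a1, a2, a3⟩ := hStr' w hw
    exact ⟨lt_of_le_of_lt heam a1, lt_of_le_of_lt heam a2, a3⟩
  · intro x hx
    set Sm : Set (ZMod N) := {w | |z w| ≤ ea * m} with hSm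
    have hbig : ∀ w, w ∉ Sm → 0 < z w * x w := by
      intro w hw
      have hw' : ea * m < |z w| := by
        rw [hSm, Set.mem_ofPred_eq] at hw
        push Not at hw
        exact hw
      have h2 : |x w - z w| ≤ ea * m := (struct_norm_le (x - z) w).trans hx
      have h3 := (abs_le.mp h2).1
      have h4 := (abs_le.mp h2).2
      rcases le_or_gt 0 (z w) with h | h
      · rw [abs_of_nonneg h] at hw'
        have h5 : 0 < z w := lt_of_le_of_lt (by positivity) hw'
        have h6 : 0 < x w := by linarith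
        exact mul_pos h5 h6
      · rw [abs_of_neg h] at hw'
        have h6 : x w < 0 := by linarith
        exact mul_pos_of_neg_of_neg h h6
    have hadj : ∀ w ∈ Sm, w - 1 ∉ Sm ∧ w + 1 ∉ Sm := by
      intro w hw
      obtain ⟨a1, a2, -⟩ := hStr' w hw
      refine ⟨fun h => ?_, fun h => ?_⟩
      · have : |z (w - 1)| ≤ ea * m := h
        linarith
      · have : |z (w + 1)| ≤ ea * m := h
        linarith
    constructor
    · intro hCx
      refine struct_transfer hN ε x z hε Sm (fun w hw => ?_) (fun w hw => ?_) hCx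
      · rw [mul_comm]
        exact hbig w hw
      · obtain ⟨b1, b2⟩ := hadj w hw
        refine ⟨b1, b2, ?_⟩
        obtain ⟨-, -, a3⟩ := hStr' w hw
        have c1 := hbig _ b1
        have c2 := hbig _ b2
        have c3 : 0 < (z (w - 1) * x (w - 1)) * (z (w + 1) * x (w + 1)) := mul_pos c1 c2
        by_contra hcon
        push Not at hcon
        have c4 : ((ε (w - 1) * z (w - 1)) * (ε w * z (w + 1))) *
            ((ε (w - 1) * x (w - 1)) * (ε w * x (w + 1))) ≤ 0 :=
          mul_nonpos_of_nonpos_of_nonneg a3.le hcon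
        have e1 : ε (w - 1) * ε (w - 1) = 1 := by
          rcases hε (w - 1) with h | h <;> rw [h] <;> norm_num
        have e2 : ε w * ε w = 1 := by
          rcases hε w with h | h <;> rw [h] <;> norm_num
        have c5 : ((ε (w - 1) * z (w - 1)) * (ε w * z (w + 1))) *
            ((ε (w - 1) * x (w - 1)) * (ε w * x (w + 1))) =
            (ε (w - 1) * ε (w - 1)) * (ε w * ε w) *
              ((z (w - 1) * x (w - 1)) * (z (w + 1) * x (w + 1))) := by ring
        rw [c5, e1, e2] at c4
        linarith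
    · intro hCz
      refine struct_transfer hN ε z x hε Sm hbig (fun w hw => ?_) hCz
      obtain ⟨b1, b2⟩ := hadj w hw
      exact ⟨b1, b2, (hStr' w hw).2.2⟩

alias struct := struct_pr

end Pool.Agent.Lib_helper10.CU
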