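import Pool.Agent.Lib_helper10.CU.CONC
import Pool.Agent.Lib_helper10.CU.CHART
import Pool.Agent.Lib_helper10.CU.Defs2

-- block WIN written by helper20
set_option autoImplicit false
open scoped BigOperators Topology
open Filter
noncomputable section

namespace Pool.Agent.Lib_helper10.CU

/-! ## WIN : one window of the urn pair chain -/

section
variable {N : ℕ} [NeZero N]

omit [NeZero N] in
theorem win_rz_nonneg {lp lm : Vec N} (hp : ∀ v, 0 ≤ lp v) (hm : ∀ v, 0 ≤ lm v) (y : ZV N)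
    (v : ZMod N) : 0 ≤ rz lp lm y v := by
  unfold rz
  split_ifs with h
  · exact mul_nonneg (hp v) (by exact_mod_cast h.le)
  · refine mul_nonneg (hm v) ?_
    have : ((y v : ℤ) : ℝ) ≤ 0 := by exact_mod_cast not_lt.mp h
    linarith

omit [NeZero N] in
theorem win_rz_le {l : ℝ} {lp lm : Vec N} (hl : 0 ≤ l) (hp : ∀ v, lp v ≤ l) (hm : ∀ v, lm v ≤ l)
    (y : ZV N) (v : ZMod N) : rz lp lm y v ≤ l * |(y v : ℝ)| := by
  unfold rz
  split_ifs with h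
  · have h' : (0 : ℝ) ≤ (y v : ℝ) := by exact_mod_cast h.le
    rw [abs_of_nonneg h']
    exact mul_le_mul_of_nonneg_right (hp v) h'
  · have h' : ((y v : ℤ) : ℝ) ≤ 0 := by exact_mod_cast not_lt.mp h
    rw [abs_of_nonpos h']
    exact mul_le_mul_of_nonneg_right (hm v) (by linarith)

omit [NeZero N] in
theorem win_jz {lp lm : Vec N} (hp : ∀ v, 0 ≤ lp v) (hm : ∀ v, 0 ≤ lm v) (y y' : ZV N)
    (v : ZMod N) : 0 ≤ jz lp lm y y' v ∧ jz lp lm y y' v ≤ rz lp lm y v ∧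
      jz lp lm y y' v ≤ rz lp lm y' v := by
  have h1 := win_rz_nonneg hp hm y v
  have h2 := win_rz_nonneg hp hm y' v
  unfold jz
  split_ifs with h
  · exact ⟨le_min h1 h2, min_le_left _ _, min_le_right _ _⟩
  · exact ⟨le_rfl, h1, h2⟩

theorem win_ztotal_nonneg {lp lm : Vec N} (hp : ∀ v, 0 ≤ lp v) (hm : ∀ v, 0 ≤ lm v)
    (s : ZV N × ZV N) : 0 ≤ ztotal lp lm s := by
  refine Finset.sum_nonneg fun v _ => ?_
  have h1 := win_rz_nonneg hp hm s.1 v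
  have h2 := win_jz hp hm s.1 s.2 v
  linarith [h2.2.2]

theorem win_SP_mono (ε : ZV N) {lp lm : Vec N} (hp : ∀ v, 0 ≤ lp v) (hm : ∀ v, 0 ≤ lm v)
    {g g' : ZV N × ZV N → ℝ} (h : ∀ s, g s ≤ g' s) (s : ZV N × ZV N) :
    SP ε lp lm g s ≤ SP ε lp lm g' s := by
  unfold SP
  refine div_le_div_of_nonneg_right ?_ (win_ztotal_nonneg hp hm s)
  refine Finset.sum_le_sum fun v _ => ?_
  obtain ⟨j0, j1, j2⟩ := win_jz hp hm s.1 s.2 v
  exact add_le_add (add_le_add (mul_le_mul_of_nonneg_left (h _) j0)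
    (mul_le_mul_of_nonneg_left (h _) (sub_nonneg.mpr j1)))
    (mul_le_mul_of_nonneg_left (h _) (sub_nonneg.mpr j2))

theorem win_iter_mono (ε : ZV N) {lp lm : Vec N} (hp : ∀ v, 0 ≤ lp v) (hm : ∀ v, 0 ≤ lm v)
    {g g' : ZV N × ZV N → ℝ} (h : ∀ s, g s ≤ g' s) (n : ℕ) :
    ∀ s, ((SP ε lp lm)^[n] g) s ≤ ((SP ε lp lm)^[n] g') s := by
  induction n with
  | zero => exact h
  | succ n ih =>
    intro s
    rw [Function.iterate_succ_apply', Function.iterate_succ_apply']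
    exact win_SP_mono ε hp hm ih s

theorem win_abs_le (y : ZV N) (v : ZMod N) : |(y v : ℝ)| ≤ ‖castV y‖ := norm_le_pi_norm (castV y) v

theorem win_ztotal_le {l : ℝ} {lp lm : Vec N} (hl : 0 ≤ l) (hp0 : ∀ v, 0 ≤ lp v)
    (hm0 : ∀ v, 0 ≤ lm v) (hp : ∀ v, lp v ≤ l) (hm : ∀ v, lm v ≤ l)
    (y y' : ZV N) : ztotal lp lm (y, y') ≤ N * (l * (‖castV y‖ + ‖castV y'‖)) := by
  unfold ztotal
  calc ∑ v, (rz lp lm y v + rz lp lm y' v - jz lp lm y y' v)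
      ≤ ∑ _v : ZMod N, l * (‖castV y‖ + ‖castV y'‖) := by
        refine Finset.sum_le_sum fun v _ => ?_
        have h1 := (win_rz_le hl hp hm y v).trans (mul_le_mul_of_nonneg_left (win_abs_le y v) hl)
        have h2 := (win_rz_le hl hp hm y' v).trans
          (mul_le_mul_of_nonneg_left (win_abs_le y' v) hl)
        have h3 := (win_jz hp0 hm0 y y' v).1
        linarith
    _ = N * (l * (‖castV y‖ + ‖castV y'‖)) := by
        rw [Finset.sum_const, Finset.card_univ, ZMod.card, nsmul_eq_mul]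

omit [NeZero N] in
theorem win_cast_sub (y y' : ZV N) : castV (y - y') = castV y - castV y' := by
  funext v
  simp only [castV, Pi.sub_apply]
  push_cast
  rfl

theorem win_sgn {a b : ℤ} (h : (a - b).natAbs < b.natAbs) : 0 < a * b := by
  rcases lt_trichotomy b 0 with hb | hb | hb
  · exact mul_pos_of_neg_of_neg (by omega) hb
  · subst hb; simp at h
  · exact mul_pos (by omega) hb

theorem win_sgn_trans {a b c : ℤ} (h1 : 0 < a * b) (h2 : 0 < c * b) : 0 < a * c := by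
  by_contra hc
  have h3 := mul_pos h1 h2
  have h4 : a * b * (c * b) = (a * c) * (b * b) := by ring
  have h5 := mul_nonpos_of_nonpos_of_nonneg (not_lt.mp hc) (mul_self_nonneg b)
  omega

/-- the facts on big vertices -/
theorem win_big {ea : ℝ} (hea : 0 < ea) {y0 y1 : ZV N} (hy0 : 0 < ‖castV y0‖)
    (hd : ‖castV (y1 - y0)‖ ≤ ea / 2 * ‖castV y0‖) {v : ZMod N}
    (hv : ea * ‖castV y0‖ < |(y0 v : ℝ)|) :
    ⌊ea / 2 * ‖castV y0‖⌋₊ < (y0 v).natAbs ∧ ⌊ea / 2 * ‖castV y0‖⌋₊ < (y1 v).natAbs ∧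
      0 < y0 v * y1 v := by
  have hfl : ((⌊ea / 2 * ‖castV y0‖⌋₊ : ℕ) : ℝ) ≤ ea / 2 * ‖castV y0‖ :=
    Nat.floor_le (by positivity)
  have hdv : |(y1 v : ℝ) - (y0 v : ℝ)| ≤ ea / 2 * ‖castV y0‖ := by
    refine le_trans ?_ hd
    have := win_abs_le (y1 - y0) v
    rw [Pi.sub_apply] at this
    push_cast at this
    exact this
  have hpos : 0 < ea * ‖castV y0‖ := by positivity
  have h1 : ea / 2 * ‖castV y0‖ < |(y1 v : ℝ)| := by
    have := abs_sub_abs_le_abs_sub (y0 v : ℝ) (y1 v : ℝ)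
    rw [abs_sub_comm] at this
    linarith
  have e0 : (((y0 v).natAbs : ℕ) : ℝ) = |(y0 v : ℝ)| := by
    rw [Nat.cast_natAbs, Int.cast_abs]
  have e1 : (((y1 v).natAbs : ℕ) : ℝ) = |(y1 v : ℝ)| := by
    rw [Nat.cast_natAbs, Int.cast_abs]
  have b1 : ⌊ea / 2 * ‖castV y0‖⌋₊ < (y0 v).natAbs := by
    have : ((⌊ea / 2 * ‖castV y0‖⌋₊ : ℕ) : ℝ) < (((y0 v).natAbs : ℕ) : ℝ) := by
      rw [e0]; linarith
    exact_mod_cast this
  have b2 : ⌊ea / 2 * ‖castV y0‖⌋₊ < (y1 v).natAbs := by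
    have : ((⌊ea / 2 * ‖castV y0‖⌋₊ : ℕ) : ℝ) < (((y1 v).natAbs : ℕ) : ℝ) := by
      rw [e1]; linarith
    exact_mod_cast this
  refine ⟨b1, b2, ?_⟩
  rw [mul_comm]
  refine win_sgn ?_
  have e2 : (((y1 v - y0 v).natAbs : ℕ) : ℝ) = |(y1 v : ℝ) - (y0 v : ℝ)| := by
    rw [Nat.cast_natAbs, Int.cast_abs]
    push_cast
    rfl
  have : (((y1 v - y0 v).natAbs : ℕ) : ℝ) < (((y0 v).natAbs : ℕ) : ℝ) := by
    rw [e2, e0]; linarith
  exact_mod_cast this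

/-- the facts on small vertices -/
theorem win_small {ea : ℝ} {ε y0 : ZV N} (hS : Str (castV ε) ea (castV y0)) {w : ZMod N}
    (hw : ¬ ea * ‖castV y0‖ < |(y0 w : ℝ)|) :
    ea * ‖castV y0‖ < |(y0 (w - 1) : ℝ)| ∧ ea * ‖castV y0‖ < |(y0 (w + 1) : ℝ)| ∧
      ε (w - 1) * ε w * y0 (w - 1) * y0 (w + 1) < 0 := by
  obtain ⟨h1, h2, h3⟩ := hS w (not_lt.mp hw)
  refine ⟨h1, h2, ?_⟩
  have h4 : ((ε (w - 1) * ε w * y0 (w - 1) * y0 (w + 1) : ℤ) : ℝ) < 0 := by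
    push_cast
    unfold castV at h3
    nlinarith
  exact_mod_cast h4

end

open Classical in
theorem win_pr {N K : ℕ} [NeZero N] (hN : 3 ≤ N) (lam : Fin K → ℝ) (lmin lmax : ℝ)
    (h0 : 0 < lmin) (hlm : lmin ≤ lmax) (hl : ∀ j, lmin ≤ lam j ∧ lam j ≤ lmax) :
    ∃ C0 : ℝ, 0 < C0 ∧ ∀ ea : ℝ, 0 < ea → ea ≤ 1 / 8 → ∃ θ0 : ℝ, 0 < θ0 ∧ ∀ θ : ℝ, 0 < θ →
      θ ≤ θ0 → ∃ Cθ : ℝ, 0 < Cθ ∧ ∃ Yθ : ℝ, 0 < Yθ ∧ ∀ ε : ZV N, IsSgnZ ε →
      ∀ (c0 c1 : Cfg N K) (y0 y1 : ZV N), Rep ε c0 y0 → Rep ε c1 y1 → Link c0 c1 y0 y1 →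
      Str (castV ε) ea (castV y0) → y1 ≠ y0 → InC (castV ε) (castV (y1 - y0)) →
      ‖castV (y1 - y0)‖ ≤ ea / 2 * ‖castV y0‖ → Yθ ≤ ‖castV y0‖ →
      ∃ n : ℕ, ((PP lam)^[n] (fun s' =>
        if ∃ y0' y1', GW lam ε lmin lmax C0 θ c0 c1 y0 y1 s' y0' y1' then (0 : ℝ) else 1))
          (c0, c1) ≤ Cθ / ‖castV (y1 - y0)‖ := by
  have hlmax : 0 < lmax := lt_of_lt_of_le h0 hlm
  have hn : (0 : ℝ) < N := by exact_mod_cast (by omega : 0 < N)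
  obtain ⟨C0, hC0, θ1, hθ1, hconc⟩ := conc (N := N) hN lmin lmax h0 hlm
  refine ⟨C0, hC0, fun ea hea hea8 => ⟨min θ1 (ea / (6 * N * lmax)), by positivity, ?_⟩⟩
  intro θ hθ hθ0
  have t1 : θ ≤ θ1 := hθ0.trans (min_le_left _ _)
  have t2 : θ * (6 * N * lmax) ≤ ea := by
    have := hθ0.trans (min_le_right _ _)
    rwa [le_div_iff₀ (by positivity)] at this
  obtain ⟨Cθ, hCθ, Yθ, hYθ, hconc'⟩ := hconc θ hθ t1
  refine ⟨Cθ, hCθ, Yθ, hYθ, ?_⟩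
  intro ε hε c0 c1 y0 y1 hr0 hr1 hL hStr hne hInC hd hY
  have hy0 : 0 < ‖castV y0‖ := lt_of_lt_of_le hYθ hY
  have hlpos : ∀ j, 0 < lam j := fun j => lt_of_lt_of_le h0 (hl j).1
  obtain ⟨T, hT0, hT1, hit, hrep, -⟩ := chart_pr hN lam hlpos ε hε c0 c1 y0 y1
    ⌊ea / 2 * ‖castV y0‖⌋₊ (fun v => ea * ‖castV y0‖ < |(y0 v : ℝ)|) hr0 hr1 hL
    (fun v hv => win_big hea hy0 hd hv) (fun w hw => win_small hStr hw)
  set lp : Vec N := fun v => lam (T v true) with hlp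
  set lm : Vec N := fun v => lam (T v false) with hlmdef
  have hlp0 : ∀ v, 0 ≤ lp v := fun v => (hlpos _).le
  have hlm0 : ∀ v, 0 ≤ lm v := fun v => (hlpos _).le
  have hy1 : ‖castV y1‖ ≤ 2 * ‖castV y0‖ := by
    have e : castV y1 = castV (y1 - y0) + castV y0 := by rw [win_cast_sub]; abel
    have := norm_add_le (castV (y1 - y0)) (castV y0)
    rw [← e] at this
    nlinarith
  have hz : θ * ztotal lp lm (y0, y1) ≤ ea / 2 * ‖castV y0‖ := by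
    have h1 := win_ztotal_le hlmax.le hlp0 hlm0 (fun v => (hl _).2) (fun v => (hl _).2) y0 y1
    have h2 : ztotal lp lm (y0, y1) ≤ N * (lmax * (3 * ‖castV y0‖)) := by
      refine h1.trans (mul_le_mul_of_nonneg_left (mul_le_mul_of_nonneg_left ?_ hlmax.le) hn.le)
      linarith
    calc θ * ztotal lp lm (y0, y1) ≤ θ * (N * (lmax * (3 * ‖castV y0‖))) :=
          mul_le_mul_of_nonneg_left h2 hθ.le
      _ = θ * (6 * N * lmax) * (‖castV y0‖ / 2) := by ring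
      _ ≤ ea * (‖castV y0‖ / 2) := mul_le_mul_of_nonneg_right t2 (by positivity)
      _ = ea / 2 * ‖castV y0‖ := by ring
  have hnn : ⌊θ * ztotal lp lm (y0, y1)⌋₊ ≤ ⌊ea / 2 * ‖castV y0‖⌋₊ := Nat.floor_mono hz
  refine ⟨⌊θ * ztotal lp lm (y0, y1)⌋₊, ?_⟩
  rw [hit _ hnn]
  have hfin := hconc' ε hε lp lm (fun v => ⟨(hl _).1, (hl _).2, (hl _).1, (hl _).2⟩) y0 y1 hne
    hInC (by nlinarith) hY
  refine le_trans ?_ hfin
  refine win_iter_mono ε hlp0 hlm0 (fun s => ?_) _ _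
  by_cases hG : GZ ε lmin lmax C0 θ lp lm ⌊θ * ztotal lp lm (y0, y1)⌋₊ y0 y1 s
  · rw [if_pos hG, if_pos]
    obtain ⟨g1, g2, g3, g4, g5, g6⟩ := hG
    have hs : ∀ v, ea * ‖castV y0‖ < |(y0 v : ℝ)| → 0 < s.1 v * y0 v ∧ 0 < s.2 v * y0 v := by
      intro v hv
      obtain ⟨b1, b2, b3⟩ := win_big hea hy0 hd hv
      have a1 : 0 < s.1 v * y0 v := win_sgn (lt_of_le_of_lt ((g6 v).1.trans hnn) b1)
      have a2 : 0 < s.2 v * y1 v := win_sgn (lt_of_le_of_lt ((g6 v).2.trans hnn) b2)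
      exact ⟨a1, win_sgn_trans a2 b3⟩
    obtain ⟨r1, r2, r3⟩ := hrep s.1 s.2 hs
    refine ⟨s.1, s.2, r1, r2, r3, g1, ?_, ?_, g4, g5⟩
    · rw [← hT0, fv_cfgT_pr, fv_cfgT_pr]
      exact g2
    · rw [← hT1, fv_cfgT_pr, fv_cfgT_pr]
      exact g3
  · rw [if_neg hG]
    split_ifs
    · exact zero_le_one
    · exact le_rfl

alias win := win_pr

end Pool.Agent.Lib_helper10.CU
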