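import Pool.Agent.Lib_helper10.CU.START
import Pool.Agent.Lib_helper10.CU.STRUCT
import Pool.Agent.Lib_helper10.CU.S3
import Pool.Agent.Lib_helper10.CU.DET
import Pool.Agent.Lib_helper10.CU.GROW
import Pool.Agent.Lib_helper10.CU.LYAP
import Pool.Agent.Lib_helper10.CU.GAP
import Pool.Agent.Lib_helper10.CU.REPB
import Pool.Agent.Lib_helper10.CU.WIN
import Pool.Agent.Lib_helper10.CU.SEL
import Pool.Agent.Lib_helper10.CU.INIT2

set_option autoImplicit false
open scoped BigOperators Topology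
open Filter
noncomputable section

namespace Pool.Agent.Lib_helper10.CU

/-! ## KEY, part A : real arithmetic and small facts -/

theorem key_castV_sub {N : ℕ} (a b : ZV N) : castV (a - b) = castV a - castV b := by
  funext v; simp [castV]

theorem key_castV_ne {N : ℕ} {a b : ZV N} (h : a ≠ b) : castV a - castV b ≠ 0 := by
  intro h0
  apply h
  funext v
  have := congrFun h0 v
  simp only [castV, Pi.sub_apply, Pi.zero_apply] at this
  exact_mod_cast sub_eq_zero.1 this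

theorem key_l1_nonneg {N : ℕ} [NeZero N] (x : Vec N) : 0 ≤ l1 x :=
  Finset.sum_nonneg (fun v _ => abs_nonneg (x v))

theorem key_norm_le_l1 {N : ℕ} [NeZero N] (x : Vec N) : ‖x‖ ≤ l1 x := by
  rw [pi_norm_le_iff_of_nonneg (key_l1_nonneg x)]
  intro v
  rw [Real.norm_eq_abs]
  exact Finset.single_le_sum (f := fun v => |x v|) (fun v _ => abs_nonneg _) (Finset.mem_univ v)

theorem key_l1_le {N : ℕ} [NeZero N] (x : Vec N) : l1 x ≤ N * ‖x‖ := by
  unfold l1
  calc (∑ v, |x v|) ≤ ∑ _v : ZMod N, ‖x‖ := Finset.sum_le_sum (fun v _ => norm_le_pi_norm x v)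
    _ = N * ‖x‖ := by
      rw [Finset.sum_const, Finset.card_univ, ZMod.card, nsmul_eq_mul]

theorem key_nb_norm {N : ℕ} [NeZero N] (ε : Vec N) (hε : IsSgn ε) (x : Vec N) :
    ‖nb ε x‖ ≤ 2 * ‖x‖ := by
  rw [pi_norm_le_iff_of_nonneg (by positivity)]
  intro v
  unfold nb
  have h1 : ∀ w, |ε w| = 1 := by
    intro w
    rcases hε w with h | h <;> rw [h] <;> norm_num
  rw [Real.norm_eq_abs]
  calc |ε (v - 1) * x (v - 1) + ε v * x (v + 1)|
      ≤ |ε (v - 1) * x (v - 1)| + |ε v * x (v + 1)| := abs_add_le _ _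
    _ = |x (v - 1)| + |x (v + 1)| := by rw [abs_mul, abs_mul, h1, h1]; ring
    _ ≤ ‖x‖ + ‖x‖ := add_le_add (norm_le_pi_norm x _) (norm_le_pi_norm x _)
    _ = 2 * ‖x‖ := by ring

/-- from the functional `J` to near-criticality -/
theorem key_J_near {R d ρ δ η κ : ℝ} (h1 : ρ - 3 / 2 * δ ≤ R - κ * η ^ 2 * max (d - η) 0)
    (h2 : R ≤ ρ + δ / 2) (hκ : 0 < κ) (hη : 0 < η) (hδ : 2 * δ ≤ κ * η ^ 3) :
    d ≤ 2 * η ∧ ρ - 3 / 2 * δ ≤ R := by
  have hk : 0 < κ * η ^ 2 := by positivity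
  have h3 : κ * η ^ 2 * max (d - η) 0 ≤ κ * η ^ 2 * η := by nlinarith
  have h4 : max (d - η) 0 ≤ η := le_of_mul_le_mul_left h3 hk
  have h5 : 0 ≤ κ * η ^ 2 * max (d - η) 0 := mul_nonneg hk.le (le_max_right _ _)
  refine ⟨?_, by linarith⟩
  have := le_max_left (d - η) 0
  linarith

/-- the functional `J` stays above the threshold -/
theorem key_J_step {R d R' d' ρ δ η κ c1 L θ ηd : ℝ} (hd : 0 ≤ d)
    (hJ : ρ - 3 / 2 * δ ≤ R - κ * η ^ 2 * max (d - η) 0)
    (hR : R + c1 * θ * d ^ 2 - L * θ ^ 2 ≤ R') (hd' : |d' - d| ≤ L * θ)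
    (hgap : ρ - 2 * δ ≤ R → R ≤ ρ - δ → ηd ≤ d)
    (hκ : κ = c1 / (16 * L)) (hc1 : 0 < c1) (hL : 0 < L) (hη : 0 < η) (hδ : 0 < δ)
    (hηd : 0 < ηd) (hθ : 0 < θ)
    (t1 : L * θ ≤ η / 8) (t2 : L * θ ^ 2 ≤ δ / 4) (t3 : L * θ ≤ c1 * ηd ^ 2)
    (t4 : L * θ ≤ c1 * η ^ 2 / 16) :
    ρ - 3 / 2 * δ ≤ R' - κ * η ^ 2 * max (d' - η) 0 := by
  have hκ0 : 0 < κ := by rw [hκ]; positivity
  have hk : 0 < κ * η ^ 2 := by positivity
  have hm0 : 0 ≤ κ * η ^ 2 * max (d - η) 0 := mul_nonneg hk.le (le_max_right _ _)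
  have hd1 := (abs_le.1 hd').1
  have hd2 := (abs_le.1 hd').2
  by_cases hcase : d < η - L * θ
  · -- small defect
    have hmax : max (d' - η) 0 = 0 := max_eq_right (by linarith)
    rw [hmax, mul_zero, sub_zero]
    by_cases hR1 : R ≤ ρ - δ
    · have hg := hgap (by linarith) hR1
      have h2 : ηd ^ 2 ≤ d ^ 2 := pow_le_pow_left₀ hηd.le hg 2
      have h3 : L * θ ^ 2 ≤ c1 * θ * d ^ 2 := by
        calc L * θ ^ 2 = (L * θ) * θ := by ring
          _ ≤ (c1 * ηd ^ 2) * θ := mul_le_mul_of_nonneg_right t3 hθ.le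
          _ ≤ (c1 * d ^ 2) * θ := by
            apply mul_le_mul_of_nonneg_right _ hθ.le
            exact mul_le_mul_of_nonneg_left h2 hc1.le
          _ = c1 * θ * d ^ 2 := by ring
      linarith
    · push Not at hR1
      have : 0 ≤ c1 * θ * d ^ 2 := by positivity
      linarith
  · push Not at hcase
    have hd3 : η / 2 ≤ d := by linarith
    have h2 : (η / 2) ^ 2 ≤ d ^ 2 := pow_le_pow_left₀ (by linarith) hd3 2
    have h3 : c1 * θ * (η ^ 2 / 4) ≤ c1 * θ * d ^ 2 := by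
      apply mul_le_mul_of_nonneg_left _ (by positivity)
      nlinarith
    have h4 : L * θ ^ 2 ≤ c1 * θ * η ^ 2 / 16 := by
      calc L * θ ^ 2 = (L * θ) * θ := by ring
        _ ≤ (c1 * η ^ 2 / 16) * θ := mul_le_mul_of_nonneg_right t4 hθ.le
        _ = c1 * θ * η ^ 2 / 16 := by ring
    have h5 : max (d' - η) 0 ≤ max (d - η) 0 + L * θ := by
      apply max_le
      · have := le_max_left (d - η) 0
        linarith
      · have := le_max_right (d - η) 0
        have : 0 < L * θ := by positivity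
        linarith [le_max_right (d - η) 0]
    have h6 : κ * η ^ 2 * max (d' - η) 0 ≤ κ * η ^ 2 * max (d - η) 0 + κ * η ^ 2 * (L * θ) := by
      rw [← mul_add]
      exact mul_le_mul_of_nonneg_left h5 hk.le
    have h7 : κ * η ^ 2 * (L * θ) = c1 * θ * η ^ 2 / 16 := by
      rw [hκ]; field_simp
    have h8 : 0 < c1 * θ * η ^ 2 := by positivity
    nlinarith

/-- near-criticality as an approximate eigenvector equation -/
theorem key_eig {N : ℕ} [NeZero N] (ε y f : Vec N) (ρ δ η : ℝ) (hy : y ≠ 0)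
    (h1 : df ε y f ≤ 2 * η) (h2 : |RR ε y f - ρ| ≤ 3 / 2 * δ) (h3 : 3 / 2 * δ ≤ η) :
    ‖nb ε f - ρ • y‖ ≤ 3 * η * ‖y‖ := by
  have hy0 : 0 < ‖y‖ := norm_pos_iff.2 hy
  have e1 : ‖nb ε f - RR ε y f • y‖ ≤ 2 * η * ‖y‖ := by
    unfold df at h1
    rwa [div_le_iff₀ hy0] at h1
  have e2 : nb ε f - ρ • y = (nb ε f - RR ε y f • y) + (RR ε y f - ρ) • y := by
    rw [sub_smul]; abel
  rw [e2]
  calc ‖(nb ε f - RR ε y f • y) + (RR ε y f - ρ) • y‖
      ≤ ‖nb ε f - RR ε y f • y‖ + ‖(RR ε y f - ρ) • y‖ := norm_add_le _ _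
    _ ≤ 2 * η * ‖y‖ + η * ‖y‖ := by
      refine add_le_add e1 ?_
      rw [norm_smul, Real.norm_eq_abs]
      exact mul_le_mul_of_nonneg_right (h2.trans h3) hy0.le
    _ = 3 * η * ‖y‖ := by ring

/-- tail sums -/
theorem key_rest (q : ℝ) (hq0 : 0 < q) (hq1 : q < 1) (n : ℕ) (hn : 0 < n) :
    Summable (fun k : ℕ => q ^ (k / n - 1)) := by
  set r : ℝ := q ^ ((1 : ℝ) / n) with hr
  have hn' : (0 : ℝ) < n := by exact_mod_cast hn
  have hr0 : 0 < r := Real.rpow_pos_of_pos hq0 _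
  have hr1 : r < 1 := Real.rpow_lt_one hq0.le hq1 (by positivity)
  have hrn : r ^ n = q := by
    rw [hr, ← Real.rpow_natCast, ← Real.rpow_mul hq0.le]
    rw [one_div, inv_mul_cancel₀ hn'.ne', Real.rpow_one]
  have hsum : Summable (fun k : ℕ => r ^ k / q ^ 2) :=
    (summable_geometric_of_lt_one hr0.le hr1).div_const _
  refine Summable.of_nonneg_of_le (fun k => by positivity) (fun k => ?_) hsum
  have h1 : q ^ (k / n) ≤ r ^ k / q := by
    rw [le_div_iff₀ hq0]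
    calc q ^ (k / n) * q = r ^ (n * (k / n)) * r ^ n := by rw [pow_mul, hrn]
      _ ≤ r ^ (n * (k / n)) * r ^ (k % n) := by
        apply mul_le_mul_of_nonneg_left _ (by positivity)
        exact pow_le_pow_of_le_one hr0.le hr1.le (Nat.mod_lt k hn).le
      _ = r ^ k := by rw [← pow_add, Nat.div_add_mod]
  have h2 : q ^ (k / n - 1) ≤ q ^ (k / n) / q := by
    rw [le_div_iff₀ hq0]
    rcases Nat.eq_zero_or_pos (k / n) with h | h
    · rw [h]; simp; exact hq1.le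
    · rw [← pow_succ, Nat.sub_add_cancel h]
  calc q ^ (k / n - 1) ≤ q ^ (k / n) / q := h2
    _ ≤ (r ^ k / q) / q := by
      apply div_le_div_of_nonneg_right h1 hq0.le
    _ = r ^ k / q ^ 2 := by rw [div_div, sq]

/-- `lmin`, `lmax` -/
theorem key_minmax {K : ℕ} (lam : Fin K → ℝ) (hl : ∀ j, 0 < lam j) :
    ∃ lmin lmax : ℝ, 0 < lmin ∧ lmin ≤ lmax ∧ ∀ j, lmin ≤ lam j ∧ lam j ≤ lmax := by
  rcases isEmpty_or_nonempty (Fin K) with h | h
  · exact ⟨1, 1, one_pos, le_rfl, fun j => (h.false j).elim⟩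
  · obtain ⟨a, _, ha⟩ := Finset.exists_min_image Finset.univ lam Finset.univ_nonempty
    obtain ⟨b, _, hb⟩ := Finset.exists_max_image Finset.univ lam Finset.univ_nonempty
    exact ⟨lam a, lam b, hl a, ha b (Finset.mem_univ b),
      fun j => ⟨ha j (Finset.mem_univ j), hb j (Finset.mem_univ j)⟩⟩

end Pool.Agent.Lib_helper10.CU
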