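import Pool.Agent.Lib_helper10.CU.KeyA

set_option autoImplicit false
open scoped BigOperators Topology
open Filter
noncomputable section

namespace Pool.Agent.Lib_helper10.CU

/-! ## KEY, part B : one step of the pair -/

/-- the invariant of a pair -/
structure Inv {N K : ℕ} [NeZero N] (lam : Fin K → ℝ) (m : ℕ) (ρ δ η κ ea c0 rest : ℝ)
    (s : Cfg N K × Cfg N K) (a b : ZV N) : Prop where
  r0 : Rep (epsm m) s.1 a
  r1 : Rep (epsm m) s.2 b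
  lk : Link s.1 s.2 a b
  p0 : 0 < size s.1
  p1 : 0 < size s.2
  hU : UU lam m s / c0 + rest < 1
  nC : ¬ InC (castV (epsm m)) (castV a)
  hC : InC (castV (epsm m)) (castV (b - a))
  ne : b ≠ a
  sm : ‖castV (b - a)‖ ≤ ea / 4 * ‖castV a‖
  J0 : ρ - 3 / 2 * δ ≤ RR (castV (epsm m)) (castV a) (fv lam s.1 a) -
    κ * η ^ 2 * max (df (castV (epsm m)) (castV a) (fv lam s.1 a) - η) 0
  J1 : ρ - 3 / 2 * δ ≤ RR (castV (epsm m)) (castV b) (fv lam s.2 b) -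
    κ * η ^ 2 * max (df (castV (epsm m)) (castV b) (fv lam s.2 b) - η) 0

/-- all constants and the facts about them -/
structure KP {N K : ℕ} [NeZero N] (lam : Fin K → ℝ) (m : ℕ)
    (lmin lmax ρ δ η κ ea η0 η1 C0 c1 L θ Cθ Yθ ηd c0 : ℝ) (M : ℕ) : Prop where
  hN : 3 ≤ N
  hm : 2 ≤ m
  hlp : ∀ j, 0 < lam j
  h0 : 0 < lmin
  hlm : lmin ≤ lmax
  hl : ∀ j, lmin ≤ lam j ∧ lam j ≤ lmax
  hρ : |ρ| ≤ 2 * lmax
  hδ : 0 < δ
  hη : 0 < η
  hκ : κ = c1 / (16 * L)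
  hea : 0 < ea
  hea8 : ea ≤ 1 / 8
  hC0 : 0 < C0
  hc1 : 0 < c1
  hL : 0 < L
  hθ : 0 < θ
  hc0 : 0 < c0
  hηd : 0 < ηd
  k1 : 3 * η ≤ η0
  k2 : 6 * η ≤ η1
  k3 : 2 * δ ≤ κ * η ^ 3
  k4 : 3 / 2 * δ ≤ η
  k5 : L * θ ≤ η / 8
  k6 : L * θ ^ 2 ≤ δ / 4
  k7 : L * θ ≤ c1 * ηd ^ 2
  k8 : L * θ ≤ c1 * η ^ 2 / 16
  k9 : L * θ ≤ ea
  k10 : θ * (2 * lmax + 3 * C0) ≤ 1
  k11 : θ ≤ 1
  kM : N * Yθ ≤ M
  struct : ∀ (z f : Vec N) (ρ : ℝ), Rg lmin lmax z f → |ρ| ≤ 4 * lmax → z ≠ 0 →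
      ‖nb (castV (epsm m)) f - ρ • z‖ ≤ η0 * ‖z‖ →
      Str (castV (epsm m)) ea z ∧ ∀ x : Vec N, ‖x - z‖ ≤ ea * ‖z‖ →
        (InC (castV (epsm m)) x ↔ InC (castV (epsm m)) z)
  notwo : ∀ (y0 y1 f0 f1 : Vec N) (ρ : ℝ), y0 ≠ 0 →
      Rg lmin lmax y0 f0 →
      (∀ a : ℝ, 0 ≤ a → ∀ w, ∃ g, lmin ≤ g ∧ g ≤ lmax ∧
        f0 w - a * (f1 w - f0 w) = g * (y0 w - a * (y1 w - y0 w))) →
      Rg lmin lmax (y1 - y0) (f1 - f0) → |ρ| ≤ 4 * lmax →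
      ‖nb (castV (epsm m)) f0 - ρ • y0‖ ≤ η1 * ‖y0‖ →
      ‖nb (castV (epsm m)) f1 - ρ • y1‖ ≤ η1 * ‖y0‖ →
      ¬ InC (castV (epsm m)) y0 → InC (castV (epsm m)) (y1 - y0) →
      ea / 4 * ‖y0‖ ≤ ‖y1 - y0‖ → ‖y1 - y0‖ ≤ ‖y0‖ → False
  win : ∀ (c0 c1 : Cfg N K) (y0 y1 : ZV N), Rep (epsm m) c0 y0 → Rep (epsm m) c1 y1 →
      Link c0 c1 y0 y1 →
      Str (castV (epsm m)) ea (castV y0) → y1 ≠ y0 →
      InC (castV (epsm m)) (castV (y1 - y0)) →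
      ‖castV (y1 - y0)‖ ≤ ea / 2 * ‖castV y0‖ → Yθ ≤ ‖castV y0‖ →
      ∃ n : ℕ, ((PP lam)^[n] (fun s' => open Classical in
        if ∃ y0' y1', GW lam (epsm m) lmin lmax C0 θ c0 c1 y0 y1 s' y0' y1' then (0 : ℝ) else 1))
          (c0, c1) ≤ Cθ / ‖castV (y1 - y0)‖
  lyap : ∀ y f y' f' : Vec N, y ≠ 0 → Rg lmin lmax y f →
      Rg lmin lmax y' f' → LT (castV (epsm m)) lmin lmax C0 θ y f y' f' →
      RR (castV (epsm m)) y f + c1 * θ * (df (castV (epsm m)) y f) ^ 2 - L * θ ^ 2 ≤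
        RR (castV (epsm m)) y' f' ∧
      |df (castV (epsm m)) y' f' - df (castV (epsm m)) y f| ≤ L * θ ∧
      |RR (castV (epsm m)) y' f' - RR (castV (epsm m)) y f| ≤ L * θ ∧
      ‖y' - y‖ ≤ L * θ * ‖y‖ ∧ y' ≠ 0
  gap : ∀ (D : ZMod N → Fin K) (y : Vec N) (R : ℝ), ρ - 2 * δ ≤ R → R ≤ ρ - δ →
      ηd * ‖y‖ ≤ ‖nb (castV (epsm m)) (fun v => lam (D v) * y v) - R • y‖
  pers : ∀ c : Cfg N K, 1 - c0 ≤ qq lam m c → Rc lam c ≤ ρ + δ / 2 ∧ M < size c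

section
variable {N K : ℕ} [NeZero N] {lam : Fin K → ℝ} {m : ℕ}
  {lmin lmax ρ δ η κ ea η0 η1 C0 c1 L θ Cθ Yθ ηd c0 : ℝ} {M : ℕ}

theorem key_Rg (P : KP (N := N) lam m lmin lmax ρ δ η κ ea η0 η1 C0 c1 L θ Cθ Yθ ηd c0 M)
    (c : Cfg N K) (y : ZV N) (h : Rep (epsm m) c y) (hc : 0 < size c) :
    Rg lmin lmax (castV y) (fv lam c y) := by
  obtain ⟨D, hD⟩ := rep_D lam (epsm m) c y h hc
  intro w
  exact ⟨lam (D w), (P.hl _).1, (P.hl _).2, by rw [hD]⟩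

theorem key_gap (P : KP (N := N) lam m lmin lmax ρ δ η κ ea η0 η1 C0 c1 L θ Cθ Yθ ηd c0 M)
    (c : Cfg N K) (y : ZV N) (h : Rep (epsm m) c y) (hc : 0 < size c) (hy : castV y ≠ 0)
    (h1 : ρ - 2 * δ ≤ RR (castV (epsm m)) (castV y) (fv lam c y))
    (h2 : RR (castV (epsm m)) (castV y) (fv lam c y) ≤ ρ - δ) :
    ηd ≤ df (castV (epsm m)) (castV y) (fv lam c y) := by
  obtain ⟨D, hD⟩ := rep_D lam (epsm m) c y h hc
  have hy0 : 0 < ‖castV y‖ := norm_pos_iff.2 hy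
  have := P.gap D (castV y) _ h1 h2
  unfold df
  rw [le_div_iff₀ hy0]
  rw [← hD] at this
  exact this

theorem key_nonzero (P : KP (N := N) lam m lmin lmax ρ δ η κ ea η0 η1 C0 c1 L θ Cθ Yθ ηd c0 M)
    (c : Cfg N K) (y : ZV N) (h : Rep (epsm m) c y) (hc : 0 < size c) : castV y ≠ 0 := by
  intro h0
  have := (rep_size (epsm m) c y h).1
  rw [h0, norm_zero, mul_zero] at this
  have h2 : (0 : ℝ) < size c := by exact_mod_cast hc
  linarith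

/-- near-critical facts of one copy -/
theorem key_nc (P : KP (N := N) lam m lmin lmax ρ δ η κ ea η0 η1 C0 c1 L θ Cθ Yθ ηd c0 M)
    (c : Cfg N K) (y : ZV N) (h : Rep (epsm m) c y) (hc : 0 < size c)
    (hq : 1 - c0 ≤ qq lam m c)
    (hJ : ρ - 3 / 2 * δ ≤ RR (castV (epsm m)) (castV y) (fv lam c y) -
      κ * η ^ 2 * max (df (castV (epsm m)) (castV y) (fv lam c y) - η) 0) :
    ‖nb (castV (epsm m)) (fv lam c y) - ρ • castV y‖ ≤ 3 * η * ‖castV y‖ ∧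
      Yθ ≤ ‖castV y‖ := by
  have hκ : 0 < κ := by rw [P.hκ]; have := P.hc1; have := P.hL; positivity
  have hR := (P.pers c hq).1
  rw [← rep_RR P.hN lam (epsm m) (epsm_sgn m) c y h] at hR
  obtain ⟨h1, h2⟩ := key_J_near hJ hR hκ P.hη P.k3
  refine ⟨key_eig _ _ _ ρ δ η (key_nonzero P c y h hc) h1 ?_ P.k4, ?_⟩
  · rw [abs_le]
    have := P.hδ
    constructor <;> linarith
  · have h3 : (M : ℝ) < size c := by exact_mod_cast (P.pers c hq).2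
    have h4 := (rep_size (epsm m) c y h).1
    have h5 : (N : ℝ) * Yθ < N * ‖castV y‖ := by linarith [P.kM]
    have h6 : (0 : ℝ) < N := by
      have := P.hN
      exact_mod_cast (by omega : 0 < N)
    exact (lt_of_mul_lt_mul_left h5 h6.le).le

theorem key_UU (P : KP (N := N) lam m lmin lmax ρ δ η κ ea η0 η1 C0 c1 L θ Cθ Yθ ηd c0 M)
    (s : Cfg N K × Cfg N K) (rest : ℝ) (hr : 0 ≤ rest) (h : UU lam m s / c0 + rest < 1) :
    1 - c0 ≤ qq lam m s.1 ∧ 1 - c0 ≤ qq lam m s.2 := by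
  have h1 : UU lam m s / c0 < 1 := by linarith
  rw [div_lt_one P.hc0] at h1
  unfold UU at h1
  have h2 : qq lam m s.1 ≤ 1 := qA_le_one lam P.hlp _ _
  have h3 : qq lam m s.2 ≤ 1 := qA_le_one lam P.hlp _ _
  constructor <;> linarith

open Classical in
theorem key_step (P : KP (N := N) lam m lmin lmax ρ δ η κ ea η0 η1 C0 c1 L θ Cθ Yθ ηd c0 M)
    (s : Cfg N K × Cfg N K) (a b : ZV N) (f rest : ℝ) (hf : 0 ≤ f) (hr : 0 ≤ rest)
    (hI : Inv lam m ρ δ η κ ea c0 (f + rest) s a b)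
    (hfb : Cθ / ‖castV (b - a)‖ ≤ f) :
    ∃ (s' : Cfg N K × Cfg N K) (a' b' : ZV N), Inv lam m ρ δ η κ ea c0 rest s' a' b' ∧
      GW lam (epsm m) lmin lmax C0 θ s.1 s.2 a b s' a' b' := by
  have hε : IsSgn (castV (epsm m : ZV N)) := castV_sgn _ (epsm_sgn m)
  obtain ⟨hq0, hq1⟩ := key_UU P s (f + rest) (by linarith) hI.hU
  obtain ⟨e0, Y0⟩ := key_nc P s.1 a hI.r0 hI.p0 hq0 hI.J0
  obtain ⟨e1, Y1⟩ := key_nc P s.2 b hI.r1 hI.p1 hq1 hI.J1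
  have za := key_nonzero P s.1 a hI.r0 hI.p0
  have zb := key_nonzero P s.2 b hI.r1 hI.p1
  have za0 : 0 < ‖castV a‖ := norm_pos_iff.2 za
  have hlmax : 0 < lmax := lt_of_lt_of_le P.h0 P.hlm
  have hρ4 : |ρ| ≤ 4 * lmax := by linarith [P.hρ]
  have Ra := key_Rg P s.1 a hI.r0 hI.p0
  have Rb := key_Rg P s.2 b hI.r1 hI.p1
  obtain ⟨hStr, hCC⟩ := P.struct (castV a) _ ρ Ra hρ4 za
    (e0.trans (mul_le_mul_of_nonneg_right P.k1 za0.le))
  have hsm2 : ‖castV (b - a)‖ ≤ ea / 2 * ‖castV a‖ := by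
    refine hI.sm.trans (mul_le_mul_of_nonneg_right ?_ za0.le)
    linarith [P.hea]
  obtain ⟨n, hn⟩ := P.win s.1 s.2 a b hI.r0 hI.r1 hI.lk hStr hI.ne hI.hC hsm2 Y0
  obtain ⟨s', ⟨a', b', hG⟩, p0', p1', hU'⟩ := select P.hN lam P.hlp m s ⟨hI.p0, hI.p1⟩ n
    (fun s' => ∃ y0' y1', GW lam (epsm m) lmin lmax C0 θ s.1 s.2 a b s' y0' y1') f rest c0
    P.hc0 hr (hn.trans hfb) (by have := hI.hU; linarith)
  refine ⟨s', a', b', ?_, hG⟩
  obtain ⟨r0', r1', lk', wt, lt0, lt1, hC', hl1⟩ := hG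
  have Ra' := key_Rg P s'.1 a' r0' p0'
  have Rb' := key_Rg P s'.2 b' r1' p1'
  obtain ⟨A1, A2, A3, A4, A5⟩ := P.lyap _ _ _ _ za Ra Ra' lt0
  obtain ⟨B1, B2, B3, B4, B5⟩ := P.lyap _ _ _ _ zb Rb Rb' lt1
  have J0' := key_J_step (norm_nonneg _ |> fun h => div_nonneg h (norm_nonneg _)) hI.J0 A1 A2
    (fun x y => key_gap P s.1 a hI.r0 hI.p0 za x y) P.hκ P.hc1 P.hL P.hη P.hδ P.hηd P.hθ
    P.k5 P.k6 P.k7 P.k8
  have J1' := key_J_step (norm_nonneg _ |> fun h => div_nonneg h (norm_nonneg _)) hI.J1 B1 B2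
    (fun x y => key_gap P s.2 b hI.r1 hI.p1 zb x y) P.hκ P.hc1 P.hL P.hη P.hδ P.hηd P.hθ
    P.k5 P.k6 P.k7 P.k8
  obtain ⟨hq0', hq1'⟩ := key_UU P s' rest hr hU'
  obtain ⟨e0', Y0'⟩ := key_nc P s'.1 a' r0' p0' hq0' J0'
  obtain ⟨e1', Y1'⟩ := key_nc P s'.2 b' r1' p1' hq1' J1'
  have nC' : ¬ InC (castV (epsm m)) (castV a') := by
    rw [hCC (castV a') (A4.trans (mul_le_mul_of_nonneg_right P.k9 za0.le))]
    exact hI.nC
  have ne' : b' ≠ a' := by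
    intro hba
    rw [hba, sub_self] at hl1
    have h1 : l1 (castV (0 : ZV N)) = 0 := by simp [l1, castV]
    rw [h1] at hl1
    have h2 := key_norm_le_l1 (castV (b - a))
    have h3 : castV (b - a) ≠ 0 := by
      rw [key_castV_sub]; exact key_castV_ne hI.ne
    have h4 : 0 < ‖castV (b - a)‖ := norm_pos_iff.2 h3
    linarith
  -- size of the new difference
  have hh : ‖castV (b' - a')‖ ≤ 2 * ‖castV (b - a)‖ := by
    obtain ⟨φ, γ, w1, w2, w3, w4⟩ := wt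
    have hγ : ‖γ‖ ≤ (lmax + C0 * θ) * ‖castV (b - a)‖ := by
      rw [pi_norm_le_iff_of_nonneg (by have := P.hC0; have := P.hθ; positivity)]
      intro w
      obtain ⟨g, g1, g2, g3⟩ := w4 w
      rw [Real.norm_eq_abs]
      have h5 : |g * castV (b - a) w| ≤ lmax * ‖castV (b - a)‖ := by
        rw [abs_mul, abs_of_nonneg (P.h0.le.trans g1)]
        exact mul_le_mul g2 (norm_le_pi_norm (castV (b - a)) w) (abs_nonneg _) hlmax.le
      calc |γ w| = |(γ w - g * castV (b - a) w) + g * castV (b - a) w| := by ring_nf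
        _ ≤ |γ w - g * castV (b - a) w| + |g * castV (b - a) w| := abs_add_le _ _
        _ ≤ C0 * θ * ‖castV (b - a)‖ + lmax * ‖castV (b - a)‖ := add_le_add g3 h5
        _ = (lmax + C0 * θ) * ‖castV (b - a)‖ := by ring
    have h6 : ‖nb (castV (epsm m)) γ‖ ≤ 2 * ((lmax + C0 * θ) * ‖castV (b - a)‖) :=
      (key_nb_norm _ hε γ).trans (by linarith)
    have h7 : castV (b' - a') = castV (b - a) + θ • nb (castV (epsm m)) γ +
        (castV (b' - a') - castV (b - a) - θ • nb (castV (epsm m)) γ) := by abel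
    rw [h7]
    have h8 : ‖θ • nb (castV (epsm m)) γ‖ ≤ θ * (2 * ((lmax + C0 * θ) * ‖castV (b - a)‖)) := by
      rw [norm_smul, Real.norm_eq_abs, abs_of_pos P.hθ]
      exact mul_le_mul_of_nonneg_left h6 P.hθ.le
    have hnn := norm_nonneg (castV (b - a))
    have h9 : θ * (2 * ((lmax + C0 * θ) * ‖castV (b - a)‖)) + C0 * θ ^ 2 * ‖castV (b - a)‖ ≤
        ‖castV (b - a)‖ := by
      have e : θ * (2 * ((lmax + C0 * θ) * ‖castV (b - a)‖)) + C0 * θ ^ 2 * ‖castV (b - a)‖ =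
          (θ * (2 * lmax + 3 * C0 * θ)) * ‖castV (b - a)‖ := by ring
      rw [e]
      have h10 : θ * (2 * lmax + 3 * C0 * θ) ≤ 1 := by
        refine le_trans (mul_le_mul_of_nonneg_left ?_ P.hθ.le) P.k10
        have := mul_le_mul_of_nonneg_left P.k11 (by have := P.hC0; positivity : 0 ≤ 3 * C0)
        linarith
      calc (θ * (2 * lmax + 3 * C0 * θ)) * ‖castV (b - a)‖ ≤ 1 * ‖castV (b - a)‖ :=
            mul_le_mul_of_nonneg_right h10 hnn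
        _ = _ := one_mul _
    calc _ ≤ ‖castV (b - a) + θ • nb (castV (epsm m)) γ‖ +
          ‖castV (b' - a') - castV (b - a) - θ • nb (castV (epsm m)) γ‖ := norm_add_le _ _
      _ ≤ (‖castV (b - a)‖ + ‖θ • nb (castV (epsm m)) γ‖) + C0 * θ ^ 2 * ‖castV (b - a)‖ :=
          add_le_add (norm_add_le _ _) w2
      _ ≤ 2 * ‖castV (b - a)‖ := by linarith
  have hya : ‖castV a‖ ≤ 2 * ‖castV a'‖ := by
    have h1 : ‖castV a‖ ≤ ‖castV a'‖ + ‖castV a' - castV a‖ := by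
      have := norm_sub_le (castV a') (castV a' - castV a)
      rwa [sub_sub_cancel] at this
    have h2 : ‖castV a' - castV a‖ ≤ 1 / 8 * ‖castV a‖ :=
      A4.trans (mul_le_mul_of_nonneg_right (P.k9.trans P.hea8) za0.le)
    linarith
  have hh2 : ‖castV (b' - a')‖ ≤ ea * ‖castV a'‖ := by
    calc ‖castV (b' - a')‖ ≤ 2 * ‖castV (b - a)‖ := hh
      _ ≤ 2 * (ea / 4 * ‖castV a‖) := by linarith [hI.sm]
      _ ≤ 2 * (ea / 4 * (2 * ‖castV a'‖)) := by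
        have := P.hea
        gcongr
      _ = ea * ‖castV a'‖ := by ring
  have za' := key_nonzero P s'.1 a' r0' p0'
  have za0' : 0 < ‖castV a'‖ := norm_pos_iff.2 za'
  have hh3 : ‖castV (b' - a')‖ ≤ ‖castV a'‖ := by
    calc ‖castV (b' - a')‖ ≤ ea * ‖castV a'‖ := hh2
      _ ≤ 1 * ‖castV a'‖ := mul_le_mul_of_nonneg_right (by linarith [P.hea8]) za0'.le
      _ = _ := one_mul _
  have sm' : ‖castV (b' - a')‖ ≤ ea / 4 * ‖castV a'‖ := by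
    by_contra hcon
    push Not at hcon
    have hb' : ‖castV b'‖ ≤ 2 * ‖castV a'‖ := by
      have h1 : castV b' = castV a' + castV (b' - a') := by rw [key_castV_sub]; abel
      rw [h1]
      have := norm_add_le (castV a') (castV (b' - a'))
      linarith
    refine P.notwo (castV a') (castV b') (fv lam s'.1 a') (fv lam s'.2 b') ρ za' Ra' ?_ ?_ hρ4
      ?_ ?_ nC' ?_ ?_ ?_
    · intro t ht w
      exact (link_slope lam lmin lmax P.h0 P.hl P.hlm (epsm m) s'.1 s'.2 a' b' r0' r1' lk' w).2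
        t ht
    · intro w
      obtain ⟨g, g1, g2, g3, _⟩ := (link_slope lam lmin lmax P.h0 P.hl P.hlm (epsm m) s'.1 s'.2
        a' b' r0' r1' lk' w).1
      exact ⟨g, g1, g2, g3⟩
    · refine e0'.trans (mul_le_mul_of_nonneg_right ?_ za0'.le)
      linarith [P.k2, P.hη]
    · refine e1'.trans ?_
      calc 3 * η * ‖castV b'‖ ≤ 3 * η * (2 * ‖castV a'‖) :=
            mul_le_mul_of_nonneg_left hb' (by linarith [P.hη])
        _ = 6 * η * ‖castV a'‖ := by ring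
        _ ≤ η1 * ‖castV a'‖ := mul_le_mul_of_nonneg_right P.k2 za0'.le
    · rw [← key_castV_sub]; exact hC'
    · rw [← key_castV_sub]; exact hcon.le
    · rw [← key_castV_sub]; exact hh3
  exact ⟨r0', r1', lk', p0', p1', hU', nC', hC', ne', sm', J0', J1'⟩

end

end Pool.Agent.Lib_helper10.CU
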