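import Pool.Agent.Lib_helper10.CU.KeyB

set_option autoImplicit false
open scoped BigOperators Topology
open Filter
noncomputable section

namespace Pool.Agent.Lib_helper10.CU

/-! ## KEY, part C : paths of every length -/

section
variable {N K : ℕ} [NeZero N] {lam : Fin K → ℝ} {m : ℕ}
  {lmin lmax ρ δ η κ ea η0 η1 C0 c1 L θ Cθ Yθ ηd c0 : ℝ} {M : ℕ}

theorem key_path (P : KP (N := N) lam m lmin lmax ρ δ η κ ea η0 η1 C0 c1 L θ Cθ Yθ ηd c0 M)
    (cg : ℝ) (hcg : 0 < cg) (n : ℕ)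
    (hgrow : ∀ (J : ℕ) (h γ : ℕ → Vec N),
      (∀ k ≤ J, InC (castV (epsm m)) (h k) ∧ h k ≠ 0) →
      (∀ k < J, l1 (h k) ≤ l1 (h (k + 1)) ∧
        ‖h (k + 1) - h k - θ • nb (castV (epsm m)) (γ k)‖ ≤ C0 * θ ^ 2 * ‖h k‖ ∧
        ∀ w, ∃ g, lmin ≤ g ∧ g ≤ lmax ∧ |γ k w - g * h k w| ≤ C0 * θ * ‖h k‖) →
      ∀ k ≤ J, l1 (h 0) * (1 + cg * θ) ^ (k / n - 1) ≤ l1 (h k))
    (hCθ : 0 < Cθ) (L0 : ℕ) (hL0 : 1 ≤ L0) (f rest : ℕ → ℝ)
    (hf : ∀ k, f k = Cθ * N / (L0 * (1 + cg * θ) ^ (k / n - 1)))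
    (hrest : ∀ k, rest k = f k + rest (k + 1)) (hr0 : ∀ k, 0 ≤ rest k)
    (s0 : Cfg N K × Cfg N K) (a0 b0 : ZV N)
    (hI : Inv lam m ρ δ η κ ea c0 (rest 0) s0 a0 b0) (hn0 : ‖castV (b0 - a0)‖ = L0) (J : ℕ) :
    ∃ (s : ℕ → Cfg N K × Cfg N K) (a b : ℕ → ZV N), s 0 = s0 ∧ a 0 = a0 ∧ b 0 = b0 ∧
      (∀ k ≤ J, Inv lam m ρ δ η κ ea c0 (rest k) (s k) (a k) (b k)) ∧
      ∀ k < J, GW lam (epsm m) lmin lmax C0 θ (s k).1 (s k).2 (a k) (b k) (s (k + 1))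
        (a (k + 1)) (b (k + 1)) := by
  induction J with
  | zero =>
    refine ⟨fun _ => s0, fun _ => a0, fun _ => b0, rfl, rfl, rfl, ?_, ?_⟩
    · intro k hk
      obtain rfl : k = 0 := by omega
      exact hI
    · intro k hk; omega
  | succ J ih =>
    obtain ⟨s, a, b, e1, e2, e3, h1, h2⟩ := ih
    have hγ : ∀ k, ∃ γ : Vec N, k < J →
        (‖castV (b (k + 1) - a (k + 1)) - castV (b k - a k) - θ • nb (castV (epsm m)) γ‖ ≤
          C0 * θ ^ 2 * ‖castV (b k - a k)‖ ∧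
        ∀ w, ∃ g, lmin ≤ g ∧ g ≤ lmax ∧
          |γ w - g * castV (b k - a k) w| ≤ C0 * θ * ‖castV (b k - a k)‖) := by
      intro k
      by_cases hk : k < J
      · obtain ⟨_, _, _, ⟨φ, γ, w1, w2, w3, w4⟩, _⟩ := h2 k hk
        exact ⟨γ, fun _ => ⟨w2, w4⟩⟩
      · exact ⟨0, fun h => absurd h hk⟩
    choose γ hγ using hγ
    have hg := hgrow J (fun k => castV (b k - a k)) γ ?_ ?_ J le_rfl
    · -- the step
      have hJ := h1 J le_rfl
      have hl1 : l1 (castV (b 0 - a 0)) * (1 + cg * θ) ^ (J / n - 1) ≤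
          l1 (castV (b J - a J)) := hg
      have hq : 0 < (1 + cg * θ) ^ (J / n - 1) := by have := P.hθ; positivity
      have hL0' : (0 : ℝ) < L0 := by exact_mod_cast hL0
      have hN0 : (0 : ℝ) < N := by
        have := P.hN
        exact_mod_cast (by omega : 0 < N)
      have hlow : (L0 : ℝ) * (1 + cg * θ) ^ (J / n - 1) ≤ N * ‖castV (b J - a J)‖ := by
        calc (L0 : ℝ) * (1 + cg * θ) ^ (J / n - 1)
            ≤ l1 (castV (b 0 - a 0)) * (1 + cg * θ) ^ (J / n - 1) := by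
              apply mul_le_mul_of_nonneg_right _ hq.le
              rw [← hn0, e2, e3]
              exact key_norm_le_l1 _
          _ ≤ l1 (castV (b J - a J)) := hl1
          _ ≤ N * ‖castV (b J - a J)‖ := key_l1_le _
      have hpos : 0 < ‖castV (b J - a J)‖ := by
        have : 0 < (N : ℝ) * ‖castV (b J - a J)‖ := lt_of_lt_of_le (by positivity) hlow
        exact (mul_pos_iff_of_pos_left hN0).1 this
      have hfb : Cθ / ‖castV (b J - a J)‖ ≤ f J := by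
        rw [hf, div_le_div_iff₀ hpos (by positivity)]
        calc Cθ * (L0 * (1 + cg * θ) ^ (J / n - 1)) ≤ Cθ * (N * ‖castV (b J - a J)‖) :=
              mul_le_mul_of_nonneg_left hlow hCθ.le
          _ = Cθ * N * ‖castV (b J - a J)‖ := by ring
      have hf0 : 0 ≤ f J := by rw [hf]; positivity
      rw [hrest J] at hJ
      obtain ⟨s', a', b', hI', hG'⟩ := key_step P (s J) (a J) (b J) (f J) (rest (J + 1)) hf0
        (hr0 _) hJ hfb
      refine ⟨fun k => if k ≤ J then s k else s', fun k => if k ≤ J then a k else a',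
        fun k => if k ≤ J then b k else b', by simp [e1], by simp [e2], by simp [e3], ?_, ?_⟩
      · intro k hk
        by_cases hkJ : k ≤ J
        · simp only [hkJ, if_true]; exact h1 k hkJ
        · obtain rfl : k = J + 1 := by omega
          simp only [hkJ, if_false]; exact hI'
      · intro k hk
        by_cases hkJ : k < J
        · have hk1 : k ≤ J := hkJ.le
          have hk2 : k + 1 ≤ J := hkJ
          simp only [hk1, hk2, if_true]; exact h2 k hkJ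
        · obtain rfl : k = J := by omega
          have hk2 : ¬ (k + 1 ≤ k) := by omega
          simp only [le_refl, hk2, if_true, if_false]; exact hG'
    · intro k hk
      have := h1 k hk
      refine ⟨this.hC, ?_⟩
      rw [key_castV_sub]; exact key_castV_ne this.ne
    · intro k hk
      obtain ⟨_, _, _, _, _, _, _, hl⟩ := h2 k hk
      exact ⟨hl, hγ k hk⟩

theorem key_contra (P : KP (N := N) lam m lmin lmax ρ δ η κ ea η0 η1 C0 c1 L θ Cθ Yθ ηd c0 M)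
    (cg : ℝ) (hcg : 0 < cg) (n : ℕ)
    (hgrow : ∀ (J : ℕ) (h γ : ℕ → Vec N),
      (∀ k ≤ J, InC (castV (epsm m)) (h k) ∧ h k ≠ 0) →
      (∀ k < J, l1 (h k) ≤ l1 (h (k + 1)) ∧
        ‖h (k + 1) - h k - θ • nb (castV (epsm m)) (γ k)‖ ≤ C0 * θ ^ 2 * ‖h k‖ ∧
        ∀ w, ∃ g, lmin ≤ g ∧ g ≤ lmax ∧ |γ k w - g * h k w| ≤ C0 * θ * ‖h k‖) →
      ∀ k ≤ J, l1 (h 0) * (1 + cg * θ) ^ (k / n - 1) ≤ l1 (h k))
    (hdet : ∀ A : ℝ, 0 < A → ∃ J : ℕ, ∀ y h : ℕ → Vec N,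
      (∀ k ≤ J, (∀ x, InC (castV (epsm m)) x → ea * ‖y k‖ ≤ ‖x - y k‖) ∧
        InC (castV (epsm m)) (h k) ∧ h k ≠ 0 ∧ ‖h k‖ ≤ ‖y k‖) →
      (∀ k < J, WT (castV (epsm m)) lmin lmax C0 θ (y k) (h k) (y (k + 1)) (h (k + 1))) →
      ‖y 0‖ ≤ A * ‖h 0‖ → False)
    (hCθ : 0 < Cθ) (L0 : ℕ) (hL0 : 1 ≤ L0) (f rest : ℕ → ℝ)
    (hf : ∀ k, f k = Cθ * N / (L0 * (1 + cg * θ) ^ (k / n - 1)))
    (hrest : ∀ k, rest k = f k + rest (k + 1)) (hr0 : ∀ k, 0 ≤ rest k)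
    (s0 : Cfg N K × Cfg N K) (a0 b0 : ZV N)
    (hI : Inv lam m ρ δ η κ ea c0 (rest 0) s0 a0 b0) (hn0 : ‖castV (b0 - a0)‖ = L0) :
    False := by
  have hL0' : (0 : ℝ) < L0 := by exact_mod_cast hL0
  have za0 : 0 < ‖castV a0‖ := norm_pos_iff.2 (key_nonzero P s0.1 a0 hI.r0 hI.p0)
  obtain ⟨J, hJ⟩ := hdet (‖castV a0‖ / L0) (by positivity)
  obtain ⟨s, a, b, e1, e2, e3, h1, h2⟩ := key_path P cg hcg n hgrow hCθ L0 hL0 f rest hf hrest
    hr0 s0 a0 b0 hI hn0 J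
  refine hJ (fun k => castV (a k)) (fun k => castV (b k - a k)) ?_ ?_ ?_
  · intro k hk
    have hk' := h1 k hk
    have za := key_nonzero P (s k).1 (a k) hk'.r0 hk'.p0
    have za0 : 0 < ‖castV (a k)‖ := norm_pos_iff.2 za
    obtain ⟨hq0, hq1⟩ := key_UU P (s k) _ (hr0 k) hk'.hU
    obtain ⟨e0, Y0⟩ := key_nc P (s k).1 (a k) hk'.r0 hk'.p0 hq0 hk'.J0
    have Ra := key_Rg P (s k).1 (a k) hk'.r0 hk'.p0
    have hlmax : 0 < lmax := lt_of_lt_of_le P.h0 P.hlm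
    obtain ⟨hStr, hCC⟩ := P.struct (castV (a k)) _ ρ Ra (by linarith [P.hρ]) za
      (e0.trans (mul_le_mul_of_nonneg_right P.k1 za0.le))
    refine ⟨?_, hk'.hC, ?_, ?_⟩
    · intro x hx
      by_contra hcon
      push Not at hcon
      exact hk'.nC ((hCC x hcon.le).1 hx)
    · rw [key_castV_sub]; exact key_castV_ne hk'.ne
    · refine hk'.sm.trans ?_
      calc ea / 4 * ‖castV (a k)‖ ≤ 1 * ‖castV (a k)‖ :=
            mul_le_mul_of_nonneg_right (by linarith [P.hea8]) za0.le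
        _ = _ := one_mul _
  · intro k hk
    exact (h2 k hk).2.2.2.1
  · simp only [e2, e3, hn0]
    rw [div_mul_cancel₀ _ hL0'.ne']

end

end Pool.Agent.Lib_helper10.CU
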