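import Pool.Agent.Lib_helper10.CU.KeyC

set_option autoImplicit false
open scoped BigOperators Topology
open Filter
noncomputable section

namespace Pool.Agent.Lib_helper10.CU

/-! ## KEY, part D : choice of the parameters -/

theorem key_min (l : List ℝ) (h : ∀ x ∈ l, 0 < x) : ∃ t : ℝ, 0 < t ∧ ∀ x ∈ l, t ≤ x := by
  induction l with
  | nil => exact ⟨1, one_pos, fun x hx => absurd hx (List.not_mem_nil)⟩
  | cons a l ih =>
    obtain ⟨t, ht, htl⟩ := ih (fun x hx => h x (List.mem_cons_of_mem _ hx))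
    refine ⟨min a t, lt_min (h a List.mem_cons_self) ht, ?_⟩
    intro x hx
    rcases List.mem_cons.1 hx with rfl | hx
    · exact min_le_left _ _
    · exact (min_le_right _ _).trans (htl x hx)

set_option maxHeartbeats 4000000 in
theorem key_pr {N K : ℕ} [NeZero N] (hN : 3 ≤ N) (lam : Fin K → ℝ) (hl : ∀ j, 0 < lam j)
    (m : ℕ) (hm : 2 ≤ m) : ∃ θ : ℝ, θ < 1 ∧ ∀ c : Cfg N K, qq lam m c ≤ θ := by
  classical
  by_contra hcon
  have H : ∀ θ : ℝ, θ < 1 → ∃ c : Cfg N K, θ < qq lam m c := by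
    intro θ hθ
    by_contra h
    push Not at h
    exact hcon ⟨θ, hθ, h⟩
  obtain ⟨lmin, lmax, h0, hlm, hll⟩ := key_minmax lam hl
  have hlmax : 0 < lmax := lt_of_lt_of_le h0 hlm
  have hε : IsSgn (castV (epsm m : ZV N)) := castV_sgn _ (epsm_sgn m)
  have hN0 : (0 : ℝ) < N := by exact_mod_cast (by omega : 0 < N)
  obtain ⟨ρ, hρ, S1, S2⟩ := exists_rho hN lam lmin lmax h0 hlm hll m H
  obtain ⟨η0, hη0, ea, hea, hea8, Hstruct⟩ := struct hN lmin lmax h0 hlm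
  obtain ⟨η1, hη1, Hnotwo⟩ := no_two hN lmin lmax h0 hlm (ea / 4) (by positivity)
  obtain ⟨C0, hC0, Hwin⟩ := win hN lam lmin lmax h0 hlm hll
  obtain ⟨θw, hθw, Hwin⟩ := Hwin ea hea hea8
  obtain ⟨θd, hθd, Hdet⟩ := det hN lmin lmax h0 hlm C0 ea hC0 hea
  obtain ⟨cg, hcg, θg, hθg, Hgrow⟩ := grow hN lmin lmax h0 hlm C0 hC0
  obtain ⟨c1, hc1, L, hL, θl, hθl, Hlyap⟩ := lyap hN lmin lmax h0 hlm C0 hC0
  obtain ⟨Lp, hLp, τ0, hτ0, Hlip⟩ := lip hN lmin lmax h0 hlm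
  obtain ⟨ηr, hηr, Hrep⟩ := rep_exists hN lam lmin lmax h0 hlm hll
  obtain ⟨δ0, hδ0, Hgap⟩ := gap hN lam hl ρ
  -- η, κ, δ
  obtain ⟨η, hη, hηa, hηb⟩ : ∃ η : ℝ, 0 < η ∧ η ≤ η0 / 8 ∧ η ≤ η1 / 8 :=
    ⟨min (η0 / 8) (η1 / 8), lt_min (by positivity) (by positivity), min_le_left _ _,
      min_le_right _ _⟩
  obtain ⟨κ, hκ⟩ : ∃ κ : ℝ, κ = c1 / (16 * L) := ⟨_, rfl⟩
  have hκ0 : 0 < κ := by rw [hκ]; positivity
  obtain ⟨δ, hδ, hδa, hδb, hδc⟩ : ∃ δ : ℝ, 0 < δ ∧ δ ≤ δ0 ∧ δ ≤ κ * η ^ 3 / 2 ∧ δ ≤ η / 2 :=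
    ⟨min δ0 (min (κ * η ^ 3 / 2) (η / 2)), lt_min hδ0 (lt_min (by positivity) (by positivity)),
      min_le_left _ _, (min_le_right _ _).trans (min_le_left _ _),
      (min_le_right _ _).trans (min_le_right _ _)⟩
  obtain ⟨ηd, hηd, Hgap⟩ := Hgap δ hδ hδa
  -- θ
  obtain ⟨θ, hθ, tw, td, tg, tl, t5, t6, t7, t8, t9, t10, t11⟩ : ∃ θ : ℝ, 0 < θ ∧ θ ≤ θw ∧
      θ ≤ θd ∧ θ ≤ θg ∧ θ ≤ θl ∧ θ ≤ η / 8 / L ∧ θ ≤ δ / 4 / L ∧ θ ≤ c1 * ηd ^ 2 / L ∧
      θ ≤ c1 * η ^ 2 / 16 / L ∧ θ ≤ ea / L ∧ θ ≤ 1 / (2 * lmax + 3 * C0) ∧ θ ≤ 1 := by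
    obtain ⟨θ, hθ, hθl⟩ := key_min [θw, θd, θg, θl, η / 8 / L, δ / 4 / L, c1 * ηd ^ 2 / L,
      c1 * η ^ 2 / 16 / L, ea / L, 1 / (2 * lmax + 3 * C0), 1] (by
        simp only [List.forall_mem_cons, List.not_mem_nil, false_imp_iff, implies_true, and_true]
        refine ⟨hθw, hθd, hθg, hθl, ?_, ?_, ?_, ?_, ?_, ?_, ?_⟩ <;> positivity)
    simp only [List.forall_mem_cons, List.not_mem_nil, false_imp_iff, implies_true,
      and_true] at hθl
    exact ⟨θ, hθ, hθl⟩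
  have hn1 : ∃ n : ℕ, 0 < n ∧ 1 ≤ n * θ ∧ n * θ ≤ 2 := by
    refine ⟨⌈1 / θ⌉₊, Nat.ceil_pos.2 (by positivity), ?_, ?_⟩
    · have := Nat.le_ceil (1 / θ)
      rwa [div_le_iff₀ hθ] at this
    · have := Nat.ceil_lt_add_one (a := 1 / θ) (by positivity)
      have h2 : (⌈1 / θ⌉₊ : ℝ) * θ ≤ (1 / θ + 1) * θ := mul_le_mul_of_nonneg_right this.le hθ.le
      have h3 : (1 / θ + 1) * θ = 1 + θ := by field_simp
      linarith
  obtain ⟨n, hn0, hn1, hn2⟩ := hn1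
  obtain ⟨Cθ, hCθ, Yθ, hYθ, Hwin⟩ := Hwin θ hθ tw
  have Hdet := Hdet θ hθ td
  have Hgrow := Hgrow (castV (epsm m)) hε θ hθ tg n hn1 hn2
  have Hlyap := Hlyap θ hθ tl (castV (epsm m)) hε
  -- the sum of the failure probabilities
  have hq : 0 < 1 + cg * θ := by positivity
  have hsum : Summable (fun k : ℕ => (1 / (1 + cg * θ)) ^ (k / n - 1)) := by
    refine key_rest _ (by positivity) ?_ n hn0
    rw [div_lt_one hq]
    have : 0 < cg * θ := by positivity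
    linarith
  obtain ⟨L0, hL0, hL0b⟩ : ∃ L0 : ℕ, 1 ≤ L0 ∧
      2 * (Cθ * N * ∑' k : ℕ, (1 / (1 + cg * θ)) ^ (k / n - 1)) ≤ L0 := by
    obtain ⟨a, ha⟩ := exists_nat_ge (2 * (Cθ * N * ∑' k : ℕ, (1 / (1 + cg * θ)) ^ (k / n - 1)))
    exact ⟨a + 1, by omega, by push_cast; linarith⟩
  have hL0' : (0 : ℝ) < L0 := by exact_mod_cast hL0
  obtain ⟨f, hf⟩ : ∃ f : ℕ → ℝ, ∀ k, f k = Cθ * N / (L0 * (1 + cg * θ) ^ (k / n - 1)) :=
    ⟨_, fun k => rfl⟩
  have hfS : ∀ k, f k = (Cθ * N / L0) * (1 / (1 + cg * θ)) ^ (k / n - 1) := by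
    intro k
    rw [hf, one_div, inv_pow]
    field_simp
  have hfsum : Summable f := by
    have : f = fun k => (Cθ * N / L0) * (1 / (1 + cg * θ)) ^ (k / n - 1) := funext hfS
    rw [this]
    exact hsum.mul_left _
  have hf0 : ∀ k, 0 ≤ f k := by intro k; rw [hf]; positivity
  obtain ⟨rest, hrest⟩ : ∃ rest : ℕ → ℝ, ∀ k, rest k = ∑' i, f (i + k) := ⟨_, fun k => rfl⟩
  have hr0 : ∀ k, 0 ≤ rest k := by
    intro k; rw [hrest]; exact tsum_nonneg (fun i => hf0 _)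
  have hrs : ∀ k, rest k = f k + rest (k + 1) := by
    intro k
    rw [hrest, hrest]
    have h1 : Summable (fun i => f (i + k)) := (summable_nat_add_iff k).2 hfsum
    rw [h1.tsum_eq_zero_add]
    congr 1
    · simp
    · refine tsum_congr (fun i => ?_)
      congr 1
      ring
  have hrest0 : rest 0 ≤ 1 / 2 := by
    rw [hrest]
    simp only [add_zero]
    have : f = fun k => (Cθ * N / L0) * (1 / (1 + cg * θ)) ^ (k / n - 1) := funext hfS
    rw [this, tsum_mul_left, div_mul_eq_mul_div, div_le_iff₀ hL0']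
    linarith
  -- the second copy, persistence threshold
  obtain ⟨Y1, hY1, p, hp, Hinit⟩ := init_two hN lam lmin lmax h0 hlm hll ea hea hea8 L0 hL0
  obtain ⟨M, hM⟩ := exists_nat_ge (N * Yθ)
  obtain ⟨ca, hca, Hca⟩ := S1 (δ / 2) (by positivity)
  obtain ⟨cb, hcb, Hcb⟩ := size_large hN lam hl m hm M
  obtain ⟨c0, hc0, hc0a, hc0b⟩ : ∃ c0 : ℝ, 0 < c0 ∧ c0 ≤ ca ∧ c0 ≤ cb :=
    ⟨min ca cb, lt_min hca hcb, min_le_left _ _, min_le_right _ _⟩
  have P : KP (N := N) lam m lmin lmax ρ δ η κ ea η0 η1 C0 c1 L θ Cθ Yθ ηd c0 M := by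
    refine ⟨hN, hm, hl, h0, hlm, hll, hρ, hδ, hη, hκ, hea, hea8, hC0, hc1, hL, hθ, hc0, hηd,
      by linarith, by linarith, by linarith, by linarith, ?_, ?_, ?_, ?_, ?_, ?_, t11, hM,
      Hstruct _ hε, Hnotwo _ hε, ?_, Hlyap, ?_, ?_⟩
    · rw [le_div_iff₀ hL] at t5; linarith
    · rw [le_div_iff₀ hL] at t6
      calc L * θ ^ 2 = θ * (θ * L) := by ring
        _ ≤ 1 * (θ * L) := mul_le_mul_of_nonneg_right t11 (by positivity)
        _ ≤ δ / 4 := by linarith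
    · rw [le_div_iff₀ hL] at t7; linarith
    · rw [le_div_iff₀ hL] at t8; linarith
    · rw [le_div_iff₀ hL] at t9; linarith
    · rwa [le_div_iff₀ (by positivity)] at t10
    · intro c0 c1 y0 y1 a1 a2 a3 a4 a5 a6 a7 a8
      exact Hwin (epsm m) (epsm_sgn m) c0 c1 y0 y1 a1 a2 a3 a4 a5 a6 a7 a8
    · intro D y R h1 h2
      exact Hgap _ hε D y R h1 h2
    · intro c hc
      exact ⟨Hca c (by linarith), Hcb c (by linarith)⟩
  -- the starting configuration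
  obtain ⟨τ, hτ, hτa, hτb⟩ : ∃ τ : ℝ, 0 < τ ∧ τ ≤ τ0 ∧ τ ≤ min (δ / 2) (η / 4) / Lp :=
    ⟨min τ0 (min (δ / 2) (η / 4) / Lp), lt_min hτ0 (div_pos (lt_min (by positivity)
      (by positivity)) hLp), min_le_left _ _, min_le_right _ _⟩
  have hτc : Lp * τ ≤ δ / 2 := by
    rw [le_div_iff₀ hLp] at hτb
    have := min_le_left (δ / 2) (η / 4)
    linarith
  have hτd : Lp * τ ≤ η / 4 := by
    rw [le_div_iff₀ hLp] at hτb
    have := min_le_right (δ / 2) (η / 4)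
    linarith
  obtain ⟨M2, hM2⟩ := exists_nat_ge (N * (Y1 + 4 * L0 / ea + (1 + lmax) * L0 / τ + 1))
  obtain ⟨ηs, hηs, hηs1, hηs2⟩ : ∃ ηs : ℝ, 0 < ηs ∧ ηs ≤ ηr ∧ N * ηs ≤ η / 2 := by
    refine ⟨min ηr (η / 2 / N), lt_min hηr (by positivity), min_le_left _ _, ?_⟩
    calc N * min ηr (η / 2 / N) ≤ N * (η / 2 / N) :=
          mul_le_mul_of_nonneg_left (min_le_right _ _) hN0.le
      _ = η / 2 := by field_simp
  obtain ⟨c, hcm, hcq, hcR, hcd, hcM⟩ := start hN lam lmin lmax h0 hlm hll m hm ρ S1 S2 (δ / 2)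
    ηs (c0 / (4 * (p + 1))) (by positivity) hηs (by positivity) (M2 + 1)
  have hcs : 0 < size c := by omega
  obtain ⟨y, hy, hyC, hydf⟩ := Hrep m hm ηs hηs hηs1 c hcm hcs hcd
  have hysize : (M2 : ℝ) ≤ N * ‖castV y‖ := by
    have h1 := (rep_size (epsm m) c y hy).1
    have h2 : ((M2 + 1 : ℕ) : ℝ) ≤ size c := by exact_mod_cast hcM
    push_cast at h2
    linarith
  have hyb : Y1 + 4 * L0 / ea + (1 + lmax) * L0 / τ + 1 ≤ ‖castV y‖ :=
    le_of_mul_le_mul_left (hM2.trans hysize) hN0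
  have hp1 : 0 ≤ 4 * L0 / ea := by positivity
  have hp2 : 0 ≤ (1 + lmax) * L0 / τ := by positivity
  have hy0 : 0 < ‖castV y‖ := by linarith
  have hyne : castV y ≠ 0 := norm_pos_iff.1 hy0
  have Ry := key_Rg P c y hy hcs
  -- structure of `y`
  have hRlow : ρ - δ / 2 ≤ RR (castV (epsm m)) (castV y) (fv lam c y) := by
    rw [rep_RR hN lam (epsm m) (epsm_sgn m) c y hy]; exact hcR
  have hdfy : df (castV (epsm m)) (castV y) (fv lam c y) ≤ η / 2 := hydf.trans hηs2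
  have hqc : 1 - c0 ≤ qq lam m c := by
    refine le_trans ?_ hcq
    have : c0 / (4 * (p + 1)) ≤ c0 := by
      rw [div_le_iff₀ (by positivity)]
      nlinarith
    linarith
  have hJy : ρ - 3 / 2 * δ ≤ RR (castV (epsm m)) (castV y) (fv lam c y) -
      κ * η ^ 2 * max (df (castV (epsm m)) (castV y) (fv lam c y) - η) 0 := by
    rw [max_eq_right (by linarith)]
    linarith
  obtain ⟨ey, _⟩ := key_nc P c y hy hcs hqc hJy
  obtain ⟨hStr, _⟩ := P.struct (castV y) _ ρ Ry (by linarith [hρ]) hyne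
    (ey.trans (mul_le_mul_of_nonneg_right P.k1 hy0.le))
  obtain ⟨cc1, y1, g1, g2, g3, g4, g5, g6, g7⟩ := Hinit (epsm m) (epsm_sgn m) m c y hcm hy hStr
    (by linarith)
  have Ry1 := key_Rg P cc1 y1 g1 g7
  have hdist : ‖castV y1 - castV y‖ = L0 := by rw [← key_castV_sub]; exact g5
  have hLτ : (1 + lmax) * L0 ≤ τ * ‖castV y‖ := by
    have : (1 + lmax) * L0 / τ ≤ ‖castV y‖ := by linarith
    rw [div_le_iff₀ hτ] at this
    linarith
  have hlip := Hlip τ hτ.le hτa (castV (epsm m)) hε (castV y) (fv lam c y) (castV y1)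
    (fv lam cc1 y1) hyne Ry Ry1 (by
      rw [hdist]
      have : 0 ≤ lmax * L0 := by positivity
      linarith) (by
      intro w
      obtain ⟨g, b1, b2, b3, b4⟩ := (link_slope lam lmin lmax h0 hll hlm (epsm m) c cc1 y y1
        hy g1 g2 w).1
      refine ⟨g, b1, b2, b3, b4.trans ?_⟩
      have h1 : |castV y1 w - castV y w| ≤ L0 := by
        rw [← hdist]
        exact norm_le_pi_norm (castV y1 - castV y) w
      calc lmax * |castV y1 w - castV y w| ≤ lmax * L0 :=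
            mul_le_mul_of_nonneg_left h1 hlmax.le
        _ ≤ τ * ‖castV y‖ := by linarith)
  obtain ⟨i1, i2, _⟩ := hlip
  have hJ1 : ρ - 3 / 2 * δ ≤ RR (castV (epsm m)) (castV y1) (fv lam cc1 y1) -
      κ * η ^ 2 * max (df (castV (epsm m)) (castV y1) (fv lam cc1 y1) - η) 0 := by
    have j1 := (abs_le.1 i1).1
    have j2 := (abs_le.1 i2).2
    rw [max_eq_right (by linarith)]
    linarith
  -- conclusion
  refine key_contra P cg hcg n Hgrow (fun A hA => ?_) hCθ L0 hL0 f rest hf hrs hr0 (c, cc1) y y1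
    ⟨hy, g1, g2, hcs, g7, ?_, hyC, g4, g3, ?_, hJy, hJ1⟩ g5
  · obtain ⟨J, hJ⟩ := Hdet A hA
    exact ⟨J, hJ _ hε⟩
  · -- initial deficiency
    have hU : UU lam m (c, cc1) ≤ c0 / 4 := by
      unfold UU
      have h1 : 1 - qq lam m c ≤ c0 / (4 * (p + 1)) := by linarith
      calc (1 - qq lam m c) + (1 - qq lam m cc1) ≤ (1 - qq lam m c) + p * (1 - qq lam m c) :=
            by linarith
        _ = (p + 1) * (1 - qq lam m c) := by ring
        _ ≤ (p + 1) * (c0 / (4 * (p + 1))) := mul_le_mul_of_nonneg_left h1 (by positivity)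
        _ = c0 / 4 := by field_simp
    have h2 : UU lam m (c, cc1) / c0 ≤ 1 / 4 := by
      rw [div_le_iff₀ hc0]; linarith
    linarith
  · rw [g5]
    have : 4 * L0 / ea ≤ ‖castV y‖ := by linarith
    rw [div_le_iff₀ hea] at this
    linarith

end Pool.Agent.Lib_helper10.CU
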