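import Pool.Agent.Lib_helper10.CU.INCB

-- block MARGIN written by helper54
/-! Block MARGIN (cites inC_fire, inC_change_unique of block INCB). -/

set_option autoImplicit false
open scoped BigOperators Topology
open Filter
noncomputable section

namespace Pool.Agent.Lib_helper10.CU

theorem margin_two {N : ℕ} (hN : 3 ≤ N) : (2 : ZMod N) ≠ 0 ∧ (1 : ZMod N) ≠ 0 := by
  have h2 : ((2 : ℕ) : ZMod N) ≠ 0 := by
    intro h
    rw [ZMod.natCast_eq_zero_iff] at h
    have := Nat.le_of_dvd (by norm_num) h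
    omega
  have h1 : ((1 : ℕ) : ZMod N) ≠ 0 := by
    intro h
    rw [ZMod.natCast_eq_zero_iff] at h
    have := Nat.le_of_dvd (by norm_num) h
    omega
  exact ⟨by exact_mod_cast h2, by exact_mod_cast h1⟩

theorem margin_ne {N : ℕ} (hN : 3 ≤ N) (v : ZMod N) : v + 1 ≠ v - 1 ∧ v ≠ v + 1 ∧ v ≠ v - 1 := by
  obtain ⟨h2, h1⟩ := margin_two hN
  refine ⟨fun h => h2 ?_, fun h => h1 ?_, fun h => h1 ?_⟩
  · linear_combination h
  · linear_combination -h
  · linear_combination h

theorem margin_ring_le {N : ℕ} (hN : 3 ≤ N) (ε : Vec N) (hε : IsSgn ε) (v w : ZMod N) :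
    |ring ε v w| ≤ 1 := by
  obtain ⟨h1, h2, h3⟩ := margin_ne hN v
  have hs : ∀ u, |ε u| = 1 := fun u => by rcases hε u with h | h <;> rw [h] <;> norm_num
  unfold ring
  by_cases hw : w = v + 1
  · rw [if_pos hw, if_neg (fun h => h1 (hw.symm.trans h)), add_zero, hs]
  · rw [if_neg hw, zero_add]
    split_ifs
    · rw [hs]
    · norm_num

theorem margin_ring_self {N : ℕ} (hN : 3 ≤ N) (ε : Vec N) (v : ZMod N) : ring ε v v = 0 := by
  obtain ⟨h1, h2, h3⟩ := margin_ne hN v
  unfold ring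
  rw [if_neg h2, if_neg h3, add_zero]

/-- elementary firing of strength `θ g v` at `v` -/
def mgEl {N : ℕ} (ε g : Vec N) (θ : ℝ) (v : ZMod N) (y : Vec N) : Vec N :=
  y + ((θ * g v) * y v) • ring ε v

/-- firing at all vertices of a list -/
def mgStep {N : ℕ} (ε g : Vec N) (θ : ℝ) (l : List (ZMod N)) (y : Vec N) : Vec N :=
  l.foldr (fun v y => mgEl ε g θ v y) y

section
variable {N : ℕ} [NeZero N] (hN : 3 ≤ N) {lmin L : ℝ} (h0 : 0 < lmin) (ε : Vec N)
  (hε : IsSgn ε) (g : Vec N) (hg : ∀ w, lmin ≤ g w ∧ g w ≤ L) (θ : ℝ) (hθ : 0 ≤ θ)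

include hN h0 hε hg hθ

theorem margin_el_sub (v : ZMod N) (y : Vec N) : ‖mgEl ε g θ v y - y‖ ≤ θ * L * ‖y‖ := by
  have hg0 : 0 ≤ g v := h0.le.trans (hg v).1
  have hL : 0 ≤ L := hg0.trans (hg v).2
  rw [mgEl, add_sub_cancel_left]
  rw [pi_norm_le_iff_of_nonneg (by positivity)]
  intro w
  rw [Pi.smul_apply, smul_eq_mul, norm_mul, Real.norm_eq_abs, Real.norm_eq_abs, abs_mul, abs_mul,
    abs_of_nonneg hθ, abs_of_nonneg hg0]
  have h1 := margin_ring_le hN ε hε v w
  have h2 : |y v| ≤ ‖y‖ := norm_le_pi_norm y v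
  calc θ * g v * |y v| * |ring ε v w| ≤ θ * L * ‖y‖ * 1 := by
        gcongr
        exact (hg v).2
    _ = θ * L * ‖y‖ := by ring

theorem margin_el_le (v : ZMod N) (y : Vec N) : ‖mgEl ε g θ v y‖ ≤ (1 + θ * L) * ‖y‖ := by
  have h1 := margin_el_sub hN h0 ε hε g hg θ hθ v y
  have h2 : mgEl ε g θ v y = y + (mgEl ε g θ v y - y) := by abel
  rw [h2]
  refine (norm_add_le _ _).trans ?_
  linarith

theorem margin_el_ge (v : ZMod N) (y : Vec N) : ‖y‖ ≤ (1 + θ * L) * ‖mgEl ε g θ v y‖ := by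
  have hg0 : 0 ≤ g v := h0.le.trans (hg v).1
  have hL : 0 ≤ L := hg0.trans (hg v).2
  set y' := mgEl ε g θ v y with hy'
  have hv : y' v = y v := by
    rw [hy', mgEl, Pi.add_apply, Pi.smul_apply, margin_ring_self hN, smul_zero, add_zero]
  have e : y = y' - ((θ * g v) * y' v) • ring ε v := by
    rw [hv, hy', mgEl, add_sub_cancel_right]
  have h3 : ‖((θ * g v) * y' v) • ring ε v‖ ≤ θ * L * ‖y'‖ := by
    rw [pi_norm_le_iff_of_nonneg (by positivity)]
    intro w
    rw [Pi.smul_apply, smul_eq_mul, norm_mul, Real.norm_eq_abs, Real.norm_eq_abs, abs_mul, abs_mul,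
      abs_of_nonneg hθ, abs_of_nonneg hg0]
    have h1 := margin_ring_le hN ε hε v w
    have h2 : |y' v| ≤ ‖y'‖ := norm_le_pi_norm y' v
    calc θ * g v * |y' v| * |ring ε v w| ≤ θ * L * ‖y'‖ * 1 := by
          gcongr
          exact (hg v).2
      _ = θ * L * ‖y'‖ := by ring
  calc ‖y‖ = ‖y' - ((θ * g v) * y' v) • ring ε v‖ := by rw [← e]
    _ ≤ ‖y'‖ + ‖((θ * g v) * y' v) • ring ε v‖ := norm_sub_le _ _
    _ ≤ (1 + θ * L) * ‖y'‖ := by linarith

theorem margin_el_inC (v : ZMod N) (y : Vec N) (h : InC ε y) : InC ε (mgEl ε g θ v y) :=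
  inC_fire hN ε hε y h v (θ * g v) (mul_nonneg hθ (h0.le.trans (hg v).1))

theorem margin_step_inC (l : List (ZMod N)) (y : Vec N) (h : InC ε y) :
    InC ε (mgStep ε g θ l y) := by
  induction l with
  | nil => exact h
  | cons v l ih => exact margin_el_inC hN h0 ε hε g hg θ hθ v _ ih

theorem margin_step_le (l : List (ZMod N)) (y : Vec N) :
    ‖mgStep ε g θ l y‖ ≤ (1 + θ * L) ^ l.length * ‖y‖ := by
  have hL : 0 ≤ L := (h0.le.trans (hg 0).1).trans (hg 0).2
  induction l with
  | nil => simp [mgStep]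
  | cons v l ih =>
    have h1 := margin_el_le hN h0 ε hε g hg θ hθ v (mgStep ε g θ l y)
    have h2 : mgStep ε g θ (v :: l) y = mgEl ε g θ v (mgStep ε g θ l y) := rfl
    rw [h2, List.length_cons, pow_succ]
    calc _ ≤ (1 + θ * L) * ‖mgStep ε g θ l y‖ := h1
      _ ≤ (1 + θ * L) * ((1 + θ * L) ^ l.length * ‖y‖) := by gcongr
      _ = _ := by ring

theorem margin_step_ge (l : List (ZMod N)) (y : Vec N) :
    ‖y‖ ≤ (1 + θ * L) ^ l.length * ‖mgStep ε g θ l y‖ := by
  have hL : 0 ≤ L := (h0.le.trans (hg 0).1).trans (hg 0).2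
  induction l with
  | nil => simp [mgStep]
  | cons v l ih =>
    have h1 := margin_el_ge hN h0 ε hε g hg θ hθ v (mgStep ε g θ l y)
    have h2 : mgStep ε g θ (v :: l) y = mgEl ε g θ v (mgStep ε g θ l y) := rfl
    rw [h2, List.length_cons, pow_succ]
    calc _ ≤ (1 + θ * L) ^ l.length * ‖mgStep ε g θ l y‖ := ih
      _ ≤ (1 + θ * L) ^ l.length * ((1 + θ * L) * ‖mgEl ε g θ v (mgStep ε g θ l y)‖) := by gcongr
      _ = _ := by ring

theorem margin_step_sub (hθ1 : θ ≤ 1) (l : List (ZMod N)) (y : Vec N) :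
    ‖mgStep ε g θ l y - y‖ ≤ θ * (((1 + L) ^ l.length - 1) * ‖y‖) := by
  have hL : 0 ≤ L := (h0.le.trans (hg 0).1).trans (hg 0).2
  induction l with
  | nil => simp [mgStep]
  | cons v l ih =>
    have h1 := margin_el_sub hN h0 ε hε g hg θ hθ v (mgStep ε g θ l y)
    have h2 : mgStep ε g θ (v :: l) y = mgEl ε g θ v (mgStep ε g θ l y) := rfl
    have h3 := margin_step_le hN h0 ε hε g hg θ hθ l y
    have h4 : (1 + θ * L) ^ l.length ≤ (1 + L) ^ l.length := by
      apply pow_le_pow_left₀ (by positivity)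
      nlinarith
    have e : mgStep ε g θ (v :: l) y - y = (mgEl ε g θ v (mgStep ε g θ l y) - mgStep ε g θ l y) +
      (mgStep ε g θ l y - y) := by
      rw [h2]
      abel
    rw [e, List.length_cons, pow_succ]
    refine (norm_add_le _ _).trans ?_
    calc _ ≤ θ * L * ((1 + L) ^ l.length * ‖y‖) + θ * (((1 + L) ^ l.length - 1) * ‖y‖) := by
          refine add_le_add (h1.trans ?_) ih
          gcongr
          exact h3.trans (by gcongr)
      _ = _ := by ring

theorem margin_step_err (hθ1 : θ ≤ 1) (l : List (ZMod N)) (y : Vec N) :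
    ‖mgStep ε g θ l y - y - θ • (l.map (fun v => (g v * y v) • ring ε v)).sum‖ ≤
      θ ^ 2 * (l.length * (L * (1 + L) ^ l.length * ‖y‖)) := by
  have hL : 0 ≤ L := (h0.le.trans (hg 0).1).trans (hg 0).2
  induction l with
  | nil => simp [mgStep]
  | cons v l ih =>
    have hg0 : 0 ≤ g v := h0.le.trans (hg v).1
    have h2 : mgStep ε g θ (v :: l) y = mgEl ε g θ v (mgStep ε g θ l y) := rfl
    set P := mgStep ε g θ l y with hP
    have h3 := margin_step_sub hN h0 ε hε g hg θ hθ hθ1 l y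
    rw [← hP] at h3
    have e : mgStep ε g θ (v :: l) y - y -
        θ • ((v :: l).map (fun v => (g v * y v) • ring ε v)).sum =
        (P - y - θ • (l.map (fun v => (g v * y v) • ring ε v)).sum) +
        ((θ * g v) * (P v - y v)) • ring ε v := by
      rw [h2, mgEl, List.map_cons, List.sum_cons]
      module
    rw [e, List.length_cons]
    refine (norm_add_le _ _).trans ?_
    have h4 : ‖((θ * g v) * (P v - y v)) • ring ε v‖ ≤
        θ ^ 2 * (L * (1 + L) ^ l.length * ‖y‖) := by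
      rw [pi_norm_le_iff_of_nonneg (by positivity)]
      intro w
      rw [Pi.smul_apply, smul_eq_mul, norm_mul, Real.norm_eq_abs, Real.norm_eq_abs, abs_mul,
        abs_mul, abs_of_nonneg hθ, abs_of_nonneg hg0]
      have h1 := margin_ring_le hN ε hε v w
      have h5 : |P v - y v| ≤ θ * (((1 + L) ^ l.length - 1) * ‖y‖) :=
        (norm_le_pi_norm (P - y) v).trans h3
      have h6 : |P v - y v| ≤ θ * ((1 + L) ^ l.length * ‖y‖) := by
        refine h5.trans ?_
        gcongr
        linarith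
      calc θ * g v * |P v - y v| * |ring ε v w|
          ≤ θ * L * (θ * ((1 + L) ^ l.length * ‖y‖)) * 1 := by
            gcongr
            exact (hg v).2
        _ = _ := by ring
    have h5 : (1 + L) ^ l.length ≤ (1 + L) ^ (l.length + 1) :=
      pow_le_pow_right₀ (by linarith) (by omega)
    have h6 : θ ^ 2 * (l.length * (L * (1 + L) ^ l.length * ‖y‖)) ≤
        θ ^ 2 * (l.length * (L * (1 + L) ^ (l.length + 1) * ‖y‖)) := by gcongr
    have h7 : θ ^ 2 * (L * (1 + L) ^ l.length * ‖y‖) ≤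
        θ ^ 2 * (L * (1 + L) ^ (l.length + 1) * ‖y‖) := by gcongr
    push_cast
    calc _ ≤ θ ^ 2 * (l.length * (L * (1 + L) ^ l.length * ‖y‖)) +
          θ ^ 2 * (L * (1 + L) ^ l.length * ‖y‖) := add_le_add ih h4
      _ ≤ θ ^ 2 * (l.length * (L * (1 + L) ^ (l.length + 1) * ‖y‖)) +
          θ ^ 2 * (L * (1 + L) ^ (l.length + 1) * ‖y‖) := add_le_add h6 h7
      _ = _ := by ring

end

theorem margin_nb {N : ℕ} [NeZero N] (ε g y : Vec N) :
    ((Finset.univ : Finset (ZMod N)).toList.map (fun v => (g v * y v) • ring ε v)).sum =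
      nb ε (g * y) := by
  rw [Finset.sum_map_toList]
  funext w
  rw [Finset.sum_apply]
  unfold nb ring
  simp only [Pi.smul_apply, smul_eq_mul, Pi.mul_apply, mul_add, mul_ite, mul_zero]
  rw [Finset.sum_add_distrib]
  congr 1
  · rw [Finset.sum_eq_single (w - 1)]
    · rw [if_pos (by ring)]
      ring
    · intro b _ hb
      rw [if_neg]
      intro h
      exact hb (by rw [h]; ring)
    · intro h
      exact absurd (Finset.mem_univ _) h
  · rw [Finset.sum_eq_single (w + 1)]
    · rw [if_pos (by ring)]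
      rw [add_sub_cancel_right]
      ring
    · intro b _ hb
      rw [if_neg]
      intro h
      exact hb (by rw [h]; ring)
    · intro h
      exact absurd (Finset.mem_univ _) h


/-- exactly one change next to an isolated site between opposite transported signs -/
theorem margin_xor {a a' t : ℝ} (ha : a = 1 ∨ a = -1) (ha' : a' = 1 ∨ a' = -1) (ht : t = 1 ∨ t = -1)
    (h : a * a' < 0) : (t ≠ a ∨ t ≠ a') ∧ ¬ (t ≠ a ∧ t ≠ a') := by
  rcases ha with rfl | rfl <;> rcases ha' with rfl | rfl <;> rcases ht with rfl | rfl <;>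
    first | (exfalso; linarith) | norm_num

theorem margin_stable {N : ℕ} (ε Y x : Vec N) (hε : IsSgn ε) (hY : InC ε Y) (B : ZMod N → Prop)
    (hB : ∀ v, B v → 0 < Y v * x v)
    (hS : ∀ w, ¬ B w → B (w - 1) ∧ B (w + 1) ∧
      (ε (w - 1) * Y (w - 1)) * (ε w * Y (w + 1)) < 0) : InC ε x := by
  classical
  obtain ⟨s, hs, hsY, huniq⟩ := hY
  set s' : Vec N := fun v => if B v then s v else if 0 < x v then 1 else if x v < 0 then -1 else s v
    with hs'
  have hs'B : ∀ v, B v → s' v = s v := fun v hv => by simp only [hs', if_pos hv]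
  have hsg' : IsSgn s' := by
    intro v
    simp only [hs']
    split_ifs
    · exact hs v
    · exact Or.inl rfl
    · exact Or.inr rfl
    · exact hs v
  have hsx : ∀ v, B v → 0 < s v * x v ∧ 0 < s v * Y v := by
    intro v hv
    have h1 := hB v hv
    have h2 := hsY v
    have hY0 : Y v ≠ 0 := by
      intro h
      rw [h, zero_mul] at h1
      exact lt_irrefl _ h1
    have hs0 : s v ≠ 0 := by rcases hs v with h | h <;> rw [h] <;> norm_num
    have h3 : 0 < s v * Y v := lt_of_le_of_ne h2 (mul_ne_zero hs0 hY0).symm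
    refine ⟨?_, h3⟩
    have h4 : 0 < (s v * x v) * (Y v * Y v) := by
      have : (s v * x v) * (Y v * Y v) = (s v * Y v) * (Y v * x v) := by ring
      rw [this]
      exact mul_pos h3 h1
    have h5 : 0 < Y v * Y v := mul_self_pos.2 hY0
    by_contra h6
    have h7 := mul_nonpos_of_nonpos_of_nonneg (not_lt.1 h6) h5.le
    linarith
  have hnn : ∀ v, 0 ≤ s' v * x v := by
    intro v
    by_cases hv : B v
    · rw [hs'B v hv]
      exact (hsx v hv).1.le
    · simp only [hs', if_neg hv]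
      split_ifs with h1 h2
      · linarith
      · linarith
      · have : x v = 0 := le_antisymm (not_lt.1 h1) (not_lt.1 h2)
        rw [this, mul_zero]
  have hee : ∀ v, ε v * ε v = 1 := fun v => by rcases hε v with h | h <;> rw [h] <;> norm_num
  -- products of signs
  have hpm : ∀ v, ∀ t : Vec N, IsSgn t → ε v * t v = 1 ∨ ε v * t v = -1 := by
    intro v t ht
    rcases hε v with h | h <;> rcases ht v with h' | h' <;> rw [h, h'] <;> norm_num
  have hpm1 : ∀ v, ∀ t : Vec N, IsSgn t → ε v * t (v + 1) = 1 ∨ ε v * t (v + 1) = -1 := by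
    intro v t ht
    rcases hε v with h | h <;> rcases ht (v + 1) with h' | h' <;> rw [h, h'] <;> norm_num
  have hxor : ∀ t : Vec N, IsSgn t → (∀ v, B v → t v = s v) → ∀ w, ¬ B w →
      ((t (w - 1 + 1) ≠ ε (w - 1) * t (w - 1)) ∨ (t (w + 1) ≠ ε w * t w)) ∧
      ¬ ((t (w - 1 + 1) ≠ ε (w - 1) * t (w - 1)) ∧ (t (w + 1) ≠ ε w * t w)) := by
    intro t ht htB w hw
    obtain ⟨h1, h2, h3⟩ := hS w hw
    have h4 : (ε (w - 1) * t (w - 1)) * (ε w * t (w + 1)) < 0 := by
      rw [htB _ h1, htB _ h2]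
      have h5 := (hsx _ h1).2
      have h6 := (hsx _ h2).2
      by_contra h7
      rw [not_lt] at h7
      have h8 : 0 ≤ (ε (w - 1) * s (w - 1) * (ε w * s (w + 1))) *
          ((s (w - 1) * Y (w - 1)) * (s (w + 1) * Y (w + 1))) :=
        mul_nonneg h7 (mul_pos h5 h6).le
      have hs1 : s (w - 1) * s (w - 1) = 1 := by
        rcases hs (w - 1) with h | h <;> rw [h] <;> norm_num
      have hs2 : s (w + 1) * s (w + 1) = 1 := by
        rcases hs (w + 1) with h | h <;> rw [h] <;> norm_num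
      have h9 : (ε (w - 1) * s (w - 1) * (ε w * s (w + 1))) *
          ((s (w - 1) * Y (w - 1)) * (s (w + 1) * Y (w + 1))) =
          (ε (w - 1) * Y (w - 1)) * (ε w * Y (w + 1)) * (s (w - 1) * s (w - 1)) *
            (s (w + 1) * s (w + 1)) := by ring
      rw [h9, hs1, hs2, mul_one, mul_one] at h8
      linarith
    have h10 := margin_xor (hpm (w - 1) t ht) (hpm1 w t ht) (ht w) h4
    have e1 : w - 1 + 1 = w := by ring
    have e2 : (t (w + 1) ≠ ε w * t w) ↔ (t w ≠ ε w * t (w + 1)) := by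
      have hx := hee w
      constructor
      · intro h h'
        apply h
        rw [h', ← mul_assoc, hx, one_mul]
      · intro h h'
        apply h
        rw [h', ← mul_assoc, hx, one_mul]
    rw [e1, e2]
    exact h10
  refine ⟨s', hsg', hnn, ?_⟩
  have hrep : ∀ v, s' (v + 1) ≠ ε v * s' v → ∃ e, s (e + 1) ≠ ε e * s e ∧
      (if B e then e else e - 1) = (if B v then v else v - 1) := by
    intro v hv
    by_cases h1 : B v
    · by_cases h2 : B (v + 1)
      · refine ⟨v, ?_, rfl⟩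
        rwa [hs'B _ h1, hs'B _ h2] at hv
      · rcases (hxor s hs (fun _ _ => rfl) (v + 1) h2).1 with h3 | h3
        · rw [add_sub_cancel_right] at h3
          exact ⟨v, h3, rfl⟩
        · refine ⟨v + 1, h3, ?_⟩
          rw [if_neg h2, if_pos h1, add_sub_cancel_right]
    · rcases (hxor s hs (fun _ _ => rfl) v h1).1 with h3 | h3
      · refine ⟨v - 1, h3, ?_⟩
        rw [if_neg h1, if_pos (hS v h1).1]
      · exact ⟨v, h3, rfl⟩
  intro v w hv hw
  obtain ⟨e, he, he2⟩ := hrep v hv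
  obtain ⟨e', he', he2'⟩ := hrep w hw
  have hee' := huniq e e' he he'
  subst hee'
  rw [he2] at he2'
  by_cases h1 : B v
  · by_cases h2 : B w
    · rw [if_pos h1, if_pos h2] at he2'
      exact he2'
    · rw [if_pos h1, if_neg h2] at he2'
      exfalso
      subst he2'
      exact (hxor s' hsg' hs'B w h2).2 ⟨hv, hw⟩
  · by_cases h2 : B w
    · rw [if_neg h1, if_pos h2] at he2'
      exfalso
      subst he2'
      exact (hxor s' hsg' hs'B v h1).2 ⟨hw, hv⟩
    · rw [if_neg h1, if_neg h2] at he2'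
      exact sub_left_injective he2'


def mgPath {N : ℕ} [NeZero N] (ε : Vec N) (g : ℕ → Vec N) (θ : ℝ) (y0 : Vec N) : ℕ → Vec N
  | 0 => y0
  | k + 1 => mgStep ε (g k) θ (Finset.univ : Finset (ZMod N)).toList (mgPath ε g θ y0 k)

theorem margin_nb_sub {N : ℕ} (ε x y : Vec N) : nb ε x - nb ε y = nb ε (x - y) := by
  funext w
  simp only [Pi.sub_apply, nb]
  ring

theorem margin_nb_le {N : ℕ} [NeZero N] (ε x : Vec N) (hε : IsSgn ε) : ‖nb ε x‖ ≤ 2 * ‖x‖ := by
  rw [pi_norm_le_iff_of_nonneg (by positivity)]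
  intro w
  have hs : ∀ u, |ε u| = 1 := fun u => by rcases hε u with h | h <;> rw [h] <;> norm_num
  have h1 : |x (w - 1)| ≤ ‖x‖ := norm_le_pi_norm x _
  have h2 : |x (w + 1)| ≤ ‖x‖ := norm_le_pi_norm x _
  rw [Real.norm_eq_abs, nb]
  refine (abs_add_le _ _).trans ?_
  rw [abs_mul, abs_mul, hs, hs]
  linarith

theorem margin_path {N : ℕ} [NeZero N] (hN : 3 ≤ N) (lmin L : ℝ) (h0 : 0 < lmin)
    (h1 : lmin ≤ L) (C0 : ℝ) (hC : 0 < C0) :
    ∃ K : ℝ, 1 ≤ K ∧ ∀ ε : Vec N, IsSgn ε → ∀ θ : ℝ, 0 < θ → θ ≤ 1 →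
      ∀ n : ℕ, n * θ ≤ 2 → ∀ (z g : ℕ → Vec N) (Z : ℝ), 0 < Z → InC ε (z 0) → ‖z 0‖ ≤ Z →
      (∀ k < n, (∀ w, lmin ≤ g k w ∧ g k w ≤ L) ∧
        ‖z (k + 1) - z k - θ • nb ε (g k * z k)‖ ≤ C0 * θ ^ 2 * Z) →
      ∃ Y : ℕ → Vec N, (∀ k ≤ n, InC ε (Y k)) ∧ ‖z n - Y n‖ ≤ K * θ * Z ∧ ‖z 0‖ ≤ K * ‖Y n‖ ∧
        (∀ k < n, ‖Y (k + 1) - Y k - θ • nb ε (g k * Y k)‖ ≤ K * θ ^ 2 * Z) ∧
        (∀ k < n, ‖Y (k + 1) - Y k‖ ≤ K * θ * Z) := by
  have hL : 0 < L := h0.trans_le h1
  set K1 : ℝ := N * (L * (1 + L) ^ N) with hK1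
  set K2 : ℝ := Real.exp (2 * N * L) with hK2
  set E : ℝ := C0 + K1 * K2 with hE
  have hK1' : 0 ≤ K1 := by positivity
  have hK2' : 0 < K2 := Real.exp_pos _
  have hE' : 0 ≤ E := by positivity
  refine ⟨1 + K2 + K1 * K2 + (1 + L) ^ N * K2 + 2 * E * Real.exp (4 * L), ?_, ?_⟩
  · have : 0 ≤ K2 + K1 * K2 + (1 + L) ^ N * K2 + 2 * E * Real.exp (4 * L) := by positivity
    linarith
  intro ε hε θ hθ hθ1 n hn z g Z hZ hz0 hz0Z hz
  set lst : List (ZMod N) := (Finset.univ : Finset (ZMod N)).toList with hlst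
  have hlen : lst.length = N := by
    rw [hlst, Finset.length_toList, Finset.card_univ, ZMod.card]
  set Y := mgPath ε g θ (z 0) with hY
  have hYs : ∀ k, Y (k + 1) = mgStep ε (g k) θ lst (Y k) := fun k => rfl
  have hY0 : Y 0 = z 0 := rfl
  set a : ℝ := (1 + θ * L) ^ N with ha
  have ha1 : 1 ≤ a := one_le_pow₀ (by nlinarith)
  have hae : a ≤ Real.exp (N * (θ * L)) := by
    rw [ha, Real.exp_nat_mul]
    apply pow_le_pow_left₀ (by positivity)
    have := Real.add_one_le_exp (θ * L)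
    linarith
  have hak : ∀ k ≤ n, a ^ k ≤ K2 := by
    intro k hk
    calc a ^ k ≤ a ^ n := pow_le_pow_right₀ ha1 hk
      _ ≤ Real.exp (N * (θ * L)) ^ n := pow_le_pow_left₀ (by positivity) hae n
      _ = Real.exp (n * (N * (θ * L))) := by rw [← Real.exp_nat_mul]
      _ ≤ K2 := by
          rw [hK2]
          apply Real.exp_le_exp.2
          have : (n : ℝ) * (N * (θ * L)) = (n * θ) * (N * L) := by ring
          rw [this]
          have h3 : (0 : ℝ) ≤ N * L := by positivity
          nlinarith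
  have hinC : ∀ k ≤ n, InC ε (Y k) := by
    intro k
    induction k with
    | zero => intro _; exact hz0
    | succ k ih =>
      intro hk
      rw [hYs]
      exact margin_step_inC hN h0 ε hε (g k) (hz k (by omega)).1 θ hθ.le lst _ (ih (by omega))
  have hYle' : ∀ k ≤ n, ‖Y k‖ ≤ a ^ k * ‖z 0‖ := by
    intro k
    induction k with
    | zero => intro _; rw [hY0]; simp
    | succ k ih =>
      intro hk
      rw [hYs]
      have h3 := margin_step_le hN h0 ε hε (g k) (hz k (by omega)).1 θ hθ.le lst (Y k)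
      rw [hlen] at h3
      calc _ ≤ a * ‖Y k‖ := h3
        _ ≤ a * (a ^ k * ‖z 0‖) := by
            apply mul_le_mul_of_nonneg_left (ih (by omega)) (by positivity)
        _ = _ := by ring
  have hYle : ∀ k ≤ n, ‖Y k‖ ≤ K2 * Z := by
    intro k hk
    exact (hYle' k hk).trans (mul_le_mul (hak k hk) hz0Z (norm_nonneg _) hK2'.le)
  have hYge' : ∀ k ≤ n, ‖z 0‖ ≤ a ^ k * ‖Y k‖ := by
    intro k
    induction k with
    | zero => intro _; rw [hY0]; simp
    | succ k ih =>
      intro hk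
      rw [hYs]
      have h3 := margin_step_ge hN h0 ε hε (g k) (hz k (by omega)).1 θ hθ.le lst (Y k)
      rw [hlen] at h3
      calc ‖z 0‖ ≤ a ^ k * ‖Y k‖ := ih (by omega)
        _ ≤ a ^ k * (a * ‖mgStep ε (g k) θ lst (Y k)‖) := by
            apply mul_le_mul_of_nonneg_left h3 (by positivity)
        _ = _ := by ring
  have herr : ∀ k < n, ‖Y (k + 1) - Y k - θ • nb ε (g k * Y k)‖ ≤ K1 * K2 * θ ^ 2 * Z := by
    intro k hk
    have h3 := margin_step_err hN h0 ε hε (g k) (hz k hk).1 θ hθ.le hθ1 lst (Y k)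
    rw [hlen, ← hYs, hlst, margin_nb] at h3
    refine h3.trans ?_
    have h4 := hYle k hk.le
    calc θ ^ 2 * (N * (L * (1 + L) ^ N * ‖Y k‖)) = K1 * θ ^ 2 * ‖Y k‖ := by rw [hK1]; ring
      _ ≤ K1 * θ ^ 2 * (K2 * Z) := by gcongr
      _ = _ := by ring
  have hst : ∀ k < n, ‖Y (k + 1) - Y k‖ ≤ (1 + L) ^ N * K2 * θ * Z := by
    intro k hk
    have h3 := margin_step_sub hN h0 ε hε (g k) (hz k hk).1 θ hθ.le hθ1 lst (Y k)
    rw [hlen, ← hYs] at h3
    refine h3.trans ?_
    have h4 := hYle k hk.le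
    have h5 : (1 : ℝ) ≤ (1 + L) ^ N := one_le_pow₀ (by linarith)
    calc θ * (((1 + L) ^ N - 1) * ‖Y k‖) ≤ θ * (((1 + L) ^ N) * (K2 * Z)) := by
          gcongr
          linarith
      _ = _ := by ring
  have hD : ∀ k ≤ n, ‖z k - Y k‖ ≤ E * θ ^ 2 * Z * k * (1 + 2 * L * θ) ^ k := by
    intro k
    induction k with
    | zero => intro _; rw [hY0]; simp
    | succ k ih =>
      intro hk
      have h3 := (hz k (by omega)).2
      have h4 := herr k (by omega)
      have h5 := ih (by omega)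
      have hgk := (hz k (by omega)).1
      have e : z (k + 1) - Y (k + 1) = (z (k + 1) - z k - θ • nb ε (g k * z k)) -
          (Y (k + 1) - Y k - θ • nb ε (g k * Y k)) + (z k - Y k) +
          θ • nb ε (g k * (z k - Y k)) := by
        rw [mul_sub, ← margin_nb_sub]
        module
      have h6 : ‖θ • nb ε (g k * (z k - Y k))‖ ≤ 2 * L * θ * ‖z k - Y k‖ := by
        rw [norm_smul, Real.norm_eq_abs, abs_of_pos hθ]
        have h7 := margin_nb_le ε (g k * (z k - Y k)) hε
        have h8 : ‖g k * (z k - Y k)‖ ≤ L * ‖z k - Y k‖ := by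
          rw [pi_norm_le_iff_of_nonneg (by positivity)]
          intro w
          rw [Pi.mul_apply, norm_mul, Real.norm_eq_abs, abs_of_nonneg (h0.le.trans (hgk w).1)]
          exact mul_le_mul (hgk w).2 (norm_le_pi_norm _ _) (norm_nonneg _) hL.le
        calc θ * ‖nb ε (g k * (z k - Y k))‖ ≤ θ * (2 * (L * ‖z k - Y k‖)) := by
              gcongr
              exact h7.trans (by gcongr)
          _ = _ := by ring
      have h9 : ‖z (k + 1) - Y (k + 1)‖ ≤ E * θ ^ 2 * Z + (1 + 2 * L * θ) * ‖z k - Y k‖ := by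
        rw [e]
        refine (norm_add_le _ _).trans ?_
        have h10 := norm_add_le ((z (k + 1) - z k - θ • nb ε (g k * z k)) -
          (Y (k + 1) - Y k - θ • nb ε (g k * Y k))) (z k - Y k)
        have h11 := norm_sub_le (z (k + 1) - z k - θ • nb ε (g k * z k))
          (Y (k + 1) - Y k - θ • nb ε (g k * Y k))
        have h12 : E * θ ^ 2 * Z = C0 * θ ^ 2 * Z + K1 * K2 * θ ^ 2 * Z := by rw [hE]; ring
        linarith
      have h13 : 1 ≤ (1 + 2 * L * θ) ^ (k + 1) := one_le_pow₀ (by nlinarith)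
      have h14 : 0 ≤ E * θ ^ 2 * Z := by positivity
      calc ‖z (k + 1) - Y (k + 1)‖ ≤ E * θ ^ 2 * Z + (1 + 2 * L * θ) * ‖z k - Y k‖ := h9
        _ ≤ E * θ ^ 2 * Z * (1 + 2 * L * θ) ^ (k + 1) +
            (1 + 2 * L * θ) * (E * θ ^ 2 * Z * k * (1 + 2 * L * θ) ^ k) :=
            add_le_add (le_mul_of_one_le_right h14 h13)
              (mul_le_mul_of_nonneg_left h5 (by positivity))
        _ = _ := by
            push_cast
            ring
  refine ⟨Y, hinC, ?_, ?_, ?_, ?_⟩
  · have h3 := hD n le_rfl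
    have h4 : (1 + 2 * L * θ) ^ n ≤ Real.exp (4 * L) := by
      calc (1 + 2 * L * θ) ^ n ≤ Real.exp (2 * L * θ) ^ n := by
            apply pow_le_pow_left₀ (by positivity)
            have := Real.add_one_le_exp (2 * L * θ)
            linarith
        _ = Real.exp (n * (2 * L * θ)) := by rw [← Real.exp_nat_mul]
        _ ≤ _ := by
            apply Real.exp_le_exp.2
            nlinarith
    have h5 : E * θ ^ 2 * Z * n * (1 + 2 * L * θ) ^ n ≤ 2 * E * Real.exp (4 * L) * θ * Z := by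
      calc E * θ ^ 2 * Z * n * (1 + 2 * L * θ) ^ n =
            (E * θ * Z * (1 + 2 * L * θ) ^ n) * (n * θ) := by ring
        _ ≤ (E * θ * Z * Real.exp (4 * L)) * 2 := by gcongr
        _ = _ := by ring
    refine (h3.trans h5).trans ?_
    have h6 : 0 ≤ (1 + K2 + K1 * K2 + (1 + L) ^ N * K2) * (θ * Z) := by positivity
    nlinarith
  · refine (hYge' n le_rfl).trans ?_
    have h3 := hak n le_rfl
    have h4 : a ^ n ≤ 1 + K2 + K1 * K2 + (1 + L) ^ N * K2 + 2 * E * Real.exp (4 * L) := by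
      have : 0 ≤ 1 + K1 * K2 + (1 + L) ^ N * K2 + 2 * E * Real.exp (4 * L) := by positivity
      linarith
    exact mul_le_mul_of_nonneg_right h4 (norm_nonneg _)
  · intro k hk
    refine (herr k hk).trans ?_
    have h6 : 0 ≤ (1 + K2 + (1 + L) ^ N * K2 + 2 * E * Real.exp (4 * L)) * (θ ^ 2 * Z) := by
      positivity
    nlinarith
  · intro k hk
    refine (hst k hk).trans ?_
    have h6 : 0 ≤ (1 + K2 + K1 * K2 + 2 * E * Real.exp (4 * L)) * (θ * Z) := by positivity
    nlinarith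


set_option maxHeartbeats 1000000 in
theorem margin_core {N : ℕ} [NeZero N] (lmin L K M M' T θ : ℝ) (h0 : 0 < lmin)
    (h1 : lmin ≤ L) (hK : 1 ≤ K) (hM : 0 < M) (hM' : 0 < M') (hT : 0 < T) (hT1 : T ≤ 1)
    (hθ : 0 < θ) (hθT : θ ≤ T / 2) (c1 : K * T ≤ M / 2) (c2 : L * (M' + K * T) ≤ lmin * M / 8)
    (c3 : θ * K ≤ lmin * M / 8) (c4 : M' ≤ T * lmin * M / 8)
    (ε : Vec N) (hε : IsSgn ε) (n : ℕ) (hn : 1 ≤ n * θ) (Y g : ℕ → Vec N) (Z : ℝ) (hZ : 0 < Z)
    (hinC : ∀ k ≤ n, InC ε (Y k)) (hg : ∀ k < n, ∀ w, lmin ≤ g k w ∧ g k w ≤ L)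
    (herr : ∀ k < n, ‖Y (k + 1) - Y k - θ • nb ε (g k * Y k)‖ ≤ K * θ ^ 2 * Z)
    (hst : ∀ k < n, ‖Y (k + 1) - Y k‖ ≤ K * θ * Z)
    (hdich : ∀ v, M * Z ≤ |Y n v| ∨ |Y n v| < M' * Z) (hbig : ∃ v, M * Z ≤ |Y n v|) :
    ∀ x : Vec N, ‖x - Y n‖ ≤ M / 2 * Z → InC ε x := by
  intro x hx
  have hL : 0 < L := h0.trans_le h1
  have hK0 : 0 < K := by linarith
  set B : ZMod N → Prop := fun v => M * Z ≤ |Y n v| with hB
  have hM'M : M' < M := by
    have h2 : L * M' ≤ lmin * M / 8 := by nlinarith [mul_pos hK0 hT]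
    have h3 : lmin * M ≤ L * M := mul_le_mul_of_nonneg_right h1 hM.le
    have h4 : L * M' < L * M := by nlinarith [mul_pos hL hM]
    exact lt_of_mul_lt_mul_left h4 hL.le
  have hsmall : ∀ v, ¬ B v → |Y n v| < M' * Z := fun v hv => (hdich v).resolve_left hv
  -- the number of steps
  set j0 : ℕ := ⌊T / θ⌋₊ with hj0
  have hj0T : (j0 : ℝ) * θ ≤ T := by
    have := Nat.floor_le (div_nonneg hT.le hθ.le)
    rw [← hj0, le_div_iff₀ hθ] at this
    exact this
  have hj0T' : T / 2 ≤ (j0 : ℝ) * θ := by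
    have h2 := Nat.lt_floor_add_one (T / θ)
    rw [← hj0, div_lt_iff₀ hθ] at h2
    nlinarith
  have hj0n : j0 ≤ n := by
    have h2 : (j0 : ℝ) * θ ≤ n * θ := by linarith
    have h3 := le_of_mul_le_mul_right h2 hθ
    exact_mod_cast h3
  have P1 : ∀ j ≤ n, ‖Y (n - j) - Y n‖ ≤ K * θ * j * Z := by
    intro j
    induction j with
    | zero => intro _; simp
    | succ j ih =>
      intro hj
      have h2 := ih (by omega)
      have h3 := hst (n - (j + 1)) (by omega)
      have e : n - (j + 1) + 1 = n - j := by omega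
      rw [e] at h3
      have e2 : Y (n - (j + 1)) - Y n = (Y (n - j) - Y n) - (Y (n - j) - Y (n - (j + 1))) := by abel
      rw [e2]
      refine (norm_sub_le _ _).trans ?_
      push_cast
      calc _ ≤ K * θ * j * Z + K * θ * Z := add_le_add h2 h3
        _ = _ := by ring
  have P1' : ∀ i, n - j0 ≤ i → i ≤ n → ∀ u, |Y i u - Y n u| ≤ K * T * Z := by
    intro i hi hin u
    have h2 := P1 (n - i) (by omega)
    have e : n - (n - i) = i := by omega
    rw [e] at h2
    have h3 : |Y i u - Y n u| ≤ ‖Y i - Y n‖ := norm_le_pi_norm (Y i - Y n) u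
    refine (h3.trans h2).trans ?_
    have h4 : ((n - i : ℕ) : ℝ) ≤ j0 := by
      have : n - i ≤ j0 := by omega
      exact_mod_cast this
    have h5 : ((n - i : ℕ) : ℝ) * θ ≤ T := (mul_le_mul_of_nonneg_right h4 hθ.le).trans hj0T
    calc K * θ * ((n - i : ℕ) : ℝ) * Z = K * (((n - i : ℕ) : ℝ) * θ) * Z := by ring
      _ ≤ K * T * Z := by gcongr
  have P2 : ∀ (w : ZMod N) (σ b : ℝ), (σ = 1 ∨ σ = -1) →
      (∀ i, n - j0 ≤ i → i < n → b * Z ≤ σ * nb ε (g i * Y i) w) →
      ∀ j ≤ j0, j * θ * (b - θ * K) * Z ≤ σ * (Y n w - Y (n - j) w) := by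
    intro w σ b hσ hb j
    induction j with
    | zero => intro _; simp
    | succ j ih =>
      intro hj
      have h2 := ih (by omega)
      have h3 := herr (n - (j + 1)) (by omega)
      have h4 := hb (n - (j + 1)) (by omega) (by omega)
      have e : n - (j + 1) + 1 = n - j := by omega
      rw [e] at h3
      set i := n - (j + 1) with hi
      have h5 : |Y (n - j) w - Y i w - θ * nb ε (g i * Y i) w| ≤ K * θ ^ 2 * Z :=
        (norm_le_pi_norm (Y (n - j) - Y i - θ • nb ε (g i * Y i)) w).trans h3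
      have h6 : -(K * θ ^ 2 * Z) ≤ σ * (Y (n - j) w - Y i w - θ * nb ε (g i * Y i) w) := by
        have h7 := abs_le.1 h5
        rcases hσ with rfl | rfl
        · linarith [h7.1]
        · linarith [h7.2]
      have h8 : θ * (b * Z) ≤ θ * (σ * nb ε (g i * Y i) w) := mul_le_mul_of_nonneg_left h4 hθ.le
      push_cast
      have e3 : σ * (Y n w - Y i w) = σ * (Y n w - Y (n - j) w) +
          σ * (Y (n - j) w - Y i w - θ * nb ε (g i * Y i) w) +
          θ * (σ * nb ε (g i * Y i) w) := by ring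
      rw [e3]
      have e4 : ((j : ℝ) + 1) * θ * (b - θ * K) * Z = j * θ * (b - θ * K) * Z +
          -(K * θ ^ 2 * Z) + θ * (b * Z) := by ring
      rw [e4]
      linarith
  set m := n - j0 with hm
  -- the sign change
  have key : ∀ (w p p' : ZMod N) (a a' : ℝ), (a = 1 ∨ a = -1) → (a' = 1 ∨ a' = -1) →
      (∀ u : Vec N, nb ε u w = a * u p + a' * u p') → B p → ¬ B w →
      (B p' → 0 < (a * Y n p) * (a' * Y n p')) → (a * Y m p) * Y m w < 0 := by
    intro w p p' a a' ha ha' hnb hp hw hp'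
    have habs : ∀ t : ℝ, |a * t| = |t| := by
      intro t
      rcases ha with rfl | rfl <;> simp
    have habs' : ∀ t : ℝ, |a' * t| = |t| := by
      intro t
      rcases ha' with rfl | rfl <;> simp
    obtain ⟨σ, hσ, hσp⟩ : ∃ σ : ℝ, (σ = 1 ∨ σ = -1) ∧ σ * (a * Y n p) = |Y n p| := by
      rcases le_total 0 (a * Y n p) with h | h
      · exact ⟨1, Or.inl rfl, by rw [one_mul, ← habs, abs_of_nonneg h]⟩
      · exact ⟨-1, Or.inr rfl, by rw [← habs (Y n p), abs_of_nonpos h]; ring⟩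
    have hσσ : σ * σ = 1 := by rcases hσ with rfl | rfl <;> norm_num
    have hbp : M * Z ≤ |Y n p| := hp
    have hdev : ∀ (c : ℝ), (c = 1 ∨ c = -1) → ∀ i, m ≤ i → i ≤ n → ∀ u,
        σ * (c * Y n u) - K * T * Z ≤ σ * (c * Y i u) := by
      intro c hc i hi hin u
      have h2 := abs_le.1 (P1' i hi hin u)
      rcases hσ with h3 | h3 <;> rcases hc with h4 | h4 <;> rw [h3, h4] <;> linarith [h2.1, h2.2]
    have hpi : ∀ i, m ≤ i → i ≤ n → M / 2 * Z ≤ σ * (a * Y i p) := by
      intro i hi hin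
      have h2 := hdev a ha i hi hin p
      rw [hσp] at h2
      nlinarith
    have hp'i : ∀ i, m ≤ i → i ≤ n → -((M' + K * T) * Z) ≤ σ * (a' * Y i p') := by
      intro i hi hin
      have h2 := hdev a' ha' i hi hin p'
      by_cases hBp' : B p'
      · have h3 := hp' hBp'
        have h4 : 0 < (σ * (a * Y n p)) * (σ * (a' * Y n p')) := by
          have : (σ * (a * Y n p)) * (σ * (a' * Y n p')) =
              (σ * σ) * ((a * Y n p) * (a' * Y n p')) := by ring
          rw [this, hσσ, one_mul]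
          exact h3
        have h5 : 0 < σ * (a * Y n p) := by
          rw [hσp]
          exact lt_of_lt_of_le (by positivity) hbp
        have h6 : 0 < σ * (a' * Y n p') := (mul_pos_iff_of_pos_left h5).1 h4
        nlinarith [mul_pos hM' hZ]
      · have h3 := hsmall p' hBp'
        have h4 : -|Y n p'| ≤ σ * (a' * Y n p') := by
          have h5 := abs_le.1 (le_of_eq (habs' (Y n p')))
          rcases hσ with rfl | rfl
          · linarith [h5.1]
          · linarith [h5.2]
        nlinarith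
    have hb : ∀ i, m ≤ i → i < n → (3 * lmin * M / 8) * Z ≤ σ * nb ε (g i * Y i) w := by
      intro i hi hin
      have h2 := hpi i hi hin.le
      have h3 := hp'i i hi hin.le
      obtain ⟨h4, h5⟩ := hg i hin p
      obtain ⟨h6, h7⟩ := hg i hin p'
      rw [hnb]
      simp only [Pi.mul_apply]
      have e : σ * (a * (g i p * Y i p) + a' * (g i p' * Y i p')) =
          g i p * (σ * (a * Y i p)) + g i p' * (σ * (a' * Y i p')) := by ring
      rw [e]
      have h8 : lmin * (M / 2 * Z) ≤ g i p * (σ * (a * Y i p)) :=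
        mul_le_mul h4 h2 (by positivity) (h0.le.trans h4)
      have h9 : -(L * ((M' + K * T) * Z)) ≤ g i p' * (σ * (a' * Y i p')) := by
        have h10 : g i p' * (-((M' + K * T) * Z)) ≤ g i p' * (σ * (a' * Y i p')) :=
          mul_le_mul_of_nonneg_left h3 (h0.le.trans h6)
        have h11 : g i p' * ((M' + K * T) * Z) ≤ L * ((M' + K * T) * Z) :=
          mul_le_mul_of_nonneg_right h7 (by positivity)
        linarith
      have h12 : L * (M' + K * T) * Z ≤ lmin * M / 8 * Z := mul_le_mul_of_nonneg_right c2 hZ.le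
      linarith
    have h2 := P2 w σ (3 * lmin * M / 8) hσ hb j0 le_rfl
    have h3 : M' * Z ≤ j0 * θ * (3 * lmin * M / 8 - θ * K) * Z := by
      have h4 : lmin * M / 4 ≤ 3 * lmin * M / 8 - θ * K := by linarith
      have h5 : T / 2 * (lmin * M / 4) ≤ j0 * θ * (3 * lmin * M / 8 - θ * K) :=
        mul_le_mul hj0T' h4 (by positivity) (by positivity)
      have h6 : M' ≤ j0 * θ * (3 * lmin * M / 8 - θ * K) := by linarith
      exact mul_le_mul_of_nonneg_right h6 hZ.le
    have h4 := hsmall w hw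
    have h5 : σ * Y n w ≤ |Y n w| := by
      have := abs_le.1 (le_refl |Y n w|)
      rcases hσ with rfl | rfl
      · linarith [this.2]
      · linarith [this.1]
    have h6 : σ * Y m w < 0 := by
      have e : σ * (Y n w - Y m w) = σ * Y n w - σ * Y m w := by ring
      rw [← hm, e] at h2
      linarith
    have h7 := hpi m le_rfl (by omega)
    have h8 : 0 < σ * (a * Y m p) := lt_of_lt_of_le (by positivity) h7
    have e : (a * Y m p) * Y m w = (σ * (a * Y m p)) * (σ * Y m w) := by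
      have : (σ * (a * Y m p)) * (σ * Y m w) = (σ * σ) * ((a * Y m p) * Y m w) := by ring
      rw [this, hσσ, one_mul]
    rw [e]
    exact mul_neg_of_pos_of_neg h8 h6
  -- small sites are isolated
  have hS : ∀ w, ¬ B w → B (w - 1) ∧ B (w + 1) ∧
      (ε (w - 1) * Y n (w - 1)) * (ε w * Y n (w + 1)) < 0 := by
    intro w hw
    by_contra hbad
    classical
    obtain ⟨v0, hv0⟩ := hbig
    have hex1 : ∃ i : ℕ, B (w - (i : ZMod N)) := ⟨(w - v0).val, by
      rw [ZMod.natCast_zmod_val, sub_sub_cancel]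
      exact hv0⟩
    have hex2 : ∃ i : ℕ, B (w + (i : ZMod N)) := ⟨(v0 - w).val, by
      rw [ZMod.natCast_zmod_val, add_sub_cancel]
      exact hv0⟩
    set i := Nat.find hex1 with hi
    set j := Nat.find hex2 with hj
    have hBi : B (w - (i : ZMod N)) := Nat.find_spec hex1
    have hBj : B (w + (j : ZMod N)) := Nat.find_spec hex2
    have hi' : ∀ k < i, ¬ B (w - (k : ZMod N)) := fun k hk => Nat.find_min hex1 hk
    have hj' : ∀ k < j, ¬ B (w + (k : ZMod N)) := fun k hk => Nat.find_min hex2 hk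
    have hi1 : 1 ≤ i := by
      rcases Nat.eq_zero_or_pos i with h | h
      · rw [h, Nat.cast_zero, sub_zero] at hBi
        exact absurd hBi hw
      · exact h
    have hj1 : 1 ≤ j := by
      rcases Nat.eq_zero_or_pos j with h | h
      · rw [h, Nat.cast_zero, add_zero] at hBj
        exact absurd hBj hw
      · exact h
    have hsame : B (w - 1) → B (w + 1) →
        0 < (ε (w - 1) * Y n (w - 1)) * (ε w * Y n (w + 1)) := by
      intro h2 h3
      have h4 : ¬ (ε (w - 1) * Y n (w - 1)) * (ε w * Y n (w + 1)) < 0 := fun h => hbad ⟨h2, h3, h⟩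
      have hne : ∀ u, B u → Y n u ≠ 0 := by
        intro u hu h
        have : M * Z ≤ |Y n u| := hu
        rw [h, abs_zero] at this
        nlinarith [mul_pos hM hZ]
      have hεne : ∀ u, ε u ≠ 0 := fun u => by rcases hε u with h | h <;> rw [h] <;> norm_num
      exact lt_of_le_of_ne (not_lt.1 h4)
        (mul_ne_zero (mul_ne_zero (hεne _) (hne _ h2)) (mul_ne_zero (hεne _) (hne _ h3))).symm
    -- left end
    have hA : (ε (w - (i : ZMod N)) * Y m (w - (i : ZMod N))) *
        Y m (w - (i : ZMod N) + 1) < 0 := by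
      apply key (w - (i : ZMod N) + 1) (w - (i : ZMod N)) (w - (i : ZMod N) + 1 + 1)
        (ε (w - (i : ZMod N))) (ε (w - (i : ZMod N) + 1)) (hε _) (hε _)
      · intro u
        unfold nb
        rw [add_sub_cancel_right]
      · exact hBi
      · have h2 := hi' (i - 1) (by omega)
        have e : w - ((i - 1 : ℕ) : ZMod N) = w - (i : ZMod N) + 1 := by
          rw [Nat.cast_sub hi1, Nat.cast_one]
          ring
        rwa [e] at h2
      · intro h2
        rcases Nat.lt_or_ge 1 i with h3 | h3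
        · exfalso
          have h4 := hi' (i - 2) (by omega)
          have e : w - ((i - 2 : ℕ) : ZMod N) = w - (i : ZMod N) + 1 + 1 := by
            rw [Nat.cast_sub (by omega)]
            push_cast
            ring
          rw [e] at h4
          exact h4 h2
        · have h4 : i = 1 := by omega
          have e1 : w - (i : ZMod N) = w - 1 := by rw [h4, Nat.cast_one]
          have e2 : w - (1 : ZMod N) + 1 = w := by ring
          rw [e1, e2] at h2 ⊢
          rw [e1] at hBi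
          exact hsame hBi h2
    have hA2 : (ε (w + (j : ZMod N) - 1) * Y m (w + (j : ZMod N))) *
        Y m (w + (j : ZMod N) - 1) < 0 := by
      apply key (w + (j : ZMod N) - 1) (w + (j : ZMod N)) (w + (j : ZMod N) - 1 - 1)
        (ε (w + (j : ZMod N) - 1)) (ε (w + (j : ZMod N) - 1 - 1)) (hε _) (hε _)
      · intro u
        unfold nb
        rw [sub_add_cancel]
        ring
      · exact hBj
      · have h2 := hj' (j - 1) (by omega)
        have e : w + ((j - 1 : ℕ) : ZMod N) = w + (j : ZMod N) - 1 := by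
          rw [Nat.cast_sub hj1, Nat.cast_one]
          ring
        rwa [e] at h2
      · intro h2
        rcases Nat.lt_or_ge 1 j with h3 | h3
        · exfalso
          have h4 := hj' (j - 2) (by omega)
          have e : w + ((j - 2 : ℕ) : ZMod N) = w + (j : ZMod N) - 1 - 1 := by
            rw [Nat.cast_sub (by omega)]
            push_cast
            ring
          rw [e] at h4
          exact h4 h2
        · have h4 : j = 1 := by omega
          have e1 : w + (j : ZMod N) = w + 1 := by rw [h4, Nat.cast_one]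
          have e2 : w + (1 : ZMod N) - 1 = w := by ring
          rw [e1, e2] at h2 ⊢
          rw [e1] at hBj
          have h5 := hsame h2 hBj
          rw [mul_comm]
          exact h5
    have hA2' : ε (w + (j : ZMod N) - 1) * Y m (w + (j : ZMod N) - 1) *
        Y m (w + (j : ZMod N) - 1 + 1) < 0 := by
      rw [sub_add_cancel]
      have e : ε (w + (j : ZMod N) - 1) * Y m (w + (j : ZMod N) - 1) * Y m (w + (j : ZMod N)) =
        (ε (w + (j : ZMod N) - 1) * Y m (w + (j : ZMod N))) * Y m (w + (j : ZMod N) - 1) := by ring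
      rw [e]
      exact hA2
    have heq := inC_change_unique ε hε (Y m) (hinC m (by omega)) _ _ hA hA2'
    have h2 := hj' (j - 1) (by omega)
    have e : w + ((j - 1 : ℕ) : ZMod N) = w + (j : ZMod N) - 1 := by
      rw [Nat.cast_sub hj1, Nat.cast_one]
      ring
    rw [e, ← heq] at h2
    exact h2 hBi
  apply margin_stable ε (Y n) x hε (hinC n le_rfl) B _ hS
  intro v hv
  have h2 : |x v - Y n v| ≤ M / 2 * Z := (norm_le_pi_norm (x - Y n) v).trans hx
  have h3 : M * Z ≤ |Y n v| := hv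
  have h4 : 0 < M * Z := by positivity
  rw [abs_le] at h2
  rcases le_or_gt 0 (Y n v) with h5 | h5
  · rw [abs_of_nonneg h5] at h3
    exact mul_pos (by linarith) (by linarith [h2.1])
  · rw [abs_of_neg h5] at h3
    exact mul_pos_of_neg_of_neg h5 (by linarith [h2.2])


/-- the thresholds -/
def mgM (κ M0 : ℝ) : ℕ → ℝ
  | 0 => M0
  | j + 1 => κ * (mgM κ M0 j) ^ 2

theorem mgM_pos {κ M0 : ℝ} (hκ : 0 < κ) (hM : 0 < M0) (j : ℕ) : 0 < mgM κ M0 j := by
  induction j with
  | zero => exact hM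
  | succ j ih =>
    rw [mgM]
    positivity

theorem mgM_le_one {κ M0 : ℝ} (hκ : 0 < κ) (hκ1 : κ ≤ 1) (hM : 0 < M0) (hM1 : M0 ≤ 1) (j : ℕ) :
    mgM κ M0 j ≤ 1 := by
  induction j with
  | zero => exact hM1
  | succ j ih =>
    rw [mgM]
    have h2 := mgM_pos hκ hM j
    have h3 : (mgM κ M0 j) ^ 2 ≤ 1 := pow_le_one₀ h2.le ih
    nlinarith

theorem mgM_antitone {κ M0 : ℝ} (hκ : 0 < κ) (hκ1 : κ ≤ 1) (hM : 0 < M0) (hM1 : M0 ≤ 1) :
    Antitone (mgM κ M0) := by
  apply antitone_nat_of_succ_le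
  intro j
  rw [mgM]
  have h2 := mgM_pos hκ hM j
  have h3 := mgM_le_one hκ hκ1 hM hM1 j
  have h4 : (mgM κ M0 j) ^ 2 ≤ mgM κ M0 j := by nlinarith
  nlinarith [sq_nonneg (mgM κ M0 j)]

set_option maxHeartbeats 1000000 in
theorem margin_pr {N : ℕ} [NeZero N] (hN : 3 ≤ N) (lmin lmax : ℝ) (h0 : 0 < lmin)
    (h1 : lmin ≤ lmax) (C0 cc : ℝ) (hC : 0 < C0) (hc : 0 < cc) :
    ∃ θ0 : ℝ, 0 < θ0 ∧ ∃ e0 : ℝ, 0 < e0 ∧ ∀ ε : Vec N, IsSgn ε → ∀ θ : ℝ, 0 < θ → θ ≤ θ0 →
      ∀ n : ℕ, 1 ≤ n * θ → n * θ ≤ 2 → ∀ (z g : ℕ → Vec N) (Z : ℝ), 0 < Z → InC ε (z 0) →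
      cc * Z ≤ ‖z 0‖ → ‖z 0‖ ≤ Z →
      (∀ k < n, (∀ w, lmin ≤ g k w ∧ g k w ≤ lmax) ∧
        ‖z (k + 1) - z k - θ • nb ε (g k * z k)‖ ≤ C0 * θ ^ 2 * Z) →
      ∀ x : Vec N, ‖x - z n‖ ≤ e0 * Z → InC ε x := by
  obtain ⟨K, hK1, hpath⟩ := margin_path hN lmin lmax h0 h1 C0 hC
  have hL : 0 < lmax := h0.trans_le h1
  have hK : 0 < K := by linarith
  set τ : ℝ := min (1 / (2 * K)) (lmin / (16 * lmax * K)) with hτ
  have hτ0 : 0 < τ := lt_min (by positivity) (by positivity)
  have hτ1 : τ ≤ 1 / (2 * K) := min_le_left _ _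
  have hτ2 : τ ≤ lmin / (16 * lmax * K) := min_le_right _ _
  set κ : ℝ := min 1 (min (τ * lmin / 8) (lmin / (16 * lmax))) with hκ
  have hκ0 : 0 < κ := lt_min one_pos (lt_min (by positivity) (by positivity))
  have hκ1 : κ ≤ 1 := min_le_left _ _
  have hκ2 : κ ≤ τ * lmin / 8 := (min_le_right _ _).trans (min_le_left _ _)
  have hκ3 : κ ≤ lmin / (16 * lmax) := (min_le_right _ _).trans (min_le_right _ _)
  set M0 : ℝ := min 1 (cc / K) with hM0
  have hM00 : 0 < M0 := lt_min one_pos (by positivity)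
  have hM01 : M0 ≤ 1 := min_le_left _ _
  have hM02 : M0 ≤ cc / K := min_le_right _ _
  have hanti := mgM_antitone hκ0 hκ1 hM00 hM01
  have hpos := fun j => mgM_pos hκ0 hM00 (κ := κ) j
  have hle1 := mgM_le_one hκ0 hκ1 hM00 hM01
  set MN : ℝ := mgM κ M0 N with hMN
  have hMN0 : 0 < MN := hpos N
  refine ⟨min 1 (min (τ * MN / 2) (min (lmin * MN / (8 * K)) (MN / (4 * K)))),
    lt_min one_pos (lt_min (by positivity) (lt_min (by positivity) (by positivity))),
    MN / 4, by positivity, ?_⟩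
  intro ε hε θ hθ hθ0 n hn1 hn2 z g Z hZ hz0 hz0c hz0Z hz x hx
  have hθ1 : θ ≤ 1 := hθ0.trans (min_le_left _ _)
  have hθ2 : θ ≤ τ * MN / 2 := hθ0.trans ((min_le_right _ _).trans (min_le_left _ _))
  have hθ3 : θ ≤ lmin * MN / (8 * K) :=
    hθ0.trans ((min_le_right _ _).trans ((min_le_right _ _).trans (min_le_left _ _)))
  have hθ4 : θ ≤ MN / (4 * K) :=
    hθ0.trans ((min_le_right _ _).trans ((min_le_right _ _).trans (min_le_right _ _)))
  obtain ⟨Y, hinC, hzY, hYn, herr, hst⟩ := hpath ε hε θ hθ hθ1 n hn2 z g Z hZ hz0 hz0Z hz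
  -- a big coordinate
  have hbig : ∃ v, M0 * Z ≤ |Y n v| := by
    by_contra hcon
    push Not at hcon
    have h2 : ‖Y n‖ < M0 * Z := by
      rw [pi_norm_lt_iff (by positivity)]
      exact hcon
    have h3 : K * ‖Y n‖ < K * (M0 * Z) := mul_lt_mul_of_pos_left h2 hK
    have h4 : K * (M0 * Z) ≤ cc * Z := by
      have : K * M0 ≤ cc := by
        rw [le_div_iff₀ hK] at hM02
        linarith
      nlinarith
    linarith
  -- pigeonhole
  have hpig : ∃ j ≤ N, ∀ v, mgM κ M0 j * Z ≤ |Y n v| ∨ |Y n v| < mgM κ M0 (j + 1) * Z := by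
    by_contra hcon
    push Not at hcon
    have h2 : ∀ j : Fin (N + 1), ∃ v : ZMod N, |Y n v| < mgM κ M0 j * Z ∧
        mgM κ M0 (j + 1) * Z ≤ |Y n v| := fun j => hcon j (by omega)
    choose f hf using h2
    obtain ⟨j, j', hne, hff⟩ := Fintype.exists_ne_map_eq_of_card_lt f (by
      rw [ZMod.card, Fintype.card_fin]
      omega)
    have hmain : ∀ a b : Fin (N + 1), a < b → f a = f b → False := by
      intro a b hab hfab
      have h3 := (hf a).2
      have h4 := (hf b).1
      rw [hfab] at h3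
      have h5 : mgM κ M0 b ≤ mgM κ M0 (a + 1) := hanti (by
        have : (a : ℕ) < b := hab
        omega)
      nlinarith
    rcases lt_or_gt_of_ne hne with h3 | h3
    · exact hmain j j' h3 hff
    · exact hmain j' j h3 hff.symm
  obtain ⟨j, hjN, hdich⟩ := hpig
  set M : ℝ := mgM κ M0 j with hM
  have hMpos : 0 < M := hpos j
  have hM1 : M ≤ 1 := hle1 j
  have hMNM : MN ≤ M := hanti hjN
  have hM' : mgM κ M0 (j + 1) = κ * M ^ 2 := rfl
  rw [hM'] at hdich
  have hMM : M ^ 2 ≤ M := by nlinarith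
  have hτM : τ * MN ≤ τ * M := mul_le_mul_of_nonneg_left hMNM hτ0.le
  have hKτ : K * τ ≤ 1 / 2 := by
    calc K * τ ≤ K * (1 / (2 * K)) := mul_le_mul_of_nonneg_left hτ1 hK.le
      _ = 1 / 2 := by field_simp
  have hKτ2 : lmax * K * τ ≤ lmin / 16 := by
    calc lmax * K * τ ≤ lmax * K * (lmin / (16 * lmax * K)) :=
          mul_le_mul_of_nonneg_left hτ2 (by positivity)
      _ = lmin / 16 := by field_simp
  have hκL : lmax * κ ≤ lmin / 16 := by
    calc lmax * κ ≤ lmax * (lmin / (16 * lmax)) := mul_le_mul_of_nonneg_left hκ3 hL.le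
      _ = lmin / 16 := by field_simp
  have hcore := margin_core lmin lmax K M (κ * M ^ 2) (τ * M) θ h0 h1 hK1 hMpos (by positivity)
    (by positivity) (by
      have : τ ≤ 1 := hτ1.trans (by
        rw [div_le_one (by positivity)]
        linarith)
      nlinarith) hθ (by linarith) (by
      have : K * (τ * M) = (K * τ) * M := by ring
      rw [this]
      nlinarith) (by
      have e : lmax * (κ * M ^ 2 + K * (τ * M)) = (lmax * κ) * M ^ 2 + (lmax * K * τ) * M := by ring
      rw [e]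
      have h2 : (lmax * κ) * M ^ 2 ≤ lmin / 16 * M :=
        mul_le_mul hκL hMM (by positivity) (by positivity)
      have h3 : (lmax * K * τ) * M ≤ lmin / 16 * M := mul_le_mul_of_nonneg_right hKτ2 hMpos.le
      linarith) (by
      have h2 : θ * K ≤ lmin * MN / (8 * K) * K := mul_le_mul_of_nonneg_right hθ3 hK.le
      have h3 : lmin * MN / (8 * K) * K = lmin * MN / 8 := by field_simp
      have h4 : lmin * MN ≤ lmin * M := mul_le_mul_of_nonneg_left hMNM h0.le
      linarith) (by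
      have h2 : κ * M ^ 2 ≤ τ * lmin / 8 * M ^ 2 := mul_le_mul_of_nonneg_right hκ2 (by positivity)
      have h3 : τ * lmin / 8 * M ^ 2 = τ * M * lmin * M / 8 := by ring
      linarith) ε hε n hn1 Y g Z hZ hinC (fun k hk => (hz k hk).1) herr hst hdich (by
      obtain ⟨v, hv⟩ := hbig
      refine ⟨v, le_trans ?_ hv⟩
      apply mul_le_mul_of_nonneg_right _ hZ.le
      exact hanti (Nat.zero_le j))
  apply hcore
  have e : x - Y n = (x - z n) + (z n - Y n) := by abel
  rw [e]
  refine (norm_add_le _ _).trans ?_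
  have h2 : K * θ ≤ MN / 4 := by
    calc K * θ ≤ K * (MN / (4 * K)) := mul_le_mul_of_nonneg_left hθ4 hK.le
      _ = MN / 4 := by field_simp
  have h3 : K * θ * Z ≤ MN / 4 * Z := mul_le_mul_of_nonneg_right h2 hZ.le
  have h4 : MN / 2 * Z ≤ M / 2 * Z := mul_le_mul_of_nonneg_right (by linarith) hZ.le
  linarith

alias margin := margin_pr

end Pool.Agent.Lib_helper10.CU
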