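import Pool.Agent.Lib_helper10.CU.Urn

/-!
The continuous-time process: path measure of the sequence (configuration after the `n`-th jump,
waiting time before it), by the Ionescu-Tulcea theorem, and the configuration at time `t`.
-/

set_option autoImplicit false
open scoped BigOperators Topology
open Filter MeasureTheory ProbabilityTheory
noncomputable section

namespace Pool.Agent.Lib_helper10.CU

instance instMeasUrn (K : ℕ) : MeasurableSpace (Option (Fin K × ℕ)) := ⊤

instance instDiscUrn (K : ℕ) : DiscreteMeasurableSpace (Option (Fin K × ℕ)) := ⟨fun _ => trivial⟩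

/-- Law of the next configuration: the clock at `v` rings first with probability
`rate v / total` (the empty configuration never changes). -/
def jumpLaw {N K : ℕ} [NeZero N] (lam : Fin K → ℝ) (c : Cfg N K) : Measure (Cfg N K) :=
  open Classical in
  if total lam c = 0 then Measure.dirac c
  else ∑ v, ENNReal.ofReal (rate lam c v / total lam c) • Measure.dirac (fire c v)

/-- Law of the waiting time in `c`: exponential with parameter the total rate
(by convention `1` for the empty configuration, which has no clock). -/
def waitLaw {N K : ℕ} [NeZero N] (lam : Fin K → ℝ) (c : Cfg N K) : Measure ℝ :=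
  open Classical in
  if total lam c = 0 then Measure.dirac 1 else expMeasure (total lam c)

theorem rate_nonneg {N K : ℕ} (lam : Fin K → ℝ) (hl : ∀ j, 0 < lam j) (c : Cfg N K)
    (v : ZMod N) : 0 ≤ rate lam c v := by
  unfold rate
  split
  · exact le_rfl
  · rename_i j k _
    have := hl j
    positivity

theorem total_nonneg {N K : ℕ} [NeZero N] (lam : Fin K → ℝ) (hl : ∀ j, 0 < lam j)
    (c : Cfg N K) : 0 ≤ total lam c :=
  Finset.sum_nonneg (fun v _ => rate_nonneg lam hl c v)

theorem jumpLaw_prob {N K : ℕ} [NeZero N] (lam : Fin K → ℝ) (hl : ∀ j, 0 < lam j)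
    (c : Cfg N K) : IsProbabilityMeasure (jumpLaw lam c) := by
  unfold jumpLaw
  by_cases h : total lam c = 0
  · rw [if_pos h]; infer_instance
  · rw [if_neg h]
    constructor
    have hp : 0 < total lam c := lt_of_le_of_ne (total_nonneg lam hl c) (Ne.symm h)
    simp only [Measure.coe_finsetSum, Measure.coe_smul, Finset.sum_apply, Pi.smul_apply,
      measure_univ, smul_eq_mul, mul_one]
    rw [← ENNReal.ofReal_sum_of_nonneg
      (fun v _ => div_nonneg (rate_nonneg lam hl c v) hp.le), ← Finset.sum_div]
    have : (∑ v, rate lam c v) = total lam c := rfl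
    rw [this, div_self hp.ne']
    simp

theorem waitLaw_prob {N K : ℕ} [NeZero N] (lam : Fin K → ℝ) (hl : ∀ j, 0 < lam j)
    (c : Cfg N K) : IsProbabilityMeasure (waitLaw lam c) := by
  unfold waitLaw
  by_cases h : total lam c = 0
  · rw [if_pos h]; infer_instance
  · rw [if_neg h]
    exact isProbabilityMeasure_expMeasure
      (lt_of_le_of_ne (total_nonneg lam hl c) (Ne.symm h))

instance instCountCfg (N K : ℕ) [NeZero N] : Countable (Cfg N K) := by
  unfold Cfg
  infer_instance

/-- One step: the next configuration together with the (independent) waiting time before it. -/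
def stepK {N K : ℕ} [NeZero N] (lam : Fin K → ℝ) : Kernel (Cfg N K) (Cfg N K × ℝ) where
  toFun c := (jumpLaw lam c).prod (waitLaw lam c)
  measurable' := Measurable.of_discrete

theorem stepK_markov {N K : ℕ} [NeZero N] (lam : Fin K → ℝ) (hl : ∀ j, 0 < lam j) :
    IsMarkovKernel (stepK (N := N) lam) := by
  constructor
  intro c
  have := jumpLaw_prob lam hl c
  have := waitLaw_prob lam hl c
  change IsProbabilityMeasure ((jumpLaw lam c).prod (waitLaw lam c))
  infer_instance

/-- Transition kernel from the history: it depends on the present configuration only. -/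
def histK {N K : ℕ} [NeZero N] (lam : Fin K → ℝ) (n : ℕ) :
    Kernel ((i : Finset.Iic n) → (fun _ : ℕ => Cfg N K × ℝ) i) (Cfg N K × ℝ) :=
  (stepK lam).comap (fun h => (h ⟨n, Finset.mem_Iic.2 le_rfl⟩).1)
    ((measurable_pi_apply _).fst)

theorem histK_markov {N K : ℕ} [NeZero N] (lam : Fin K → ℝ) (hl : ∀ j, 0 < lam j) (n : ℕ) :
    IsMarkovKernel (histK (N := N) lam n) := by
  have := stepK_markov (N := N) lam hl
  unfold histK
  infer_instance

/-- Path measure of the process started at `c`. A path is the sequence of pairs
(configuration after the `n`-th jump, waiting time before the `n`-th jump), `n ≥ 0`, with the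
pair `(c, 0)` for `n = 0`. -/
def law {N K : ℕ} [NeZero N] (lam : Fin K → ℝ) (hl : ∀ j, 0 < lam j) (c : Cfg N K) :
    Measure (ℕ → Cfg N K × ℝ) :=
  haveI : ∀ n, IsMarkovKernel (histK (N := N) lam n) := fun n => histK_markov lam hl n
  Kernel.traj (X := fun _ => Cfg N K × ℝ) (histK lam) 0 (fun _ => (c, 0))

theorem law_prob {N K : ℕ} [NeZero N] (lam : Fin K → ℝ) (hl : ∀ j, 0 < lam j) (c : Cfg N K) :
    IsProbabilityMeasure (law lam hl c) := by
  have : ∀ n, IsMarkovKernel (histK (N := N) lam n) := fun n => histK_markov lam hl n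
  unfold law
  infer_instance

/-- time of the `n`-th jump -/
def jumpTime {N K : ℕ} (ω : ℕ → Cfg N K × ℝ) (n : ℕ) : ℝ :=
  ∑ i ∈ Finset.range n, (ω (i + 1)).2

/-- configuration at time `t` -/
def stateAt {N K : ℕ} (ω : ℕ → Cfg N K × ℝ) (t : ℝ) : Cfg N K :=
  (ω (sInf {n | t < jumpTime ω (n + 1)})).1

end Pool.Agent.Lib_helper10.CU
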