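import Pool.Agent.Lib_helper10.CU.Defs

-- block RHO written by helper85
/-! Block RHO: the critical value (helper85). -/

set_option autoImplicit false
open scoped BigOperators Topology
open Filter
noncomputable section

namespace Pool.Agent.Lib_helper10.CU

theorem rho_rate_nonneg {N K : ℕ} {lam : Fin K → ℝ} (hl : ∀ j, 0 < lam j) (c : Cfg N K)
    (v : ZMod N) : 0 ≤ rate lam c v := by
  unfold rate
  split
  · exact le_rfl
  · rename_i j k _
    have := hl j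
    positivity

theorem rho_rate_le {N K : ℕ} {lam : Fin K → ℝ} {lmax : ℝ} (hl : ∀ j, lam j ≤ lmax)
    (c : Cfg N K) (v : ZMod N) : rate lam c v ≤ lmax * cnt c v := by
  unfold rate cnt
  rcases hcv : c v with _ | ⟨j, k⟩
  · simp
  · simp only []
    push_cast
    exact mul_le_mul_of_nonneg_right (hl j) (by positivity)

theorem rho_sm_abs {N K : ℕ} (c : Cfg N K) (v w : ZMod N) : |sm c v w| ≤ 1 := by
  unfold sm
  split
  · split_ifs <;> simp
  · simp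

theorem Rc_bound_pr {N K : ℕ} [NeZero N] (hN : 3 ≤ N) (lam : Fin K → ℝ) (lmin lmax : ℝ)
    (h0 : 0 < lmin) (hlm : lmin ≤ lmax) (hl : ∀ j, lmin ≤ lam j ∧ lam j ≤ lmax) (c : Cfg N K) :
    |Rc lam c| ≤ 2 * lmax := by
  have hl0 : ∀ j, 0 < lam j := fun j => lt_of_lt_of_le h0 (hl j).1
  have hx : ∀ v, 0 ≤ rate lam c v := rho_rate_nonneg hl0 c
  have hxle : ∀ v, rate lam c v ≤ lmax * cnt c v := rho_rate_le (fun j => (hl j).2) c
  have hE0 : 0 ≤ E0 lam c := Finset.sum_nonneg fun v _ => mul_nonneg (hx v) (Nat.cast_nonneg _)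
  have hshift : ∑ v, rate lam c (v + 1) ^ 2 = ∑ v, rate lam c v ^ 2 :=
    Equiv.sum_comp (Equiv.addRight (1 : ZMod N)) (fun v => rate lam c v ^ 2)
  have h1 : |E1 lam c| ≤ 2 * ∑ v, rate lam c v ^ 2 := by
    unfold E1
    rw [abs_mul, abs_two]
    refine mul_le_mul_of_nonneg_left ?_ (by norm_num)
    refine (Finset.abs_sum_le_sum_abs _ _).trans ?_
    have h2 : ∀ v, |sm c v (v + 1) * rate lam c v * rate lam c (v + 1)| ≤
        (rate lam c v ^ 2 + rate lam c (v + 1) ^ 2) / 2 := by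
      intro v
      rw [abs_mul, abs_mul, abs_of_nonneg (hx v), abs_of_nonneg (hx (v + 1))]
      have h3 := rho_sm_abs c v (v + 1)
      have h4 : |sm c v (v + 1)| * rate lam c v * rate lam c (v + 1) ≤
          rate lam c v * rate lam c (v + 1) := by
        rw [mul_assoc]
        exact mul_le_of_le_one_left (mul_nonneg (hx _) (hx _)) h3
      nlinarith [sq_nonneg (rate lam c v - rate lam c (v + 1))]
    refine (Finset.sum_le_sum fun v _ => h2 v).trans (le_of_eq ?_)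
    rw [← Finset.sum_div, Finset.sum_add_distrib, hshift]
    ring
  have h2 : ∑ v, rate lam c v ^ 2 ≤ lmax * E0 lam c := by
    unfold E0
    rw [Finset.mul_sum]
    refine Finset.sum_le_sum fun v _ => ?_
    have := mul_le_mul_of_nonneg_left (hxle v) (hx v)
    nlinarith
  unfold Rc
  rw [abs_div, abs_of_nonneg hE0]
  refine div_le_of_le_mul₀ hE0 (by linarith) ?_
  nlinarith

theorem exists_rho_pr {N K : ℕ} [NeZero N] (hN : 3 ≤ N) (lam : Fin K → ℝ) (lmin lmax : ℝ)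
    (h0 : 0 < lmin) (hlm : lmin ≤ lmax) (hl : ∀ j, lmin ≤ lam j ∧ lam j ≤ lmax) (m : ℕ)
    (H : ∀ θ : ℝ, θ < 1 → ∃ c : Cfg N K, θ < qq lam m c) :
    ∃ ρ : ℝ, |ρ| ≤ 2 * lmax ∧
      (∀ δ > 0, ∃ c0 > 0, ∀ c : Cfg N K, 1 - c0 ≤ qq lam m c → Rc lam c ≤ ρ + δ) ∧
      (∀ δ > 0, ∀ ε > 0, ∃ c : Cfg N K, 1 - ε ≤ qq lam m c ∧ ρ - δ ≤ Rc lam c) := by
  have hb : ∀ c : Cfg N K, |Rc lam c| ≤ 2 * lmax := Rc_bound_pr hN lam lmin lmax h0 hlm hl
  set T : ℝ → Set ℝ := fun ε => (Rc lam) '' {c : Cfg N K | 1 - ε ≤ qq lam m c} with hT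
  have hTb : ∀ ε, BddAbove (T ε) := by
    intro ε
    refine ⟨2 * lmax, ?_⟩
    rintro _ ⟨c, _, rfl⟩
    exact (abs_le.1 (hb c)).2
  have hTn : ∀ ε > 0, (T ε).Nonempty := by
    intro ε hε
    obtain ⟨c, hc⟩ := H (1 - ε) (by linarith)
    exact ⟨_, c, hc.le, rfl⟩
  have hlo : ∀ ε > 0, -(2 * lmax) ≤ sSup (T ε) := by
    intro ε hε
    obtain ⟨_, c, hc, rfl⟩ := hTn ε hε
    exact (abs_le.1 (hb c)).1.trans (le_csSup (hTb ε) ⟨c, hc, rfl⟩)
  have hhi : ∀ ε > 0, sSup (T ε) ≤ 2 * lmax := by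
    intro ε hε
    refine csSup_le (hTn ε hε) ?_
    rintro _ ⟨c, _, rfl⟩
    exact (abs_le.1 (hb c)).2
  set S : Set ℝ := {r | ∃ ε > 0, r = sSup (T ε)} with hS
  have hSn : S.Nonempty := ⟨_, 1, one_pos, rfl⟩
  have hSb : BddBelow S := ⟨-(2 * lmax), by rintro _ ⟨ε, hε, rfl⟩; exact hlo ε hε⟩
  refine ⟨sInf S, ?_, ?_, ?_⟩
  · rw [abs_le]
    refine ⟨le_csInf hSn ?_, (csInf_le hSb ⟨1, one_pos, rfl⟩).trans (hhi 1 one_pos)⟩
    rintro _ ⟨ε, hε, rfl⟩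
    exact hlo ε hε
  · intro δ hδ
    obtain ⟨_, ⟨ε, hε, rfl⟩, hr⟩ := exists_lt_of_csInf_lt hSn (lt_add_of_pos_right (sInf S) hδ)
    refine ⟨ε, hε, fun c hc => ?_⟩
    exact (le_csSup (hTb ε) ⟨c, hc, rfl⟩).trans hr.le
  · intro δ hδ ε hε
    have h1 : sInf S - δ < sSup (T ε) := by
      have := csInf_le hSb (show sSup (T ε) ∈ S from ⟨ε, hε, rfl⟩)
      linarith
    obtain ⟨_, ⟨c, hc, rfl⟩, hr⟩ := exists_lt_of_lt_csSup (hTn ε hε) h1
    exact ⟨c, hc, hr.le⟩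

alias Rc_bound := Rc_bound_pr
alias exists_rho := exists_rho_pr

end Pool.Agent.Lib_helper10.CU
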