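import Mathlib

/-!
MP_c1a6e4_pr: the competing urn scheme on the cycle `C_N` (vertices `ZMod N`, `N ≥ 3`),
`K` types, rates `lam j > 0`.
-/

set_option autoImplicit false
open scoped BigOperators
noncomputable section

namespace Pool.Agent.Lib_helper10.CU

/-! ### The urn scheme -/

/-- Urn content: `none` is the empty urn, `some (j,k)` is an urn with `k+1` balls, all of type `j`. -/
abbrev Urn (K : ℕ) := Option (Fin K × ℕ)

/-- Configurations on the cycle. -/
abbrev Cfg (N K : ℕ) := ZMod N → Urn K

/-- A new ball of type `j` arrives at an urn. -/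
def recv {K : ℕ} (j : Fin K) : Urn K → Urn K
  | none => some (j, 0)
  | some (i, k) => if i = j then some (i, k + 1) else
      match k with
      | 0 => none
      | k' + 1 => some (i, k')

/-- A nucleation at `v`: one new ball of the type of `v` is sent to each of the two neighbours. -/
def fire {N K : ℕ} (c : Cfg N K) (v : ZMod N) : Cfg N K :=
  match c v with
  | none => c
  | some (j, _) => fun w => if w = v + 1 ∨ w = v - 1 then recv j (c w) else c w

/-- Number of balls at `v`. -/
def cnt {N K : ℕ} (c : Cfg N K) (v : ZMod N) : ℕ :=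
  match c v with
  | none => 0
  | some (_, k) => k + 1

/-- Total clock rate at `v`. -/
def rate {N K : ℕ} (lam : Fin K → ℝ) (c : Cfg N K) (v : ZMod N) : ℝ :=
  match c v with
  | none => 0
  | some (j, k) => lam j * ((k : ℝ) + 1)

/-- Total clock rate. -/
def total {N K : ℕ} [NeZero N] (lam : Fin K → ℝ) (c : Cfg N K) : ℝ := ∑ v, rate lam c v

end Pool.Agent.Lib_helper10.CU
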